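import Mathlib

set_option autoImplicit false

/-!
# Commutator equations in free nilpotent groups (MP_76db9d_al): definitions
-/

namespace Pool.Agent.H32CE

/-- the free associative algebra over `ℝ` on `ι`; basis: the words -/
abbrev T (ι : Type) := MonoidAlgebra ℝ (FreeMonoid ι)

/-- a generator -/
noncomputable def X {ι : Type} (i : ι) : T ι := MonoidAlgebra.single (FreeMonoid.of i) 1

/-- weight of a word -/
def wd {ι : Type} (w : ι → ℕ) (m : FreeMonoid ι) : ℕ := ((FreeMonoid.toList m).map w).sum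

/-- homogeneous of weight `k` -/
def IsH {ι : Type} (w : ι → ℕ) (k : ℕ) (f : T ι) : Prop := ∀ m, f.coeff m ≠ 0 → wd w m = k

/-- the unshuffle coproduct, with values in `T ⊗ T = ` the monoid algebra of pairs of words -/
noncomputable def cop (ι : Type) : T ι →ₐ[ℝ] MonoidAlgebra ℝ (FreeMonoid ι × FreeMonoid ι) :=
  MonoidAlgebra.lift ℝ (MonoidAlgebra ℝ (FreeMonoid ι × FreeMonoid ι)) (FreeMonoid ι)
    (FreeMonoid.lift fun i =>
      MonoidAlgebra.single (FreeMonoid.of i, 1) 1 + MonoidAlgebra.single (1, FreeMonoid.of i) 1)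

/-- `f ⊗ 1` -/
noncomputable def lft (ι : Type) : T ι →ₐ[ℝ] MonoidAlgebra ℝ (FreeMonoid ι × FreeMonoid ι) :=
  MonoidAlgebra.mapDomainAlgHom ℝ ℝ (MonoidHom.inl (FreeMonoid ι) (FreeMonoid ι))

/-- `1 ⊗ f` -/
noncomputable def rgt (ι : Type) : T ι →ₐ[ℝ] MonoidAlgebra ℝ (FreeMonoid ι × FreeMonoid ι) :=
  MonoidAlgebra.mapDomainAlgHom ℝ ℝ (MonoidHom.inr (FreeMonoid ι) (FreeMonoid ι))

/-- primitive elements -/
def Prim {ι : Type} (f : T ι) : Prop := cop ι f = lft ι f + rgt ι f

/-- primitive and homogeneous of degree `k` (all generators of degree 1) -/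
def PH {ι : Type} (k : ℕ) (f : T ι) : Prop := IsH (fun _ => 1) k f ∧ Prim f

/-- substitution -/
noncomputable def sub {ι : Type} {A : Type} [Ring A] [Algebra ℝ A] (e : ι → A) : T ι →ₐ[ℝ] A :=
  MonoidAlgebra.lift ℝ A (FreeMonoid ι) (FreeMonoid.lift e)

/-- Lie bracket -/
def br {A : Type} [Ring A] (a b : A) : A := a * b - b * a

/-- right independent families -/
def RInd {ι : Type} {k : ℕ} (e : Fin k → T ι) : Prop :=
  ∀ w : Fin k → T ι, ∑ i, e i * w i = 0 → ∀ i, w i = 0

/-- `l¹` norm of the coefficients -/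
noncomputable def nm {ι : Type} (f : T ι) : ℝ := f.coeff.sum fun _ a => |a|

/-- inner product of the coefficients -/
noncomputable def ip {ι : Type} (f g : T ι) : ℝ := f.coeff.sum fun m a => a * g.coeff m

/-- power series in a central variable with coefficients in `A`; `A = T ι` is the algebra in which
the Magnus expansions live -/
abbrev PS (A : Type) [Ring A] := PowerSeries A

/-- the coefficients of index `< k` vanish -/
def ordge {A : Type} [Ring A] (k : ℕ) (f : PS A) : Prop := ∀ i, i < k → PowerSeries.coeff i f = 0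

/-- all coefficients are primitive and homogeneous of the right degree -/
def PP {ι : Type} (f : PS (T ι)) : Prop := ∀ i, PH i (PowerSeries.coeff i f)

/-- `exp (τ^w X)` -/
noncomputable def ex {A : Type} [Ring A] [Algebra ℝ A] (w : ℕ) (x : A) : PS A :=
  PowerSeries.mk fun n => if w ∣ n then ((n / w).factorial : ℝ)⁻¹ • x ^ (n / w) else 0

/-- `1 + τ^w x` -/
noncomputable def li {A : Type} [Ring A] (w : ℕ) (x : A) : PS A :=
  PowerSeries.mk fun n => if n = 0 then 1 else if n = w then x else 0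

/-- `(1 + τ^w x)⁻¹` -/
noncomputable def lii {A : Type} [Ring A] (w : ℕ) (x : A) : PS A :=
  PowerSeries.mk fun n => if w ∣ n then (-x) ^ (n / w) else 0

theorem ex_add {A : Type} [Ring A] [Algebra ℝ A] (w : ℕ) (hw : 1 ≤ w) (x y : A)
    (h : Commute x y) : ex w x * ex w y = ex w (x + y) := by
  ext n
  rw [PowerSeries.coeff_mul]
  simp only [ex, PowerSeries.coeff_mk]
  by_cases hn : w ∣ n
  · obtain ⟨k, rfl⟩ := hn
    have hinj : Function.Injective (fun p : ℕ × ℕ => (w * p.1, w * p.2)) := by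
      rintro ⟨a, b⟩ ⟨c, d⟩ h
      simp only [Prod.mk.injEq] at h
      have h1 := Nat.eq_of_mul_eq_mul_left hw h.1
      have h2 := Nat.eq_of_mul_eq_mul_left hw h.2
      rw [h1, h2]
    rw [if_pos (dvd_mul_right w k), Nat.mul_div_cancel_left k hw, h.add_pow', Finset.smul_sum]
    symm
    have hsub : (Finset.HasAntidiagonal.antidiagonal k).map ⟨_, hinj⟩ ⊆ Finset.HasAntidiagonal.antidiagonal (w * k) := by
      intro p hp
      simp only [Finset.mem_map, Finset.HasAntidiagonal.mem_antidiagonal, Function.Embedding.coeFn_mk] at hp ⊢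
      obtain ⟨q, hq, rfl⟩ := hp
      rw [← hq]; ring
    rw [← Finset.sum_subset hsub]
    · rw [Finset.sum_map]
      apply Finset.sum_congr rfl
      rintro ⟨a, b⟩ hab
      simp only [Finset.HasAntidiagonal.mem_antidiagonal] at hab
      simp only [Function.Embedding.coeFn_mk, dvd_mul_right, if_true, Nat.mul_div_cancel_left _ hw]
      rw [smul_mul_smul_comm, ← hab, ← Nat.cast_smul_eq_nsmul ℝ, smul_smul]
      congr 1
      have hch := Nat.add_choose_mul_factorial_mul_factorial a b
      rw [← Nat.choose_symm_add] at hch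
      have hch' : ((a + b).choose a : ℝ) * a.factorial * b.factorial = (a + b).factorial := by
        exact_mod_cast hch
      have h1 : ((a + b).factorial : ℝ) ≠ 0 := by positivity
      have h2 : ((a).factorial : ℝ) ≠ 0 := by positivity
      have h3 : ((b).factorial : ℝ) ≠ 0 := by positivity
      field_simp
      linarith
    · rintro ⟨a, b⟩ hab hnot
      simp only [Finset.HasAntidiagonal.mem_antidiagonal] at hab
      by_cases ha : w ∣ a
      · by_cases hb : w ∣ b
        · exfalso
          obtain ⟨a', rfl⟩ := ha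
          obtain ⟨b', rfl⟩ := hb
          apply hnot
          simp only [Finset.mem_map, Finset.HasAntidiagonal.mem_antidiagonal, Function.Embedding.coeFn_mk]
          refine ⟨(a', b'), ?_, rfl⟩
          apply Nat.eq_of_mul_eq_mul_left hw
          rw [← hab]; ring
        · simp [hb]
      · simp [ha]
  · rw [if_neg hn]
    apply Finset.sum_eq_zero
    rintro ⟨a, b⟩ hab
    simp only [Finset.HasAntidiagonal.mem_antidiagonal] at hab
    by_cases ha : w ∣ a
    · have hb : ¬ w ∣ b := fun hb => hn (hab ▸ dvd_add ha hb)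
      simp [hb]
    · simp [ha]

theorem ex_zero {A : Type} [Ring A] [Algebra ℝ A] (w : ℕ) (hw : 1 ≤ w) : ex w (0 : A) = 1 := by
  ext n
  simp only [ex, PowerSeries.coeff_mk, PowerSeries.coeff_one]
  by_cases h0 : n = 0
  · subst h0; simp
  · rw [if_neg h0]
    split_ifs with h
    · have : n / w ≠ 0 := by
        obtain ⟨k, rfl⟩ := h
        rw [Nat.mul_div_cancel_left k hw]
        rintro rfl; simp at h0
      simp [this]
    · rfl

theorem li_mul_lii {A : Type} [Ring A] (w : ℕ) (hw : 1 ≤ w) (x : A) : li w x * lii w x = 1 := by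
  ext n
  rw [PowerSeries.coeff_mul]
  simp only [li, lii, PowerSeries.coeff_mk, PowerSeries.coeff_one]
  rw [Finset.Nat.sum_antidiagonal_eq_sum_range_succ_mk]
  have key : ∀ i ∈ Finset.range n.succ, ((if i = 0 then (1:A) else if i = w then x else 0) *
      (if w ∣ (n - i) then (-x) ^ ((n - i) / w) else 0)) =
      (if i = 0 then (if w ∣ n then (-x) ^ (n / w) else 0) else 0) +
      (if i = w then x * (if w ∣ (n - w) then (-x) ^ ((n - w) / w) else 0) else 0) := by
    intro i _
    by_cases h0 : i = 0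
    · subst h0
      have : (0:ℕ) ≠ w := by omega
      simp [this]
    · by_cases h1 : i = w
      · subst h1; simp [h0]
      · simp [h0, h1]
  rw [Finset.sum_congr rfl key, Finset.sum_add_distrib]
  simp only [Finset.sum_ite_eq', Finset.mem_range]
  by_cases hn0 : n = 0
  · subst hn0
    have : ¬ (w < 1) := by omega
    simp [this]
  · rw [if_neg hn0, if_pos (by omega)]
    by_cases hwn : w < n + 1
    · rw [if_pos hwn]
      have hle : w ≤ n := by omega
      by_cases hd : w ∣ n
      · obtain ⟨k, rfl⟩ := hd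
        obtain ⟨k', rfl⟩ : ∃ k', k = k' + 1 := ⟨k - 1, by
          have : k ≠ 0 := by rintro rfl; simp at hn0
          omega⟩
        have e1 : w * (k' + 1) - w = w * k' := by rw [Nat.mul_succ, Nat.add_sub_cancel]
        rw [e1, if_pos (dvd_mul_right _ _), if_pos (dvd_mul_right _ _),
          Nat.mul_div_cancel_left _ hw, Nat.mul_div_cancel_left _ hw, pow_succ']
        noncomm_ring
      · rw [if_neg hd, if_neg (fun h => hd (by
          have := (Nat.dvd_add_right (dvd_refl w)).2 h
          rwa [Nat.add_sub_cancel' hle] at this))]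
        simp
    · rw [if_neg hwn, if_neg (fun h => hn0 (Nat.eq_zero_of_dvd_of_lt h (by omega)))]
      simp

theorem lii_mul_li {A : Type} [Ring A] (w : ℕ) (hw : 1 ≤ w) (x : A) : lii w x * li w x = 1 := by
  have hc : lii w x * li w x = li w x * lii w x := by
    ext n
    rw [PowerSeries.coeff_mul, PowerSeries.coeff_mul, ← Finset.Nat.sum_antidiagonal_swap]
    apply Finset.sum_congr rfl
    rintro ⟨a, b⟩ _
    simp only [li, lii, PowerSeries.coeff_mk, Prod.swap]
    by_cases h0 : a = 0
    · subst h0; simp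
    · by_cases h1 : a = w
      · subst h1
        simp only [h0, if_false, if_true]
        split_ifs
        · exact ((Commute.refl x).neg_left.pow_left _).eq
        · simp
      · simp [h0, h1]
  rw [hc, li_mul_lii w hw]

/-- the unit `exp (τ^w x)` -/
noncomputable def exU {A : Type} [Ring A] [Algebra ℝ A] (w : ℕ) (hw : 1 ≤ w) (x : A) : (PS A)ˣ where
  val := ex w x
  inv := ex w (-x)
  val_inv := by rw [ex_add w hw _ _ (Commute.refl x).neg_right, add_neg_cancel, ex_zero w hw]
  inv_val := by rw [ex_add w hw _ _ (Commute.refl x).neg_left, neg_add_cancel, ex_zero w hw]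

/-- the unit `1 + τ^w x` -/
noncomputable def liU {A : Type} [Ring A] (w : ℕ) (hw : 1 ≤ w) (x : A) : (PS A)ˣ where
  val := li w x
  inv := lii w x
  val_inv := li_mul_lii w hw x
  inv_val := lii_mul_li w hw x

/-- exponential Magnus homomorphism, `a_i ↦ exp (τ X_i)` -/
noncomputable def magU (ι : Type) : FreeGroup ι →* (PS (T ι))ˣ :=
  FreeGroup.lift fun i => exU 1 le_rfl (X i)

/-- exponential Magnus expansion -/
noncomputable def mag {ι : Type} (x : FreeGroup ι) : PS (T ι) := (magU ι x : PS (T ι))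

/-- its coefficients -/
noncomputable def cf {ι : Type} (k : ℕ) (x : FreeGroup ι) : T ι := PowerSeries.coeff k (mag x)

/-- `D k`: the expansion is `1 + O(τ^k)` -/
def D {ι : Type} (k : ℕ) (x : FreeGroup ι) : Prop := ∀ i, 1 ≤ i → i < k → cf i x = 0

/-- commutator as in the problem -/
def cm {G : Type} [Group G] (x y : G) : G := x⁻¹ * y⁻¹ * x * y

/-- length -/
def len {ι : Type} [DecidableEq ι] (x : FreeGroup ι) : ℕ := x.toWord.length

/-- weighted linear Magnus homomorphism on the free group of rank 2,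
`α ↦ 1 + τ^p α`, `β ↦ 1 + τ^q β` -/
noncomputable def mg2U (p q : ℕ) (hp : 1 ≤ p) (hq : 1 ≤ q) :
    FreeGroup (Fin 2) →* (PS (T (Fin 2)))ˣ :=
  FreeGroup.lift ![liU p hp (X 0), liU q hq (X 1)]

/-- coefficients of the weighted expansion -/
noncomputable def cf2 (p q : ℕ) (hp : 1 ≤ p) (hq : 1 ≤ q) (k : ℕ) (x : FreeGroup (Fin 2)) :
    T (Fin 2) := PowerSeries.coeff k ((mg2U p q hp hq x : (PS (T (Fin 2)))ˣ) : PS (T (Fin 2)))

/-- weighted filtration of the free group of rank 2 -/
def G2 (p q : ℕ) (hp : 1 ≤ p) (hq : 1 ≤ q) (k : ℕ) (x : FreeGroup (Fin 2)) : Prop :=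
  ∀ i, 1 ≤ i → i < k → cf2 p q hp hq i x = 0

/-- typed pairs: leading terms `a`, `b` in degrees `p`, `q` which do not commute -/
def Typed {r : ℕ} (p q : ℕ) (x y : FreeGroup (Fin r)) : Prop :=
  D p x ∧ D q y ∧ br (cf p x) (cf q y) ≠ 0

/-- `[x, y] = g` modulo `D (c + 1)` -/
def Sol {r : ℕ} (c : ℕ) (g x y : FreeGroup (Fin r)) : Prop := D (c + 1) (g⁻¹ * cm x y)

/-- linearised commutator map at `(x, y)` -/
noncomputable def Psi {r : ℕ} (x y : FreeGroup (Fin r)) (δ ε : PS (T (Fin r))) : PS (T (Fin r)) :=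
  mag y⁻¹ * δ * mag y - mag (cm x y)⁻¹ * δ * mag (cm x y) + ε
    - mag (x * cm x y)⁻¹ * ε * mag (x * cm x y)

/-- the bounded solution property at level `j` -/
def HL (r c p q j : ℕ) : Prop := ∃ C E : ℕ, ∀ g : FreeGroup (Fin r),
  (∃ x y, Typed p q x y ∧ Sol c g x y) →
  ∃ x y x₀ y₀, Typed p q x y ∧ Sol c g x y ∧ D (p + j) (x₀⁻¹ * x) ∧ D (q + j) (y₀⁻¹ * y) ∧
    len x₀ ≤ C * (len g + 1) ^ E ∧ len y₀ ≤ C * (len g + 1) ^ E

/-- bounded solutions -/
def BD (r c : ℕ) : Prop := ∃ C E : ℕ, ∀ g : FreeGroup (Fin r),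
  (∃ x y, Sol c g x y) → ∃ x y, Sol c g x y ∧
    len x ≤ C * (len g + 1) ^ E ∧ len y ≤ C * (len g + 1) ^ E

end Pool.Agent.H32CE
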