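import Mathlib
import Pool.Agent.H32CE.Defs

set_option autoImplicit false

/-!
# MP_76db9d_al: exact statements of the independent tasks (see the file H32CE.md for proofs)
-/

namespace Pool.Agent.H32CE

open PowerSeries

attribute [local instance 100] LieRing.ofAssociativeRing

/-! ## A. Primitive elements of free algebras -/

/-- Substituting primitive elements in a primitive element. -/
def S_SUBP : Prop := ∀ (ι κ : Type) (e : κ → T ι) (U : T κ), (∀ i, Prim (e i)) → Prim U →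
  Prim (sub e U)

/-- Substituting homogeneous elements in a homogeneous element. -/
def S_SUBH : Prop := ∀ (ι κ : Type) (e : κ → T ι) (d : κ → ℕ) (m : ℕ) (U : T κ),
  (∀ i, IsH (fun _ => 1) (d i) (e i)) → IsH d m U → IsH (fun _ => 1) m (sub e U)

/-- Brackets of primitive homogeneous elements. -/
def S_BRP : Prop := ∀ (ι : Type) (w : ι → ℕ) (m n : ℕ) (u v : T ι),
  (Prim u → Prim v → Prim (br u v)) ∧ (IsH w m u → IsH w n v → IsH w (m + n) (br u v))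

/-- Antipode. -/
def S_ANT : Prop := ∀ (ι : Type), ∃ S : T ι →ₗ[ℝ] T ι, (∀ a b, S (a * b) = S b * S a) ∧
  (∀ u, Prim u → S u = -u) ∧ (∀ m u, IsH (fun _ => 1) m u → IsH (fun _ => 1) m (S u))

/-- A primitive element of `a T` is a multiple of `a`. -/
def S_F0 : Prop := ∀ (ι : Type) (p m : ℕ) (a u w : T ι), 1 ≤ p → PH p a → a ≠ 0 → PH m u →
  u = a * w → ∃ c : ℝ, u = c • a

/-- Weak algorithm. -/
def S_WA : Prop := ∀ (ι : Type) (k : ℕ) (e w : Fin k → T ι) (d : Fin k → ℕ),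
  (∀ i, IsH (fun _ => 1) (d i) (e i)) → ∑ i, e i * w i = 0 → (∃ i, w i ≠ 0) →
  ∃ i, ∃ v : Fin k → T ι, v i = 0 ∧ (∀ l, d i < d l → v l = 0) ∧ e i = ∑ l, e l * v l

/-- Primitive elements in a right ideal generated by right independent primitive elements. -/
def S_F1 : Prop := ∀ (ι : Type) (k : ℕ) (e : Fin k → T ι) (d : Fin k → ℕ), (∀ i, 1 ≤ d i) →
  (∀ i, PH (d i) (e i)) → RInd e → Function.Injective (sub e) ∧
  ∀ u : T ι, Prim u → (∃ w : Fin k → T ι, u = ∑ i, e i * w i) →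
    ∃ U : T (Fin k), Prim U ∧ sub e U = u ∧ ∀ m, IsH (fun _ => 1) m u → IsH d m U

/-- Commuting primitive homogeneous elements. -/
def S_P1 : Prop := ∀ (ι : Type) (p q : ℕ) (a b : T ι), 1 ≤ p → 1 ≤ q → PH p a → PH q b →
  a ≠ 0 → b ≠ 0 → br a b = 0 → p = q ∧ ∃ c : ℝ, b = c • a

/-- Non-commuting primitive homogeneous elements are right independent. -/
def S_IND2 : Prop := ∀ (ι : Type) (p q : ℕ) (a b : T ι), 1 ≤ p → 1 ≤ q → PH p a → PH q b →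
  br a b ≠ 0 → RInd ![a, b]

/-- Suffix lemma. -/
def S_SUF : Prop := ∀ (ι : Type) (p p' q m m' : ℕ) (a s b u v : T ι), 1 ≤ p → 1 ≤ p' → p ≤ q →
  p ≤ m → p' ≤ m → m + q = m' + p → PH p a → PH p' s → PH q b → PH m u → PH m' v →
  br a s ≠ 0 → br a b ≠ 0 → b ∈ Set.range (sub ![a, s]) →
  br u b + br a v ∈ Set.range (sub ![a, s]) →
  ∃ U V : T (Fin 2), Prim U ∧ Prim V ∧ IsH ![p, p'] m U ∧ IsH ![p, p'] m' V ∧
    sub ![a, s] U = u ∧ sub ![a, s] V = v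

/-- Kernel of the linearised bracket, high levels. -/
def S_P2 : Prop := ∀ (ι : Type) (p q j : ℕ) (a b s t : T ι), 1 ≤ p → p ≤ q → 1 ≤ j →
  q ≤ p + j → PH p a → PH q b → br a b ≠ 0 → PH (p + j) s → PH (q + j) t →
  br s b + br a t = 0 →
  ∃ S T' : T (Fin 2), Prim S ∧ Prim T' ∧ IsH ![p, q] (p + j) S ∧ IsH ![p, q] (q + j) T' ∧
    sub ![a, b] S = s ∧ sub ![a, b] T' = t ∧ br S (X 1) + br (X 0) T' = 0

/-- Kernel of the linearised bracket, low levels: structure. -/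
def S_P3 : Prop := ∀ (ι : Type) (p q j : ℕ) (a b s t : T ι), 1 ≤ p → 1 ≤ j → p + j < q →
  PH p a → PH q b → a ≠ 0 → b ≠ 0 → PH (p + j) s → PH (q + j) t → br s b + br a t = 0 →
  (s ≠ 0 ∨ t ≠ 0) → s ≠ 0 ∧ br a s ≠ 0 ∧ ∃ B T' : T (Fin 2), Prim B ∧ Prim T' ∧
    IsH ![p, p + j] q B ∧ IsH ![p, p + j] (q + j) T' ∧ sub ![a, s] B = b ∧
    sub ![a, s] T' = t ∧ br (X 1) B + br (X 0) T' = 0

/-- Kernel of the linearised bracket, low levels: dimension at most one. -/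
def S_P3U : Prop := ∀ (ι : Type) (p q j : ℕ) (a b s t s' t' : T ι), 1 ≤ p → 1 ≤ j → p + j < q →
  PH p a → PH q b → a ≠ 0 → b ≠ 0 → PH (p + j) s → PH (q + j) t → PH (p + j) s' →
  PH (q + j) t' → br s b + br a t = 0 → br s' b + br a t' = 0 →
  ∃ c c' : ℝ, (c ≠ 0 ∨ c' ≠ 0) ∧ c • s + c' • s' = 0 ∧ c • t + c' • t' = 0

/-- Friedrichs' theorem. -/
def S_FRI : Prop := ∀ (ι : Type) (V : Submodule ℝ (T ι)), (∀ i, X i ∈ V) →
  (∀ i, ∀ u ∈ V, Prim u → br (X i) u ∈ V) → ∀ u, Prim u → u ∈ V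

/-- Every primitive element without linear part is a sum of brackets with generators. -/
def S_SRJ : Prop := ∀ (k : ℕ) (d : Fin k → ℕ) (m : ℕ) (U : T (Fin k)), (∀ i, 1 ≤ d i) → Prim U →
  IsH d m U → (∀ i, U.coeff (FreeMonoid.of i) = 0) →
  ∃ V : Fin k → T (Fin k), (∀ i, Prim (V i) ∧ IsH d (m - d i) (V i)) ∧
    U = ∑ i, br (X i) (V i)

/-! ## B. The pure statement in the free algebra on `α = X 0`, `β = X 1` -/

/-- `ad_α^k β` -/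
noncomputable def adk (k : ℕ) : T (Fin 2) := (fun u => br (X 0) u)^[k] (X 1)

/-- Polynomial model: `P κ` maps the word `α^{x_0} β α^{x_1} β ... β α^{x_κ}` to
`t_0^{x_0} ... t_κ^{x_κ}` and the words with another number of letters `β` to `0`. -/
def S_MOD : Prop := ∃ P : (κ : ℕ) → T (Fin 2) →ₗ[ℝ] MvPolynomial (Fin (κ + 1)) ℝ,
  (∀ f, (∀ κ, P κ f = 0) → f = 0) ∧
  (∀ κ f, P κ (X 0 * f) = MvPolynomial.X 0 * P κ f) ∧
  (∀ κ f, P κ (f * X 0) = P κ f * MvPolynomial.X (Fin.last κ)) ∧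
  (∀ κ f, P (κ + 1) (X 1 * f) = MvPolynomial.rename Fin.succ (P κ f)) ∧
  (∀ κ f, P (κ + 1) (f * X 1) = MvPolynomial.rename Fin.castSucc (P κ f)) ∧
  (∀ κ k f, P (κ + 1) (adk k * f) = (MvPolynomial.X 0 - MvPolynomial.X 1) ^ k *
    MvPolynomial.rename Fin.succ (P κ f)) ∧
  (∀ κ k f, P (κ + 1) (f * adk k) = MvPolynomial.rename Fin.castSucc (P κ f) *
    (MvPolynomial.X (Fin.castSucc (Fin.last κ)) - MvPolynomial.X (Fin.last (κ + 1))) ^ k) ∧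
  (∀ κ f, 1 ≤ κ → Prim f → ∑ i, MvPolynomial.pderiv i (P κ f) = 0) ∧
  (∀ κ p p' m f, 1 ≤ p → IsH ![p, p'] m f → P κ f ≠ 0 →
    ∃ x, p * x + p' * κ = m ∧ (P κ f).IsHomogeneous x) ∧
  (∀ κ c f, 2 ≤ κ → Prim f → P κ f = MvPolynomial.C c → c = 0) ∧
  (∀ f, Prim f → ∃ c : ℝ, P 0 f = c • MvPolynomial.X 0)

/-- the relation `(t_0 - t_last) W = v(t_0, ...) - v(..., t_last)` -/
def Rel (n : ℕ) (v : MvPolynomial (Fin (n + 1)) ℝ) (W : MvPolynomial (Fin (n + 2)) ℝ) : Prop :=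
  (MvPolynomial.X 0 - MvPolynomial.X (Fin.last (n + 1))) * W =
    MvPolynomial.rename Fin.castSucc v - MvPolynomial.rename Fin.succ v

/-- rotation of the variables, `t_i ↦ t_{i+1}` cyclically -/
noncomputable def rot {n : ℕ} (v : MvPolynomial (Fin (n + 1)) ℝ) : MvPolynomial (Fin (n + 1)) ℝ :=
  MvPolynomial.rename (fun i => i + 1) v

/-- specialisation `t_last := t_0` -/
noncomputable def spc {n : ℕ} (v : MvPolynomial (Fin (n + 2)) ℝ) : MvPolynomial (Fin (n + 1)) ℝ :=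
  MvPolynomial.rename (fun i : Fin (n + 2) => (Fin.ofNat (n + 1) i.val)) v

/-- `t_last := t_0` kills multiples of `t_0 - t_last`; on `rename succ` it is `rot`, on
`rename castSucc` it is the identity; `Rel` forces cyclic invariance. -/
def S_SPC : Prop := ∀ (n : ℕ) (v : MvPolynomial (Fin (n + 1)) ℝ)
  (W E : MvPolynomial (Fin (n + 2)) ℝ),
  spc ((MvPolynomial.X 0 - MvPolynomial.X (Fin.last (n + 1))) * E) = 0 ∧
  spc (MvPolynomial.rename Fin.succ v) = rot v ∧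
  spc (MvPolynomial.rename Fin.castSucc v) = v ∧ (Rel n v W → rot v = v)

/-- First rotation lemma (at least three variables). -/
def S_R1 : Prop := ∀ (n k : ℕ) (u : MvPolynomial (Fin (n + 2)) ℝ), 1 ≤ n → 1 ≤ k →
  u * ((MvPolynomial.X 0 - MvPolynomial.X 1) ^ k -
    (MvPolynomial.X (Fin.last (n + 1)) - MvPolynomial.X 0) ^ k) = 0 → u = 0

/-- Second rotation lemma. -/
def S_R2 : Prop := ∀ (n k : ℕ) (v : MvPolynomial (Fin (n + 1)) ℝ)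
  (u W : MvPolynomial (Fin (n + 2)) ℝ), 1 ≤ n → 1 ≤ k → Rel n v W → rot u = u →
  u * ((MvPolynomial.X 0 - MvPolynomial.X 1) ^ k -
    (MvPolynomial.X (Fin.last (n + 1)) - MvPolynomial.X 0) ^ k) = rot W - W → u = 0

/-- Third rotation lemma. -/
def S_APR : Prop := ∀ (n m : ℕ) (v : MvPolynomial (Fin (n + 1)) ℝ)
  (W : MvPolynomial (Fin (n + 2)) ℝ), 1 ≤ n → 1 ≤ m → v.IsHomogeneous m → Rel n v W →
  rot W = W → ∑ i, MvPolynomial.pderiv i v = 0 → v = 0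

/-- Primitive elements of small weight. -/
def S_B1 : Prop := ∀ (p j i : ℕ) (U : T (Fin 2)), 1 ≤ p → 1 ≤ i → i ≤ j → Prim U →
  IsH ![p, p + j] (p + j + i) U → ∃ ν : ℝ, U = if p ∣ i then ν • adk (i / p) else 0

/-- The pure statement. -/
def S_RQ : Prop := ∀ (p q j : ℕ) (Y W E : ℕ → T (Fin 2)) (ν : ℕ → ℝ), 1 ≤ p → 1 ≤ j →
  p + j < q →
  (∀ l, l ≤ j → Prim (Y l) ∧ IsH ![p, p + j] (q + l) (Y l) ∧
    br (X 1) (Y l) + br (X 0) (W l) = 0) →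
  (∀ i, 1 ≤ i → i ≤ j → (∑ k ∈ Finset.Icc 1 i,
      if k * p ≤ i then ν k • br (adk k) (Y (i - k * p)) else 0) + br (X 0) (E i) =
    if i = j then br (X 1) (W 0) else 0) →
  Y 0 = 0

/-! ## C. Power series: the tangent statement -/

/-- Substitution of power series: order, leading coefficient, primitivity. -/
def S_THO : Prop := ∀ (ι : Type) (p p' m : ℕ) (ξ δ : PS (T ι)) (U : T (Fin 2)), 1 ≤ p → 1 ≤ p' →
  ordge p ξ → ordge p' δ → IsH ![p, p'] m U →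
  ordge m (sub ![ξ, δ] U) ∧
  coeff m (sub ![ξ, δ] U) = sub ![coeff p ξ, coeff p' δ] U ∧
  (PP ξ → PP δ → Prim U → PP (sub ![ξ, δ] U))

/-- Lifting `y` and `ε`. -/
def S_LIFTY : Prop := ∀ (ι : Type) (p q j : ℕ) (ξ y δ ε : PS (T ι)), 1 ≤ p → 1 ≤ j →
  p + j < q → PP ξ → PP y → PP δ → PP ε → ordge p ξ → ordge q y → ordge (p + j) δ →
  ordge (q + j) ε → coeff p ξ ≠ 0 → coeff q y ≠ 0 → coeff (p + j) δ ≠ 0 →
  (∀ i, i ≤ p + q + 2 * j → coeff i (br δ y + br ξ ε) = 0) →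
  ∃ Y W : ℕ → T (Fin 2),
    (∀ l, l ≤ j → Prim (Y l) ∧ Prim (W l) ∧ IsH ![p, p + j] (q + l) (Y l) ∧
      IsH ![p, p + j] (q + j + l) (W l) ∧ br (X 1) (Y l) + br (X 0) (W l) = 0) ∧
    (∀ i, i ≤ q + j → coeff i y = coeff i (∑ l ∈ Finset.range (j + 1), sub ![ξ, δ] (Y l))) ∧
    (∀ i, i ≤ q + 2 * j → coeff i ε =
      coeff i (∑ l ∈ Finset.range (j + 1), sub ![ξ, δ] (W l)))

/-- Lifting `d` and `e`. -/
def S_LIFTD : Prop := ∀ (ι : Type) (p q j : ℕ) (ξ y δ ε d e : PS (T ι)) (Y W : ℕ → T (Fin 2)),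
  1 ≤ p → 1 ≤ j → p + j < q → PP ξ → PP y → PP δ → PP ε → PP d → PP e → ordge p ξ → ordge q y →
  ordge (p + j) δ → ordge (q + j) ε → ordge (p + j + 1) d → ordge (q + j + 1) e →
  coeff p ξ ≠ 0 → coeff q y ≠ 0 → coeff (p + j) δ ≠ 0 →
  (∀ l, l ≤ j → Prim (Y l) ∧ Prim (W l) ∧ IsH ![p, p + j] (q + l) (Y l) ∧
      IsH ![p, p + j] (q + j + l) (W l) ∧ br (X 1) (Y l) + br (X 0) (W l) = 0) →
  (∀ i, i ≤ q + j → coeff i y = coeff i (∑ l ∈ Finset.range (j + 1), sub ![ξ, δ] (Y l))) →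
  (∀ i, i ≤ q + 2 * j → coeff i ε =
      coeff i (∑ l ∈ Finset.range (j + 1), sub ![ξ, δ] (W l))) →
  (∀ i, i < p + q + 2 * j → coeff i (br d y + br ξ e) = 0) →
  coeff (p + q + 2 * j) (br d y + br ξ e) = br (coeff (p + j) δ) (coeff (q + j) ε) →
  ∃ (ν : ℕ → ℝ) (E : ℕ → T (Fin 2)), ∀ i, 1 ≤ i → i ≤ j → (∑ k ∈ Finset.Icc 1 i,
      if k * p ≤ i then ν k • br (adk k) (Y (i - k * p)) else 0) + br (X 0) (E i) =
    if i = j then br (X 1) (W 0) else 0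

/-- The tangent statement. -/
def S_C2T : Prop := ∀ (ι : Type) (p q j : ℕ) (ξ y δ ε d e : PS (T ι)),
  1 ≤ p → 1 ≤ j → p + j < q → PP ξ → PP y → PP δ → PP ε → PP d → PP e → ordge p ξ → ordge q y →
  ordge (p + j) δ → ordge (q + j) ε → ordge (p + j + 1) d → ordge (q + j + 1) e →
  coeff p ξ ≠ 0 → coeff q y ≠ 0 → coeff (p + j) δ ≠ 0 →
  (∀ i, i ≤ p + q + 2 * j → coeff i (br δ y + br ξ ε) = 0) →
  (∀ i, i < p + q + 2 * j → coeff i (br d y + br ξ e) = 0) →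
  coeff (p + q + 2 * j) (br d y + br ξ e) = br (coeff (p + j) δ) (coeff (q + j) ε) → False

/-! ## D. The Magnus expansion and the filtration -/

/-- Basic facts on the filtration. -/
def S_BAS : Prop := ∀ (ι : Type),
  (∀ x : FreeGroup ι, coeff 0 (mag x) = 1) ∧
  (∀ x y : FreeGroup ι, mag (x * y) = mag x * mag y) ∧
  (∀ (k : ℕ) (x y : FreeGroup ι), D k x → D k y → D k (x * y)) ∧
  (∀ (k : ℕ) (x : FreeGroup ι), D k x → D k x⁻¹) ∧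
  (∀ (k : ℕ) (x g : FreeGroup ι), D k x → D k (g⁻¹ * x * g)) ∧
  (∀ (k l : ℕ) (x y : FreeGroup ι), D k x → D l y → ∀ i, 1 ≤ i → i < k + l →
    cf i (x * y) = cf i x + cf i y) ∧
  (∀ (k : ℕ) (x : FreeGroup ι), D k x → ∀ i, 1 ≤ i → i < 2 * k → cf i x⁻¹ = - cf i x) ∧
  (∀ (k : ℕ) (x g : FreeGroup ι), D k x → 1 ≤ k → cf k (g⁻¹ * x * g) = cf k x) ∧
  (∀ (k l : ℕ) (x y : FreeGroup ι), 1 ≤ k → 1 ≤ l → D k x → D l y →
    D (k + l) (cm x y) ∧ cf (k + l) (cm x y) = br (cf k x) (cf l y)) ∧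
  (∀ (i : ℕ) (x : FreeGroup ι), IsH (fun _ => 1) i (cf i x)) ∧
  (∀ (c : ℕ) (x y : FreeGroup ι), (∀ i, 1 ≤ i → i ≤ c → cf i x = cf i y) ↔ D (c + 1) (x⁻¹ * y))

/-- Group-like elements: low coefficients are primitive; conjugation preserves primitivity. -/
def S_GRP : Prop := ∀ (ι : Type),
  (∀ (k : ℕ) (x : FreeGroup ι), D k x → ∀ i, 1 ≤ i → i < 2 * k → PH i (cf i x)) ∧
  (∀ (k : ℕ) (x : FreeGroup ι) (ε : PS (T ι)), PP ε → ordge k ε →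
    PP (mag x * ε * mag x⁻¹) ∧ ordge k (mag x * ε * mag x⁻¹) ∧
    coeff k (mag x * ε * mag x⁻¹) = coeff k ε)

/-- Integrality and size. -/
def S_INT : Prop := ∀ (ι : Type) (k : ℕ) (x : FreeGroup ι) (m : FreeMonoid ι),
  ∃ z : ℤ, (k.factorial : ℝ) * (cf k x).coeff m = z

def S_SIZ : Prop := ∀ (r k : ℕ), ∃ C : ℕ, ∀ x : FreeGroup (Fin r),
  nm (cf k x) ≤ C * ((len x : ℝ) + 1) ^ k

/-- Lattice of leading terms. -/
def S_GEN : Prop := ∀ (r k : ℕ), 1 ≤ k → ∃ (n C : ℕ) (e : Fin n → FreeGroup (Fin r)),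
  (∀ i, D k (e i)) ∧ LinearIndependent ℝ (fun i => cf k (e i)) ∧
  ∀ x, D k x → ∃ m : Fin n → ℤ, cf k x = ∑ i, (m i : ℝ) • cf k (e i) ∧
    ∀ i, |(m i : ℝ)| ≤ C * nm (cf k x)

/-- Generators of `D k` modulo `D (c + 1)`. -/
def S_GENP : Prop := ∀ (r k c : ℕ), 1 ≤ k → ∃ (n : ℕ) (e : Fin n → FreeGroup (Fin r)),
  (∀ i, D k (e i)) ∧ ∀ x, D k x → ∃ m : Fin n → ℤ,
    D (c + 1) (((List.ofFn fun i => e i ^ m i).prod)⁻¹ * x)

/-- `log` of `mag x`. -/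
def S_LOG : Prop := ∀ (ι : Type) (p : ℕ) (x : FreeGroup ι), 1 ≤ p → D p x →
  ∃ ξ : PS (T ι), PP ξ ∧ ordge p ξ ∧ coeff p ξ = cf p x ∧
    ∀ (q : ℕ) (ε : PS (T ι)), PP ε → ordge q ε → ∃ ε' : PS (T ι), PP ε' ∧ ordge q ε' ∧
      coeff q ε' = coeff q ε ∧ mag x * ε * mag x⁻¹ - ε = br ξ ε'

/-- The group form of the tangent statement. -/
def S_C2G : Prop := ∀ (r p q j : ℕ) (x y : FreeGroup (Fin r)) (δ ε d e : PS (T (Fin r))),
  1 ≤ p → 1 ≤ j → p + j < q → D p x → D q y → cf p x ≠ 0 → cf q y ≠ 0 →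
  PP δ → PP ε → PP d → PP e → ordge (p + j) δ → ordge (q + j) ε → ordge (p + j + 1) d →
  ordge (q + j + 1) e → coeff (p + j) δ ≠ 0 →
  (∀ i, i ≤ p + q + 2 * j → coeff i (Psi x y δ ε) = 0) →
  (∀ i, i < p + q + 2 * j → coeff i (Psi x y d e) = 0) →
  coeff (p + q + 2 * j) (Psi x y d e) = br (coeff (p + j) δ) (coeff (q + j) ε) → False

/-- Order of `Psi`. -/
def S_PSO : Prop := ∀ (r p q m : ℕ) (x y : FreeGroup (Fin r)) (δ ε : PS (T (Fin r))), 1 ≤ p →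
  1 ≤ q → D p x → D q y → ordge (p + m) δ → ordge (q + m) ε →
  ordge (p + q + m) (Psi x y δ ε) ∧ coeff (p + q + m) (Psi x y δ ε) =
    br (coeff (p + m) δ) (cf q y) + br (cf p x) (coeff (q + m) ε)

/-- Linearisation of the commutator map. -/
def S_LIN : Prop := ∀ (r p q j : ℕ) (x y u v : FreeGroup (Fin r)), 1 ≤ p → 1 ≤ q → 1 ≤ j →
  D p x → D q y → D (p + j) u → D (q + j) v →
  D (p + q + j) ((cm x y)⁻¹ * cm (x * u) (y * v)) ∧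
  ∀ i, 1 ≤ i → i ≤ p + q + 2 * j → cf i ((cm x y)⁻¹ * cm (x * u) (y * v)) =
    coeff i (Psi x y (mag u - 1) (mag v - 1) + br (mag u - 1) (mag v - 1))

/-- Change of the base point of `Psi`. -/
def S_DIF : Prop := ∀ (r p q j : ℕ) (x y u v : FreeGroup (Fin r)) (δ ε : PS (T (Fin r))),
  1 ≤ p → 1 ≤ q → 1 ≤ j → D p x → D q y → D (p + j) u → D (q + j) v → ordge (p + j) δ →
  ordge (q + j) ε → ∀ i, i ≤ p + q + 2 * j →
  coeff i (Psi (x * u) (y * v) δ ε) = coeff i (Psi x y δ ε) +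
    if i = p + q + 2 * j then br (coeff (p + j) δ) (cf (q + j) v) +
      br (cf (p + j) u) (coeff (q + j) ε) else 0

/-- Expansion of the commutator map in terms of generators. -/
def S_EXP : Prop := ∀ (r p q j N n₁ n₂ : ℕ) (x y u v : FreeGroup (Fin r))
  (e : Fin n₁ → FreeGroup (Fin r)) (f : Fin n₂ → FreeGroup (Fin r)) (m : Fin n₁ → ℤ)
  (m' : Fin n₂ → ℤ), 1 ≤ p → 1 ≤ q → 1 ≤ j → p + q + j ≤ N → N ≤ p + q + 2 * j →
  D p x → D q y → (∀ k, D (p + j) (e k)) → (∀ k, D (q + j) (f k)) →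
  D (N + 1) (((List.ofFn fun i => e i ^ m i).prod)⁻¹ * u) →
  D (N + 1) (((List.ofFn fun i => f i ^ m' i).prod)⁻¹ * v) →
  cf (p + j) u = ∑ k, (m k : ℝ) • cf (p + j) (e k) ∧
  (q + j ≤ N → cf (q + j) v = ∑ k, (m' k : ℝ) • cf (q + j) (f k)) ∧
  ∀ i, 1 ≤ i → i ≤ N → cf i ((cm x y)⁻¹ * cm (x * u) (y * v)) =
    ∑ k, (m k : ℝ) • coeff i (Psi x y (mag (e k) - 1) 0) +
    ∑ k, (m' k : ℝ) • coeff i (Psi x y 0 (mag (f k) - 1)) +
    if i = p + q + 2 * j then br (cf (p + j) u) (cf (q + j) v) else 0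

/-- Norm facts. -/
def S_NM : Prop := ∀ (ι : Type) (f g : T ι) (c : ℝ), nm (f + g) ≤ nm f + nm g ∧
  nm (f * g) ≤ nm f * nm g ∧ nm (c • f) = |c| * nm f ∧ 0 ≤ nm f ∧ (nm f = 0 → f = 0) ∧
  (∀ m, |f.coeff m| ≤ nm f) ∧ nm (br f g) ≤ 2 * nm f * nm g

/-- Norm of a substitution. -/
def S_NMS : Prop := ∀ U : T (Fin 2), ∃ C E : ℕ, ∀ (ι : Type) (a b : T ι),
  nm (sub ![a, b] U) ≤ C * (1 + nm a + nm b) ^ E

/-! ## E. Universal moves -/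

/-- Substitution in the group, weighted. -/
def S_SUB2 : Prop := ∀ (A : Type) [Ring A] [Algebra ℝ A] (p q : ℕ) (hp : 1 ≤ p) (hq : 1 ≤ q)
  (u v : (PS A)ˣ), ordge p ((u : PS A) - 1) → ordge q ((v : PS A) - 1) →
  ∀ (m : ℕ) (w : FreeGroup (Fin 2)), 1 ≤ m → G2 p q hp hq m w →
  ordge m (((FreeGroup.lift ![u, v] w : (PS A)ˣ) : PS A) - 1) ∧
  coeff m (((FreeGroup.lift ![u, v] w : (PS A)ˣ) : PS A) - 1) =
    sub ![coeff p (u : PS A), coeff q (v : PS A)] (cf2 p q hp hq m w)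

/-- Weighted leading terms are primitive. -/
def S_PRM2 : Prop := ∀ (p q : ℕ) (hp : 1 ≤ p) (hq : 1 ≤ q) (m : ℕ) (w : FreeGroup (Fin 2)),
  IsH ![p, q] m (cf2 p q hp hq m w) ∧
  (1 ≤ m → G2 p q hp hq m w → Prim (cf2 p q hp hq m w))

/-- Weighted filtration: basic facts. -/
def S_BAS2 : Prop := ∀ (p q : ℕ) (hp : 1 ≤ p) (hq : 1 ≤ q),
  (∀ (k : ℕ) (x y : FreeGroup (Fin 2)), G2 p q hp hq k x → G2 p q hp hq k y →
    G2 p q hp hq k (x * y) ∧ G2 p q hp hq k x⁻¹) ∧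
  (∀ (k l : ℕ) (x y : FreeGroup (Fin 2)), G2 p q hp hq k x → G2 p q hp hq l y →
    ∀ i, 1 ≤ i → i < k + l → cf2 p q hp hq i (x * y) = cf2 p q hp hq i x + cf2 p q hp hq i y) ∧
  (∀ (k : ℕ) (x : FreeGroup (Fin 2)), G2 p q hp hq k x → ∀ i, 1 ≤ i → i < 2 * k →
    cf2 p q hp hq i x⁻¹ = - cf2 p q hp hq i x) ∧
  (∀ (k l : ℕ) (x y : FreeGroup (Fin 2)), 1 ≤ k → 1 ≤ l → G2 p q hp hq k x →
    G2 p q hp hq l y → G2 p q hp hq (k + l) (cm x y) ∧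
    cf2 p q hp hq (k + l) (cm x y) = br (cf2 p q hp hq k x) (cf2 p q hp hq l y)) ∧
  (∀ i x m, ∃ z : ℤ, (cf2 p q hp hq i x).coeff m = z) ∧
  G2 p q hp hq p (FreeGroup.of 0) ∧ cf2 p q hp hq p (FreeGroup.of 0) = X 0 ∧
  G2 p q hp hq q (FreeGroup.of 1) ∧ cf2 p q hp hq q (FreeGroup.of 1) = X 1

/-- Lattice of the weighted leading terms. -/
def S_LAT2 : Prop := ∀ (p q : ℕ) (hp : 1 ≤ p) (hq : 1 ≤ q) (m : ℕ), 1 ≤ m →
  ∃ (n : ℕ) (e : Fin n → FreeGroup (Fin 2)), (∀ i, G2 p q hp hq m (e i)) ∧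
    LinearIndependent ℝ (fun i => cf2 p q hp hq m (e i)) ∧
    (∀ x, G2 p q hp hq m x → ∃ z : Fin n → ℤ,
      cf2 p q hp hq m x = ∑ i, (z i : ℝ) • cf2 p q hp hq m (e i)) ∧
    (∀ P : T (Fin 2), Prim P → IsH ![p, q] m P → ∃ z : Fin n → ℝ,
      P = ∑ i, z i • cf2 p q hp hq m (e i))

/-- One kernel pair gives a move, up to a multiple. -/
def S_UMI : Prop := ∀ (p q j c : ℕ) (hp : 1 ≤ p) (hq : 1 ≤ q), p ≤ q → 1 ≤ j → q ≤ p + j →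
  p + q + j ≤ c → ∀ U V : FreeGroup (Fin 2), G2 p q hp hq (p + j) U → G2 p q hp hq (q + j) V →
  br (cf2 p q hp hq (p + j) U) (X 1) + br (X 0) (cf2 p q hp hq (q + j) V) = 0 →
  ∃ (M : ℕ) (U' V' : FreeGroup (Fin 2)), 1 ≤ M ∧ G2 p q hp hq (p + j) U' ∧
    G2 p q hp hq (q + j) V' ∧
    cf2 p q hp hq (p + j) U' = (M : ℝ) • cf2 p q hp hq (p + j) U ∧
    cf2 p q hp hq (q + j) V' = (M : ℝ) • cf2 p q hp hq (q + j) V ∧
    G2 p q hp hq (c + 1) ((cm (FreeGroup.of 0) (FreeGroup.of 1))⁻¹ *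
      cm (FreeGroup.of 0 * U') (FreeGroup.of 1 * V'))

/-- Universal moves. -/
def S_UM : Prop := ∀ (p q j c : ℕ), 1 ≤ p → p ≤ q → 1 ≤ j → q ≤ p + j → p + q + j ≤ c →
  ∃ (n : ℕ) (U V : Fin n → FreeGroup (Fin 2)) (S T' : Fin n → T (Fin 2)),
    (∀ k, Prim (S k) ∧ Prim (T' k) ∧ IsH ![p, q] (p + j) (S k) ∧
      IsH ![p, q] (q + j) (T' k)) ∧
    (∀ S₀ T₀ : T (Fin 2), Prim S₀ → Prim T₀ → IsH ![p, q] (p + j) S₀ →
      IsH ![p, q] (q + j) T₀ → br S₀ (X 1) + br (X 0) T₀ = 0 →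
      ∃ z : Fin n → ℝ, (∀ k, 0 ≤ z k) ∧ S₀ = ∑ k, z k • S k ∧ T₀ = ∑ k, z k • T' k) ∧
    ∀ (r : ℕ) (x y : FreeGroup (Fin r)) (k : Fin n), D p x → D q y →
      D (p + j) (FreeGroup.lift ![x, y] (U k)) ∧
      cf (p + j) (FreeGroup.lift ![x, y] (U k)) = sub ![cf p x, cf q y] (S k) ∧
      D (q + j) (FreeGroup.lift ![x, y] (V k)) ∧
      cf (q + j) (FreeGroup.lift ![x, y] (V k)) = sub ![cf p x, cf q y] (T' k) ∧
      D (c + 1) ((cm x y)⁻¹ * cm (x * FreeGroup.lift ![x, y] (U k))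
        (y * FreeGroup.lift ![x, y] (V k)))

/-! ## F. Linear algebra with bounds -/

/-- Bounded rational solutions. -/
def S_RB : Prop := ∀ N K : ℕ, ∃ C E : ℕ, ∀ (B : ℕ) (M : Matrix (Fin N) (Fin K) ℤ)
  (h : Fin N → ℤ), 1 ≤ B → (∀ i k, |M i k| ≤ B) → (∀ i, |h i| ≤ B) →
  (∃ z : Fin K → ℝ, ∀ i, ∑ k, (M i k : ℝ) * z k = h i) →
  ∃ (d : ℕ) (z : Fin K → ℤ), 1 ≤ d ∧ d ≤ C * B ^ E ∧ (∀ k, |z k| ≤ C * B ^ E) ∧
    ∀ i, ∑ k, M i k * z k = d * h i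

/-- Bounded integer vectors spanning a rational kernel. -/
def S_KB : Prop := ∀ N K : ℕ, ∃ C E : ℕ, ∀ (B : ℕ) (M : Matrix (Fin N) (Fin K) ℤ),
  1 ≤ B → (∀ i k, |M i k| ≤ B) →
  ∃ v : Fin K → Fin K → ℤ, (∀ l k, |v l k| ≤ C * B ^ E) ∧
    (∀ l i, ∑ k, M i k * v l k = 0) ∧
    ∀ z : Fin K → ℝ, (∀ i, ∑ k, (M i k : ℝ) * z k = 0) →
      ∃ c : Fin K → ℝ, ∀ k, z k = ∑ l, c l * (v l k : ℝ)

/-- Bounded integer solutions. -/
def S_LB : Prop := ∀ N K : ℕ, ∃ C E : ℕ, ∀ (B : ℕ) (M : Matrix (Fin N) (Fin K) ℤ)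
  (h : Fin N → ℤ), 1 ≤ B → (∀ i k, |M i k| ≤ B) → (∀ i, |h i| ≤ B) →
  (∃ z : Fin K → ℤ, ∀ i, ∑ k, M i k * z k = h i) →
  ∃ z : Fin K → ℤ, (∀ k, |z k| ≤ C * B ^ E) ∧ ∀ i, ∑ k, M i k * z k = h i

/-- Quadratic bounding lemma. -/
def S_QB : Prop := ∀ N K L : ℕ, ∃ C E : ℕ, ∀ (B : ℕ) (A : Matrix (Fin N) (Fin K) ℤ)
  (Λ : Matrix (Fin L) (Fin K) ℤ) (β : Fin N → Matrix (Fin L) (Fin L) ℤ) (h : Fin N → ℤ)
  (m : Fin K → ℤ) (I : Set (Fin N)), 1 ≤ B → (∀ i k, |A i k| ≤ B) → (∀ i k, |Λ i k| ≤ B) →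
  (∀ i k l, |β i k l| ≤ B) → (∀ i, |h i| ≤ B) →
  (∀ i, A.mulVec m i + dotProduct (Λ.mulVec m) ((β i).mulVec (Λ.mulVec m)) = h i) →
  (∀ i ∈ I, β i = 0) →
  (∀ z z' : Fin K → ℝ, (∀ i ∈ I, (A.map (Int.cast : ℤ → ℝ)).mulVec z i = 0) →
    (∀ i ∈ I, (A.map (Int.cast : ℤ → ℝ)).mulVec z' i = 0) →
    ∃ c c' : ℝ, (c ≠ 0 ∨ c' ≠ 0) ∧ c • (Λ.map (Int.cast : ℤ → ℝ)).mulVec z +
      c' • (Λ.map (Int.cast : ℤ → ℝ)).mulVec z' = 0) →
  (¬ ∃ z z' : Fin K → ℝ, (Λ.map (Int.cast : ℤ → ℝ)).mulVec z ≠ 0 ∧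
    (∀ i, (A.map (Int.cast : ℤ → ℝ)).mulVec z i +
      dotProduct (fun l => ((Λ.mulVec m l : ℤ) : ℝ))
        (((β i).map (Int.cast : ℤ → ℝ)).mulVec ((Λ.map (Int.cast : ℤ → ℝ)).mulVec z)) +
      dotProduct ((Λ.map (Int.cast : ℤ → ℝ)).mulVec z)
        (((β i).map (Int.cast : ℤ → ℝ)).mulVec (fun l => ((Λ.mulVec m l : ℤ) : ℝ))) = 0) ∧
    (Λ.map (Int.cast : ℤ → ℝ)).mulVec z' = 0 ∧
    (∀ i, (A.map (Int.cast : ℤ → ℝ)).mulVec z' i =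
      dotProduct ((Λ.map (Int.cast : ℤ → ℝ)).mulVec z)
        (((β i).map (Int.cast : ℤ → ℝ)).mulVec ((Λ.map (Int.cast : ℤ → ℝ)).mulVec z)))) →
  ∀ l, |Λ.mulVec m l| ≤ C * B ^ E

/-! ## G. Compactness and normalisation -/

def S_COMP : Prop := ∀ (r p q : ℕ), 1 ≤ p → 1 ≤ q → p ≠ q → ∃ c₀ : ℝ, 0 < c₀ ∧
  ∀ a b : T (Fin r), PH p a → PH q b → c₀ * nm a * nm b ≤ nm (br a b)

def S_COMPE : Prop := ∀ (r p : ℕ), 1 ≤ p → ∃ c₀ : ℝ, 0 < c₀ ∧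
  ∀ a b : T (Fin r), PH p a → PH p b →
    c₀ * (ip a a * ip b b - ip a b ^ 2) ≤ nm (br a b) ^ 2

/-- From a solution to a typed solution. -/
def S_NOR : Prop := ∀ (r c : ℕ) (x y : FreeGroup (Fin r)), ¬ D (c + 1) (cm x y) →
  ∃ (x' y' : FreeGroup (Fin r)) (p q : ℕ), cm x' y' = cm x y ∧ 1 ≤ p ∧ 1 ≤ q ∧ p + q ≤ c ∧
    Typed p q x' y'

/-- Reduction of typed pairs with `p = q`. -/
def S_RED : Prop := ∀ (r p : ℕ) (x y : FreeGroup (Fin r)), 1 ≤ p → Typed p p x y →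
  ∃ x' y' : FreeGroup (Fin r), cm x' y' = cm x y ∧ Typed p p x' y' ∧
    2 * |ip (cf p x') (cf p y')| ≤ ip (cf p x') (cf p x') ∧
    2 * |ip (cf p x') (cf p y')| ≤ ip (cf p y') (cf p y')

/-! ## H. The levels -/

def S_H1 : Prop := ∀ r c p q : ℕ, 1 ≤ p → 1 ≤ q → p + q ≤ c → HL r c p q 1

def S_P2STEP : Prop := ∀ r c p q j : ℕ, 1 ≤ p → p ≤ q → 1 ≤ j → q ≤ p + j → p + q + j ≤ c →
  HL r c p q j → HL r c p q (j + 1)

def S_P3STEP : Prop := ∀ r c p q j : ℕ, 1 ≤ p → 1 ≤ j → p + j < q → p + q + 2 * j ≤ c →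
  HL r c p q j → HL r c p q (j + 1)

/-- bounded solutions for typed solvable equations -/
def BDT (r c p q : ℕ) : Prop := ∃ C E : ℕ, ∀ g : FreeGroup (Fin r),
  (∃ x y, Typed p q x y ∧ Sol c g x y) → ∃ x y, Sol c g x y ∧
    len x ≤ C * (len g + 1) ^ E ∧ len y ≤ C * (len g + 1) ^ E

def S_FIN : Prop := ∀ r c p q j : ℕ, 1 ≤ p → 1 ≤ q → 1 ≤ j → c < p + q + 2 * j →
  HL r c p q j → BDT r c p q

def S_BD : Prop := ∀ r c : ℕ, BD r c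

/-! ## I. Decidability -/

/-- The word problem modulo `D (c + 1)`. -/
def S_WP : Prop := ∀ r c : ℕ, ComputablePred
  (fun L : List (Fin r × Bool) => D (c + 1) (FreeGroup.mk L))

def S_DEC : Prop := ∀ r c : ℕ, ComputablePred
  (fun L : List (Fin r × Bool) => ∃ x y : FreeGroup (Fin r), Sol c (FreeGroup.mk L) x y)

/-! ## J. Magnus' theorem -/

/-- `gam G n = γ_{n+1}(G)` -/
abbrev gam (G : Type) [Group G] (n : ℕ) : Subgroup G := (⊤ : Subgroup G).lowerCentralSeries n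

/-- The graded Lie ring of a group. -/
def S_GRL : Prop := ∀ (G : Type) [Group G], ∃ (L : Type) (_ : LieRing L) (f : ℕ → G → L),
  (∀ n, ∀ x ∈ gam G n, ∀ y ∈ gam G n, f n (x * y) = f n x + f n y) ∧
  (∀ n, ∀ x ∈ gam G n, f n x = 0 ↔ x ∈ gam G (n + 1)) ∧
  (∀ m n, ∀ x ∈ gam G m, ∀ y ∈ gam G n, f (m + n + 1) (x * y * x⁻¹ * y⁻¹) = ⁅f m x, f n y⁆)

/-- Lyndon words -/
def Lyn {α : Type} [LinearOrder α] (w : List α) : Prop :=
  w ≠ [] ∧ ∀ u v : List α, u ≠ [] → v ≠ [] → w = u ++ v → w < v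

/-- Lyndon basis of the free Lie ring. -/
def S_LYN : Prop := ∀ r : ℕ, ∃ B : List (Fin r) → FreeLieAlgebra ℤ (Fin r),
  (∀ w, Lyn w → (FreeLieAlgebra.lift ℤ (X : Fin r → T (Fin r)) (B w)).coeff
      (FreeMonoid.ofList w) = 1 ∧
    ∀ m, (FreeLieAlgebra.lift ℤ (X : Fin r → T (Fin r)) (B w)).coeff m ≠ 0 →
      (FreeMonoid.toList m).length = w.length ∧ w ≤ FreeMonoid.toList m) ∧
  ∀ z : FreeLieAlgebra ℤ (Fin r), z ∈ AddSubgroup.closure {b | ∃ w, Lyn w ∧ b = B w}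

/-- The free Lie ring embeds in the free associative algebra. -/
def S_INJ : Prop := ∀ r : ℕ, Function.Injective (FreeLieAlgebra.lift ℤ (X : Fin r → T (Fin r)))

/-- Magnus. -/
def S_MAG : Prop := ∀ (r c : ℕ) (x : FreeGroup (Fin r)),
  D (c + 1) x ↔ x ∈ gam (FreeGroup (Fin r)) c

/-- The final theorem: in every free nilpotent group `N_{r,c} = F_r / γ_{c+1}(F_r)` the equations
`[x, y] = g` are decidable. -/
def S_FINAL : Prop := ∀ r c : ℕ, ComputablePred (fun L : List (Fin r × Bool) =>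
  ∃ x y : FreeGroup (Fin r) ⧸ gam (FreeGroup (Fin r)) c,
    x⁻¹ * y⁻¹ * x * y = (QuotientGroup.mk (FreeGroup.mk L) :
      FreeGroup (Fin r) ⧸ gam (FreeGroup (Fin r)) c))

end Pool.Agent.H32CE
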