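import Mathlib
import Pool.Agent.H32CE.St

set_option autoImplicit false

/-! # Common lemmas for the tasks BRP, ANT, F0, F1 -/

namespace Pool.Agent.H32CE.AX278

open MonoidAlgebra

variable {ι : Type}

theorem lft_single (m : FreeMonoid ι) (r : ℝ) : lft ι (single m r) = single (m, 1) r := by
  simp [lft]

theorem rgt_single (m : FreeMonoid ι) (r : ℝ) : rgt ι (single m r) = single (1, m) r := by
  simp [rgt]

theorem cop_X (i : ι) : cop ι (X i) = lft ι (X i) + rgt ι (X i) := by
  rw [X, lft_single, rgt_single]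
  simp [cop]

theorem prim_X (i : ι) : Prim (X i) := cop_X i

theorem comm_lr (f g : T ι) : lft ι f * rgt ι g = rgt ι g * lft ι f := by
  induction f using MonoidAlgebra.induction_linear with
  | zero => simp
  | add x y hx hy => rw [map_add, add_mul, mul_add, hx, hy]
  | single a r =>
    induction g using MonoidAlgebra.induction_linear with
    | zero => simp
    | add x y hx hy => rw [map_add, add_mul, mul_add, hx, hy]
    | single b s =>
      rw [lft_single, rgt_single, single_mul_single, single_mul_single]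
      simp [mul_comm]

theorem wd_mul (w : ι → ℕ) (a b : FreeMonoid ι) : wd w (a * b) = wd w a + wd w b := by
  simp [wd]

theorem wd_one (w : ι → ℕ) : wd w (1 : FreeMonoid ι) = 0 := by
  simp [wd]

theorem wd_of (w : ι → ℕ) (i : ι) : wd w (FreeMonoid.of i) = w i := by
  simp [wd]

/-- homogeneous elements -/
noncomputable def HS (w : ι → ℕ) (k : ℕ) : Submodule ℝ (T ι) where
  carrier := {f | IsH w k f}
  zero_mem' := by intro m hm; simp at hm
  add_mem' := by
    intro a b ha hb m hm
    by_cases h1 : a.coeff m = 0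
    · by_cases h2 : b.coeff m = 0
      · exfalso; apply hm; simp [h1, h2]
      · exact hb m h2
    · exact ha m h1
  smul_mem' := by
    intro c a ha m hm
    refine ha m fun h => hm ?_
    simp [h]

theorem mem_HS (w : ι → ℕ) (k : ℕ) (f : T ι) : f ∈ HS w k ↔ IsH w k f := Iff.rfl

theorem isH_single (w : ι → ℕ) (m : FreeMonoid ι) (r : ℝ) : IsH w (wd w m) (single m r : T ι) := by
  classical
  intro m' hm'
  rw [coeff_single, Finsupp.single_apply] at hm'
  by_cases h : m = m'
  · rw [h]
  · simp [h] at hm'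

theorem isH_mul (w : ι → ℕ) (m n : ℕ) (u v : T ι) (hu : IsH w m u) (hv : IsH w n v) :
    IsH w (m + n) (u * v) := by
  rw [← mem_HS, mul_def]
  refine Submodule.sum_mem _ fun a ha => Submodule.sum_mem _ fun b hb => ?_
  have h1 := hu a (Finsupp.mem_support_iff.1 ha)
  have h2 := hv b (Finsupp.mem_support_iff.1 hb)
  have := isH_single w (a * b) (u.coeff a * v.coeff b)
  rw [wd_mul, h1, h2] at this
  exact this

theorem isH_one (w : ι → ℕ) : IsH w 0 (1 : T ι) := by
  have := isH_single w (1 : FreeMonoid ι) 1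
  rwa [wd_one] at this

theorem isH_pow (w : ι → ℕ) (m : ℕ) (u : T ι) (hu : IsH w m u) (k : ℕ) :
    IsH w (k * m) (u ^ k) := by
  induction k with
  | zero => simpa using isH_one w
  | succ k ih =>
    rw [pow_succ, Nat.succ_mul]
    exact isH_mul w _ _ _ _ ih hu

theorem X_mul_single (i : ι) (m : FreeMonoid ι) (r : ℝ) :
    (X i : T ι) * single m r = single (FreeMonoid.of i * m) r := by
  rw [X, single_mul_single, one_mul]

/-- word induction for linear statements -/
theorem word_induction (P : T ι → Prop) (h0 : P 0) (ha : ∀ f g, P f → P g → P (f + g))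
    (h1 : ∀ r : ℝ, P (single 1 r)) (hX : ∀ i f, P f → P (X i * f)) (f : T ι) : P f := by
  induction f using MonoidAlgebra.induction_linear with
  | zero => exact h0
  | add x y hx hy => exact ha x y hx hy
  | single m r =>
    induction m using FreeMonoid.recOn with
    | one => exact h1 r
    | of_mul i m ih => rw [← X_mul_single]; exact hX i _ ih

/-- `id ⊗ ψ` -/
noncomputable def phi (ψ : T ι →ₗ[ℝ] ℝ) :
    MonoidAlgebra ℝ (FreeMonoid ι × FreeMonoid ι) →ₗ[ℝ] T ι :=
  (Finsupp.linearCombination ℝ (fun p : FreeMonoid ι × FreeMonoid ι =>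
    (single p.1 (ψ (single p.2 1)) : T ι))) ∘ₗ (coeffLinearEquiv ℝ).toLinearMap

theorem phi_single (ψ : T ι →ₗ[ℝ] ℝ) (a b : FreeMonoid ι) (r : ℝ) :
    phi ψ (single (a, b) r) = single a (ψ (single b r)) := by
  have : (single b r : T ι) = r • single b 1 := by simp
  rw [this, map_smul]
  simp [phi]

theorem phi_lft_mul (ψ : T ι →ₗ[ℝ] ℝ) (f : T ι)
    (F : MonoidAlgebra ℝ (FreeMonoid ι × FreeMonoid ι)) :
    phi ψ (lft ι f * F) = f * phi ψ F := by
  induction f using MonoidAlgebra.induction_linear with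
  | zero => simp
  | add x y hx hy => rw [map_add, add_mul, add_mul, map_add, hx, hy]
  | single a r =>
    induction F using MonoidAlgebra.induction_linear with
    | zero => simp
    | add x y hx hy => rw [mul_add, map_add, map_add, mul_add, hx, hy]
    | single b s =>
      obtain ⟨b, c⟩ := b
      rw [lft_single, single_mul_single, Prod.mk_mul_mk, one_mul, phi_single, phi_single,
        single_mul_single]
      have : (single c (r * s) : T ι) = r • single c s := by simp
      rw [this, map_smul, smul_eq_mul]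

theorem phi_rgt_mul (ψ : T ι →ₗ[ℝ] ℝ) (g : T ι)
    (F : MonoidAlgebra ℝ (FreeMonoid ι × FreeMonoid ι)) :
    phi ψ (rgt ι g * F) = phi (ψ ∘ₗ LinearMap.mulLeft ℝ g) F := by
  induction F using MonoidAlgebra.induction_linear with
  | zero => simp
  | add x y hx hy => rw [mul_add, map_add, map_add, hx, hy]
  | single b s =>
    obtain ⟨b, c⟩ := b
    rw [phi_single, LinearMap.comp_apply, LinearMap.mulLeft_apply]
    induction g using MonoidAlgebra.induction_linear with
    | zero => simp
    | add x y hx hy => rw [map_add, add_mul, add_mul, map_add, map_add, hx, hy, single_add]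
    | single a r =>
      rw [rgt_single, single_mul_single, Prod.mk_mul_mk, one_mul, phi_single, single_mul_single]

theorem phi_zero (F : MonoidAlgebra ℝ (FreeMonoid ι × FreeMonoid ι)) :
    phi (0 : T ι →ₗ[ℝ] ℝ) F = 0 := by
  induction F using MonoidAlgebra.induction_linear with
  | zero => simp
  | add x y hx hy => rw [map_add, hx, hy, add_zero]
  | single b s =>
    obtain ⟨b, c⟩ := b
    rw [phi_single]; simp

theorem phi_one (ψ : T ι →ₗ[ℝ] ℝ) : phi ψ 1 = ψ 1 • 1 := by
  rw [one_def, one_def, Prod.one_eq_mk, phi_single]; simp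

theorem phi_lft (ψ : T ι →ₗ[ℝ] ℝ) (f : T ι) : phi ψ (lft ι f) = ψ 1 • f := by
  rw [← mul_one (lft ι f), phi_lft_mul, phi_one]; simp

theorem phi_rgt (ψ : T ι →ₗ[ℝ] ℝ) (f : T ι) : phi ψ (rgt ι f) = ψ f • 1 := by
  rw [← mul_one (rgt ι f), phi_rgt_mul, phi_one]; simp

/-- the operator `(id ⊗ ψ) ∘ cop` -/
noncomputable def dd (ψ : T ι →ₗ[ℝ] ℝ) : T ι →ₗ[ℝ] T ι := phi ψ ∘ₗ (cop ι).toLinearMap

theorem dd_apply (ψ : T ι →ₗ[ℝ] ℝ) (f : T ι) : dd ψ f = phi ψ (cop ι f) := rfl

theorem dd_one (ψ : T ι →ₗ[ℝ] ℝ) : dd ψ (1 : T ι) = ψ 1 • 1 := by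
  rw [dd_apply, map_one, phi_one]

theorem dd_prim (ψ : T ι →ₗ[ℝ] ℝ) (u : T ι) (hu : Prim u) : dd ψ u = ψ 1 • u + ψ u • 1 := by
  rw [dd_apply, hu, map_add, phi_lft, phi_rgt]

theorem dd_mul (ψ : T ι →ₗ[ℝ] ℝ) (e f : T ι) (he : Prim e) :
    dd ψ (e * f) = e * dd ψ f + dd (ψ ∘ₗ LinearMap.mulLeft ℝ e) f := by
  rw [dd_apply, map_mul, he, add_mul, map_add, phi_lft_mul, phi_rgt_mul]
  rfl

theorem dd_zero (f : T ι) : dd (0 : T ι →ₗ[ℝ] ℝ) f = 0 := phi_zero _

/-- coefficient functional -/
noncomputable def cfn (m : FreeMonoid ι) : T ι →ₗ[ℝ] ℝ :=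
  (Finsupp.lapply m) ∘ₗ (coeffLinearEquiv ℝ).toLinearMap

theorem cfn_apply (m : FreeMonoid ι) (f : T ι) : cfn m f = f.coeff m := rfl

theorem coeff_X_mul_one (i : ι) (f : T ι) : ((X i : T ι) * f).coeff 1 = 0 := by
  refine coeff_single_mul_of_forall_mul_ne _ _ fun d hd => ?_
  have := congrArg (wd (fun _ => 1)) hd
  rw [wd_mul, wd_of, wd_one] at this
  omega

theorem coeff_X_mul_of_mul (i : ι) (m : FreeMonoid ι) (f : T ι) :
    ((X i : T ι) * f).coeff (FreeMonoid.of i * m) = f.coeff m := by
  rw [X, coeff_single_mul_eq_mul_coeff m (fun m' _ => by simp), one_mul]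

theorem of_mul_ne {i j : ι} (h : i ≠ j) (a b : FreeMonoid ι) :
    FreeMonoid.of i * a ≠ FreeMonoid.of j * b := by
  intro hab
  have := congrArg FreeMonoid.toList hab
  simp at this
  exact h this.1

theorem coeff_X_mul_of_ne {i j : ι} (h : i ≠ j) (m : FreeMonoid ι) (f : T ι) :
    ((X i : T ι) * f).coeff (FreeMonoid.of j * m) = 0 :=
  coeff_single_mul_of_forall_mul_ne _ _ fun d => of_mul_ne h d m

/-- the degree zero component of `dd ψ f` -/
theorem coeff_dd_one (f : T ι) : ∀ ψ : T ι →ₗ[ℝ] ℝ, (dd ψ f).coeff 1 = ψ f := by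
  refine word_induction (fun f => ∀ ψ : T ι →ₗ[ℝ] ℝ, (dd ψ f).coeff 1 = ψ f) ?_ ?_ ?_ ?_ f
  · intro ψ; simp
  · intro f g hf hg ψ
    rw [map_add, map_add, coeff_add, Finsupp.add_apply, hf, hg]
  · intro r ψ
    have : (single 1 r : T ι) = r • 1 := by simp [one_def]
    rw [this, map_smul, dd_one, map_smul]
    simp
  · intro i f hf ψ
    rw [dd_mul _ _ _ (prim_X i), coeff_add, Finsupp.add_apply, coeff_X_mul_one, zero_add, hf]
    rfl

/-- `(id ⊗ ε) ∘ cop = id` -/
theorem dd_eps (f : T ι) : dd (cfn 1) f = f := by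
  refine word_induction (fun f => dd (cfn 1) f = f) ?_ ?_ ?_ ?_ f
  · simp
  · intro f g hf hg
    rw [map_add, hf, hg]
  · intro r
    have : (single 1 r : T ι) = r • 1 := by simp [one_def]
    rw [this, map_smul, dd_one, cfn_apply]
    simp
  · intro i f hf
    rw [dd_mul _ _ _ (prim_X i), hf]
    have : (cfn 1 ∘ₗ LinearMap.mulLeft ℝ (X i : T ι)) = 0 := by
      ext1 m
      ext
      simp only [LinearMap.comp_apply, LinearMap.mulLeft_apply, cfn_apply]
      rw [coeff_X_mul_one]
      rfl
    rw [this, dd_zero, add_zero]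

/-- characterisation of primitive elements -/
theorem prim_of_dd (u : T ι) (h : ∀ ψ : T ι →ₗ[ℝ] ℝ, dd ψ u = ψ 1 • u + ψ u • 1) : Prim u := by
  have key : ∀ (F : MonoidAlgebra ℝ (FreeMonoid ι × FreeMonoid ι)) (a b : FreeMonoid ι),
      F.coeff (a, b) = (phi (cfn b) F).coeff a := by
    classical
    intro F a b
    induction F using MonoidAlgebra.induction_linear with
    | zero => simp
    | add x y hx hy => rw [map_add, coeff_add, coeff_add, Finsupp.add_apply, Finsupp.add_apply,
        hx, hy]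
    | single p s =>
      obtain ⟨c, d⟩ := p
      rw [phi_single, cfn_apply, coeff_single, coeff_single, coeff_single, Finsupp.single_apply,
        Finsupp.single_apply, Finsupp.single_apply]
      by_cases h1 : c = a <;> by_cases h2 : d = b <;> simp [h1, h2]
  unfold Prim
  apply MonoidAlgebra.ext
  ext ⟨a, b⟩
  rw [key, key, ← dd_apply, h, map_add, phi_lft, phi_rgt]

end Pool.Agent.H32CE.AX278
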