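import Mathlib
import Pool.Agent.H32CE.AuxF278

set_option autoImplicit false

/-! # Task ANT: the antipode -/

namespace Pool.Agent.H32CE

open AX278 MonoidAlgebra

namespace TANT

variable {ι : Type}

/-- the antipode as an algebra map into the opposite algebra -/
noncomputable def S0 (ι : Type) : T ι →ₐ[ℝ] (T ι)ᵐᵒᵖ :=
  MonoidAlgebra.lift ℝ ((T ι)ᵐᵒᵖ) (FreeMonoid ι)
    (FreeMonoid.lift fun i => MulOpposite.op (-X i))

/-- the antipode -/
noncomputable def S1 (ι : Type) : T ι →ₗ[ℝ] T ι :=
  (MulOpposite.opLinearEquiv ℝ).symm.toLinearMap ∘ₗ (S0 ι).toLinearMap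

theorem S1_apply (f : T ι) : S1 ι f = MulOpposite.unop (S0 ι f) := rfl

theorem S1_mul (a b : T ι) : S1 ι (a * b) = S1 ι b * S1 ι a := by
  rw [S1_apply, S1_apply, S1_apply, map_mul, MulOpposite.unop_mul]

theorem S1_one : S1 ι (1 : T ι) = 1 := by
  rw [S1_apply, map_one, MulOpposite.unop_one]

theorem S1_X (i : ι) : S1 ι (X i) = - X i := by
  rw [S1_apply, X, S0, lift_single]
  simp
  rfl

/-- multiplication after the antipode on the first factor -/
noncomputable def mu (ι : Type) : MonoidAlgebra ℝ (FreeMonoid ι × FreeMonoid ι) →ₗ[ℝ] T ι :=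
  (Finsupp.linearCombination ℝ (fun p : FreeMonoid ι × FreeMonoid ι =>
    (S1 ι (single p.1 1) * single p.2 1 : T ι))) ∘ₗ (coeffLinearEquiv ℝ).toLinearMap

theorem mu_single (a b : FreeMonoid ι) (r : ℝ) :
    mu ι (single (a, b) r) = S1 ι (single a r) * single b 1 := by
  have : (single a r : T ι) = r • single a 1 := by simp
  rw [this, map_smul, smul_mul_assoc]
  simp [mu]

theorem mu_lr (f g : T ι) : mu ι (lft ι f * rgt ι g) = S1 ι f * g := by
  induction f using MonoidAlgebra.induction_linear with
  | zero => simp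
  | add x y hx hy => rw [map_add, add_mul, map_add, hx, hy, map_add, add_mul]
  | single a r =>
    induction g using MonoidAlgebra.induction_linear with
    | zero => simp
    | add x y hx hy => rw [map_add, mul_add, map_add, hx, hy, mul_add]
    | single b s =>
      rw [lft_single, rgt_single, single_mul_single, Prod.mk_mul_mk, one_mul, mul_one, mu_single]
      have h1 : (single a (r * s) : T ι) = s • single a r := by simp [mul_comm]
      have h2 : (single b s : T ι) = s • single b 1 := by simp
      rw [h1, h2, map_smul, smul_mul_assoc, mul_smul_comm]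

theorem mu_zero (i : ι) (F : MonoidAlgebra ℝ (FreeMonoid ι × FreeMonoid ι)) :
    mu ι ((lft ι (X i) + rgt ι (X i)) * F) = 0 := by
  induction F using MonoidAlgebra.induction_linear with
  | zero => simp
  | add x y hx hy => rw [mul_add, map_add, hx, hy, add_zero]
  | single b s =>
    obtain ⟨a, b⟩ := b
    have h0 : (single (a, b) s : MonoidAlgebra ℝ (FreeMonoid ι × FreeMonoid ι)) =
        lft ι (single a s) * rgt ι (single b 1) := by
      rw [lft_single, rgt_single, single_mul_single]; simp
    have h1 : (lft ι (X i) + rgt ι (X i)) * single (a, b) s =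
        lft ι (X i * single a s) * rgt ι (single b 1) +
        lft ι (single a s) * rgt ι (X i * single b 1) := by
      rw [h0, add_mul, map_mul, map_mul, mul_assoc, ← mul_assoc (rgt ι (X i)), ← comm_lr,
        mul_assoc (lft ι (single a s))]
    rw [h1, map_add, mu_lr, mu_lr, S1_mul, S1_X]
    noncomm_ring

theorem mu_cop (f : T ι) : mu ι (cop ι f) = f.coeff 1 • 1 := by
  refine word_induction (fun f => mu ι (cop ι f) = f.coeff 1 • 1) ?_ ?_ ?_ ?_ f
  · simp
  · intro f g hf hg
    rw [map_add, map_add, hf, hg, coeff_add, Finsupp.add_apply, add_smul]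
  · intro r
    have : (single 1 r : T ι) = r • 1 := by simp [one_def]
    rw [this, map_smul, map_one, map_smul]
    have h1 : (1 : MonoidAlgebra ℝ (FreeMonoid ι × FreeMonoid ι)) = lft ι 1 * rgt ι 1 := by simp
    rw [h1, mu_lr, S1_one]
    simp
  · intro i f hf
    rw [map_mul, cop_X, mu_zero, coeff_X_mul_one, zero_smul]

theorem prim_const (u : T ι) (hu : Prim u) : u.coeff 1 = 0 := by
  have h := coeff_dd_one u (cfn 1)
  rw [dd_prim _ _ hu, coeff_add, Finsupp.add_apply, coeff_smul, coeff_smul, Finsupp.smul_apply,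
    Finsupp.smul_apply, cfn_apply, cfn_apply, coeff_one_one] at h
  simp at h
  exact h

theorem S1_prim (u : T ι) (hu : Prim u) : S1 ι u = -u := by
  have h := mu_cop u
  rw [prim_const u hu, hu, map_add] at h
  have h1 : lft ι u = lft ι u * rgt ι 1 := by simp
  have h2 : rgt ι u = lft ι 1 * rgt ι u := by simp
  rw [h1, h2, mu_lr, mu_lr, S1_one] at h
  simp at h
  exact eq_neg_of_add_eq_zero_left h

theorem S1_word (m : FreeMonoid ι) (r : ℝ) :
    IsH (fun _ => 1) (wd (fun _ => 1) m) (S1 ι (single m r)) := by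
  induction m using FreeMonoid.recOn with
  | one =>
    have : (single 1 r : T ι) = r • 1 := by simp [one_def]
    rw [this, map_smul, S1_one, wd_one]
    exact (HS (fun _ => 1) 0).smul_mem r (isH_one _)
  | of_mul i m ih =>
    rw [← X_mul_single, S1_mul, S1_X, wd_mul, add_comm, mul_neg]
    refine (HS (fun _ => 1) _).neg_mem ?_
    exact isH_mul _ _ _ _ _ ih (isH_single _ _ _)

theorem S1_hom (m : ℕ) (u : T ι) (hu : IsH (fun _ => 1) m u) : IsH (fun _ => 1) m (S1 ι u) := by
  have h : S1 ι u = u.coeff.sum fun a r => S1 ι (single a r) := by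
    conv_lhs => rw [← sum_coeff_single u]
    rw [map_finsuppSum]
  rw [← mem_HS, h]
  refine Submodule.sum_mem _ fun a ha => ?_
  have h1 := hu a (Finsupp.mem_support_iff.1 ha)
  have h2 := S1_word a (u.coeff a)
  rw [h1] at h2
  exact h2

end TANT

theorem t_ANT : S_ANT := fun ι =>
  ⟨TANT.S1 ι, TANT.S1_mul, TANT.S1_prim, TANT.S1_hom⟩

end Pool.Agent.H32CE
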