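import Pool.Agent.H32CE.St

set_option autoImplicit false

/-!
Task APR: third rotation lemma.
-/

namespace Pool.Agent.H32CE

namespace TAPR

open MvPolynomial

/-- the sum of all partial derivatives -/
noncomputable def EE {k : ℕ} (f : MvPolynomial (Fin k) ℝ) : MvPolynomial (Fin k) ℝ :=
  ∑ i, pderiv i f

theorem EE_add {k : ℕ} (f g : MvPolynomial (Fin k) ℝ) : EE (f + g) = EE f + EE g := by
  unfold EE
  simp only [map_add, Finset.sum_add_distrib]

theorem EE_sub {k : ℕ} (f g : MvPolynomial (Fin k) ℝ) : EE (f - g) = EE f - EE g := by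
  unfold EE
  simp only [map_sub, Finset.sum_sub_distrib]

theorem EE_mul {k : ℕ} (f g : MvPolynomial (Fin k) ℝ) : EE (f * g) = EE f * g + f * EE g := by
  unfold EE
  simp only [pderiv_mul, Finset.sum_add_distrib, Finset.sum_mul, Finset.mul_sum]

theorem EE_X {k : ℕ} (j : Fin k) : EE (MvPolynomial.X j : MvPolynomial (Fin k) ℝ) = 1 := by
  unfold EE
  rw [Finset.sum_eq_single j]
  · exact pderiv_X_self j
  · intro i _ hi
    exact pderiv_X_of_ne (Ne.symm hi)
  · intro h
    exact absurd (Finset.mem_univ _) h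

theorem EE_C {k : ℕ} (a : ℝ) : EE (C a : MvPolynomial (Fin k) ℝ) = 0 := by
  unfold EE
  simp only [pderiv_C, Finset.sum_const_zero]

theorem EE_rename {k l : ℕ} (f : Fin k → Fin l) (v : MvPolynomial (Fin k) ℝ) :
    EE (rename f v) = rename f (EE v) := by
  induction v using MvPolynomial.induction_on with
  | C a => rw [rename_C, EE_C, EE_C, map_zero]
  | add p q hp hq => rw [map_add, EE_add, EE_add, map_add, hp, hq]
  | mul_X p j hp =>
    rw [map_mul, rename_X, EE_mul, EE_mul, EE_X, EE_X, hp, map_add, map_mul, rename_X, mul_one,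
      mul_one]

theorem coeff0 {n : ℕ} (f : MvPolynomial (Fin (n + 1)) ℝ) (k : ℕ) :
    (finSuccEquiv ℝ n (pderiv 0 f)).coeff k =
      ((k : MvPolynomial (Fin n) ℝ) + 1) * (finSuccEquiv ℝ n f).coeff (k + 1) := by
  ext m
  rw [finSuccEquiv_coeff_coeff, coeff_pderiv]
  have e1 : ((k : MvPolynomial (Fin n) ℝ) + 1) = C ((k : ℝ) + 1) := by
    rw [map_add, map_natCast, map_one]
  rw [e1, coeff_C_mul, finSuccEquiv_coeff_coeff]
  have e2 : Finsupp.cons k m + Finsupp.single 0 1 = Finsupp.cons (k + 1) m := by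
    ext i
    refine Fin.cases ?_ (fun j => ?_) i
    · simp
    · simp [Finsupp.cons_succ]
  rw [e2, Finsupp.cons_zero]
  ring

theorem coeffS {n : ℕ} (f : MvPolynomial (Fin (n + 1)) ℝ) (i : Fin n) (k : ℕ) :
    (finSuccEquiv ℝ n (pderiv i.succ f)).coeff k = pderiv i ((finSuccEquiv ℝ n f).coeff k) := by
  ext m
  rw [finSuccEquiv_coeff_coeff, coeff_pderiv, coeff_pderiv, finSuccEquiv_coeff_coeff]
  have e2 : Finsupp.cons k m + Finsupp.single i.succ 1 = Finsupp.cons k (m + Finsupp.single i 1) := by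
    ext j
    refine Fin.cases ?_ (fun l => ?_) j
    · simp [Finsupp.single_apply, Fin.succ_ne_zero]
    · simp [Finsupp.cons_succ, Finsupp.single_apply]
  rw [e2, Finsupp.cons_succ]

theorem fse_rename {n : ℕ} (v : MvPolynomial (Fin n) ℝ) :
    finSuccEquiv ℝ n (rename Fin.succ v) = Polynomial.C v := by
  induction v using MvPolynomial.induction_on with
  | C a =>
    rw [rename_C]
    have h := congrArg (fun g => g a) (finSuccEquiv_comp_C_eq_C (R := ℝ) n)
    have h2 : (finSuccEquiv ℝ n).symm (Polynomial.C (C a)) = C a := by simpa using h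
    rw [← h2, AlgEquiv.apply_symm_apply]
  | add p q hp hq => rw [map_add, map_add, hp, hq, Polynomial.C_add]
  | mul_X p j hp => rw [map_mul, map_mul, rename_X, finSuccEquiv_X_succ, hp, Polynomial.C_mul]

/-- rotations of a polynomial in all variables but one -/
noncomputable def V {n : ℕ} (v : MvPolynomial (Fin (n + 1)) ℝ) (r : Fin (n + 2)) :
    MvPolynomial (Fin (n + 2)) ℝ := rename (fun j : Fin (n + 1) => j.succ + r) v

theorem V_zero {n : ℕ} (v : MvPolynomial (Fin (n + 1)) ℝ) : V v 0 = rename Fin.succ v := by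
  unfold V
  simp only [add_zero]

theorem V_pderiv {n : ℕ} (v : MvPolynomial (Fin (n + 1)) ℝ) (r : Fin (n + 2)) :
    pderiv r (V v r) = 0 := by
  apply pderiv_eq_zero_of_notMem_vars
  intro h
  have h1 := vars_rename (fun j : Fin (n + 1) => j.succ + r) v h
  rw [Finset.mem_image] at h1
  obtain ⟨j, -, hj⟩ := h1
  have h2 : j.succ = 0 := by
    have : j.succ + r = 0 + r := by rw [hj, zero_add]
    exact add_right_cancel this
  exact Fin.succ_ne_zero j h2

theorem cyc {n : ℕ} (P : Fin (n + 2) → Prop) (h0 : P 0) (h1 : ∀ r, P r → P (r + 1)) :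
    ∀ r, P r := by
  intro r
  induction r using Fin.induction with
  | zero => exact h0
  | succ i hi =>
    have h := h1 _ hi
    rwa [Fin.coeSucc_eq_succ] at h

theorem rotW {n : ℕ} {W : MvPolynomial (Fin (n + 2)) ℝ} (h : rot W = W) (r : Fin (n + 2)) :
    rename (fun i : Fin (n + 2) => i + r) W = W := by
  refine cyc (fun r => rename (fun i : Fin (n + 2) => i + r) W = W) ?_ ?_ r
  · simp only [add_zero]
    exact rename_id_apply W
  · intro r hr
    have e : (fun i : Fin (n + 2) => i + (r + 1)) = (fun i => i + 1) ∘ (fun i => i + r) := by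
      funext i
      simp only [Function.comp_apply, add_assoc]
    show rename (fun i : Fin (n + 2) => i + (r + 1)) W = W
    rw [e, ← rename_rename, hr]
    exact h

theorem last_eq (n : ℕ) : Fin.last (n + 1) = (-1 : Fin (n + 2)) := by
  rw [eq_neg_iff_add_eq_zero]
  exact Fin.last_add_one (n + 1)

theorem castSucc_eq {n : ℕ} (j : Fin (n + 1)) : j.castSucc = j.succ + (-1 : Fin (n + 2)) := by
  rw [← sub_eq_add_neg, eq_sub_iff_add_eq]
  exact Fin.coeSucc_eq_succ

theorem step {n : ℕ} {v : MvPolynomial (Fin (n + 1)) ℝ} {W : MvPolynomial (Fin (n + 2)) ℝ}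
    (hR : Rel n v W) (hW : rot W = W) (r : Fin (n + 2)) :
    (MvPolynomial.X (r + 1) - MvPolynomial.X r) * W = V v r - V v (r + 1) := by
  unfold Rel at hR
  have h := congrArg (rename (fun i : Fin (n + 2) => i + (r + 1))) hR
  rw [map_mul, map_sub, map_sub, rotW hW, rename_X, rename_X, rename_rename, rename_rename,
    zero_add, last_eq] at h
  have e1 : (-1 : Fin (n + 2)) + (r + 1) = r := by abel
  rw [e1] at h
  have e2 : ((fun i : Fin (n + 2) => i + (r + 1)) ∘ Fin.castSucc) =
      fun j : Fin (n + 1) => j.succ + r := by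
    funext j
    simp only [Function.comp_apply]
    rw [castSucc_eq, add_assoc, e1]
  rw [e2] at h
  exact h

theorem const' {n : ℕ} {v : MvPolynomial (Fin (n + 1)) ℝ} {W : MvPolynomial (Fin (n + 2)) ℝ}
    (hR : Rel n v W) (hW : rot W = W) (r : Fin (n + 2)) :
    V v r + MvPolynomial.X r * W = V v 0 + MvPolynomial.X 0 * W := by
  refine cyc (fun r => V v r + MvPolynomial.X r * W = V v 0 + MvPolynomial.X 0 * W) rfl ?_ r
  intro r hr
  have h := step hR hW r
  show V v (r + 1) + MvPolynomial.X (r + 1) * W = V v 0 + MvPolynomial.X 0 * W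
  rw [← hr]
  linear_combination h

end TAPR

open TAPR MvPolynomial in
theorem t_APR : S_APR := by
  intro n m v W _ hm hv hR hW hE
  set Φ : MvPolynomial (Fin (n + 2)) ℝ := V v 0 + MvPolynomial.X 0 * W with hΦ
  have hE0 : ∀ r, EE (V v r) = 0 := by
    intro r
    unfold V
    rw [EE_rename]
    have : EE v = 0 := hE
    rw [this, map_zero]
  have hEW : EE W = 0 := by
    have h := congrArg EE (step hR hW 0)
    rw [EE_sub, hE0, hE0, sub_zero, EE_mul, EE_sub, EE_X, EE_X, sub_self, zero_mul, zero_add] at h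
    have hne : (MvPolynomial.X ((0 : Fin (n + 2)) + 1) -
        MvPolynomial.X (0 : Fin (n + 2)) : MvPolynomial (Fin (n + 2)) ℝ) ≠ 0 := by
      intro h0
      have h1 := MvPolynomial.X_injective (sub_eq_zero.1 h0)
      rw [zero_add] at h1
      exact one_ne_zero h1
    exact (mul_eq_zero.1 h).resolve_left hne
  have hEΦ : EE Φ = W := by
    rw [hΦ, EE_add, hE0, EE_mul, EE_X, hEW, mul_zero, add_zero, zero_add, one_mul]
  -- the coefficients
  set ψ : ℕ → MvPolynomial (Fin (n + 1)) ℝ := fun k => (finSuccEquiv ℝ (n + 1) Φ).coeff k with hψ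
  have hΨ : finSuccEquiv ℝ (n + 1) Φ = Polynomial.C v +
      Polynomial.X * finSuccEquiv ℝ (n + 1) W := by
    rw [hΦ, V_zero, map_add, map_mul, fse_rename, finSuccEquiv_X_zero]
  have hψ0 : ψ 0 = v := by
    simp only [hψ]
    rw [hΨ, Polynomial.coeff_add, Polynomial.coeff_C_zero, Polynomial.coeff_X_mul_zero, add_zero]
  have hψS : ∀ k, ψ (k + 1) = (finSuccEquiv ℝ (n + 1) W).coeff k := by
    intro k
    simp only [hψ]
    rw [hΨ, Polynomial.coeff_add, Polynomial.coeff_C_succ, Polynomial.coeff_X_mul, zero_add]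
  have hb : ∀ k i, pderiv i (ψ k - MvPolynomial.X i * ψ (k + 1)) = 0 := by
    intro k i
    have h1 := const' hR hW i.succ
    have h2 : V v i.succ = Φ - MvPolynomial.X i.succ * W := by rw [hΦ, ← h1]; ring
    have h3 := V_pderiv v i.succ
    rw [h2] at h3
    have h4 := congrArg (fun f => (finSuccEquiv ℝ (n + 1) f).coeff k) h3
    simp only [map_zero, Polynomial.coeff_zero] at h4
    rw [coeffS, map_sub, map_mul, finSuccEquiv_X_succ, Polynomial.coeff_sub,
      Polynomial.coeff_C_mul] at h4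
    rw [hψS]
    exact h4
  have hc : ∀ k : ℕ, ((k : MvPolynomial (Fin (n + 1)) ℝ) + 1) * ψ (k + 1) + ∑ i, pderiv i (ψ k) =
      ψ (k + 1) := by
    intro k
    have h1 : (finSuccEquiv ℝ (n + 1) (EE Φ)).coeff k = (finSuccEquiv ℝ (n + 1) W).coeff k := by
      rw [hEΦ]
    rw [← hψS] at h1
    unfold EE at h1
    rw [Fin.sum_univ_succ, map_add, map_sum, Polynomial.coeff_add, Polynomial.finset_sum_coeff,
      coeff0] at h1
    simp only [coeffS] at h1
    exact h1
  -- the degree in the first variable is zero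
  have hdeg : (finSuccEquiv ℝ (n + 1) Φ).natDegree = 0 := by
    by_contra hN
    obtain ⟨N, hN1⟩ : ∃ N, (finSuccEquiv ℝ (n + 1) Φ).natDegree = N + 1 :=
      ⟨_, (Nat.succ_pred_eq_of_pos (Nat.pos_of_ne_zero hN)).symm⟩
    have hz : ψ (N + 2) = 0 := Polynomial.coeff_eq_zero_of_natDegree_lt (by omega)
    have hd : ∀ i, pderiv i (ψ (N + 1)) = 0 := by
      intro i
      have h := hb (N + 1) i
      rwa [hz, mul_zero, sub_zero] at h
    have hd2 : ∀ i, pderiv i (ψ N) = ψ (N + 1) := by
      intro i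
      have h := hb N i
      rw [map_sub, pderiv_mul, pderiv_X_self, hd, mul_zero, add_zero, one_mul] at h
      exact sub_eq_zero.1 h
    have h := hc N
    simp only [hd2, Finset.sum_const, Finset.card_univ, Fintype.card_fin, nsmul_eq_mul] at h
    have h2 : ((N + n + 1 : ℕ) : MvPolynomial (Fin (n + 1)) ℝ) * ψ (N + 1) = 0 := by
      push_cast at h ⊢
      linear_combination h
    have h3 : ψ (N + 1) = 0 := by
      refine (mul_eq_zero.1 h2).resolve_left ?_
      exact Nat.cast_ne_zero.2 (by omega)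
    have h4 : finSuccEquiv ℝ (n + 1) Φ = 0 := by
      rw [← Polynomial.leadingCoeff_eq_zero, Polynomial.leadingCoeff, hN1]
      exact h3
    rw [h4, Polynomial.natDegree_zero] at hN1
    omega
  have h1 : ψ 1 = 0 := Polynomial.coeff_eq_zero_of_natDegree_lt (by omega)
  have h2 : ∀ i, pderiv i v = 0 := by
    intro i
    have h := hb 0 i
    rwa [h1, mul_zero, sub_zero, hψ0] at h
  have h3 := hv.sum_X_mul_pderiv
  simp only [h2, mul_zero, Finset.sum_const_zero] at h3
  have h4 : (m : MvPolynomial (Fin (n + 1)) ℝ) * v = 0 := by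
    rw [← nsmul_eq_mul]
    exact h3.symm
  refine (mul_eq_zero.1 h4).resolve_left ?_
  exact Nat.cast_ne_zero.2 (by omega)

end Pool.Agent.H32CE
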