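import Mathlib
import Pool.Agent.H32CE.AuxF278

set_option autoImplicit false

namespace Pool.Agent.H32B1

open MvPolynomial

theorem zero_of (x : ℕ) (f : MvPolynomial (Fin 2) ℝ) (hf : f.IsHomogeneous x)
    (hd : pderiv 0 f + pderiv 1 f = 0)
    (h0 : coeff (Finsupp.single (1 : Fin 2) x) f = 0) : f = 0 := by
  have key : ∀ a b : ℕ, a + b = x →
      coeff (Finsupp.single (0 : Fin 2) a + Finsupp.single (1 : Fin 2) b) f = 0 := by
    intro a
    induction a with
    | zero =>
      intro b hb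
      have : b = x := by omega
      subst this
      simpa using h0
    | succ a ih =>
      intro b hb
      have h1 := congrArg (coeff (Finsupp.single (0 : Fin 2) a + Finsupp.single (1 : Fin 2) b)) hd
      rw [coeff_add, coeff_pderiv, coeff_pderiv, coeff_zero] at h1
      have e1 : Finsupp.single (0 : Fin 2) a + Finsupp.single (1 : Fin 2) b +
          Finsupp.single (1 : Fin 2) 1 = Finsupp.single (0 : Fin 2) a +
          Finsupp.single (1 : Fin 2) (b + 1) := by
        rw [add_assoc, ← Finsupp.single_add]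
      have e0 : Finsupp.single (0 : Fin 2) a + Finsupp.single (1 : Fin 2) b +
          Finsupp.single (0 : Fin 2) 1 = Finsupp.single (0 : Fin 2) (a + 1) +
          Finsupp.single (1 : Fin 2) b := by
        rw [add_right_comm, ← Finsupp.single_add]
      rw [e0, e1, ih (b + 1) (by omega)] at h1
      have h2 : ((Finsupp.single (0 : Fin 2) a + Finsupp.single (1 : Fin 2) b) 0 : ℕ) = a := by
        simp
      rw [h2] at h1
      have h3 : ((a : ℝ) + 1) ≠ 0 := by positivity
      rw [zero_mul, add_zero] at h1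
      rcases mul_eq_zero.1 h1 with h | h
      · exact h
      · exact absurd h h3
  ext m
  rw [coeff_zero]
  by_contra hm
  have hdeg := hf hm
  have hm2 : m = Finsupp.single (0 : Fin 2) (m 0) + Finsupp.single (1 : Fin 2) (m 1) := by
    ext i
    fin_cases i <;> simp
  have hsum : m 0 + m 1 = x := by
    rw [← hdeg]
    simp [Finsupp.weight_apply, Finsupp.sum_fintype, Fin.sum_univ_two]
  apply hm
  rw [hm2]
  exact key _ _ hsum

theorem hom_pow (x : ℕ) :
    ((X 0 - X 1 : MvPolynomial (Fin 2) ℝ) ^ x).IsHomogeneous x := by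
  have h : (X 0 - X 1 : MvPolynomial (Fin 2) ℝ).IsHomogeneous 1 :=
    (isHomogeneous_X ℝ (0 : Fin 2)).sub (isHomogeneous_X ℝ (1 : Fin 2))
  simpa using h.pow x

theorem pd_pow (x : ℕ) :
    pderiv 0 ((X 0 - X 1 : MvPolynomial (Fin 2) ℝ) ^ x) +
      pderiv 1 ((X 0 - X 1 : MvPolynomial (Fin 2) ℝ) ^ x) = 0 := by
  rw [Derivation.leibniz_pow, Derivation.leibniz_pow]
  simp only [map_sub, pderiv_X_self, pderiv_X_of_ne (by decide : (1 : Fin 2) ≠ 0),
    pderiv_X_of_ne (by decide : (0 : Fin 2) ≠ 1)]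
  simp

theorem cf_pow (x : ℕ) :
    coeff (Finsupp.single (1 : Fin 2) x) ((X 0 - X 1 : MvPolynomial (Fin 2) ℝ) ^ x) ≠ 0 := by
  intro h
  have h1 := zero_of x _ (hom_pow x) (pd_pow x) h
  have h2 : (X 0 - X 1 : MvPolynomial (Fin 2) ℝ) = 0 := by
    rcases Nat.eq_zero_or_pos x with hx | hx
    · subst hx; simp at h1
    · exact (pow_eq_zero_iff (by omega)).1 h1
  exact absurd h2 (by
    intro h3
    have := congrArg (eval ![(1 : ℝ), 0]) h3
    simp at this)

theorem shape (x : ℕ) (f : MvPolynomial (Fin 2) ℝ) (hf : f.IsHomogeneous x)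
    (hd : pderiv 0 f + pderiv 1 f = 0) :
    ∃ ν : ℝ, f = ν • (X 0 - X 1 : MvPolynomial (Fin 2) ℝ) ^ x := by
  set c := coeff (Finsupp.single (1 : Fin 2) x) ((X 0 - X 1 : MvPolynomial (Fin 2) ℝ) ^ x) with hc
  have hc0 : c ≠ 0 := cf_pow x
  refine ⟨coeff (Finsupp.single (1 : Fin 2) x) f / c, ?_⟩
  rw [← sub_eq_zero]
  apply zero_of x
  · exact hf.sub (by
      rw [smul_eq_C_mul]
      simpa using (isHomogeneous_C (Fin 2) (coeff (Finsupp.single (1 : Fin 2) x) f / c)).mul
        (hom_pow x))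
  · have := pd_pow x
    simp only [map_sub, Derivation.map_smul]
    calc _ = (pderiv 0 f + pderiv 1 f) - (coeff (Finsupp.single (1 : Fin 2) x) f / c) •
        (pderiv 0 ((X 0 - X 1 : MvPolynomial (Fin 2) ℝ) ^ x) +
          pderiv 1 ((X 0 - X 1 : MvPolynomial (Fin 2) ℝ) ^ x)) := by
          rw [smul_add]; abel
      _ = 0 := by rw [this, hd]; simp
  · rw [coeff_sub, coeff_smul, ← hc, smul_eq_mul, div_mul_cancel₀ _ hc0, sub_self]

end Pool.Agent.H32B1


namespace Pool.Agent.H32CE

open AX278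

theorem adk_isH (a b k : ℕ) : IsH ![a, b] (a * k + b) (adk k) := by
  induction k with
  | zero =>
    intro m hm
    have : adk 0 = X 1 := rfl
    rw [this] at hm
    unfold X at hm
    have h1 : m = FreeMonoid.of 1 := by
      by_contra hne
      apply hm
      classical
      rw [MonoidAlgebra.coeff_single, Finsupp.single_apply, if_neg (Ne.symm hne)]
    subst h1
    simp [wd]
  | succ k ih =>
    have h0 : IsH ![a, b] a (X (0 : Fin 2)) := by
      intro m hm
      unfold X at hm
      have h1 : m = FreeMonoid.of 0 := by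
        by_contra hne
        apply hm
        classical
        rw [MonoidAlgebra.coeff_single, Finsupp.single_apply, if_neg (Ne.symm hne)]
      subst h1
      simp [wd]
    have h : adk (k + 1) = br (X 0) (adk k) := by
      unfold adk
      rw [Function.iterate_succ_apply']
    rw [h]
    have h1 : X 0 * adk k ∈ HS ![a, b] (a + (a * k + b)) := isH_mul _ _ _ _ _ h0 ih
    have h2 : adk k * X 0 ∈ HS ![a, b] (a + (a * k + b)) := by
      rw [add_comm]; exact isH_mul _ _ _ _ _ ih h0
    have h3 := Submodule.sub_mem _ h1 h2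
    have h4 : a * (k + 1) + b = a + (a * k + b) := by ring
    rw [h4]
    exact h3

theorem t_B1 (hM : S_MOD) : S_B1 := by
  obtain ⟨P, hinj, -, -, -, -, hadk, -, hpd, hhom, -, hP0⟩ := hM
  intro p j i U hp hi hij hU hUh
  -- P κ (adk k) for κ ≠ 1
  have hadk0 : ∀ κ k, κ ≠ 1 → P κ (adk k) = 0 := by
    intro κ k hκ
    by_contra hne
    obtain ⟨x1, e1, -⟩ := hhom κ 1 (k + 1) _ (adk k) le_rfl (adk_isH 1 (k + 1) k) hne
    have hκ0 : κ = 0 := by
      rcases Nat.lt_or_ge κ 2 with h | h
      · omega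
      · exfalso
        have : (k + 1) * 2 ≤ (k + 1) * κ := Nat.mul_le_mul_left _ h
        omega
    subst hκ0
    obtain ⟨x1, e1, f1⟩ := hhom 0 1 1 _ (adk k) le_rfl (adk_isH 1 1 k) hne
    obtain ⟨x2, e2, f2⟩ := hhom 0 1 2 _ (adk k) le_rfl (adk_isH 1 2 k) hne
    have := f1.inj_right f2 hne
    omega
  -- P 0 1
  have h1H : ∀ a b : ℕ, IsH ![a, b] 0 (1 : T (Fin 2)) := by
    intro a b
    exact isH_one _
  have hP01 : ∃ c0 : ℝ, c0 ≠ 0 ∧ P 0 1 = MvPolynomial.C c0 := by
    have hne : P 0 1 ≠ 0 := by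
      intro h0
      have : (1 : T (Fin 2)) = 0 := by
        apply hinj
        intro κ
        rcases Nat.eq_zero_or_pos κ with h | h
        · subst h; exact h0
        · by_contra hne
          obtain ⟨x, e, -⟩ := hhom κ 1 1 _ 1 le_rfl (h1H 1 1) hne
          omega
      exact one_ne_zero this
    obtain ⟨x, e, f⟩ := hhom 0 1 1 _ 1 le_rfl (h1H 1 1) hne
    have hx : x = 0 := by omega
    subst hx
    have h3 : (P 0 1).totalDegree = 0 := (MvPolynomial.totalDegree_zero_iff_isHomogeneous _).2 f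
    have h4 := MvPolynomial.totalDegree_eq_zero_iff_eq_C.1 h3
    refine ⟨_, ?_, h4⟩
    intro h5
    rw [h5, MvPolynomial.C_0] at h4
    exact hne h4
  obtain ⟨c0, hc0, hc⟩ := hP01
  -- P 1 (adk k)
  have hadk1 : ∀ k, P 1 (adk k) = c0 • (MvPolynomial.X 0 - MvPolynomial.X 1) ^ k := by
    intro k
    have h := hadk 0 k 1
    rw [mul_one, hc] at h
    rw [h, MvPolynomial.rename_C, MvPolynomial.smul_eq_C_mul, mul_comm]
  -- P κ U = 0 for κ ≠ 1
  have hU0 : ∀ κ, κ ≠ 1 → P κ U = 0 := by
    intro κ hκ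
    by_contra hne
    obtain ⟨x, e, f⟩ := hhom κ p (p + j) _ U hp hUh hne
    rcases Nat.lt_or_ge κ 2 with h | h
    · have hκ0 : κ = 0 := by omega
      subst hκ0
      obtain ⟨c, hcU⟩ := hP0 U hU
      have hX : (P 0 U).IsHomogeneous 1 := by
        rw [hcU, MvPolynomial.smul_eq_C_mul]
        simpa using (MvPolynomial.isHomogeneous_C (Fin 1) c).mul
          (MvPolynomial.isHomogeneous_X ℝ (0 : Fin 1))
      have hx := f.inj_right hX hne
      subst hx
      omega
    · have : (p + j) * 2 ≤ (p + j) * κ := Nat.mul_le_mul_left _ h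
      omega
  have hpd1 := hpd 1 U le_rfl hU
  rw [Fin.sum_univ_two] at hpd1
  by_cases hz : P 1 U = 0
  · refine ⟨0, ?_⟩
    have : U = 0 := by
      apply hinj
      intro κ
      by_cases h : κ = 1
      · subst h; exact hz
      · exact hU0 κ h
    rw [this]
    simp
  obtain ⟨x, e, f⟩ := hhom 1 p (p + j) _ U hp hUh hz
  have hx : p * x = i := by omega
  obtain ⟨ν, hν⟩ := Pool.Agent.H32B1.shape x (P 1 U) f hpd1
  refine ⟨ν / c0, ?_⟩
  have hdvd : p ∣ i := ⟨x, hx.symm⟩
  have hdiv : i / p = x := by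
    rw [← hx]; exact Nat.mul_div_cancel_left x hp
  rw [if_pos hdvd, hdiv, ← sub_eq_zero]
  apply hinj
  intro κ
  rw [map_sub, map_smul]
  by_cases h : κ = 1
  · subst h
    rw [hν, hadk1, smul_smul, div_mul_cancel₀ _ hc0, sub_self]
  · rw [hU0 κ h, hadk0 κ x h]
    simp

end Pool.Agent.H32CE
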