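import Pool.Agent.H32CE.St

set_option autoImplicit false

/-! Task BAS: basic facts on the filtration. -/

namespace Pool.Agent.H32CE

open PowerSeries

namespace TBAS

section ring

variable {A : Type} [Ring A]

theorem og_mul {k l : ℕ} {f g : PS A} (hf : ordge k f) (hg : ordge l g) : ordge (k + l) (f * g) := by
  intro i hi
  rw [PowerSeries.coeff_mul]
  apply Finset.sum_eq_zero
  rintro ⟨a, b⟩ hab
  rw [Finset.HasAntidiagonal.mem_antidiagonal] at hab
  simp only at hab ⊢
  by_cases ha : a < k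
  · rw [hf a ha, zero_mul]
  · rw [hg b (by omega), mul_zero]

theorem og_zero (f : PS A) : ordge 0 f := fun i hi => absurd hi (Nat.not_lt_zero i)

theorem og_mul_left {k : ℕ} {f : PS A} (g : PS A) (hf : ordge k f) : ordge k (g * f) := by
  have := og_mul (og_zero g) hf
  rwa [zero_add] at this

theorem og_mul_right {k : ℕ} {f : PS A} (g : PS A) (hf : ordge k f) : ordge k (f * g) := by
  have := og_mul hf (og_zero g)
  rwa [add_zero] at this

theorem og_add {k : ℕ} {f g : PS A} (hf : ordge k f) (hg : ordge k g) : ordge k (f + g) := by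
  intro i hi
  rw [map_add, hf i hi, hg i hi, add_zero]

theorem og_sub {k : ℕ} {f g : PS A} (hf : ordge k f) (hg : ordge k g) : ordge k (f - g) := by
  intro i hi
  rw [map_sub, hf i hi, hg i hi, sub_zero]

theorem og_neg {k : ℕ} {f : PS A} (hf : ordge k f) : ordge k (-f) := by
  intro i hi
  rw [map_neg, hf i hi, neg_zero]

theorem og_mono {k l : ℕ} {f : PS A} (h : l ≤ k) (hf : ordge k f) : ordge l f :=
  fun i hi => hf i (by omega)

theorem top {k l : ℕ} {f g : PS A} (hf : ordge k f) (hg : ordge l g) :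
    coeff (k + l) (f * g) = coeff k f * coeff l g := by
  rw [PowerSeries.coeff_mul]
  apply Finset.sum_eq_single_of_mem (k, l) (Finset.HasAntidiagonal.mem_antidiagonal.2 rfl)
  rintro ⟨a, b⟩ hab hne
  rw [Finset.HasAntidiagonal.mem_antidiagonal] at hab
  simp only at hab ⊢
  by_cases ha : a < k
  · rw [hf a ha, zero_mul]
  · have hb : b < l := by
      have : a ≠ k := by
        intro h
        apply hne
        rw [Prod.mk.injEq]
        omega
      omega
    rw [hg b hb, mul_zero]

theorem top_left {k : ℕ} {f : PS A} (g : PS A) (hf : ordge k f) :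
    coeff k (g * f) = coeff 0 g * coeff k f := by
  have := top (og_zero g) hf
  rwa [zero_add] at this

theorem top_right {k : ℕ} {f : PS A} (g : PS A) (hf : ordge k f) :
    coeff k (f * g) = coeff k f * coeff 0 g := by
  have := top hf (og_zero g)
  rwa [add_zero] at this

end ring

variable {ι : Type}

theorem mag_mul (x y : FreeGroup ι) : mag (x * y) = mag x * mag y := by
  unfold mag
  rw [map_mul, Units.val_mul]

theorem mag_one : mag (1 : FreeGroup ι) = 1 := by
  unfold mag
  rw [map_one, Units.val_one]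

theorem mag_inv_mul (x : FreeGroup ι) : mag x⁻¹ * mag x = 1 := by
  rw [← mag_mul, inv_mul_cancel, mag_one]

theorem mag_mul_inv (x : FreeGroup ι) : mag x * mag x⁻¹ = 1 := by
  rw [← mag_mul, mul_inv_cancel, mag_one]

theorem ex0 {A : Type} [Ring A] [Algebra ℝ A] (w : ℕ) (x : A) : coeff 0 (ex w x) = 1 := by
  unfold ex
  rw [PowerSeries.coeff_mk]
  simp

theorem c0_mul {A : Type} [Ring A] (f g : PS A) : coeff 0 (f * g) = coeff 0 f * coeff 0 g :=
  top_left f (og_zero g)

theorem mag_of (i : ι) : mag (FreeGroup.of i) = ex 1 (X i) := by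
  unfold mag magU
  rw [FreeGroup.lift_apply_of]
  rfl

theorem mag_of_inv (i : ι) : mag (FreeGroup.of i)⁻¹ = ex 1 (-(X i)) := by
  unfold mag magU
  rw [map_inv, FreeGroup.lift_apply_of]
  rfl

theorem c0 (x : FreeGroup ι) : coeff 0 (mag x) = 1 := by
  induction x using FreeGroup.induction_on with
  | C1 => rw [mag_one, PowerSeries.coeff_zero_one]
  | of i => rw [mag_of, ex0]
  | inv_of i _ => rw [mag_of_inv, ex0]
  | mul x y hx hy => rw [mag_mul, c0_mul, hx, hy, one_mul]

theorem D_iff (k : ℕ) (x : FreeGroup ι) : D k x ↔ ordge k (mag x - 1) := by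
  constructor
  · intro h i hi
    rw [map_sub, PowerSeries.coeff_one]
    by_cases h0 : i = 0
    · subst h0
      rw [if_pos rfl, c0, sub_self]
    · rw [if_neg h0, sub_zero]
      exact h i (by omega) hi
  · intro h i h1 hi
    have := h i hi
    rw [map_sub, PowerSeries.coeff_one, if_neg (by omega), sub_zero] at this
    exact this

theorem cf_eq {i : ℕ} (hi : 1 ≤ i) (x : FreeGroup ι) : cf i x = coeff i (mag x - 1) := by
  rw [map_sub, PowerSeries.coeff_one, if_neg (by omega), sub_zero]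
  rfl

theorem mul_eq (x y : FreeGroup ι) :
    mag (x * y) - 1 = (mag x - 1) + (mag y - 1) + (mag x - 1) * (mag y - 1) := by
  rw [mag_mul]; noncomm_ring

theorem D_mul {k : ℕ} {x y : FreeGroup ι} (hx : D k x) (hy : D k y) : D k (x * y) := by
  rw [D_iff] at hx hy ⊢
  rw [mul_eq]
  exact og_add (og_add hx hy) (og_mul_left _ hy)

theorem inv_eq (x : FreeGroup ι) : mag x⁻¹ - 1 = -(mag x⁻¹ * (mag x - 1)) := by
  rw [mul_sub, mag_inv_mul, mul_one]
  abel

theorem D_inv {k : ℕ} {x : FreeGroup ι} (hx : D k x) : D k x⁻¹ := by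
  rw [D_iff] at hx ⊢
  rw [inv_eq]
  exact og_neg (og_mul_left _ hx)

theorem conj_eq (x g : FreeGroup ι) : mag (g⁻¹ * x * g) - 1 = mag g⁻¹ * (mag x - 1) * mag g := by
  rw [mag_mul, mag_mul, mul_sub, sub_mul, mul_one, mag_inv_mul]

theorem D_conj {k : ℕ} {x : FreeGroup ι} (g : FreeGroup ι) (hx : D k x) : D k (g⁻¹ * x * g) := by
  rw [D_iff] at hx ⊢
  rw [conj_eq]
  exact og_mul_right _ (og_mul_left _ hx)

theorem cf_mul {k l : ℕ} {x y : FreeGroup ι} (hx : D k x) (hy : D l y) {i : ℕ} (h1 : 1 ≤ i)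
    (hi : i < k + l) : cf i (x * y) = cf i x + cf i y := by
  rw [D_iff] at hx hy
  rw [cf_eq h1, cf_eq h1, cf_eq h1, mul_eq, map_add, map_add, og_mul hx hy i hi, add_zero]

theorem cf_inv {k : ℕ} {x : FreeGroup ι} (hx : D k x) {i : ℕ} (h1 : 1 ≤ i) (hi : i < 2 * k) :
    cf i x⁻¹ = - cf i x := by
  have h := cf_mul hx (D_inv hx) h1 (show i < k + k by omega)
  rw [mul_inv_cancel] at h
  have h0 : cf i (1 : FreeGroup ι) = 0 := by
    rw [cf_eq h1, mag_one, sub_self, map_zero]
  rw [h0] at h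
  exact (neg_eq_of_add_eq_zero_right h.symm).symm

theorem cf_conj {k : ℕ} {x : FreeGroup ι} (g : FreeGroup ι) (hx : D k x) (hk : 1 ≤ k) :
    cf k (g⁻¹ * x * g) = cf k x := by
  rw [D_iff] at hx
  rw [cf_eq hk, cf_eq hk, conj_eq, top_right _ (og_mul_left _ hx), top_left _ hx, c0, c0, one_mul,
    mul_one]

theorem cm_eq (x y : FreeGroup ι) : mag (cm x y) - 1 =
    mag x⁻¹ * mag y⁻¹ * ((mag x - 1) * (mag y - 1) - (mag y - 1) * (mag x - 1)) := by
  have h1 : (mag x - 1) * (mag y - 1) - (mag y - 1) * (mag x - 1) =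
      mag x * mag y - mag y * mag x := by noncomm_ring
  have h2 : mag x⁻¹ * mag y⁻¹ * (mag y * mag x) = 1 := by
    rw [mul_assoc, ← mul_assoc (mag y⁻¹), mag_inv_mul, one_mul, mag_inv_mul]
  rw [h1, mul_sub, h2]
  unfold cm
  rw [mag_mul, mag_mul, mag_mul, mul_assoc, mul_assoc]

theorem D_cm {k l : ℕ} {x y : FreeGroup ι} (hk : 1 ≤ k) (hl : 1 ≤ l) (hx : D k x)
    (hy : D l y) : D (k + l) (cm x y) ∧ cf (k + l) (cm x y) = br (cf k x) (cf l y) := by
  rw [D_iff] at hx hy
  have h1 : ordge (k + l) ((mag x - 1) * (mag y - 1)) := og_mul hx hy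
  have h2 : ordge (k + l) ((mag y - 1) * (mag x - 1)) := by
    rw [add_comm]
    exact og_mul hy hx
  have h3 := og_sub h1 h2
  constructor
  · rw [D_iff, cm_eq]
    exact og_mul_left _ h3
  · rw [cf_eq (by omega), cm_eq, top_left _ h3, c0_mul, c0, c0, one_mul, one_mul, map_sub,
      top hx hy, cf_eq hk, cf_eq hl, br]
    congr 1
    rw [add_comm k l, top hy hx]

/-! homogeneity -/

theorem IsH_mul {w : ι → ℕ} {a b : ℕ} {f g : T ι} (hf : IsH w a f) (hg : IsH w b g) :
    IsH w (a + b) (f * g) := by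
  classical
  intro m hm
  rw [MonoidAlgebra.coeff_mul, Finsupp.sum] at hm
  obtain ⟨m1, h1, h2⟩ := Finset.exists_ne_zero_of_sum_ne_zero hm
  rw [Finsupp.sum] at h2
  obtain ⟨m2, h3, h4⟩ := Finset.exists_ne_zero_of_sum_ne_zero h2
  have h5 : m1 * m2 = m := by
    by_contra h
    rw [if_neg h] at h4
    exact h4 rfl
  rw [← h5, wd, FreeMonoid.toList_mul, List.map_append, List.sum_append]
  have e1 := hf m1 (Finsupp.mem_support_iff.1 h1)
  have e2 := hg m2 (Finsupp.mem_support_iff.1 h3)
  unfold wd at e1 e2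
  rw [e1, e2]

theorem IsH_zero {w : ι → ℕ} (a : ℕ) : IsH w a (0 : T ι) := by
  intro m hm
  simp at hm

theorem IsH_add {w : ι → ℕ} {a : ℕ} {f g : T ι} (hf : IsH w a f) (hg : IsH w a g) :
    IsH w a (f + g) := by
  intro m hm
  rw [MonoidAlgebra.coeff_add, Finsupp.add_apply] at hm
  by_cases h : f.coeff m = 0
  · rw [h, zero_add] at hm
    exact hg m hm
  · exact hf m h

theorem IsH_sum {w : ι → ℕ} {a : ℕ} {κ : Type} (s : Finset κ) (f : κ → T ι)
    (h : ∀ i ∈ s, IsH w a (f i)) : IsH w a (∑ i ∈ s, f i) := by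
  classical
  induction s using Finset.induction_on with
  | empty => rw [Finset.sum_empty]; exact IsH_zero a
  | insert i s hi ih =>
    rw [Finset.sum_insert hi]
    exact IsH_add (h i (Finset.mem_insert_self _ _))
      (ih fun j hj => h j (Finset.mem_insert_of_mem hj))

theorem IsH_smul {w : ι → ℕ} {a : ℕ} {f : T ι} (c : ℝ) (hf : IsH w a f) : IsH w a (c • f) := by
  intro m hm
  rw [MonoidAlgebra.coeff_smul_apply] at hm
  apply hf m
  intro h
  rw [h, smul_zero] at hm
  exact hm rfl

theorem IsH_one {w : ι → ℕ} : IsH w 0 (1 : T ι) := by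
  classical
  intro m hm
  rw [MonoidAlgebra.one_def, MonoidAlgebra.coeff_single, Finsupp.single_apply] at hm
  have h : 1 = m := by
    by_contra h
    rw [if_neg h] at hm
    exact hm rfl
  rw [← h]
  rfl

theorem IsH_pow {w : ι → ℕ} {a : ℕ} {f : T ι} (hf : IsH w a f) (n : ℕ) :
    IsH w (n * a) (f ^ n) := by
  induction n with
  | zero => rw [pow_zero, zero_mul]; exact IsH_one
  | succ n ih =>
    rw [pow_succ, Nat.succ_mul]
    exact IsH_mul ih hf

theorem IsH_X (i : ι) : IsH (fun _ => 1) 1 (X i) := by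
  classical
  intro m hm
  rw [X, MonoidAlgebra.coeff_single, Finsupp.single_apply] at hm
  have h : FreeMonoid.of i = m := by
    by_contra h
    rw [if_neg h] at hm
    exact hm rfl
  rw [← h]
  rfl

/-- all coefficients are homogeneous -/
def Hom (f : PS (T ι)) : Prop := ∀ i, IsH (fun _ => 1) i (coeff i f)

theorem Hom_mul {f g : PS (T ι)} (hf : Hom f) (hg : Hom g) : Hom (f * g) := by
  intro i
  rw [PowerSeries.coeff_mul]
  apply IsH_sum
  rintro ⟨a, b⟩ hab
  rw [Finset.HasAntidiagonal.mem_antidiagonal] at hab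
  simp only at hab ⊢
  rw [← hab]
  exact IsH_mul (hf a) (hg b)

theorem Hom_ex {x : T ι} (hx : IsH (fun _ => 1) 1 x) : Hom (ex 1 x) := by
  intro i
  unfold ex
  rw [PowerSeries.coeff_mk, if_pos (one_dvd i), Nat.div_one]
  apply IsH_smul
  have := IsH_pow hx i
  rwa [mul_one] at this

theorem Hom_one : Hom (1 : PS (T ι)) := by
  intro i
  rw [PowerSeries.coeff_one]
  split_ifs with h
  · subst h; exact IsH_one
  · exact IsH_zero i

theorem Hom_mag (x : FreeGroup ι) : Hom (mag x) := by
  induction x using FreeGroup.induction_on with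
  | C1 => rw [mag_one]; exact Hom_one
  | of i => rw [mag_of]; exact Hom_ex (IsH_X i)
  | inv_of i _ =>
    rw [mag_of_inv]
    apply Hom_ex
    have := IsH_smul (-1) (IsH_X i)
    rwa [neg_one_smul] at this
  | mul x y hx hy => rw [mag_mul]; exact Hom_mul hx hy

theorem last (c : ℕ) (x y : FreeGroup ι) :
    (∀ i, 1 ≤ i → i ≤ c → cf i x = cf i y) ↔ D (c + 1) (x⁻¹ * y) := by
  have e : mag (x⁻¹ * y) - 1 = mag x⁻¹ * (mag y - mag x) := by
    rw [mag_mul, mul_sub, mag_inv_mul]
  have e2 : mag y - mag x = mag x * (mag (x⁻¹ * y) - 1) := by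
    rw [e, ← mul_assoc, mag_mul_inv, one_mul]
  rw [D_iff]
  constructor
  · intro h
    rw [e]
    apply og_mul_left
    intro i hi
    rw [map_sub]
    by_cases h0 : i = 0
    · subst h0
      rw [c0, c0, sub_self]
    · have := h i (by omega) (by omega)
      unfold cf at this
      rw [this, sub_self]
  · intro h i _ hi
    have h1 : ordge (c + 1) (mag y - mag x) := by
      rw [e2]
      exact og_mul_left _ h
    have h2 := h1 i (by omega)
    rw [map_sub, sub_eq_zero] at h2
    exact h2.symm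

end TBAS

open TBAS in
theorem t_BAS : S_BAS := by
  intro ι
  refine ⟨c0, mag_mul, fun k x y => D_mul, fun k x => D_inv, fun k x g hx => D_conj g hx,
    fun k l x y hx hy i h1 hi => cf_mul hx hy h1 hi, fun k x hx i h1 hi => cf_inv hx h1 hi,
    fun k x g hx hk => cf_conj g hx hk, fun k l x y hk hl hx hy => D_cm hk hl hx hy,
    fun i x => Hom_mag x i, last⟩

end Pool.Agent.H32CE
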