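import Pool.Agent.H32CE.St

set_option autoImplicit false

/-! Task BAS2: weighted filtration, basic facts (helper642, after TBAS of helper584). -/

namespace Pool.Agent.H32CE

open PowerSeries

namespace TBAS2

section ring

variable {A : Type} [Ring A]

theorem og_mul {k l : ℕ} {f g : PS A} (hf : ordge k f) (hg : ordge l g) : ordge (k + l) (f * g) := by
  intro i hi
  rw [PowerSeries.coeff_mul]
  apply Finset.sum_eq_zero
  rintro ⟨a, b⟩ hab
  rw [Finset.HasAntidiagonal.mem_antidiagonal] at hab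
  simp only at hab ⊢
  by_cases ha : a < k
  · rw [hf a ha, zero_mul]
  · rw [hg b (by omega), mul_zero]

theorem og_zero (f : PS A) : ordge 0 f := fun i hi => absurd hi (Nat.not_lt_zero i)

theorem og_mul_left {k : ℕ} {f : PS A} (g : PS A) (hf : ordge k f) : ordge k (g * f) := by
  have := og_mul (og_zero g) hf
  rwa [zero_add] at this

theorem og_mul_right {k : ℕ} {f : PS A} (g : PS A) (hf : ordge k f) : ordge k (f * g) := by
  have := og_mul hf (og_zero g)
  rwa [add_zero] at this

theorem og_add {k : ℕ} {f g : PS A} (hf : ordge k f) (hg : ordge k g) : ordge k (f + g) := by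
  intro i hi
  rw [map_add, hf i hi, hg i hi, add_zero]

theorem og_sub {k : ℕ} {f g : PS A} (hf : ordge k f) (hg : ordge k g) : ordge k (f - g) := by
  intro i hi
  rw [map_sub, hf i hi, hg i hi, sub_zero]

theorem og_neg {k : ℕ} {f : PS A} (hf : ordge k f) : ordge k (-f) := by
  intro i hi
  rw [map_neg, hf i hi, neg_zero]

theorem top {k l : ℕ} {f g : PS A} (hf : ordge k f) (hg : ordge l g) :
    coeff (k + l) (f * g) = coeff k f * coeff l g := by
  rw [PowerSeries.coeff_mul]
  apply Finset.sum_eq_single_of_mem (k, l) (Finset.HasAntidiagonal.mem_antidiagonal.2 rfl)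
  rintro ⟨a, b⟩ hab hne
  rw [Finset.HasAntidiagonal.mem_antidiagonal] at hab
  simp only at hab ⊢
  by_cases ha : a < k
  · rw [hf a ha, zero_mul]
  · have hb : b < l := by
      have : a ≠ k := by
        intro h
        apply hne
        rw [Prod.mk.injEq]
        omega
      omega
    rw [hg b hb, mul_zero]

theorem top_left {k : ℕ} {f : PS A} (g : PS A) (hf : ordge k f) :
    coeff k (g * f) = coeff 0 g * coeff k f := by
  have := top (og_zero g) hf
  rwa [zero_add] at this

theorem c0_mul (f g : PS A) : coeff 0 (f * g) = coeff 0 f * coeff 0 g :=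
  top_left f (og_zero g)

end ring

section

variable (p q : ℕ) (hp : 1 ≤ p) (hq : 1 ≤ q)

/-- the expansion -/
noncomputable def m2 (x : FreeGroup (Fin 2)) : PS (T (Fin 2)) :=
  ((mg2U p q hp hq x : (PS (T (Fin 2)))ˣ) : PS (T (Fin 2)))

theorem m2_mul (x y : FreeGroup (Fin 2)) :
    m2 p q hp hq (x * y) = m2 p q hp hq x * m2 p q hp hq y := by
  unfold m2
  rw [map_mul, Units.val_mul]

theorem m2_one : m2 p q hp hq 1 = 1 := by
  unfold m2
  rw [map_one, Units.val_one]

theorem m2_inv_mul (x : FreeGroup (Fin 2)) : m2 p q hp hq x⁻¹ * m2 p q hp hq x = 1 := by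
  rw [← m2_mul, inv_mul_cancel, m2_one]

theorem m2_of0 : m2 p q hp hq (FreeGroup.of 0) = li p (X 0) := by
  unfold m2 mg2U
  rw [FreeGroup.lift_apply_of]
  rfl

theorem m2_of1 : m2 p q hp hq (FreeGroup.of 1) = li q (X 1) := by
  unfold m2 mg2U
  rw [FreeGroup.lift_apply_of]
  rfl

theorem m2_inv0 : m2 p q hp hq (FreeGroup.of 0)⁻¹ = lii p (X 0) := by
  unfold m2 mg2U
  rw [map_inv, FreeGroup.lift_apply_of]
  rfl

theorem m2_inv1 : m2 p q hp hq (FreeGroup.of 1)⁻¹ = lii q (X 1) := by
  unfold m2 mg2U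
  rw [map_inv, FreeGroup.lift_apply_of]
  rfl

theorem li0 {A : Type} [Ring A] (w : ℕ) (x : A) : coeff 0 (li w x) = 1 := by
  unfold li
  rw [PowerSeries.coeff_mk, if_pos rfl]

theorem lii0 {A : Type} [Ring A] (w : ℕ) (x : A) : coeff 0 (lii w x) = 1 := by
  unfold lii
  rw [PowerSeries.coeff_mk, if_pos (dvd_zero w), Nat.zero_div, pow_zero]

theorem c0 (x : FreeGroup (Fin 2)) : coeff 0 (m2 p q hp hq x) = 1 := by
  induction x using FreeGroup.induction_on with
  | C1 => rw [m2_one, PowerSeries.coeff_zero_one]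
  | of i =>
    fin_cases i
    · exact (congrArg (coeff 0) (m2_of0 p q hp hq)).trans (li0 _ _)
    · exact (congrArg (coeff 0) (m2_of1 p q hp hq)).trans (li0 _ _)
  | inv_of i _ =>
    fin_cases i
    · exact (congrArg (coeff 0) (m2_inv0 p q hp hq)).trans (lii0 _ _)
    · exact (congrArg (coeff 0) (m2_inv1 p q hp hq)).trans (lii0 _ _)
  | mul x y hx hy => rw [m2_mul, c0_mul, hx, hy, one_mul]

theorem G_iff (k : ℕ) (x : FreeGroup (Fin 2)) :
    G2 p q hp hq k x ↔ ordge k (m2 p q hp hq x - 1) := by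
  constructor
  · intro h i hi
    rw [map_sub, PowerSeries.coeff_one]
    by_cases h0 : i = 0
    · subst h0
      rw [if_pos rfl, c0, sub_self]
    · rw [if_neg h0, sub_zero]
      exact h i (by omega) hi
  · intro h i h1 hi
    have := h i hi
    rw [map_sub, PowerSeries.coeff_one, if_neg (by omega), sub_zero] at this
    exact this

theorem cf_eq {i : ℕ} (hi : 1 ≤ i) (x : FreeGroup (Fin 2)) :
    cf2 p q hp hq i x = coeff i (m2 p q hp hq x - 1) := by
  rw [map_sub, PowerSeries.coeff_one, if_neg (by omega), sub_zero]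
  rfl

theorem mul_eq (x y : FreeGroup (Fin 2)) :
    m2 p q hp hq (x * y) - 1 = (m2 p q hp hq x - 1) + (m2 p q hp hq y - 1) +
      (m2 p q hp hq x - 1) * (m2 p q hp hq y - 1) := by
  rw [m2_mul]; noncomm_ring

theorem G_mul {k : ℕ} {x y : FreeGroup (Fin 2)} (hx : G2 p q hp hq k x)
    (hy : G2 p q hp hq k y) : G2 p q hp hq k (x * y) := by
  rw [G_iff] at hx hy ⊢
  rw [mul_eq]
  exact og_add (og_add hx hy) (og_mul_left _ hy)

theorem inv_eq (x : FreeGroup (Fin 2)) :
    m2 p q hp hq x⁻¹ - 1 = -(m2 p q hp hq x⁻¹ * (m2 p q hp hq x - 1)) := by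
  rw [mul_sub, m2_inv_mul, mul_one]
  abel

theorem G_inv {k : ℕ} {x : FreeGroup (Fin 2)} (hx : G2 p q hp hq k x) :
    G2 p q hp hq k x⁻¹ := by
  rw [G_iff] at hx ⊢
  rw [inv_eq]
  exact og_neg (og_mul_left _ hx)

theorem cf_mul {k l : ℕ} {x y : FreeGroup (Fin 2)} (hx : G2 p q hp hq k x)
    (hy : G2 p q hp hq l y) {i : ℕ} (h1 : 1 ≤ i) (hi : i < k + l) :
    cf2 p q hp hq i (x * y) = cf2 p q hp hq i x + cf2 p q hp hq i y := by
  rw [G_iff] at hx hy
  rw [cf_eq p q hp hq h1, cf_eq p q hp hq h1, cf_eq p q hp hq h1, mul_eq, map_add, map_add,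
    og_mul hx hy i hi, add_zero]

theorem cf_inv {k : ℕ} {x : FreeGroup (Fin 2)} (hx : G2 p q hp hq k x) {i : ℕ} (h1 : 1 ≤ i)
    (hi : i < 2 * k) : cf2 p q hp hq i x⁻¹ = - cf2 p q hp hq i x := by
  have h := cf_mul p q hp hq hx (G_inv p q hp hq hx) h1 (show i < k + k by omega)
  rw [mul_inv_cancel] at h
  have h0 : cf2 p q hp hq i 1 = 0 := by
    rw [cf_eq p q hp hq h1, m2_one, sub_self, map_zero]
  rw [h0] at h
  exact (neg_eq_of_add_eq_zero_right h.symm).symm

theorem cm_eq (x y : FreeGroup (Fin 2)) : m2 p q hp hq (cm x y) - 1 =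
    m2 p q hp hq x⁻¹ * m2 p q hp hq y⁻¹ *
      ((m2 p q hp hq x - 1) * (m2 p q hp hq y - 1) -
        (m2 p q hp hq y - 1) * (m2 p q hp hq x - 1)) := by
  have h1 : (m2 p q hp hq x - 1) * (m2 p q hp hq y - 1) -
      (m2 p q hp hq y - 1) * (m2 p q hp hq x - 1) =
      m2 p q hp hq x * m2 p q hp hq y - m2 p q hp hq y * m2 p q hp hq x := by noncomm_ring
  have h2 : m2 p q hp hq x⁻¹ * m2 p q hp hq y⁻¹ * (m2 p q hp hq y * m2 p q hp hq x) = 1 := by
    rw [mul_assoc, ← mul_assoc (m2 p q hp hq y⁻¹), m2_inv_mul, one_mul, m2_inv_mul]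
  rw [h1, mul_sub, h2]
  unfold cm
  rw [m2_mul, m2_mul, m2_mul, mul_assoc, mul_assoc]

theorem G_cm {k l : ℕ} {x y : FreeGroup (Fin 2)} (hk : 1 ≤ k) (hl : 1 ≤ l)
    (hx : G2 p q hp hq k x) (hy : G2 p q hp hq l y) : G2 p q hp hq (k + l) (cm x y) ∧
    cf2 p q hp hq (k + l) (cm x y) = br (cf2 p q hp hq k x) (cf2 p q hp hq l y) := by
  rw [G_iff] at hx hy
  have h1 : ordge (k + l) ((m2 p q hp hq x - 1) * (m2 p q hp hq y - 1)) := og_mul hx hy
  have h2 : ordge (k + l) ((m2 p q hp hq y - 1) * (m2 p q hp hq x - 1)) := by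
    rw [add_comm]
    exact og_mul hy hx
  have h3 := og_sub h1 h2
  constructor
  · rw [G_iff, cm_eq]
    exact og_mul_left _ h3
  · rw [cf_eq p q hp hq (by omega), cm_eq, top_left _ h3, c0_mul, c0, c0, one_mul, one_mul,
      map_sub, top hx hy, cf_eq p q hp hq hk, cf_eq p q hp hq hl, br]
    congr 1
    rw [add_comm k l, top hy hx]

end

/-! integrality -/

/-- integer coefficients -/
def It (f : T (Fin 2)) : Prop := ∀ m, f.coeff m ∈ (Int.castRingHom ℝ).range

theorem It_mul {f g : T (Fin 2)} (hf : It f) (hg : It g) : It (f * g) := by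
  classical
  intro m
  rw [MonoidAlgebra.coeff_mul, Finsupp.sum]
  refine sum_mem fun m1 _ => ?_
  rw [Finsupp.sum]
  refine sum_mem fun m2 _ => ?_
  split_ifs
  · exact mul_mem (hf m1) (hg m2)
  · exact zero_mem _

theorem It_zero : It 0 := by
  intro m
  rw [MonoidAlgebra.coeff_zero, Finsupp.zero_apply]
  exact zero_mem _

theorem It_add {f g : T (Fin 2)} (hf : It f) (hg : It g) : It (f + g) := by
  intro m
  rw [MonoidAlgebra.coeff_add, Finsupp.add_apply]
  exact add_mem (hf m) (hg m)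

theorem It_neg {f : T (Fin 2)} (hf : It f) : It (-f) := by
  intro m
  rw [MonoidAlgebra.coeff_neg, Finsupp.neg_apply]
  exact neg_mem (hf m)

theorem It_sum {κ : Type} (s : Finset κ) (f : κ → T (Fin 2)) (h : ∀ i ∈ s, It (f i)) :
    It (∑ i ∈ s, f i) := by
  classical
  induction s using Finset.induction_on with
  | empty => rw [Finset.sum_empty]; exact It_zero
  | insert i s hi ih =>
    rw [Finset.sum_insert hi]
    exact It_add (h i (Finset.mem_insert_self _ _))
      (ih fun j hj => h j (Finset.mem_insert_of_mem hj))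

theorem It_single (u : FreeMonoid (Fin 2)) : It (MonoidAlgebra.single u 1) := by
  classical
  intro m
  rw [MonoidAlgebra.coeff_single, Finsupp.single_apply]
  split_ifs
  · exact one_mem _
  · exact zero_mem _

theorem It_one : It 1 := It_single 1

theorem It_X (i : Fin 2) : It (X i) := It_single _

theorem It_pow {f : T (Fin 2)} (hf : It f) (n : ℕ) : It (f ^ n) := by
  induction n with
  | zero => rw [pow_zero]; exact It_one
  | succ n ih =>
    rw [pow_succ]
    exact It_mul ih hf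

theorem It_li (w : ℕ) (x : T (Fin 2)) (hx : It x) (i : ℕ) : It (coeff i (li w x)) := by
  unfold li
  rw [PowerSeries.coeff_mk]
  split_ifs
  · exact It_one
  · exact hx
  · exact It_zero

theorem It_lii (w : ℕ) (x : T (Fin 2)) (hx : It x) (i : ℕ) : It (coeff i (lii w x)) := by
  unfold lii
  rw [PowerSeries.coeff_mk]
  split_ifs
  · exact It_pow (It_neg hx) _
  · exact It_zero

theorem It_m2 (p q : ℕ) (hp : 1 ≤ p) (hq : 1 ≤ q) (x : FreeGroup (Fin 2)) :
    ∀ i, It (coeff i (m2 p q hp hq x)) := by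
  induction x using FreeGroup.induction_on with
  | C1 =>
    intro i
    rw [m2_one, PowerSeries.coeff_one]
    split_ifs
    · exact It_one
    · exact It_zero
  | of j =>
    intro i
    fin_cases j
    · have := It_li p (X 0) (It_X 0) i
      rw [← m2_of0 p q hp hq] at this
      exact this
    · have := It_li q (X 1) (It_X 1) i
      rw [← m2_of1 p q hp hq] at this
      exact this
  | inv_of j _ =>
    intro i
    fin_cases j
    · have := It_lii p (X 0) (It_X 0) i
      rw [← m2_inv0 p q hp hq] at this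
      exact this
    · have := It_lii q (X 1) (It_X 1) i
      rw [← m2_inv1 p q hp hq] at this
      exact this
  | mul x y hx hy =>
    intro i
    rw [m2_mul, PowerSeries.coeff_mul]
    refine It_sum _ _ fun ab _ => It_mul (hx _) (hy _)

end TBAS2

open TBAS2 in
theorem t_BAS2 : S_BAS2 := by
  intro p q hp hq
  refine ⟨fun k x y hx hy => ⟨G_mul p q hp hq hx hy, G_inv p q hp hq hx⟩,
    fun k l x y hx hy i h1 hi => cf_mul p q hp hq hx hy h1 hi,
    fun k x hx i h1 hi => cf_inv p q hp hq hx h1 hi,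
    fun k l x y hk hl hx hy => G_cm p q hp hq hk hl hx hy, ?_, ?_, ?_, ?_, ?_⟩
  · intro i x m
    obtain ⟨z, hz⟩ := It_m2 p q hp hq x i m
    exact ⟨z, hz.symm⟩
  · intro i h1 hi
    show coeff i (m2 p q hp hq (FreeGroup.of 0)) = 0
    rw [m2_of0]
    unfold li
    rw [PowerSeries.coeff_mk, if_neg (by omega), if_neg (by omega)]
  · show coeff p (m2 p q hp hq (FreeGroup.of 0)) = X 0
    rw [m2_of0]
    unfold li
    rw [PowerSeries.coeff_mk, if_neg (by omega), if_pos rfl]
  · intro i h1 hi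
    show coeff i (m2 p q hp hq (FreeGroup.of 1)) = 0
    rw [m2_of1]
    unfold li
    rw [PowerSeries.coeff_mk, if_neg (by omega), if_neg (by omega)]
  · show coeff q (m2 p q hp hq (FreeGroup.of 1)) = X 1
    rw [m2_of1]
    unfold li
    rw [PowerSeries.coeff_mk, if_neg (by omega), if_pos rfl]

end Pool.Agent.H32CE
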