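import Pool.Agent.H32CE.St

set_option autoImplicit false

/-! Task BD: bounded solutions (helper303). -/

namespace Pool.Agent.H32CE

namespace TBD

theorem len_inv {r : ℕ} (g : FreeGroup (Fin r)) : len g⁻¹ = len g := by
  unfold len
  rw [FreeGroup.toWord_inv, FreeGroup.invRev_length]

theorem len_one {r : ℕ} : len (1 : FreeGroup (Fin r)) = 0 := by
  unfold len
  rw [FreeGroup.toWord_one]; rfl

theorem cm_inv {G : Type} [Group G] (x y : G) : cm y x = (cm x y)⁻¹ := by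
  unfold cm; group

theorem sol_swap (h1 : S_BAS) {r c : ℕ} {g x y : FreeGroup (Fin r)} (h : Sol c g x y) :
    Sol c g⁻¹ y x := by
  obtain ⟨-, -, -, binv, bconj, -⟩ := h1 (Fin r)
  unfold Sol at h ⊢
  have h2 := bconj (c + 1) _ g⁻¹ (binv (c + 1) _ h)
  have e : g⁻¹⁻¹ * (g⁻¹ * cm x y)⁻¹ * g⁻¹ = g⁻¹⁻¹ * cm y x := by
    rw [cm_inv x y]; group
  rwa [e] at h2

theorem typed_swap {r p q : ℕ} {x y : FreeGroup (Fin r)} (h : Typed p q x y) : Typed q p y x := by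
  obtain ⟨h1, h2, h3⟩ := h
  refine ⟨h2, h1, ?_⟩
  intro h4
  apply h3
  unfold br at h4 ⊢
  rw [← neg_sub, h4, neg_zero]

theorem bdt_swap (h1 : S_BAS) {r c p q : ℕ} (h : BDT r c q p) : BDT r c p q := by
  obtain ⟨C, E, h⟩ := h
  refine ⟨C, E, fun g => ?_⟩
  rintro ⟨x, y, ht, hs⟩
  obtain ⟨x', y', hs', hx, hy⟩ := h g⁻¹ ⟨y, x, typed_swap ht, sol_swap h1 hs⟩
  rw [len_inv] at hx hy
  refine ⟨y', x', ?_, hy, hx⟩
  have := sol_swap h1 hs'
  rwa [inv_inv] at this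

theorem bdt_le (h3 : S_H1) (h4 : S_P2STEP) (h5 : S_P3STEP) (h6 : S_FIN) (r c p q : ℕ)
    (hp : 1 ≤ p) (hpq : p ≤ q) (hc : p + q ≤ c) : BDT r c p q := by
  have key : ∀ j : ℕ, p + q + 2 * j ≤ c → HL r c p q (j + 1) := by
    intro j
    induction j with
    | zero => intro _; exact h3 r c p q hp (hp.trans hpq) hc
    | succ j ih =>
      intro hj
      have hHL := ih (by omega)
      by_cases hq : q ≤ p + (j + 1)
      · exact h4 r c p q (j + 1) hp hpq (by omega) hq (by omega) hHL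
      · exact h5 r c p q (j + 1) hp (by omega) (by omega) (by omega) hHL
  exact h6 r c p q ((c - p - q) / 2 + 1) hp (hp.trans hpq) (by omega) (by omega)
    (key ((c - p - q) / 2) (by omega))

end TBD

open TBD in
theorem t_BD (h1 : S_BAS) (h2 : S_NOR) (h3 : S_H1) (h4 : S_P2STEP) (h5 : S_P3STEP) (h6 : S_FIN) :
    S_BD := by
  classical
  intro r c
  have hB : ∀ p q, 1 ≤ p → 1 ≤ q → p + q ≤ c → BDT r c p q := by
    intro p q hp hq hc
    rcases le_total p q with h | h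
    · exact bdt_le h3 h4 h5 h6 r c p q hp h hc
    · exact bdt_swap h1 (bdt_le h3 h4 h5 h6 r c q p hq h (by omega))
  have hB2 : ∀ p q : ℕ, ∃ C E : ℕ, 1 ≤ p → 1 ≤ q → p + q ≤ c → ∀ g : FreeGroup (Fin r),
      (∃ x y, Typed p q x y ∧ Sol c g x y) → ∃ x y, Sol c g x y ∧
        len x ≤ C * (len g + 1) ^ E ∧ len y ≤ C * (len g + 1) ^ E := by
    intro p q
    by_cases h : 1 ≤ p ∧ 1 ≤ q ∧ p + q ≤ c
    · obtain ⟨C, E, hCE⟩ := hB p q h.1 h.2.1 h.2.2
      exact ⟨C, E, fun _ _ _ => hCE⟩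
    · exact ⟨0, 0, fun a b d => absurd ⟨a, b, d⟩ h⟩
  choose C E hCE using hB2
  set C0 : ℕ := ∑ p ∈ Finset.range (c + 1), ∑ q ∈ Finset.range (c + 1), C p q with hC0
  set E0 : ℕ := ∑ p ∈ Finset.range (c + 1), ∑ q ∈ Finset.range (c + 1), E p q with hE0
  have hle : ∀ (F : ℕ → ℕ → ℕ) (p q : ℕ), p ≤ c → q ≤ c →
      F p q ≤ ∑ p ∈ Finset.range (c + 1), ∑ q ∈ Finset.range (c + 1), F p q := by
    intro F p q hp hq
    calc F p q ≤ ∑ q ∈ Finset.range (c + 1), F p q :=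
          Finset.single_le_sum (f := fun q => F p q) (fun _ _ => Nat.zero_le _) (Finset.mem_range.2 (by omega))
      _ ≤ _ := Finset.single_le_sum (f := fun p => ∑ q ∈ Finset.range (c + 1), F p q)
          (fun _ _ => Nat.zero_le _) (Finset.mem_range.2 (by omega))
  obtain ⟨-, -, bmul, binv, -⟩ := h1 (Fin r)
  refine ⟨C0, E0, fun g => ?_⟩
  rintro ⟨x, y, hs⟩
  by_cases hD : D (c + 1) (cm x y)
  · refine ⟨1, 1, ?_, ?_, ?_⟩
    · unfold Sol at hs ⊢
      have h7 := bmul (c + 1) _ _ hs (binv (c + 1) _ hD)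
      have e : g⁻¹ * cm x y * (cm x y)⁻¹ = g⁻¹ * cm 1 1 := by
        unfold cm; group
      rwa [e] at h7
    · rw [len_one]; exact Nat.zero_le _
    · rw [len_one]; exact Nat.zero_le _
  · obtain ⟨x', y', p, q, he, hp, hq, hpq, ht⟩ := h2 r c x y hD
    have hs' : Sol c g x' y' := by unfold Sol at hs ⊢; rwa [he]
    obtain ⟨x2, y2, hs2, hx2, hy2⟩ := hCE p q hp hq hpq g ⟨x', y', ht, hs'⟩
    have hmono : C p q * (len g + 1) ^ E p q ≤ C0 * (len g + 1) ^ E0 := by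
      apply Nat.mul_le_mul (hle C p q (by omega) (by omega))
      exact Nat.pow_le_pow_right (by omega) (hle E p q (by omega) (by omega))
    exact ⟨x2, y2, hs2, hx2.trans hmono, hy2.trans hmono⟩

end Pool.Agent.H32CE
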