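import Mathlib
import Pool.Agent.H32CE.AuxF278

set_option autoImplicit false

/-! # Task BRP -/

namespace Pool.Agent.H32CE

open AX278

theorem t_BRP : S_BRP := by
  intro ι w m n u v
  constructor
  · intro hu hv
    unfold Prim at hu hv ⊢
    unfold br
    simp only [map_sub, map_mul, hu, hv]
    have h1 := comm_lr u v
    have h2 := comm_lr v u
    have e : (lft ι u + rgt ι u) * (lft ι v + rgt ι v) - (lft ι v + rgt ι v) * (lft ι u + rgt ι u)
        = (lft ι u * lft ι v - lft ι v * lft ι u + (rgt ι u * rgt ι v - rgt ι v * rgt ι u)) +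
          (lft ι u * rgt ι v - rgt ι v * lft ι u) - (lft ι v * rgt ι u - rgt ι u * lft ι v) := by
      noncomm_ring
    rw [e, h1, h2]
    simp
  · intro hu hv
    have h1 : u * v ∈ HS w (m + n) := isH_mul w m n u v hu hv
    have h2 : v * u ∈ HS w (m + n) := by
      rw [add_comm]; exact isH_mul w n m v u hv hu
    exact Submodule.sub_mem _ h1 h2

end Pool.Agent.H32CE
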