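import Pool.Agent.H32CE.St

set_option autoImplicit false

namespace Pool.Agent.H32CE

open PowerSeries

namespace TC2G

theorem mag_mul {ι : Type} (x y : FreeGroup ι) : mag (x * y) = mag x * mag y := by
  unfold mag
  rw [map_mul, Units.val_mul]

theorem mag_one {ι : Type} : mag (1 : FreeGroup ι) = 1 := by
  unfold mag
  rw [map_one, Units.val_one]

theorem mag_mul_inv {ι : Type} (x : FreeGroup ι) : mag x * mag x⁻¹ = 1 := by
  rw [← mag_mul, mul_inv_cancel, mag_one]

theorem ordge_mono {A : Type} [Ring A] {k l : ℕ} {f : PS A} (h : l ≤ k) (hf : ordge k f) :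
    ordge l f := fun i hi => hf i (by omega)

theorem ordge_add {A : Type} [Ring A] {k : ℕ} {f g : PS A} (hf : ordge k f) (hg : ordge k g) :
    ordge k (f + g) := fun i hi => by rw [map_add, hf i hi, hg i hi, add_zero]

theorem ordge_sub {A : Type} [Ring A] {k : ℕ} {f g : PS A} (hf : ordge k f) (hg : ordge k g) :
    ordge k (f - g) := fun i hi => by rw [map_sub, hf i hi, hg i hi, sub_zero]

theorem ordge_mul {A : Type} [Ring A] {k l : ℕ} {f g : PS A} (hf : ordge k f) (hg : ordge l g) :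
    ordge (k + l) (f * g) := fun i hi => by
  rw [coeff_mul]
  refine Finset.sum_eq_zero fun p hp => ?_
  rw [Finset.HasAntidiagonal.mem_antidiagonal] at hp
  by_cases h : p.1 < k
  · rw [hf _ h, zero_mul]
  · rw [hg _ (by omega), mul_zero]

theorem ordge_mul_left {A : Type} [Ring A] {k : ℕ} {f : PS A} (g : PS A) (hf : ordge k f) :
    ordge k (g * f) := by
  have h : ordge 0 g := fun i hi => absurd hi (Nat.not_lt_zero i)
  simpa using ordge_mul h hf

theorem ordge_mul_right {A : Type} [Ring A] {k : ℕ} {f : PS A} (g : PS A) (hf : ordge k f) :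
    ordge k (f * g) := by
  have h : ordge 0 g := fun i hi => absurd hi (Nat.not_lt_zero i)
  simpa using ordge_mul hf h

theorem ordge_br {A : Type} [Ring A] {k l : ℕ} {f g : PS A} (hf : ordge k f) (hg : ordge l g) :
    ordge (k + l) (br f g) := by
  unfold br
  refine ordge_sub (ordge_mul hf hg) ?_
  rw [add_comm]
  exact ordge_mul hg hf

theorem coeff_mul_left {A : Type} [Ring A] {k : ℕ} {f : PS A} (g : PS A) (hf : ordge k f)
    (hg : coeff 0 g = 1) : coeff k (g * f) = coeff k f := by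
  rw [coeff_mul, Finset.sum_eq_single (0, k)]
  · simp only
    rw [hg, one_mul]
  · intro p hp hne
    rw [Finset.HasAntidiagonal.mem_antidiagonal] at hp
    have : p.2 < k := by
      by_contra hc
      apply hne
      ext
      · simp; omega
      · simp; omega
    rw [hf _ this, mul_zero]
  · intro h
    exact absurd (by simp) h

theorem coeff_mul_right {A : Type} [Ring A] {k : ℕ} {f : PS A} (g : PS A) (hf : ordge k f)
    (hg : coeff 0 g = 1) : coeff k (f * g) = coeff k f := by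
  rw [coeff_mul, Finset.sum_eq_single (k, 0)]
  · simp only
    rw [hg, mul_one]
  · intro p hp hne
    rw [Finset.HasAntidiagonal.mem_antidiagonal] at hp
    have : p.1 < k := by
      by_contra hc
      apply hne
      ext
      · simp; omega
      · simp; omega
    rw [hf _ this, zero_mul]
  · intro h
    exact absurd (by simp) h

theorem conj3 {ι : Type} (g a b h : FreeGroup ι) (δ : PS (T ι)) :
    mag g * (mag a * δ * mag b) * mag h = mag (g * a) * δ * mag (b * h) := by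
  rw [mag_mul, mag_mul]
  simp only [mul_assoc]

theorem conj_Psi {r : ℕ} (x y : FreeGroup (Fin r)) (δ ε : PS (T (Fin r))) :
    mag (x * y) * Psi x y δ ε * mag (x * y)⁻¹ =
      (mag x * δ * mag x⁻¹ - mag y * (mag x * δ * mag x⁻¹) * mag y⁻¹) +
      (mag x * (mag y * ε * mag y⁻¹) * mag x⁻¹ - mag y * ε * mag y⁻¹) := by
  have e : mag (x * y) * Psi x y δ ε * mag (x * y)⁻¹ =
      mag (x * y) * (mag y⁻¹ * δ * mag y) * mag (x * y)⁻¹
      - mag (x * y) * (mag (cm x y)⁻¹ * δ * mag (cm x y)) * mag (x * y)⁻¹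
      + mag (x * y) * ε * mag (x * y)⁻¹
      - mag (x * y) * (mag (x * cm x y)⁻¹ * ε * mag (x * cm x y)) * mag (x * y)⁻¹ := by
    unfold Psi
    simp only [mul_add, mul_sub, add_mul, sub_mul]
  rw [e, conj3, conj3, conj3, conj3, conj3]
  have e1 : x * y * y⁻¹ = x := by group
  have e2 : y * (x * y)⁻¹ = x⁻¹ := by group
  have e3 : x * y * (cm x y)⁻¹ = y * x := by unfold cm; group
  have e4 : cm x y * (x * y)⁻¹ = x⁻¹ * y⁻¹ := by unfold cm; group
  have e5 : x * y * (x * cm x y)⁻¹ = y := by unfold cm; group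
  have e6 : x * cm x y * (x * y)⁻¹ = y⁻¹ := by unfold cm; group
  have e7 : (x * y)⁻¹ = y⁻¹ * x⁻¹ := by group
  rw [e1, e2, e3, e4, e5, e6, e7]
  abel

/-- the truncated expansion -/
noncomputable def tr {r : ℕ} (q : ℕ) (y : FreeGroup (Fin r)) : PS (T (Fin r)) :=
  PowerSeries.mk fun i => if 1 ≤ i ∧ i < 2 * q then cf i y else 0

theorem ordge_mag_sub_one {r : ℕ} {q : ℕ} {y : FreeGroup (Fin r)} (h0 : coeff 0 (mag y) = 1)
    (hy : D q y) : ordge q (mag y - 1) := by
  intro i hi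
  rw [map_sub]
  rcases Nat.eq_zero_or_pos i with h | h
  · subst h
    rw [h0]
    simp
  · have : coeff i (mag y) = 0 := hy i h hi
    rw [this, coeff_one, if_neg (by omega), sub_zero]

theorem ordge_tr {r : ℕ} {q : ℕ} {y : FreeGroup (Fin r)} (hy : D q y) : ordge q (tr q y) := by
  intro i hi
  unfold tr
  rw [coeff_mk]
  split_ifs with h
  · exact hy i h.1 hi
  · rfl

theorem ordge_rem {r : ℕ} {q : ℕ} {y : FreeGroup (Fin r)} (h0 : coeff 0 (mag y) = 1) :
    ordge (2 * q) (mag y - 1 - tr q y) := by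
  intro i hi
  rw [map_sub, map_sub]
  unfold tr
  rw [coeff_mk]
  rcases Nat.eq_zero_or_pos i with h | h
  · subst h
    rw [h0]
    simp
  · rw [if_pos ⟨h, hi⟩, coeff_one, if_neg (by omega), sub_zero]
    exact sub_self _

theorem PH_zero {ι : Type} (k : ℕ) : PH k (0 : T ι) := by
  refine ⟨fun m hm => ?_, ?_⟩
  · simp at hm
  · unfold Prim
    simp

/-- key: conjugated linearisation -/
theorem key {r p q j : ℕ} (h4 : S_BAS) {x y : FreeGroup (Fin r)} (hjq : p + j < q) (hy : D q y)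
    {δ ε ξ ε'' : PS (T (Fin r))} (hδ : ordge (p + j) (mag x * δ * mag x⁻¹))
    (hx : mag x * (mag y * ε * mag y⁻¹) * mag x⁻¹ - mag y * ε * mag y⁻¹ = br ξ ε'') :
    ordge (p + q + 2 * j + 1) (mag (x * y) * Psi x y δ ε * mag (x * y)⁻¹ -
      (br (mag x * δ * mag x⁻¹) (tr q y) + br ξ ε'')) := by
  obtain ⟨b0, -, -, b3, -⟩ := h4 (Fin r)
  rw [conj_Psi, hx]
  set δ' := mag x * δ * mag x⁻¹ with hδ'
  have e : δ' - mag y * δ' * mag y⁻¹ + br ξ ε'' - (br δ' (tr q y) + br ξ ε'') =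
      br δ' (mag y - 1 - tr q y) + br δ' (mag y - 1) * (mag y⁻¹ - 1) := by
    have h1 : br δ' (mag y - 1) * mag y⁻¹ = δ' - mag y * δ' * mag y⁻¹ := by
      unfold br
      have : δ' * (mag y - 1) - (mag y - 1) * δ' = δ' * mag y - mag y * δ' := by noncomm_ring
      rw [this, sub_mul, mul_assoc δ', mag_mul_inv, mul_one]
    rw [← h1]
    unfold br
    noncomm_ring
  rw [e]
  have h1 := ordge_mag_sub_one (b0 y) hy
  have h2 := ordge_mag_sub_one (b0 y⁻¹) (b3 q y hy)
  refine ordge_add (ordge_mono ?_ (ordge_br hδ (ordge_rem (b0 y))))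
    (ordge_mono ?_ (ordge_mul (ordge_br hδ h1) h2))
  · omega
  · omega

end TC2G

open TC2G in
theorem t_C2G (h1 : S_C2T) (h2 : S_LOG) (h3 : S_GRP) (h4 : S_BAS) : S_C2G := by
  intro r p q j x y δ ε d e hp hj hpj hx hy hcx hcy hPδ hPε hPd hPe hoδ hoε hod hoe hδ0 hΨ1 hΨ2 hΨ3
  obtain ⟨b0, -, -, b3, -⟩ := h4 (Fin r)
  obtain ⟨g1, g2⟩ := h3 (Fin r)
  obtain ⟨ξ, hPξ, hoξ, hcξ, hL⟩ := h2 (Fin r) p x hp hx
  -- conjugates
  obtain ⟨a1, a2, a3⟩ := g2 (p + j) x δ hPδ hoδ
  obtain ⟨c1, c2, c3⟩ := g2 (q + j) y ε hPε hoε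
  obtain ⟨a1', a2', a3'⟩ := g2 (p + j + 1) x d hPd hod
  obtain ⟨c1', c2', c3'⟩ := g2 (q + j + 1) y e hPe hoe
  obtain ⟨ε'', hε1, hε2, hε3, hε4⟩ := hL (q + j) _ c1 c2
  obtain ⟨e'', he1, he2, he3, he4⟩ := hL (q + j + 1) _ c1' c2'
  have k1 := key (p := p) (j := j) h4 hpj hy a2 hε4
  have k2 := key (p := p) (j := j) h4 hpj hy (ordge_mono (Nat.le_succ _) a2') he4
  have hPt : PP (tr q y) := by
    intro i
    unfold tr
    rw [coeff_mk]
    split_ifs with h
    · exact g1 q y hy i h.1 h.2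
    · exact PH_zero i
  have hct : coeff q (tr q y) = cf q y := by
    unfold tr
    rw [coeff_mk, if_pos (by omega)]
  have o1 : ordge (p + q + 2 * j + 1) (Psi x y δ ε) := fun i hi => hΨ1 i (by omega)
  have o1' : ordge (p + q + 2 * j + 1) (mag (x * y) * Psi x y δ ε * mag (x * y)⁻¹) :=
    ordge_mul_right _ (ordge_mul_left _ o1)
  have o2 : ordge (p + q + 2 * j) (Psi x y d e) := hΨ2
  have o2' : ordge (p + q + 2 * j) (mag (x * y) * Psi x y d e * mag (x * y)⁻¹) :=
    ordge_mul_right _ (ordge_mul_left _ o2)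
  have o2c : coeff (p + q + 2 * j) (mag (x * y) * Psi x y d e * mag (x * y)⁻¹) =
      coeff (p + q + 2 * j) (Psi x y d e) := by
    rw [coeff_mul_right _ (ordge_mul_left _ o2) (b0 _), coeff_mul_left _ o2 (b0 _)]
  refine h1 (Fin r) p q j ξ (tr q y) (mag x * δ * mag x⁻¹) ε'' (mag x * d * mag x⁻¹) e''
    hp hj hpj hPξ hPt a1 hε1 a1' he1 hoξ (ordge_tr hy) a2 hε2 a2' he2 (by rw [hcξ]; exact hcx)
    (by rw [hct]; exact hcy) (by rw [a3]; exact hδ0) ?_ ?_ ?_
  · intro i hi
    have t1 := k1 i (by omega)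
    have t2 := o1' i (by omega)
    rw [map_sub, t2, zero_sub, neg_eq_zero] at t1
    exact t1
  · intro i hi
    have t1 := k2 i (by omega)
    have t2 := o2' i hi
    rw [map_sub, t2, zero_sub, neg_eq_zero] at t1
    exact t1
  · have t1 := k2 (p + q + 2 * j) (by omega)
    rw [map_sub, o2c, sub_eq_zero] at t1
    rw [← t1, hΨ3, a3, hε3, c3]

end Pool.Agent.H32CE
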