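import Mathlib
import Pool.Agent.H32CE.Defs
import Pool.Agent.H32CE.St

set_option autoImplicit false

/-!
# MP_76db9d_al: the tangent statement, from the lifting lemmas and the pure statement
-/

namespace Pool.Agent.H32CE

open PowerSeries

theorem t_C2T (h1 : S_LIFTY) (h2 : S_LIFTD) (h3 : S_RQ) (h4 : S_THO) : S_C2T := by
  intro ι p q j ξ y δ ε d e hp hj hpq hξ hy hδ hε hd he oξ oy oδ oε od oe cξ cy cδ hA hB hC
  obtain ⟨Y, W, hYW, hy1, hε1⟩ := h1 ι p q j ξ y δ ε hp hj hpq hξ hy hδ hε oξ oy oδ oε cξ cy cδ hA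
  obtain ⟨ν, E, hE⟩ := h2 ι p q j ξ y δ ε d e Y W hp hj hpq hξ hy hδ hε hd he oξ oy oδ oε od oe
    cξ cy cδ hYW hy1 hε1 hB hC
  have hY0 := h3 p q j Y W E ν hp hj hpq
    (fun l hl => ⟨(hYW l hl).1, (hYW l hl).2.2.1, (hYW l hl).2.2.2.2⟩) hE
  apply cy
  rw [hy1 q (by omega), map_sum]
  apply Finset.sum_eq_zero
  intro l hl
  rw [Finset.mem_range] at hl
  by_cases h0 : l = 0
  · subst h0
    rw [hY0, map_zero, map_zero]
  · exact (h4 ι p (p + j) (q + l) ξ δ (Y l) hp (by omega) oξ oδ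
      (hYW l (by omega)).2.2.1).1 q (by omega)

end Pool.Agent.H32CE
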