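import Pool.Agent.H32CE.St

set_option autoImplicit false

/-! Task COMP: compactness, `p ≠ q`. -/

namespace Pool.Agent.H32CE

namespace TCOMP

/-- the real vector space of primitive homogeneous elements of degree `k` -/
noncomputable def PHs (r k : ℕ) : Submodule ℝ (T (Fin r)) where
  carrier := {f | PH k f}
  zero_mem' := by
    refine ⟨fun m hm => ?_, ?_⟩
    · simp at hm
    · simp [Prim]
  add_mem' := by
    rintro f g ⟨hf1, hf2⟩ ⟨hg1, hg2⟩
    refine ⟨fun m hm => ?_, ?_⟩
    · by_cases h : f.coeff m = 0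
      · by_cases h' : g.coeff m = 0
        · exfalso; apply hm
          show (f + g).coeff m = 0
          simp [h, h']
        · exact hg1 m h'
      · exact hf1 m h
    · unfold Prim at *
      rw [map_add, map_add, map_add, hf2, hg2]; abel
  smul_mem' := by
    rintro c f ⟨hf1, hf2⟩
    refine ⟨fun m hm => ?_, ?_⟩
    · by_cases h : f.coeff m = 0
      · exfalso; apply hm
        show (c • f).coeff m = 0
        simp [h]
      · exact hf1 m h
    · unfold Prim at *
      rw [map_smul, map_smul, map_smul, hf2, smul_add]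

lemma finite_words (r k : ℕ) : {m : FreeMonoid (Fin r) | wd (fun _ => 1) m = k}.Finite := by
  have h := List.finite_length_eq (Fin r) k
  refine (h.preimage (f := fun m : FreeMonoid (Fin r) => FreeMonoid.toList m)
    (FreeMonoid.toList.injective.injOn)).subset ?_
  intro m hm
  have : wd (fun _ => 1) m = k := hm
  simpa [wd] using this

instance finDim (r k : ℕ) : FiniteDimensional ℝ (PHs r k) := by
  have hfin : ((fun m : FreeMonoid (Fin r) => (MonoidAlgebra.single m (1 : ℝ) : T (Fin r))) ''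
      {m : FreeMonoid (Fin r) | wd (fun _ => 1) m = k}).Finite := (finite_words r k).image _
  have := FiniteDimensional.span_of_finite ℝ hfin
  refine Submodule.finiteDimensional_of_le (S₂ := Submodule.span ℝ ((fun m : FreeMonoid (Fin r) =>
    (MonoidAlgebra.single m (1 : ℝ) : T (Fin r))) ''
      {m : FreeMonoid (Fin r) | wd (fun _ => 1) m = k})) ?_
  intro f hf
  have hf' : PH k f := hf
  rw [← f.sum_coeff_single]
  refine Submodule.sum_mem _ fun m hm => ?_
  have h1 : (MonoidAlgebra.single m (f.coeff m) : T (Fin r)) =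
      f.coeff m • MonoidAlgebra.single m (1 : ℝ) := by simp
  rw [h1]
  refine Submodule.smul_mem _ _ (Submodule.subset_span ⟨m, ?_, rfl⟩)
  exact hf'.1 m (Finsupp.mem_support_iff.1 hm)

/-- the bracket as a bilinear map -/
noncomputable def brB (r p q : ℕ) : PHs r p →ₗ[ℝ] PHs r q →ₗ[ℝ] T (Fin r) :=
  LinearMap.mk₂ ℝ (fun a b => br (a : T (Fin r)) (b : T (Fin r)))
    (by intro a a' b; simp only [br, Submodule.coe_add]; noncomm_ring)
    (by intro c a b; simp only [br, Submodule.coe_smul, smul_mul_assoc, mul_smul_comm, smul_sub])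
    (by intro a b b'; simp only [br, Submodule.coe_add]; noncomm_ring)
    (by intro c a b; simp only [br, Submodule.coe_smul, smul_mul_assoc, mul_smul_comm, smul_sub])

/-- abstract compactness -/
lemma comp_abs {V U W : Type} [NormedAddCommGroup V] [NormedSpace ℝ V] [NormedAddCommGroup U]
    [NormedSpace ℝ U] [NormedAddCommGroup W] [NormedSpace ℝ W] [FiniteDimensional ℝ V]
    [FiniteDimensional ℝ U] (B : V →ₗ[ℝ] U →ₗ[ℝ] W)
    (hB : ∀ a b, a ≠ 0 → b ≠ 0 → B a b ≠ 0) :
    ∃ c₀ : ℝ, 0 < c₀ ∧ ∀ a b, c₀ * ‖a‖ * ‖b‖ ≤ ‖B a b‖ := by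
  have : ProperSpace V := FiniteDimensional.proper_real V
  have : ProperSpace U := FiniteDimensional.proper_real U
  set B' : V →ₗ[ℝ] (U →L[ℝ] W) :=
    (LinearMap.toContinuousLinearMap : (U →ₗ[ℝ] W) ≃ₗ[ℝ] U →L[ℝ] W).toLinearMap ∘ₗ B with hB'
  have hB'e : ∀ a b, B' a b = B a b := fun a b => rfl
  have hc' : Continuous B' := B'.continuous_of_finiteDimensional
  have hc : Continuous fun x : V × U => ‖B' x.1 x.2‖ :=
    ((hc'.comp continuous_fst).clm_apply continuous_snd).norm
  set K : Set (V × U) := Metric.sphere 0 1 ×ˢ Metric.sphere 0 1 with hK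
  have hKc : IsCompact K := (isCompact_sphere 0 1).prod (isCompact_sphere 0 1)
  have hmem : ∀ (a : V) (b : U), a ≠ 0 → b ≠ 0 → (‖a‖⁻¹ • a, ‖b‖⁻¹ • b) ∈ K := by
    intro a b ha hb
    have ha' : ‖a‖ ≠ 0 := norm_ne_zero_iff.2 ha
    have hb' : ‖b‖ ≠ 0 := norm_ne_zero_iff.2 hb
    refine ⟨?_, ?_⟩
    · rw [mem_sphere_zero_iff_norm, norm_smul, norm_inv, norm_norm, inv_mul_cancel₀ ha']
    · rw [mem_sphere_zero_iff_norm, norm_smul, norm_inv, norm_norm, inv_mul_cancel₀ hb']
  rcases K.eq_empty_or_nonempty with hE | hE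
  · refine ⟨1, one_pos, fun a b => ?_⟩
    by_cases ha : a = 0
    · simp [ha]
    by_cases hb : b = 0
    · simp [hb]
    exfalso
    have := hmem a b ha hb
    rw [hE] at this
    exact this
  · obtain ⟨⟨a0, b0⟩, h0, hmin⟩ := hKc.exists_isMinOn hE hc.continuousOn
    refine ⟨‖B a0 b0‖, ?_, fun a b => ?_⟩
    · rw [norm_pos_iff]
      apply hB
      · rintro rfl
        have := h0.1
        rw [mem_sphere_zero_iff_norm] at this
        simp at this
      · rintro rfl
        have := h0.2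
        rw [mem_sphere_zero_iff_norm] at this
        simp at this
    · by_cases ha : a = 0
      · simp [ha]
      by_cases hb : b = 0
      · simp [hb]
      have ha' : 0 < ‖a‖ := norm_pos_iff.2 ha
      have hb' : 0 < ‖b‖ := norm_pos_iff.2 hb
      have h1 : ‖B' a0 b0‖ ≤ ‖B' (‖a‖⁻¹ • a) (‖b‖⁻¹ • b)‖ := hmin (hmem a b ha hb)
      rw [hB'e, hB'e, map_smul, map_smul, LinearMap.smul_apply, norm_smul, norm_smul, norm_inv,
        norm_inv, norm_norm, norm_norm] at h1
      calc ‖B a0 b0‖ * ‖a‖ * ‖b‖ ≤ (‖b‖⁻¹ * (‖a‖⁻¹ * ‖B a b‖)) * ‖a‖ * ‖b‖ := by gcongr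
        _ = ‖B a b‖ := by field_simp

end TCOMP

open TCOMP in
theorem t_COMP (hP1 : S_P1) (hNM : S_NM) : S_COMP := by
  intro r p q hp hq hpq
  let _ : Norm (T (Fin r)) := ⟨nm⟩
  have core : NormedSpace.Core ℝ (T (Fin r)) :=
    { norm_nonneg := fun f => (hNM _ f f 0).2.2.2.1
      norm_smul := fun c f => (hNM _ f f c).2.2.1
      norm_triangle := fun f g => (hNM _ f g 0).1
      norm_eq_zero_iff := fun f => ⟨(hNM _ f f 0).2.2.2.2.1, fun h => by
        rw [h]
        have h0 : nm (0 : T (Fin r)) = 0 := by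
          have := (hNM _ (0 : T (Fin r)) 0 0).2.2.1
          simpa using this
        exact h0⟩ }
  let _ : NormedAddCommGroup (T (Fin r)) := NormedAddCommGroup.ofCore core
  let _ : NormedSpace ℝ (T (Fin r)) := NormedSpace.ofCore core
  obtain ⟨c₀, hc, h⟩ := comp_abs (brB r p q) (fun a b ha hb hab => by
    have h1 : br (a : T (Fin r)) (b : T (Fin r)) = 0 := hab
    exact hpq (hP1 (Fin r) p q a b hp hq a.2 b.2 (fun h => ha (Subtype.ext h))
      (fun h => hb (Subtype.ext h)) h1).1)
  exact ⟨c₀, hc, fun a b ha hb => h ⟨a, ha⟩ ⟨b, hb⟩⟩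

end Pool.Agent.H32CE
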