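import Pool.Agent.H32CE.St

set_option autoImplicit false

/-! # COMPE: compactness, `p = q` -/

namespace Pool.Agent.H32CE

namespace TCOMPE

section

variable {ι : Type}

theorem nm_eq (S : Finset (FreeMonoid ι)) (f : T ι) (h : ∀ m, f.coeff m ≠ 0 → m ∈ S) :
    nm f = ∑ m ∈ S, |f.coeff m| := by
  unfold nm Finsupp.sum
  apply Finset.sum_subset
  · intro m hm
    exact h m (Finsupp.mem_support_iff.1 hm)
  · intro m _ hm
    rw [Finsupp.notMem_support_iff.1 hm]
    exact abs_zero

theorem ip_eq (S : Finset (FreeMonoid ι)) (f g : T ι) (h : ∀ m, f.coeff m ≠ 0 → m ∈ S) :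
    ip f g = ∑ m ∈ S, f.coeff m * g.coeff m := by
  unfold ip Finsupp.sum
  apply Finset.sum_subset
  · intro m hm
    exact h m (Finsupp.mem_support_iff.1 hm)
  · intro m _ hm
    rw [Finsupp.notMem_support_iff.1 hm]
    exact zero_mul _

end

/-- words of length `p` -/
def wo (r p : ℕ) (u : Fin p → Fin r) : FreeMonoid (Fin r) := FreeMonoid.ofList (List.ofFn u)

theorem wo_inj (r p : ℕ) : Function.Injective (wo r p) := by
  intro u v h
  exact List.ofFn_injective (FreeMonoid.ofList.injective h)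

/-- the elements of degree `p` -/
noncomputable def Ph (r p : ℕ) : ((Fin p → Fin r) → ℝ) →ₗ[ℝ] T (Fin r) where
  toFun v := ∑ u, v u • MonoidAlgebra.single (wo r p u) 1
  map_add' v w := by
    rw [← Finset.sum_add_distrib]
    apply Finset.sum_congr rfl
    intro u _
    rw [Pi.add_apply, add_smul]
  map_smul' c v := by
    rw [RingHom.id_apply, Finset.smul_sum]
    apply Finset.sum_congr rfl
    intro u _
    rw [Pi.smul_apply, smul_eq_mul, mul_smul]

theorem Ph_apply (r p : ℕ) (v : (Fin p → Fin r) → ℝ) :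
    Ph r p v = ∑ u, v u • MonoidAlgebra.single (wo r p u) 1 := rfl

open Classical in
theorem Ph_coeff (r p : ℕ) (v : (Fin p → Fin r) → ℝ) (m : FreeMonoid (Fin r)) :
    (Ph r p v).coeff m = ∑ u, v u * (if wo r p u = m then 1 else 0) := by
  rw [Ph_apply, MonoidAlgebra.coeff_sum, Finsupp.finsetSum_apply]
  apply Finset.sum_congr rfl
  intro u _
  rw [MonoidAlgebra.coeff_smul_apply, MonoidAlgebra.coeff_single, Finsupp.single_apply,
    smul_eq_mul]

theorem Ph_coeff_wo (r p : ℕ) (v : (Fin p → Fin r) → ℝ) (u : Fin p → Fin r) :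
    (Ph r p v).coeff (wo r p u) = v u := by
  rw [Ph_coeff, Finset.sum_eq_single u]
  · simp
  · intro u' _ h
    rw [if_neg (fun h2 => h (wo_inj r p h2)), mul_zero]
  · intro h; exact absurd (Finset.mem_univ u) h

theorem Ph_surj (r p : ℕ) (f : T (Fin r)) (hf : IsH (fun _ => 1) p f) :
    Ph r p (fun u => f.coeff (wo r p u)) = f := by
  classical
  apply MonoidAlgebra.ext
  apply Finsupp.ext
  intro m
  by_cases h : ∃ u, wo r p u = m
  · obtain ⟨u, rfl⟩ := h
    rw [Ph_coeff_wo]
  · rw [Ph_coeff, Finset.sum_eq_zero]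
    · by_contra hcon
      apply h
      have h1 := hf m (fun h2 => hcon h2.symm)
      have h2 : (FreeMonoid.toList m).length = p := by
        rw [← h1]
        simp [wd]
      refine ⟨fun i => (FreeMonoid.toList m).get (Fin.cast h2.symm i), ?_⟩
      subst h2
      change FreeMonoid.ofList (List.ofFn fun i => (FreeMonoid.toList m).get i) = m
      rw [List.ofFn_get]
      rfl
    · intro u _
      rw [if_neg (fun h2 => h ⟨u, h2⟩), mul_zero]

theorem Ph_supp (r p : ℕ) (v : (Fin p → Fin r) → ℝ) (m : FreeMonoid (Fin r))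
    (h : (Ph r p v).coeff m ≠ 0) : m ∈ (Finset.univ : Finset (Fin p → Fin r)).map
      ⟨wo r p, wo_inj r p⟩ := by
  classical
  by_contra hcon
  apply h
  rw [Ph_coeff]
  apply Finset.sum_eq_zero
  intro u _
  rw [if_neg, mul_zero]
  intro h2
  apply hcon
  rw [Finset.mem_map]
  exact ⟨u, Finset.mem_univ u, h2⟩

theorem Ph_ip (r p : ℕ) (v w : (Fin p → Fin r) → ℝ) :
    ip (Ph r p v) (Ph r p w) = ∑ u, v u * w u := by
  rw [ip_eq _ _ _ (Ph_supp r p v), Finset.sum_map]
  apply Finset.sum_congr rfl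
  intro u _
  change (Ph r p v).coeff (wo r p u) * (Ph r p w).coeff (wo r p u) = _
  rw [Ph_coeff_wo, Ph_coeff_wo]

theorem br_smul_smul {ι : Type} (c d : ℝ) (a b : T ι) : br (c • a) (d • b) = (c * d) • br a b := by
  unfold br
  rw [smul_mul_smul_comm, smul_mul_smul_comm, mul_comm d c, smul_sub]

theorem br_sum (r p : ℕ) (v w : (Fin p → Fin r) → ℝ) :
    br (Ph r p v) (Ph r p w) = ∑ u, ∑ u', (v u * w u') •
      br (MonoidAlgebra.single (wo r p u) 1 : T (Fin r)) (MonoidAlgebra.single (wo r p u') 1) := by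
  have h1 : ∀ u u' : Fin p → Fin r, (v u * w u') •
      br (MonoidAlgebra.single (wo r p u) 1 : T (Fin r)) (MonoidAlgebra.single (wo r p u') 1) =
      (v u • MonoidAlgebra.single (wo r p u) 1 : T (Fin r)) * (w u' • MonoidAlgebra.single (wo r p u') 1) -
      (w u' • MonoidAlgebra.single (wo r p u') 1 : T (Fin r)) * (v u • MonoidAlgebra.single (wo r p u) 1) := by
    intro u u'
    rw [← br_smul_smul]
    rfl
  simp_rw [h1, Finset.sum_sub_distrib]
  rw [← Finset.sum_mul_sum, Finset.sum_comm (f := fun u u' =>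
    (w u' • MonoidAlgebra.single (wo r p u') 1 : T (Fin r)) * (v u • MonoidAlgebra.single (wo r p u) 1)),
    ← Finset.sum_mul_sum]
  rfl

theorem cont_nm (r p : ℕ) : Continuous fun x : ((Fin p → Fin r) → ℝ) × ((Fin p → Fin r) → ℝ) =>
    nm (br (Ph r p x.1) (Ph r p x.2)) := by
  classical
  let B : (Fin p → Fin r) → (Fin p → Fin r) → T (Fin r) := fun u u' =>
    br (MonoidAlgebra.single (wo r p u) 1 : T (Fin r)) (MonoidAlgebra.single (wo r p u') 1)
  let S : Finset (FreeMonoid (Fin r)) :=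
    Finset.univ.biUnion fun u => Finset.univ.biUnion fun u' => (B u u').coeff.support
  have hc : ∀ (x : ((Fin p → Fin r) → ℝ) × ((Fin p → Fin r) → ℝ)) (m : FreeMonoid (Fin r)),
      (br (Ph r p x.1) (Ph r p x.2)).coeff m = ∑ u, ∑ u', x.1 u * x.2 u' * (B u u').coeff m := by
    intro x m
    rw [br_sum, MonoidAlgebra.coeff_sum, Finsupp.finsetSum_apply]
    apply Finset.sum_congr rfl
    intro u _
    rw [MonoidAlgebra.coeff_sum, Finsupp.finsetSum_apply]
    apply Finset.sum_congr rfl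
    intro u' _
    rw [MonoidAlgebra.coeff_smul_apply, smul_eq_mul]
  have hS : ∀ (x : ((Fin p → Fin r) → ℝ) × ((Fin p → Fin r) → ℝ)) (m : FreeMonoid (Fin r)),
      (br (Ph r p x.1) (Ph r p x.2)).coeff m ≠ 0 → m ∈ S := by
    intro x m h
    by_contra hcon
    apply h
    rw [hc]
    apply Finset.sum_eq_zero
    intro u _
    apply Finset.sum_eq_zero
    intro u' _
    have h2 : (B u u').coeff m = 0 := by
      by_contra h3
      apply hcon
      simp only [S, Finset.mem_biUnion, Finset.mem_univ, true_and]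
      exact ⟨u, u', Finsupp.mem_support_iff.2 h3⟩
    rw [h2, mul_zero]
  have heq : (fun x : ((Fin p → Fin r) → ℝ) × ((Fin p → Fin r) → ℝ) =>
      nm (br (Ph r p x.1) (Ph r p x.2))) =
      fun x => ∑ m ∈ S, |∑ u, ∑ u', x.1 u * x.2 u' * (B u u').coeff m| := by
    funext x
    rw [nm_eq S _ (hS x)]
    apply Finset.sum_congr rfl
    intro m _
    rw [hc]
  rw [heq]
  fun_prop

/-- the primitive elements -/
noncomputable def V (r p : ℕ) : Submodule ℝ ((Fin p → Fin r) → ℝ) :=
  LinearMap.ker (((cop (Fin r)).toLinearMap - (lft (Fin r)).toLinearMap -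
    (rgt (Fin r)).toLinearMap) ∘ₗ Ph r p)

theorem mem_V (r p : ℕ) (v : (Fin p → Fin r) → ℝ) : v ∈ V r p ↔ Prim (Ph r p v) := by
  unfold V Prim
  rw [LinearMap.mem_ker]
  simp only [LinearMap.comp_apply, LinearMap.sub_apply, AlgHom.toLinearMap_apply]
  rw [sub_sub, sub_eq_zero]

theorem Ph_IsH (r p : ℕ) (v : (Fin p → Fin r) → ℝ) : IsH (fun _ => 1) p (Ph r p v) := by
  intro m hm
  have h := Ph_supp r p v m hm
  rw [Finset.mem_map] at h
  obtain ⟨u, _, rfl⟩ := h
  simp [wd, wo, List.sum_ofFn]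

end TCOMPE

open TCOMPE in
theorem t_COMPE (h1 : S_P1) (h2 : S_NM) : S_COMPE := by
  intro r p hp
  let g : ((Fin p → Fin r) → ℝ) → ((Fin p → Fin r) → ℝ) → ℝ := fun v w => ∑ u, v u * w u
  let F : ((Fin p → Fin r) → ℝ) × ((Fin p → Fin r) → ℝ) → ℝ := fun x =>
    nm (br (Ph r p x.1) (Ph r p x.2))
  have hFc : Continuous F := cont_nm r p
  let K : Set (((Fin p → Fin r) → ℝ) × ((Fin p → Fin r) → ℝ)) :=
    {x | (x.1 ∈ V r p ∧ x.2 ∈ V r p) ∧ g x.1 x.1 = 1 ∧ g x.2 x.2 = 1 ∧ g x.1 x.2 = 0}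
  have hgle : ∀ v : (Fin p → Fin r) → ℝ, g v v = 1 → ‖v‖ ≤ 1 := by
    intro v hv
    rw [pi_norm_le_iff_of_nonneg zero_le_one]
    intro u
    have h3 : v u * v u ≤ g v v :=
      Finset.single_le_sum (f := fun u => v u * v u) (fun i _ => mul_self_nonneg _)
        (Finset.mem_univ u)
    rw [hv] at h3
    rw [Real.norm_eq_abs]
    exact abs_le_one_iff_mul_self_le_one.2 h3
  have hKc : IsCompact K := by
    apply IsCompact.of_isClosed_subset
      (isCompact_closedBall (0 : ((Fin p → Fin r) → ℝ) × ((Fin p → Fin r) → ℝ)) 1)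
    · have e1 : IsClosed {x : ((Fin p → Fin r) → ℝ) × ((Fin p → Fin r) → ℝ) | x.1 ∈ V r p} :=
        (Submodule.closed_of_finiteDimensional (V r p)).preimage continuous_fst
      have e2 : IsClosed {x : ((Fin p → Fin r) → ℝ) × ((Fin p → Fin r) → ℝ) | x.2 ∈ V r p} :=
        (Submodule.closed_of_finiteDimensional (V r p)).preimage continuous_snd
      have e3 : IsClosed {x : ((Fin p → Fin r) → ℝ) × ((Fin p → Fin r) → ℝ) | g x.1 x.1 = 1} :=
        isClosed_eq (by fun_prop) continuous_const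
      have e4 : IsClosed {x : ((Fin p → Fin r) → ℝ) × ((Fin p → Fin r) → ℝ) | g x.2 x.2 = 1} :=
        isClosed_eq (by fun_prop) continuous_const
      have e5 : IsClosed {x : ((Fin p → Fin r) → ℝ) × ((Fin p → Fin r) → ℝ) | g x.1 x.2 = 0} :=
        isClosed_eq (by fun_prop) continuous_const
      exact (e1.inter e2).inter (e3.inter (e4.inter e5))
    · rintro x ⟨_, h3, h4, _⟩
      rw [mem_closedBall_zero_iff, Prod.norm_def]
      exact max_le (hgle _ h3) (hgle _ h4)
  have hnm0 : ∀ f : T (Fin r), 0 ≤ nm f := fun f => (h2 (Fin r) f f 0).2.2.2.1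
  have hnm1 : ∀ f : T (Fin r), nm f = 0 → f = 0 := fun f => (h2 (Fin r) f f 0).2.2.2.2.1
  have hnms : ∀ (c : ℝ) (f : T (Fin r)), nm (c • f) = |c| * nm f :=
    fun c f => (h2 (Fin r) f f c).2.2.1
  have hne : ∀ v : (Fin p → Fin r) → ℝ, g v v = 1 → Ph r p v ≠ 0 := by
    intro v hv h3
    have h4 : ip (Ph r p v) (Ph r p v) = 1 := by rw [Ph_ip]; exact hv
    rw [h3] at h4
    simp [ip] at h4
  have hKpos : ∀ x ∈ K, 0 < F x := by
    rintro ⟨v, w⟩ ⟨⟨hv, hw⟩, h3, h4, h5⟩
    rcases eq_or_lt_of_le (hnm0 (br (Ph r p v) (Ph r p w))) with h6 | h6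
    · exfalso
      have h7 := hnm1 _ h6.symm
      obtain ⟨_, c, hc⟩ := h1 (Fin r) p p (Ph r p v) (Ph r p w) hp hp
        ⟨Ph_IsH r p v, (mem_V r p v).1 hv⟩ ⟨Ph_IsH r p w, (mem_V r p w).1 hw⟩
        (hne v h3) (hne w h4) h7
      have h8 : ∀ u, w u = c * v u := by
        intro u
        rw [← Ph_coeff_wo r p w u, hc, MonoidAlgebra.coeff_smul_apply, smul_eq_mul, Ph_coeff_wo]
      have h9 : g v w = c * g v v := by
        change ∑ u, v u * w u = c * ∑ u, v u * v u
        rw [Finset.mul_sum]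
        apply Finset.sum_congr rfl
        intro u _
        rw [h8]
        ring
      have h10 : c = 0 := by
        have h11 : g v w = 0 := h5
        have h12 : g v v = 1 := h3
        rw [h9, h12, mul_one] at h11
        exact h11
      apply hne w h4
      rw [hc, h10, zero_smul]
    · exact h6
  obtain ⟨c1, hc1, hc1K⟩ : ∃ c1 : ℝ, 0 < c1 ∧ ∀ x ∈ K, c1 ≤ F x := by
    rcases K.eq_empty_or_nonempty with h3 | h3
    · exact ⟨1, one_pos, fun x hx => by rw [h3] at hx; exact absurd hx (Set.notMem_empty x)⟩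
    · obtain ⟨x, hx, hmin⟩ := hKc.exists_isMinOn h3 hFc.continuousOn
      exact ⟨F x, hKpos x hx, fun y hy => hmin hy⟩
  refine ⟨c1 ^ 2, by positivity, ?_⟩
  intro a b ha hb
  set v : (Fin p → Fin r) → ℝ := fun u => a.coeff (wo r p u) with hv
  set w : (Fin p → Fin r) → ℝ := fun u => b.coeff (wo r p u) with hw
  have hav : Ph r p v = a := Ph_surj r p a ha.1
  have hbw : Ph r p w = b := Ph_surj r p b hb.1
  have hvV : v ∈ V r p := by rw [mem_V, hav]; exact ha.2
  have hwV : w ∈ V r p := by rw [mem_V, hbw]; exact hb.2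
  rw [← hav, ← hbw, Ph_ip, Ph_ip, Ph_ip]
  change c1 ^ 2 * (g v v * g w w - g v w ^ 2) ≤ F (v, w) ^ 2
  have hg0 : ∀ z : (Fin p → Fin r) → ℝ, 0 ≤ g z z :=
    fun z => Finset.sum_nonneg fun u _ => mul_self_nonneg _
  have hgz : ∀ z : (Fin p → Fin r) → ℝ, g z z = 0 → z = 0 := by
    intro z hz
    funext u
    have h3 := (Finset.sum_eq_zero_iff_of_nonneg (fun u _ => mul_self_nonneg (z u))).1 hz u
      (Finset.mem_univ u)
    exact mul_self_eq_zero.1 h3
  rcases eq_or_lt_of_le (hg0 v) with h3 | h3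
  · have h4 := hgz v h3.symm
    have h5 : g v w = 0 := by
      change ∑ u, v u * w u = 0
      apply Finset.sum_eq_zero
      intro u _
      rw [h4]
      simp
    rw [← h3, h5]
    simp only [zero_mul, ne_eq, OfNat.ofNat_ne_zero, not_false_eq_true, zero_pow, sub_zero,
      mul_zero]
    positivity
  · set t := g v w / g v v with ht
    set w' : (Fin p → Fin r) → ℝ := w - t • v with hw'
    have hw'V : w' ∈ V r p := (V r p).sub_mem hwV ((V r p).smul_mem t hvV)
    have e1 : g w' w' = g w w - g v w ^ 2 / g v v := by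
      have f1 : g w' w' = g w w - 2 * t * g v w + t ^ 2 * g v v := by
        change ∑ u, (w u - t * v u) * (w u - t * v u) = ∑ u, w u * w u -
          2 * t * ∑ u, v u * w u + t ^ 2 * ∑ u, v u * v u
        rw [Finset.mul_sum, Finset.mul_sum, ← Finset.sum_sub_distrib, ← Finset.sum_add_distrib]
        apply Finset.sum_congr rfl
        intro u _
        ring
      rw [f1, ht]
      field_simp
      ring
    have e2 : g v w' = 0 := by
      have f1 : g v w' = g v w - t * g v v := by
        change ∑ u, v u * (w u - t * v u) = ∑ u, v u * w u - t * ∑ u, v u * v u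
        rw [Finset.mul_sum, ← Finset.sum_sub_distrib]
        apply Finset.sum_congr rfl
        intro u _
        ring
      rw [f1, ht]
      field_simp
      ring
    have e3 : F (v, w) = F (v, w') := by
      change nm (br (Ph r p v) (Ph r p w)) = nm (br (Ph r p v) (Ph r p w'))
      congr 1
      rw [hw', map_sub, map_smul]
      unfold br
      rw [mul_sub, sub_mul, mul_smul_comm, smul_mul_assoc]
      abel
    have e4 : g v v * g w w - g v w ^ 2 = g v v * g w' w' := by
      rw [e1]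
      field_simp
    rw [e3, e4]
    rcases eq_or_lt_of_le (hg0 w') with h4 | h4
    · rw [← h4, mul_zero, mul_zero]
      positivity
    · set α := Real.sqrt (g v v) with hα
      set β := Real.sqrt (g w' w') with hβ
      have hα0 : 0 < α := Real.sqrt_pos.2 h3
      have hβ0 : 0 < β := Real.sqrt_pos.2 h4
      have hα2 : α ^ 2 = g v v := Real.sq_sqrt (hg0 v)
      have hβ2 : β ^ 2 = g w' w' := Real.sq_sqrt (hg0 w')
      have hgs : ∀ (c d : ℝ) (x y : (Fin p → Fin r) → ℝ), g (c • x) (d • y) = c * d * g x y := by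
        intro c d x y
        change ∑ u, (c * x u) * (d * y u) = c * d * ∑ u, x u * y u
        rw [Finset.mul_sum]
        apply Finset.sum_congr rfl
        intro u _
        ring
      have hK : ((α⁻¹ • v, β⁻¹ • w') : ((Fin p → Fin r) → ℝ) × ((Fin p → Fin r) → ℝ)) ∈ K := by
        refine ⟨⟨(V r p).smul_mem _ hvV, (V r p).smul_mem _ hw'V⟩, ?_, ?_, ?_⟩
        · change g (α⁻¹ • v) (α⁻¹ • v) = 1
          rw [hgs, ← hα2]
          field_simp
        · change g (β⁻¹ • w') (β⁻¹ • w') = 1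
          rw [hgs, ← hβ2]
          field_simp
        · change g (α⁻¹ • v) (β⁻¹ • w') = 0
          rw [hgs, e2, mul_zero]
      have h5 := hc1K _ hK
      have h6 : F (v, w') = α * β * F (α⁻¹ • v, β⁻¹ • w') := by
        change nm (br (Ph r p v) (Ph r p w')) = α * β * nm (br (Ph r p (α⁻¹ • v)) (Ph r p (β⁻¹ • w')))
        rw [map_smul, map_smul, br_smul_smul, hnms, abs_of_pos (by positivity)]
        field_simp
      have h7 : c1 * (α * β) ≤ F (v, w') := by
        rw [h6]
        nlinarith [mul_pos hα0 hβ0]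
      calc c1 ^ 2 * (g v v * g w' w') = (c1 * (α * β)) ^ 2 := by rw [← hα2, ← hβ2]; ring
        _ ≤ F (v, w') ^ 2 := pow_le_pow_left₀ (by positivity) h7 2

end Pool.Agent.H32CE
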