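import Mathlib
import Pool.Agent.H32CE.St

set_option autoImplicit false

namespace Pool.Agent.H32CE

namespace TDEC

/-- bounded search -/
theorem bex {α : Type} [Primcodable α] (Q : α → ℕ → Prop)
    (hQ : ComputablePred fun p : α × ℕ => Q p.1 p.2) (b : α → ℕ) (hb : Computable b) :
    ComputablePred fun a => ∃ n, n < b a ∧ Q a n := by
  classical
  have h1 : Computable fun p : α × ℕ => decide (Q p.1 p.2) := hQ.decide
  have h2 : Computable fun a : α => Nat.rec (motive := fun _ => Bool) false
      (fun y IH => (IH || decide (Q a y))) (b a) := by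
    have h3 : Computable₂ fun (a : α) (p : ℕ × Bool) => (p.2 || decide (Q a p.1)) := by
      refine Primrec.or.to_comp.comp (Computable.snd.comp Computable.snd) ?_
      exact h1.comp (Computable.pair Computable.fst (Computable.fst.comp Computable.snd))
    exact Computable.nat_rec hb (Computable.const false) h3
  have h4 : ∀ (a : α) (k : ℕ), (Nat.rec (motive := fun _ => Bool) false
      (fun y IH => (IH || decide (Q a y))) k : Bool) = decide (∃ n, n < k ∧ Q a n) := by
    intro a k
    induction k with
    | zero => simp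
    | succ k ih =>
      change (_ || decide (Q a k)) = _
      rw [ih, ← Bool.decide_or]
      congr 1
      apply propext
      constructor
      · rintro (⟨n, hn, h⟩ | h)
        · exact ⟨n, by omega, h⟩
        · exact ⟨k, by omega, h⟩
      · rintro ⟨n, hn, h⟩
        by_cases hk : n = k
        · subst hk
          exact Or.inr h
        · exact Or.inl ⟨n, by omega, h⟩
  refine ⟨inferInstance, h2.of_eq ?_⟩
  intro a
  exact h4 a (b a)

theorem comp_pred {α β : Type} [Primcodable α] [Primcodable β] (p : β → Prop)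
    (hp : ComputablePred p) (f : α → β) (hf : Computable f) :
    ComputablePred fun a => p (f a) := by
  classical
  exact ⟨inferInstance, hp.decide.comp hf⟩

/-- bound for the code of a list of length at most `B` -/
def Nb (K : ℕ) : ℕ → ℕ := Nat.rec 0 (fun _ IH => Nat.succ (Nat.pair K IH))

theorem Nb_prim (K : ℕ) : Primrec (Nb K) := by
  unfold Nb
  refine Primrec.nat_rec₁ 0 ?_
  exact Primrec.succ.comp (Primrec₂.natPair.comp (Primrec.const K) Primrec.snd)

theorem pair_mono {a b c d : ℕ} (h1 : a ≤ c) (h2 : b ≤ d) : Nat.pair a b ≤ Nat.pair c d := by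
  rcases h1.lt_or_eq with h1 | rfl
  · rcases h2.lt_or_eq with h2 | rfl
    · exact ((Nat.pair_lt_pair_left b h1).trans (Nat.pair_lt_pair_right c h2)).le
    · exact (Nat.pair_lt_pair_left b h1).le
  · rcases h2.lt_or_eq with h2 | rfl
    · exact (Nat.pair_lt_pair_right a h2).le
    · exact le_rfl

theorem encode_le {β : Type} [Encodable β] (K : ℕ) (hK : ∀ a : β, Encodable.encode a ≤ K)
    (B : ℕ) : ∀ L : List β, L.length ≤ B → Encodable.encode L ≤ Nb K B := by
  induction B with
  | zero =>
    intro L hL
    have : L = [] := List.length_eq_zero_iff.1 (by omega)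
    subst this
    simp
  | succ B ih =>
    intro L hL
    cases L with
    | nil => simp
    | cons a l =>
      rw [Encodable.encode_list_cons]
      change _ ≤ Nat.succ (Nat.pair K (Nb K B))
      exact Nat.succ_le_succ (pair_mono (hK a) (ih l (by simpa using hL)))

theorem invRev_prim {r : ℕ} : Primrec (FreeGroup.invRev : List (Fin r × Bool) → _) := by
  unfold FreeGroup.invRev
  refine Primrec.list_reverse.comp (Primrec.list_map Primrec.id ?_)
  exact Primrec.pair (Primrec.fst.comp Primrec.snd)
    (Primrec.not.comp (Primrec.snd.comp Primrec.snd))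

/-- decoding of a pair of words -/
def dec (r : ℕ) (n : ℕ) : List (Fin r × Bool) × List (Fin r × Bool) :=
  (Encodable.decode (α := List (Fin r × Bool) × List (Fin r × Bool)) n).getD ([], [])

theorem dec_prim (r : ℕ) : Primrec (dec r) :=
  Primrec.option_getD.comp Primrec.decode (Primrec.const _)

theorem dec_encode {r : ℕ} (p : List (Fin r × Bool) × List (Fin r × Bool)) :
    dec r (Encodable.encode p) = p := by
  simp [dec]

/-- the word to be tested -/
def wrd {r : ℕ} (L L1 L2 : List (Fin r × Bool)) : List (Fin r × Bool) :=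
  FreeGroup.invRev L ++ (((FreeGroup.invRev L1 ++ FreeGroup.invRev L2) ++ L1) ++ L2)

theorem mk_wrd {r : ℕ} (L L1 L2 : List (Fin r × Bool)) : FreeGroup.mk (wrd L L1 L2) =
    (FreeGroup.mk L)⁻¹ * cm (FreeGroup.mk L1) (FreeGroup.mk L2) := by
  unfold wrd cm
  rw [← FreeGroup.mul_mk, ← FreeGroup.mul_mk, ← FreeGroup.mul_mk, ← FreeGroup.mul_mk,
    ← FreeGroup.inv_mk, ← FreeGroup.inv_mk, ← FreeGroup.inv_mk]

theorem wrd_prim (r : ℕ) : Primrec fun p : List (Fin r × Bool) × ℕ =>
    wrd p.1 (dec r p.2).1 (dec r p.2).2 := by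
  have h1 : Primrec fun p : List (Fin r × Bool) × ℕ => (dec r p.2).1 :=
    Primrec.fst.comp ((dec_prim r).comp Primrec.snd)
  have h2 : Primrec fun p : List (Fin r × Bool) × ℕ => (dec r p.2).2 :=
    Primrec.snd.comp ((dec_prim r).comp Primrec.snd)
  unfold wrd
  refine Primrec.list_append.comp (invRev_prim.comp Primrec.fst) ?_
  refine Primrec.list_append.comp (Primrec.list_append.comp ?_ h1) h2
  exact Primrec.list_append.comp (invRev_prim.comp h1) (invRev_prim.comp h2)

theorem pow_prim (E : ℕ) : Primrec fun n : ℕ => n ^ E := by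
  induction E with
  | zero => exact (Primrec.const 1).of_eq fun n => by simp
  | succ e ih =>
    exact (Primrec.nat_mul.comp ih Primrec.id).of_eq fun n => by simp [pow_succ]

end TDEC

open TDEC in
theorem t_DEC (h1 : S_BD) (h2 : S_WP) : S_DEC := by
  intro r c
  obtain ⟨C, E, hCE⟩ := h1 r c
  obtain ⟨K, hK⟩ : ∃ K : ℕ, ∀ a : Fin r × Bool, Encodable.encode a ≤ K :=
    ⟨Finset.univ.sup fun a : Fin r × Bool => Encodable.encode a, fun a =>
      Finset.le_sup (f := fun a : Fin r × Bool => Encodable.encode a) (Finset.mem_univ a)⟩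
  -- the bound
  let bd : List (Fin r × Bool) → ℕ := fun L => C * (L.length + 1) ^ E
  have hpow : Primrec fun n : ℕ => n ^ E := pow_prim E
  have hbd : Primrec bd := by
    refine Primrec.nat_mul.comp (Primrec.const C) ?_
    exact hpow.comp (Primrec.succ.comp Primrec.list_length)
  let b : List (Fin r × Bool) → ℕ := fun L => Nat.succ (Nat.pair (Nb K (bd L)) (Nb K (bd L)))
  have hb : Primrec b :=
    Primrec.succ.comp (Primrec₂.natPair.comp ((Nb_prim K).comp hbd) ((Nb_prim K).comp hbd))
  have hQ := comp_pred _ (h2 r c) _ (wrd_prim r).to_comp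
  have h3 := bex (fun (L : List (Fin r × Bool)) (n : ℕ) =>
    D (c + 1) (FreeGroup.mk (wrd L (dec r n).1 (dec r n).2))) hQ b hb.to_comp
  refine h3.of_eq ?_
  intro L
  constructor
  · rintro ⟨n, _, h⟩
    rw [mk_wrd] at h
    exact ⟨_, _, h⟩
  · intro h
    obtain ⟨x, y, hxy, hx, hy⟩ := hCE _ h
    have hlen : len (FreeGroup.mk L) ≤ L.length := FreeGroup.norm_mk_le
    have hle : C * (len (FreeGroup.mk L) + 1) ^ E ≤ bd L :=
      Nat.mul_le_mul_left _ (Nat.pow_le_pow_left (by omega) _)
    refine ⟨Encodable.encode (x.toWord, y.toWord), ?_, ?_⟩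
    · rw [Encodable.encode_prod_val]
      exact Nat.lt_succ_of_le (pair_mono (encode_le K hK _ _ (hx.trans hle))
        (encode_le K hK _ _ (hy.trans hle)))
    · rw [dec_encode, mk_wrd, FreeGroup.mk_toWord, FreeGroup.mk_toWord]
      exact hxy

end Pool.Agent.H32CE
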