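import Mathlib
import Pool.Agent.H32CE.St

set_option autoImplicit false

namespace Pool.Agent.H32CE

open PowerSeries

namespace TDIF

section
variable {A : Type} [Ring A]

theorem ordge_mul {k l : ℕ} {f g : PS A} (hf : ordge k f) (hg : ordge l g) :
    ordge (k + l) (f * g) := by
  intro i hi
  rw [PowerSeries.coeff_mul]
  apply Finset.sum_eq_zero
  rintro ⟨a, b⟩ hab
  simp only [Finset.HasAntidiagonal.mem_antidiagonal] at hab
  by_cases ha : a < k
  · simp [hf a ha]
  · have hb : b < l := by omega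
    simp [hg b hb]

theorem coeff_mul_lead {k l : ℕ} {f g : PS A} (hf : ordge k f) (hg : ordge l g) :
    PowerSeries.coeff (k + l) (f * g) = PowerSeries.coeff k f * PowerSeries.coeff l g := by
  rw [PowerSeries.coeff_mul]
  rw [Finset.sum_eq_single (k, l)]
  · rintro ⟨a, b⟩ hab hne
    simp only [Finset.HasAntidiagonal.mem_antidiagonal] at hab
    by_cases ha : a < k
    · simp [hf a ha]
    · have hb : b < l := by
        by_contra hb
        apply hne
        have h1 : a = k := by omega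
        have h2 : b = l := by omega
        rw [h1, h2]
      simp [hg b hb]
  · intro h
    simp [Finset.HasAntidiagonal.mem_antidiagonal] at h

theorem ordge_zero (f : PS A) : ordge 0 f := by
  intro i hi; omega

theorem ordge_sub {k : ℕ} {f g : PS A} (hf : ordge k f) (hg : ordge k g) : ordge k (f - g) := by
  intro i hi
  rw [map_sub, hf i hi, hg i hi, sub_zero]

end

theorem D_mono {ι : Type} {k l : ℕ} {x : FreeGroup ι} (h : D k x) (hl : l ≤ k) : D l x :=
  fun i h1 h2 => h i h1 (by omega)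

/-- conjugation -/
noncomputable def cj {ι : Type} (g : FreeGroup ι) (δ : PS (T ι)) : PS (T ι) :=
  mag g⁻¹ * δ * mag g

theorem cj_lemma {ι : Type} (hb : S_BAS) (h w : FreeGroup ι) (δ : PS (T ι)) (s ρ : ℕ)
    (hρ : 1 ≤ ρ) (hw : D ρ w) (hδ : ordge s δ) :
    ordge (s + ρ) (cj (h * w) δ - cj h δ) ∧
    PowerSeries.coeff (s + ρ) (cj (h * w) δ - cj h δ) =
      br (PowerSeries.coeff s δ) (cf ρ w) := by
  obtain ⟨b0, bm, -⟩ := hb ι
  have hmag1 : mag (1 : FreeGroup ι) = 1 := by
    simp [mag]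
  have hinv : mag w⁻¹ * mag w = 1 := by
    rw [← bm, inv_mul_cancel, hmag1]
  have hR : ordge ρ (mag w - 1) := by
    intro i hi
    by_cases h0 : i = 0
    · subst h0
      rw [map_sub, b0]; simp
    · rw [map_sub, PowerSeries.coeff_one, if_neg h0, sub_zero]
      exact hw i (by omega) hi
  have hRc : PowerSeries.coeff ρ (mag w - 1) = cf ρ w := by
    rw [map_sub, PowerSeries.coeff_one, if_neg (by omega), sub_zero]; rfl
  have hη : ordge s (cj h δ) := by
    have h1 : ordge (0 + s + 0) (mag h⁻¹ * δ * mag h) :=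
      ordge_mul (ordge_mul (ordge_zero _) hδ) (ordge_zero _)
    simpa [cj] using h1
  have hηc : PowerSeries.coeff s (cj h δ) = PowerSeries.coeff s δ := by
    have h1 := coeff_mul_lead (k := 0 + s) (l := 0) (f := mag h⁻¹ * δ) (g := mag h)
      (ordge_mul (ordge_zero _) hδ) (ordge_zero _)
    have h2 := coeff_mul_lead (k := 0) (l := s) (f := mag h⁻¹) (g := δ) (ordge_zero _) hδ
    rw [h2, b0, b0] at h1
    simpa [cj] using h1
  have key : cj (h * w) δ - cj h δ =
      mag w⁻¹ * (cj h δ * (mag w - 1) - (mag w - 1) * cj h δ) := by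
    have e1 : cj (h * w) δ = mag w⁻¹ * cj h δ * mag w := by
      simp only [cj, mul_inv_rev, bm, mul_assoc]
    rw [e1]
    have e2 : cj h δ = mag w⁻¹ * mag w * cj h δ := by rw [hinv, one_mul]
    calc mag w⁻¹ * cj h δ * mag w - cj h δ
        = mag w⁻¹ * cj h δ * mag w - mag w⁻¹ * mag w * cj h δ := by rw [hinv, one_mul]
      _ = mag w⁻¹ * (cj h δ * (mag w - 1) - (mag w - 1) * cj h δ) := by noncomm_ring
  have ho1 : ordge (s + ρ) (cj h δ * (mag w - 1)) := ordge_mul hη hR
  have ho2 : ordge (s + ρ) ((mag w - 1) * cj h δ) := by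
    rw [add_comm]; exact ordge_mul hR hη
  have ho3 := ordge_sub ho1 ho2
  rw [key]
  constructor
  · have := ordge_mul (ordge_zero (mag w⁻¹)) ho3
    rwa [zero_add] at this
  · have h3 := coeff_mul_lead (ordge_zero (mag w⁻¹)) ho3
    rw [zero_add] at h3
    rw [h3, b0, one_mul, map_sub]
    have h4 := coeff_mul_lead hη hR
    have h5 := coeff_mul_lead hR hη
    rw [add_comm] at h5
    rw [h4, h5, hηc, hRc]
    rfl

theorem w2_mem {ι : Type} (hb : S_BAS) (p q j : ℕ) (x y u v : FreeGroup ι) (hp : 1 ≤ p)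
    (hq : 1 ≤ q) (hx : D p x) (hy : D q y) (hu : D (p + j) u) (hv : D (q + j) v) :
    D (p + q + j) ((cm x y)⁻¹ * cm (x * u) (y * v)) := by
  obtain ⟨b0, bm, bmul, binv, bcj, badd, -, -, bcm, -, -⟩ := hb ι
  have e : (cm x y)⁻¹ * cm (x * u) (y * v) =
      ((cm x y)⁻¹ * cm (x * u) v * cm x y) * cm (cm x y) (u * v) * (v⁻¹ * cm u y * v) := by
    simp only [cm]; group
  rw [e]
  have hxu : D p (x * u) := bmul p x u hx (D_mono hu (by omega))
  have hc : D (p + q) (cm x y) := (bcm p q x y hp hq hx hy).1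
  have h1 : D (p + (q + j)) (cm (x * u) v) := (bcm p (q + j) _ _ hp (by omega) hxu hv).1
  have h2 : D ((p + j) + q) (cm u y) := (bcm (p + j) q _ _ (by omega) hq hu hy).1
  have huv : D (1 + j) (u * v) := bmul _ u v (D_mono hu (by omega)) (D_mono hv (by omega))
  have h3 : D ((p + q) + (1 + j)) (cm (cm x y) (u * v)) :=
    (bcm (p + q) (1 + j) _ _ (by omega) (by omega) hc huv).1
  apply bmul
  · apply bmul
    · exact bcj _ _ _ (D_mono h1 (by omega))
    · exact D_mono h3 (by omega)
  · exact bcj _ _ _ (D_mono h2 (by omega))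

end TDIF

open TDIF in
theorem t_DIF (hb : S_BAS) (_ : S_PSO) : S_DIF := by
  intro r p q j x y u v δ ε hp hq hj hx hy hu hv hδ hε i hi
  have hw2 := w2_mem hb p q j x y u v hp hq hx hy hu hv
  obtain ⟨b0, bm, bmul, binv, bcj, badd, -, bcjk, bcm, -, -⟩ := hb (Fin r)
  set w2 : FreeGroup (Fin r) := (cm x y)⁻¹ * cm (x * u) (y * v) with hw2def
  -- term 1
  obtain ⟨o1, c1⟩ := cj_lemma hb y v δ (p + j) (q + j) (by omega) hv hδ
  -- term 2
  obtain ⟨o2, c2⟩ := cj_lemma hb (cm x y) w2 δ (p + j) (p + q + j) (by omega) hw2 hδ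
  -- term 3
  set w3 : FreeGroup (Fin r) := ((cm x y)⁻¹ * u * cm x y) * w2 with hw3def
  have hcu : D (p + j) ((cm x y)⁻¹ * u * cm x y) := bcj _ _ _ hu
  have hw2' : D (p + j) w2 := D_mono hw2 (by omega)
  have hw3 : D (p + j) w3 := bmul _ _ _ hcu hw2'
  have hw3c : cf (p + j) w3 = cf (p + j) u := by
    rw [hw3def, badd (p + j) (p + j) _ _ hcu hw2' (p + j) (by omega) (by omega),
      bcjk (p + j) u _ hu (by omega), hw2 (p + j) (by omega) (by omega), add_zero]
  obtain ⟨o3, c3⟩ := cj_lemma hb (x * cm x y) w3 ε (q + j) (p + j) (by omega) hw3 hε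
  have e2 : cm x y * w2 = cm (x * u) (y * v) := by rw [hw2def]; group
  have e3 : x * cm x y * w3 = x * u * cm (x * u) (y * v) := by
    rw [hw3def, hw2def]; group
  rw [e2] at o2 c2
  rw [e3] at o3 c3
  have hPsi : ∀ x y : FreeGroup (Fin r), Psi x y δ ε =
      cj y δ - cj (cm x y) δ + ε - cj (x * cm x y) ε := fun x y => rfl
  have hdiff : Psi (x * u) (y * v) δ ε = Psi x y δ ε + ((cj (y * v) δ - cj y δ) -
      (cj (cm (x * u) (y * v)) δ - cj (cm x y) δ) -
      (cj (x * u * cm (x * u) (y * v)) ε - cj (x * cm x y) ε)) := by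
    rw [hPsi, hPsi]; abel
  rw [hdiff, map_add]
  congr 1
  rw [map_sub, map_sub, o2 i (by omega), sub_zero]
  split_ifs with h
  · subst h
    have n1 : p + q + 2 * j = (p + j) + (q + j) := by ring
    have n3 : p + q + 2 * j = (q + j) + (p + j) := by ring
    rw [← n1] at c1
    rw [← n3] at c3
    rw [c1, c3, hw3c]
    simp only [br]
    abel
  · rw [o1 i (by omega), o3 i (by omega), sub_zero]

end Pool.Agent.H32CE
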