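import Pool.Agent.H32CE.St

set_option autoImplicit false

/-!
# Task EXP: expansion of the commutator map in terms of generators
-/

namespace Pool.Agent.H32CE

open PowerSeries

namespace TEXP

/-- a homomorphism on a subgroup, evaluated at a product of powers -/
theorem hom_prod {G M : Type} [Group G] [AddCommGroup M] [Module ℝ M] (P : G → Prop)
    (h1 : P 1) (hm : ∀ x y, P x → P y → P (x * y)) (hi : ∀ x, P x → P x⁻¹) (A : G → M)
    (hA : ∀ x y, P x → P y → A (x * y) = A x + A y) :
    ∀ (n : ℕ) (e : Fin n → G) (m : Fin n → ℤ), (∀ k, P (e k)) →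
      P ((List.ofFn fun i => e i ^ m i).prod) ∧
      A ((List.ofFn fun i => e i ^ m i).prod) = ∑ k, (m k : ℝ) • A (e k) := by
  let H : Subgroup G :=
    { carrier := {x | P x}
      mul_mem' := fun {a b} ha hb => hm a b ha hb
      one_mem' := h1
      inv_mem' := fun {a} ha => hi a ha }
  let φ : H →* Multiplicative M := MonoidHom.mk' (fun x => Multiplicative.ofAdd (A x)) (by
    intro a b
    have := hA (a : G) (b : G) a.2 b.2
    show Multiplicative.ofAdd (A ((a : G) * (b : G))) = _
    rw [this]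
    rfl)
  have hpow : ∀ (x : G) (_ : P x) (m : ℤ), P (x ^ m) ∧ A (x ^ m) = (m : ℝ) • A x := by
    intro x hx m
    refine ⟨H.zpow_mem hx m, ?_⟩
    have h2 := map_zpow φ (⟨x, hx⟩ : H) m
    have h3 : Multiplicative.ofAdd (A (x ^ m)) = (Multiplicative.ofAdd (A x)) ^ m := h2
    rw [← ofAdd_zsmul] at h3
    have h4 : A (x ^ m) = m • A x := Multiplicative.ofAdd.injective h3
    rw [h4, Int.cast_smul_eq_zsmul]
  have hone : A 1 = 0 := by
    have := hA 1 1 h1 h1
    rw [mul_one] at this
    exact (add_eq_left.mp this.symm)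
  intro n
  induction n with
  | zero =>
    intro e m _
    simp [h1, hone]
  | succ n ih =>
    intro e m he
    obtain ⟨a1, a2⟩ := ih (fun k => e k.succ) (fun k => m k.succ) (fun k => he _)
    obtain ⟨b1, b2⟩ := hpow (e 0) (he 0) (m 0)
    rw [List.ofFn_succ, List.prod_cons, Fin.sum_univ_succ]
    refine ⟨hm _ _ b1 a1, ?_⟩
    rw [hA _ _ b1 a1, b2, a2]

theorem Psi_add {r : ℕ} (x y : FreeGroup (Fin r)) (δ δ' ε ε' : PS (T (Fin r))) :
    Psi x y (δ + δ') (ε + ε') = Psi x y δ ε + Psi x y δ' ε' := by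
  unfold Psi
  simp only [mul_add, add_mul]
  abel

theorem ordge_mul {A : Type} [Ring A] {a b : ℕ} {f g : PS A} (hf : ordge a f) (hg : ordge b g) :
    ordge (a + b) (f * g) ∧ coeff (a + b) (f * g) = coeff a f * coeff b g := by
  constructor
  · intro i hi
    rw [coeff_mul]
    apply Finset.sum_eq_zero
    rintro ⟨s, t⟩ hst
    simp only [Finset.HasAntidiagonal.mem_antidiagonal] at hst
    by_cases hs : s < a
    · simp [hf s hs]
    · have ht : t < b := by omega
      simp [hg t ht]
  · rw [coeff_mul, Finset.sum_eq_single (a, b)]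
    · rintro ⟨s, t⟩ hst hne
      simp only [Finset.HasAntidiagonal.mem_antidiagonal] at hst
      by_cases hs : s < a
      · simp [hf s hs]
      · by_cases ht : t < b
        · simp [hg t ht]
        · exfalso
          apply hne
          have h1 : s = a := by omega
          have h2 : t = b := by omega
          rw [h1, h2]
    · intro h
      exfalso
      apply h
      simp

theorem ordge_br {A : Type} [Ring A] {a b : ℕ} {f g : PS A} (hf : ordge a f) (hg : ordge b g) :
    ordge (a + b) (br f g) ∧ coeff (a + b) (br f g) = br (coeff a f) (coeff b g) := by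
  obtain ⟨h1, h2⟩ := ordge_mul hf hg
  obtain ⟨h3, h4⟩ := ordge_mul hg hf
  rw [add_comm b a] at h3 h4
  constructor
  · intro i hi
    unfold br
    rw [map_sub, h1 i hi, h3 i hi, sub_zero]
  · unfold br
    rw [map_sub, h2, h4]

theorem ordge_mono {A : Type} [Ring A] {a b : ℕ} {f : PS A} (h : ordge b f) (hab : a ≤ b) :
    ordge a f := fun i hi => h i (lt_of_lt_of_le hi hab)

theorem D_mono {ι : Type} {a b : ℕ} {x : FreeGroup ι} (h : D b x) (hab : a ≤ b) : D a x :=
  fun i h1 hi => h i h1 (lt_of_lt_of_le hi hab)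

theorem D_one {ι : Type} (k : ℕ) : D k (1 : FreeGroup ι) := by
  intro i h1 _
  unfold cf mag
  rw [map_one, Units.val_one, coeff_one, if_neg (by omega)]

theorem D_ordge {ι : Type} (hB : S_BAS) {k : ℕ} {x : FreeGroup ι} (h : D k x) :
    ordge k (mag x - 1) := by
  intro i hi
  rw [map_sub, coeff_one]
  by_cases h0 : i = 0
  · subst h0
    rw [(hB ι).1 x]
    simp
  · rw [if_neg h0, sub_zero]
    exact h i (by omega) hi

theorem cf_eq {ι : Type} {k : ℕ} (hk : 1 ≤ k) (x : FreeGroup ι) :
    coeff k (mag x - 1) = cf k x := by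
  rw [map_sub, coeff_one, if_neg (by omega), sub_zero]
  rfl

theorem mag_mul_sub {ι : Type} (hB : S_BAS) (u v : FreeGroup ι) :
    mag (u * v) - 1 = ((mag u - 1) + (mag v - 1)) + (mag u - 1) * (mag v - 1) := by
  rw [(hB ι).2.1 u v]
  noncomm_ring

theorem ordge_zero {A : Type} [Ring A] (k : ℕ) : ordge k (0 : PS A) := by
  intro i _
  simp

end TEXP

open TEXP

theorem t_EXP (hB : S_BAS) (hP : S_PSO) (hL : S_LIN) : S_EXP := by
  intro r p q j N n₁ n₂ x y u v e f m m' hp hq hj hN1 hN2 hx hy he hf hu hv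
  have hBr := hB (Fin r)
  obtain ⟨-, -, bmul, binv, -, badd, -⟩ := hBr
  set w := (List.ofFn fun i => e i ^ m i).prod with hw
  set w' := (List.ofFn fun i => f i ^ m' i).prod with hw'
  have ueq : u = w * (w⁻¹ * u) := by group
  have veq : v = w' * (w'⁻¹ * v) := by group
  -- additive functionals
  have key : ∀ (M : Type) [AddCommGroup M] [Module ℝ M] (k : ℕ) (A : FreeGroup (Fin r) → M),
      k ≤ N + 1 → (∀ a b, D k a → D k b → A (a * b) = A a + A b) →
      (∀ z, D (N + 1) z → A z = 0) →
      (∀ (n : ℕ) (e : Fin n → FreeGroup (Fin r)) (m : Fin n → ℤ) (u : FreeGroup (Fin r)),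
        (∀ i, D k (e i)) → D (N + 1) (((List.ofFn fun i => e i ^ m i).prod)⁻¹ * u) →
        D k u ∧ A u = ∑ i, (m i : ℝ) • A (e i)) := by
    intro M _ _ k A hk hA hz n e m u he hu
    obtain ⟨h1, h2⟩ := hom_prod (D k) (D_one k) (fun a b => bmul k a b) (fun a => binv k a) A hA
      n e m he
    have hu' : D k (((List.ofFn fun i => e i ^ m i).prod)⁻¹ * u) := D_mono hu hk
    have heq : u = (List.ofFn fun i => e i ^ m i).prod *
        (((List.ofFn fun i => e i ^ m i).prod)⁻¹ * u) := by group
    constructor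
    · rw [heq]
      exact bmul k _ _ h1 hu'
    · rw [heq, hA _ _ h1 hu', h2, hz _ hu, add_zero]
  have hpj : p + j ≤ N + 1 := by omega
  have hqj : q + j ≤ N + 1 := by omega
  -- first and second claims
  have c1 := key (T (Fin r)) (p + j) (fun a => cf (p + j) a) hpj
    (fun a b ha hb => badd _ _ a b ha hb _ (by omega) (by omega))
    (fun z hz => hz _ (by omega) (by omega)) n₁ e m u he hu
  have c2 : D (q + j) v ∧ (q + j ≤ N → cf (q + j) v = ∑ k, (m' k : ℝ) • cf (q + j) (f k)) := by
    have := key (T (Fin r)) (q + j) (fun a => cf (q + j) a) hqj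
      (fun a b ha hb => badd _ _ a b ha hb _ (by omega) (by omega))
      (fun z hz => hz _ (by omega) (by omega)) n₂ f m' v hf hv
    exact ⟨this.1, fun _ => this.2⟩
  refine ⟨c1.2, c2.2, ?_⟩
  intro i hi1 hiN
  -- the two linear parts
  have c3 := key (T (Fin r)) (p + j) (fun a => coeff i (Psi x y (mag a - 1) 0)) hpj (by
    intro a b ha hb
    have e1 : Psi x y (mag (a * b) - 1) 0 = Psi x y (mag a - 1) 0 + Psi x y (mag b - 1) 0 +
        Psi x y ((mag a - 1) * (mag b - 1)) 0 := by
      rw [mag_mul_sub hB, ← Psi_add, ← Psi_add, add_zero, add_zero]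
    have o1 : ordge (p + (p + 2 * j)) ((mag a - 1) * (mag b - 1)) :=
      ordge_mono (ordge_mul (D_ordge hB ha) (D_ordge hB hb)).1 (by omega)
    have o2 := (hP r p q (p + 2 * j) x y _ 0 hp hq hx hy o1 (ordge_zero _)).1 i (by omega)
    show coeff i (Psi x y (mag (a * b) - 1) 0) = _
    rw [e1, map_add, map_add, o2, add_zero]) (by
    intro z hz
    have o1 : ordge (p + (N + 1 - p)) (mag z - 1) := by
      have : p + (N + 1 - p) = N + 1 := by omega
      rw [this]
      exact D_ordge hB hz
    exact (hP r p q (N + 1 - p) x y _ 0 hp hq hx hy o1 (ordge_zero _)).1 i (by omega))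
    n₁ e m u he hu
  have c4 := key (T (Fin r)) (q + j) (fun a => coeff i (Psi x y 0 (mag a - 1))) hqj (by
    intro a b ha hb
    have e1 : Psi x y 0 (mag (a * b) - 1) = Psi x y 0 (mag a - 1) + Psi x y 0 (mag b - 1) +
        Psi x y 0 ((mag a - 1) * (mag b - 1)) := by
      rw [mag_mul_sub hB, ← Psi_add, ← Psi_add, add_zero, add_zero]
    have o1 : ordge (q + (q + 2 * j)) ((mag a - 1) * (mag b - 1)) :=
      ordge_mono (ordge_mul (D_ordge hB ha) (D_ordge hB hb)).1 (by omega)
    have o2 := (hP r p q (q + 2 * j) x y 0 _ hp hq hx hy (ordge_zero _) o1).1 i (by omega)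
    show coeff i (Psi x y 0 (mag (a * b) - 1)) = _
    rw [e1, map_add, map_add, o2, add_zero]) (by
    intro z hz
    have o1 : ordge (q + (N + 1 - q)) (mag z - 1) := by
      have : q + (N + 1 - q) = N + 1 := by omega
      rw [this]
      exact D_ordge hB hz
    exact (hP r p q (N + 1 - q) x y 0 _ hp hq hx hy (ordge_zero _) o1).1 i (by omega))
    n₂ f m' v hf hv
  have hDu := c1.1
  have hDv := c2.1
  rw [(hL r p q j x y u v hp hq hj hx hy hDu hDv).2 i hi1 (by omega)]
  have e2 : Psi x y (mag u - 1) (mag v - 1) = Psi x y (mag u - 1) 0 + Psi x y 0 (mag v - 1) := by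
    rw [← Psi_add, add_zero, zero_add]
  rw [e2, map_add, map_add]
  have e3 : coeff i (Psi x y (mag u - 1) 0) =
      ∑ k, (m k : ℝ) • coeff i (Psi x y (mag (e k) - 1) 0) := c3.2
  have e4 : coeff i (Psi x y 0 (mag v - 1)) =
      ∑ k, (m' k : ℝ) • coeff i (Psi x y 0 (mag (f k) - 1)) := c4.2
  rw [e3, e4]
  congr 1
  obtain ⟨b1, b2⟩ := ordge_br (D_ordge hB hDu) (D_ordge hB hDv)
  rw [cf_eq (by omega), cf_eq (by omega)] at b2
  by_cases hi : i = p + q + 2 * j
  · rw [if_pos hi, ← b2]
    have : i = p + j + (q + j) := by omega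
    rw [this]
  · rw [if_neg hi]
    exact b1 i (by omega)

end Pool.Agent.H32CE
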