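import Mathlib
import Pool.Agent.H32CE.AuxF278

set_option autoImplicit false

/-! # Task F0 -/

namespace Pool.Agent.H32CE

open AX278 MonoidAlgebra

namespace TF0

variable {ι : Type}

theorem coeff_mul_hom (p : ℕ) (a w : T ι) (ha : IsH (fun _ => 1) p a) (m : FreeMonoid ι)
    (hm : wd (fun _ => 1) m = p) : (a * w).coeff m = a.coeff m * w.coeff 1 := by
  classical
  rw [coeff_mul, Finsupp.sum_eq_single m]
  · rw [Finsupp.sum_eq_single 1]
    · simp
    · intro b _ hb
      rw [if_neg]
      intro h
      apply hb
      exact mul_left_cancel (h.trans (mul_one m).symm)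
    · intro _; simp
  · intro b hb hbm
    refine Finset.sum_eq_zero fun c hc => ?_
    dsimp only
    rw [if_neg]
    intro h
    apply hbm
    have h1 := ha b hb
    have h2 := congrArg (wd (fun _ => 1)) h
    rw [wd_mul, h1, hm] at h2
    have h3 : wd (fun _ => 1) c = 0 := by omega
    have h4 : c = 1 := by
      induction c using FreeMonoid.recOn with
      | one => rfl
      | of_mul i m' _ => rw [wd_mul, wd_of] at h3; omega
    rw [h4, mul_one] at h
    exact h
  · intro _
    refine Finset.sum_eq_zero fun c hc => ?_
    simp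

theorem mul_low (n : ℕ) (a w : T ι) (ha : IsH (fun _ => 1) n a) (m : FreeMonoid ι)
    (hm : wd (fun _ => 1) m < n) : (a * w).coeff m = 0 := by
  classical
  rw [coeff_mul]
  refine Finset.sum_eq_zero fun b hb => Finset.sum_eq_zero fun c hc => ?_
  dsimp only
  rw [if_neg]
  intro h
  have h1 := ha b (Finsupp.mem_support_iff.1 hb)
  have h2 := congrArg (wd (fun _ => 1)) h
  rw [wd_mul, h1] at h2
  omega

end TF0

open TF0 in
theorem t_F0 : S_F0 := by
  intro ι p m a u w hp ha ha0 hu huw
  by_cases hmp : m = p
  · subst hmp
    refine ⟨w.coeff 1, ?_⟩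
    apply MonoidAlgebra.ext
    ext x
    rw [coeff_smul, Finsupp.smul_apply, smul_eq_mul]
    by_cases hx : wd (fun _ => 1) x = m
    · rw [huw, coeff_mul_hom m a w ha.1 x hx, mul_comm]
    · have h1 : u.coeff x = 0 := by
        by_contra h; exact hx (hu.1 x h)
      have h2 : a.coeff x = 0 := by
        by_contra h; exact hx (ha.1 x h)
      rw [h1, h2, mul_zero]
  · obtain ⟨v, hv⟩ : ∃ v, a.coeff v ≠ 0 := by
      by_contra hcon
      push Not at hcon
      apply ha0
      apply MonoidAlgebra.ext
      ext x
      exact hcon x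
    have hvp : wd (fun _ => 1) v = p := ha.1 v hv
    have hdu : dd (cfn v) u = 0 := by
      rw [dd_prim _ _ hu.2, cfn_apply, cfn_apply]
      have h1 : (1 : T ι).coeff v = 0 := by
        rw [one_def, coeff_single, Finsupp.single_apply_eq_zero]
        intro h
        exfalso
        rw [h, wd_one] at hvp
        omega
      have h2 : u.coeff v = 0 := by
        by_contra h
        exact hmp ((hu.1 v h).symm.trans hvp)
      rw [h1, h2]; simp
    have hda : ∀ f : T ι, dd (cfn v) (a * f) = a * dd (cfn v) f + a.coeff v • f := by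
      intro f
      rw [dd_mul _ _ _ ha.2]
      have : (cfn v ∘ₗ LinearMap.mulLeft ℝ a) = a.coeff v • cfn 1 := by
        apply LinearMap.ext
        intro g
        rw [LinearMap.comp_apply, LinearMap.mulLeft_apply, cfn_apply, LinearMap.smul_apply,
          cfn_apply, smul_eq_mul]
        exact coeff_mul_hom p a g ha.1 v hvp
      rw [this]
      have h3 : dd (a.coeff v • cfn 1) f = a.coeff v • dd (cfn 1) f := by
        have : ∀ (c : ℝ) (ψ : T ι →ₗ[ℝ] ℝ) (F : MonoidAlgebra ℝ (FreeMonoid ι × FreeMonoid ι)),
            phi (c • ψ) F = c • phi ψ F := by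
          intro c ψ F
          induction F using MonoidAlgebra.induction_linear with
          | zero => simp
          | add x y hx hy => rw [map_add, map_add, hx, hy, smul_add]
          | single p s =>
            obtain ⟨c', d⟩ := p
            rw [phi_single, phi_single]; simp
        exact this _ _ _
      rw [h3, dd_eps]
    have hdk : ∀ (k : ℕ) (f : T ι), dd (cfn v) (a ^ (k + 1) * f) =
        a ^ (k + 1) * dd (cfn v) f + ((k + 1 : ℝ) * a.coeff v) • (a ^ k * f) := by
      intro k
      induction k with
      | zero => intro f; simp [hda]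
      | succ k ih =>
        intro f
        rw [pow_succ' a (k + 1), mul_assoc, hda, ih, mul_add, mul_smul_comm, ← mul_assoc,
          ← mul_assoc, ← pow_succ', add_assoc]
        congr 1
        rw [← pow_succ' a k, ← add_smul]
        congr 1
        push_cast
        ring
    have hind : ∀ k : ℕ, ∃ f : T ι, u = a ^ (k + 1) * f := by
      intro k
      induction k with
      | zero => exact ⟨w, by simpa using huw⟩
      | succ k ih =>
        obtain ⟨f, hf⟩ := ih
        have h1 := hdk k f
        rw [← hf, hdu] at h1
        have hk : ((k : ℝ) + 1) * a.coeff v ≠ 0 := mul_ne_zero (by positivity) hv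
        have h2 : a ^ k * (a * dd (cfn v) f + (((k : ℝ) + 1) * a.coeff v) • f) = 0 := by
          rw [mul_add, mul_smul_comm, ← mul_assoc, ← pow_succ]
          exact h1.symm
        have h3 : a * dd (cfn v) f + (((k : ℝ) + 1) * a.coeff v) • f = 0 := by
          rcases mul_eq_zero.1 h2 with h | h
          · exact absurd h (pow_ne_zero k ha0)
          · exact h
        refine ⟨-((((k : ℝ) + 1) * a.coeff v)⁻¹ • dd (cfn v) f), ?_⟩
        have h4 : f = -((((k : ℝ) + 1) * a.coeff v)⁻¹ • (a * dd (cfn v) f)) := by
          have h5 : (((k : ℝ) + 1) * a.coeff v) • f = - (a * dd (cfn v) f) :=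
            eq_neg_of_add_eq_zero_right h3
          rw [← smul_neg, ← h5, smul_smul, inv_mul_cancel₀ hk, one_smul]
        rw [pow_succ a (k + 1), mul_assoc, mul_neg, mul_smul_comm, ← h4]
        exact hf
    obtain ⟨f, hf⟩ := hind m
    refine ⟨0, ?_⟩
    rw [zero_smul]
    apply MonoidAlgebra.ext
    ext x
    rw [coeff_zero, Finsupp.zero_apply]
    by_contra hx
    have hxm := hu.1 x hx
    apply hx
    rw [hf]
    refine mul_low ((m + 1) * p) _ _ (isH_pow _ _ _ ha.1 _) x ?_
    rw [hxm]
    nlinarith

end Pool.Agent.H32CE
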