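import Mathlib
import Pool.Agent.H32CE.AuxF278

set_option autoImplicit false

/-! # Task F1 -/

namespace Pool.Agent.H32CE

open AX278 MonoidAlgebra

namespace TF1

variable {ι : Type}

theorem sub_X {κ : Type} (e : κ → T ι) (i : κ) : sub e (X i) = e i := by
  rw [sub, X, lift_single]; simp

theorem supp_mul (a b : T ι) (m : FreeMonoid ι) (h : (a * b).coeff m ≠ 0) :
    ∃ x y, a.coeff x ≠ 0 ∧ b.coeff y ≠ 0 ∧ x * y = m := by
  classical
  by_contra hcon
  push Not at hcon
  apply h
  rw [coeff_mul]
  refine Finset.sum_eq_zero fun x hx => Finset.sum_eq_zero fun y hy => ?_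
  dsimp only
  rw [if_neg]
  exact hcon x y (Finsupp.mem_support_iff.1 hx) (Finsupp.mem_support_iff.1 hy)

theorem of_mul_ne_one (i : ι) (m : FreeMonoid ι) : FreeMonoid.of i * m ≠ 1 := by
  intro h
  have := congrArg (wd (fun _ => 1)) h
  rw [wd_mul, wd_of, wd_one] at this
  omega

/-- left quotient by a letter -/
noncomputable def lq (i : ι) (U : T ι) : T ι :=
  comapDomain (fun w => FreeMonoid.of i * w) (mul_right_injective (FreeMonoid.of i)) U

theorem lq_coeff (i : ι) (U : T ι) (w : FreeMonoid ι) :
    (lq i U).coeff w = U.coeff (FreeMonoid.of i * w) := rfl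

theorem one_coeff_ne (m : FreeMonoid ι) (h : m ≠ 1) : (1 : T ι).coeff m = 0 := by
  rw [one_def, coeff_single, Finsupp.single_apply_eq_zero]
  intro h'
  exact absurd h' h

theorem decomp {k : ℕ} (U : T (Fin k)) : U = U.coeff 1 • 1 + ∑ i, X i * lq i U := by
  apply MonoidAlgebra.ext
  ext m
  rw [coeff_add, coeff_sum, Finsupp.add_apply, Finsupp.finsetSum_apply, coeff_smul,
    Finsupp.smul_apply, smul_eq_mul]
  induction m using FreeMonoid.recOn with
  | one =>
    rw [coeff_one_one, mul_one, Finset.sum_eq_zero, add_zero]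
    intro i _
    exact coeff_X_mul_one _ _
  | of_mul j m _ =>
    rw [one_coeff_ne _ (of_mul_ne_one j m), mul_zero, zero_add, Finset.sum_eq_single j]
    · rw [coeff_X_mul_of_mul, lq_coeff]
    · intro i _ hij
      exact coeff_X_mul_of_ne hij _ _
    · intro h; exact absurd (Finset.mem_univ j) h

theorem exists_bound (U : T ι) : ∃ n, ∀ m, U.coeff m ≠ 0 → wd (fun _ => 1) m < n := by
  refine ⟨U.coeff.support.sup (wd fun _ => 1) + 1, fun m hm => ?_⟩
  have := Finset.le_sup (f := wd fun _ => 1) (Finsupp.mem_support_iff.2 hm)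
  exact Nat.lt_succ_of_le this

theorem eq_zero_of_bound (U : T ι) (h : ∀ m, U.coeff m ≠ 0 → wd (fun _ => 1) m < 0) : U = 0 := by
  apply MonoidAlgebra.ext
  ext m
  by_contra hm
  exact absurd (h m hm) (Nat.not_lt_zero _)

section
variable {k : ℕ} (e : Fin k → T ι) (d : Fin k → ℕ) (hd : ∀ i, 1 ≤ d i)
  (he : ∀ i, PH (d i) (e i)) (hR : RInd e)

include hd he in
theorem coeff_e_mul_one (i : Fin k) (w : T ι) : (e i * w).coeff 1 = 0 := by
  by_contra h
  obtain ⟨x, y, hx, _, hxy⟩ := supp_mul _ _ _ h
  have h1 := (he i).1 x hx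
  have h2 := congrArg (wd (fun _ => 1)) hxy
  rw [wd_mul, wd_one] at h2
  have := hd i
  omega

include hd he hR in
theorem inj_aux : ∀ (n : ℕ) (U : T (Fin k)), (∀ m, U.coeff m ≠ 0 → wd (fun _ => 1) m < n) →
    sub e U = 0 → U = 0 := by
  intro n
  induction n with
  | zero => intro U h _; exact eq_zero_of_bound U h
  | succ n ih =>
    intro U h hU
    have h1 := decomp U
    have h2 : sub e U = U.coeff 1 • 1 + ∑ i, e i * sub e (lq i U) := by
      conv_lhs => rw [h1]
      rw [map_add, map_smul, map_one (sub e), map_sum]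
      congr 1
      refine Finset.sum_congr rfl fun i _ => ?_
      rw [map_mul, sub_X]
    have h3 : U.coeff 1 = 0 := by
      have h4 : (sub e U).coeff 1 = (U.coeff 1 • 1 + ∑ i, e i * sub e (lq i U)).coeff 1 :=
        congrArg (fun f : T ι => f.coeff 1) h2
      rw [hU, coeff_add, coeff_sum, Finsupp.add_apply, Finsupp.finsetSum_apply, coeff_smul,
        Finsupp.smul_apply, smul_eq_mul, coeff_one_one, mul_one, Finset.sum_eq_zero
        (fun i _ => coeff_e_mul_one e d hd he i _), add_zero] at h4
      exact h4.symm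
    rw [hU, h3, zero_smul, zero_add] at h2
    have h5 := hR _ h2.symm
    have h6 : ∀ i, lq i U = 0 := by
      intro i
      refine ih _ (fun m hm => ?_) (h5 i)
      rw [lq_coeff] at hm
      have := h _ hm
      rw [wd_mul, wd_of] at this
      omega
    rw [h1, h3, zero_smul, zero_add]
    exact Finset.sum_eq_zero fun i _ => by rw [h6 i, mul_zero]

include hd he hR in
theorem inj : Function.Injective (sub e) := by
  rw [injective_iff_map_eq_zero]
  intro U hU
  obtain ⟨n, hn⟩ := exists_bound U
  exact inj_aux e d hd he hR n U hn hU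

/-- coinvariant elements -/
def Co (f : T ι) : Prop := ∀ ψ : T ι →ₗ[ℝ] ℝ, (∀ w : Fin k → T ι, ψ (∑ i, e i * w i) = 0) →
  ψ 1 = 0 → dd ψ f = 0

/-- the right ideal generated by the `e i`, as the range of a linear map -/
noncomputable def L : (Fin k → T ι) →ₗ[ℝ] T ι :=
  ∑ i, (LinearMap.mulLeft ℝ (e i)) ∘ₗ LinearMap.proj i

theorem L_apply (w : Fin k → T ι) : L e w = ∑ i, e i * w i := by
  simp [L]

theorem mem_of_co (f : T ι) (hf : Co e f) : ∃ (w : Fin k → T ι) (c : ℝ),
    f = c • 1 + ∑ i, e i * w i := by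
  have hmem : f ∈ LinearMap.range (L e) ⊔ Submodule.span ℝ {(1 : T ι)} := by
    by_contra hcon
    obtain ⟨ψ, hψ, hle⟩ := Submodule.exists_le_ker_of_notMem hcon
    apply hψ
    have h1 : ∀ w : Fin k → T ι, ψ (∑ i, e i * w i) = 0 := by
      intro w
      have : L e w ∈ LinearMap.range (L e) ⊔ Submodule.span ℝ {(1 : T ι)} :=
        Submodule.mem_sup_left ⟨w, rfl⟩
      have := hle this
      rw [L_apply] at this
      exact this
    have h2 : ψ 1 = 0 := by
      have : (1 : T ι) ∈ LinearMap.range (L e) ⊔ Submodule.span ℝ {(1 : T ι)} :=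
        Submodule.mem_sup_right (Submodule.mem_span_singleton_self _)
      exact hle this
    have h3 := coeff_dd_one f ψ
    rw [hf ψ h1 h2] at h3
    simpa using h3.symm
  obtain ⟨y, ⟨w, rfl⟩, z, hz, hyz⟩ := Submodule.mem_sup.1 hmem
  obtain ⟨c, rfl⟩ := Submodule.mem_span_singleton.1 hz
  refine ⟨w, c, ?_⟩
  rw [← hyz, L_apply, add_comm]

/-- truncation -/
noncomputable def fl (P : FreeMonoid ι → Prop) (f : T ι) : T ι :=
  ofCoeff (@Finsupp.filter _ _ _ P (Classical.decPred P) f.coeff)

theorem fl_pos (P : FreeMonoid ι → Prop) (f : T ι) (m : FreeMonoid ι) (h : P m) :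
    (fl P f).coeff m = f.coeff m := by
  letI := Classical.decPred P
  exact Finsupp.filter_apply_pos P f.coeff h

theorem fl_neg (P : FreeMonoid ι → Prop) (f : T ι) (m : FreeMonoid ι) (h : ¬ P m) :
    (fl P f).coeff m = 0 := by
  letI := Classical.decPred P
  exact Finsupp.filter_apply_neg P f.coeff h

include hd he hR in
theorem co_range : ∀ (n : ℕ) (f : T ι), (∀ m, f.coeff m ≠ 0 → wd (fun _ => 1) m < n) →
    Co e f → ∃ U : T (Fin k), sub e U = f := by
  intro n
  induction n with
  | zero => intro f h _; exact ⟨0, by rw [eq_zero_of_bound f h, map_zero]⟩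
  | succ n ih =>
    intro f h hf
    obtain ⟨w, c, hfw⟩ := mem_of_co e f hf
    let P : Fin k → FreeMonoid ι → Prop := fun i m => wd (fun _ => 1) m + d i < n + 1
    let lo : Fin k → T ι := fun i => fl (P i) (w i)
    let hi : Fin k → T ι := fun i => w i - lo i
    have hlo : ∀ i m, (lo i).coeff m ≠ 0 → wd (fun _ => 1) m + d i < n + 1 := by
      intro i m hm
      by_contra hcon
      exact hm (fl_neg (P i) _ _ hcon)
    have hhi : ∀ i m, (hi i).coeff m ≠ 0 → ¬ (wd (fun _ => 1) m + d i < n + 1) := by
      intro i m hm hcon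
      apply hm
      change (w i - lo i).coeff m = 0
      rw [coeff_sub, Finsupp.sub_apply, fl_pos (P i) _ _ hcon, sub_self]
    have hsum : ∑ i, e i * w i = ∑ i, e i * lo i + ∑ i, e i * hi i := by
      rw [← Finset.sum_add_distrib]
      refine Finset.sum_congr rfl fun i _ => ?_
      rw [← mul_add]
      congr 1
      change w i = lo i + (w i - lo i)
      abel
    have hz : ∑ i, e i * hi i = 0 := by
      have h1 : ∑ i, e i * hi i = f - c • 1 - ∑ i, e i * lo i := by
        rw [hfw, hsum]; abel
      apply MonoidAlgebra.ext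
      ext m
      rw [coeff_zero, Finsupp.zero_apply]
      by_cases hm : wd (fun _ => 1) m < n + 1
      · rw [coeff_sum, Finsupp.finsetSum_apply]
        refine Finset.sum_eq_zero fun i _ => ?_
        by_contra hcon
        obtain ⟨x, y, hx, hy, hxy⟩ := supp_mul _ _ _ hcon
        apply hhi i y hy
        rw [← hxy, wd_mul, (he i).1 x hx] at hm
        omega
      · rw [h1, coeff_sub, coeff_sub, Finsupp.sub_apply, Finsupp.sub_apply, coeff_smul,
          Finsupp.smul_apply]
        have h2 : f.coeff m = 0 := by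
          by_contra hcon; exact hm (h m hcon)
        have h3 : (1 : T ι).coeff m = 0 := by
          apply one_coeff_ne
          rintro rfl
          apply hm
          rw [wd_one]; omega
        have h4 : (∑ i, e i * lo i).coeff m = 0 := by
          rw [coeff_sum, Finsupp.finsetSum_apply]
          refine Finset.sum_eq_zero fun i _ => ?_
          by_contra hcon
          obtain ⟨x, y, hx, hy, hxy⟩ := supp_mul _ _ _ hcon
          apply hm
          rw [← hxy, wd_mul, (he i).1 x hx]
          have := hlo i y hy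
          omega
        rw [h2, h3, h4]; simp
    rw [hsum, hz, add_zero] at hfw
    have hco : ∀ i, Co e (lo i) := by
      intro i ψ hψ hψ1
      have h1 := hf ψ hψ hψ1
      have h2 : ∀ j, dd ψ (e j * lo j) = e j * dd ψ (lo j) := by
        intro j
        rw [dd_mul _ _ _ (he j).2]
        have : (ψ ∘ₗ LinearMap.mulLeft ℝ (e j)) = 0 := by
          apply LinearMap.ext
          intro g
          rw [LinearMap.comp_apply, LinearMap.mulLeft_apply, LinearMap.zero_apply]
          have h3 := hψ (Pi.single j g)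
          rw [Finset.sum_eq_single j] at h3
          · simpa using h3
          · intro l _ hl
            rw [Pi.single_eq_of_ne hl, mul_zero]
          · intro h; exact absurd (Finset.mem_univ j) h
        rw [this, dd_zero, add_zero]
      rw [hfw, map_add, map_smul, dd_one, hψ1, zero_smul, smul_zero, zero_add, map_sum,
        Finset.sum_congr rfl fun j _ => h2 j] at h1
      exact hR _ h1 i
    have hU : ∀ i, ∃ U : T (Fin k), sub e U = lo i := by
      intro i
      refine ih (lo i) (fun m hm => ?_) (hco i)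
      have := hlo i m hm
      have := hd i
      omega
    choose V hV using hU
    refine ⟨c • 1 + ∑ i, X i * V i, ?_⟩
    rw [map_add, map_smul, map_one, map_sum, hfw]
    congr 1
    refine Finset.sum_congr rfl fun i _ => ?_
    rw [map_mul, sub_X, hV]

include he in
theorem compat (U : T (Fin k)) : ∀ ψ : T ι →ₗ[ℝ] ℝ,
    sub e (dd (ψ ∘ₗ (sub e).toLinearMap) U) = dd ψ (sub e U) := by
  refine word_induction (fun U => ∀ ψ : T ι →ₗ[ℝ] ℝ,
    sub e (dd (ψ ∘ₗ (sub e).toLinearMap) U) = dd ψ (sub e U)) ?_ ?_ ?_ ?_ U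
  · intro ψ; simp
  · intro f g hf hg ψ
    rw [map_add, map_add, map_add, map_add, hf, hg]
  · intro r ψ
    have : (single 1 r : T (Fin k)) = r • 1 := by simp [one_def]
    rw [this, map_smul, dd_one, map_smul, map_smul, map_smul, map_one (sub e), map_smul, dd_one]
    congr 2
    simp
  · intro i f hf ψ
    rw [dd_mul _ _ _ (prim_X i), map_add, map_mul, sub_X, hf, map_mul, sub_X,
      dd_mul _ _ _ (he i).2, ← hf (ψ ∘ₗ LinearMap.mulLeft ℝ (e i))]
    congr 3
    apply congrArg
    apply LinearMap.ext
    intro g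
    simp only [LinearMap.comp_apply, LinearMap.mulLeft_apply, AlgHom.toLinearMap_apply, map_mul,
      sub_X]

include he in
theorem sub_word (x : FreeMonoid (Fin k)) (r : ℝ) :
    IsH (fun _ => 1) (wd d x) (sub e (single x r)) := by
  induction x using FreeMonoid.recOn with
  | one =>
    have : (single 1 r : T (Fin k)) = r • 1 := by simp [one_def]
    rw [this, map_smul, map_one, wd_one]
    exact (HS (fun _ => 1) 0).smul_mem r (isH_one _)
  | of_mul i m ih =>
    rw [← X_mul_single, map_mul, sub_X, wd_mul, wd_of]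
    exact isH_mul _ _ _ _ _ (he i).1 ih

include he in
theorem sub_coeff_zero (V : T (Fin k)) (y : FreeMonoid ι)
    (h : ∀ x, V.coeff x ≠ 0 → wd d x ≠ wd (fun _ => 1) y) : (sub e V).coeff y = 0 := by
  have h1 : sub e V = V.coeff.sum fun a r => sub e (single a r) := by
    conv_lhs => rw [← sum_coeff_single V]
    rw [map_finsuppSum]
  rw [h1, coeff_finsuppSum, Finsupp.sum, Finsupp.finsetSum_apply]
  refine Finset.sum_eq_zero fun x hx => ?_
  by_contra hcon
  have h2 := sub_word e d he x _ y hcon
  exact h x (Finsupp.mem_support_iff.1 hx) h2.symm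

end

end TF1

open TF1 in
theorem t_F1 : S_F1 := by
  intro ι k e d hd he hR
  have hinj := inj e d hd he hR
  refine ⟨hinj, ?_⟩
  rintro u hu ⟨w, hw⟩
  have hco : Co e u := by
    intro ψ hψ hψ1
    rw [dd_prim _ _ hu, hψ1, zero_smul, zero_add, hw, hψ, zero_smul]
  obtain ⟨n, hn⟩ := exists_bound u
  obtain ⟨U, hU⟩ := co_range e d hd he hR n u hn hco
  refine ⟨U, ?_, hU, ?_⟩
  · apply prim_of_dd
    intro ψ'
    obtain ⟨g, hg⟩ := (sub e).toLinearMap.exists_leftInverse_of_injective
      (LinearMap.ker_eq_bot.2 hinj)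
    have h1 : (ψ' ∘ₗ g) ∘ₗ (sub e).toLinearMap = ψ' := by
      rw [LinearMap.comp_assoc, hg, LinearMap.comp_id]
    have h2 : ∀ V, ψ' V = (ψ' ∘ₗ g) (sub e V) := fun V => (LinearMap.congr_fun h1 V).symm
    apply hinj
    have h3 := compat e d he U (ψ' ∘ₗ g)
    rw [h1] at h3
    rw [h3, hU, dd_prim _ _ hu, map_add, map_smul, map_smul, map_one (sub e), h2 1, h2 U, hU,
      map_one (sub e)]
  · intro m hm
    have h1 : U - fl (fun x => wd d x = m) U = 0 := by
      rw [injective_iff_map_eq_zero] at hinj
      apply hinj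
      apply MonoidAlgebra.ext
      ext y
      rw [coeff_zero, Finsupp.zero_apply]
      by_cases hy : wd (fun _ => 1) y = m
      · apply sub_coeff_zero e d he
        intro x hx hxy
        apply hx
        rw [coeff_sub, Finsupp.sub_apply, fl_pos _ _ _ (hxy.trans hy), sub_self]
      · rw [map_sub, hU, coeff_sub, Finsupp.sub_apply]
        have h2 : u.coeff y = 0 := by
          by_contra hcon; exact hy (hm y hcon)
        have h3 : (sub e (fl (fun x => wd d x = m) U)).coeff y = 0 := by
          apply sub_coeff_zero e d he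
          intro x hx hxy
          apply hx
          apply fl_neg
          rw [hxy]; exact hy
        rw [h2, h3, sub_zero]
    rw [sub_eq_zero] at h1
    intro x hx
    by_contra hcon
    apply hx
    rw [h1]
    exact fl_neg _ _ _ hcon

end Pool.Agent.H32CE
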