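import Pool.Agent.H32CE.St

set_option autoImplicit false

/-!
# FIN: the last step, a linear system over the integers
-/

namespace Pool.Agent.H32CE

open PowerSeries

namespace TFIN

section len

variable {ι : Type} [DecidableEq ι]

theorem len_mul (x y : FreeGroup ι) : len (x * y) ≤ len x + len y := FreeGroup.norm_mul_le x y

theorem len_inv (x : FreeGroup ι) : len x⁻¹ = len x := FreeGroup.norm_inv_eq

theorem len_one : len (1 : FreeGroup ι) = 0 := FreeGroup.norm_one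

theorem len_pow (x : FreeGroup ι) (n : ℕ) : len (x ^ n) ≤ n * len x := by
  induction n with
  | zero => rw [pow_zero, len_one]; exact Nat.zero_le _
  | succ n ih =>
    rw [pow_succ]
    have := len_mul (x ^ n) x
    have h2 : (n + 1) * len x = n * len x + len x := by ring
    omega

theorem len_zpow (x : FreeGroup ι) (n : ℤ) : len (x ^ n) ≤ n.natAbs * len x := by
  rcases Int.natAbs_eq n with h | h
  · conv_lhs => rw [h]
    rw [zpow_natCast]
    exact len_pow x _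
  · conv_lhs => rw [h]
    rw [zpow_neg, zpow_natCast, len_inv]
    exact len_pow x _

theorem len_prod (l : List (FreeGroup ι)) : len l.prod ≤ (l.map len).sum := by
  induction l with
  | nil => simp [len_one]
  | cons a l ih =>
    rw [List.prod_cons, List.map_cons, List.sum_cons]
    have := len_mul a l.prod
    omega

theorem len_ofFn {n : ℕ} (e : Fin n → FreeGroup ι) (m : Fin n → ℤ) (Z : ℕ)
    (hZ : ∀ k, (m k).natAbs ≤ Z) :
    len (List.ofFn fun i => e i ^ m i).prod ≤ Z * ∑ k, len (e k) := by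
  refine (len_prod _).trans ?_
  rw [List.map_ofFn, List.sum_ofFn, Finset.mul_sum]
  refine Finset.sum_le_sum fun k _ => ?_
  exact (len_zpow _ _).trans (Nat.mul_le_mul_right _ (hZ k))

theorem len_cm (x y : FreeGroup ι) : len (cm x y) ≤ 2 * (len x + len y) := by
  unfold cm
  have h1 := len_mul (x⁻¹ * y⁻¹ * x) y
  have h2 := len_mul (x⁻¹ * y⁻¹) x
  have h3 := len_mul x⁻¹ y⁻¹
  rw [len_inv, len_inv] at h3
  omega

end len

theorem LB' (h : S_LB) (I J : Type) [Fintype I] [Fintype J] : ∃ C E : ℕ, ∀ (B : ℕ)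
    (M : I → J → ℤ) (h : I → ℤ), 1 ≤ B → (∀ i k, |M i k| ≤ B) → (∀ i, |h i| ≤ B) →
    (∃ z : J → ℤ, ∀ i, ∑ k, M i k * z k = h i) →
    ∃ z : J → ℤ, (∀ k, |z k| ≤ C * B ^ E) ∧ ∀ i, ∑ k, M i k * z k = h i := by
  obtain ⟨C, E, hCE⟩ := h (Fintype.card I) (Fintype.card J)
  refine ⟨C, E, fun B M h hB hM hh hz => ?_⟩
  obtain ⟨z, hz⟩ := hz
  let α := (Fintype.equivFin I).symm
  let β := (Fintype.equivFin J).symm
  have key : ∀ (y : J → ℤ) (i : I), ∑ k, M i (β k) * y (β k) = ∑ k, M i k * y k :=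
    fun y i => Equiv.sum_comp β (fun k => M i k * y k)
  obtain ⟨z', h1, h2⟩ := hCE B (fun i k => M (α i) (β k)) (fun i => h (α i)) hB
    (fun i k => hM _ _) (fun i => hh _) ⟨fun k => z (β k), fun i => by rw [key, hz]⟩
  refine ⟨fun k => z' (β.symm k), fun k => h1 _, fun i => ?_⟩
  have h3 := h2 (α.symm i)
  rw [Equiv.apply_symm_apply] at h3
  rw [← h3, ← key (fun k => z' (β.symm k)) i]
  simp only [Equiv.symm_apply_apply]

theorem eq_of_coeff {r i : ℕ} (f g : T (Fin r)) (hf : IsH (fun _ => 1) i f)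
    (hg : IsH (fun _ => 1) i g)
    (h : ∀ a : Fin i → Fin r, f.coeff (FreeMonoid.ofList (List.ofFn a)) =
      g.coeff (FreeMonoid.ofList (List.ofFn a))) : f = g := by
  apply MonoidAlgebra.coeff_inj.1
  apply Finsupp.ext
  intro m
  by_cases hm : wd (fun _ => 1) m = i
  · subst hm
    have hl : wd (fun _ : Fin r => 1) m = (FreeMonoid.toList m).length := by
      unfold wd
      simp
    have h1 : m = FreeMonoid.ofList (List.ofFn fun k : Fin (wd (fun _ : Fin r => 1) m) =>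
        (FreeMonoid.toList m).get (Fin.cast hl k)) := by
      apply FreeMonoid.toList.injective
      rw [FreeMonoid.toList_ofList]
      apply List.ext_get
      · rw [List.length_ofFn, hl]
      · intro n h1 h2
        simp
    rw [h1]
    exact h _
  · have h1 : f.coeff m = 0 := by
      by_contra hc
      exact hm (hf m hc)
    have h2 : g.coeff m = 0 := by
      by_contra hc
      exact hm (hg m hc)
    rw [h1, h2]

theorem D_mono {ι : Type} {k l : ℕ} {x : FreeGroup ι} (h : D k x) (hl : l ≤ k) : D l x :=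
  fun i h1 h2 => h i h1 (lt_of_lt_of_le h2 hl)

theorem mag_one {ι : Type} : mag (1 : FreeGroup ι) = 1 := by
  unfold mag
  rw [map_one, Units.val_one]

theorem D_one {ι : Type} (k : ℕ) : D k (1 : FreeGroup ι) := by
  intro i hi _
  unfold cf
  rw [mag_one, PowerSeries.coeff_one, if_neg (by omega)]

/-- the difference of two values of the commutator map, as a linear expression -/
theorem lin_expr (hLIN : S_LIN) (hEXP : S_EXP) (hBAS : S_BAS) (r c p q j n₁ n₂ : ℕ)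
    (hp : 1 ≤ p) (hq : 1 ≤ q) (hj : 1 ≤ j) (h1 : p + q + j ≤ c) (h2 : c < p + q + 2 * j)
    (x y u v : FreeGroup (Fin r)) (e : Fin n₁ → FreeGroup (Fin r)) (f : Fin n₂ → FreeGroup (Fin r))
    (m : Fin n₁ → ℤ) (m' : Fin n₂ → ℤ) (hx : D p x) (hy : D q y) (he : ∀ k, D (p + j) (e k))
    (hf : ∀ k, D (q + j) (f k)) (hu : D (c + 1) (((List.ofFn fun i => e i ^ m i).prod)⁻¹ * u))
    (hv : D (c + 1) (((List.ofFn fun i => f i ^ m' i).prod)⁻¹ * v)) (i : ℕ) (hi1 : 1 ≤ i)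
    (hi2 : i ≤ c) :
    cf i ((cm x y)⁻¹ * cm (x * u) (y * v)) =
      ∑ k, (m k : ℝ) • cf i ((cm x y)⁻¹ * cm (x * e k) (y * 1)) +
      ∑ k, (m' k : ℝ) • cf i ((cm x y)⁻¹ * cm (x * 1) (y * f k)) := by
  have h3 := (hEXP r p q j c n₁ n₂ x y u v e f m m' hp hq hj h1 h2.le hx hy he hf hu hv).2.2
    i hi1 hi2
  rw [h3, if_neg (by omega), add_zero]
  congr 1
  · refine Finset.sum_congr rfl fun k _ => ?_
    have h4 := (hLIN r p q j x y (e k) 1 hp hq hj hx hy (he k) (D_one _)).2 i hi1 (by omega)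
    rw [h4, mag_one, sub_self]
    unfold br
    rw [mul_zero, zero_mul, sub_zero, add_zero]
  · refine Finset.sum_congr rfl fun k _ => ?_
    have h4 := (hLIN r p q j x y 1 (f k) hp hq hj hx hy (D_one _) (hf k)).2 i hi1 (by omega)
    rw [h4, mag_one, sub_self]
    unfold br
    rw [mul_zero, zero_mul, sub_zero, add_zero]

/-- integers attached to the coefficients -/
theorem ints (hINT : S_INT) (r c : ℕ) : ∃ F : ℕ → FreeGroup (Fin r) → FreeMonoid (Fin r) → ℤ,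
    ∀ i x m, i ≤ c → (c.factorial : ℝ) * (cf i x).coeff m = F i x m := by
  have h : ∀ (i : ℕ) (x : FreeGroup (Fin r)) (m : FreeMonoid (Fin r)), ∃ z : ℤ, i ≤ c →
      (c.factorial : ℝ) * (cf i x).coeff m = z := by
    intro i x m
    by_cases hi : i ≤ c
    · obtain ⟨z, hz⟩ := hINT (Fin r) i x m
      obtain ⟨d, hd⟩ := Nat.factorial_dvd_factorial hi
      refine ⟨d * z, fun _ => ?_⟩
      rw [hd]
      push_cast
      rw [← hz]
      ring
    · exact ⟨0, fun h => absurd h hi⟩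
  choose F hF using h
  exact ⟨F, hF⟩

/-- their size -/
theorem ints_bd (hSIZ : S_SIZ) (hNM : S_NM) (r c : ℕ) : ∃ CS : ℕ,
    ∀ F : ℕ → FreeGroup (Fin r) → FreeMonoid (Fin r) → ℤ,
    (∀ i x m, i ≤ c → (c.factorial : ℝ) * (cf i x).coeff m = F i x m) →
    ∀ (i : ℕ) (x : FreeGroup (Fin r)) (m : FreeMonoid (Fin r)) (Q : ℕ), i ≤ c → len x + 1 ≤ Q →
      |F i x m| ≤ ((CS * Q ^ c + 1 : ℕ) : ℤ) := by
  choose C hC using fun k => hSIZ r k
  refine ⟨c.factorial * ∑ k ∈ Finset.range (c + 1), C k, fun F hF i x m Q hi hQ => ?_⟩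
  have h1 : |(F i x m : ℝ)| ≤ c.factorial * (C i * ((len x : ℝ) + 1) ^ i) := by
    rw [← hF i x m hi, abs_mul, abs_of_nonneg (by positivity : (0 : ℝ) ≤ (c.factorial : ℝ))]
    refine mul_le_mul_of_nonneg_left ?_ (by positivity)
    exact ((hNM (Fin r) (cf i x) 0 0).2.2.2.2.2.1 m).trans (hC i x)
  have h2 : (C i : ℝ) ≤ ((∑ k ∈ Finset.range (c + 1), C k : ℕ) : ℝ) := by
    have := Finset.single_le_sum (f := C) (s := Finset.range (c + 1)) (fun _ _ => Nat.zero_le _)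
      (Finset.mem_range.2 (Nat.lt_succ_of_le hi))
    exact_mod_cast this
  have h3 : ((len x : ℝ) + 1) ^ i ≤ (Q : ℝ) ^ c := by
    have h4 : ((len x : ℝ) + 1) ≤ Q := by exact_mod_cast hQ
    have h5 : (1 : ℝ) ≤ Q := by
      have : (0 : ℝ) ≤ len x := Nat.cast_nonneg _
      linarith
    calc ((len x : ℝ) + 1) ^ i ≤ (Q : ℝ) ^ i := pow_le_pow_left₀ (by positivity) h4 i
      _ ≤ (Q : ℝ) ^ c := pow_le_pow_right₀ h5 hi
  have h4 : |(F i x m : ℝ)| ≤ ((c.factorial * (∑ k ∈ Finset.range (c + 1), C k) * Q ^ c + 1 : ℕ) : ℝ) := by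
    push_cast
    push_cast at h2
    have h5 : (C i : ℝ) * ((len x : ℝ) + 1) ^ i ≤ (∑ k ∈ Finset.range (c + 1), (C k : ℝ)) * (Q : ℝ) ^ c :=
      mul_le_mul h2 h3 (by positivity) (by positivity)
    have h6 := mul_le_mul_of_nonneg_left h5 (by positivity : (0 : ℝ) ≤ (c.factorial : ℝ))
    linarith
  exact_mod_cast h4

/-- index type of the equations -/
abbrev II (r c : ℕ) : Type := Σ i : Fin c, (Fin (i.val + 1) → Fin r)

/-- the word of an index -/
def word {r c : ℕ} (w : II r c) : FreeMonoid (Fin r) := FreeMonoid.ofList (List.ofFn w.2)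

end TFIN

open TFIN

theorem t_FIN (hBAS : S_BAS) (hINT : S_INT) (hSIZ : S_SIZ) (hGENP : S_GENP)
    (hNM : S_NM) (hLIN : S_LIN) (hEXP : S_EXP) (hLB : S_LB) : S_FIN := by
  intro r c p q j hp hq hj hc hHL
  obtain ⟨C0, E0, hHL⟩ := hHL
  obtain ⟨b1, b2, b3, b4, b5, b6, b7, b8, b9, b10, b11⟩ := hBAS (Fin r)
  have hx0 : ∀ (k l : ℕ) (x x0 : FreeGroup (Fin r)), D k x → D (k + l) (x0⁻¹ * x) → D k x0 := by
    intro k l x x0 h1 h2
    have h3 := b3 k x ((x0⁻¹ * x)⁻¹) h1 (b4 k _ (D_mono h2 (Nat.le_add_right k l)))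
    have h4 : x * (x0⁻¹ * x)⁻¹ = x0 := by group
    rwa [h4] at h3
  by_cases hcase : c < p + q + j
  · refine ⟨C0, E0, fun g hg => ?_⟩
    obtain ⟨x, y, x0, y0, hT, hS, hu, hv, hl1, hl2⟩ := hHL g hg
    refine ⟨x0, y0, ?_, hl1, hl2⟩
    have hLI := (hLIN r p q j x0 y0 (x0⁻¹ * x) (y0⁻¹ * y) hp hq hj (hx0 p j x x0 hT.1 hu)
      (hx0 q j y y0 hT.2.1 hv) hu hv).1
    rw [mul_inv_cancel_left, mul_inv_cancel_left] at hLI
    have h1 := b3 (c + 1) _ _ hS (b4 _ _ (D_mono hLI (by omega : c + 1 ≤ p + q + j)))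
    have h2 : (g⁻¹ * cm x y) * ((cm x0 y0)⁻¹ * cm x y)⁻¹ = g⁻¹ * cm x0 y0 := by group
    rw [h2] at h1
    exact h1
  · push Not at hcase
    obtain ⟨n₁, e, he, hge⟩ := hGENP r (p + j) c (by omega)
    obtain ⟨n₂, f, hf, hgf⟩ := hGENP r (q + j) c (by omega)
    obtain ⟨CL, EL, hL⟩ := LB' hLB (II r c) (Fin n₁ ⊕ Fin n₂)
    obtain ⟨F, hF⟩ := ints hINT r c
    obtain ⟨CS, hCS⟩ := ints_bd hSIZ hNM r c
    set SS : ℕ := ∑ k, len (e k) + ∑ k, len (f k) with hSS
    set C1 : ℕ := 8 * C0 + 2 * SS + 2 with hC1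
    refine ⟨C0 + SS * (CL * (CS * C1 ^ c + 1) ^ EL), E0 + (E0 + 1) * c * EL, fun g hg => ?_⟩
    obtain ⟨x, y, x0, y0, hT, hS, hu, hv, hl1, hl2⟩ := hHL g hg
    have hDx := hx0 p j x x0 hT.1 hu
    have hDy := hx0 q j y y0 hT.2.1 hv
    set L : ℕ := len g + 1 with hLdef
    have hL1 : 1 ≤ L := by omega
    -- the given solution
    obtain ⟨m, hm⟩ := hge _ hu
    obtain ⟨m', hm'⟩ := hgf _ hv
    -- the columns
    set wv : Fin n₁ ⊕ Fin n₂ → FreeGroup (Fin r) := Sum.elim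
      (fun k => (cm x0 y0)⁻¹ * cm (x0 * e k) (y0 * 1))
      (fun k => (cm x0 y0)⁻¹ * cm (x0 * 1) (y0 * f k)) with hwv
    have CF : ∀ (z : Fin n₁ ⊕ Fin n₂ → ℤ) (u v : FreeGroup (Fin r)),
        D (c + 1) (((List.ofFn fun i => e i ^ z (Sum.inl i)).prod)⁻¹ * u) →
        D (c + 1) (((List.ofFn fun i => f i ^ z (Sum.inr i)).prod)⁻¹ * v) →
        ∀ i, 1 ≤ i → i ≤ c → cf i ((cm x0 y0)⁻¹ * cm (x0 * u) (y0 * v)) =
          ∑ k, (z k : ℝ) • cf i (wv k) := by
      intro z u v h1 h2 i hi1 hi2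
      rw [lin_expr hLIN hEXP hBAS r c p q j n₁ n₂ hp hq hj hcase hc x0 y0 u v e f
        (fun k => z (Sum.inl k)) (fun k => z (Sum.inr k)) hDx hDy he hf h1 h2 i hi1 hi2,
        Fintype.sum_sum_type]
      rfl
    -- sizes
    set PP1 : ℕ := L ^ (E0 + 1) with hPP1
    have hLE : L ^ E0 ≤ PP1 := Nat.pow_le_pow_right hL1 (Nat.le_succ _)
    have hL' : L ≤ PP1 := by
      calc L = L ^ 1 := (pow_one L).symm
        _ ≤ L ^ (E0 + 1) := Nat.pow_le_pow_right hL1 (by omega)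
    have h1L : 1 ≤ PP1 := le_trans hL1 hL'
    have hx0' : len x0 ≤ C0 * PP1 := hl1.trans (Nat.mul_le_mul_left _ hLE)
    have hy0' : len y0 ≤ C0 * PP1 := hl2.trans (Nat.mul_le_mul_left _ hLE)
    have hSe : ∑ k, len (e k) ≤ SS := Nat.le_add_right _ _
    have hSf : ∑ k, len (f k) ≤ SS := Nat.le_add_left _ _
    have hlee : ∀ k, len (e k) ≤ SS := fun k =>
      (Finset.single_le_sum (f := fun k => len (e k)) (fun _ _ => Nat.zero_le _)
        (Finset.mem_univ k)).trans hSe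
    have hlef : ∀ k, len (f k) ≤ SS := fun k =>
      (Finset.single_le_sum (f := fun k => len (f k)) (fun _ _ => Nat.zero_le _)
        (Finset.mem_univ k)).trans hSf
    have hQ0 : 8 * (C0 * PP1) + 2 * SS + 1 ≤ C1 * PP1 := by
      rw [hC1]
      nlinarith
    have hcm0 := len_cm x0 y0
    have hlw : ∀ k, len (wv k) + 1 ≤ C1 * PP1 := by
      intro k
      rcases k with k | k
      · show len ((cm x0 y0)⁻¹ * cm (x0 * e k) (y0 * 1)) + 1 ≤ C1 * PP1
        have h1 := len_mul (cm x0 y0)⁻¹ (cm (x0 * e k) (y0 * 1))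
        rw [len_inv] at h1
        have h2 := len_cm (x0 * e k) (y0 * 1)
        have h3 := len_mul x0 (e k)
        have h4 := len_mul y0 1
        rw [len_one] at h4
        have h5 := hlee k
        omega
      · show len ((cm x0 y0)⁻¹ * cm (x0 * 1) (y0 * f k)) + 1 ≤ C1 * PP1
        have h1 := len_mul (cm x0 y0)⁻¹ (cm (x0 * 1) (y0 * f k))
        rw [len_inv] at h1
        have h2 := len_cm (x0 * 1) (y0 * f k)
        have h3 := len_mul x0 1
        have h4 := len_mul y0 (f k)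
        rw [len_one] at h3
        have h5 := hlef k
        omega
    have hlg : len ((cm x0 y0)⁻¹ * g) + 1 ≤ C1 * PP1 := by
      have h1 := len_mul (cm x0 y0)⁻¹ g
      rw [len_inv] at h1
      have h2 : 4 * (C0 * PP1) + PP1 ≤ C1 * PP1 := by
        rw [hC1]
        nlinarith
      omega
    -- the equations
    have hgx : ∀ i, 1 ≤ i → i ≤ c →
        cf i ((cm x0 y0)⁻¹ * g) = cf i ((cm x0 y0)⁻¹ * cm x y) := by
      intro i h1 h2
      refine (b11 c ((cm x0 y0)⁻¹ * g) ((cm x0 y0)⁻¹ * cm x y)).2 ?_ i h1 h2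
      have h3 : ((cm x0 y0)⁻¹ * g)⁻¹ * ((cm x0 y0)⁻¹ * cm x y) = g⁻¹ * cm x y := by group
      rw [h3]
      exact hS
    have cs : ∀ (z : Fin n₁ ⊕ Fin n₂ → ℤ) (i : ℕ) (w : FreeMonoid (Fin r)),
        (∑ k, (z k : ℝ) • cf i (wv k)).coeff w = ∑ k, (z k : ℝ) * (cf i (wv k)).coeff w := by
      intro z i w
      rw [MonoidAlgebra.coeff_sum, Finsupp.finset_sum_apply]
      rfl
    have csF : ∀ (z : Fin n₁ ⊕ Fin n₂ → ℤ) (i : ℕ) (w : FreeMonoid (Fin r)), i ≤ c →
        (c.factorial : ℝ) * (∑ k, (z k : ℝ) • cf i (wv k)).coeff w =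
          ((∑ k, F i (wv k) w * z k : ℤ) : ℝ) := by
      intro z i w hi
      rw [cs, Finset.mul_sum]
      push_cast
      refine Finset.sum_congr rfl fun k _ => ?_
      rw [← hF i (wv k) w hi]
      ring
    have hex : ∀ w : II r c, ∑ k, F (w.1 + 1) (wv k) (word w) * (Sum.elim m m' k) =
        F (w.1 + 1) ((cm x0 y0)⁻¹ * g) (word w) := by
      intro w
      have hw : (w.1 : ℕ) + 1 ≤ c := w.1.2
      have h1 := CF (Sum.elim m m') (x0⁻¹ * x) (y0⁻¹ * y) hm hm' (w.1 + 1) (by omega) hw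
      rw [mul_inv_cancel_left, mul_inv_cancel_left, ← hgx _ (by omega) hw] at h1
      have h2 := csF (Sum.elim m m') (w.1 + 1) (word w) hw
      rw [← h1, hF _ _ _ hw] at h2
      exact_mod_cast h2.symm
    obtain ⟨z, hz1, hz2⟩ := hL (CS * (C1 * PP1) ^ c + 1)
      (fun w k => F (w.1 + 1) (wv k) (word w))
      (fun w => F (w.1 + 1) ((cm x0 y0)⁻¹ * g) (word w)) (by omega)
      (fun w k => hCS F hF _ _ _ _ w.1.2 (hlw k)) (fun w => hCS F hF _ _ _ _ w.1.2 hlg)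
      ⟨Sum.elim m m', hex⟩
    set u1 := (List.ofFn fun i => e i ^ z (Sum.inl i)).prod with hu1
    set v1 := (List.ofFn fun i => f i ^ z (Sum.inr i)).prod with hv1
    -- the bound for the coefficients
    set Z : ℕ := CL * (CS * (C1 * PP1) ^ c + 1) ^ EL with hZ
    have hzZ : ∀ k, (z k).natAbs ≤ Z := by
      intro k
      have h1 := hz1 k
      rw [Int.abs_eq_natAbs] at h1
      rw [hZ]
      exact_mod_cast h1
    have hZle : Z ≤ CL * (CS * C1 ^ c + 1) ^ EL * L ^ ((E0 + 1) * c * EL) := by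
      have h1 : CS * (C1 * PP1) ^ c + 1 ≤ (CS * C1 ^ c + 1) * L ^ ((E0 + 1) * c) := by
        rw [mul_pow, hPP1, ← pow_mul]
        have h2 : 1 ≤ L ^ ((E0 + 1) * c) := Nat.one_le_pow _ _ hL1
        nlinarith
      calc Z = CL * (CS * (C1 * PP1) ^ c + 1) ^ EL := hZ
        _ ≤ CL * ((CS * C1 ^ c + 1) * L ^ ((E0 + 1) * c)) ^ EL :=
            Nat.mul_le_mul_left _ (Nat.pow_le_pow_left h1 _)
        _ = CL * (CS * C1 ^ c + 1) ^ EL * L ^ ((E0 + 1) * c * EL) := by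
            rw [mul_pow, ← pow_mul]; ring
    have hfin : ∀ a b : ℕ, a ≤ C0 * L ^ E0 → b ≤ Z * SS →
        a + b ≤ (C0 + SS * (CL * (CS * C1 ^ c + 1) ^ EL)) * L ^ (E0 + (E0 + 1) * c * EL) := by
      intro a b ha hb
      have h1 : L ^ E0 ≤ L ^ (E0 + (E0 + 1) * c * EL) :=
        Nat.pow_le_pow_right hL1 (Nat.le_add_right _ _)
      have h2 : L ^ ((E0 + 1) * c * EL) ≤ L ^ (E0 + (E0 + 1) * c * EL) :=
        Nat.pow_le_pow_right hL1 (Nat.le_add_left _ _)
      calc a + b ≤ C0 * L ^ E0 + Z * SS := Nat.add_le_add ha hb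
        _ ≤ C0 * L ^ (E0 + (E0 + 1) * c * EL) +
            (CL * (CS * C1 ^ c + 1) ^ EL * L ^ (E0 + (E0 + 1) * c * EL)) * SS :=
            Nat.add_le_add (Nat.mul_le_mul_left _ h1)
              (Nat.mul_le_mul_right _ (hZle.trans (Nat.mul_le_mul_left _ h2)))
        _ = _ := by ring
    refine ⟨x0 * u1, y0 * v1, ?_, ?_, ?_⟩
    · have h1 : ∀ i, 1 ≤ i → i ≤ c → cf i ((cm x0 y0)⁻¹ * g) =
          cf i ((cm x0 y0)⁻¹ * cm (x0 * u1) (y0 * v1)) := by
        intro i hi1 hi2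
        obtain ⟨i', rfl⟩ : ∃ i', i = i' + 1 := ⟨i - 1, by omega⟩
        refine eq_of_coeff _ _ (b10 _ _) (b10 _ _) (fun a => ?_)
        have h2 := CF z u1 v1 (by rw [hu1, inv_mul_cancel]; exact D_one _)
          (by rw [hv1, inv_mul_cancel]; exact D_one _) (i' + 1) hi1 hi2
        have h3 := hz2 (⟨⟨i', by omega⟩, a⟩ : II r c)
        have h4 := csF z (i' + 1) (FreeMonoid.ofList (List.ofFn a)) hi2
        rw [← h2] at h4
        have h5 := hF (i' + 1) ((cm x0 y0)⁻¹ * g) (FreeMonoid.ofList (List.ofFn a)) hi2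
        have h6 : ((∑ k, F (i' + 1) (wv k) (FreeMonoid.ofList (List.ofFn a)) * z k : ℤ) : ℝ) =
            ((F (i' + 1) ((cm x0 y0)⁻¹ * g) (FreeMonoid.ofList (List.ofFn a)) : ℤ) : ℝ) := by
          exact_mod_cast h3
        rw [h6, ← h5] at h4
        exact (mul_left_cancel₀ (by positivity : (c.factorial : ℝ) ≠ 0) h4).symm
      have h2 := (b11 c _ _).1 h1
      have h3 : ((cm x0 y0)⁻¹ * g)⁻¹ * ((cm x0 y0)⁻¹ * cm (x0 * u1) (y0 * v1)) =
          g⁻¹ * cm (x0 * u1) (y0 * v1) := by group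
      rw [h3] at h2
      exact h2
    · refine (len_mul _ _).trans (hfin _ _ hl1 ?_)
      exact (len_ofFn e _ Z (fun k => hzZ _)).trans (Nat.mul_le_mul_left _ hSe)
    · refine (len_mul _ _).trans (hfin _ _ hl2 ?_)
      exact (len_ofFn f _ Z (fun k => hzZ _)).trans (Nat.mul_le_mul_left _ hSf)

end Pool.Agent.H32CE
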