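import Pool.Agent.H32CE.St

set_option autoImplicit false

/-!
# The final theorem: decidability of commutator equations in free nilpotent groups
-/

namespace Pool.Agent.H32CE

namespace TFINAL

theorem sol_iff (hM : S_MAG) (r c : ℕ) (g : FreeGroup (Fin r)) :
    (∃ x y : FreeGroup (Fin r), Sol c g x y) ↔
      ∃ x y : FreeGroup (Fin r) ⧸ gam (FreeGroup (Fin r)) c,
        x⁻¹ * y⁻¹ * x * y = (QuotientGroup.mk g :
          FreeGroup (Fin r) ⧸ gam (FreeGroup (Fin r)) c) := by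
  have key : ∀ a b : FreeGroup (Fin r), Sol c g a b ↔
      ((QuotientGroup.mk a : FreeGroup (Fin r) ⧸ gam (FreeGroup (Fin r)) c)⁻¹ *
        (QuotientGroup.mk b : FreeGroup (Fin r) ⧸ gam (FreeGroup (Fin r)) c)⁻¹ *
        (QuotientGroup.mk a : FreeGroup (Fin r) ⧸ gam (FreeGroup (Fin r)) c) *
        (QuotientGroup.mk b : FreeGroup (Fin r) ⧸ gam (FreeGroup (Fin r)) c) =
        QuotientGroup.mk g) := by
    intro a b
    unfold Sol
    rw [hM r c]
    have h1 : (QuotientGroup.mk a : FreeGroup (Fin r) ⧸ gam (FreeGroup (Fin r)) c)⁻¹ *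
        (QuotientGroup.mk b : FreeGroup (Fin r) ⧸ gam (FreeGroup (Fin r)) c)⁻¹ *
        (QuotientGroup.mk a : FreeGroup (Fin r) ⧸ gam (FreeGroup (Fin r)) c) *
        (QuotientGroup.mk b : FreeGroup (Fin r) ⧸ gam (FreeGroup (Fin r)) c) =
        (QuotientGroup.mk (cm a b) : FreeGroup (Fin r) ⧸ gam (FreeGroup (Fin r)) c) := rfl
    rw [h1]
    constructor
    · intro h
      exact (QuotientGroup.eq.2 h).symm
    · intro h
      exact QuotientGroup.eq.1 h.symm
  constructor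
  · rintro ⟨a, b, h⟩
    exact ⟨_, _, (key a b).1 h⟩
  · rintro ⟨x, y, h⟩
    obtain ⟨a, rfl⟩ := QuotientGroup.mk_surjective x
    obtain ⟨b, rfl⟩ := QuotientGroup.mk_surjective y
    exact ⟨a, b, (key a b).2 h⟩

end TFINAL

theorem t_FINAL (h1 : S_DEC) (h2 : S_MAG) : S_FINAL := by
  intro r c
  have h3 : (fun L : List (Fin r × Bool) =>
      ∃ x y : FreeGroup (Fin r) ⧸ gam (FreeGroup (Fin r)) c,
        x⁻¹ * y⁻¹ * x * y = (QuotientGroup.mk (FreeGroup.mk L) :
          FreeGroup (Fin r) ⧸ gam (FreeGroup (Fin r)) c)) =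
      (fun L : List (Fin r × Bool) => ∃ x y : FreeGroup (Fin r), Sol c (FreeGroup.mk L) x y) := by
    funext L
    exact propext (TFINAL.sol_iff h2 r c (FreeGroup.mk L)).symm
  rw [h3]
  exact h1 r c

end Pool.Agent.H32CE
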