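import Pool.Agent.H32CE.St

/-!
# Friedrichs' theorem (via the Dynkin operator)
-/

set_option autoImplicit false

namespace Pool.Agent.H32CE

namespace TFRI

open MonoidAlgebra (single)

variable {ι : Type}

/-- the algebra of pairs of words -/
abbrev P2 (ι : Type) := MonoidAlgebra ℝ (FreeMonoid ι × FreeMonoid ι)

/-- linear map with given values on the basis -/
noncomputable def lin {M W : Type} [AddCommGroup W] [Module ℝ W] (v : M → W) :
    MonoidAlgebra ℝ M →ₗ[ℝ] W :=
  (Finsupp.linearCombination ℝ v) ∘ₗ (MonoidAlgebra.coeffLinearEquiv ℝ).toLinearMap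

theorem lin_single {M W : Type} [AddCommGroup W] [Module ℝ W] (v : M → W) (m : M) (r : ℝ) :
    lin v (single m r) = r • v m := by
  unfold lin
  show Finsupp.linearCombination ℝ v (single m r).coeff = _
  rw [MonoidAlgebra.coeff_single, Finsupp.linearCombination_single]

theorem single_smul' {M : Type} (m : M) (r : ℝ) :
    (single m r : MonoidAlgebra ℝ M) = r • single m 1 := by
  apply MonoidAlgebra.ext
  rw [MonoidAlgebra.coeff_smul, MonoidAlgebra.coeff_single, MonoidAlgebra.coeff_single,
    Finsupp.smul_single, smul_eq_mul, mul_one]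

/-- two linear maps that agree on the basis are equal -/
theorem ext1 {M W : Type} [AddCommGroup W] [Module ℝ W] {f g : MonoidAlgebra ℝ M →ₗ[ℝ] W}
    (h : ∀ m, f (single m 1) = g (single m 1)) (x : MonoidAlgebra ℝ M) : f x = g x := by
  induction x using MonoidAlgebra.induction_linear with
  | zero => rw [map_zero, map_zero]
  | add x y hx hy => rw [map_add, map_add, hx, hy]
  | single m r => rw [single_smul' m r, map_smul, map_smul, h]

/-- right-normed brackets -/
noncomputable def Rl : List ι → T ι
  | [] => 0
  | [i] => X i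
  | i :: j :: w => br (X i) (Rl (j :: w))

theorem Rl_cons (i : ι) (l : List ι) (hl : l ≠ []) : Rl (i :: l) = br (X i) (Rl l) := by
  cases l with
  | nil => exact absurd rfl hl
  | cons j w => rfl

/-- the word of a list -/
noncomputable def wo (l : List ι) : T ι := single (FreeMonoid.ofList l) 1

theorem wo_cons (i : ι) (l : List ι) : wo (i :: l) = X i * wo l := by
  unfold wo X
  rw [MonoidAlgebra.single_mul_single, mul_one]
  rfl

noncomputable def R : T ι →ₗ[ℝ] T ι := lin fun m => Rl (FreeMonoid.toList m)

noncomputable def N : T ι →ₗ[ℝ] T ι :=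
  lin fun m => ((FreeMonoid.toList m).length : ℝ) • single m 1

noncomputable def J : T ι →ₗ[ℝ] T ι :=
  lin fun m => ((FreeMonoid.toList m).length : ℝ)⁻¹ • single m 1

noncomputable def nu : P2 ι →ₗ[ℝ] T ι := lin fun p => Rl (FreeMonoid.toList p.1) * single p.2 1

open Classical in
noncomputable def ep : P2 ι →ₗ[ℝ] T ι := lin fun p => if p.1 = 1 then single p.2 1 else 0

/-- `Δ (X i)` -/
noncomputable def dX (i : ι) : P2 ι :=
  single (FreeMonoid.of i, 1) 1 + single (1, FreeMonoid.of i) 1

theorem cop_X (i : ι) : cop ι (X i) = dX i := by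
  unfold cop X
  rw [MonoidAlgebra.lift_single, one_smul, FreeMonoid.lift_eval_of]
  rfl

theorem of_mul_ne (i : ι) (m : FreeMonoid ι) : FreeMonoid.of i * m ≠ 1 := by
  intro h
  have := congrArg FreeMonoid.toList h
  simp at this

theorem ep_dX (i : ι) (p : P2 ι) : ep (dX i * p) = X i * ep p := by
  have h := ext1 (f := ep ∘ₗ LinearMap.mulLeft ℝ (dX i)) (g := LinearMap.mulLeft ℝ (X i) ∘ₗ ep) (by
    rintro ⟨m1, m2⟩
    simp only [LinearMap.comp_apply, LinearMap.mulLeft_apply, dX, add_mul,
      MonoidAlgebra.single_mul_single, mul_one, Prod.mk_mul_mk, one_mul, map_add]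
    unfold ep
    simp only [lin_single, one_smul]
    rw [if_neg (of_mul_ne i m1), zero_add]
    split_ifs
    · unfold X
      rw [MonoidAlgebra.single_mul_single, mul_one]
    · rw [mul_zero]) p
  exact h

theorem nu_dX (i : ι) (p : P2 ι) : nu (dX i * p) = X i * nu p + X i * ep p := by
  have h := ext1 (f := nu ∘ₗ LinearMap.mulLeft ℝ (dX i))
      (g := LinearMap.mulLeft ℝ (X i) ∘ₗ nu + LinearMap.mulLeft ℝ (X i) ∘ₗ ep) (by
    rintro ⟨m1, m2⟩
    simp only [LinearMap.comp_apply, LinearMap.add_apply, LinearMap.mulLeft_apply, dX, add_mul,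
      MonoidAlgebra.single_mul_single, mul_one, Prod.mk_mul_mk, one_mul, map_add]
    unfold nu ep
    simp only [lin_single, one_smul]
    have hX : (single (FreeMonoid.of i * m2) 1 : T ι) = X i * single m2 1 := by
      unfold X
      rw [MonoidAlgebra.single_mul_single, mul_one]
    rw [hX, FreeMonoid.toList_of_mul]
    by_cases h1 : m1 = 1
    · subst h1
      rw [if_pos rfl]
      have e1 : Rl (FreeMonoid.toList (1 : FreeMonoid ι)) = 0 := rfl
      have e2 : Rl (i :: FreeMonoid.toList (1 : FreeMonoid ι)) = X i := rfl
      rw [e1, e2, zero_mul, zero_mul, mul_zero, add_zero, zero_add]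
    · rw [if_neg h1, mul_zero, add_zero, Rl_cons]
      · unfold br
        noncomm_ring
      · intro h2
        apply h1
        exact FreeMonoid.toList.injective h2) p
  exact h

theorem ep_cop (u : T ι) : ep (cop ι u) = u := by
  have h := ext1 (f := ep ∘ₗ (cop ι).toLinearMap) (g := LinearMap.id) (by
    intro m
    induction m using FreeMonoid.inductionOn' with
    | one =>
      have h1 : (single (1 : FreeMonoid ι) 1 : T ι) = 1 := rfl
      simp only [LinearMap.comp_apply, AlgHom.toLinearMap_apply, LinearMap.id_apply, h1, map_one]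
      have h2 : (1 : P2 ι) = single (1, 1) 1 := rfl
      rw [h2]
      unfold ep
      rw [lin_single, if_pos rfl, one_smul]
      rfl
    | of_mul i m ih =>
      have h1 : (single (FreeMonoid.of i * m) 1 : T ι) = X i * single m 1 := by
        unfold X
        rw [MonoidAlgebra.single_mul_single, mul_one]
      simp only [LinearMap.comp_apply, AlgHom.toLinearMap_apply, LinearMap.id_apply] at ih ⊢
      rw [h1, map_mul, cop_X, ep_dX, ih]) u
  exact h

theorem nu_cop (u : T ι) : nu (cop ι u) = N u := by
  have h := ext1 (f := nu ∘ₗ (cop ι).toLinearMap) (g := N) (by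
    intro m
    induction m using FreeMonoid.inductionOn' with
    | one =>
      have h1 : (single (1 : FreeMonoid ι) 1 : T ι) = 1 := rfl
      have h2 : (1 : P2 ι) = single (1, 1) 1 := rfl
      have h3 : N (single (1 : FreeMonoid ι) 1 : T ι) = 0 := by
        unfold N
        rw [lin_single]
        simp
      rw [h3]
      simp only [LinearMap.comp_apply, AlgHom.toLinearMap_apply, h1, map_one]
      rw [h2]
      unfold nu
      rw [lin_single]
      have e1 : Rl (FreeMonoid.toList (1 : FreeMonoid ι)) = 0 := rfl
      simp only [e1, zero_mul, smul_zero]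
    | of_mul i m ih =>
      have h1 : (single (FreeMonoid.of i * m) 1 : T ι) = X i * single m 1 := by
        unfold X
        rw [MonoidAlgebra.single_mul_single, mul_one]
      have h2 : N (single (FreeMonoid.of i * m) 1 : T ι) =
          X i * N (single m 1) + X i * single m 1 := by
        unfold N
        rw [lin_single, lin_single, one_smul, one_smul, h1, FreeMonoid.toList_of_mul,
          List.length_cons, mul_smul_comm]
        push_cast
        rw [add_smul, one_smul]
      simp only [LinearMap.comp_apply, AlgHom.toLinearMap_apply] at ih ⊢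
      rw [h2, ← ih, h1, map_mul, cop_X, nu_dX, ep_cop]) u
  exact h

theorem lft_single (m : FreeMonoid ι) (r : ℝ) : lft ι (single m r) = single (m, 1) r := by
  unfold lft
  simp [MonoidAlgebra.mapDomainAlgHom]

theorem rgt_single (m : FreeMonoid ι) (r : ℝ) : rgt ι (single m r) = single (1, m) r := by
  unfold rgt
  simp [MonoidAlgebra.mapDomainAlgHom]

theorem nu_lft (u : T ι) : nu (lft ι u) = R u := by
  have h := ext1 (f := nu ∘ₗ (lft ι).toLinearMap) (g := R) (by
    intro m
    simp only [LinearMap.comp_apply, AlgHom.toLinearMap_apply, lft_single]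
    unfold nu R
    rw [lin_single, lin_single]
    have h1 : (single (1 : FreeMonoid ι) 1 : T ι) = 1 := rfl
    simp only [h1, mul_one]) u
  exact h

theorem nu_rgt (u : T ι) : nu (rgt ι u) = 0 := by
  have h := ext1 (f := nu ∘ₗ (rgt ι).toLinearMap) (g := 0) (by
    intro m
    simp only [LinearMap.comp_apply, AlgHom.toLinearMap_apply, rgt_single, LinearMap.zero_apply]
    unfold nu
    rw [lin_single]
    have e1 : Rl (FreeMonoid.toList (1 : FreeMonoid ι)) = 0 := rfl
    simp only [e1, zero_mul, smul_zero]) u
  exact h

theorem ep_rgt (u : T ι) : ep (rgt ι u) = u := by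
  have h := ext1 (f := ep ∘ₗ (rgt ι).toLinearMap) (g := LinearMap.id) (by
    intro m
    simp only [LinearMap.comp_apply, AlgHom.toLinearMap_apply, rgt_single, LinearMap.id_apply]
    unfold ep
    rw [lin_single, if_pos rfl, one_smul]) u
  exact h

theorem ep_lft (u : T ι) : ep (lft ι u) = single 1 (u.coeff 1) := by
  classical
  induction u using MonoidAlgebra.induction_linear with
  | zero =>
    rw [map_zero, map_zero, MonoidAlgebra.coeff_zero, Finsupp.zero_apply]
    exact (MonoidAlgebra.single_zero 1).symm
  | add x y hx hy =>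
    rw [map_add, map_add, hx, hy, MonoidAlgebra.coeff_add, Finsupp.add_apply,
      MonoidAlgebra.single_add]
  | single m r =>
    rw [lft_single]
    unfold ep
    rw [lin_single, MonoidAlgebra.coeff_single]
    by_cases h : m = 1
    · subst h
      rw [if_pos rfl, Finsupp.single_eq_same, ← single_smul']
    · rw [if_neg h, smul_zero, Finsupp.single_eq_of_ne (Ne.symm h)]
      exact (MonoidAlgebra.single_zero 1).symm

/-! ### `J N` -/

theorem JN (f : T ι) : J (N f) = f - single 1 (f.coeff 1) := by
  classical
  induction f using MonoidAlgebra.induction_linear with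
  | zero =>
    rw [map_zero, map_zero, MonoidAlgebra.coeff_zero, Finsupp.zero_apply,
      MonoidAlgebra.single_zero, sub_zero]
  | add x y hx hy =>
    rw [map_add, map_add, hx, hy, MonoidAlgebra.coeff_add, Finsupp.add_apply,
      MonoidAlgebra.single_add]
    abel
  | single m r =>
    have h1 : J (N (single m r)) = r • ((FreeMonoid.toList m).length : ℝ) •
        ((FreeMonoid.toList m).length : ℝ)⁻¹ • (single m 1 : T ι) := by
      unfold N J
      rw [lin_single, map_smul, map_smul, lin_single, one_smul]
    rw [h1, MonoidAlgebra.coeff_single]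
    by_cases h : m = 1
    · subst h
      rw [Finsupp.single_eq_same, sub_self]
      simp
    · have h2 : ((FreeMonoid.toList m).length : ℝ) ≠ 0 := by
        rw [Nat.cast_ne_zero]
        intro h3
        apply h
        apply FreeMonoid.toList.injective
        exact List.length_eq_zero_iff.1 h3
      rw [smul_smul _ _ (single m 1 : T ι), mul_inv_cancel₀ h2, one_smul, ← single_smul',
        Finsupp.single_eq_of_ne (Ne.symm h), MonoidAlgebra.single_zero, sub_zero]

theorem N_coeff (f : T ι) : (N f).coeff 1 = 0 := by
  classical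
  induction f using MonoidAlgebra.induction_linear with
  | zero => rw [map_zero, MonoidAlgebra.coeff_zero, Finsupp.zero_apply]
  | add x y hx hy =>
    rw [map_add, MonoidAlgebra.coeff_add, Finsupp.add_apply, hx, hy, add_zero]
  | single m r =>
    unfold N
    rw [lin_single, MonoidAlgebra.coeff_smul, MonoidAlgebra.coeff_smul, MonoidAlgebra.coeff_single,
      Finsupp.smul_apply, Finsupp.smul_apply]
    by_cases h : m = 1
    · subst h
      simp
    · rw [Finsupp.single_eq_of_ne (Ne.symm h), smul_zero, smul_zero]

theorem N_mul (a b : T ι) : N (a * b) = N a * b + a * N b := by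
  have h := ext1 (f := N ∘ₗ LinearMap.mulRight ℝ b)
    (g := LinearMap.mulRight ℝ b ∘ₗ N + LinearMap.mulRight ℝ (N b)) (by
    intro m
    have h2 := ext1 (f := N ∘ₗ LinearMap.mulLeft ℝ (single m 1))
      (g := LinearMap.mulLeft ℝ (N (single m 1)) + LinearMap.mulLeft ℝ (single m 1) ∘ₗ N) (by
      intro m'
      simp only [LinearMap.comp_apply, LinearMap.add_apply, LinearMap.mulLeft_apply,
        MonoidAlgebra.single_mul_single, mul_one]
      unfold N
      rw [lin_single, lin_single, lin_single, one_smul, one_smul, one_smul, smul_mul_assoc,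
        mul_smul_comm, MonoidAlgebra.single_mul_single, mul_one, ← add_smul,
        FreeMonoid.toList_mul, List.length_append]
      push_cast
      rfl) b
    exact h2) a
  exact h

theorem N_Rl (l : List ι) : N (Rl l) = (l.length : ℝ) • Rl l := by
  induction l with
  | nil => simp [Rl]
  | cons i l ih =>
    have hX : N (X i : T ι) = X i := by
      unfold N X
      rw [lin_single, one_smul, FreeMonoid.toList_of]
      simp
    rcases eq_or_ne l [] with h | h
    · subst h
      have e2 : Rl [i] = X i := rfl
      rw [e2, hX]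
      simp
    · rw [Rl_cons i l h]
      unfold br
      rw [map_sub, N_mul, N_mul, hX, ih, mul_smul_comm, smul_mul_assoc, List.length_cons]
      push_cast
      rw [add_smul, one_smul, smul_sub]
      abel

theorem J_Rl (l : List ι) : J (Rl l) = (l.length : ℝ)⁻¹ • Rl l := by
  rcases eq_or_ne l [] with h | h
  · subst h
    simp [Rl]
  · have h2 : (l.length : ℝ) ≠ 0 := by
      rw [Nat.cast_ne_zero]
      exact fun h3 => h (List.length_eq_zero_iff.1 h3)
    have h3 := N_coeff (Rl l)
    rw [N_Rl, MonoidAlgebra.coeff_smul, Finsupp.smul_apply, smul_eq_mul] at h3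
    have h4 : (Rl l : T ι).coeff 1 = 0 := (mul_eq_zero.1 h3).resolve_left h2
    have h5 := JN (Rl l)
    rw [h4, MonoidAlgebra.single_zero, sub_zero, N_Rl, map_smul] at h5
    rw [← h5, smul_smul, h5, inv_mul_cancel₀ h2, one_smul]

theorem JR (f : T ι) : J (R f) = R (J f) := by
  have h := ext1 (f := J ∘ₗ R) (g := R ∘ₗ J) (by
    intro m
    simp only [LinearMap.comp_apply]
    have e1 : R (single m 1 : T ι) = Rl (FreeMonoid.toList m) := by
      unfold R
      rw [lin_single, one_smul]
    have e2 : J (single m 1 : T ι) = ((FreeMonoid.toList m).length : ℝ)⁻¹ • single m 1 := by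
      unfold J
      rw [lin_single, one_smul]
    rw [e1, e2, map_smul, e1, J_Rl]) f
  exact h

/-! ### primitive elements -/

theorem lr_comm (a b : T ι) : lft ι a * rgt ι b = rgt ι b * lft ι a := by
  have h := ext1 (f := LinearMap.mulRight ℝ (rgt ι b) ∘ₗ (lft ι).toLinearMap)
    (g := LinearMap.mulLeft ℝ (rgt ι b) ∘ₗ (lft ι).toLinearMap) (by
    intro m
    have h2 := ext1 (f := LinearMap.mulLeft ℝ (lft ι (single m 1)) ∘ₗ (rgt ι).toLinearMap)
      (g := LinearMap.mulRight ℝ (lft ι (single m 1)) ∘ₗ (rgt ι).toLinearMap) (by
      intro m'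
      simp only [LinearMap.comp_apply, LinearMap.mulLeft_apply, LinearMap.mulRight_apply,
        AlgHom.toLinearMap_apply, lft_single, rgt_single, MonoidAlgebra.single_mul_single,
        Prod.mk_mul_mk, one_mul, mul_one]) b
    exact h2) a
  exact h

theorem prim_br {a b : T ι} (ha : Prim a) (hb : Prim b) : Prim (br a b) := by
  unfold Prim at *
  unfold br
  rw [map_sub, map_mul, map_mul, ha, hb, map_sub, map_sub, map_mul, map_mul, map_mul, map_mul]
  have h1 := lr_comm a b
  have h2 := lr_comm b a
  rw [add_mul, mul_add, mul_add, add_mul, mul_add, mul_add, h1, h2]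
  abel

theorem prim_X (i : ι) : Prim (X i : T ι) := by
  unfold Prim
  rw [cop_X]
  unfold X dX
  rw [lft_single, rgt_single]

theorem prim_Rl (l : List ι) : Prim (Rl l) := by
  induction l with
  | nil =>
    unfold Prim
    simp [Rl]
  | cons i l ih =>
    rcases eq_or_ne l [] with h | h
    · subst h
      exact prim_X i
    · rw [Rl_cons i l h]
      exact prim_br (prim_X i) ih

end TFRI

open TFRI in
/-- **Friedrichs' theorem.** -/
theorem t_FRI : S_FRI := by
  intro ι V hX hbr u hu
  have hRl : ∀ l : List ι, Rl l ∈ V := by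
    intro l
    induction l with
    | nil => exact V.zero_mem
    | cons i l ih =>
      rcases eq_or_ne l [] with h | h
      · subst h
        exact hX i
      · rw [Rl_cons i l h]
        exact hbr i _ ih (prim_Rl l)
  have hR : ∀ f : T ι, R f ∈ V := by
    intro f
    induction f using MonoidAlgebra.induction_linear with
    | zero => rw [map_zero]; exact V.zero_mem
    | add x y hx hy => rw [map_add]; exact V.add_mem hx hy
    | single m r =>
      unfold R
      rw [lin_single]
      exact V.smul_mem _ (hRl _)
  -- the Dynkin operator on a primitive element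
  have h1 : R u = N u := by
    have h2 := nu_cop u
    rw [hu, map_add, nu_lft, nu_rgt, add_zero] at h2
    exact h2
  have h3 : (MonoidAlgebra.single (1 : FreeMonoid ι) (u.coeff 1) : T ι) = 0 := by
    have h4 := ep_cop u
    rw [hu, map_add, ep_lft, ep_rgt] at h4
    exact add_eq_right.1 h4
  have h5 := JN u
  rw [h3, sub_zero, ← h1, JR] at h5
  rw [← h5]
  exact hR _

end Pool.Agent.H32CE

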