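import Mathlib
import Pool.Agent.H32CE.Defs
import Pool.Agent.H32CE.St

set_option autoImplicit false

/-!
# MP_76db9d_al: the lattice of leading terms
-/

namespace Pool.Agent.H32CE

open PowerSeries

namespace TGEN

/-- the word of a vector of letters -/
def wv {r k : ℕ} (v : Fin k → Fin r) : FreeMonoid (Fin r) := FreeMonoid.ofList (List.ofFn v)

theorem wd_one {r : ℕ} (m : FreeMonoid (Fin r)) :
    wd (fun _ => 1) m = (FreeMonoid.toList m).length := by
  unfold wd
  rw [List.map_const', List.sum_replicate]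
  simp

theorem exists_wv {r k : ℕ} (m : FreeMonoid (Fin r)) (h : wd (fun _ => 1) m = k) :
    ∃ v : Fin k → Fin r, m = wv v := by
  rw [wd_one] at h
  subst h
  refine ⟨fun i => (FreeMonoid.toList m).get i, ?_⟩
  unfold wv
  rw [List.ofFn_get]
  rfl

/-- a homogeneous element is determined by the coefficients of the words `wv v` -/
theorem eq_zero_of {r k : ℕ} (f : T (Fin r)) (hf : IsH (fun _ => 1) k f)
    (h : ∀ v : Fin k → Fin r, f.coeff (wv v) = 0) : f = 0 := by
  ext m
  by_contra hne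
  have hne' : f.coeff m ≠ 0 := by
    intro h0
    apply hne
    rw [h0]
    rfl
  obtain ⟨v, rfl⟩ := exists_wv m (hf m hne')
  exact hne' (h v)

/-- coefficient map -/
noncomputable def Φ (r k : ℕ) : T (Fin r) →ₗ[ℝ] ((Fin k → Fin r) → ℝ) where
  toFun f v := f.coeff (wv v)
  map_add' f g := by
    funext v
    simp
  map_smul' c f := by
    funext v
    simp

/-- integer vectors independent over the integers are independent over the reals -/
theorem indep {N : Type} {n : ℕ} (b : Fin n → N → ℤ) (hb : LinearIndependent ℤ b) :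
    LinearIndependent ℝ (fun i => fun v => ((b i v : ℤ) : ℝ)) := by
  -- over the rationals
  have hq : LinearIndependent ℤ (fun i => fun v => ((b i v : ℤ) : ℚ)) := by
    rw [Fintype.linearIndependent_iff] at hb ⊢
    intro g hg
    apply hb g
    funext v
    have := congrFun hg v
    simp only [Finset.sum_apply, Pi.smul_apply, Pi.zero_apply] at this ⊢
    simp only [zsmul_eq_mul] at this ⊢
    push_cast
    exact_mod_cast this
  have hq' : LinearIndependent ℚ (fun i => fun v => ((b i v : ℤ) : ℚ)) :=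
    (LinearIndependent.iff_fractionRing ℤ ℚ).1 hq
  rw [Fintype.linearIndependent_iff] at hq' ⊢
  intro c hc
  let B := Module.Basis.ofVectorSpace ℚ ℝ
  have key : ∀ s, ∀ i, B.repr (c i) s = 0 := by
    intro s
    apply hq'
    funext v
    have h1 := congrFun hc v
    simp only [Finset.sum_apply, Pi.smul_apply, Pi.zero_apply, smul_eq_mul] at h1 ⊢
    have h2 : B.repr (∑ i, c i * ((b i v : ℤ) : ℝ)) s = 0 := by
      rw [h1]; simp
    rw [map_sum, Finsupp.finsetSum_apply] at h2
    rw [← h2]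
    apply Finset.sum_congr rfl
    intro i _
    have h3 : c i * ((b i v : ℤ) : ℝ) = ((b i v : ℤ) : ℚ) • c i := by
      rw [Rat.smul_def]
      push_cast
      ring
    rw [h3, map_smul, Finsupp.smul_apply, smul_eq_mul, mul_comm]
  intro i
  have : B.repr (c i) = 0 := by
    ext s
    exact key s i
  exact B.repr.map_eq_zero_iff.1 this

theorem coeff_le_nm {ι : Type} (f : T ι) (m : FreeMonoid ι) : |f.coeff m| ≤ nm f := by
  unfold nm Finsupp.sum
  by_cases h : f.coeff m = 0
  · rw [h, abs_zero]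
    exact Finset.sum_nonneg fun _ _ => abs_nonneg _
  · exact Finset.single_le_sum (f := fun m => |f.coeff m|) (fun _ _ => abs_nonneg _)
      (Finsupp.mem_support_iff.2 h)

theorem D_one {ι : Type} (k : ℕ) : D k (1 : FreeGroup ι) := by
  intro i hi _
  unfold cf mag
  rw [map_one, Units.val_one, PowerSeries.coeff_one, if_neg (by omega)]

theorem cf_one {ι : Type} (k : ℕ) (hk : 1 ≤ k) : cf k (1 : FreeGroup ι) = 0 := by
  unfold cf mag
  rw [map_one, Units.val_one, PowerSeries.coeff_one, if_neg (by omega)]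

/-- the lattice of integer vectors of coefficients, multiplied by `k!` -/
def Lat (hB : S_BAS) (r k : ℕ) (hk : 1 ≤ k) : AddSubgroup ((Fin k → Fin r) → ℤ) where
  carrier := {z | ∃ x : FreeGroup (Fin r), D k x ∧
    ∀ v, (k.factorial : ℝ) * (cf k x).coeff (wv v) = z v}
  zero_mem' := ⟨1, D_one k, by
    intro v
    rw [cf_one k hk]
    simp⟩
  add_mem' := by
    rintro z z' ⟨x, hx, hz⟩ ⟨x', hx', hz'⟩
    refine ⟨x * x', (hB (Fin r)).2.2.1 k x x' hx hx', ?_⟩
    intro v
    rw [(hB (Fin r)).2.2.2.2.2.1 k k x x' hx hx' k hk (by omega)]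
    have h1 := hz v
    have h2 := hz' v
    simp only [MonoidAlgebra.coeff_add, Finsupp.add_apply, Pi.add_apply]
    push_cast
    rw [mul_add, h1, h2]
  neg_mem' := by
    rintro z ⟨x, hx, hz⟩
    refine ⟨x⁻¹, (hB (Fin r)).2.2.2.1 k x hx, ?_⟩
    intro v
    rw [(hB (Fin r)).2.2.2.2.2.2.1 k x hx k hk (by omega)]
    have h1 := hz v
    simp only [MonoidAlgebra.coeff_neg, Finsupp.neg_apply, Pi.neg_apply]
    push_cast
    rw [mul_neg, h1]

end TGEN

open TGEN in
theorem t_GEN (hB : S_BAS) (hI : S_INT) : S_GEN := by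
  intro r k hk
  have hfac : (k.factorial : ℝ) ≠ 0 := by positivity
  set L : Submodule ℤ ((Fin k → Fin r) → ℤ) := (Lat hB r k hk).toIntSubmodule with hLdef
  obtain ⟨n, ⟨bs⟩⟩ : ∃ n : ℕ, Nonempty (Module.Basis (Fin n) ℤ L) :=
    ⟨_, ⟨Module.finBasis ℤ L⟩⟩
  have hmem : ∀ i, ∃ x : FreeGroup (Fin r), D k x ∧
    ∀ v, (k.factorial : ℝ) * (cf k x).coeff (wv v) = ((bs i : (Fin k → Fin r) → ℤ) v : ℝ) :=
    fun i => (bs i).2
  choose e he hev using hmem
  have hind0 : LinearIndependent ℤ (fun i => (bs i : (Fin k → Fin r) → ℤ)) := by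
    have := bs.linearIndependent
    exact this.map' L.subtype (Submodule.ker_subtype _)
  have hind1 := indep _ hind0
  have hΦ : ∀ i, Φ r k (cf k (e i)) =
      (k.factorial : ℝ)⁻¹ • (fun v => (((bs i : (Fin k → Fin r) → ℤ) v : ℤ) : ℝ)) := by
    intro i
    funext v
    show (cf k (e i)).coeff (wv v) = (k.factorial : ℝ)⁻¹ *
      (((bs i : (Fin k → Fin r) → ℤ) v : ℤ) : ℝ)
    rw [← hev i v, ← mul_assoc, inv_mul_cancel₀ hfac, one_mul]
  have hind2 : LinearIndependent ℝ (fun i => Φ r k (cf k (e i))) := by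
    have h := hind1.units_smul (fun _ => Units.mk0 ((k.factorial : ℝ)⁻¹) (inv_ne_zero hfac))
    convert h using 1
    funext i
    rw [hΦ i]
    rfl
  have hind3 : LinearIndependent ℝ (fun i => cf k (e i)) :=
    LinearIndependent.of_comp (Φ r k) hind2
  -- the bound
  let A : (Fin n → ℝ) →ₗ[ℝ] ((Fin k → Fin r) → ℝ) :=
    Fintype.linearCombination ℝ (fun i => Φ r k (cf k (e i)))
  have hA : LinearMap.ker A = ⊥ := by
    rw [LinearMap.ker_eq_bot']
    intro m hm
    rw [Fintype.linearIndependent_iff] at hind2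
    funext i
    exact hind2 m (by simpa [A, Fintype.linearCombination_apply] using hm) i
  obtain ⟨K, hK, hlip⟩ := LinearMap.exists_antilipschitzWith A hA
  have hbound : ∀ m : Fin n → ℝ, ‖m‖ ≤ K * ‖A m‖ := by
    intro m
    have := hlip.le_mul_dist m 0
    rwa [map_zero, dist_zero_right, dist_zero_right] at this
  refine ⟨n, ⌈(K : ℝ)⌉₊, e, he, hind3, ?_⟩
  intro x hx
  have hzx : ∃ z : (Fin k → Fin r) → ℤ, ∀ v, (k.factorial : ℝ) * (cf k x).coeff (wv v) = z v := by
    choose z hz using fun v : Fin k → Fin r => hI (Fin r) k x (wv v)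
    exact ⟨z, hz⟩
  obtain ⟨z, hz⟩ := hzx
  have hzL : z ∈ L := ⟨x, hx, hz⟩
  have hrep := bs.sum_repr ⟨z, hzL⟩
  have hrep' : ∀ v, ∑ i, (bs.repr ⟨z, hzL⟩ i) * ((bs i : (Fin k → Fin r) → ℤ) v) = z v := by
    intro v
    have h1 := congrArg (fun y => L.subtype y v) hrep
    simp only [map_sum, map_smul, Submodule.subtype_apply, Finset.sum_apply, Pi.smul_apply,
      smul_eq_mul] at h1
    exact h1
  have heq : cf k x = ∑ i, ((bs.repr ⟨z, hzL⟩ i : ℤ) : ℝ) • cf k (e i) := by
    have hH : ∀ y : FreeGroup (Fin r), IsH (fun _ => 1) k (cf k y) :=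
      (hB (Fin r)).2.2.2.2.2.2.2.2.2.1 k
    have hsub : cf k x - ∑ i, ((bs.repr ⟨z, hzL⟩ i : ℤ) : ℝ) • cf k (e i) = 0 := by
      apply eq_zero_of (k := k)
      · intro m hm
        by_contra hne
        apply hm
        have h1 : (cf k x).coeff m = 0 := by
          by_contra h
          exact hne (hH x m h)
        have h2 : ∀ i, (cf k (e i)).coeff m = 0 := by
          intro i
          by_contra h
          exact hne (hH (e i) m h)
        simp [h1, h2, MonoidAlgebra.coeff_sum, Finsupp.finsetSum_apply]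
      · intro v
        have h1 : (cf k x - ∑ i, ((bs.repr ⟨z, hzL⟩ i : ℤ) : ℝ) • cf k (e i)).coeff (wv v) =
            (cf k x).coeff (wv v) -
              ∑ i, ((bs.repr ⟨z, hzL⟩ i : ℤ) : ℝ) * (cf k (e i)).coeff (wv v) := by
          simp [MonoidAlgebra.coeff_sum, Finsupp.finsetSum_apply]
        rw [h1]
        apply mul_left_cancel₀ hfac
        rw [mul_zero, mul_sub, hz v, ← hrep' v, Finset.mul_sum]
        push_cast
        rw [← Finset.sum_sub_distrib]
        apply Finset.sum_eq_zero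
        intro i _
        rw [← hev i v]
        ring
    exact sub_eq_zero.1 hsub
  refine ⟨fun i => bs.repr ⟨z, hzL⟩ i, heq, ?_⟩
  intro i
  have h1 : |((bs.repr ⟨z, hzL⟩ i : ℤ) : ℝ)| ≤
      ‖(fun i => ((bs.repr ⟨z, hzL⟩ i : ℤ) : ℝ) : Fin n → ℝ)‖ :=
    norm_le_pi_norm (fun i => ((bs.repr ⟨z, hzL⟩ i : ℤ) : ℝ) : Fin n → ℝ) i
  have h2 := hbound (fun i => ((bs.repr ⟨z, hzL⟩ i : ℤ) : ℝ))
  have h3 : A (fun i => ((bs.repr ⟨z, hzL⟩ i : ℤ) : ℝ)) = Φ r k (cf k x) := by
    rw [heq, map_sum]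
    simp only [map_smul]
    rw [Fintype.linearCombination_apply]
  have h4 : ‖Φ r k (cf k x)‖ ≤ nm (cf k x) := by
    rw [pi_norm_le_iff_of_nonneg]
    · intro v
      exact coeff_le_nm _ _
    · exact (abs_nonneg _).trans (coeff_le_nm _ 1)
  have h5 : (K : ℝ) ≤ (⌈(K : ℝ)⌉₊ : ℝ) := Nat.le_ceil _
  rw [h3] at h2
  calc |((bs.repr ⟨z, hzL⟩ i : ℤ) : ℝ)| ≤ K * ‖Φ r k (cf k x)‖ := h1.trans h2
    _ ≤ (⌈(K : ℝ)⌉₊ : ℝ) * nm (cf k x) := by
        apply mul_le_mul h5 h4 (norm_nonneg _) (Nat.cast_nonneg _)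

end Pool.Agent.H32CE
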