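import Mathlib
import Pool.Agent.H32CE.St

set_option autoImplicit false

/-!
# MP_76db9d_al: generators of `D k` modulo `D (c + 1)`
-/

namespace Pool.Agent.H32CE

open PowerSeries

namespace TGENP

theorem cf_one {ι : Type} (i : ℕ) (hi : 1 ≤ i) : cf i (1 : FreeGroup ι) = 0 := by
  unfold cf mag
  rw [map_one, Units.val_one, PowerSeries.coeff_one, if_neg (by omega)]

theorem D_one {ι : Type} (k : ℕ) : D k (1 : FreeGroup ι) := fun i h1 _ => cf_one i h1

theorem D_mono {ι : Type} {k l : ℕ} (h : k ≤ l) {x : FreeGroup ι} (hx : D l x) : D k x :=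
  fun i h1 h2 => hx i h1 (lt_of_lt_of_le h2 h)

theorem pow_nat (hB : S_BAS) {ι : Type} {k : ℕ} (hk : 1 ≤ k) {x : FreeGroup ι} (hx : D k x)
    (m : ℕ) : D k (x ^ m) ∧ cf k (x ^ m) = (m : ℝ) • cf k x := by
  obtain ⟨b1, b2, b3, b4, b5, b6, b7, b8, b9, b10, b11⟩ := hB ι
  induction m with
  | zero =>
    rw [pow_zero, Nat.cast_zero, zero_smul]
    exact ⟨D_one k, cf_one k hk⟩
  | succ m ih =>
    rw [pow_succ]
    refine ⟨b3 k _ _ ih.1 hx, ?_⟩
    rw [b6 k k _ _ ih.1 hx k hk (by omega), ih.2, Nat.cast_succ, add_smul, one_smul]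

theorem pow_int (hB : S_BAS) {ι : Type} {k : ℕ} (hk : 1 ≤ k) {x : FreeGroup ι} (hx : D k x)
    (m : ℤ) : D k (x ^ m) ∧ cf k (x ^ m) = (m : ℝ) • cf k x := by
  obtain ⟨b1, b2, b3, b4, b5, b6, b7, b8, b9, b10, b11⟩ := hB ι
  cases m with
  | ofNat m =>
    have h := pow_nat hB hk hx m
    rw [Int.ofNat_eq_natCast, zpow_natCast, Int.cast_natCast]
    exact h
  | negSucc m =>
    have h := pow_nat hB hk hx (m + 1)
    rw [zpow_negSucc]
    refine ⟨b4 k _ h.1, ?_⟩
    rw [b7 k _ h.1 k hk (by omega), h.2, Int.cast_negSucc, neg_smul]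

theorem prod_list (hB : S_BAS) {ι : Type} {k : ℕ} (hk : 1 ≤ k) (l : List (FreeGroup ι))
    (hl : ∀ x ∈ l, D k x) : D k l.prod ∧ cf k l.prod = (l.map (cf k)).sum := by
  obtain ⟨b1, b2, b3, b4, b5, b6, b7, b8, b9, b10, b11⟩ := hB ι
  induction l with
  | nil => exact ⟨D_one k, cf_one k hk⟩
  | cons a l ih =>
    have h1 := ih (fun x hx => hl x (List.mem_cons_of_mem _ hx))
    have h2 := hl a List.mem_cons_self
    rw [List.prod_cons, List.map_cons, List.sum_cons]
    refine ⟨b3 k _ _ h2 h1.1, ?_⟩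
    rw [b6 k k _ _ h2 h1.1 k hk (by omega), h1.2]

theorem main (hG : S_GEN) (hB : S_BAS) (r c : ℕ) : ∀ (j k : ℕ), 1 ≤ k → c + 1 ≤ k + j →
    ∃ (n : ℕ) (e : Fin n → FreeGroup (Fin r)), (∀ i, D k (e i)) ∧ ∀ x, D k x →
      ∃ m : Fin n → ℤ, D (c + 1) (((List.ofFn fun i => e i ^ m i).prod)⁻¹ * x) := by
  intro j
  induction j with
  | zero =>
    intro k hk hc
    refine ⟨0, Fin.elim0, fun i => i.elim0, fun x hx => ⟨Fin.elim0, ?_⟩⟩
    rw [List.ofFn_zero, List.prod_nil, inv_one, one_mul]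
    exact D_mono (by omega) hx
  | succ j ih =>
    intro k hk hc
    obtain ⟨n1, C, e1, he1, -, hx1⟩ := hG r k hk
    obtain ⟨n2, e2, he2, hx2⟩ := ih (k + 1) (by omega) (by omega)
    refine ⟨n1 + n2, Fin.append e1 e2, ?_, fun x hx => ?_⟩
    · intro i
      refine Fin.addCases (fun i => ?_) (fun i => ?_) i
      · rw [Fin.append_left]
        exact he1 i
      · rw [Fin.append_right]
        exact D_mono (by omega) (he2 i)
    · obtain ⟨m1, hm1, -⟩ := hx1 x hx
      obtain ⟨y, hy⟩ : ∃ y, y = (List.ofFn fun i => e1 i ^ m1 i).prod := ⟨_, rfl⟩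
      have hy1 := prod_list hB hk (List.ofFn fun i => e1 i ^ m1 i) (by
        intro z hz
        rw [List.mem_ofFn] at hz
        obtain ⟨i, rfl⟩ := hz
        exact (pow_int hB hk (he1 i) (m1 i)).1)
      rw [← hy, List.map_ofFn, List.sum_ofFn] at hy1
      have hcf : cf k y = cf k x := by
        rw [hy1.2, hm1]
        refine Finset.sum_congr rfl fun i _ => ?_
        exact (pow_int hB hk (he1 i) (m1 i)).2
      obtain ⟨b1, b2, b3, b4, b5, b6, b7, b8, b9, b10, b11⟩ := hB (Fin r)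
      have hD : D (k + 1) (y⁻¹ * x) := by
        refine (b11 k y x).1 fun i hi1 hi2 => ?_
        rcases Nat.lt_or_ge i k with h | h
        · rw [hy1.1 i hi1 h, hx i hi1 h]
        · have : i = k := by omega
          rw [this, hcf]
      obtain ⟨m2, hm2⟩ := hx2 _ hD
      refine ⟨Fin.append m1 m2, ?_⟩
      have happ : (fun i => Fin.append e1 e2 i ^ Fin.append m1 m2 i) =
          Fin.append (fun i => e1 i ^ m1 i) (fun i => e2 i ^ m2 i) := by
        funext i
        refine Fin.addCases (fun i => ?_) (fun i => ?_) i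
        · rw [Fin.append_left, Fin.append_left, Fin.append_left]
        · rw [Fin.append_right, Fin.append_right, Fin.append_right]
      rw [happ, List.ofFn_fin_append, List.prod_append, ← hy, mul_inv_rev, mul_assoc]
      exact hm2

end TGENP

theorem t_GENP (h1 : S_GEN) (h2 : S_BAS) : S_GENP := by
  intro r k c hk
  exact TGENP.main h1 h2 r c (c + 1) k hk (by omega)

end Pool.Agent.H32CE
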