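import Pool.Agent.H32CE.St
import Pool.Agent.H77R2.AssocLie

/-! Task GRL: the graded Lie ring of a group. -/

set_option autoImplicit false

namespace Pool.Agent.H32CE

namespace TGRL

open BurnLie
open scoped commutatorElement

open Classical in
/-- the class of an element -/
noncomputable def fG (G : Type) [Group G] (n : ℕ) (x : G) : AssocLie G :=
  if h : x ∈ lcs G n then mkL n ⟨x, h⟩ else 0

theorem fG_mem {G : Type} [Group G] {n : ℕ} {x : G} (h : x ∈ lcs G n) :
    fG G n x = mkL n ⟨x, h⟩ := by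
  unfold fG
  rw [dif_pos h]

theorem mkL_eq_zero {G : Type} [Group G] {n : ℕ} (g : lcs G n) :
    mkL n g = 0 ↔ (g : G) ∈ lcs G (n + 1) := by
  have h1 : mkL n g = 0 ↔ grMk n g = 0 := by
    unfold mkL
    constructor
    · intro h
      have h2 : ofL n (grMk n g) = ofL n (0 : Grd G n) := by rw [h, map_zero]
      exact DirectSum.of_injective n h2
    · intro h
      rw [h, map_zero]
  rw [h1, ← grMk_one, grMk_eq]
  constructor
  · intro h
    have := inv_mem h
    simpa using this
  · intro h
    simpa using inv_mem h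

end TGRL

open BurnLie TGRL in
theorem t_GRL : S_GRL := by
  intro G _
  refine ⟨AssocLie G, inferInstance, fG G, ?_, ?_, ?_⟩
  · intro n x hx y hy
    rw [fG_mem (n := n) (mul_mem hx hy), fG_mem hx, fG_mem hy, ← mkL_mul]
    rfl
  · intro n x hx
    rw [fG_mem hx]
    exact mkL_eq_zero ⟨x, hx⟩
  · intro m n x hx y hy
    have h1 : x * y * x⁻¹ * y⁻¹ ∈ lcs G (m + n + 1) := lcs_comm_mem hx hy
    rw [fG_mem h1, fG_mem hx, fG_mem hy]
    exact (lieHom_mkL m n ⟨x, hx⟩ ⟨y, hy⟩).symm

end Pool.Agent.H32CE
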