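import Pool.Agent.H32CE.St

set_option autoImplicit false

/-!
# Task GRP: group-like elements
-/

namespace Pool.Agent.H32CE

open PowerSeries

namespace TGRP

variable {ι : Type}

/-- the tensor square -/
abbrev B (ι : Type) := MonoidAlgebra ℝ (FreeMonoid ι × FreeMonoid ι)

/-- coproduct on power series -/
noncomputable def mc (ι : Type) : PS (T ι) →+* PS (B ι) := PowerSeries.map (cop ι : T ι →+* B ι)

/-- left inclusion on power series -/
noncomputable def ml (ι : Type) : PS (T ι) →+* PS (B ι) := PowerSeries.map (lft ι : T ι →+* B ι)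

/-- right inclusion on power series -/
noncomputable def mr (ι : Type) : PS (T ι) →+* PS (B ι) := PowerSeries.map (rgt ι : T ι →+* B ι)

theorem coeff_mc (n : ℕ) (f : PS (T ι)) : coeff n (mc ι f) = cop ι (coeff n f) := by
  simp [mc, PowerSeries.coeff_map]

theorem coeff_ml (n : ℕ) (f : PS (T ι)) : coeff n (ml ι f) = lft ι (coeff n f) := by
  simp [ml, PowerSeries.coeff_map]

theorem coeff_mr (n : ℕ) (f : PS (T ι)) : coeff n (mr ι f) = rgt ι (coeff n f) := by
  simp [mr, PowerSeries.coeff_map]

theorem lft_single (m : FreeMonoid ι) (r : ℝ) :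
    lft ι (MonoidAlgebra.single m r) = MonoidAlgebra.single (m, 1) r := by
  simp [lft]

theorem rgt_single (m : FreeMonoid ι) (r : ℝ) :
    rgt ι (MonoidAlgebra.single m r) = MonoidAlgebra.single (1, m) r := by
  simp [rgt]

theorem lr_comm (a b : T ι) : lft ι a * rgt ι b = rgt ι b * lft ι a := by
  induction a using MonoidAlgebra.induction_linear with
  | zero => simp
  | add f g hf hg => rw [map_add, add_mul, mul_add, hf, hg]
  | single m r =>
    induction b using MonoidAlgebra.induction_linear with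
    | zero => simp
    | add f g hf hg => rw [map_add, mul_add, add_mul, hf, hg]
    | single n s =>
      rw [lft_single, rgt_single, MonoidAlgebra.single_mul_single,
        MonoidAlgebra.single_mul_single]
      simp [mul_comm r s]

theorem mlr_comm (f g : PS (T ι)) : ml ι f * mr ι g = mr ι g * ml ι f := by
  ext1 n
  rw [PowerSeries.coeff_mul, PowerSeries.coeff_mul, ← Finset.Nat.sum_antidiagonal_swap]
  apply Finset.sum_congr rfl
  rintro ⟨a, b⟩ _
  simp only [Prod.fst_swap, Prod.snd_swap, coeff_ml, coeff_mr]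
  exact lr_comm _ _

theorem cop_X (i : ι) : cop ι (X i) = lft ι (X i) + rgt ι (X i) := by
  rw [X, lft_single, rgt_single, cop, MonoidAlgebra.lift_single]
  simp

theorem mc_ex (w : ℕ) (x : T ι) : mc ι (ex w x) = ex w (cop ι x) := by
  ext1 n
  rw [coeff_mc]
  simp only [ex, PowerSeries.coeff_mk]
  split_ifs
  · rw [map_smul, map_pow]
  · rw [map_zero]

theorem ml_ex (w : ℕ) (x : T ι) : ml ι (ex w x) = ex w (lft ι x) := by
  ext1 n
  rw [coeff_ml]
  simp only [ex, PowerSeries.coeff_mk]
  split_ifs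
  · rw [map_smul, map_pow]
  · rw [map_zero]

theorem mr_ex (w : ℕ) (x : T ι) : mr ι (ex w x) = ex w (rgt ι x) := by
  ext1 n
  rw [coeff_mr]
  simp only [ex, PowerSeries.coeff_mk]
  split_ifs
  · rw [map_smul, map_pow]
  · rw [map_zero]

/-- group-like -/
def Glk (f : PS (T ι)) : Prop := mc ι f = ml ι f * mr ι f

theorem Glk_one : Glk (1 : PS (T ι)) := by
  unfold Glk
  rw [map_one, map_one, map_one, one_mul]

theorem Glk_mul {f g : PS (T ι)} (hf : Glk f) (hg : Glk g) : Glk (f * g) := by
  unfold Glk at *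
  rw [map_mul, map_mul, map_mul, hf, hg]
  calc ml ι f * mr ι f * (ml ι g * mr ι g) = ml ι f * (mr ι f * ml ι g) * mr ι g := by
        simp only [mul_assoc]
    _ = ml ι f * (ml ι g * mr ι f) * mr ι g := by rw [mlr_comm g f]
    _ = _ := by simp only [mul_assoc]

theorem Glk_ex (x : T ι) (hx : cop ι x = lft ι x + rgt ι x) : Glk (ex 1 x) := by
  unfold Glk
  rw [mc_ex, ml_ex, mr_ex, hx]
  exact (ex_add 1 le_rfl _ _ (lr_comm x x)).symm

theorem mag_mul (x y : FreeGroup ι) : mag (x * y) = mag x * mag y := by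
  simp [mag]

theorem mag_one : mag (1 : FreeGroup ι) = 1 := by
  simp [mag]

theorem mag_of (i : ι) : mag (FreeGroup.of i) = ex 1 (X i) := by
  simp [mag, magU, exU]

theorem mag_of_inv (i : ι) : mag (FreeGroup.of i)⁻¹ = ex 1 (-X i) := by
  unfold mag
  rw [map_inv]
  simp only [magU, FreeGroup.lift_apply_of]
  rfl

theorem Glk_mag (x : FreeGroup ι) : Glk (mag x) := by
  induction x using FreeGroup.induction_on with
  | C1 => rw [mag_one]; exact Glk_one
  | of i =>
    rw [mag_of]; exact Glk_ex _ (cop_X i)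
  | inv_of i _ =>
    rw [mag_of_inv]
    apply Glk_ex
    rw [map_neg, map_neg, map_neg, cop_X, neg_add]
  | mul x y hx hy => rw [mag_mul]; exact Glk_mul hx hy

/-- homogeneous coefficients -/
def HC (f : PS (T ι)) : Prop := ∀ i, IsH (fun _ => 1) i (coeff i f)

theorem wd_mul (w : ι → ℕ) (m n : FreeMonoid ι) : wd w (m * n) = wd w m + wd w n := by
  simp [wd, FreeMonoid.toList_mul]

theorem IsH_mul {w : ι → ℕ} {m n : ℕ} {u v : T ι} (hu : IsH w m u) (hv : IsH w n v) :
    IsH w (m + n) (u * v) := by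
  classical
  intro x hx
  rw [MonoidAlgebra.coeff_mul] at hx
  obtain ⟨a, ha, h1⟩ := Finset.exists_ne_zero_of_sum_ne_zero hx
  obtain ⟨b, hb, h2⟩ := Finset.exists_ne_zero_of_sum_ne_zero h1
  simp only at h2
  rw [Finsupp.mem_support_iff] at ha hb
  by_cases hab : a * b = x
  · rw [← hab, wd_mul, hu a ha, hv b hb]
  · simp [hab] at h2

theorem IsH_add {w : ι → ℕ} {m : ℕ} {u v : T ι} (hu : IsH w m u) (hv : IsH w m v) :
    IsH w m (u + v) := by
  intro x hx
  by_cases h : u.coeff x = 0
  · apply hv
    intro h'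
    apply hx
    rw [MonoidAlgebra.coeff_add, Finsupp.add_apply, h, h', add_zero]
  · exact hu x h

theorem IsH_sum {κ : Type} {w : ι → ℕ} {m : ℕ} (s : Finset κ) (u : κ → T ι)
    (h : ∀ i ∈ s, IsH w m (u i)) : IsH w m (∑ i ∈ s, u i) := by
  classical
  induction s using Finset.induction_on with
  | empty => intro x hx; simp at hx
  | insert a s ha ih =>
    rw [Finset.sum_insert ha]
    exact IsH_add (h a (Finset.mem_insert_self a s))
      (ih fun i hi => h i (Finset.mem_insert_of_mem hi))

theorem HC_mul {f g : PS (T ι)} (hf : HC f) (hg : HC g) : HC (f * g) := by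
  intro i
  rw [PowerSeries.coeff_mul]
  apply IsH_sum
  rintro ⟨a, b⟩ hab
  rw [Finset.HasAntidiagonal.mem_antidiagonal] at hab
  simp only at hab ⊢
  rw [← hab]
  exact IsH_mul (hf a) (hg b)

theorem ordge_mul_left {A : Type} [Ring A] {k : ℕ} (f g : PS A) (hf : coeff 0 f = 1)
    (hg : ordge k g) : ordge k (f * g) ∧ coeff k (f * g) = coeff k g := by
  constructor
  · intro i hi
    rw [PowerSeries.coeff_mul]
    apply Finset.sum_eq_zero
    rintro ⟨a, b⟩ hab
    rw [Finset.HasAntidiagonal.mem_antidiagonal] at hab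
    simp only at hab ⊢
    rw [hg b (by omega), mul_zero]
  · rw [PowerSeries.coeff_mul, Finset.sum_eq_single (0, k)]
    · simp only
      rw [hf, one_mul]
    · rintro ⟨a, b⟩ hab hne
      rw [Finset.HasAntidiagonal.mem_antidiagonal] at hab
      simp only at hab ⊢
      rw [hg b, mul_zero]
      by_contra hb
      apply hne
      have : b = k := by omega
      rw [Prod.mk.injEq]
      constructor <;> omega
    · intro h
      exact absurd (by rw [Finset.HasAntidiagonal.mem_antidiagonal]; simp) h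

theorem ordge_mul_right {A : Type} [Ring A] {k : ℕ} (f g : PS A) (hf : coeff 0 f = 1)
    (hg : ordge k g) : ordge k (g * f) ∧ coeff k (g * f) = coeff k g := by
  constructor
  · intro i hi
    rw [PowerSeries.coeff_mul]
    apply Finset.sum_eq_zero
    rintro ⟨a, b⟩ hab
    rw [Finset.HasAntidiagonal.mem_antidiagonal] at hab
    simp only at hab ⊢
    rw [hg a (by omega), zero_mul]
  · rw [PowerSeries.coeff_mul, Finset.sum_eq_single (k, 0)]
    · simp only
      rw [hf, mul_one]
    · rintro ⟨a, b⟩ hab hne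
      rw [Finset.HasAntidiagonal.mem_antidiagonal] at hab
      simp only at hab ⊢
      rw [hg a, zero_mul]
      by_contra hb
      apply hne
      have : a = k := by omega
      rw [Prod.mk.injEq]
      constructor <;> omega
    · intro h
      exact absurd (by rw [Finset.HasAntidiagonal.mem_antidiagonal]; simp) h

theorem conj_prim (G H ε : PS (T ι)) (hG : Glk G) (hH : Glk H) (hGH : G * H = 1)
    (hε : mc ι ε = ml ι ε + mr ι ε) :
    mc ι (G * ε * H) = ml ι (G * ε * H) + mr ι (G * ε * H) := by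
  have hG' : mc ι G = ml ι G * mr ι G := hG
  have hH' : mc ι H = ml ι H * mr ι H := hH
  have h1 : ml ι G * ml ι H = 1 := by rw [← map_mul, hGH, map_one]
  have h2 : mr ι G * mr ι H = 1 := by rw [← map_mul, hGH, map_one]
  simp only [map_mul]
  rw [hG', hH', hε]
  have e1 : ml ι G * mr ι G * ml ι ε * (ml ι H * mr ι H) = ml ι G * ml ι ε * ml ι H := by
    calc ml ι G * mr ι G * ml ι ε * (ml ι H * mr ι H)
        = ml ι G * (mr ι G * ml ι ε) * (ml ι H * mr ι H) := by simp only [mul_assoc]
      _ = ml ι G * (ml ι ε * mr ι G) * (ml ι H * mr ι H) := by rw [mlr_comm ε G]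
      _ = ml ι G * ml ι ε * (mr ι G * ml ι H) * mr ι H := by simp only [mul_assoc]
      _ = ml ι G * ml ι ε * (ml ι H * mr ι G) * mr ι H := by rw [mlr_comm H G]
      _ = ml ι G * ml ι ε * ml ι H * (mr ι G * mr ι H) := by simp only [mul_assoc]
      _ = _ := by rw [h2, mul_one]
  have e2 : ml ι G * mr ι G * mr ι ε * (ml ι H * mr ι H) = mr ι G * mr ι ε * mr ι H := by
    calc ml ι G * mr ι G * mr ι ε * (ml ι H * mr ι H)
        = ml ι G * (mr ι G * (mr ι ε * ml ι H)) * mr ι H := by simp only [mul_assoc]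
      _ = ml ι G * (mr ι G * (ml ι H * mr ι ε)) * mr ι H := by rw [mlr_comm H ε]
      _ = ml ι G * ((mr ι G * ml ι H) * mr ι ε) * mr ι H := by simp only [mul_assoc]
      _ = ml ι G * ((ml ι H * mr ι G) * mr ι ε) * mr ι H := by rw [mlr_comm H G]
      _ = (ml ι G * ml ι H) * (mr ι G * mr ι ε * mr ι H) := by simp only [mul_assoc]
      _ = _ := by rw [h1, one_mul]
  rw [← e1, ← e2]
  simp only [mul_add, add_mul]

end TGRP

open TGRP in
theorem t_GRP (hB : S_BAS) : S_GRP := by
  intro ι
  obtain ⟨b1, b2, b3, b4, b5, b6, b7, b8, b9, b10, b11⟩ := hB ι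
  constructor
  · intro k x hx i hi hik
    refine ⟨b10 i x, ?_⟩
    have hG : mc ι (mag x) = ml ι (mag x) * mr ι (mag x) := Glk_mag x
    have h := congrArg (coeff i) hG
    rw [coeff_mc, PowerSeries.coeff_mul] at h
    change cop ι (cf i x) = _ at h
    unfold Prim
    rw [h]
    have h0 : cf 0 x = 1 := b1 x
    rw [← Finset.sum_subset (s₁ := {(i, 0), (0, i)})]
    · rw [Finset.sum_pair]
      · simp only [coeff_ml, coeff_mr]
        change lft ι (cf i x) * rgt ι (cf 0 x) + lft ι (cf 0 x) * rgt ι (cf i x) = _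
        rw [h0, map_one, map_one, mul_one, one_mul]
      · intro h'
        rw [Prod.mk.injEq] at h'
        omega
    · intro p hp
      simp only [Finset.mem_insert, Finset.mem_singleton] at hp
      rw [Finset.HasAntidiagonal.mem_antidiagonal]
      rcases hp with rfl | rfl <;> simp
    · rintro ⟨a, b⟩ hab hn
      rw [Finset.HasAntidiagonal.mem_antidiagonal] at hab
      simp only [Finset.mem_insert, Finset.mem_singleton, Prod.mk.injEq, not_or] at hn
      simp only at hab ⊢
      rw [coeff_ml, coeff_mr]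
      change lft ι (cf a x) * rgt ι (cf b x) = 0
      by_cases ha : a < k
      · rw [hx a (by omega) ha, map_zero, zero_mul]
      · rw [hx b (by omega) (by omega), map_zero, mul_zero]
  · intro k x ε hε hk
    have hinv : mag x * mag x⁻¹ = 1 := by
      rw [← b2, mul_inv_cancel, mag_one]
    have h1 : mc ι ε = ml ι ε + mr ι ε := by
      ext1 n
      rw [map_add, coeff_mc, coeff_ml, coeff_mr]
      exact (hε n).2
    have h2 := conj_prim (mag x) (mag x⁻¹) ε (Glk_mag x) (Glk_mag x⁻¹) hinv h1
    refine ⟨fun i => ⟨?_, ?_⟩, ?_, ?_⟩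
    · have hm : HC (mag x) := fun i => b10 i x
      have hm' : HC (mag x⁻¹) := fun i => b10 i x⁻¹
      have hε' : HC ε := fun i => (hε i).1
      exact HC_mul (HC_mul hm hε') hm' i
    · have h3 := congrArg (coeff i) h2
      rw [map_add, coeff_mc, coeff_ml, coeff_mr] at h3
      exact h3
    · exact (ordge_mul_right _ _ (b1 x⁻¹) (ordge_mul_left _ _ (b1 x) hk).1).1
    · rw [(ordge_mul_right _ _ (b1 x⁻¹) (ordge_mul_left _ _ (b1 x) hk).1).2,
        (ordge_mul_left _ _ (b1 x) hk).2]

end Pool.Agent.H32CE
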