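import Mathlib
import Pool.Agent.H32CE.St

set_option autoImplicit false

/-! Task H1: the first level. -/

namespace Pool.Agent.H32CE

open PowerSeries

namespace TH1

variable {r : ℕ}

/-! ### lengths -/

lemma len_mul (x y : FreeGroup (Fin r)) : len (x * y) ≤ len x + len y := FreeGroup.norm_mul_le x y

lemma len_one : len (1 : FreeGroup (Fin r)) = 0 := FreeGroup.norm_one

lemma len_inv (x : FreeGroup (Fin r)) : len x⁻¹ = len x := FreeGroup.norm_inv_eq

lemma len_pow (x : FreeGroup (Fin r)) (n : ℕ) : len (x ^ n) ≤ n * len x := by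
  induction n with
  | zero => simp [len_one]
  | succ n ih =>
    rw [pow_succ]
    refine le_trans (len_mul _ _) ?_
    rw [Nat.succ_mul]
    omega

lemma len_zpow (x : FreeGroup (Fin r)) (m : ℤ) : len (x ^ m) ≤ m.natAbs * len x := by
  rcases Int.natAbs_eq m with h | h
  · rw [h, zpow_natCast, Int.natAbs_natCast]
    exact len_pow x _
  · rw [h, zpow_neg, zpow_natCast, len_inv, Int.natAbs_neg, Int.natAbs_natCast]
    exact len_pow x _

lemma len_ofFn {n : ℕ} (e : Fin n → FreeGroup (Fin r)) (m : Fin n → ℤ) :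
    len ((List.ofFn fun i => e i ^ m i).prod) ≤ ∑ i, (m i).natAbs * len (e i) := by
  induction n with
  | zero => simp [len_one]
  | succ n ih =>
    rw [List.ofFn_succ, List.prod_cons, Fin.sum_univ_succ]
    refine le_trans (len_mul _ _) ?_
    exact Nat.add_le_add (len_zpow _ _) (ih (fun i => e i.succ) fun i => m i.succ)

/-! ### leading terms of products -/

lemma cf_one (i : ℕ) (hi : 1 ≤ i) : cf i (1 : FreeGroup (Fin r)) = 0 := by
  unfold cf mag
  rw [map_one, Units.val_one, PowerSeries.coeff_one, if_neg (by omega)]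

lemma D_one (k : ℕ) : D k (1 : FreeGroup (Fin r)) := fun i hi _ => cf_one i hi

lemma zpow_lead (hB : S_BAS) {p : ℕ} (hp : 1 ≤ p) {x : FreeGroup (Fin r)} (hx : D p x) (m : ℤ) :
    D p (x ^ m) ∧ cf p (x ^ m) = (m : ℝ) • cf p x := by
  obtain ⟨-, -, b3, b4, -, b6, b7, -⟩ := hB (Fin r)
  induction m using Int.induction_on with
  | zero => exact ⟨by rw [zpow_zero]; exact D_one p, by rw [zpow_zero, cf_one p hp]; simp⟩
  | succ m ih =>
    rw [zpow_add_one]
    refine ⟨b3 p _ _ ih.1 hx, ?_⟩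
    rw [b6 p p _ _ ih.1 hx p hp (by omega), ih.2]
    push_cast
    module
  | pred m ih =>
    rw [zpow_sub_one]
    refine ⟨b3 p _ _ ih.1 (b4 p _ hx), ?_⟩
    rw [b6 p p _ _ ih.1 (b4 p _ hx) p hp (by omega), ih.2, b7 p x hx p hp (by omega)]
    push_cast
    module

lemma ofFn_lead (hB : S_BAS) {p : ℕ} (hp : 1 ≤ p) {n : ℕ} (e : Fin n → FreeGroup (Fin r))
    (he : ∀ i, D p (e i)) (m : Fin n → ℤ) :
    D p ((List.ofFn fun i => e i ^ m i).prod) ∧
      cf p ((List.ofFn fun i => e i ^ m i).prod) = ∑ i, (m i : ℝ) • cf p (e i) := by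
  obtain ⟨-, -, b3, -, -, b6, -, -⟩ := hB (Fin r)
  induction n with
  | zero => simpa using ⟨D_one p, cf_one p hp⟩
  | succ n ih =>
    obtain ⟨h1, h2⟩ := ih (fun i => e i.succ) (fun i => he i.succ) fun i => m i.succ
    obtain ⟨h3, h4⟩ := zpow_lead hB hp (he 0) (m 0)
    rw [List.ofFn_succ, List.prod_cons, Fin.sum_univ_succ]
    refine ⟨b3 p _ _ h3 h1, ?_⟩
    rw [b6 p p _ _ h3 h1 p hp (by omega), h4, h2]

/-! ### integrality -/

lemma coeff_big (hI : S_INT) (k : ℕ) (x : FreeGroup (Fin r)) (m : FreeMonoid (Fin r))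
    (h : (cf k x).coeff m ≠ 0) : 1 ≤ (k.factorial : ℝ) * |(cf k x).coeff m| := by
  obtain ⟨z, hz⟩ := hI (Fin r) k x m
  have hk : (0 : ℝ) < k.factorial := by exact_mod_cast k.factorial_pos
  have h1 : (k.factorial : ℝ) * |(cf k x).coeff m| = |(z : ℝ)| := by
    rw [← hz, abs_mul, abs_of_pos hk]
  have h2 : z ≠ 0 := by
    rintro rfl
    rw [Int.cast_zero] at hz
    rcases mul_eq_zero.1 hz with h3 | h3
    · exact hk.ne' h3
    · exact h h3
  rw [h1]
  exact_mod_cast Int.one_le_abs h2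

lemma exists_coeff (hN : S_NM) {f : T (Fin r)} (hf : f ≠ 0) : ∃ m, f.coeff m ≠ 0 := by
  by_contra hcon
  push Not at hcon
  obtain ⟨-, -, -, -, h5, -, -⟩ := hN (Fin r) f f 0
  apply hf
  apply h5
  unfold nm Finsupp.sum
  refine Finset.sum_eq_zero fun m _ => ?_
  show |f.coeff m| = 0
  rw [hcon m, abs_zero]

lemma nm_big (hN : S_NM) (hI : S_INT) (k : ℕ) (x : FreeGroup (Fin r)) (h : cf k x ≠ 0) :
    1 ≤ (k.factorial : ℝ) * nm (cf k x) := by
  obtain ⟨m, hm⟩ := exists_coeff hN h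
  have h1 := coeff_big hI k x m hm
  obtain ⟨-, -, -, -, -, h6, -⟩ := hN (Fin r) (cf k x) (cf k x) 0
  exact le_trans h1 (mul_le_mul_of_nonneg_left (h6 m) (Nat.cast_nonneg _))

lemma nm_le_ip (hI : S_INT) (k : ℕ) (x : FreeGroup (Fin r)) :
    nm (cf k x) ≤ (k.factorial : ℝ) * ip (cf k x) (cf k x) := by
  unfold nm ip Finsupp.sum
  rw [Finset.mul_sum]
  refine Finset.sum_le_sum fun m hm => ?_
  have h1 := coeff_big hI k x m (Finsupp.mem_support_iff.1 hm)
  have h2 : (cf k x).coeff m * (cf k x).coeff m = |(cf k x).coeff m| * |(cf k x).coeff m| :=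
    (abs_mul_abs_self _).symm
  show |(cf k x).coeff m| ≤ (k.factorial : ℝ) * ((cf k x).coeff m * (cf k x).coeff m)
  rw [h2]
  nlinarith [abs_nonneg ((cf k x).coeff m)]

lemma ip_nonneg (f : T (Fin r)) : 0 ≤ ip f f := by
  unfold ip Finsupp.sum
  exact Finset.sum_nonneg fun m _ => mul_self_nonneg _

lemma ip_big (hN : S_NM) (hI : S_INT) (k : ℕ) (x : FreeGroup (Fin r)) (h : cf k x ≠ 0) :
    1 ≤ (k.factorial : ℝ) ^ 2 * ip (cf k x) (cf k x) := by
  have h1 := nm_big hN hI k x h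
  have h2 := nm_le_ip hI k x
  have hk : (0 : ℝ) ≤ k.factorial := Nat.cast_nonneg _
  calc (1 : ℝ) ≤ (k.factorial : ℝ) * nm (cf k x) := h1
    _ ≤ (k.factorial : ℝ) * ((k.factorial : ℝ) * ip (cf k x) (cf k x)) :=
        mul_le_mul_of_nonneg_left h2 hk
    _ = (k.factorial : ℝ) ^ 2 * ip (cf k x) (cf k x) := by ring

/-! ### from the leading term to a short element -/

lemma short (hB : S_BAS) (hG : S_GEN) (r p : ℕ) (hp : 1 ≤ p) : ∃ W : ℕ,
    ∀ x : FreeGroup (Fin r), D p x → ∃ x₀ : FreeGroup (Fin r), D (p + 1) (x₀⁻¹ * x) ∧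
      (len x₀ : ℝ) ≤ W * nm (cf p x) := by
  obtain ⟨n, C, e, he, -, hm⟩ := hG r p hp
  refine ⟨C * ∑ i, len (e i), fun x hx => ?_⟩
  obtain ⟨m, h1, h2⟩ := hm x hx
  obtain ⟨h3, h4⟩ := ofFn_lead hB hp e he m
  refine ⟨(List.ofFn fun i => e i ^ m i).prod, ?_, ?_⟩
  · obtain ⟨-, -, -, -, -, -, -, -, -, -, b11⟩ := hB (Fin r)
    refine (b11 p _ _).1 fun i hi1 hip => ?_
    rcases Nat.lt_or_ge i p with h | h
    · rw [h3 i hi1 h, hx i hi1 h]
    · have : i = p := le_antisymm hip h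
      rw [this, h4, h1]
  · have h5 := len_ofFn e m
    have h6 : (len ((List.ofFn fun i => e i ^ m i).prod) : ℝ) ≤
        ∑ i, |(m i : ℝ)| * (len (e i) : ℝ) := by
      have h7 : (len ((List.ofFn fun i => e i ^ m i).prod) : ℝ) ≤
          ((∑ i, (m i).natAbs * len (e i) : ℕ) : ℝ) := by exact_mod_cast h5
      refine le_trans h7 (le_of_eq ?_)
      push_cast
      refine Finset.sum_congr rfl fun i _ => ?_
      rw [Nat.cast_natAbs, Int.cast_abs]
    refine le_trans h6 ?_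
    have h8 : ∑ i, |(m i : ℝ)| * (len (e i) : ℝ) ≤ ∑ i, (C * nm (cf p x)) * (len (e i) : ℝ) :=
      Finset.sum_le_sum fun i _ => mul_le_mul_of_nonneg_right (h2 i) (Nat.cast_nonneg _)
    refine le_trans h8 (le_of_eq ?_)
    rw [← Finset.mul_sum]
    push_cast
    ring

/-- bounds for the leading terms -/
lemma lead_bound (hB : S_BAS) (hG : S_GRP) (hI : S_INT) (hS : S_SIZ) (hC : S_COMP)
    (hCE : S_COMPE) (hR : S_RED) (hN : S_NM) (r c p q : ℕ) (hp : 1 ≤ p) (hq : 1 ≤ q)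
    (hpq : p + q ≤ c) : ∃ (K : ℝ) (F : ℕ), 0 ≤ K ∧ ∀ g x y : FreeGroup (Fin r), Typed p q x y →
      Sol c g x y → ∃ x' y', Typed p q x' y' ∧ Sol c g x' y' ∧
        nm (cf p x') ≤ K * ((len g : ℝ) + 1) ^ F ∧ nm (cf q y') ≤ K * ((len g : ℝ) + 1) ^ F := by
  obtain ⟨Cs, hCs⟩ := hS r (p + q)
  have hkey : ∀ g x y : FreeGroup (Fin r), Typed p q x y → Sol c g x y →
      nm (br (cf p x) (cf q y)) ≤ Cs * ((len g : ℝ) + 1) ^ (p + q) := by
    rintro g x y ⟨hx, hy, -⟩ hsol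
    obtain ⟨-, -, -, -, -, -, -, -, b9, -, b11⟩ := hB (Fin r)
    have h1 := (b9 p q x y hp hq hx hy).2
    have h2 := (b11 c g (cm x y)).2 hsol (p + q) (by omega) hpq
    rw [← h1, ← h2]
    exact hCs g
  have hne : ∀ x y : FreeGroup (Fin r), Typed p q x y → cf p x ≠ 0 ∧ cf q y ≠ 0 := by
    rintro x y ⟨-, -, h⟩
    refine ⟨fun h0 => h ?_, fun h0 => h ?_⟩
    · rw [h0]
      simp [br]
    · rw [h0]
      simp [br]
  have hPH : ∀ x y : FreeGroup (Fin r), Typed p q x y → PH p (cf p x) ∧ PH q (cf q y) := by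
    rintro x y ⟨hx, hy, -⟩
    obtain ⟨g1, -⟩ := hG (Fin r)
    exact ⟨g1 p x hx p hp (by omega), g1 q y hy q hq (by omega)⟩
  have hnm0 : ∀ f : T (Fin r), 0 ≤ nm f := fun f => (hN (Fin r) f f 0).2.2.2.1
  by_cases hpe : p = q
  · subst hpe
    obtain ⟨c₀, hc₀, hCE'⟩ := hCE r p hp
    set P : ℝ := (p.factorial : ℝ) with hP
    have hP0 : 0 < P := by
      rw [hP]
      exact_mod_cast p.factorial_pos
    refine ⟨4 / 3 * P ^ 3 * Cs ^ 2 / c₀, 2 * (p + p), by positivity, ?_⟩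
    intro g x y hT hsol
    obtain ⟨x', y', hcm, hT', hr1, hr2⟩ := hR r p x y hp hT
    have hsol' : Sol c g x' y' := by
      unfold Sol
      rw [hcm]
      exact hsol
    refine ⟨x', y', hT', hsol', ?_⟩
    obtain ⟨ha, hb⟩ := hne x' y' hT'
    obtain ⟨hPa, hPb⟩ := hPH x' y' hT'
    have hQ := hkey g x' y' hT' hsol'
    have hE := hCE' _ _ hPa hPb
    set a := cf p x' with hadef
    set b := cf p y' with hbdef
    set L : ℝ := (len g : ℝ) + 1 with hL
    have hL0 : 0 < L := by positivity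
    have hia := ip_nonneg a
    have hib := ip_nonneg b
    have hba := ip_big hN hI p x' ha
    have hbb := ip_big hN hI p y' hb
    have hna := nm_le_ip hI p x'
    have hnb := nm_le_ip hI p y'
    rw [← hadef, ← hP] at hba hna
    rw [← hbdef, ← hP] at hbb hnb
    have hab : ip a b ^ 2 ≤ ip a a * ip b b / 4 := by
      have h1 : |ip a b| * |ip a b| ≤ (ip a a / 2) * (ip b b / 2) :=
        mul_le_mul (by linarith) (by linarith) (abs_nonneg _) (by linarith)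
      rw [abs_mul_abs_self] at h1
      nlinarith
    have hQ2 : nm (br a b) ^ 2 ≤ (Cs * L ^ (p + p)) ^ 2 := pow_le_pow_left₀ (hnm0 _) hQ 2
    have hprod : c₀ * (3 / 4) * (ip a a * ip b b) ≤ Cs ^ 2 * L ^ (2 * (p + p)) := by
      have h1 : c₀ * (3 / 4 * (ip a a * ip b b)) ≤ c₀ * (ip a a * ip b b - ip a b ^ 2) :=
        mul_le_mul_of_nonneg_left (by linarith) hc₀.le
      have h2 : (Cs * L ^ (p + p)) ^ 2 = (Cs : ℝ) ^ 2 * L ^ (2 * (p + p)) := by
        rw [mul_pow, ← pow_mul, mul_comm (p + p) 2]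
      rw [← h2]
      linarith
    have hfin : ∀ s t : ℝ, 0 ≤ s → 1 ≤ P ^ 2 * t → c₀ * (3 / 4) * (s * t) ≤
        Cs ^ 2 * L ^ (2 * (p + p)) →
        P * s ≤ 4 / 3 * P ^ 3 * Cs ^ 2 / c₀ * L ^ (2 * (p + p)) := by
      intro s t hs ht hst
      have h1 : P * s ≤ P * s * (P ^ 2 * t) := le_mul_of_one_le_right (by positivity) ht
      have h2 : P * s * (P ^ 2 * t) = 4 / 3 * P ^ 3 / c₀ * (c₀ * (3 / 4) * (s * t)) := by
        field_simp
      have h3 : 4 / 3 * P ^ 3 / c₀ * (c₀ * (3 / 4) * (s * t)) ≤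
          4 / 3 * P ^ 3 / c₀ * (Cs ^ 2 * L ^ (2 * (p + p))) :=
        mul_le_mul_of_nonneg_left hst (by positivity)
      calc P * s ≤ P * s * (P ^ 2 * t) := h1
        _ = 4 / 3 * P ^ 3 / c₀ * (c₀ * (3 / 4) * (s * t)) := h2
        _ ≤ 4 / 3 * P ^ 3 / c₀ * (Cs ^ 2 * L ^ (2 * (p + p))) := h3
        _ = 4 / 3 * P ^ 3 * Cs ^ 2 / c₀ * L ^ (2 * (p + p)) := by ring
    refine ⟨le_trans hna (hfin _ _ hia hbb hprod), le_trans hnb (hfin _ _ hib hba ?_)⟩
    rw [mul_comm (ip b b)]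
    exact hprod
  · obtain ⟨c₀, hc₀, hC'⟩ := hC r p q hp hq hpe
    refine ⟨((p.factorial : ℝ) + q.factorial) * Cs / c₀, p + q, by positivity, ?_⟩
    intro g x y hT hsol
    refine ⟨x, y, hT, hsol, ?_⟩
    obtain ⟨ha, hb⟩ := hne x y hT
    obtain ⟨hPa, hPb⟩ := hPH x y hT
    have hQ := hkey g x y hT hsol
    have hE := le_trans (hC' _ _ hPa hPb) hQ
    have hna := nm_big hN hI p x ha
    have hnb := nm_big hN hI q y hb
    set s := nm (cf p x) with hs
    set t := nm (cf q y) with ht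
    have hs0 : 0 ≤ s := hnm0 _
    have ht0 : 0 ≤ t := hnm0 _
    set L : ℝ := (len g : ℝ) + 1 with hL
    have hL0 : 0 < L := by positivity
    have hp0 : (0 : ℝ) < p.factorial := by exact_mod_cast p.factorial_pos
    have hq0 : (0 : ℝ) < q.factorial := by exact_mod_cast q.factorial_pos
    have hY : 0 ≤ (Cs : ℝ) * L ^ (p + q) := by positivity
    constructor
    · have h1 : s ≤ s * ((q.factorial : ℝ) * t) := le_mul_of_one_le_right hs0 hnb
      have h2 : s * ((q.factorial : ℝ) * t) = (q.factorial : ℝ) / c₀ * (c₀ * s * t) := by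
        field_simp
      have h3 : (q.factorial : ℝ) / c₀ * (c₀ * s * t) ≤
          (q.factorial : ℝ) / c₀ * (Cs * L ^ (p + q)) :=
        mul_le_mul_of_nonneg_left hE (by positivity)
      have h4 : 0 ≤ (p.factorial : ℝ) / c₀ * (Cs * L ^ (p + q)) := by positivity
      calc s ≤ (q.factorial : ℝ) / c₀ * (Cs * L ^ (p + q)) := by linarith
        _ ≤ (q.factorial : ℝ) / c₀ * (Cs * L ^ (p + q)) +
            (p.factorial : ℝ) / c₀ * (Cs * L ^ (p + q)) := by linarith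
        _ = ((p.factorial : ℝ) + q.factorial) * Cs / c₀ * L ^ (p + q) := by ring
    · have h1 : t ≤ t * ((p.factorial : ℝ) * s) := le_mul_of_one_le_right ht0 hna
      have h2 : t * ((p.factorial : ℝ) * s) = (p.factorial : ℝ) / c₀ * (c₀ * s * t) := by
        field_simp
      have h3 : (p.factorial : ℝ) / c₀ * (c₀ * s * t) ≤
          (p.factorial : ℝ) / c₀ * (Cs * L ^ (p + q)) :=
        mul_le_mul_of_nonneg_left hE (by positivity)
      have h4 : 0 ≤ (q.factorial : ℝ) / c₀ * (Cs * L ^ (p + q)) := by positivity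
      calc t ≤ (p.factorial : ℝ) / c₀ * (Cs * L ^ (p + q)) := by linarith
        _ ≤ (q.factorial : ℝ) / c₀ * (Cs * L ^ (p + q)) +
            (p.factorial : ℝ) / c₀ * (Cs * L ^ (p + q)) := by linarith
        _ = ((p.factorial : ℝ) + q.factorial) * Cs / c₀ * L ^ (p + q) := by ring

end TH1

open TH1 in
theorem t_H1 (hB : S_BAS) (hG : S_GRP) (hI : S_INT) (hS : S_SIZ) (hGen : S_GEN) (hC : S_COMP)
    (hCE : S_COMPE) (hR : S_RED) (hN : S_NM) : S_H1 := by
  intro r c p q hp hq hpq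
  obtain ⟨K, F, hK0, hK⟩ := lead_bound hB hG hI hS hC hCE hR hN r c p q hp hq hpq
  obtain ⟨W, hW⟩ := short hB hGen r p hp
  obtain ⟨W', hW'⟩ := short hB hGen r q hq
  refine ⟨⌈((W : ℝ) + W') * K⌉₊, F, ?_⟩
  rintro g ⟨x, y, hT, hsol⟩
  obtain ⟨x', y', hT', hsol', hx, hy⟩ := hK g x y hT hsol
  obtain ⟨x₀, hx₀, hlx⟩ := hW x' hT'.1
  obtain ⟨y₀, hy₀, hly⟩ := hW' y' hT'.2.1
  have hceil := Nat.le_ceil (((W : ℝ) + W') * K)
  have hL : (0 : ℝ) ≤ ((len g : ℝ) + 1) ^ F := by positivity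
  have hW0 : (0 : ℝ) ≤ W := Nat.cast_nonneg _
  have hW0' : (0 : ℝ) ≤ W' := Nat.cast_nonneg _
  have hmain : ∀ V : ℝ, 0 ≤ V → V ≤ (W : ℝ) + W' → ∀ s : ℝ, s ≤ K * ((len g : ℝ) + 1) ^ F →
      V * s ≤ (⌈((W : ℝ) + W') * K⌉₊ : ℝ) * ((len g : ℝ) + 1) ^ F := by
    intro V hV0 hV s hs
    calc V * s ≤ V * (K * ((len g : ℝ) + 1) ^ F) := mul_le_mul_of_nonneg_left hs hV0
      _ ≤ ((W : ℝ) + W') * (K * ((len g : ℝ) + 1) ^ F) :=
          mul_le_mul_of_nonneg_right hV (by positivity)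
      _ = (((W : ℝ) + W') * K) * ((len g : ℝ) + 1) ^ F := by ring
      _ ≤ (⌈((W : ℝ) + W') * K⌉₊ : ℝ) * ((len g : ℝ) + 1) ^ F :=
          mul_le_mul_of_nonneg_right hceil hL
  refine ⟨x', y', x₀, y₀, hT', hsol', hx₀, hy₀, ?_, ?_⟩
  · have h1 := le_trans hlx (hmain W hW0 (by linarith) _ hx)
    exact_mod_cast h1
  · have h1 := le_trans hly (hmain W' hW0' (by linarith) _ hy)
    exact_mod_cast h1

end Pool.Agent.H32CE
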