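import Pool.Agent.H32CE.St

set_option autoImplicit false

namespace Pool.Agent.H32CE

namespace TIND2

theorem br_smul_left {A : Type} [Ring A] [Algebra ℝ A] (c : ℝ) (b : A) : br (c • b) b = 0 := by
  unfold br
  rw [smul_mul_assoc, mul_smul_comm, sub_self]

theorem br_smul_right {A : Type} [Ring A] [Algebra ℝ A] (c : ℝ) (b : A) : br b (c • b) = 0 := by
  unfold br
  rw [smul_mul_assoc, mul_smul_comm, sub_self]

end TIND2

theorem t_IND2 (h1 : S_F0) (h2 : S_WA) : S_IND2 := by
  intro ι p q a b hp hq ha hb hab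
  by_contra hcon
  unfold RInd at hcon
  push Not at hcon
  obtain ⟨w, hw, hw0⟩ := hcon
  have hd : ∀ i, IsH (fun _ => 1) ((![p, q] : Fin 2 → ℕ) i) ((![a, b] : Fin 2 → T ι) i) := by
    intro i
    fin_cases i
    · exact ha.1
    · exact hb.1
  obtain ⟨i, v, hv, -, he⟩ := h2 ι 2 ![a, b] w ![p, q] hd hw hw0
  have ha0 : a ≠ 0 := by
    rintro rfl
    apply hab
    unfold br
    rw [zero_mul, mul_zero, sub_zero]
  have hb0 : b ≠ 0 := by
    rintro rfl
    apply hab
    unfold br
    rw [zero_mul, mul_zero, sub_zero]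
  rw [Fin.sum_univ_two] at he
  fin_cases i
  · have hv' : v 0 = 0 := hv
    have he' : a = a * v 0 + b * v 1 := he
    rw [hv', mul_zero, zero_add] at he'
    obtain ⟨c, hc⟩ := h1 ι q p b a (v 1) hq hb hb0 ha he'
    apply hab
    rw [hc]
    exact TIND2.br_smul_left c b
  · have hv' : v 1 = 0 := hv
    have he' : b = a * v 0 + b * v 1 := he
    rw [hv', mul_zero, add_zero] at he'
    obtain ⟨c, hc⟩ := h1 ι p q a b (v 0) hp ha ha0 hb he'
    apply hab
    rw [hc]
    exact TIND2.br_smul_right c a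

end Pool.Agent.H32CE
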