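import Pool.Agent.H32CE.St

set_option autoImplicit false

namespace Pool.Agent.H32CE

attribute [local instance 100] LieRing.ofAssociativeRing

namespace TINJ

theorem rep {A : Type} [AddCommGroup A] {I : Type} (P : I → Prop) (B : I → A) (z : A)
    (hz : z ∈ AddSubgroup.closure {b | ∃ w, P w ∧ b = B w}) :
    ∃ c : I →₀ ℤ, (∀ w ∈ c.support, P w) ∧ z = c.sum fun w n => n • B w := by
  classical
  induction hz using AddSubgroup.closure_induction with
  | mem x hx =>
    obtain ⟨w, hw, rfl⟩ := hx
    refine ⟨Finsupp.single w 1, ?_, ?_⟩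
    · intro w' hw'
      have := Finsupp.support_single_subset hw'
      rw [Finset.mem_singleton] at this
      rw [this]; exact hw
    · rw [Finsupp.sum_single_index (by simp)]
      simp
  | zero => exact ⟨0, by simp, by simp⟩
  | add x y _ _ hx hy =>
    obtain ⟨c, hc, rfl⟩ := hx
    obtain ⟨d, hd, rfl⟩ := hy
    refine ⟨c + d, ?_, ?_⟩
    · intro w hw
      rcases Finset.mem_union.1 (Finsupp.support_add hw) with h | h
      · exact hc w h
      · exact hd w h
    · rw [Finsupp.sum_add_index' (by simp) (by intro a b1 b2; rw [add_smul])]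
  | neg x _ hx =>
    obtain ⟨c, hc, rfl⟩ := hx
    refine ⟨-c, ?_, ?_⟩
    · intro w hw
      rw [Finsupp.support_neg] at hw
      exact hc w hw
    · rw [Finsupp.sum_neg_index (by simp)]
      simp [Finsupp.sum]

theorem coeff_zsmul {ι : Type} (n : ℤ) (f : T ι) (m : FreeMonoid ι) :
    (n • f).coeff m = (n : ℝ) * f.coeff m := by
  let g : T ι →+ ℝ :=
    { toFun := fun f => f.coeff m
      map_zero' := by simp
      map_add' := by intro a b; simp }
  have h : g (n • f) = n • g f := map_zsmul g n f
  have h2 : n • g f = (n : ℝ) * g f := zsmul_eq_mul _ _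
  exact h.trans h2

end TINJ

theorem t_INJ (h1 : S_LYN) : S_INJ := by
  classical
  intro r
  obtain ⟨B, hB, hcl⟩ := h1 r
  rw [injective_iff_map_eq_zero]
  intro z hz
  obtain ⟨c, hc, rfl⟩ := TINJ.rep Lyn B z (hcl z)
  by_contra hne
  have hs : c.support.Nonempty := by
    rw [Finset.nonempty_iff_ne_empty]
    intro h
    rw [Finsupp.support_eq_empty] at h
    rw [h] at hne
    simp at hne
  obtain ⟨w, hw, hmin⟩ := Finset.exists_min_image c.support id hs
  have h2 : (FreeLieAlgebra.lift ℤ (X : Fin r → T (Fin r)) (c.sum fun w n => n • B w)).coeff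
      (FreeMonoid.ofList w) = c w := by
    have e1 : ∀ s : Finset (List (Fin r)),
        (FreeLieAlgebra.lift ℤ (X : Fin r → T (Fin r)) (∑ w' ∈ s, c w' • B w')).coeff
          (FreeMonoid.ofList w) =
        ∑ w' ∈ s, (c w' : ℝ) * (FreeLieAlgebra.lift ℤ (X : Fin r → T (Fin r)) (B w')).coeff
          (FreeMonoid.ofList w) := by
      intro s
      induction s using Finset.induction_on with
      | empty => simp
      | insert a s ha ih =>
        rw [Finset.sum_insert ha, Finset.sum_insert ha, map_add, ← ih, map_zsmul,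
          ← TINJ.coeff_zsmul]
        simp only [MonoidAlgebra.coeff_add, Finsupp.add_apply]
    rw [Finsupp.sum, e1, Finset.sum_eq_single w]
    · rw [(hB w (hc w hw)).1, mul_one]
    · intro w' hw' hne'
      by_contra hcon
      have h5 := ((hB w' (hc w' hw')).2 (FreeMonoid.ofList w) (right_ne_zero_of_mul hcon)).2
      have h6 := hmin w' hw'
      simp only [id] at h6
      exact hne' (le_antisymm h5 h6)
    · intro h
      exact absurd hw h
  rw [hz] at h2
  have h3 : c w ≠ 0 := Finsupp.mem_support_iff.1 hw
  apply h3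
  have h4 : ((c w : ℤ) : ℝ) = 0 := by rw [← h2]; rfl
  exact_mod_cast h4

end Pool.Agent.H32CE
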