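import Mathlib
import Pool.Agent.H32CE.St

/-!
Project CE, task INT: integrality of the coefficients of the exponential Magnus expansion.
-/

set_option autoImplicit false

namespace Pool.Agent.H32CE

namespace TINT

/-- elements with integral coefficients -/
noncomputable def R0 (ι : Type) : Subring (T ι) :=
  (MonoidAlgebra.mapRingHom (FreeMonoid ι) (Int.castRingHom ℝ)).range

theorem R0_coeff {ι : Type} {f : T ι} (hf : f ∈ R0 ι) (m : FreeMonoid ι) :
    ∃ z : ℤ, f.coeff m = z := by
  obtain ⟨F, rfl⟩ := hf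
  exact ⟨F.coeff m, by simp⟩

theorem R0_X {ι : Type} (i : ι) : X i ∈ R0 ι :=
  ⟨MonoidAlgebra.single (FreeMonoid.of i) 1, by simp [X]⟩

/-- series such that `k!` times the `k`-th coefficient is integral -/
def Q {ι : Type} (f : PS (T ι)) : Prop := ∀ k : ℕ, k.factorial • PowerSeries.coeff k f ∈ R0 ι

theorem Q_one {ι : Type} : Q (1 : PS (T ι)) := by
  intro k
  apply nsmul_mem
  rw [PowerSeries.coeff_one]
  split_ifs
  · exact one_mem _
  · exact zero_mem _

theorem Q_mul {ι : Type} {f g : PS (T ι)} (hf : Q f) (hg : Q g) : Q (f * g) := by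
  intro k
  rw [PowerSeries.coeff_mul, Finset.smul_sum]
  apply sum_mem
  rintro ⟨a, b⟩ hab
  rw [Finset.HasAntidiagonal.mem_antidiagonal] at hab
  have h1 : k.factorial = (a + b).choose a * (a.factorial * b.factorial) := by
    rw [← hab]
    have := Nat.add_choose_mul_factorial_mul_factorial a b
    rw [← Nat.choose_symm_add] at this
    rw [← this]; ring
  have h2 : k.factorial • (PowerSeries.coeff a f * PowerSeries.coeff b g) =
      (a + b).choose a • ((a.factorial • PowerSeries.coeff a f) *
        (b.factorial • PowerSeries.coeff b g)) := by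
    rw [h1, mul_smul, smul_mul_smul_comm]
  show k.factorial • (PowerSeries.coeff a f * PowerSeries.coeff b g) ∈ R0 ι
  rw [h2]
  exact nsmul_mem (mul_mem (hf a) (hg b)) _

theorem Q_ex {ι : Type} {y : T ι} (hy : y ∈ R0 ι) : Q (ex 1 y) := by
  intro k
  rw [ex, PowerSeries.coeff_mk, if_pos (one_dvd k), Nat.div_one]
  have h1 : (k.factorial : ℝ) ≠ 0 := by positivity
  rw [← Nat.cast_smul_eq_nsmul ℝ, smul_smul, mul_inv_cancel₀ h1, one_smul]
  exact pow_mem hy k

theorem Q_mag {ι : Type} (x : FreeGroup ι) : Q (mag x) := by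
  induction x using FreeGroup.induction_on with
  | C1 =>
    have : mag (1 : FreeGroup ι) = 1 := by unfold mag; rw [map_one]; rfl
    rw [this]; exact Q_one
  | of i =>
    have : mag (FreeGroup.of i) = ex 1 (X i) := by
      unfold mag magU; rw [FreeGroup.lift_apply_of]; rfl
    rw [this]; exact Q_ex (R0_X i)
  | inv_of i _ =>
    have : mag (FreeGroup.of i)⁻¹ = ex 1 (-X i) := by
      unfold mag magU; rw [map_inv, FreeGroup.lift_apply_of]; rfl
    rw [this]; exact Q_ex (neg_mem (R0_X i))
  | mul x y hx hy =>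
    have : mag (x * y) = mag x * mag y := by unfold mag; rw [map_mul]; rfl
    rw [this]; exact Q_mul hx hy

end TINT

theorem t_INT : S_INT := by
  intro ι k x m
  obtain ⟨z, hz⟩ := TINT.R0_coeff (TINT.Q_mag x k) m
  refine ⟨z, ?_⟩
  rw [← hz]
  show (k.factorial : ℝ) * (cf k x).coeff m = (k.factorial • cf k x).coeff m
  rw [← Nat.cast_smul_eq_nsmul ℝ]
  rfl

end Pool.Agent.H32CE
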