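import Pool.Agent.H32CE.St

set_option autoImplicit false

namespace Pool.Agent.H32CE

open PowerSeries

namespace TKB

/-- the kernel vector attached to a column `l` -/
def vv {N K r : ℕ} (M : Matrix (Fin N) (Fin K) ℤ) (I : Fin r → Fin N) (J : Fin r → Fin K)
    (l : Fin K) (k : Fin K) : ℤ :=
  ∑ s : Fin (r + 1), if (Fin.cons l J : Fin (r + 1) → Fin K) s = k then
    (-1) ^ (s : ℕ) * (M.submatrix I ((Fin.cons l J : Fin (r + 1) → Fin K) ∘ s.succAbove)).det else 0

theorem det_bd {N K r B : ℕ} (M : Matrix (Fin N) (Fin K) ℤ) (hM : ∀ i k, |M i k| ≤ B)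
    (I : Fin r → Fin N) (J : Fin r → Fin K) :
    |(M.submatrix I J).det| ≤ (r.factorial : ℤ) * (B : ℤ) ^ r := by
  have h := Matrix.det_le (A := M.submatrix I J) (abv := (AbsoluteValue.abs : AbsoluteValue ℤ ℤ))
    (x := (B : ℤ)) (fun i j => hM _ _)
  simpa using h

theorem vv_bd {N K r B : ℕ} (M : Matrix (Fin N) (Fin K) ℤ) (hM : ∀ i k, |M i k| ≤ B)
    (I : Fin r → Fin N) (J : Fin r → Fin K) (l k : Fin K) :
    |vv M I J l k| ≤ ((r : ℤ) + 1) * ((r.factorial : ℤ) * (B : ℤ) ^ r) := by
  unfold vv
  refine (Finset.abs_sum_le_sum_abs _ _).trans ?_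
  have h : ∀ s ∈ (Finset.univ : Finset (Fin (r + 1))),
      |if (Fin.cons l J : Fin (r + 1) → Fin K) s = k then
        (-1) ^ (s : ℕ) * (M.submatrix I ((Fin.cons l J : Fin (r + 1) → Fin K) ∘ s.succAbove)).det
        else 0| ≤ (r.factorial : ℤ) * (B : ℤ) ^ r := by
    intro s _
    split_ifs
    · rw [abs_mul, abs_pow, abs_neg, abs_one, one_pow, one_mul]
      exact det_bd M hM I _
    · rw [abs_zero]; positivity
  refine (Finset.sum_le_card_nsmul _ _ _ h).trans ?_
  simp

theorem vv_ker {N K r : ℕ} (M : Matrix (Fin N) (Fin K) ℤ) (I : Fin r → Fin N)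
    (J : Fin r → Fin K) (l : Fin K) (i : Fin N)
    (hz : (M.submatrix (Fin.cons i I : Fin (r + 1) → Fin N)
      (Fin.cons l J : Fin (r + 1) → Fin K)).det = 0) :
    ∑ k, M i k * vv M I J l k = 0 := by
  rw [Matrix.det_succ_row_zero] at hz
  rw [← hz]
  unfold vv
  simp only [Finset.mul_sum]
  rw [Finset.sum_comm]
  refine Finset.sum_congr rfl fun s _ => ?_
  simp only [mul_ite, mul_zero, Finset.sum_ite_eq, Finset.mem_univ, if_true]
  have : (M.submatrix (Fin.cons i I : Fin (r + 1) → Fin N)
      (Fin.cons l J : Fin (r + 1) → Fin K)).submatrix Fin.succ s.succAbove =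
      M.submatrix I ((Fin.cons l J : Fin (r + 1) → Fin K) ∘ s.succAbove) := by
    ext a b
    simp
  rw [this]
  simp only [Matrix.submatrix_apply, Fin.cons_zero]
  ring

theorem vv_off {N K r : ℕ} (M : Matrix (Fin N) (Fin K) ℤ) (I : Fin r → Fin N)
    (J : Fin r → Fin K) (l k : Fin K) (hk : ∀ s, J s ≠ k) :
    vv M I J l k = if l = k then (M.submatrix I J).det else 0 := by
  unfold vv
  rw [Fin.sum_univ_succ]
  have h0 : ∀ s : Fin r, (if (Fin.cons l J : Fin (r + 1) → Fin K) s.succ = k then
    (-1) ^ ((s.succ : Fin (r + 1)) : ℕ) *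
      (M.submatrix I ((Fin.cons l J : Fin (r + 1) → Fin K) ∘ s.succ.succAbove)).det else 0) = 0 := by
    intro s
    rw [if_neg]
    simpa using hk s
  rw [Finset.sum_congr rfl (fun s _ => h0 s), Finset.sum_const_zero, add_zero]
  simp

end TKB

open TKB in
theorem t_KB : S_KB := by
  intro N K
  refine ⟨(K + 1) * K.factorial, K, ?_⟩
  intro B M hB hM
  classical
  let P : ℕ → Prop := fun r => ∃ (I : Fin r → Fin N) (J : Fin r → Fin K),
    (M.submatrix I J).det ≠ 0
  have hP0 : P 0 := ⟨Fin.elim0, Fin.elim0, by simp⟩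
  have hinj : ∀ (r : ℕ) (I : Fin r → Fin N) (J : Fin r → Fin K), (M.submatrix I J).det ≠ 0 →
      Function.Injective J := by
    intro r I J h a b hab
    by_contra hne
    exact h (Matrix.det_zero_of_column_eq hne (fun i => by simp [hab]))
  have hPK : ∀ r, P r → r ≤ K := by
    rintro r ⟨I, J, h⟩
    simpa using Fintype.card_le_of_injective J (hinj r I J h)
  obtain ⟨r, hr, hmax⟩ : ∃ r, P r ∧ ∀ s, P s → s ≤ r :=
    ⟨Nat.findGreatest P K, Nat.findGreatest_spec (Nat.zero_le K) hP0,
      fun s hs => Nat.le_findGreatest (hPK s hs) hs⟩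
  have hrK := hPK r hr
  obtain ⟨I, J, hd⟩ := hr
  have hJ := hinj r I J hd
  have hz : ∀ i l, (M.submatrix (Fin.cons i I : Fin (r + 1) → Fin N)
      (Fin.cons l J : Fin (r + 1) → Fin K)).det = 0 := by
    intro i l
    by_contra h
    have := hmax (r + 1) ⟨_, _, h⟩
    omega
  refine ⟨fun l => if l ∈ Set.range J then 0 else vv M I J l, ?_, ?_, ?_⟩
  · intro l k
    have hb : (0:ℤ) ≤ ((((K + 1) * K.factorial : ℕ)) : ℤ) * (B : ℤ) ^ K := by positivity
    beta_reduce
    split_ifs
    · simpa using hb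
    · refine (vv_bd M hM I J l k).trans ?_
      have h1 : (r.factorial : ℤ) ≤ (K.factorial : ℤ) := by
        exact_mod_cast Nat.factorial_le hrK
      have h2 : (B : ℤ) ^ r ≤ (B : ℤ) ^ K := pow_le_pow_right₀ (by exact_mod_cast hB) hrK
      have h3 : (r : ℤ) + 1 ≤ (K : ℤ) + 1 := by exact_mod_cast Nat.succ_le_succ hrK
      push_cast
      rw [mul_assoc]
      gcongr
  · intro l i
    beta_reduce
    split_ifs
    · simp
    · exact vv_ker M I J l i (hz i l)
  · intro z hMz
    set d : ℝ := (((M.submatrix I J).det : ℤ) : ℝ) with hdd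
    have hd0 : d ≠ 0 := by
      rw [hdd]
      exact_mod_cast hd
    refine ⟨fun l => z l / d, ?_⟩
    set z' : Fin K → ℝ := fun k => z k -
      ∑ l, z l / d * (((if l ∈ Set.range J then (0 : Fin K → ℤ) else vv M I J l) k : ℤ) : ℝ)
      with hz'
    have hz'0 : ∀ k, k ∉ Set.range J → z' k = 0 := by
      intro k hk
      have hk' : ∀ s, J s ≠ k := fun s hs => hk ⟨s, hs⟩
      have e : ∀ l, z l / d *
          (((if l ∈ Set.range J then (0 : Fin K → ℤ) else vv M I J l) k : ℤ) : ℝ) =
          if l = k then z k else 0 := by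
        intro l
        by_cases hl : l ∈ Set.range J
        · have hlk : l ≠ k := fun h => hk (h ▸ hl)
          simp [hl, hlk]
        · rw [if_neg hl, vv_off M I J l k hk']
          by_cases hlk : l = k
          · subst hlk
            simp only [if_true]
            rw [← hdd]
            field_simp
          · simp [hlk]
      simp only [hz']
      rw [Finset.sum_congr rfl (fun l _ => e l)]
      simp
    have hMz' : ∀ i, ∑ k, (M i k : ℝ) * z' k = 0 := by
      intro i
      simp only [hz', mul_sub, Finset.sum_sub_distrib, hMz i, zero_sub, neg_eq_zero,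
        Finset.mul_sum]
      rw [Finset.sum_comm]
      refine Finset.sum_eq_zero fun l _ => ?_
      by_cases hl : l ∈ Set.range J
      · simp [hl]
      · simp only [hl, if_false]
        have h := vv_ker M I J l i (hz i l)
        have h' : ∑ k, (M i k : ℝ) * ((vv M I J l k : ℤ) : ℝ) = 0 := by exact_mod_cast h
        calc ∑ k, (M i k : ℝ) * (z l / d * ((vv M I J l k : ℤ) : ℝ))
            = z l / d * ∑ k, (M i k : ℝ) * ((vv M I J l k : ℤ) : ℝ) := by
              rw [Finset.mul_sum]
              refine Finset.sum_congr rfl fun k _ => by ring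
          _ = 0 := by rw [h', mul_zero]
    have hJz : ∀ i, ∑ s, (M i (J s) : ℝ) * z' (J s) = 0 := by
      intro i
      rw [← hMz' i]
      rw [← Finset.sum_image (s := Finset.univ) (g := J) (f := fun k => (M i k : ℝ) * z' k)
        (fun a _ b _ h => hJ h)]
      refine Finset.sum_subset (Finset.subset_univ _) fun k _ hk => ?_
      rw [hz'0 k (by
        rintro ⟨s, hs⟩
        exact hk (Finset.mem_image.2 ⟨s, Finset.mem_univ _, hs⟩)), mul_zero]
    have hw : (fun s => z' (J s)) = 0 := by
      refine Matrix.eq_zero_of_mulVec_eq_zero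
        (M := (M.submatrix I J).map (Int.cast : ℤ → ℝ)) ?_ ?_
      · have : ((M.submatrix I J).map (Int.cast : ℤ → ℝ)).det = d := by
          rw [hdd]
          exact ((Int.castRingHom ℝ).map_det (M.submatrix I J)).symm
        rw [this]
        exact hd0
      · funext i
        simpa [Matrix.mulVec, dotProduct] using hJz (I i)
    have hall : ∀ k, z' k = 0 := by
      intro k
      by_cases hk : k ∈ Set.range J
      · obtain ⟨s, rfl⟩ := hk
        exact congrFun hw s
      · exact hz'0 k hk
    intro k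
    have := hall k
    simp only [hz'] at this
    linarith

end Pool.Agent.H32CE
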