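import Pool.Agent.H32CE.St

set_option autoImplicit false

/-!
# LAT2: the lattice of weighted leading terms
-/

namespace Pool.Agent.H32CE

namespace TLAT2

/-- projection to the component of weight `m` -/
noncomputable def prj {ι : Type} (w : ι → ℕ) (m : ℕ) : T ι →ₗ[ℝ] T ι where
  toFun f := MonoidAlgebra.ofCoeff (f.coeff.filter (fun x => wd w x = m))
  map_add' f g := by
    rw [MonoidAlgebra.coeff_add, Finsupp.filter_add]
    rfl
  map_smul' c f := by
    rw [MonoidAlgebra.coeff_smul, Finsupp.filter_smul]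
    rfl

theorem prj_coeff {ι : Type} (w : ι → ℕ) (m : ℕ) (f : T ι) (x : FreeMonoid ι) :
    (prj w m f).coeff x = if wd w x = m then f.coeff x else 0 := by
  change (f.coeff.filter (fun x => wd w x = m)) x = _
  rw [Finsupp.filter_apply]

theorem prj_self {ι : Type} (w : ι → ℕ) (m : ℕ) (f : T ι) (h : IsH w m f) : prj w m f = f := by
  apply MonoidAlgebra.ext
  apply Finsupp.ext
  intro x
  rw [prj_coeff]
  split_ifs with hx
  · rfl
  · by_contra hne
    exact hx (h x (fun h0 => hne h0.symm))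

theorem prj_zero {ι : Type} (w : ι → ℕ) (m k : ℕ) (f : T ι) (h : IsH w k f) (hk : k ≠ m) :
    prj w m f = 0 := by
  apply MonoidAlgebra.ext
  apply Finsupp.ext
  intro x
  rw [prj_coeff]
  split_ifs with hx
  · by_contra hne
    have := h x hne
    omega
  · rfl

theorem len_le_wd {ι : Type} (w : ι → ℕ) (hw : ∀ i, 1 ≤ w i) (x : FreeMonoid ι) :
    (FreeMonoid.toList x).length ≤ wd w x := by
  unfold wd
  have h := List.length_le_sum_of_one_le ((FreeMonoid.toList x).map w) (by
    intro i hi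
    obtain ⟨j, -, rfl⟩ := List.mem_map.1 hi
    exact hw j)
  rwa [List.length_map] at h

theorem finite_wd {ι : Type} [Finite ι] (w : ι → ℕ) (hw : ∀ i, 1 ≤ w i) (m : ℕ) :
    {x : FreeMonoid ι | wd w x = m}.Finite := by
  have h1 : {l : List ι | l.length ≤ m}.Finite := List.finite_length_le ι m
  have h2 : (FreeMonoid.toList ⁻¹' {l : List ι | l.length ≤ m}).Finite :=
    h1.preimage (FreeMonoid.toList.injective.injOn)
  refine h2.subset ?_
  intro x hx
  have h3 := len_le_wd w hw x
  simp only [Set.mem_ofPred_eq] at hx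
  simp only [Set.mem_preimage, Set.mem_ofPred_eq]
  omega

theorem linInd_real {n : ℕ} (F : Fin n → T (Fin 2))
    (hint : ∀ i w, ∃ z : ℤ, (F i).coeff w = z) (h : LinearIndependent ℤ F) :
    LinearIndependent ℝ F := by
  choose a ha using hint
  have h' : LinearIndependent ℚ F := (LinearIndependent.iff_fractionRing ℤ ℚ).1 h
  rw [Fintype.linearIndependent_iff]
  intro r hr
  have hr' : ∀ w, ∑ i, r i * (a i w : ℝ) = 0 := by
    intro w
    have h1 := congrArg (fun f : T (Fin 2) => f.coeff w) hr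
    simp only [MonoidAlgebra.coeff_sum, MonoidAlgebra.coeff_smul, Finsupp.coe_finsetSum,
      Finset.sum_apply, MonoidAlgebra.coeff_zero, Finsupp.coe_zero, Pi.zero_apply,
      Finsupp.smul_apply, smul_eq_mul] at h1
    rw [← h1]
    exact Finset.sum_congr rfl fun i _ => by rw [ha]
  have key : ∀ φ : Module.Dual ℚ ℝ, ∀ i, φ (r i) = 0 := by
    intro φ
    apply Fintype.linearIndependent_iff.1 h' (fun i => φ (r i))
    apply MonoidAlgebra.ext
    apply Finsupp.ext
    intro w
    simp only [MonoidAlgebra.coeff_sum, MonoidAlgebra.coeff_smul, Finsupp.coe_finsetSum,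
      Finset.sum_apply, MonoidAlgebra.coeff_zero, Finsupp.coe_zero, Pi.zero_apply,
      Finsupp.smul_apply]
    have h2 : ∑ i, φ (r i) * (a i w : ℚ) = 0 := by
      have h3 : φ (∑ i, r i * (a i w : ℝ)) = 0 := by rw [hr' w, map_zero]
      rw [map_sum] at h3
      rw [← h3]
      apply Finset.sum_congr rfl
      intro i _
      have h4 : r i * (a i w : ℝ) = (a i w : ℚ) • r i := by
        rw [Rat.smul_def]
        push_cast
        ring
      rw [h4, map_smul, smul_eq_mul, mul_comm]
    have h5 : ∑ i, φ (r i) • (F i).coeff w = ((∑ i, φ (r i) * (a i w : ℚ) : ℚ) : ℝ) := by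
      push_cast
      apply Finset.sum_congr rfl
      intro i _
      rw [ha, Rat.smul_def]
    rw [h5, h2]
    simp
  intro i
  exact (Module.forall_dual_apply_eq_zero_iff ℚ (r i)).1 fun φ => key φ i

theorem intspan (w : Fin 2 → ℕ) (m : ℕ) (f : T (Fin 2)) (h : IsH w m f)
    (hint : ∀ x, ∃ z : ℤ, f.coeff x = z) :
    f ∈ Submodule.span ℤ ((fun x : FreeMonoid (Fin 2) => (MonoidAlgebra.single x 1 : T (Fin 2))) ''
      {x | wd w x = m}) := by
  rw [← MonoidAlgebra.sum_coeff_single f]
  apply Submodule.sum_mem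
  intro x hx
  obtain ⟨z, hz⟩ := hint x
  have h1 : (MonoidAlgebra.single x (f.coeff x) : T (Fin 2)) =
      z • (MonoidAlgebra.single x 1 : T (Fin 2)) := by
    rw [hz, MonoidAlgebra.smul_single]
    simp
  rw [h1]
  apply Submodule.smul_mem
  apply Submodule.subset_span
  exact ⟨x, h x (Finsupp.mem_support_iff.1 hx), rfl⟩

end TLAT2

theorem t_LAT2 (h1 : S_BAS2) (h2 : S_PRM2) (h3 : S_FRI) : S_LAT2 := by
  classical
  intro p q hp hq m hm
  obtain ⟨b1, b2, b3, b4, b5, b6, b7, b8, b9⟩ := h1 p q hp hq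
  have hcf1 : ∀ i, 1 ≤ i → cf2 p q hp hq i 1 = 0 := by
    intro i hi
    unfold cf2
    rw [map_one, Units.val_one, PowerSeries.coeff_one, if_neg (by omega)]
  have hG1 : ∀ k, G2 p q hp hq k 1 := fun k i hi _ => hcf1 i hi
  -- the lattice
  let L : AddSubgroup (T (Fin 2)) :=
    { carrier := {f | ∃ x, G2 p q hp hq m x ∧ cf2 p q hp hq m x = f}
      zero_mem' := ⟨1, hG1 m, hcf1 m hm⟩
      add_mem' := by
        rintro f g ⟨x, hx, rfl⟩ ⟨y, hy, rfl⟩
        exact ⟨x * y, (b1 m x y hx hy).1, b2 m m x y hx hy m hm (by omega)⟩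
      neg_mem' := by
        rintro f ⟨x, hx, rfl⟩
        exact ⟨x⁻¹, (b1 m x x hx hx).2, b3 m x hx m hm (by omega)⟩ }
  have hLmem : ∀ f, f ∈ L ↔ ∃ x, G2 p q hp hq m x ∧ cf2 p q hp hq m x = f := fun f => Iff.rfl
  let L' : Submodule ℤ (T (Fin 2)) := AddSubgroup.toIntSubmodule L
  have hL'mem : ∀ f, f ∈ L' ↔ ∃ x, G2 p q hp hq m x ∧ cf2 p q hp hq m x = f := fun f => Iff.rfl
  have hw : ∀ i : Fin 2, 1 ≤ (![p, q] : Fin 2 → ℕ) i := by
    intro i
    fin_cases i
    · exact hp
    · exact hq
  have hfin := (TLAT2.finite_wd ![p, q] hw m).image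
    (fun x : FreeMonoid (Fin 2) => (MonoidAlgebra.single x 1 : T (Fin 2)))
  have hle : L' ≤ Submodule.span ℤ
      ((fun x : FreeMonoid (Fin 2) => (MonoidAlgebra.single x 1 : T (Fin 2))) ''
      {x | wd ![p, q] x = m}) := by
    intro f hf
    obtain ⟨x, hx, rfl⟩ := (hL'mem f).1 hf
    exact TLAT2.intspan ![p, q] m _ (h2 p q hp hq m x).1 (b5 m x)
  have hN : IsNoetherian ℤ (Submodule.span ℤ
      ((fun x : FreeMonoid (Fin 2) => (MonoidAlgebra.single x 1 : T (Fin 2))) ''
      {x | wd ![p, q] x = m})) := isNoetherian_span_of_finite ℤ hfin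
  have hN' : IsNoetherian ℤ L' := isNoetherian_of_le hle
  have hF : Module.Finite ℤ L' := inferInstance
  have hTF : Module.IsTorsionFree ℤ L' := inferInstance
  have hFree : Module.Free ℤ L' := Module.free_of_finite_type_torsion_free'
  let b := Module.finBasis ℤ L'
  have hb : ∀ i, ∃ x, G2 p q hp hq m x ∧ cf2 p q hp hq m x = ((b i : L') : T (Fin 2)) :=
    fun i => (hL'mem _).1 (b i).2
  choose e he1 he2 using hb
  have hlin : LinearIndependent ℤ (fun i => cf2 p q hp hq m (e i)) := by
    have h4 : (fun i => cf2 p q hp hq m (e i)) = fun i => ((b i : L') : T (Fin 2)) := funext he2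
    rw [h4]
    exact b.linearIndependent.map' L'.subtype (Submodule.ker_subtype L')
  have hspanZ : ∀ x, G2 p q hp hq m x → ∃ z : Fin (Module.finrank ℤ L') → ℤ,
      cf2 p q hp hq m x = ∑ i, (z i : ℝ) • cf2 p q hp hq m (e i) := by
    intro x hx
    let f : L' := ⟨cf2 p q hp hq m x, (hL'mem _).2 ⟨x, hx, rfl⟩⟩
    refine ⟨fun i => b.repr f i, ?_⟩
    have h5 := congrArg (fun g : L' => (g : T (Fin 2))) (b.sum_repr f)
    simp only [Submodule.coe_sum, Submodule.coe_smul] at h5
    have h6 : (f : T (Fin 2)) = cf2 p q hp hq m x := rfl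
    rw [← h6, ← h5]
    apply Finset.sum_congr rfl
    intro i _
    rw [he2 i]
    exact (Int.cast_smul_eq_zsmul ℝ _ _).symm
  refine ⟨_, e, he1, TLAT2.linInd_real _ (fun i w => b5 m (e i) w) hlin, hspanZ, ?_⟩
  -- spanning
  intro P hP hPH
  let V : Submodule ℝ (T (Fin 2)) := Submodule.span ℝ
    {f | ∃ k x, 1 ≤ k ∧ G2 p q hp hq k x ∧ f = cf2 p q hp hq k x}
  have hPV : P ∈ V := by
    apply h3 (Fin 2) V ?_ ?_ P hP
    · intro i
      apply Submodule.subset_span
      fin_cases i
      · exact ⟨p, FreeGroup.of 0, hp, b6, b7.symm⟩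
      · exact ⟨q, FreeGroup.of 1, hq, b8, b9.symm⟩
    · intro i u hu _
      have hstep : ∀ k x, 1 ≤ k → G2 p q hp hq k x → br (X i) (cf2 p q hp hq k x) ∈ V := by
        intro k x hk hx
        apply Submodule.subset_span
        fin_cases i
        · refine ⟨p + k, cm (FreeGroup.of 0) x, by omega, (b4 p k _ x hp hk b6 hx).1, ?_⟩
          rw [(b4 p k _ x hp hk b6 hx).2, b7]
          rfl
        · refine ⟨q + k, cm (FreeGroup.of 1) x, by omega, (b4 q k _ x hq hk b8 hx).1, ?_⟩
          rw [(b4 q k _ x hq hk b8 hx).2, b9]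
          rfl
      refine Submodule.span_induction (p := fun u _ => br (X i) u ∈ V) ?_ ?_ ?_ ?_ hu
      · rintro f ⟨k, x, hk, hx, rfl⟩
        exact hstep k x hk hx
      · have : br (X i) (0 : T (Fin 2)) = 0 := by simp [br]
        rw [this]
        exact V.zero_mem
      · intro f g _ _ hf hg
        have : br (X i) (f + g) = br (X i) f + br (X i) g := by
          simp only [br]
          noncomm_ring
        rw [this]
        exact V.add_mem hf hg
      · intro c f _ hf
        have : br (X i) (c • f) = c • br (X i) f := by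
          simp only [br, mul_smul_comm, smul_mul_assoc, smul_sub]
        rw [this]
        exact V.smul_mem c hf
  have hVm : V ≤ (Submodule.span ℝ (Set.range fun i => cf2 p q hp hq m (e i))).comap
      (TLAT2.prj ![p, q] m) := by
    apply Submodule.span_le.2
    rintro f ⟨k, x, hk, hx, rfl⟩
    rw [SetLike.mem_coe, Submodule.mem_comap]
    by_cases hkm : k = m
    · subst hkm
      rw [TLAT2.prj_self _ _ _ (h2 p q hp hq k x).1]
      obtain ⟨z, hz⟩ := hspanZ x hx
      rw [hz]
      apply Submodule.sum_mem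
      intro i _
      apply Submodule.smul_mem
      exact Submodule.subset_span ⟨i, rfl⟩
    · rw [TLAT2.prj_zero _ m k _ (h2 p q hp hq k x).1 hkm]
      exact Submodule.zero_mem _
  have hPm : P ∈ Submodule.span ℝ (Set.range fun i => cf2 p q hp hq m (e i)) := by
    have := hVm hPV
    rw [Submodule.mem_comap, TLAT2.prj_self _ _ _ hPH] at this
    exact this
  obtain ⟨z, hz⟩ := (Submodule.mem_span_range_iff_exists_fun ℝ).1 hPm
  exact ⟨z, hz.symm⟩

end Pool.Agent.H32CE
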