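import Pool.Agent.H32CE.St

set_option autoImplicit false

/-!
# MP_76db9d_al, task LB: bounded integer solutions
-/

namespace Pool.Agent.H32CE

theorem t_LB (h1 : S_RB) (h2 : S_KB) : S_LB := by
  intro N K
  obtain ⟨C1, E1, hRB⟩ := h1 N K
  obtain ⟨C2, E2, hKB⟩ := h2 N K
  refine ⟨C1 + K * C2, E1 + E2, ?_⟩
  intro B M h hB hM hh hz
  obtain ⟨z, hz⟩ := hz
  obtain ⟨d, z', hd, _, hz'b, hz'⟩ := hRB B M h hB hM hh
    ⟨fun k => (z k : ℝ), fun i => by
      have := hz i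
      rw [← this]
      push_cast
      rfl⟩
  obtain ⟨v, hvb, hv, hspan⟩ := hKB B M hB hM
  have hd0 : (0 : ℝ) < d := by exact_mod_cast hd
  have hker : ∀ i, ∑ k, (M i k : ℝ) * ((z k : ℝ) - (z' k : ℝ) / d) = 0 := by
    intro i
    have e1 : ∑ k, (M i k : ℝ) * (z k : ℝ) = (h i : ℝ) := by
      rw [← hz i]; push_cast; rfl
    have e2 : ∑ k, (M i k : ℝ) * (z' k : ℝ) = (d : ℝ) * (h i : ℝ) := by
      have := hz' i
      have h3 : ((∑ k, M i k * z' k : ℤ) : ℝ) = ((d * h i : ℤ) : ℝ) := by rw [this]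
      push_cast at h3
      exact h3
    have e3 : ∑ k, (M i k : ℝ) * ((z k : ℝ) - (z' k : ℝ) / d) =
        ∑ k, (M i k : ℝ) * (z k : ℝ) - (∑ k, (M i k : ℝ) * (z' k : ℝ)) / d := by
      rw [Finset.sum_div, ← Finset.sum_sub_distrib]
      apply Finset.sum_congr rfl
      intro k _
      ring
    rw [e3, e1, e2]
    field_simp
    ring
  obtain ⟨c, hc⟩ := hspan _ hker
  refine ⟨fun k => z k - ∑ l, ⌊c l⌋ * v l k, ?_, ?_⟩
  · intro k
    have hBpow1 : (1 : ℝ) ≤ (B : ℝ) ^ E1 := one_le_pow₀ (by exact_mod_cast hB)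
    have hBpow2 : (1 : ℝ) ≤ (B : ℝ) ^ E2 := one_le_pow₀ (by exact_mod_cast hB)
    have e1 : ((z k - ∑ l, ⌊c l⌋ * v l k : ℤ) : ℝ) =
        (z' k : ℝ) / d + ∑ l, Int.fract (c l) * (v l k : ℝ) := by
      have h3 := hc k
      have h4 : ∑ l, c l * (v l k : ℝ) = ∑ l, (⌊c l⌋ : ℝ) * (v l k : ℝ) +
          ∑ l, Int.fract (c l) * (v l k : ℝ) := by
        rw [← Finset.sum_add_distrib]
        apply Finset.sum_congr rfl
        intro l _
        rw [← add_mul, Int.floor_add_fract]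
      push_cast
      linarith
    have e2 : |(z' k : ℝ) / d| ≤ C1 * (B : ℝ) ^ E1 := by
      rw [abs_div, abs_of_pos hd0]
      have h5 : |(z' k : ℝ)| ≤ C1 * (B : ℝ) ^ E1 := by exact_mod_cast hz'b k
      have h6 : (1 : ℝ) ≤ d := by exact_mod_cast hd
      calc |(z' k : ℝ)| / d ≤ |(z' k : ℝ)| / 1 := by
            apply div_le_div_of_nonneg_left (abs_nonneg _) one_pos h6
        _ = |(z' k : ℝ)| := by ring
        _ ≤ _ := h5
    have e3 : |∑ l, Int.fract (c l) * (v l k : ℝ)| ≤ K * (C2 * (B : ℝ) ^ E2) := by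
      calc |∑ l, Int.fract (c l) * (v l k : ℝ)| ≤ ∑ l, |Int.fract (c l) * (v l k : ℝ)| :=
            Finset.abs_sum_le_sum_abs _ _
        _ ≤ ∑ _l : Fin K, C2 * (B : ℝ) ^ E2 := by
            apply Finset.sum_le_sum
            intro l _
            rw [abs_mul, abs_of_nonneg (Int.fract_nonneg _)]
            have h7 : |(v l k : ℝ)| ≤ C2 * (B : ℝ) ^ E2 := by exact_mod_cast hvb l k
            have h8 : Int.fract (c l) ≤ 1 := (Int.fract_lt_one _).le
            calc Int.fract (c l) * |(v l k : ℝ)| ≤ 1 * |(v l k : ℝ)| :=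
                  mul_le_mul_of_nonneg_right h8 (abs_nonneg _)
              _ = |(v l k : ℝ)| := one_mul _
              _ ≤ _ := h7
        _ = _ := by simp
    have e4 : |((z k - ∑ l, ⌊c l⌋ * v l k : ℤ) : ℝ)| ≤
        ((C1 + K * C2 : ℕ) : ℝ) * (B : ℝ) ^ (E1 + E2) := by
      rw [e1]
      refine (abs_add_le _ _).trans ((add_le_add e2 e3).trans ?_)
      push_cast
      rw [pow_add, add_mul]
      apply add_le_add
      · have : (C1 : ℝ) * (B : ℝ) ^ E1 * 1 ≤ (C1 : ℝ) * (B : ℝ) ^ E1 * (B : ℝ) ^ E2 :=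
          mul_le_mul_of_nonneg_left hBpow2 (by positivity)
        linarith
      · have : (K : ℝ) * (C2 * (B : ℝ) ^ E2) * 1 ≤ (K : ℝ) * (C2 * (B : ℝ) ^ E2) * (B : ℝ) ^ E1 :=
          mul_le_mul_of_nonneg_left hBpow1 (by positivity)
        nlinarith [this]
    exact_mod_cast e4
  · intro i
    have e5 : ∑ k, M i k * (z k - ∑ l, ⌊c l⌋ * v l k) =
        ∑ k, M i k * z k - ∑ l, ⌊c l⌋ * ∑ k, M i k * v l k := by
      simp only [mul_sub, Finset.sum_sub_distrib, Finset.mul_sum]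
      congr 1
      rw [Finset.sum_comm]
      apply Finset.sum_congr rfl
      intro l _
      apply Finset.sum_congr rfl
      intro k _
      ring
    show ∑ k, M i k * (z k - ∑ l, ⌊c l⌋ * v l k) = h i
    rw [e5, hz i]
    have : ∑ l, ⌊c l⌋ * ∑ k, M i k * v l k = 0 := by
      apply Finset.sum_eq_zero
      intro l _
      rw [hv l i, mul_zero]
    rw [this, sub_zero]

end Pool.Agent.H32CE
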