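import Pool.Agent.H32CE.St

/-! LIFTD (helper196): lifting `d` and `e`. -/

set_option autoImplicit false
namespace Pool.Agent.H32CE
open PowerSeries
namespace TLIFTD
open Finset

theorem isH_sub {ι : Type} {w : ι → ℕ} {k : ℕ} {f g : T ι} (hf : IsH w k f) (hg : IsH w k g) :
    IsH w k (f - g) := by
  intro m hm
  by_cases h : f.coeff m = 0
  · apply hg
    intro h2
    apply hm
    rw [MonoidAlgebra.coeff_sub]
    simp [h, h2]
  · exact hf m h

theorem isH_zero {ι : Type} (w : ι → ℕ) (k : ℕ) : IsH w k (0 : T ι) := by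
  intro m hm
  exact absurd (by simp) hm

theorem prim_sub {ι : Type} {f g : T ι} (hf : Prim f) (hg : Prim g) : Prim (f - g) := by
  unfold Prim at *
  rw [map_sub, map_sub, map_sub, hf, hg]
  abel

theorem prim_zero {ι : Type} : Prim (0 : T ι) := by
  unfold Prim
  simp

theorem ph_sub {ι : Type} {k : ℕ} {f g : T ι} (hf : PH k f) (hg : PH k g) : PH k (f - g) :=
  ⟨isH_sub hf.1 hg.1, prim_sub hf.2 hg.2⟩

theorem pp_sub {ι : Type} {f g : PS (T ι)} (hf : PP f) (hg : PP g) : PP (f - g) := by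
  intro i
  rw [map_sub]
  exact ph_sub (hf i) (hg i)

theorem pp_sub_sum {ι : Type} {f : PS (T ι)} (hf : PP f) (s : Finset ℕ) (g : ℕ → PS (T ι))
    (hg : ∀ i ∈ s, PP (g i)) : PP (f - ∑ i ∈ s, g i) := by
  classical
  induction s using Finset.induction_on with
  | empty => simpa using hf
  | insert a s ha ih =>
    rw [sum_insert ha]
    have : f - (g a + ∑ i ∈ s, g i) = (f - ∑ i ∈ s, g i) - g a := by abel
    rw [this]
    exact pp_sub (ih fun i hi => hg i (mem_insert_of_mem hi)) (hg a (mem_insert_self _ _))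

theorem sub_X {ι : Type} {A : Type} [Ring A] [Algebra ℝ A] (e : ι → A) (i : ι) :
    sub e (X i) = e i := by
  unfold sub X
  rw [MonoidAlgebra.lift_single, one_smul, FreeMonoid.lift_eval_of]

theorem sub_br {ι : Type} {A : Type} [Ring A] [Algebra ℝ A] (e : ι → A) (U V : T ι) :
    sub e (br U V) = br (sub e U) (sub e V) := by
  unfold br
  rw [map_sub, map_mul, map_mul]

theorem coeff_br {A : Type} [Ring A] {k l : ℕ} {f g : PS A} (hf : ordge k f) (hg : ordge l g) :
    ordge (k + l) (br f g) ∧ coeff (k + l) (br f g) = br (coeff k f) (coeff l g) := by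
  have h1 : ∀ (k l : ℕ) (f g : PS A), ordge k f → ordge l g →
      (∀ i, i < k + l → coeff i (f * g) = 0) ∧ coeff (k + l) (f * g) = coeff k f * coeff l g := by
    intro k l f g hf hg
    constructor
    · intro i hi
      rw [coeff_mul]
      apply Finset.sum_eq_zero
      intro x hx
      rw [HasAntidiagonal.mem_antidiagonal] at hx
      by_cases h : x.1 < k
      · rw [hf _ h, zero_mul]
      · rw [hg _ (by omega), mul_zero]
    · rw [coeff_mul]
      rw [Finset.sum_eq_single (k, l)]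
      · intro x hx hne
        rw [HasAntidiagonal.mem_antidiagonal] at hx
        by_cases h : x.1 < k
        · rw [hf _ h, zero_mul]
        · by_cases h2 : x.2 < l
          · rw [hg _ h2, mul_zero]
          · exact absurd (Prod.ext (by show x.1 = k; omega) (by show x.2 = l; omega)) hne
      · intro h
        exact absurd (by rw [HasAntidiagonal.mem_antidiagonal]) h
  obtain ⟨a1, a2⟩ := h1 k l f g hf hg
  obtain ⟨b1, b2⟩ := h1 l k g f hg hf
  constructor
  · intro i hi
    unfold br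
    rw [map_sub, a1 i hi, b1 i (by omega), sub_zero]
  · unfold br
    rw [map_sub, a2, add_comm k l, b2]

theorem br_add_left {A : Type} [Ring A] (x y z : A) : br (x + y) z = br x z + br y z := by
  unfold br; noncomm_ring

theorem br_add_right {A : Type} [Ring A] (x y z : A) : br x (y + z) = br x y + br x z := by
  unfold br; noncomm_ring

theorem br_zero_left {A : Type} [Ring A] (z : A) : br 0 z = 0 := by unfold br; simp

theorem br_sum_left {A : Type} [Ring A] (s : Finset ℕ) (f : ℕ → A) (z : A) :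
    br (∑ i ∈ s, f i) z = ∑ i ∈ s, br (f i) z := by
  unfold br
  rw [sum_mul, mul_sum, ← sum_sub_distrib]

theorem br_sum_right {A : Type} [Ring A] (s : Finset ℕ) (f : ℕ → A) (z : A) :
    br z (∑ i ∈ s, f i) = ∑ i ∈ s, br z (f i) := by
  unfold br
  rw [sum_mul, mul_sum, ← sum_sub_distrib]

theorem ordge_sub {A : Type} [Ring A] {k : ℕ} {f g : PS A} (hf : ordge k f) (hg : ordge k g) :
    ordge k (f - g) := by
  intro i hi
  rw [map_sub, hf i hi, hg i hi, sub_zero]

theorem ordge_sum {A : Type} [Ring A] {k : ℕ} (s : Finset ℕ) (f : ℕ → PS A)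
    (hf : ∀ i ∈ s, ordge k (f i)) : ordge k (∑ i ∈ s, f i) := by
  intro i hi
  rw [map_sum]
  exact sum_eq_zero fun l hl => hf l hl i hi

theorem ordge_mono {A : Type} [Ring A] {k l : ℕ} (h : k ≤ l) {f : PS A} (hf : ordge l f) :
    ordge k f := fun i hi => hf i (by omega)

/-- reordering a triangular sum -/
theorem swap {A : Type} [AddCommMonoid A] (n j : ℕ) (hnj : n ≤ j) (G : ℕ → ℕ → A) :
    ∑ i ∈ Icc 1 n, ∑ i' ∈ Icc 1 i, G i' (i - i') =
      ∑ i' ∈ Icc 1 n, ∑ l ∈ range (j + 1), if i' + l ≤ n then G i' l else 0 := by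
  rw [sum_sigma', ← sum_product', ← sum_filter (s := Icc 1 n ×ˢ range (j + 1))
    (p := fun x : ℕ × ℕ => x.1 + x.2 ≤ n) (f := fun x : ℕ × ℕ => G x.1 x.2)]
  refine sum_nbij' (fun x => (x.2, x.1 - x.2)) (fun x => ⟨x.1 + x.2, x.1⟩) ?_ ?_ ?_ ?_ ?_
  · rintro ⟨i, i'⟩ h
    simp only [mem_sigma, mem_Icc, mem_filter, mem_product, mem_range] at h ⊢
    omega
  · rintro ⟨i', l⟩ h
    simp only [mem_sigma, mem_Icc, mem_filter, mem_product, mem_range] at h ⊢
    omega
  · rintro ⟨i, i'⟩ h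
    simp only [mem_sigma, mem_Icc] at h
    have : i' + (i - i') = i := by omega
    simp only [this]
  · rintro ⟨i', l⟩ h
    simp only [Prod.mk.injEq, true_and]
    omega
  · rintro ⟨i, i'⟩ h
    rfl

/-- the state after `n` steps -/
def Q {ι : Type} (p q j n : ℕ) (ξ δ d e : PS (T ι)) (Y W : ℕ → T (Fin 2)) : Prop :=
  ∃ D E : ℕ → T (Fin 2),
    (∀ i, 1 ≤ i → i ≤ n → Prim (D i) ∧ IsH ![p, p + j] (p + j + i) (D i) ∧ Prim (E i) ∧
      IsH ![p, p + j] (q + j + i) (E i) ∧
      (∑ i' ∈ Icc 1 i, br (D i') (Y (i - i'))) + br (X 0) (E i) =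
        if i = j then br (X 1) (W 0) else 0) ∧
    ordge (p + j + n + 1) (d - ∑ i ∈ Icc 1 n, sub ![ξ, δ] (D i)) ∧
    ordge (q + j + n + 1) (e - ∑ i ∈ Icc 1 n, sub ![ξ, δ] (E i))

theorem coeff_lead {ι : Type} (hT : S_THO) (p j : ℕ) (hp : 1 ≤ p) (ξ δ : PS (T ι))
    (hξ : ordge p ξ) (hδ : ordge (p + j) δ) (m N : ℕ) (hN : N ≤ m) (U : T (Fin 2))
    (hU : IsH ![p, p + j] m U) :
    coeff N (sub ![ξ, δ] U) =
      if m = N then sub ![coeff p ξ, coeff (p + j) δ] U else 0 := by
  obtain ⟨h1, h2, -⟩ := hT ι p (p + j) m ξ δ U hp (by omega) hξ hδ hU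
  split_ifs with h
  · rw [← h]; exact h2
  · exact h1 N (by omega)

theorem key {ι : Type} (hT : S_THO) (hB : S_BRP) (p q j n : ℕ) (hp : 1 ≤ p) (hnj : n + 1 ≤ j)
    (ξ δ : PS (T ι)) (hξ : ordge p ξ) (hδ : ordge (p + j) δ) (Y W D E : ℕ → T (Fin 2))
    (hY : ∀ l, l ≤ j → IsH ![p, p + j] (q + l) (Y l))
    (hD : ∀ i, 1 ≤ i → i ≤ n → IsH ![p, p + j] (p + j + i) (D i) ∧
      (∑ i' ∈ Icc 1 i, br (D i') (Y (i - i'))) + br (X 0) (E i) =
        if i = j then br (X 1) (W 0) else 0) :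
    coeff (p + q + j + n + 1) (br (∑ i ∈ Icc 1 n, sub ![ξ, δ] (D i))
        (∑ l ∈ range (j + 1), sub ![ξ, δ] (Y l)) + br ξ (∑ i ∈ Icc 1 n, sub ![ξ, δ] (E i))) =
      sub ![coeff p ξ, coeff (p + j) δ] (∑ i' ∈ Icc 1 n, br (D i') (Y (n + 1 - i'))) := by
  set G : ℕ → ℕ → PS (T ι) := fun i' l => sub ![ξ, δ] (br (D i') (Y l)) with hG
  have hlead : ∀ i' l, 1 ≤ i' → i' ≤ n → l ≤ j → n + 1 ≤ i' + l →
      coeff (p + q + j + n + 1) (G i' l) =
      if i' + l = n + 1 then sub ![coeff p ξ, coeff (p + j) δ] (br (D i') (Y l)) else 0 := by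
    intro i' l h1 h2 h3 h4
    rw [hG]
    have h5 := coeff_lead hT p j hp ξ δ hξ hδ (p + j + i' + (q + l)) (p + q + j + n + 1)
      (by omega) (br (D i') (Y l)) ((hB (Fin 2) _ _ _ _ _).2 (hD i' h1 h2).1 (hY l h3))
    have h6 : (p + j + i' + (q + l) = p + q + j + n + 1) ↔ i' + l = n + 1 := by omega
    simp only [h6] at h5
    exact h5
  have e1 : br (∑ i ∈ Icc 1 n, sub ![ξ, δ] (D i)) (∑ l ∈ range (j + 1), sub ![ξ, δ] (Y l)) =
      ∑ i' ∈ Icc 1 n, ∑ l ∈ range (j + 1), G i' l := by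
    rw [br_sum_left]
    apply sum_congr rfl; intro i _
    rw [br_sum_right]
    apply sum_congr rfl; intro l _
    exact (sub_br _ _ _).symm
  have e2 : br ξ (∑ i ∈ Icc 1 n, sub ![ξ, δ] (E i)) =
      - ∑ i ∈ Icc 1 n, ∑ i' ∈ Icc 1 i, G i' (i - i') := by
    rw [br_sum_right, ← sum_neg_distrib]
    apply sum_congr rfl
    intro i hi
    rw [mem_Icc] at hi
    have h1 := (hD i hi.1 hi.2).2
    rw [if_neg (by omega)] at h1
    have h2 : br (X 0) (E i) = - ∑ i' ∈ Icc 1 i, br (D i') (Y (i - i')) := by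
      rw [eq_neg_iff_add_eq_zero, add_comm]; exact h1
    have h3 : br ξ (sub ![ξ, δ] (E i)) = sub ![ξ, δ] (br (X 0) (E i)) := by
      rw [sub_br, sub_X]; rfl
    rw [h3, h2, map_neg, map_sum]
  rw [e1, e2, swap n j (by omega) G, ← sub_eq_add_neg, ← sum_sub_distrib, map_sum, map_sum]
  apply sum_congr rfl
  intro i' hi'
  rw [mem_Icc] at hi'
  rw [← sum_sub_distrib, map_sum, sum_eq_single (n + 1 - i')]
  · rw [if_neg (by omega), sub_zero, hlead i' _ hi'.1 hi'.2 (by omega) (by omega),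
      if_pos (by omega)]
  · intro l hl hne
    rw [mem_range] at hl
    by_cases h : i' + l ≤ n
    · rw [if_pos h, sub_self, map_zero]
    · rw [if_neg h, sub_zero, hlead i' _ hi'.1 hi'.2 (by omega) (by omega), if_neg (by omega)]
  · intro h
    exact absurd (mem_range.2 (by omega)) h

theorem step {ι : Type} (hS : S_SUF) (hT : S_THO) (hB : S_BRP)
    (p q j n : ℕ) (ξ y δ d e : PS (T ι)) (Y W : ℕ → T (Fin 2)) (a s b : T ι)
    (hp : 1 ≤ p) (hnj : n + 1 ≤ j) (hpq : p + j < q)
    (PPξ : PP ξ) (PPy : PP y) (PPδ : PP δ) (PPd : PP d) (PPe : PP e)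
    (hξ : ordge p ξ) (hy : ordge q y) (hδ : ordge (p + j) δ)
    (ha : a = coeff p ξ) (hs : s = coeff (p + j) δ) (hb : b = coeff q y)
    (has : br a s ≠ 0) (hab : br a b ≠ 0) (hbY : b = sub ![a, s] (Y 0))
    (hinj : Function.Injective (sub ![a, s]))
    (hyY : ordge (q + j + 1) (y - ∑ l ∈ range (j + 1), sub ![ξ, δ] (Y l)))
    (hY : ∀ l, l ≤ j → IsH ![p, p + j] (q + l) (Y l))
    (hN : coeff (p + q + j + n + 1) (br d y + br ξ e) =
      if n + 1 = j then sub ![a, s] (br (X 1) (W 0)) else 0)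
    (hQ : Q p q j n ξ δ d e Y W) : Q p q j (n + 1) ξ δ d e Y W := by
  obtain ⟨D, E, hDE, hd, he⟩ := hQ
  set A := ∑ i ∈ Icc 1 n, sub ![ξ, δ] (D i) with hA
  set B := ∑ i ∈ Icc 1 n, sub ![ξ, δ] (E i) with hBd
  set Yt := ∑ l ∈ range (j + 1), sub ![ξ, δ] (Y l) with hYt
  set R := ∑ i' ∈ Icc 1 n, br (D i') (Y (n + 1 - i')) with hR
  have hθ : ∀ m U, Prim U → IsH ![p, p + j] m U → PP (sub ![ξ, δ] U) ∧
      ordge m (sub ![ξ, δ] U) ∧ coeff m (sub ![ξ, δ] U) = sub ![a, s] U := by
    intro m U h1 h2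
    obtain ⟨w1, w2, w3⟩ := hT ι p (p + j) m ξ δ U hp (by omega) hξ hδ h2
    exact ⟨w3 PPξ PPδ h1, w1, by rw [w2, ha, hs]⟩
  have PPd' : PP (d - A) := pp_sub_sum PPd _ _ fun i hi => by
    rw [mem_Icc] at hi
    obtain ⟨w1, w2, -⟩ := hDE i hi.1 hi.2
    exact (hθ _ _ w1 w2).1
  have PPe' : PP (e - B) := pp_sub_sum PPe _ _ fun i hi => by
    rw [mem_Icc] at hi
    obtain ⟨-, -, w1, w2, -⟩ := hDE i hi.1 hi.2
    exact (hθ _ _ w1 w2).1
  have hAo : ordge (p + j + 1) A := ordge_sum _ _ fun i hi => by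
    rw [mem_Icc] at hi
    obtain ⟨w1, w2, -⟩ := hDE i hi.1 hi.2
    exact ordge_mono (by omega) (hθ _ _ w1 w2).2.1
  set u := coeff (p + j + n + 1) (d - A) with hu
  set v := coeff (q + j + n + 1) (e - B) with hv
  have hdec : br d y + br ξ e = (br (d - A) y + br ξ (e - B)) + br A (y - Yt) +
      (br A Yt + br ξ B) := by
    have e1 : br d y = br (d - A) y + br A y := by rw [← br_add_left, sub_add_cancel]
    have e2 : br A y = br A (y - Yt) + br A Yt := by rw [← br_add_right, sub_add_cancel]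
    have e3 : br ξ e = br ξ (e - B) + br ξ B := by rw [← br_add_right, sub_add_cancel]
    rw [e1, e2, e3]
    abel
  have c1 : coeff (p + q + j + n + 1) (br (d - A) y) = br u b := by
    have := (coeff_br hd hy).2
    rw [show p + j + n + 1 + q = p + q + j + n + 1 by omega] at this
    rw [this, hb]
  have c2 : coeff (p + q + j + n + 1) (br ξ (e - B)) = br a v := by
    have := (coeff_br hξ he).2
    rw [show p + (q + j + n + 1) = p + q + j + n + 1 by omega] at this
    rw [this, ha]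
  have c3 : coeff (p + q + j + n + 1) (br A (y - Yt)) = 0 :=
    (coeff_br hAo hyY).1 _ (by omega)
  have c4 := key hT hB p q j n hp hnj ξ δ hξ hδ Y W D E hY
    (fun i h1 h2 => ⟨(hDE i h1 h2).2.1, (hDE i h1 h2).2.2.2.2⟩)
  rw [← ha, ← hs] at c4
  have hc : br u b + br a v + sub ![a, s] R =
      if n + 1 = j then sub ![a, s] (br (X 1) (W 0)) else 0 := by
    rw [← hN, hdec, map_add, map_add, map_add, c1, c2, c3, c4, add_zero]
  set I : T (Fin 2) := if n + 1 = j then br (X 1) (W 0) else 0 with hI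
  have hc' : br u b + br a v + sub ![a, s] R = sub ![a, s] I := by
    rw [hc, hI]
    split_ifs
    · rfl
    · rw [map_zero]
  have hran : br u b + br a v ∈ Set.range (sub ![a, s]) := by
    refine ⟨I - R, ?_⟩
    rw [map_sub, ← hc']
    abel
  obtain ⟨U, V, hU, hV, hU', hV', hUu, hVv⟩ := hS ι p (p + j) q (p + j + n + 1)
    (q + j + n + 1) a s b u v hp (by omega) (by omega) (by omega) (by omega) (by omega)
    (ha ▸ PPξ p) (hs ▸ PPδ (p + j)) (hb ▸ PPy q) (PPd' _) (PPe' _) has hab ⟨Y 0, hbY.symm⟩ hran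
  have hadd : ∀ k l m : ℕ, k + l + m + 1 = k + l + (m + 1) := fun k l m => rfl
  refine ⟨fun i => if i = n + 1 then U else D i, fun i => if i = n + 1 then V else E i,
    ?_, ?_, ?_⟩
  · intro i h1 h2
    by_cases hi : i = n + 1
    · subst hi
      simp only [if_true]
      refine ⟨hU, hU', hV, hV', ?_⟩
      have hsum : ∑ i' ∈ Icc 1 (n + 1), br (if i' = n + 1 then U else D i') (Y (n + 1 - i')) =
          R + br U (Y 0) := by
        rw [sum_Icc_succ_top (by omega), if_pos rfl, Nat.sub_self, hR]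
        congr 1
        apply sum_congr rfl
        intro i' hi'
        rw [mem_Icc] at hi'
        rw [if_neg (by omega)]
      rw [hsum]
      apply hinj
      rw [map_add, map_add, sub_br, sub_br, sub_X, hUu, hVv, ← hbY]
      show sub ![a, s] R + br u b + br a v = sub ![a, s] I
      rw [← hc']
      abel
    · simp only [if_neg hi]
      obtain ⟨w1, w2, w3, w4, w5⟩ := hDE i h1 (by omega)
      refine ⟨w1, w2, w3, w4, ?_⟩
      rw [← w5]
      congr 1
      apply sum_congr rfl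
      intro i' hi'
      rw [mem_Icc] at hi'
      rw [if_neg (by omega)]
  · have hsum : ∑ i ∈ Icc 1 (n + 1), sub ![ξ, δ] (if i = n + 1 then U else D i) =
        A + sub ![ξ, δ] U := by
      rw [sum_Icc_succ_top (by omega), if_pos rfl, hA]
      congr 1
      apply sum_congr rfl
      intro i' hi'
      rw [mem_Icc] at hi'
      rw [if_neg (by omega)]
    simp only [hsum]
    intro i hi
    rw [← sub_sub, map_sub]
    obtain ⟨w1, w2, w3⟩ := hθ _ _ hU hU'
    by_cases h : i < p + j + n + 1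
    · rw [hd i h, w2 i h, sub_zero]
    · have : i = p + j + n + 1 := by omega
      rw [this, w3, hUu, ← hu, sub_self]
  · have hsum : ∑ i ∈ Icc 1 (n + 1), sub ![ξ, δ] (if i = n + 1 then V else E i) =
        B + sub ![ξ, δ] V := by
      rw [sum_Icc_succ_top (by omega), if_pos rfl, hBd]
      congr 1
      apply sum_congr rfl
      intro i' hi'
      rw [mem_Icc] at hi'
      rw [if_neg (by omega)]
    simp only [hsum]
    intro i hi
    rw [← sub_sub, map_sub]
    obtain ⟨w1, w2, w3⟩ := hθ _ _ hV hV'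
    by_cases h : i < q + j + n + 1
    · rw [he i h, w2 i h, sub_zero]
    · have : i = q + j + n + 1 := by omega
      rw [this, w3, hVv, ← hv, sub_self]

theorem smul_br (c : ℝ) {ι : Type} (x y : T ι) : br (c • x) y = c • br x y := by
  unfold br
  rw [smul_mul_assoc, mul_smul_comm, smul_sub]

end TLIFTD

open TLIFTD Finset in
theorem t_LIFTD (hS : S_SUF) (hT : S_THO) (hF : S_F1) (hI : S_IND2) (hP : S_P1) (hB : S_BRP)
    (hB1 : S_B1) : S_LIFTD := by
  intro ι p q j ξ y δ ε d e Y W hp hj hpq PPξ PPy PPδ PPε PPd PPe hξ hy hδ hε hd he ha0 hb0 hs0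
    hYW hyY hεW hlow htop
  have hab : br (coeff p ξ) (coeff q y) ≠ 0 := by
    intro h
    have := (hP ι p q _ _ hp (by omega) (PPξ p) (PPy q) ha0 hb0 h).1
    omega
  have has : br (coeff p ξ) (coeff (p + j) δ) ≠ 0 := by
    intro h
    have := (hP ι p (p + j) _ _ hp (by omega) (PPξ p) (PPδ _) ha0 hs0 h).1
    omega
  have hinj : Function.Injective (sub ![coeff p ξ, coeff (p + j) δ]) := by
    have hR := hI ι p (p + j) _ _ hp (by omega) (PPξ p) (PPδ _) has
    refine (hF ι 2 ![coeff p ξ, coeff (p + j) δ] ![p, p + j] ?_ ?_ hR).1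
    · intro i
      fin_cases i
      · exact hp
      · show 1 ≤ p + j
        omega
    · intro i
      fin_cases i
      · exact PPξ p
      · exact PPδ _
  have hlead := coeff_lead hT p j hp ξ δ hξ hδ
  have hbY : coeff q y = sub ![coeff p ξ, coeff (p + j) δ] (Y 0) := by
    rw [hyY q (by omega), map_sum, sum_eq_single 0]
    · have := hlead q q le_rfl (Y 0) (by simpa using (hYW 0 (by omega)).2.2.1)
      rw [if_pos rfl] at this
      exact this
    · intro l hl hne
      rw [mem_range] at hl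
      have := hlead (q + l) q (by omega) (Y l) (hYW l (by omega)).2.2.1
      rw [if_neg (by omega)] at this
      exact this
    · intro h
      exact absurd (mem_range.2 (by omega)) h
  have htW : coeff (q + j) ε = sub ![coeff p ξ, coeff (p + j) δ] (W 0) := by
    rw [hεW (q + j) (by omega), map_sum, sum_eq_single 0]
    · have := hlead (q + j) (q + j) le_rfl (W 0) (by simpa using (hYW 0 (by omega)).2.2.2.1)
      rw [if_pos rfl] at this
      exact this
    · intro l hl hne
      rw [mem_range] at hl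
      have := hlead (q + j + l) (q + j) (by omega) (W l) (hYW l (by omega)).2.2.2.1
      rw [if_neg (by omega)] at this
      exact this
    · intro h
      exact absurd (mem_range.2 (by omega)) h
  have hyY' : ordge (q + j + 1) (y - ∑ l ∈ range (j + 1), sub ![ξ, δ] (Y l)) := by
    intro i hi
    rw [map_sub, hyY i (by omega), sub_self]
  have hQ : ∀ n, n ≤ j → Q p q j n ξ δ d e Y W := by
    intro n
    induction n with
    | zero =>
      intro _
      exact ⟨fun _ => 0, fun _ => 0, fun i h1 h2 => by omega, by simpa using hd, by simpa using he⟩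
    | succ n ih =>
      intro hn
      refine step hS hT hB p q j n ξ y δ d e Y W _ _ _ hp hn hpq PPξ PPy PPδ PPd PPe hξ hy hδ
        rfl rfl rfl has hab hbY hinj hyY' (fun l hl => (hYW l hl).2.2.1) ?_ (ih (by omega))
      by_cases h : n + 1 = j
      · rw [if_pos h]
        have h2 : p + q + j + n + 1 = p + q + 2 * j := by omega
        rw [h2, htop, htW, sub_br, sub_X]
        rfl
      · rw [if_neg h]
        exact hlow _ (by omega)
  obtain ⟨D, E, hDE, -, -⟩ := hQ j le_rfl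
  have hν : ∀ i, ∃ ν : ℝ, 1 ≤ i → i ≤ j → D i = if p ∣ i then ν • adk (i / p) else 0 := by
    intro i
    by_cases h : 1 ≤ i ∧ i ≤ j
    · obtain ⟨w1, w2, -⟩ := hDE i h.1 h.2
      obtain ⟨ν, hν⟩ := hB1 p j i (D i) hp h.1 h.2 w1 w2
      exact ⟨ν, fun _ _ => hν⟩
    · exact ⟨0, fun h1 h2 => absurd ⟨h1, h2⟩ h⟩
  choose ν hν using hν
  refine ⟨fun k => ν (k * p), E, fun i h1 h2 => ?_⟩
  rw [← (hDE i h1 h2).2.2.2.2]
  congr 1
  rw [← sum_filter]
  have h3 : ∑ i' ∈ Icc 1 i, br (D i') (Y (i - i')) =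
      ∑ i' ∈ (Icc 1 i).filter (fun i' => p ∣ i'), br (D i') (Y (i - i')) := by
    symm
    apply sum_filter_of_ne
    intro x hx hne
    rw [mem_Icc] at hx
    by_contra hpx
    apply hne
    rw [hν x hx.1 (by omega), if_neg hpx, br_zero_left]
  rw [h3]
  refine sum_nbij' (fun k => k * p) (fun i' => i' / p) ?_ ?_ ?_ ?_ ?_
  · intro k hk
    rw [mem_filter, mem_Icc] at hk ⊢
    exact ⟨⟨Nat.mul_pos (by omega) hp, hk.2⟩, dvd_mul_left p k⟩
  · intro x hx
    rw [mem_filter, mem_Icc] at hx ⊢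
    obtain ⟨⟨w1, w2⟩, c, rfl⟩ := hx
    rw [Nat.mul_div_cancel_left c hp]
    have hc : 1 ≤ c := by
      rcases Nat.eq_zero_or_pos c with h | h
      · rw [h] at w1; omega
      · exact h
    refine ⟨⟨hc, ?_⟩, ?_⟩
    · exact (Nat.le_mul_of_pos_left c hp).trans w2
    · rw [mul_comm]; exact w2
  · intro k _
    exact Nat.mul_div_cancel k hp
  · intro x hx
    rw [mem_filter] at hx
    exact Nat.div_mul_cancel hx.2
  · intro k hk
    rw [mem_filter, mem_Icc] at hk
    have h4 : 1 ≤ k * p := Nat.mul_pos (by omega) hp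
    rw [hν (k * p) h4 (by omega), if_pos (dvd_mul_left p k), Nat.mul_div_cancel k hp, smul_br]

end Pool.Agent.H32CE
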