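import Pool.Agent.H32CE.St

set_option autoImplicit false

/-!
# LIFTY: lifting `y` and `ε`
-/

namespace Pool.Agent.H32CE

open PowerSeries

namespace TLIFTY

variable {ι : Type}

theorem isH_zero (w : ι → ℕ) (k : ℕ) : IsH w k (0 : T ι) := by
  intro m hm
  exact absurd (by simp) hm

theorem isH_neg {w : ι → ℕ} {k : ℕ} {f : T ι} (hf : IsH w k f) : IsH w k (-f) := by
  intro m hm
  apply hf m
  intro h0
  apply hm
  rw [MonoidAlgebra.coeff_neg, Finsupp.neg_apply, h0, neg_zero]

theorem isH_add {w : ι → ℕ} {k : ℕ} {f g : T ι} (hf : IsH w k f) (hg : IsH w k g) :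
    IsH w k (f + g) := by
  intro m hm
  by_cases h : f.coeff m = 0
  · apply hg m
    intro h0
    apply hm
    rw [MonoidAlgebra.coeff_add, Finsupp.add_apply, h, h0, add_zero]
  · exact hf m h

theorem prim_zero : Prim (0 : T ι) := by
  unfold Prim
  simp

theorem prim_neg {f : T ι} (hf : Prim f) : Prim (-f) := by
  unfold Prim at *
  rw [map_neg, map_neg, map_neg, hf, neg_add]

theorem prim_add {f g : T ι} (hf : Prim f) (hg : Prim g) : Prim (f + g) := by
  unfold Prim at *
  rw [map_add, map_add, map_add, hf, hg]
  abel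

theorem ph_zero (k : ℕ) : PH k (0 : T ι) := ⟨isH_zero _ _, prim_zero⟩

theorem ph_neg {k : ℕ} {f : T ι} (hf : PH k f) : PH k (-f) := ⟨isH_neg hf.1, prim_neg hf.2⟩

theorem ph_add {k : ℕ} {f g : T ι} (hf : PH k f) (hg : PH k g) : PH k (f + g) :=
  ⟨isH_add hf.1 hg.1, prim_add hf.2 hg.2⟩

theorem pp_sub {f g : PS (T ι)} (hf : PP f) (hg : PP g) : PP (f - g) := by
  intro i
  rw [map_sub, sub_eq_add_neg]
  exact ph_add (hf i) (ph_neg (hg i))

theorem pp_sum (s : Finset ℕ) (f : ℕ → PS (T ι)) (hf : ∀ l ∈ s, PP (f l)) :
    PP (∑ l ∈ s, f l) := by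
  intro i
  rw [map_sum]
  revert hf
  induction s using Finset.induction_on with
  | empty => intro _; rw [Finset.sum_empty]; exact ph_zero i
  | insert a s ha ih =>
    intro hf
    rw [Finset.sum_insert ha]
    exact ph_add (hf a (Finset.mem_insert_self a s) i)
      (ih fun l hl => hf l (Finset.mem_insert_of_mem hl))

theorem coeff_mul_ord {A : Type} [Ring A] (m n : ℕ) (f g : PS A) (hf : ordge m f)
    (hg : ordge n g) : coeff (m + n) (f * g) = coeff m f * coeff n g := by
  rw [coeff_mul, Finset.sum_eq_single (m, n)]
  · rintro ⟨a, b⟩ hab hne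
    rw [Finset.HasAntidiagonal.mem_antidiagonal] at hab
    simp only at hab ⊢
    rcases lt_trichotomy a m with h | h | h
    · rw [hf a h, zero_mul]
    · exact absurd (Prod.ext h (by simp only; omega)) hne
    · rw [hg b (by omega), mul_zero]
  · intro h
    exfalso
    apply h
    rw [Finset.HasAntidiagonal.mem_antidiagonal]

theorem coeff_br_ord {A : Type} [Ring A] (m n : ℕ) (f g : PS A) (hf : ordge m f)
    (hg : ordge n g) : coeff (m + n) (br f g) = br (coeff m f) (coeff n g) := by
  unfold br
  rw [map_sub, coeff_mul_ord m n f g hf hg, add_comm m n, coeff_mul_ord n m g f hg hf]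

theorem br_sub_right {A : Type} [Ring A] (a b c : A) : br a (b - c) = br a b - br a c := by
  unfold br
  noncomm_ring

theorem br_sum_right {A : Type} [Ring A] (a : A) (s : Finset ℕ) (f : ℕ → A) :
    br a (∑ l ∈ s, f l) = ∑ l ∈ s, br a (f l) := by
  unfold br
  rw [Finset.mul_sum, Finset.sum_mul, Finset.sum_sub_distrib]

theorem sub_br {κ : Type} {A : Type} [Ring A] [Algebra ℝ A] (e : κ → A) (U V : T κ) :
    sub e (br U V) = br (sub e U) (sub e V) := by
  unfold br
  rw [map_sub, map_mul, map_mul]

theorem sub_X {κ : Type} {A : Type} [Ring A] [Algebra ℝ A] (e : κ → A) (i : κ) :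
    sub e (X i) = e i := by
  simp [sub, X]

end TLIFTY

open TLIFTY in
/-- Lifting `y` and `ε`. -/
theorem t_LIFTY (hSUF : S_SUF) (hTHO : S_THO) (hF1 : S_F1) (hIND : S_IND2) (hP1 : S_P1) :
    S_LIFTY := by
  intro ι p q j ξ y δ ε hp hj hpq pξ py pδ pε oξ oy oδ oε nξ ny nδ hrel
  set a := coeff p ξ with ha
  set s := coeff (p + j) δ with hs
  have pa : PH p a := pξ p
  have ps : PH (p + j) s := pδ (p + j)
  have has : br a s ≠ 0 := by
    intro h0
    have := (hP1 ι p (p + j) a s hp (by omega) pa ps nξ nδ h0).1
    omega
  have hinj : Function.Injective (sub ![a, s]) := by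
    refine (hF1 ι 2 ![a, s] ![p, p + j] ?_ ?_ (hIND ι p (p + j) a s hp (by omega) pa ps has)).1
    · intro i
      fin_cases i
      · exact hp
      · change 1 ≤ p + j
        omega
    · intro i
      fin_cases i
      · exact pa
      · exact ps
  have key : ∀ i, i ≤ j + 1 → ∃ Y W : ℕ → T (Fin 2),
      (∀ l, l < i → Prim (Y l) ∧ Prim (W l) ∧ IsH ![p, p + j] (q + l) (Y l) ∧
        IsH ![p, p + j] (q + j + l) (W l) ∧ br (X 1) (Y l) + br (X 0) (W l) = 0) ∧
      (∀ n, n < q + i → coeff n y = coeff n (∑ l ∈ Finset.range i, sub ![ξ, δ] (Y l))) ∧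
      (∀ n, n < q + j + i → coeff n ε =
        coeff n (∑ l ∈ Finset.range i, sub ![ξ, δ] (W l))) := by
    intro i
    induction i with
    | zero =>
      intro _
      refine ⟨fun _ => 0, fun _ => 0, fun l hl => absurd hl (by omega), ?_, ?_⟩
      · intro n hn
        rw [Finset.range_zero, Finset.sum_empty, map_zero]
        exact oy n (by omega)
      · intro n hn
        rw [Finset.range_zero, Finset.sum_empty, map_zero]
        exact oε n (by omega)
    | succ i ih =>
      intro hi
      obtain ⟨Y, W, hYW, hY, hW⟩ := ih (by omega)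
      set sy := ∑ l ∈ Finset.range i, sub ![ξ, δ] (Y l) with hsy
      set sε := ∑ l ∈ Finset.range i, sub ![ξ, δ] (W l) with hsε
      have py' : PP (y - sy) := by
        refine pp_sub py (pp_sum _ _ fun l hl => ?_)
        obtain ⟨h1, h2, h3, h4, h5⟩ := hYW l (Finset.mem_range.mp hl)
        exact (hTHO ι p (p + j) (q + l) ξ δ (Y l) hp (by omega) oξ oδ h3).2.2 pξ pδ h1
      have pε' : PP (ε - sε) := by
        refine pp_sub pε (pp_sum _ _ fun l hl => ?_)
        obtain ⟨h1, h2, h3, h4, h5⟩ := hYW l (Finset.mem_range.mp hl)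
        exact (hTHO ι p (p + j) (q + j + l) ξ δ (W l) hp (by omega) oξ oδ h4).2.2 pξ pδ h2
      have oy' : ordge (q + i) (y - sy) := by
        intro n hn
        rw [map_sub, hY n hn, sub_self]
      have oε' : ordge (q + j + i) (ε - sε) := by
        intro n hn
        rw [map_sub, hW n hn, sub_self]
      set u := coeff (q + i) (y - sy) with hu
      set v := coeff (q + j + i) (ε - sε) with hv
      have pu : PH (q + i) u := py' _
      have pv : PH (q + j + i) v := pε' _
      have h0 : br δ sy + br ξ sε = 0 := by
        rw [hsy, hsε, br_sum_right, br_sum_right, ← Finset.sum_add_distrib]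
        refine Finset.sum_eq_zero fun l hl => ?_
        obtain ⟨h1, h2, h3, h4, h5⟩ := hYW l (Finset.mem_range.mp hl)
        have h6 : sub ![ξ, δ] (br (X 1) (Y l) + br (X 0) (W l)) = 0 := by rw [h5, map_zero]
        rw [map_add, sub_br, sub_br, sub_X, sub_X] at h6
        exact h6
      have h7 : br s u + br a v = 0 := by
        have h8 := hrel (p + q + j + i) (by omega)
        have h9 : br δ y + br ξ ε = br δ (y - sy) + br ξ (ε - sε) := by
          rw [br_sub_right, br_sub_right]
          calc br δ y + br ξ ε = br δ y + br ξ ε - (br δ sy + br ξ sε) := by rw [h0, sub_zero]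
            _ = _ := by abel
        rw [h9, map_add] at h8
        have e1 : p + q + j + i = (p + j) + (q + i) := by ring
        have e2 : p + q + j + i = p + (q + j + i) := by ring
        have h10 : coeff (p + q + j + i) (br δ (y - sy)) = br s u := by
          rw [e1, coeff_br_ord _ _ _ _ oδ oy']
        have h11 : coeff (p + q + j + i) (br ξ (ε - sε)) = br a v := by
          rw [e2, coeff_br_ord _ _ _ _ oξ oε']
        rw [h10, h11] at h8
        exact h8
      have h12 : br (-u) s + br a v = 0 := by
        rw [← h7]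
        unfold br
        noncomm_ring
      obtain ⟨U, V, pU, pV, hU, hV, eU, eV⟩ := hSUF ι p (p + j) (p + j) (q + i) (q + j + i) a s s
        (-u) v hp (by omega) (by omega) (by omega) (by omega) (by omega) pa ps ps (ph_neg pu) pv
        has has ⟨X 1, by rw [sub_X]; rfl⟩ ⟨0, by rw [map_zero, h12]⟩
      have hUn : IsH ![p, p + j] (q + i) (-U) := isH_neg hU
      have tU := hTHO ι p (p + j) (q + i) ξ δ (-U) hp (by omega) oξ oδ hUn
      have tV := hTHO ι p (p + j) (q + j + i) ξ δ V hp (by omega) oξ oδ hV
      have cU : coeff (q + i) (sub ![ξ, δ] (-U)) = u := by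
        rw [tU.2.1, map_neg]
        rw [← ha, ← hs, eU, neg_neg]
      have cV : coeff (q + j + i) (sub ![ξ, δ] V) = v := by
        rw [tV.2.1]
        rw [← ha, ← hs, eV]
      refine ⟨Function.update Y i (-U), Function.update W i V, ?_, ?_, ?_⟩
      · intro l hl
        by_cases hli : l = i
        · subst hli
          rw [Function.update_self, Function.update_self]
          refine ⟨prim_neg pU, pV, hUn, hV, ?_⟩
          apply hinj
          rw [map_add, sub_br, sub_br, sub_X, sub_X, map_neg, eU, eV, map_zero, neg_neg]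
          exact h7
        · rw [Function.update_of_ne hli, Function.update_of_ne hli]
          exact hYW l (by omega)
      · intro n hn
        have e3 : ∑ l ∈ Finset.range (i + 1), sub ![ξ, δ] (Function.update Y i (-U) l) =
            sy + sub ![ξ, δ] (-U) := by
          rw [Finset.sum_range_succ, Function.update_self, hsy]
          congr 1
          refine Finset.sum_congr rfl fun l hl => ?_
          rw [Function.update_of_ne (by have := Finset.mem_range.mp hl; omega)]
        rw [e3, map_add]
        by_cases hn' : n < q + i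
        · rw [tU.1 n hn', add_zero]
          exact hY n hn'
        · have hn2 : n = q + i := by omega
          rw [hn2, cU, hu, map_sub]
          abel
      · intro n hn
        have e3 : ∑ l ∈ Finset.range (i + 1), sub ![ξ, δ] (Function.update W i V l) =
            sε + sub ![ξ, δ] V := by
          rw [Finset.sum_range_succ, Function.update_self, hsε]
          congr 1
          refine Finset.sum_congr rfl fun l hl => ?_
          rw [Function.update_of_ne (by have := Finset.mem_range.mp hl; omega)]
        rw [e3, map_add]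
        by_cases hn' : n < q + j + i
        · rw [tV.1 n hn', add_zero]
          exact hW n hn'
        · have hn2 : n = q + j + i := by omega
          rw [hn2, cV, hv, map_sub]
          abel
  obtain ⟨Y, W, hYW, hY, hW⟩ := key (j + 1) le_rfl
  exact ⟨Y, W, fun l hl => hYW l (by omega), fun i hi => hY i (by omega),
    fun i hi => hW i (by omega)⟩

end Pool.Agent.H32CE
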