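import Pool.Agent.H32CE.St

set_option autoImplicit false
set_option linter.unusedSimpArgs false

/-!
# MP_76db9d_al, task LIN: linearisation of the commutator map
-/

namespace Pool.Agent.H32CE

open PowerSeries

namespace TLIN

variable {A : Type} [Ring A]

theorem o0 (f : PS A) : ordge 0 f := fun _ h => absurd h (Nat.not_lt_zero _)

theorem om {k l : ℕ} {f g : PS A} (hf : ordge k f) (hg : ordge l g) : ordge (k + l) (f * g) := by
  intro i hi
  rw [coeff_mul]
  apply Finset.sum_eq_zero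
  rintro ⟨a, b⟩ hab
  rw [Finset.HasAntidiagonal.mem_antidiagonal] at hab
  simp only at hab ⊢
  by_cases ha : a < k
  · rw [hf a ha, zero_mul]
  · rw [hg b (by omega), mul_zero]

theorem oa {k : ℕ} {f g : PS A} (hf : ordge k f) (hg : ordge k g) : ordge k (f + g) := by
  intro i hi
  rw [map_add, hf i hi, hg i hi, add_zero]

theorem os {k : ℕ} {f g : PS A} (hf : ordge k f) (hg : ordge k g) : ordge k (f - g) := by
  intro i hi
  rw [map_sub, hf i hi, hg i hi, sub_zero]

theorem ole {k l : ℕ} {f : PS A} (hf : ordge k f) (h : l ≤ k) : ordge l f :=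
  fun i hi => hf i (lt_of_lt_of_le hi h)

theorem oml {k : ℕ} {f : PS A} (g : PS A) (hf : ordge k f) : ordge k (g * f) := by
  have := om (o0 g) hf
  rwa [zero_add] at this

theorem omr {k : ℕ} {f : PS A} (g : PS A) (hf : ordge k f) : ordge k (f * g) :=
  om hf (o0 g)

/-- commutator with a series `1 + O(τ^a)` -/
theorem oc {a b : ℕ} {f g : PS A} (hf : ordge a (f - 1)) (hg : ordge b g) :
    ordge (a + b) (f * g - g * f) := by
  have h : f * g - g * f = (f - 1) * g - g * (f - 1) := by noncomm_ring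
  rw [h]
  exact os (om hf hg) (by rw [add_comm]; exact om hg hf)

theorem oi {a : ℕ} {f f' : PS A} (h : f' * f = 1) (hf : ordge a (f - 1)) :
    ordge a (f' - 1) := by
  have h' : f' - 1 = 0 - f' * (f - 1) := by rw [mul_sub, h]; noncomm_ring
  rw [h']
  exact os (fun i _ => by simp) (oml _ hf)

/-- the computation -/
theorem core {p q j : ℕ} (hp : 1 ≤ p) (hq : 1 ≤ q)
    {X X' Y Y' U U' V V' H H' : PS A}
    (hX : X' * X = 1) (hX2 : X * X' = 1) (hY : Y' * Y = 1) (hY2 : Y * Y' = 1)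
    (hU : U' * U = 1) (hU2 : U * U' = 1) (hV : V' * V = 1) (hV2 : V * V' = 1)
    (hH : H' * H = 1) (hH2 : H * H' = 1)
    (oX : ordge p (X - 1)) (oU : ordge (p + j) (U - 1))
    (oV : ordge (q + j) (V - 1)) (oH : ordge q (H - 1)) (oC : ordge (p + q) (H * Y - 1)) :
    ordge (p + q + 2 * j + 1)
      (((Y' * H' * U' * X') * V' * (X * U * H * Y)) * (Y' * H' * U' * H * U * Y) * V - 1 -
        ((Y' * (U - 1) * Y - (Y' * H') * (U - 1) * (H * Y) + (V - 1)
          - (Y' * H' * X') * (V - 1) * (X * H * Y)) +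
          ((U - 1) * (V - 1) - (V - 1) * (U - 1)))) := by
  have hX3 : ∀ a, X' * (X * a) = a := fun a => by rw [← mul_assoc, hX, one_mul]
  have hX4 : ∀ a, X * (X' * a) = a := fun a => by rw [← mul_assoc, hX2, one_mul]
  have hY3 : ∀ a, Y' * (Y * a) = a := fun a => by rw [← mul_assoc, hY, one_mul]
  have hY4 : ∀ a, Y * (Y' * a) = a := fun a => by rw [← mul_assoc, hY2, one_mul]
  have hU3 : ∀ a, U' * (U * a) = a := fun a => by rw [← mul_assoc, hU, one_mul]
  have hU4 : ∀ a, U * (U' * a) = a := fun a => by rw [← mul_assoc, hU2, one_mul]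
  have hV3 : ∀ a, V' * (V * a) = a := fun a => by rw [← mul_assoc, hV, one_mul]
  have hV4 : ∀ a, V * (V' * a) = a := fun a => by rw [← mul_assoc, hV2, one_mul]
  have hH3 : ∀ a, H' * (H * a) = a := fun a => by rw [← mul_assoc, hH, one_mul]
  have hH4 : ∀ a, H * (H' * a) = a := fun a => by rw [← mul_assoc, hH2, one_mul]
  -- orders
  have oU' := oi hU oU
  have oV' := oi hV oV
  have hCC : (Y' * H') * (H * Y) = 1 := by rw [mul_assoc, hH3, hY]
  -- `W - 1`
  have oW : ordge p (X * U * H * Y - 1) := by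
    have h : X * U * H * Y - 1 = (X - 1) * (U * H * Y) + ((U - 1) * (H * Y) + (H * Y - 1)) := by
      noncomm_ring
    rw [h]
    exact oa (omr _ oX) (oa (omr _ (ole oU (by omega))) (ole oC (by omega)))
  -- `e1`
  have oe : ordge (p + q + j) (Y' * H' * U' * H * U * Y - 1) := by
    have h : Y' * H' * U' * H * U * Y - 1 =
        Y' * H' * U' * (H * (U - 1) - (U - 1) * H) * Y := by
      simp only [mul_sub, sub_mul, mul_assoc, mul_one, one_mul, hX, hX2, hY, hY2, hU, hU2, hV,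
        hV2, hH, hH2, hX3, hX4, hY3, hY4, hU3, hU4, hV3, hV4, hH3, hH4]
      abel
    rw [h]
    exact omr _ (oml _ (ole (oc oH oU) (by omega)))
  -- first part
  have o1 : ordge (p + q + 2 * j + 1) (Y' * H' * (U' - 1) * (H * (U - 1) - (U - 1) * H) * Y) := by
    refine omr _ ?_
    rw [mul_assoc, mul_assoc]
    refine oml _ (oml _ ?_)
    exact ole (om oU' (oc oH oU)) (by omega)
  -- second part
  have o2 : ordge (p + q + 2 * j + 1) ((Y' * H' * U' * X') * (V' - 1) *
      ((X * U * H * Y) * (V - 1) - (V - 1) * (X * U * H * Y))) := by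
    rw [mul_assoc]
    exact oml _ (ole (om oV' (oc oW oV)) (by omega))
  have o3 : ordge (p + q + 2 * j + 1) ((Y' * H' * U' * X') * (V' - 1) * (X * U * H * Y) *
      (Y' * H' * U' * H * U * Y - 1) * V) := by
    exact omr _ (ole (om (omr _ (oml _ oV')) oe) (by omega))
  have o4 : ordge (p + q + 2 * j + 1) ((Y' * H' * U' * H * U * Y - 1) * (V - 1)) :=
    ole (om oe oV) (by omega)
  -- third part: `ε₁ = X' ε X`
  have oe1 : ordge (p + (q + j)) (X' * (V - 1) * X - (V - 1)) := by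
    have h : X' * (V - 1) * X - (V - 1) = X' * (0 - (X * (V - 1) - (V - 1) * X)) := by
      simp only [mul_sub, sub_mul, mul_assoc, mul_one, one_mul, hX, hX3, zero_sub, mul_neg]
      abel
    rw [h]
    exact oml _ (os (fun i _ => by simp) (oc oX oV))
  have oe2 : ordge (q + j) (X' * (V - 1) * X) := omr _ (oml _ oV)
  have oZ0 : ordge (p + q + 2 * j)
      ((X' * (V - 1) * X) * (U - 1) - (U - 1) * (X' * (V - 1) * X)) :=
    os (ole (om oe2 oU) (by omega)) (ole (om oU oe2) (by omega))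
  have o5 : ordge (p + q + 2 * j + 1)
      ((U' - 1) * ((X' * (V - 1) * X) * (U - 1) - (U - 1) * (X' * (V - 1) * X))) :=
    ole (om oU' oZ0) (by omega)
  have o6 : ordge (p + q + 2 * j + 1)
      ((X' * (V - 1) * X - (V - 1)) * (U - 1) - (U - 1) * (X' * (V - 1) * X - (V - 1))) :=
    os (ole (om oe1 oU) (by omega)) (ole (om oU oe1) (by omega))
  have o7 : ordge (p + q + 2 * j + 1)
      ((Y' * H') * (0 - ((H * Y) *
        (U' * ((X' * (V - 1) * X) * (U - 1) - (U - 1) * (X' * (V - 1) * X))) -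
        (U' * ((X' * (V - 1) * X) * (U - 1) - (U - 1) * (X' * (V - 1) * X))) * (H * Y)))) :=
    oml _ (os (fun i _ => by simp) (ole (oc oC (oml _ oZ0)) (by omega)))
  have key := os (oa (oa (oa o1 o2) o3) o4) (oa (oa o5 o6) o7)
  refine Eq.mp (congrArg _ ?_) key
  simp only [mul_sub, sub_mul, mul_assoc, mul_one, one_mul, hX, hX2, hY, hY2, hU, hU2, hV,
    hV2, hH, hH2, hX3, hX4, hY3, hY4, hU3, hU4, hV3, hV4, hH3, hH4, zero_sub, mul_neg]
  abel

theorem conj_sub {X X' : PS A} (h : X' * X = 1) (d : PS A) :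
    X' * d * X - d = X' * (0 - (X * d - d * X)) := by
  simp only [mul_sub, ← mul_assoc, h, mul_zero, one_mul]
  abel

theorem toO {r k : ℕ} (h0 : ∀ x : FreeGroup (Fin r), coeff 0 (mag x) = 1)
    {x : FreeGroup (Fin r)} (h : D k x) : ordge k (mag x - 1) := by
  intro i hi
  rw [map_sub, coeff_one]
  by_cases hi0 : i = 0
  · subst hi0
    rw [h0, if_pos rfl, sub_self]
  · rw [if_neg hi0, sub_zero]
    exact h i (by omega) hi

end TLIN

open TLIN in
theorem t_LIN (h1 : S_BAS) : S_LIN := by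
  intro r p q j x y u v hp hq hj hx hy hu hv
  obtain ⟨b0, bm, _, bi, bc, _, _, _, bcm, _, _⟩ := h1 (Fin r)
  have m1 : mag (1 : FreeGroup (Fin r)) = 1 := by simp [mag]
  have ml : ∀ g : FreeGroup (Fin r), mag g⁻¹ * mag g = 1 := fun g => by
    rw [← bm, inv_mul_cancel, m1]
  have mr : ∀ g : FreeGroup (Fin r), mag g * mag g⁻¹ = 1 := fun g => by
    rw [← bm, mul_inv_cancel, m1]
  have hh : D q (x⁻¹ * y⁻¹ * x) := bc q y⁻¹ x (bi q y hy)
  have hcm := (bcm p q x y hp hq hx hy).1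
  have hC : mag (x⁻¹ * y⁻¹ * x) * mag y = mag (cm x y) := by rw [← bm]; rfl
  have key := core (p := p) (q := q) (j := j) hp hq (ml x) (mr x) (ml y) (mr y) (ml u) (mr u)
    (ml v) (mr v) (ml (x⁻¹ * y⁻¹ * x)) (mr (x⁻¹ * y⁻¹ * x)) (toO b0 hx) (toO b0 hu) (toO b0 hv)
    (toO b0 hh) (by rw [hC]; exact toO b0 hcm)
  have hg : (cm x y)⁻¹ * cm (x * u) (y * v) =
      (y⁻¹ * (x⁻¹ * y⁻¹ * x)⁻¹ * u⁻¹ * x⁻¹) * v⁻¹ * (x * u * (x⁻¹ * y⁻¹ * x) * y) *
        (y⁻¹ * (x⁻¹ * y⁻¹ * x)⁻¹ * u⁻¹ * (x⁻¹ * y⁻¹ * x) * u * y) * v := by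
    unfold cm; group
  have hmag : mag ((cm x y)⁻¹ * cm (x * u) (y * v)) =
      ((mag y⁻¹ * mag (x⁻¹ * y⁻¹ * x)⁻¹ * mag u⁻¹ * mag x⁻¹) * mag v⁻¹ *
        (mag x * mag u * mag (x⁻¹ * y⁻¹ * x) * mag y)) *
        (mag y⁻¹ * mag (x⁻¹ * y⁻¹ * x)⁻¹ * mag u⁻¹ * mag (x⁻¹ * y⁻¹ * x) * mag u * mag y) *
        mag v := by
    rw [hg]
    simp only [bm]
  have hC' : mag y⁻¹ * mag (x⁻¹ * y⁻¹ * x)⁻¹ = mag (cm x y)⁻¹ := by
    rw [← bm]; congr 1; unfold cm; group
  have hXC : mag x * mag (x⁻¹ * y⁻¹ * x) * mag y = mag (x * cm x y) := by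
    rw [← bm, ← bm]; congr 1; unfold cm; group
  have hXC' : mag y⁻¹ * mag (x⁻¹ * y⁻¹ * x)⁻¹ * mag x⁻¹ = mag (x * cm x y)⁻¹ := by
    rw [← bm, ← bm]; congr 1; unfold cm; group
  rw [← hmag, hC, hXC', hXC, hC'] at key
  have key2 : ordge (p + q + 2 * j + 1) (mag ((cm x y)⁻¹ * cm (x * u) (y * v)) - 1 -
      (Psi x y (mag u - 1) (mag v - 1) + br (mag u - 1) (mag v - 1))) := key
  have hval : ∀ i, 1 ≤ i → i ≤ p + q + 2 * j → cf i ((cm x y)⁻¹ * cm (x * u) (y * v)) =
      coeff i (Psi x y (mag u - 1) (mag v - 1) + br (mag u - 1) (mag v - 1)) := by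
    intro i hi hi'
    have h := key2 i (by omega)
    rw [map_sub, map_sub, coeff_one, if_neg (by omega), sub_zero, sub_eq_zero] at h
    exact h
  refine ⟨?_, hval⟩
  intro i hi hi'
  rw [hval i hi (by omega)]
  have oU := toO b0 hu
  have oV := toO b0 hv
  have oX := toO b0 hx
  have oY := toO b0 hy
  have oC := toO b0 hcm
  have o1 : ordge (p + q + j) (mag y⁻¹ * (mag u - 1) * mag y -
      mag (cm x y)⁻¹ * (mag u - 1) * mag (cm x y)) := by
    have e1 : mag y⁻¹ * (mag u - 1) * mag y - (mag u - 1) =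
        mag y⁻¹ * (0 - (mag y * (mag u - 1) - (mag u - 1) * mag y)) := conj_sub (ml y) _
    have e2 : mag (cm x y)⁻¹ * (mag u - 1) * mag (cm x y) - (mag u - 1) =
        mag (cm x y)⁻¹ * (0 - (mag (cm x y) * (mag u - 1) - (mag u - 1) * mag (cm x y))) :=
      conj_sub (ml (cm x y)) _
    have z : ordge (p + q + j) (0 : PS (T (Fin r))) := fun i _ => by simp
    have a1 : ordge (p + q + j) (mag y⁻¹ * (mag u - 1) * mag y - (mag u - 1)) := by
      rw [e1]; exact oml _ (os z (ole (oc oY oU) (by omega)))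
    have a2 : ordge (p + q + j)
        (mag (cm x y)⁻¹ * (mag u - 1) * mag (cm x y) - (mag u - 1)) := by
      rw [e2]; exact oml _ (os z (ole (oc oC oU) (by omega)))
    have := os a1 a2
    rwa [sub_sub_sub_cancel_right] at this
  have oXC : ordge p (mag (x * cm x y) - 1) := by
    have h : mag (x * cm x y) - 1 = (mag x - 1) * mag (cm x y) + (mag (cm x y) - 1) := by
      rw [bm]; noncomm_ring
    rw [h]; exact oa (omr _ oX) (ole oC (by omega))
  have o2 : ordge (p + q + j) ((mag v - 1) -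
      mag (x * cm x y)⁻¹ * (mag v - 1) * mag (x * cm x y)) := by
    have e := conj_sub (ml (x * cm x y)) (mag v - 1)
    have z : ordge (p + q + j) (0 : PS (T (Fin r))) := fun i _ => by simp
    have h := os z (oml (mag (x * cm x y)⁻¹) (os z (ole (oc oXC oV)
      (show p + q + j ≤ p + (q + j) by omega))))
    rw [← e, zero_sub, neg_sub] at h
    exact h
  have o3 : ordge (p + q + j) (br (mag u - 1) (mag v - 1)) :=
    os (ole (om oU oV) (by omega)) (ole (om oV oU) (by omega))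
  have o4 := oa (oa o1 o2) o3
  have e4 : (mag y⁻¹ * (mag u - 1) * mag y - mag (cm x y)⁻¹ * (mag u - 1) * mag (cm x y)) +
      ((mag v - 1) - mag (x * cm x y)⁻¹ * (mag v - 1) * mag (x * cm x y)) =
      Psi x y (mag u - 1) (mag v - 1) := by
    unfold Psi; abel
  rw [e4] at o4
  exact o4 i hi'

end Pool.Agent.H32CE
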