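import Pool.Agent.H32CE.St

set_option autoImplicit false

/-! # LOG: the logarithm of the Magnus expansion -/

namespace Pool.Agent.H32CE

open PowerSeries

namespace TLOG

section

variable {A : Type} [Ring A]

theorem ordge_mono {k l : ℕ} {f : PS A} (h : ordge l f) (hkl : k ≤ l) : ordge k f :=
  fun i hi => h i (by omega)

theorem ordge_mul {k l : ℕ} {f g : PS A} (hf : ordge k f) (hg : ordge l g) :
    ordge (k + l) (f * g) := by
  intro i hi
  rw [PowerSeries.coeff_mul]
  apply Finset.sum_eq_zero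
  rintro ⟨a, b⟩ hab
  rw [Finset.HasAntidiagonal.mem_antidiagonal] at hab
  simp only at hab
  rcases lt_or_ge a k with h | h
  · rw [hf a h, zero_mul]
  · rw [hg b (by omega), mul_zero]

theorem ordge_add {k : ℕ} {f g : PS A} (hf : ordge k f) (hg : ordge k g) : ordge k (f + g) := by
  intro i hi
  rw [map_add, hf i hi, hg i hi, add_zero]

theorem ordge_sub {k : ℕ} {f g : PS A} (hf : ordge k f) (hg : ordge k g) : ordge k (f - g) := by
  intro i hi
  rw [map_sub, hf i hi, hg i hi, sub_zero]

theorem ordge_zero (f : PS A) : ordge 0 f := fun i hi => absurd hi (Nat.not_lt_zero i)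

theorem ordge_pow {f : PS A} (hf : ordge 1 f) (k : ℕ) : ordge k (f ^ k) := by
  induction k with
  | zero => exact ordge_zero _
  | succ k ih =>
    rw [pow_succ]
    exact ordge_mul ih hf

/-- the sum of a sequence with `ordge k (s k)` -/
noncomputable def Sm (s : ℕ → PS A) : PS A :=
  PowerSeries.mk fun n => ∑ k ∈ Finset.range (n + 1), coeff n (s k)

theorem Sm_coeff (s : ℕ → PS A) (h : ∀ k, ordge k (s k)) (n N : ℕ) (hN : n ≤ N) :
    coeff n (Sm s) = ∑ k ∈ Finset.range (N + 1), coeff n (s k) := by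
  rw [Sm, PowerSeries.coeff_mk]
  apply Finset.sum_subset
  · intro k hk
    rw [Finset.mem_range] at hk ⊢
    omega
  · intro k _ hk
    rw [Finset.mem_range] at hk
    exact h k n (by omega)

theorem Sm_ordge (s : ℕ → PS A) (m : ℕ) (h : ∀ k, ordge m (s k)) : ordge m (Sm s) := by
  intro i hi
  rw [Sm, PowerSeries.coeff_mk]
  exact Finset.sum_eq_zero fun k _ => h k i hi

theorem mul_Sm (f : PS A) (s : ℕ → PS A) (h : ∀ k, ordge k (s k)) :
    f * Sm s = Sm fun k => f * s k := by
  ext n
  rw [Sm_coeff (fun k => f * s k) (fun k => by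
    have := ordge_mul (ordge_zero f) (h k)
    rwa [zero_add] at this) n n le_rfl, PowerSeries.coeff_mul]
  simp_rw [PowerSeries.coeff_mul]
  rw [Finset.sum_comm]
  apply Finset.sum_congr rfl
  rintro ⟨a, b⟩ hab
  rw [Finset.HasAntidiagonal.mem_antidiagonal] at hab
  simp only at hab ⊢
  rw [Sm_coeff s h b n (by omega), Finset.mul_sum]

theorem Sm_mul (f : PS A) (s : ℕ → PS A) (h : ∀ k, ordge k (s k)) :
    Sm s * f = Sm fun k => s k * f := by
  ext n
  rw [Sm_coeff (fun k => s k * f) (fun k => by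
    have := ordge_mul (h k) (ordge_zero f)
    rwa [add_zero] at this) n n le_rfl, PowerSeries.coeff_mul]
  simp_rw [PowerSeries.coeff_mul]
  rw [Finset.sum_comm]
  apply Finset.sum_congr rfl
  rintro ⟨a, b⟩ hab
  rw [Finset.HasAntidiagonal.mem_antidiagonal] at hab
  simp only at hab ⊢
  rw [Sm_coeff s h a n (by omega), Finset.sum_mul]

theorem Sm_sub (s t : ℕ → PS A) : Sm s - Sm t = Sm fun k => s k - t k := by
  ext n
  simp only [Sm, map_sub, PowerSeries.coeff_mk, Finset.sum_sub_distrib]

theorem Sm_shift (s : ℕ → PS A) (h : ∀ k, ordge k (s k)) :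
    Sm s = s 0 + Sm fun k => s (k + 1) := by
  ext n
  rw [map_add, Sm_coeff s h n (n + 1) (by omega), Finset.sum_range_succ']
  rw [Sm, PowerSeries.coeff_mk, add_comm]

theorem Sm_dbl (S : ℕ → ℕ → PS A) (h : ∀ i j, ordge (i + j) (S i j)) :
    (Sm fun k => ∑ p ∈ Finset.HasAntidiagonal.antidiagonal k, S p.1 p.2) = Sm fun i => Sm fun j => S i j := by
  have h1 : ∀ k, ordge k (∑ p ∈ Finset.HasAntidiagonal.antidiagonal k, S p.1 p.2) := by
    intro k i hi
    rw [map_sum]
    apply Finset.sum_eq_zero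
    rintro ⟨a, b⟩ hab
    rw [Finset.HasAntidiagonal.mem_antidiagonal] at hab
    simp only at hab ⊢
    exact h a b i (by omega)
  have h2 : ∀ i, ordge i (Sm fun j => S i j) := fun i =>
    Sm_ordge _ i fun j => ordge_mono (h i j) (by omega)
  ext n
  rw [Sm_coeff _ h1 n n le_rfl, Sm_coeff _ h2 n n le_rfl]
  have h3 : ∀ i ∈ Finset.range (n + 1), coeff n (Sm fun j => S i j) =
      ∑ j ∈ Finset.range (n + 1), coeff n (S i j) := fun i _ =>
    Sm_coeff _ (fun j => ordge_mono (h i j) (by omega)) n n le_rfl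
  rw [Finset.sum_congr rfl h3]
  simp_rw [map_sum]
  rw [← Finset.sum_product', Finset.sum_sigma']
  apply Finset.sum_of_injOn (fun x : (_ : ℕ) × ℕ × ℕ => x.2)
  · rintro ⟨k, a, b⟩ hx ⟨k', a', b'⟩ hx' hxy
    simp only [Finset.coe_sigma, Set.mem_sigma_iff, Finset.mem_coe, Finset.mem_range,
      Finset.HasAntidiagonal.mem_antidiagonal] at hx hx'
    simp only [Prod.mk.injEq] at hxy
    obtain ⟨rfl, rfl⟩ := hxy
    have : k = k' := by rw [← hx.2, ← hx'.2]
    subst this
    rfl
  · rintro ⟨k, a, b⟩ hx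
    simp only [Finset.coe_sigma, Set.mem_sigma_iff, Finset.mem_coe, Finset.mem_range,
      Finset.HasAntidiagonal.mem_antidiagonal, Finset.coe_product, Set.mem_prod] at hx ⊢
    omega
  · rintro ⟨a, b⟩ hx hnot
    simp only [Finset.mem_product, Finset.mem_range] at hx
    have h4 : n < a + b := by
      by_contra hcon
      apply hnot
      refine ⟨⟨a + b, a, b⟩, ?_, rfl⟩
      simp only [Finset.coe_sigma, Set.mem_sigma_iff, Finset.mem_coe, Finset.mem_range,
        Finset.HasAntidiagonal.mem_antidiagonal, and_true]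
      omega
    exact h a b n h4
  · rintro ⟨k, a, b⟩ _
    rfl

end

section

variable {A : Type} [Ring A] [Algebra ℝ A]

theorem coeff_rsmul (c : ℝ) (f : PS A) (n : ℕ) : coeff n (c • f) = c • coeff n f := rfl

theorem ordge_rsmul {k : ℕ} {f : PS A} (c : ℝ) (hf : ordge k f) : ordge k (c • f) := by
  intro i hi
  rw [coeff_rsmul, hf i hi, smul_zero]

/-- the exponential -/
noncomputable def E (f : PS A) : PS A := Sm fun k => ((k.factorial : ℝ)⁻¹) • f ^ k

theorem E_ord {f : PS A} (hf : ordge 1 f) (k : ℕ) : ordge k (((k.factorial : ℝ)⁻¹) • f ^ k) :=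
  ordge_rsmul _ (ordge_pow hf k)

theorem E_add {a b : PS A} (ha : ordge 1 a) (hb : ordge 1 b) (h : Commute a b) :
    E (a + b) = E a * E b := by
  have h1 : E a * E b = Sm fun i => Sm fun j =>
      (((i.factorial : ℝ)⁻¹) • a ^ i) * (((j.factorial : ℝ)⁻¹) • b ^ j) := by
    rw [E, Sm_mul _ _ (E_ord ha)]
    congr 1
    funext i
    rw [E, mul_Sm _ _ (E_ord hb)]
  rw [h1, ← Sm_dbl _ (fun i j => ordge_mul (E_ord ha i) (E_ord hb j)), E]
  congr 1
  funext k
  rw [h.add_pow', Finset.smul_sum]
  apply Finset.sum_congr rfl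
  rintro ⟨i, j⟩ hij
  rw [Finset.HasAntidiagonal.mem_antidiagonal] at hij
  simp only at hij ⊢
  rw [smul_mul_smul_comm, ← hij, ← Nat.cast_smul_eq_nsmul ℝ, smul_smul]
  congr 1
  have hch := Nat.add_choose_mul_factorial_mul_factorial i j
  rw [← Nat.choose_symm_add] at hch
  have hch' : ((i + j).choose i : ℝ) * i.factorial * j.factorial = (i + j).factorial := by
    exact_mod_cast hch
  have e1 : ((i + j).factorial : ℝ) ≠ 0 := by positivity
  have e2 : ((i).factorial : ℝ) ≠ 0 := by positivity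
  have e3 : ((j).factorial : ℝ) ≠ 0 := by positivity
  field_simp
  linarith

theorem E_zero : E (0 : PS A) = 1 := by
  rw [E, Sm_shift]
  · have h1 : (Sm fun k => (((k + 1).factorial : ℝ)⁻¹) • (0 : PS A) ^ (k + 1)) = 0 := by
      ext n
      rw [Sm, PowerSeries.coeff_mk]
      rw [map_zero]
      apply Finset.sum_eq_zero
      intro k _
      rw [pow_succ, mul_zero, smul_zero, map_zero]
    rw [h1, add_zero]
    simp
  · intro k
    exact E_ord (fun i _ => by rw [map_zero]) k

theorem pow_diff {a b : PS A} (ha : ordge 1 a) (hb : ordge 1 b) {n : ℕ} (h : ordge n (a - b))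
    (k : ℕ) : ordge (n + k) (a ^ (k + 1) - b ^ (k + 1)) := by
  induction k with
  | zero => simpa using h
  | succ k ih =>
    have e : a ^ (k + 1 + 1) - b ^ (k + 1 + 1) =
        (a ^ (k + 1) - b ^ (k + 1)) * a + b ^ (k + 1) * (a - b) := by
      rw [pow_succ a (k + 1), pow_succ b (k + 1)]
      noncomm_ring
    rw [e]
    apply ordge_add
    · exact ordge_mono (ordge_mul ih ha) (by omega)
    · have := ordge_mul (ordge_pow hb (k + 1)) h
      exact ordge_mono this (by omega)

theorem E_diff {a b : PS A} (ha : ordge 1 a) (hb : ordge 1 b) {n : ℕ} (h : ordge n (a - b)) :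
    ordge n (E a - E b) ∧ coeff n (E a - E b) = coeff n (a - b) := by
  have h1 : E a - E b = Sm fun k => (((k.factorial : ℝ)⁻¹) • (a ^ k - b ^ k)) := by
    rw [E, E, Sm_sub]
    congr 1
    funext k
    rw [smul_sub]
  have hord : ∀ k, ordge k (((k.factorial : ℝ)⁻¹) • (a ^ k - b ^ k)) := fun k =>
    ordge_rsmul _ (ordge_sub (ordge_pow ha k) (ordge_pow hb k))
  rw [h1, Sm_shift _ hord]
  have h2 : ((Nat.factorial 0 : ℝ)⁻¹) • (a ^ 0 - b ^ 0) = 0 := by simp
  rw [h2, zero_add, Sm_shift]
  · have h3 : (((0 + 1).factorial : ℝ)⁻¹) • (a ^ (0 + 1) - b ^ (0 + 1)) = a - b := by simp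
    rw [h3]
    have h4 : ordge (n + 1) (Sm fun k => (((k + 1 + 1).factorial : ℝ)⁻¹) •
        (a ^ (k + 1 + 1) - b ^ (k + 1 + 1))) := by
      apply Sm_ordge
      intro k
      apply ordge_rsmul
      exact ordge_mono (pow_diff ha hb h (k + 1)) (by omega)
    refine ⟨ordge_add h (ordge_mono h4 (by omega)), ?_⟩
    rw [map_add, h4 n (by omega), add_zero]
  · intro k
    exact ordge_mono (hord (k + 1)) (by omega)

theorem E_inj {a b : PS A} (ha : ordge 1 a) (hb : ordge 1 b) (h : E a = E b) : a = b := by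
  have h1 : ∀ n, ordge n (a - b) := by
    intro n
    induction n with
    | zero => exact ordge_zero _
    | succ n ih =>
      intro i hi
      rcases Nat.lt_succ_iff_lt_or_eq.1 hi with h2 | h2
      · exact ih i h2
      · have h3 := (E_diff ha hb ih).2
        rw [h, sub_self, map_zero] at h3
        rw [h2]
        exact h3.symm
  ext n
  have := h1 (n + 1) n (by omega)
  rw [map_sub, sub_eq_zero] at this
  exact this

/-- all coefficients in the graded pieces `M` -/
def HH (M : ℕ → Submodule ℝ A) (f : PS A) : Prop := ∀ i, coeff i f ∈ M i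

theorem HH_mul {M : ℕ → Submodule ℝ A} (hM : ∀ i j a b, a ∈ M i → b ∈ M j → a * b ∈ M (i + j))
    {f g : PS A} (hf : HH M f) (hg : HH M g) : HH M (f * g) := by
  intro n
  rw [PowerSeries.coeff_mul]
  apply Submodule.sum_mem
  rintro ⟨a, b⟩ hab
  rw [Finset.HasAntidiagonal.mem_antidiagonal] at hab
  simp only at hab ⊢
  rw [← hab]
  exact hM a b _ _ (hf a) (hg b)

theorem HH_one {M : ℕ → Submodule ℝ A} (h1 : (1 : A) ∈ M 0) : HH M (1 : PS A) := by
  intro n
  rw [PowerSeries.coeff_one]
  split_ifs with h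
  · rw [h]; exact h1
  · exact Submodule.zero_mem _

theorem HH_pow {M : ℕ → Submodule ℝ A} (hM : ∀ i j a b, a ∈ M i → b ∈ M j → a * b ∈ M (i + j))
    (h1 : (1 : A) ∈ M 0) {f : PS A} (hf : HH M f) (k : ℕ) : HH M (f ^ k) := by
  induction k with
  | zero => rw [pow_zero]; exact HH_one h1
  | succ k ih => rw [pow_succ]; exact HH_mul hM ih hf

theorem HH_Sm {M : ℕ → Submodule ℝ A} {s : ℕ → PS A} (hs : ∀ k, HH M (s k)) : HH M (Sm s) := by
  intro n
  rw [Sm, PowerSeries.coeff_mk]
  exact Submodule.sum_mem _ fun k _ => hs k n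

theorem HH_smul {M : ℕ → Submodule ℝ A} (c : ℝ) {f : PS A} (hf : HH M f) : HH M (c • f) := by
  intro n
  rw [coeff_rsmul]
  exact Submodule.smul_mem _ _ (hf n)

theorem HH_E {M : ℕ → Submodule ℝ A} (hM : ∀ i j a b, a ∈ M i → b ∈ M j → a * b ∈ M (i + j))
    (h1 : (1 : A) ∈ M 0) {f : PS A} (hf : HH M f) : HH M (E f) :=
  HH_Sm fun k => HH_smul _ (HH_pow hM h1 hf k)

/-- successive approximations of the logarithm -/
noncomputable def lg (g : PS A) : ℕ → PS A
  | 0 => 0
  | n + 1 => lg g n + PowerSeries.monomial (n + 1) (coeff (n + 1) (g - E (lg g n)))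

theorem lg_succ (g : PS A) (n : ℕ) : lg g (n + 1) =
    lg g n + PowerSeries.monomial (n + 1) (coeff (n + 1) (g - E (lg g n))) := rfl

theorem lg_coeff (g : PS A) (n i : ℕ) (hi : i ≤ n) (m : ℕ) (hm : n ≤ m) :
    coeff i (lg g m) = coeff i (lg g n) := by
  induction m, hm using Nat.le_induction with
  | base => rfl
  | succ m hm ih =>
    rw [lg_succ, map_add, ih, PowerSeries.coeff_monomial, if_neg (by omega), add_zero]

theorem lg_ord (g : PS A) (n : ℕ) : ordge 1 (lg g n) := by
  intro i hi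
  rw [lg_coeff g 0 i (by omega) n (by omega)]
  change coeff i (0 : PS A) = 0
  rw [map_zero]

/-- the logarithm -/
noncomputable def LL (g : PS A) : PS A := PowerSeries.mk fun n => coeff n (lg g n)

theorem LL_sub (g : PS A) (n : ℕ) : ordge (n + 1) (LL g - lg g n) := by
  intro i hi
  rw [map_sub, LL, PowerSeries.coeff_mk, lg_coeff g i i le_rfl n (by omega), sub_self]

theorem LL_ord (g : PS A) : ordge 1 (LL g) := by
  intro i hi
  rw [LL, PowerSeries.coeff_mk]
  exact lg_ord g i i hi

theorem E_LL (g : PS A) (hg : coeff 0 g = 1) : E (LL g) = g := by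
  have h0 : ∀ n, coeff n (E (lg g n)) = coeff n g := by
    intro n
    cases n with
    | zero =>
      change coeff 0 (E (0 : PS A)) = _
      rw [E_zero, hg, PowerSeries.coeff_one, if_pos rfl]
    | succ n =>
      have h1 : ordge (n + 1) (lg g (n + 1) - lg g n) := by
        intro i hi
        rw [lg_succ, add_sub_cancel_left, PowerSeries.coeff_monomial, if_neg (by omega)]
      have h2 := (E_diff (lg_ord g (n + 1)) (lg_ord g n) h1).2
      rw [lg_succ, add_sub_cancel_left, PowerSeries.coeff_monomial, if_pos rfl, ← lg_succ,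
        map_sub, map_sub, sub_left_inj] at h2
      exact h2
  ext n
  have h1 := (E_diff (LL_ord g) (lg_ord g n) (LL_sub g n)).1 n (by omega)
  rw [map_sub, sub_eq_zero] at h1
  rw [h1, h0]

theorem HH_LL {M : ℕ → Submodule ℝ A} (hM : ∀ i j a b, a ∈ M i → b ∈ M j → a * b ∈ M (i + j))
    (h1 : (1 : A) ∈ M 0) {g : PS A} (hg : HH M g) : HH M (LL g) := by
  have h2 : ∀ n, HH M (lg g n) := by
    intro n
    induction n with
    | zero =>
      intro i
      change coeff i (0 : PS A) ∈ M i
      rw [map_zero]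
      exact Submodule.zero_mem _
    | succ n ih =>
      intro i
      rw [lg_succ, map_add]
      apply Submodule.add_mem _ (ih i)
      rw [PowerSeries.coeff_monomial]
      split_ifs with h
      · rw [h, map_sub]
        exact Submodule.sub_mem _ (hg _) (HH_E hM h1 ih _)
      · exact Submodule.zero_mem _
  intro n
  rw [LL, PowerSeries.coeff_mk]
  exact h2 n n

/-- naturality -/
theorem map_E {B : Type} [Ring B] [Algebra ℝ B] (φ : A →ₐ[ℝ] B) (f : PS A) :
    PowerSeries.map (φ : A →+* B) (E f) = E (PowerSeries.map (φ : A →+* B) f) := by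
  ext n
  rw [PowerSeries.coeff_map, E, E, Sm, Sm, PowerSeries.coeff_mk, PowerSeries.coeff_mk, map_sum]
  apply Finset.sum_congr rfl
  intro k _
  rw [← map_pow, coeff_rsmul, coeff_rsmul, PowerSeries.coeff_map]
  exact map_smul φ _ _

end

section

variable {ι : Type}

/-- the algebra of pairs of words -/
abbrev TT (ι : Type) := MonoidAlgebra ℝ (FreeMonoid ι × FreeMonoid ι)

theorem lft_rgt (a b : T ι) : Commute (lft ι a) (rgt ι b) := by
  induction a using MonoidAlgebra.induction_linear with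
  | zero => rw [map_zero]; exact Commute.zero_left _
  | add x y hx hy => rw [map_add]; exact hx.add_left hy
  | single m r =>
    induction b using MonoidAlgebra.induction_linear with
    | zero => rw [map_zero]; exact Commute.zero_right _
    | add x y hx hy => rw [map_add]; exact hx.add_right hy
    | single m' r' =>
      have h1 : lft ι (MonoidAlgebra.single m r) = MonoidAlgebra.single (m, 1) r := by
        simp [lft]
      have h2 : rgt ι (MonoidAlgebra.single m' r') = MonoidAlgebra.single (1, m') r' := by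
        simp [rgt]
      rw [h1, h2]
      unfold Commute SemiconjBy
      rw [MonoidAlgebra.single_mul_single, MonoidAlgebra.single_mul_single, mul_comm r r']
      congr 1
      rw [Prod.mk_mul_mk, Prod.mk_mul_mk, mul_one, one_mul, mul_one, one_mul]

theorem cop_X (i : ι) : cop ι (X i) = lft ι (X i) + rgt ι (X i) := by
  simp [cop, lft, rgt, X]

theorem Prim_br {u v : T ι} (hu : Prim u) (hv : Prim v) : Prim (br u v) := by
  unfold Prim br at *
  rw [map_sub, map_mul, map_mul, hu, hv, map_sub, map_sub, map_mul, map_mul, map_mul, map_mul]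
  have h1 := lft_rgt u v
  have h2 := lft_rgt v u
  unfold Commute SemiconjBy at h1 h2
  have e : (lft ι u + rgt ι u) * (lft ι v + rgt ι v) - (lft ι v + rgt ι v) * (lft ι u + rgt ι u) =
      lft ι u * lft ι v - lft ι v * lft ι u + (rgt ι u * rgt ι v - rgt ι v * rgt ι u) +
      (lft ι u * rgt ι v - rgt ι v * lft ι u) - (lft ι v * rgt ι u - rgt ι u * lft ι v) := by
    noncomm_ring
  rw [e, h1, h2, sub_self, sub_self, add_zero, sub_zero]

theorem wd_mul (w : ι → ℕ) (a b : FreeMonoid ι) : wd w (a * b) = wd w a + wd w b := by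
  simp [wd]

theorem IsH_mul {w : ι → ℕ} {m n : ℕ} {u v : T ι} (hu : IsH w m u) (hv : IsH w n v) :
    IsH w (m + n) (u * v) := by
  classical
  intro x hx
  have h1 := MonoidAlgebra.support_coeff_mul_subset u v (Finsupp.mem_support_iff.2 hx)
  rw [Finset.mem_mul] at h1
  obtain ⟨a, ha, b, hb, rfl⟩ := h1
  rw [wd_mul, hu a (Finsupp.mem_support_iff.1 ha), hv b (Finsupp.mem_support_iff.1 hb)]

theorem IsH_add {w : ι → ℕ} {m : ℕ} {u v : T ι} (hu : IsH w m u) (hv : IsH w m v) :
    IsH w m (u + v) := by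
  intro x hx
  by_contra hcon
  apply hx
  have h1 : u.coeff x = 0 := by
    by_contra h; exact hcon (hu x h)
  have h2 : v.coeff x = 0 := by
    by_contra h; exact hcon (hv x h)
  rw [MonoidAlgebra.coeff_add, Finsupp.add_apply, h1, h2, add_zero]

theorem IsH_smul {w : ι → ℕ} {m : ℕ} {u : T ι} (c : ℝ) (hu : IsH w m u) :
    IsH w m (c • u) := by
  intro x hx
  by_contra hcon
  apply hx
  have h1 : u.coeff x = 0 := by
    by_contra h; exact hcon (hu x h)
  rw [MonoidAlgebra.coeff_smul_apply, h1, smul_zero]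

theorem IsH_zero (w : ι → ℕ) (m : ℕ) : IsH w m (0 : T ι) := by
  intro x hx
  exact absurd rfl hx

/-- homogeneous elements as a submodule -/
def Mh (ι : Type) (n : ℕ) : Submodule ℝ (T ι) where
  carrier := {f | IsH (fun _ => 1) n f}
  add_mem' := IsH_add
  zero_mem' := IsH_zero _ _
  smul_mem' := fun c _ h => IsH_smul c h

/-- primitive homogeneous elements as a submodule -/
def Mp (ι : Type) (n : ℕ) : Submodule ℝ (T ι) where
  carrier := {f | PH n f}
  add_mem' := by
    rintro a b ⟨h1, h2⟩ ⟨h3, h4⟩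
    refine ⟨IsH_add h1 h3, ?_⟩
    unfold Prim at *
    rw [map_add, map_add, map_add, h2, h4]
    abel
  zero_mem' := by
    refine ⟨IsH_zero _ _, ?_⟩
    unfold Prim
    rw [map_zero, map_zero, map_zero, add_zero]
  smul_mem' := by
    rintro c a ⟨h1, h2⟩
    refine ⟨IsH_smul c h1, ?_⟩
    unfold Prim at *
    rw [map_smul, map_smul, map_smul, h2, smul_add]

theorem PH_br {m n : ℕ} {u v : T ι} (hu : PH m u) (hv : PH n v) : PH (m + n) (br u v) := by
  refine ⟨?_, Prim_br hu.2 hv.2⟩
  have h1 := IsH_mul hu.1 hv.1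
  have h2 := IsH_mul hv.1 hu.1
  rw [add_comm n m] at h2
  have h3 := IsH_add h1 (IsH_smul (-1 : ℝ) h2)
  unfold br
  rw [sub_eq_add_neg]
  rwa [neg_one_smul] at h3

theorem PP_iff (f : PS (T ι)) : PP f ↔ HH (Mp ι) f := Iff.rfl

theorem PP_br {f g : PS (T ι)} (hf : PP f) (hg : PP g) : PP (br f g) := by
  rw [PP_iff]
  intro n
  unfold br
  rw [map_sub, PowerSeries.coeff_mul, PowerSeries.coeff_mul]
  rw [← Finset.Nat.sum_antidiagonal_swap (f := fun p : ℕ × ℕ => coeff p.1 g * coeff p.2 f),
    ← Finset.sum_sub_distrib]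
  apply Submodule.sum_mem
  rintro ⟨a, b⟩ hab
  rw [Finset.HasAntidiagonal.mem_antidiagonal] at hab
  simp only [Prod.swap] at hab ⊢
  rw [← hab]
  exact PH_br (hf a) (hg b)

theorem map_ex {A B : Type} [Ring A] [Algebra ℝ A] [Ring B] [Algebra ℝ B] (φ : A →ₐ[ℝ] B)
    (w : ℕ) (x : A) : PowerSeries.map (φ : A →+* B) (ex w x) = ex w (φ x) := by
  ext n
  rw [PowerSeries.coeff_map, ex, ex, PowerSeries.coeff_mk, PowerSeries.coeff_mk]
  split_ifs
  · change φ _ = _
    rw [map_smul, map_pow]
  · exact map_zero _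

theorem PS_commute {B : Type} [Ring B] (f g : PS B) (h : ∀ i j, Commute (coeff i f) (coeff j g)) :
    Commute f g := by
  unfold Commute SemiconjBy
  ext n
  rw [PowerSeries.coeff_mul, PowerSeries.coeff_mul,
    ← Finset.Nat.sum_antidiagonal_swap (f := fun p : ℕ × ℕ => coeff p.1 g * coeff p.2 f)]
  apply Finset.sum_congr rfl
  rintro ⟨a, b⟩ _
  exact h a b

theorem map_lft_rgt (f g : PS (T ι)) :
    Commute (PowerSeries.map (lft ι : T ι →+* TT ι) f) (PowerSeries.map (rgt ι : T ι →+* TT ι) g) := by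
  apply PS_commute
  intro i j
  rw [PowerSeries.coeff_map, PowerSeries.coeff_map]
  exact lft_rgt _ _

/-- group-like -/
def GLk (f : PS (T ι)) : Prop := PowerSeries.map (cop ι : T ι →+* TT ι) f =
  PowerSeries.map (lft ι : T ι →+* TT ι) f * PowerSeries.map (rgt ι : T ι →+* TT ι) f

theorem GLk_ex {u : T ι} (hu : Prim u) : GLk (ex 1 u) := by
  unfold GLk
  rw [map_ex, map_ex, map_ex, hu, ex_add 1 le_rfl _ _ (lft_rgt u u)]

theorem GLk_mul {f g : PS (T ι)} (hf : GLk f) (hg : GLk g) : GLk (f * g) := by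
  unfold GLk at *
  rw [map_mul, map_mul, map_mul, hf, hg]
  have h1 := map_lft_rgt g f
  unfold Commute SemiconjBy at h1
  rw [mul_assoc, mul_assoc, ← mul_assoc (PowerSeries.map (rgt ι : T ι →+* TT ι) f), ← h1]
  noncomm_ring

theorem mag_mul (x y : FreeGroup ι) : mag (x * y) = mag x * mag y := by
  unfold mag
  rw [map_mul, Units.val_mul]

theorem mag_one : mag (1 : FreeGroup ι) = 1 := by
  unfold mag
  rw [map_one, Units.val_one]

theorem mag_of (i : ι) : mag (FreeGroup.of i) = ex 1 (X i) := by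
  unfold mag magU
  rw [FreeGroup.lift_apply_of]
  rfl

theorem mag_of_inv (i : ι) : mag (FreeGroup.of i)⁻¹ = ex 1 (-(X i)) := by
  unfold mag magU
  rw [map_inv, FreeGroup.lift_apply_of]
  rfl

theorem Prim_X (i : ι) : Prim (X i : T ι) := cop_X i

theorem Prim_neg {u : T ι} (hu : Prim u) : Prim (-u) := by
  unfold Prim at *
  rw [map_neg, map_neg, map_neg, hu, neg_add]

theorem GLk_mag (x : FreeGroup ι) : GLk (mag x) := by
  induction x using FreeGroup.induction_on with
  | C1 =>
    rw [mag_one]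
    unfold GLk
    rw [map_one, map_one, map_one, one_mul]
  | of i => rw [mag_of]; exact GLk_ex (Prim_X i)
  | inv_of i _ => rw [mag_of_inv]; exact GLk_ex (Prim_neg (Prim_X i))
  | mul x y hx hy => rw [mag_mul]; exact GLk_mul hx hy

theorem map_ordge {A B : Type} [Ring A] [Ring B] (φ : A →+* B) {k : ℕ} {f : PS A}
    (hf : ordge k f) : ordge k (PowerSeries.map φ f) := by
  intro i hi
  rw [PowerSeries.coeff_map, hf i hi, map_zero]

/-- the logarithm of a group-like series is primitive -/
theorem Prim_of_GLk {ξ : PS (T ι)} (h1 : ordge 1 ξ) (h2 : GLk (E ξ)) (n : ℕ) :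
    Prim (coeff n ξ) := by
  unfold GLk at h2
  rw [map_E, map_E, map_E, ← E_add (map_ordge _ h1) (map_ordge _ h1) (map_lft_rgt ξ ξ)] at h2
  have h3 := E_inj (map_ordge _ h1) (ordge_add (map_ordge _ h1) (map_ordge _ h1)) h2
  have h4 := congrArg (coeff n) h3
  rw [map_add, PowerSeries.coeff_map, PowerSeries.coeff_map, PowerSeries.coeff_map] at h4
  exact h4

end

section

variable {A : Type} [Ring A] [Algebra ℝ A]

theorem ad_formula (ξ ε : PS A) (k : ℕ) : ((k.factorial : ℝ)⁻¹) • (fun u => br ξ u)^[k] ε =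
    ∑ p ∈ Finset.HasAntidiagonal.antidiagonal k,
      (((p.1.factorial : ℝ)⁻¹) • ξ ^ p.1) * ε * (((p.2.factorial : ℝ)⁻¹) • (-ξ) ^ p.2) := by
  have h1 : (fun u => br ξ u) = ((LinearMap.mulLeft ℝ ξ + LinearMap.mulRight ℝ (-ξ) :
      Module.End ℝ (PS A)) : PS A → PS A) := by
    funext u
    rw [LinearMap.add_apply, LinearMap.mulLeft_apply, LinearMap.mulRight_apply]
    unfold br
    noncomm_ring
  have h2 : (fun u => br ξ u)^[k] ε =
      ((LinearMap.mulLeft ℝ ξ + LinearMap.mulRight ℝ (-ξ) : Module.End ℝ (PS A)) ^ k) ε := by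
    rw [h1, Module.End.pow_apply]
  rw [h2, (LinearMap.commute_mulLeft_right ξ (-ξ)).add_pow', LinearMap.sum_apply, Finset.smul_sum]
  apply Finset.sum_congr rfl
  rintro ⟨i, j⟩ hij
  rw [Finset.HasAntidiagonal.mem_antidiagonal] at hij
  simp only at hij ⊢
  rw [LinearMap.pow_mulLeft, LinearMap.pow_mulRight, ← Nat.cast_smul_eq_nsmul ℝ,
    LinearMap.smul_apply, Module.End.mul_apply, LinearMap.mulRight_apply, LinearMap.mulLeft_apply,
    smul_smul, smul_mul_assoc, smul_mul_assoc, mul_smul_comm, smul_smul, ← hij, mul_assoc]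
  congr 1
  have hch := Nat.add_choose_mul_factorial_mul_factorial i j
  rw [← Nat.choose_symm_add] at hch
  have hch' : ((i + j).choose i : ℝ) * i.factorial * j.factorial = (i + j).factorial := by
    exact_mod_cast hch
  have e1 : ((i + j).factorial : ℝ) ≠ 0 := by positivity
  have e2 : ((i).factorial : ℝ) ≠ 0 := by positivity
  have e3 : ((j).factorial : ℝ) ≠ 0 := by positivity
  field_simp
  linarith

theorem neg_ord {k : ℕ} {f : PS A} (h : ordge k f) : ordge k (-f) := by
  intro i hi
  rw [map_neg, h i hi, neg_zero]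

theorem E_conj {ξ : PS A} (hξ : ordge 1 ξ) (ε : PS A) : E ξ * ε * E (-ξ) =
    Sm fun k => ((k.factorial : ℝ)⁻¹) • (fun u => br ξ u)^[k] ε := by
  have hξ' := neg_ord hξ
  have h1 : E ξ * ε * E (-ξ) = Sm fun i => Sm fun j =>
      (((i.factorial : ℝ)⁻¹) • ξ ^ i) * ε * (((j.factorial : ℝ)⁻¹) • (-ξ) ^ j) := by
    have e1 : ∀ i, ordge i ((((i.factorial : ℝ)⁻¹) • ξ ^ i) * ε) := fun i => by
      have := ordge_mul (E_ord hξ i) (ordge_zero ε)
      rwa [add_zero] at this
    rw [E, Sm_mul _ _ (E_ord hξ), Sm_mul _ _ e1]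
    congr 1
    funext i
    rw [E, mul_Sm _ _ (E_ord hξ')]
  rw [h1, ← Sm_dbl]
  · congr 1
    funext k
    rw [ad_formula]
  · intro i j
    have := ordge_mul (ordge_mul (E_ord hξ i) (ordge_zero ε)) (E_ord hξ' j)
    rwa [add_zero] at this

end

end TLOG

open TLOG in
theorem t_LOG (h1 : S_GRP) (h2 : S_BAS) : S_LOG := by
  intro ι p x hp hx
  obtain ⟨b1, b2, -, -, -, -, -, -, -, b3, -⟩ := h2 ι
  set ξ : PS (T ι) := LL (mag x) with hξ
  have hE : E ξ = mag x := E_LL _ (b1 x)
  have hξ1 : ordge 1 ξ := LL_ord _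
  have hξH : HH (Mh ι) ξ := by
    apply HH_LL
    · intro i j a b ha hb
      exact IsH_mul ha hb
    · intro m hm
      rw [MonoidAlgebra.one_def, MonoidAlgebra.coeff_single] at hm
      have h3 : m = 1 := by
        by_contra hcon
        apply hm
        exact Finsupp.single_eq_of_ne hcon
      rw [h3]
      rfl
    · intro i
      exact b3 i x
  have hPP : PP ξ := fun n => ⟨hξH n, Prim_of_GLk hξ1 (by rw [hE]; exact GLk_mag x) n⟩
  have h0 : ordge 1 (0 : PS (T ι)) := fun i _ => by rw [map_zero]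
  have hco : ∀ n, ordge n ξ → coeff n ξ = coeff n (mag x - 1) := by
    intro n hn
    have h3 := (E_diff hξ1 h0 (n := n) (by rw [sub_zero]; exact hn)).2
    rw [hE, E_zero, sub_zero] at h3
    exact h3.symm
  have hord : ∀ n, n ≤ p → ordge n ξ := by
    intro n
    induction n with
    | zero => intro _; exact ordge_zero _
    | succ n ih =>
      intro hn i hi
      have h3 := ih (by omega)
      rcases Nat.lt_succ_iff_lt_or_eq.1 hi with h4 | h4
      · exact h3 i h4
      · rw [h4, hco n h3, map_sub, PowerSeries.coeff_one]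
        split_ifs with h5
        · rw [h5, b1, sub_self]
        · rw [sub_zero]
          exact hx n (by omega) (by omega)
  refine ⟨ξ, hPP, hord p le_rfl, ?_, ?_⟩
  · rw [hco p (hord p le_rfl), map_sub, PowerSeries.coeff_one, if_neg (by omega), sub_zero]
    rfl
  · intro q ε hε hεq
    have hinv : mag x⁻¹ = E (-ξ) := by
      have h3 : mag x * E (-ξ) = 1 := by
        rw [← hE, ← E_add hξ1 (neg_ord hξ1) (Commute.refl ξ).neg_right, add_neg_cancel, E_zero]
      unfold mag at h3 ⊢
      rw [map_inv]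
      exact Units.inv_eq_of_mul_eq_one_right h3
    let adn : ℕ → PS (T ι) := fun k => (fun u => br ξ u)^[k] ε
    have hadn : ∀ k, adn (k + 1) = br ξ (adn k) := fun k => Function.iterate_succ_apply' _ _ _
    have hPPa : ∀ k, PP (adn k) := by
      intro k
      induction k with
      | zero => exact hε
      | succ k ih => rw [hadn]; exact PP_br hPP ih
    have hbo : ∀ (k : ℕ) (u : PS (T ι)), ordge k u → ordge (k + 1) (br ξ u) := by
      intro k u hu
      unfold br
      apply ordge_sub
      · exact ordge_mono (ordge_mul hξ1 hu) (by omega)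
      · exact ordge_mul hu hξ1
    have hoa : ∀ k, ordge (q + k) (adn k) := by
      intro k
      induction k with
      | zero => exact hεq
      | succ k ih => rw [hadn]; exact hbo _ _ ih
    have hoa' : ∀ k, ordge k (adn k) := fun k => ordge_mono (hoa k) (by omega)
    have hs1 : ∀ k, ordge k ((((k + 1).factorial : ℝ)⁻¹) • adn k) := fun k =>
      ordge_rsmul _ (hoa' k)
    have hs0 : ∀ k, ordge k (((k.factorial : ℝ)⁻¹) • adn k) := fun k =>
      ordge_rsmul _ (hoa' k)
    refine ⟨Sm fun k => (((k + 1).factorial : ℝ)⁻¹) • adn k, ?_, ?_, ?_, ?_⟩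
    · rw [PP_iff]
      apply HH_Sm
      intro k
      exact HH_smul _ (hPPa k)
    · apply Sm_ordge
      intro k
      exact ordge_rsmul _ (ordge_mono (hoa k) (by omega))
    · rw [Sm_shift _ hs1, map_add]
      have h3 : ordge (q + 1) (Sm fun k => (((k + 1 + 1).factorial : ℝ)⁻¹) • adn (k + 1)) := by
        apply Sm_ordge
        intro k
        exact ordge_rsmul _ (ordge_mono (hoa (k + 1)) (by omega))
      rw [h3 q (by omega), add_zero, coeff_rsmul]
      change ((((0 + 1).factorial : ℕ) : ℝ)⁻¹) • coeff q ε = coeff q ε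
      simp
    · rw [← hE, hinv, E_conj hξ1]
      change (Sm fun k => ((k.factorial : ℝ)⁻¹) • adn k) - ε = _
      rw [Sm_shift _ hs0]
      have h3 : ((Nat.factorial 0 : ℝ)⁻¹) • adn 0 = ε := by
        change ((Nat.factorial 0 : ℝ)⁻¹) • ε = ε
        simp
      rw [h3, add_sub_cancel_left]
      unfold br
      rw [mul_Sm _ _ hs1, Sm_mul _ _ hs1, Sm_sub]
      congr 1
      funext k
      rw [hadn]
      unfold br
      rw [smul_sub, mul_smul_comm, smul_mul_assoc]

end Pool.Agent.H32CE
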