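import Pool.Agent.H32CE.St
import Pool.Agent.H67.OL.Words

set_option autoImplicit false

/-! LYN: Lyndon basis. -/

namespace Pool.Agent.H32CE

attribute [local instance 100] LieRing.ofAssociativeRing

namespace TLYN

section words

variable {α : Type} [LinearOrder α]

theorem append_le {u v x y : List α} (hl : x.length = u.length) (h1 : u ≤ x) (h2 : v ≤ y) :
    u ++ v ≤ x ++ y := by
  rcases h1.eq_or_lt with rfl | h1
  · rcases h2.eq_or_lt with rfl | h2
    · exact le_refl _
    · exact (H67OL.append_left_lt' u h2).le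
  · exact ((H67OL.SL_of_lt_of_length h1 hl.le).append v y).lt.le

theorem exists_std (w : List α) (h : 2 ≤ w.length) : ∃ p : List α × List α, w = p.1 ++ p.2 ∧
    p.1 ≠ [] ∧ p.2 ≠ [] ∧ ∀ x y, x ≠ [] → y ≠ [] → w = x ++ y → p.2 ≤ y := by
  obtain ⟨k, hk, hmin⟩ := Finset.exists_min_image (Finset.Ico 1 w.length) (fun k => w.drop k)
    ⟨1, Finset.mem_Ico.2 ⟨le_rfl, by omega⟩⟩
  rw [Finset.mem_Ico] at hk
  refine ⟨(w.take k, w.drop k), (List.take_append_drop k w).symm, ?_, ?_, ?_⟩
  · intro h1
    have := congrArg List.length h1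
    rw [List.length_take, List.length_nil] at this
    omega
  · intro h1
    have := congrArg List.length h1
    rw [List.length_drop, List.length_nil] at this
    omega
  · intro x y hx hy hw
    have hxl : 0 < x.length := List.length_pos_iff.2 hx
    have hyl : 0 < y.length := List.length_pos_iff.2 hy
    have hwl : w.length = x.length + y.length := by rw [hw, List.length_append]
    have h1 := hmin x.length (Finset.mem_Ico.2 ⟨hxl, by omega⟩)
    have h2 : w.drop x.length = y := by rw [hw, List.drop_left]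
    rw [h2] at h1
    exact h1

/-- the standard factorisation -/
noncomputable def sf (w : List α) : List α × List α :=
  if h : 2 ≤ w.length then (exists_std w h).choose else ([], [])

theorem sf_spec {w : List α} (h : 2 ≤ w.length) : w = (sf w).1 ++ (sf w).2 ∧
    (sf w).1 ≠ [] ∧ (sf w).2 ≠ [] ∧ ∀ x y, x ≠ [] → y ≠ [] → w = x ++ y → (sf w).2 ≤ y := by
  unfold sf
  rw [dif_pos h]
  exact (exists_std w h).choose_spec

theorem sf_eq {u v : List α} (hu : u ≠ []) (hv : v ≠ [])
    (hmin : ∀ x y, x ≠ [] → y ≠ [] → u ++ v = x ++ y → v ≤ y) : sf (u ++ v) = (u, v) := by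
  have hul : 0 < u.length := List.length_pos_iff.2 hu
  have hvl : 0 < v.length := List.length_pos_iff.2 hv
  have h2 : 2 ≤ (u ++ v).length := by rw [List.length_append]; omega
  obtain ⟨h3, h4, h5, h6⟩ := sf_spec h2
  have e1 : (sf (u ++ v)).2 = v :=
    le_antisymm (h6 u v hu hv rfl) (hmin _ _ h4 h5 h3)
  have e2 : (sf (u ++ v)).1 = u := by
    have h7 := h3
    rw [e1] at h7
    exact (List.append_cancel_right h7).symm
  exact Prod.ext e2 e1

theorem sf_lt {w : List α} (h : 2 ≤ w.length) : (sf w).1.length < w.length ∧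
    (sf w).2.length < w.length := by
  obtain ⟨h3, h4, h5, _⟩ := sf_spec h
  have h1 : 0 < (sf w).1.length := List.length_pos_iff.2 h4
  have h2 : 0 < (sf w).2.length := List.length_pos_iff.2 h5
  have h6 := congrArg List.length h3
  rw [List.length_append] at h6
  omega

/-- properties of the standard factorisation of a Lyndon word -/
theorem sf_Lyn {w : List α} (hw : Lyn w) (h : 2 ≤ w.length) :
    Lyn (sf w).1 ∧ Lyn (sf w).2 ∧ (sf w).1 < (sf w).2 := by
  obtain ⟨h3, h4, h5, h6⟩ := sf_spec h
  set u := (sf w).1 with hu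
  set v := (sf w).2 with hv
  have hul : 0 < u.length := List.length_pos_iff.2 h4
  have hvl : 0 < v.length := List.length_pos_iff.2 h5
  refine ⟨⟨h4, ?_⟩, ⟨h5, ?_⟩, ?_⟩
  · intro y z hy hz hyz
    -- `z` is a proper suffix of `u`
    have hzl : z.length < u.length := by
      have := congrArg List.length hyz
      rw [List.length_append] at this
      have hyl : 0 < y.length := List.length_pos_iff.2 hy
      omega
    have hlt : w < z ++ v := hw.2 y (z ++ v) hy (by simp [hz])
      (by rw [h3, hyz, List.append_assoc])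
    by_contra hcon
    have hzu : z < u := lt_of_le_of_ne (not_lt.1 hcon) (fun he => by rw [he] at hzl; omega)
    rcases (H67OL.lt_iff_SL z u).1 hzu with hSL | ⟨s, hs, hus⟩
    · have h7 := (hSL.append v v).lt
      rw [← h3] at h7
      exact lt_asymm h7 hlt
    · -- u = z ++ s
      have h7 : z ++ (s ++ v) < z ++ v := by
        rw [← List.append_assoc, ← hus, ← h3]
        exact hlt
      have h8 : s ++ v < v := by
        by_contra h9
        rcases (not_lt.1 h9).eq_or_lt with h10 | h10
        · rw [← h10] at h7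
          exact lt_irrefl _ h7
        · exact lt_asymm h7 (H67OL.append_left_lt' z h10)
      have h9 := h6 z (s ++ v) hz (by simp [hs]) (by
        rw [← List.append_assoc, ← hus, ← h3])
      exact absurd h8 (not_lt.2 h9)
  · intro y z hy hz hyz
    have hzl : z.length < v.length := by
      have := congrArg List.length hyz
      rw [List.length_append] at this
      have hyl : 0 < y.length := List.length_pos_iff.2 hy
      omega
    have h7 := h6 (u ++ y) z (by simp [h4]) hz (by rw [List.append_assoc, ← hyz, ← h3])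
    exact lt_of_le_of_ne h7 (fun he => by rw [he] at hzl; omega)
  · have h7 : w < v := hw.2 u v h4 h5 h3
    have h8 : u ≤ w := by
      conv_rhs => rw [h3]
      exact H67OL.le_append u v
    exact lt_of_le_of_lt h8 h7

/-- when a product of two Lyndon words is a standard factorisation -/
theorem sf_append {u v : List α} (hu : Lyn u) (hv : Lyn v)
    (h : 2 ≤ u.length → v ≤ (sf u).2) : sf (u ++ v) = (u, v) := by
  apply sf_eq hu.1 hv.1
  intro x y hx hy hxy
  rcases List.append_eq_append_iff.1 hxy with ⟨s, h1, h2⟩ | ⟨s, h1, h2⟩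
  · -- x = u ++ s, v = s ++ y
    by_cases hs : s = []
    · subst hs
      rw [List.nil_append] at h2
      exact h2.le
    · exact (hv.2 s y hs hy h2).le
  · -- u = x ++ s, y = s ++ v
    by_cases hs : s = []
    · subst hs
      rw [List.nil_append] at h2
      exact h2.symm.le
    · have hul : 2 ≤ u.length := by
        rw [h1, List.length_append]
        have h3 : 0 < x.length := List.length_pos_iff.2 hx
        have h4 : 0 < s.length := List.length_pos_iff.2 hs
        omega
      have h3 := (sf_spec hul).2.2.2 x s hx hs h1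
      rw [h2]
      exact ((h hul).trans h3).trans (H67OL.le_append s v)

end words

section lie

variable {r : ℕ}

/-- the Lyndon basis -/
noncomputable def B (w : List (Fin r)) : FreeLieAlgebra ℤ (Fin r) :=
  if h : 2 ≤ w.length then ⁅B (sf w).1, B (sf w).2⁆
  else if h1 : w = [] then 0 else FreeLieAlgebra.of ℤ (w.head h1)
termination_by w.length
decreasing_by
  · exact (sf_lt h).1
  · exact (sf_lt h).2

theorem B_single (i : Fin r) : B [i] = FreeLieAlgebra.of ℤ i := by
  rw [B]
  simp

theorem B_std {w : List (Fin r)} (h : 2 ≤ w.length) : B w = ⁅B (sf w).1, B (sf w).2⁆ := by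
  rw [B, dif_pos h]

/-- the span of the basis elements of length `N` below `v` -/
noncomputable def Cl (N : ℕ) (v : List (Fin r)) : AddSubgroup (FreeLieAlgebra ℤ (Fin r)) :=
  AddSubgroup.closure {b | ∃ q, Lyn q ∧ q.length = N ∧ q < v ∧ b = B q}

theorem Cl_mono {N : ℕ} {v v' : List (Fin r)} (h : v ≤ v') : Cl N v ≤ Cl N v' := by
  apply AddSubgroup.closure_mono
  rintro b ⟨q, h1, h2, h3, h4⟩
  exact ⟨q, h1, h2, lt_of_lt_of_le h3 h, h4⟩

theorem Cl_bracket {N M : ℕ} {v : List (Fin r)} (x : FreeLieAlgebra ℤ (Fin r))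
    (h : ∀ q, Lyn q → q.length = N → q < v → ⁅x, B q⁆ ∈ Cl M v) {z : FreeLieAlgebra ℤ (Fin r)}
    (hz : z ∈ Cl N v) : ⁅x, z⁆ ∈ Cl M v := by
  induction hz using AddSubgroup.closure_induction with
  | mem b hb =>
    obtain ⟨q, h1, h2, h3, rfl⟩ := hb
    exact h q h1 h2 h3
  | zero => rw [lie_zero]; exact zero_mem _
  | add a b _ _ ha hb => rw [lie_add]; exact add_mem ha hb
  | neg a _ ha => rw [lie_neg]; exact neg_mem ha

theorem main_span : ∀ (N : ℕ) (c : ℕ) (u v : List (Fin r)), Lyn u → Lyn v → u < v →
    u.length + v.length = N → {x : List (Fin r) | x.length < N ∧ x < v}.ncard = c →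
    ⁅B u, B v⁆ ∈ Cl N v := by
  intro N
  induction N using Nat.strong_induction_on with
  | _ N ihN =>
    intro c
    induction c using Nat.strong_induction_on with
    | _ c ihc =>
      intro u v hu hv huv hN hc
      have hul : 0 < u.length := List.length_pos_iff.2 hu.1
      have hvl : 0 < v.length := List.length_pos_iff.2 hv.1
      have hfin : ∀ v' : List (Fin r), {x : List (Fin r) | x.length < N ∧ x < v'}.Finite :=
        fun v' => (List.finite_length_lt (Fin r) N).subset (fun x hx => hx.1)
      -- smaller right ends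
      have hsm : ∀ a b : List (Fin r), Lyn a → Lyn b → a < b → a.length + b.length = N → b < v →
          ⁅B a, B b⁆ ∈ Cl N v := by
        intro a b ha hb hab hl hbv
        have hal : 0 < a.length := List.length_pos_iff.2 ha.1
        have hlt : {x : List (Fin r) | x.length < N ∧ x < b}.ncard < c := by
          rw [← hc]
          apply Set.ncard_lt_ncard _ (hfin v)
          refine ⟨fun x hx => ⟨hx.1, hx.2.trans hbv⟩, fun hsub => ?_⟩
          have h1 : b ∈ {x : List (Fin r) | x.length < N ∧ x < b} :=
            hsub ⟨by omega, hbv⟩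
          exact lt_irrefl _ h1.2
        exact Cl_mono hbv.le (ihc _ hlt a b ha hb hab hl rfl)
      have hsm2 : ∀ a b : List (Fin r), Lyn a → Lyn b → a.length + b.length = N → a < v → b < v →
          ⁅B a, B b⁆ ∈ Cl N v := by
        intro a b ha hb hl hav hbv
        rcases lt_trichotomy a b with h1 | h1 | h1
        · exact hsm a b ha hb h1 hl hbv
        · rw [h1, lie_self]; exact zero_mem _
        · rw [← lie_skew]
          exact neg_mem (hsm b a hb ha h1 (by omega) hav)
      by_cases hcase : 2 ≤ u.length ∧ (sf u).2 < v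
      · obtain ⟨h2, h3⟩ := hcase
        obtain ⟨s1, s2, s3, s4⟩ := sf_spec h2
        obtain ⟨l1, l2, l3⟩ := sf_Lyn hu h2
        set u1 := (sf u).1 with hu1
        set u2 := (sf u).2 with hu2
        have hl : u.length = u1.length + u2.length := by
          conv_lhs => rw [s1]
          rw [List.length_append]
        have hl1 : 0 < u1.length := List.length_pos_iff.2 s2
        have hl2 : 0 < u2.length := List.length_pos_iff.2 s3
        have hu1v : u1 < v := l3.trans h3
        rw [B_std h2, ← hu1, ← hu2, lie_lie]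
        apply sub_mem
        · apply Cl_bracket (N := u2.length + v.length) (B u1) _
            (ihN _ (by omega) _ u2 v l2 hv h3 rfl rfl)
          intro q hq hql hqv
          exact hsm2 u1 q l1 hq (by omega) hu1v hqv
        · apply Cl_bracket (N := u1.length + v.length) (B u2) _
            (ihN _ (by omega) _ u1 v l1 hv hu1v rfl rfl)
          intro q hq hql hqv
          exact hsm2 u2 q l2 hq (by omega) h3 hqv
      · have hsf : sf (u ++ v) = (u, v) := by
          apply sf_append hu hv
          intro h2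
          by_contra h3
          exact hcase ⟨h2, not_le.1 h3⟩
        have hLyn : Lyn (u ++ v) := H67OL.Lyn.append hu hv huv
        have h2 : 2 ≤ (u ++ v).length := by rw [List.length_append]; omega
        have hB : B (u ++ v) = ⁅B u, B v⁆ := by rw [B_std h2, hsf]
        rw [← hB]
        exact AddSubgroup.subset_closure ⟨u ++ v, hLyn, by rw [List.length_append]; exact hN,
          hLyn.2 u v hu.1 hv.1 rfl, rfl⟩

/-- the span of all basis elements -/
noncomputable def CL (r : ℕ) : AddSubgroup (FreeLieAlgebra ℤ (Fin r)) :=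
  AddSubgroup.closure {b | ∃ w, Lyn w ∧ b = B w}

theorem Cl_le (N : ℕ) (v : List (Fin r)) : Cl N v ≤ CL r := by
  apply AddSubgroup.closure_mono
  rintro b ⟨q, h1, _, _, h4⟩
  exact ⟨q, h1, h4⟩

theorem CL_B {u v : List (Fin r)} (hu : Lyn u) (hv : Lyn v) : ⁅B u, B v⁆ ∈ CL r := by
  rcases lt_trichotomy u v with h1 | h1 | h1
  · exact Cl_le _ _ (main_span _ _ u v hu hv h1 rfl rfl)
  · rw [h1, lie_self]; exact zero_mem _
  · rw [← lie_skew]
    exact neg_mem (Cl_le _ _ (main_span _ _ v u hv hu h1 rfl rfl))

theorem CL_lie {x y : FreeLieAlgebra ℤ (Fin r)} (hx : x ∈ CL r) (hy : y ∈ CL r) :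
    ⁅x, y⁆ ∈ CL r := by
  induction hx using AddSubgroup.closure_induction with
  | mem b hb =>
    obtain ⟨u, hu, rfl⟩ := hb
    induction hy using AddSubgroup.closure_induction with
    | mem b hb =>
      obtain ⟨v, hv, rfl⟩ := hb
      exact CL_B hu hv
    | zero => rw [lie_zero]; exact zero_mem _
    | add a b _ _ ha hb => rw [lie_add]; exact add_mem ha hb
    | neg a _ ha => rw [lie_neg]; exact neg_mem ha
  | zero => rw [zero_lie]; exact zero_mem _
  | add a b _ _ ha hb => rw [add_lie]; exact add_mem ha hb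
  | neg a _ ha => rw [neg_lie]; exact neg_mem ha

/-- the span as a Lie subalgebra -/
noncomputable def LS (r : ℕ) : LieSubalgebra ℤ (FreeLieAlgebra ℤ (Fin r)) where
  carrier := CL r
  add_mem' := fun ha hb => add_mem ha hb
  zero_mem' := zero_mem _
  smul_mem' := by
    intro c x hx
    have h : c • x ∈ (AddSubgroup.toIntSubmodule (CL r)) :=
      Submodule.smul_mem _ c hx
    exact h
  lie_mem' := fun ha hb => CL_lie ha hb

theorem of_mem (i : Fin r) : FreeLieAlgebra.of ℤ i ∈ LS r := by
  have h : FreeLieAlgebra.of ℤ i ∈ CL r := by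
    rw [← B_single]
    exact AddSubgroup.subset_closure ⟨[i], H67OL.Lyn_singleton i, rfl⟩
  exact h

theorem all_mem (z : FreeLieAlgebra ℤ (Fin r)) : z ∈ CL r := by
  let φ : FreeLieAlgebra ℤ (Fin r) →ₗ⁅ℤ⁆ LS r := FreeLieAlgebra.lift ℤ (fun i => ⟨_, of_mem i⟩)
  have h : (LS r).incl.comp φ = LieHom.id := by
    apply FreeLieAlgebra.hom_ext
    intro i
    have e : φ (FreeLieAlgebra.of ℤ i) = ⟨_, of_mem i⟩ := FreeLieAlgebra.lift_of_apply _ _
    show (LS r).incl (φ (FreeLieAlgebra.of ℤ i)) = FreeLieAlgebra.of ℤ i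
    rw [e]
    rfl
  have h2 : ((LS r).incl.comp φ) z = z := by rw [h]; rfl
  have h3 : ((φ z : LS r) : FreeLieAlgebra ℤ (Fin r)) ∈ LS r := (φ z).2
  have h4 : ((LS r).incl.comp φ) z = (φ z : FreeLieAlgebra ℤ (Fin r)) := rfl
  rw [h4] at h2
  rw [h2] at h3
  exact h3

/-- triangularity -/
def Tr (w : List (Fin r)) (f : T (Fin r)) : Prop := f.coeff (FreeMonoid.ofList w) = 1 ∧
  ∀ m, f.coeff m ≠ 0 → (FreeMonoid.toList m).length = w.length ∧ w ≤ FreeMonoid.toList m

theorem mul_ne {f g : T (Fin r)} {m : FreeMonoid (Fin r)} (h : (f * g).coeff m ≠ 0) :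
    ∃ m1 m2, f.coeff m1 ≠ 0 ∧ g.coeff m2 ≠ 0 ∧ m1 * m2 = m := by
  classical
  by_contra hcon
  push Not at hcon
  apply h
  rw [MonoidAlgebra.coeff_mul]
  apply Finset.sum_eq_zero
  intro m1 hm1
  apply Finset.sum_eq_zero
  intro m2 hm2
  rw [Finsupp.mem_support_iff] at hm1 hm2
  simp only
  rw [if_neg (hcon m1 m2 hm1 hm2)]

theorem mul_one' {f g : T (Fin r)} {u v : List (Fin r)} (hf : Tr u f) (hg : Tr v g) :
    (f * g).coeff (FreeMonoid.ofList (u ++ v)) = 1 := by
  classical
  have hu : f.coeff (FreeMonoid.ofList u) = 1 := hf.1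
  have hv : g.coeff (FreeMonoid.ofList v) = 1 := hg.1
  rw [MonoidAlgebra.coeff_mul]
  have key : ∀ m1, f.coeff m1 ≠ 0 → ∀ m2, g.coeff m2 ≠ 0 →
      m1 * m2 = FreeMonoid.ofList (u ++ v) → m1 = FreeMonoid.ofList u ∧
        m2 = FreeMonoid.ofList v := by
    intro m1 h1 m2 _ h3
    have h4 : FreeMonoid.toList m1 ++ FreeMonoid.toList m2 = u ++ v := by
      have := congrArg FreeMonoid.toList h3
      simpa using this
    obtain ⟨h5, h6⟩ := List.append_inj h4 (hf.2 m1 h1).1
    exact ⟨by rw [← h5]; simp, by rw [← h6]; simp⟩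
  rw [Finsupp.sum, Finset.sum_eq_single (FreeMonoid.ofList u)]
  · rw [Finsupp.sum, Finset.sum_eq_single (FreeMonoid.ofList v)]
    · rw [if_pos (by rw [FreeMonoid.ofList_append]), hu, hv, one_mul]
    · intro m2 hm2 hne
      rw [Finsupp.mem_support_iff] at hm2
      rw [if_neg]
      intro h
      exact hne (key _ (by rw [hu]; exact one_ne_zero) m2 hm2 h).2
    · intro h
      rw [Finsupp.mem_support_iff, not_not] at h
      rw [hv] at h
      exact absurd h one_ne_zero
  · intro m1 hm1 hne
    rw [Finsupp.mem_support_iff] at hm1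
    apply Finset.sum_eq_zero
    intro m2 hm2
    rw [Finsupp.mem_support_iff] at hm2
    simp only
    rw [if_neg]
    intro h
    exact hne (key m1 hm1 m2 hm2 h).1
  · intro h
    rw [Finsupp.mem_support_iff, not_not] at h
    rw [hu] at h
    exact absurd h one_ne_zero

theorem Tr_bracket {f g : T (Fin r)} {u v : List (Fin r)} (hu : Lyn u) (hv : Lyn v)
    (huv : u < v) (hf : Tr u f) (hg : Tr v g) : Tr (u ++ v) (f * g - g * f) := by
  have hsw : u ++ v < v ++ u := H67OL.Lyn.lt_swap hu hv huv
  have hgf : ∀ m, (g * f).coeff m ≠ 0 →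
      (FreeMonoid.toList m).length = (u ++ v).length ∧ v ++ u ≤ FreeMonoid.toList m := by
    intro m hm
    obtain ⟨m1, m2, h1, h2, rfl⟩ := mul_ne hm
    obtain ⟨a1, a2⟩ := hg.2 m1 h1
    obtain ⟨b1, b2⟩ := hf.2 m2 h2
    rw [FreeMonoid.toList_mul]
    refine ⟨by rw [List.length_append, List.length_append, a1, b1]; omega, ?_⟩
    exact append_le a1 a2 b2
  have hfg : ∀ m, (f * g).coeff m ≠ 0 →
      (FreeMonoid.toList m).length = (u ++ v).length ∧ u ++ v ≤ FreeMonoid.toList m := by
    intro m hm
    obtain ⟨m1, m2, h1, h2, rfl⟩ := mul_ne hm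
    obtain ⟨a1, a2⟩ := hf.2 m1 h1
    obtain ⟨b1, b2⟩ := hg.2 m2 h2
    rw [FreeMonoid.toList_mul]
    refine ⟨by rw [List.length_append, List.length_append, a1, b1], ?_⟩
    exact append_le a1 a2 b2
  have hcoeff : ∀ m, (f * g - g * f).coeff m = (f * g).coeff m - (g * f).coeff m := by
    intro m
    rw [sub_eq_add_neg, MonoidAlgebra.coeff_add, MonoidAlgebra.coeff_neg]
    simp [sub_eq_add_neg]
  constructor
  · rw [hcoeff, mul_one' hf hg]
    have : (g * f).coeff (FreeMonoid.ofList (u ++ v)) = 0 := by
      by_contra h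
      have h1 := (hgf _ h).2
      rw [FreeMonoid.toList_ofList] at h1
      exact absurd hsw (not_lt.2 h1)
    rw [this, sub_zero]
  · intro m hm
    rw [hcoeff] at hm
    by_cases h : (f * g).coeff m = 0
    · have h2 : (g * f).coeff m ≠ 0 := by
        intro h3
        rw [h, h3, sub_zero] at hm
        exact hm rfl
      exact ⟨(hgf m h2).1, hsw.le.trans (hgf m h2).2⟩
    · exact hfg m h

theorem Tr_B : ∀ (n : ℕ) (w : List (Fin r)), w.length = n → Lyn w →
    Tr w (FreeLieAlgebra.lift ℤ (X : Fin r → T (Fin r)) (B w)) := by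
  intro n
  induction n using Nat.strong_induction_on with
  | _ n ih =>
    intro w hwn hw
    have hwl : 0 < w.length := List.length_pos_iff.2 hw.1
    by_cases h : 2 ≤ w.length
    · obtain ⟨s1, s2, s3, _⟩ := sf_spec h
      obtain ⟨l1, l2, l3⟩ := sf_Lyn hw h
      obtain ⟨k1, k2⟩ := sf_lt h
      have e := Tr_bracket l1 l2 l3 (ih _ (by omega) _ rfl l1) (ih _ (by omega) _ rfl l2)
      rw [← s1] at e
      rw [B_std h, LieHom.map_lie, LieRing.of_associative_ring_bracket]
      exact e
    · obtain ⟨i, rfl⟩ : ∃ i, w = [i] := List.length_eq_one_iff.1 (by omega)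
      rw [B_single, FreeLieAlgebra.lift_of_apply]
      constructor
      · unfold X
        rw [MonoidAlgebra.coeff_single]
        have : FreeMonoid.ofList [i] = FreeMonoid.of i := rfl
        rw [this, Finsupp.single_eq_same]
      · intro m hm
        classical
        unfold X at hm
        rw [MonoidAlgebra.coeff_single, Finsupp.single_apply] at hm
        split_ifs at hm with h1
        · rw [← h1]
          simp
        · exact absurd rfl hm

end lie

end TLYN

theorem t_LYN : S_LYN := by
  intro r
  exact ⟨TLYN.B, fun w hw => TLYN.Tr_B _ w rfl hw, fun z => TLYN.all_mem z⟩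

end Pool.Agent.H32CE
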