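import Pool.Agent.H32CE.St

set_option autoImplicit false

/-!
# MAG: Magnus' theorem
-/

namespace Pool.Agent.H32CE

open PowerSeries

attribute [local instance 100] LieRing.ofAssociativeRing

namespace TMAG

theorem cf_of {ι : Type} (i : ι) : cf 1 (FreeGroup.of i) = X i := by
  have h : mag (FreeGroup.of i) = ex 1 (X i) := by
    unfold mag magU
    rw [FreeGroup.lift_apply_of]
    rfl
  unfold cf
  rw [h]
  simp [ex]

theorem comm_eq {G : Type} [Group G] (y z : G) : cm y⁻¹ z⁻¹ = y * z * y⁻¹ * z⁻¹ := by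
  unfold cm
  rw [inv_inv, inv_inv]

theorem D_one {ι : Type} (h3 : S_BAS) (k : ℕ) : D k (1 : FreeGroup ι) := by
  obtain ⟨_, _, h, h', _⟩ := h3 ι
  intro i h1 h2
  have h4 : mag (1 : FreeGroup ι) = 1 := by
    unfold mag
    rw [map_one, Units.val_one]
  unfold cf
  rw [h4, PowerSeries.coeff_one, if_neg (by omega)]

theorem cf_one {ι : Type} (h3 : S_BAS) (k : ℕ) (hk : 1 ≤ k) : cf k (1 : FreeGroup ι) = 0 :=
  D_one h3 (k + 1) k hk (Nat.lt_succ_self k)

/-- the coefficient of a commutator -/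
theorem cf_comm {ι : Type} (h3 : S_BAS) {n : ℕ} {y : FreeGroup ι} (hy : D (n + 1) y)
    (z : FreeGroup ι) : D (n + 2) (y * z * y⁻¹ * z⁻¹) ∧
      cf (n + 2) (y * z * y⁻¹ * z⁻¹) = br (cf (n + 1) y) (cf 1 z) := by
  obtain ⟨_, _, _, hinv, _, _, hcinv, _, hcm, _⟩ := h3 ι
  have hz : D 1 z := fun i h1 h2 => absurd h2 (by omega)
  have h1 := hcm (n + 1) 1 y⁻¹ z⁻¹ (by omega) le_rfl (hinv _ _ hy) (hinv _ _ hz)
  rw [comm_eq] at h1
  refine ⟨h1.1, ?_⟩
  have h2 : cf (n + 1 + 1) (y * z * y⁻¹ * z⁻¹) = _ := h1.2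
  rw [hcinv (n + 1) y hy (n + 1) (by omega) (by omega), hcinv 1 z hz 1 le_rfl (by omega)] at h2
  change cf (n + 1 + 1) (y * z * y⁻¹ * z⁻¹) = _
  rw [h2]
  unfold br
  noncomm_ring

theorem gam_D {r : ℕ} (h3 : S_BAS) (n : ℕ) : ∀ x ∈ gam (FreeGroup (Fin r)) n, D (n + 1) x := by
  induction n with
  | zero =>
    intro x _ i h1 h2
    omega
  | succ n ih =>
    intro x hx
    obtain ⟨_, _, hmul, hinv, _⟩ := h3 (Fin r)
    have hx' := (Subgroup.mem_lowerCentralSeries_succ_iff (⊤ : Subgroup (FreeGroup (Fin r))) n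
      x).1 hx
    refine Subgroup.closure_induction (p := fun x _ => D (n + 1 + 1) x) ?_ (D_one h3 _) ?_ ?_ hx'
    · rintro x ⟨y, hy, z, _, rfl⟩
      rw [commutatorElement_def]
      exact (cf_comm h3 (ih y hy) z).1
    · intro a b _ _ ha hb
      exact hmul _ _ _ ha hb
    · intro a _ ha
      exact hinv _ _ ha

end TMAG

open TMAG in
theorem t_MAG (h1 : S_GRL) (h2 : S_INJ) (h3 : S_BAS) : S_MAG := by
  intro r
  obtain ⟨L, hL, f, hadd, hzero, hbr⟩ := h1 (FreeGroup (Fin r))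
  have hBAS := h3 (Fin r)
  obtain ⟨_, _, hmul, hinv, _, hcadd, hcinv, _, _, _⟩ := hBAS
  have hf1 : ∀ n, f n 1 = 0 := fun n => (hzero n 1 (one_mem _)).2 (one_mem _)
  have hfinv : ∀ n, ∀ x ∈ gam (FreeGroup (Fin r)) n, f n x⁻¹ = -f n x := by
    intro n x hx
    have h4 := hadd n x hx x⁻¹ (inv_mem hx)
    rw [mul_inv_cancel, hf1] at h4
    exact (neg_eq_of_add_eq_zero_right h4.symm).symm
  set Φ := FreeLieAlgebra.lift ℤ (fun i : Fin r => f 0 (FreeGroup.of i)) with hΦ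
  set Ψ := FreeLieAlgebra.lift ℤ (X : Fin r → T (Fin r)) with hΨ
  have hof : ∀ i : Fin r, ∃ P : FreeLieAlgebra ℤ (Fin r), Φ P = f 0 (FreeGroup.of i) ∧
      Ψ P = cf (0 + 1) (FreeGroup.of i) := by
    intro i
    refine ⟨FreeLieAlgebra.of ℤ i, FreeLieAlgebra.lift_of_apply _ i, ?_⟩
    exact (FreeLieAlgebra.lift_of_apply _ i).trans (cf_of i).symm
  have key : ∀ n, ∀ x ∈ gam (FreeGroup (Fin r)) n,
      ∃ P : FreeLieAlgebra ℤ (Fin r), Φ P = f n x ∧ Ψ P = cf (n + 1) x := by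
    intro n
    have hneg : ∀ m, ∀ a ∈ gam (FreeGroup (Fin r)) m,
        (∃ P : FreeLieAlgebra ℤ (Fin r), Φ P = f m a ∧ Ψ P = cf (m + 1) a) →
        ∃ P : FreeLieAlgebra ℤ (Fin r), Φ P = f m a⁻¹ ∧ Ψ P = cf (m + 1) a⁻¹ := by
      rintro m a ha ⟨P, hP1, hP2⟩
      refine ⟨-P, ?_, ?_⟩
      · rw [map_neg, hP1, hfinv m a ha]
      · rw [map_neg, hP2, hcinv (m + 1) a (gam_D h3 m a ha) (m + 1) (by omega) (by omega)]
    have hadd' : ∀ m, ∀ a ∈ gam (FreeGroup (Fin r)) m, ∀ b ∈ gam (FreeGroup (Fin r)) m,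
        (∃ P : FreeLieAlgebra ℤ (Fin r), Φ P = f m a ∧ Ψ P = cf (m + 1) a) →
        (∃ P : FreeLieAlgebra ℤ (Fin r), Φ P = f m b ∧ Ψ P = cf (m + 1) b) →
        ∃ P : FreeLieAlgebra ℤ (Fin r), Φ P = f m (a * b) ∧ Ψ P = cf (m + 1) (a * b) := by
      rintro m a ha b hb ⟨P, hP1, hP2⟩ ⟨Q, hQ1, hQ2⟩
      refine ⟨P + Q, ?_, ?_⟩
      · rw [map_add, hP1, hQ1, hadd m a ha b hb]
      · rw [map_add, hP2, hQ2, hcadd (m + 1) (m + 1) a b (gam_D h3 m a ha) (gam_D h3 m b hb)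
          (m + 1) (by omega) (by omega)]
    have hone : ∀ m, ∃ P : FreeLieAlgebra ℤ (Fin r), Φ P = f m 1 ∧ Ψ P = cf (m + 1) 1 := by
      intro m
      exact ⟨0, by rw [map_zero, hf1], by rw [map_zero, cf_one h3 _ (by omega)]⟩
    have hbase : ∀ x : FreeGroup (Fin r),
        ∃ P : FreeLieAlgebra ℤ (Fin r), Φ P = f 0 x ∧ Ψ P = cf (0 + 1) x := by
      intro x
      refine FreeGroup.induction_on (C := fun x =>
        ∃ P : FreeLieAlgebra ℤ (Fin r), Φ P = f 0 x ∧ Ψ P = cf (0 + 1) x) x (hone 0) hof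
        (fun i _ => hneg 0 _ (Subgroup.mem_top _) (hof i)) (fun x y hx hy =>
        hadd' 0 x (Subgroup.mem_top _) y (Subgroup.mem_top _) hx hy)
    induction n with
    | zero =>
      intro x _
      exact hbase x
    | succ n ih =>
      intro x hx
      have hx' := (Subgroup.mem_lowerCentralSeries_succ_iff
        (⊤ : Subgroup (FreeGroup (Fin r))) n x).1 hx
      have hcl : x ∈ gam (FreeGroup (Fin r)) (n + 1) ∧ ∃ P : FreeLieAlgebra ℤ (Fin r),
          Φ P = f (n + 1) x ∧ Ψ P = cf (n + 1 + 1) x := by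
        refine Subgroup.closure_induction (p := fun x _ => x ∈ gam (FreeGroup (Fin r)) (n + 1) ∧
          ∃ P : FreeLieAlgebra ℤ (Fin r), Φ P = f (n + 1) x ∧ Ψ P = cf (n + 1 + 1) x)
          ?_ ⟨one_mem _, hone _⟩ ?_ ?_ hx'
        · rintro x ⟨y, hy, z, _, rfl⟩
          refine ⟨(Subgroup.mem_lowerCentralSeries_succ_iff
            (⊤ : Subgroup (FreeGroup (Fin r))) n _).2
            (Subgroup.subset_closure ⟨y, hy, z, Subgroup.mem_top z, rfl⟩), ?_⟩
          obtain ⟨P, hP1, hP2⟩ := ih y hy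
          obtain ⟨Q, hQ1, hQ2⟩ := hbase z
          refine ⟨⁅P, Q⁆, ?_, ?_⟩
          · rw [LieHom.map_lie, hP1, hQ1, commutatorElement_def]
            exact (hbr n 0 y hy z (Subgroup.mem_top z)).symm
          · rw [LieHom.map_lie, hP2, hQ2, commutatorElement_def]
            exact (cf_comm h3 (gam_D h3 n y hy) z).2.symm
        · rintro a b _ _ ⟨ha, ha'⟩ ⟨hb, hb'⟩
          exact ⟨mul_mem ha hb, hadd' _ a ha b hb ha' hb'⟩
        · rintro a _ ⟨ha, ha'⟩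
          exact ⟨inv_mem ha, hneg _ a ha ha'⟩
      exact hcl.2
  intro c x
  constructor
  · induction c with
    | zero =>
      intro _
      exact Subgroup.mem_top x
    | succ c ih =>
      intro hD
      have hx : x ∈ gam (FreeGroup (Fin r)) c := ih fun i hi hi' => hD i hi (by omega)
      obtain ⟨P, hP1, hP2⟩ := key c x hx
      have h4 : cf (c + 1) x = 0 := hD (c + 1) (by omega) (by omega)
      rw [h4] at hP2
      have h5 : P = 0 := h2 r (by rw [← hΨ, hP2, map_zero])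
      rw [h5, map_zero] at hP1
      exact (hzero c x hx).1 hP1.symm
  · exact gam_D h3 c x

end Pool.Agent.H32CE
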