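import Pool.Agent.H32CE.St

set_option autoImplicit false

/-!
# MOD: the polynomial model
-/

namespace Pool.Agent.H32CE

namespace TMOD

open MvPolynomial

/-! ### words -/

/-- the monomial of a word -/
noncomputable def pw : (κ : ℕ) → List (Fin 2) → MvPolynomial (Fin (κ + 1)) ℝ
  | 0, [] => 1
  | _ + 1, [] => 0
  | κ, 0 :: w => MvPolynomial.X 0 * pw κ w
  | 0, 1 :: _ => 0
  | κ + 1, 1 :: w => rename Fin.succ (pw κ w)

theorem pw_nil_zero : pw 0 [] = 1 := by simp [pw]
theorem pw_nil_succ (κ : ℕ) : pw (κ + 1) [] = 0 := by simp [pw]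
theorem pw_zero (κ : ℕ) (w : List (Fin 2)) : pw κ (0 :: w) = MvPolynomial.X 0 * pw κ w := by
  cases κ <;> simp [pw]
theorem pw_one_zero (w : List (Fin 2)) : pw 0 (1 :: w) = 0 := by simp [pw]
theorem pw_one_succ (κ : ℕ) (w : List (Fin 2)) :
    pw (κ + 1) (1 :: w) = rename Fin.succ (pw κ w) := by simp [pw]

theorem fin2_cases (i : Fin 2) : i = 0 ∨ i = 1 := by
  fin_cases i
  · left; rfl
  · right; rfl

theorem pw_append_zero (w : List (Fin 2)) : ∀ κ : ℕ,
    pw κ (w ++ [0]) = pw κ w * MvPolynomial.X (Fin.last κ) := by
  induction w with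
  | nil =>
    intro κ
    cases κ with
    | zero =>
      rw [List.nil_append, pw_zero, pw_nil_zero]
      simp
    | succ κ =>
      rw [List.nil_append, pw_zero, pw_nil_succ]
      simp
  | cons i w ih =>
    intro κ
    rcases fin2_cases i with rfl | rfl
    · rw [List.cons_append, pw_zero, pw_zero, ih, mul_assoc]
    · cases κ with
      | zero => rw [List.cons_append, pw_one_zero, pw_one_zero, zero_mul]
      | succ κ =>
        rw [List.cons_append, pw_one_succ, pw_one_succ, ih, map_mul, rename_X, Fin.succ_last]

theorem pw_zero_append_one (w : List (Fin 2)) : pw 0 (w ++ [1]) = 0 := by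
  induction w with
  | nil => exact pw_one_zero _
  | cons i w ih =>
    rcases fin2_cases i with rfl | rfl
    · rw [List.cons_append, pw_zero, ih, mul_zero]
    · rw [List.cons_append, pw_one_zero]

theorem pw_append_one (w : List (Fin 2)) : ∀ κ : ℕ,
    pw (κ + 1) (w ++ [1]) = rename Fin.castSucc (pw κ w) := by
  induction w with
  | nil =>
    intro κ
    rw [List.nil_append, pw_one_succ]
    cases κ with
    | zero => rw [pw_nil_zero, map_one, map_one]
    | succ κ => rw [pw_nil_succ, map_zero, map_zero]
  | cons i w ih =>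
    intro κ
    rcases fin2_cases i with rfl | rfl
    · rw [List.cons_append, pw_zero, pw_zero, ih, map_mul, rename_X, Fin.castSucc_zero]
    · rw [List.cons_append, pw_one_succ]
      cases κ with
      | zero => rw [pw_zero_append_one, pw_one_zero, map_zero, map_zero]
      | succ κ =>
        rw [ih, pw_one_succ, rename_rename, rename_rename]
        rfl

/-- the word of a monomial -/
noncomputable def Wd : (κ : ℕ) → (Fin (κ + 1) →₀ ℕ) → List (Fin 2)
  | 0, d => List.replicate (d 0) 0
  | κ + 1, d => List.replicate (d 0) 0 ++ 1 :: Wd κ (Finsupp.tail d)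

theorem Wd_add (κ : ℕ) (d : Fin (κ + 1) →₀ ℕ) :
    Wd κ (d + Finsupp.single 0 1) = 0 :: Wd κ d := by
  cases κ with
  | zero => simp [Wd, List.replicate_succ]
  | succ κ =>
    have h : Finsupp.tail (d + Finsupp.single 0 1) = Finsupp.tail d := by
      ext i
      simp [Finsupp.tail_apply]
    simp [Wd, h, List.replicate_succ]

theorem Wd_zero_of (κ : ℕ) (d : Fin (κ + 1) →₀ ℕ) (h : d 0 = 0) (w : List (Fin 2)) :
    Wd κ d ≠ 0 :: w := by
  cases κ with
  | zero => simp [Wd, h]
  | succ κ => simp [Wd, h]

theorem Wd_succ_of (κ : ℕ) (d : Fin (κ + 2) →₀ ℕ) (h : d 0 = 0) :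
    Wd (κ + 1) d = 1 :: Wd κ (Finsupp.tail d) := by
  simp [Wd, h]

theorem Wd_ne_one (κ : ℕ) (d : Fin (κ + 1) →₀ ℕ) (h : d 0 ≠ 0) (w : List (Fin 2)) :
    Wd κ d ≠ 1 :: w := by
  obtain ⟨n, hn⟩ := Nat.exists_eq_succ_of_ne_zero h
  cases κ with
  | zero => simp [Wd, hn, List.replicate_succ]
  | succ κ => simp [Wd, hn, List.replicate_succ]

theorem coeff_pw (m : List (Fin 2)) : ∀ (κ : ℕ) (d : Fin (κ + 1) →₀ ℕ),
    coeff d (pw κ m) = if Wd κ d = m then 1 else 0 := by
  classical
  induction m with
  | nil =>
    intro κ d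
    cases κ with
    | zero =>
      rw [pw_nil_zero, coeff_one]
      have : (0 = d) ↔ Wd 0 d = [] := by
        simp only [Wd, List.replicate_eq_nil_iff]
        constructor
        · rintro rfl; rfl
        · intro h
          ext i
          have : i = 0 := Fin.ext (by have := i.isLt; simp)
          rw [this, h]
          rfl
      simp only [this]
    | succ κ =>
      rw [pw_nil_succ, coeff_zero, if_neg]
      simp [Wd]
  | cons i m ih =>
    intro κ d
    rcases fin2_cases i with rfl | rfl
    · rw [pw_zero, coeff_X_mul']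
      by_cases h : d 0 = 0
      · rw [if_neg (by simpa using h), if_neg (Wd_zero_of κ d h m)]
      · rw [if_pos (by simpa using h), ih]
        have h1 : d = (d - Finsupp.single 0 1) + Finsupp.single 0 1 := by
          rw [tsub_add_cancel_of_le]
          rw [Finsupp.single_le_iff]
          omega
        conv_rhs => rw [h1, Wd_add]
        simp
    · cases κ with
      | zero =>
        rw [pw_one_zero, coeff_zero, if_neg]
        by_cases h : d 0 = 0
        · simp [Wd, h]
        · exact Wd_ne_one 0 d h m
      | succ κ =>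
        rw [pw_one_succ]
        by_cases h : d 0 = 0
        · have h1 : d = (Finsupp.tail d).mapDomain Fin.succ := by
            ext i
            refine Fin.cases ?_ (fun j => ?_) i
            · rw [Finsupp.mapDomain_of_notMem_range, h]
              rintro ⟨x, hx⟩
              exact Fin.succ_ne_zero x hx
            · rw [Finsupp.mapDomain_apply (Fin.succ_injective _), Finsupp.tail_apply]
          rw [Wd_succ_of κ d h]
          conv_lhs => rw [h1]
          rw [coeff_rename_mapDomain _ (Fin.succ_injective _), ih]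
          simp
        · rw [if_neg (Wd_ne_one (κ + 1) d h m)]
          apply coeff_rename_eq_zero
          intro u hu
          exfalso
          apply h
          rw [← hu, Finsupp.mapDomain_of_notMem_range]
          rintro ⟨x, hx⟩
          exact Fin.succ_ne_zero x hx

theorem exists_Wd (m : List (Fin 2)) : ∃ (κ : ℕ) (d : Fin (κ + 1) →₀ ℕ), Wd κ d = m := by
  induction m with
  | nil => exact ⟨0, 0, by simp [Wd]⟩
  | cons i m ih =>
    obtain ⟨κ, d, hd⟩ := ih
    rcases fin2_cases i with rfl | rfl
    · exact ⟨κ, d + Finsupp.single 0 1, by rw [Wd_add, hd]⟩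
    · exact ⟨κ + 1, Finsupp.cons 0 d, by
        rw [Wd_succ_of κ _ (Finsupp.cons_zero _ _), Finsupp.tail_cons, hd]⟩

theorem sum_Wd (p p' : ℕ) : ∀ (κ : ℕ) (d : Fin (κ + 1) →₀ ℕ),
    ((Wd κ d).map ![p, p']).sum = p * (∑ i, d i) + p' * κ := by
  intro κ
  induction κ with
  | zero =>
    intro d
    simp [Wd, mul_comm]
  | succ κ ih =>
    intro d
    simp only [Wd, List.map_append, List.map_cons, List.sum_append, List.sum_cons, ih,
      List.map_replicate, List.sum_replicate, smul_eq_mul, Matrix.cons_val_zero,
      Matrix.cons_val_one, Finsupp.tail_apply]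
    have h := Fin.sum_univ_succ (fun i => d i)
    rw [h]
    ring

/-! ### the model -/

/-- the polynomial model -/
noncomputable def P (κ : ℕ) : T (Fin 2) →ₗ[ℝ] MvPolynomial (Fin (κ + 1)) ℝ :=
  (Finsupp.linearCombination ℝ (fun m : FreeMonoid (Fin 2) => pw κ (FreeMonoid.toList m))) ∘ₗ
    (MonoidAlgebra.coeffLinearEquiv (M := FreeMonoid (Fin 2)) ℝ (S := ℝ)).toLinearMap

theorem P_single (κ : ℕ) (m : FreeMonoid (Fin 2)) (r : ℝ) :
    P κ (MonoidAlgebra.single m r) = r • pw κ (FreeMonoid.toList m) := by
  simp [P]

theorem coeff_P (κ : ℕ) (d : Fin (κ + 1) →₀ ℕ) (f : T (Fin 2)) :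
    coeff d (P κ f) = f.coeff (FreeMonoid.ofList (Wd κ d)) := by
  classical
  induction f using MonoidAlgebra.induction_linear with
  | zero => simp
  | add x y hx hy => rw [map_add, coeff_add, hx, hy]; rfl
  | single m r =>
    rw [P_single, coeff_smul, coeff_pw, MonoidAlgebra.coeff_single, Finsupp.single_apply]
    have : (Wd κ d = FreeMonoid.toList m) ↔ (m = FreeMonoid.ofList (Wd κ d)) := by
      constructor
      · intro h; rw [h]; rfl
      · intro h; rw [h]; rfl
    simp only [this]
    simp

theorem X_mul_single (i : Fin 2) (m : FreeMonoid (Fin 2)) (r : ℝ) :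
    X i * MonoidAlgebra.single m r = MonoidAlgebra.single (FreeMonoid.of i * m) r := by
  rw [X, MonoidAlgebra.single_mul_single, one_mul]

theorem single_mul_X (i : Fin 2) (m : FreeMonoid (Fin 2)) (r : ℝ) :
    MonoidAlgebra.single m r * X i = MonoidAlgebra.single (m * FreeMonoid.of i) r := by
  rw [X, MonoidAlgebra.single_mul_single, mul_one]

theorem P_X0_mul (κ : ℕ) (f : T (Fin 2)) : P κ (X 0 * f) = MvPolynomial.X 0 * P κ f := by
  induction f using MonoidAlgebra.induction_linear with
  | zero => simp
  | add x y hx hy => rw [mul_add, map_add, map_add, hx, hy, mul_add]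
  | single m r =>
    rw [X_mul_single, P_single, P_single, FreeMonoid.toList_mul, FreeMonoid.toList_of,
      List.singleton_append, pw_zero, mul_smul_comm]

theorem P_mul_X0 (κ : ℕ) (f : T (Fin 2)) :
    P κ (f * X 0) = P κ f * MvPolynomial.X (Fin.last κ) := by
  induction f using MonoidAlgebra.induction_linear with
  | zero => simp
  | add x y hx hy => rw [add_mul, map_add, map_add, hx, hy, add_mul]
  | single m r =>
    rw [single_mul_X, P_single, P_single, FreeMonoid.toList_mul, FreeMonoid.toList_of,
      pw_append_zero, smul_mul_assoc]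

theorem P_X1_mul (κ : ℕ) (f : T (Fin 2)) : P (κ + 1) (X 1 * f) = rename Fin.succ (P κ f) := by
  induction f using MonoidAlgebra.induction_linear with
  | zero => simp
  | add x y hx hy => rw [mul_add, map_add, map_add, hx, hy, map_add]
  | single m r =>
    rw [X_mul_single, P_single, P_single, FreeMonoid.toList_mul, FreeMonoid.toList_of,
      List.singleton_append, pw_one_succ, map_smul]

theorem P_zero_X1_mul (f : T (Fin 2)) : P 0 (X 1 * f) = 0 := by
  induction f using MonoidAlgebra.induction_linear with
  | zero => simp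
  | add x y hx hy => rw [mul_add, map_add, hx, hy, add_zero]
  | single m r =>
    rw [X_mul_single, P_single, FreeMonoid.toList_mul, FreeMonoid.toList_of,
      List.singleton_append, pw_one_zero, smul_zero]

theorem P_mul_X1 (κ : ℕ) (f : T (Fin 2)) :
    P (κ + 1) (f * X 1) = rename Fin.castSucc (P κ f) := by
  induction f using MonoidAlgebra.induction_linear with
  | zero => simp
  | add x y hx hy => rw [add_mul, map_add, map_add, hx, hy, map_add]
  | single m r =>
    rw [single_mul_X, P_single, P_single, FreeMonoid.toList_mul, FreeMonoid.toList_of,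
      pw_append_one, map_smul]

theorem adk_succ (k : ℕ) : adk (k + 1) = X 0 * adk k - adk k * X 0 := by
  unfold adk
  rw [Function.iterate_succ_apply']
  rfl

theorem P_adk_mul (κ k : ℕ) : ∀ f, P (κ + 1) (adk k * f) =
    (MvPolynomial.X 0 - MvPolynomial.X 1) ^ k * rename Fin.succ (P κ f) := by
  induction k with
  | zero =>
    intro f
    rw [pow_zero, one_mul]
    exact P_X1_mul κ f
  | succ k ih =>
    intro f
    rw [adk_succ, sub_mul, map_sub, mul_assoc, mul_assoc, P_X0_mul, ih, ih, P_X0_mul, map_mul,
      rename_X, pow_succ]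
    have : (Fin.succ 0 : Fin (κ + 2)) = 1 := rfl
    rw [this]
    ring

theorem P_mul_adk (κ k : ℕ) : ∀ f, P (κ + 1) (f * adk k) = rename Fin.castSucc (P κ f) *
    (MvPolynomial.X (Fin.castSucc (Fin.last κ)) - MvPolynomial.X (Fin.last (κ + 1))) ^ k := by
  induction k with
  | zero =>
    intro f
    rw [pow_zero, mul_one]
    exact P_mul_X1 κ f
  | succ k ih =>
    intro f
    rw [adk_succ, mul_sub, map_sub, ← mul_assoc, ← mul_assoc, P_mul_X0, ih, ih, P_mul_X0, map_mul,
      rename_X, pow_succ]
    ring

/-! ### the derivations `remove one letter i` -/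

/-- a word as a power of the central variable -/
noncomputable def gE (i : Fin 2) : FreeMonoid (Fin 2) →* Polynomial (T (Fin 2)) :=
  FreeMonoid.lift fun j => if j = i then Polynomial.X else 0

theorem gE_comm (i : Fin 2) (w : FreeMonoid (Fin 2)) (q : Polynomial (T (Fin 2))) :
    gE i w * q = q * gE i w := by
  induction w using FreeMonoid.recOn generalizing q with
  | one => simp
  | of_mul j w ih =>
    rw [map_mul, mul_assoc, ih, ← mul_assoc, ← mul_assoc]
    congr 1
    simp only [gE, FreeMonoid.lift_eval_of]
    split_ifs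
    · exact Polynomial.X_mul
    · simp

/-- `(w, w') ↦ τ^(number of letters i in w) w'` if `w` is a power of `i`, otherwise `0` -/
noncomputable def Ph (i : Fin 2) :
    FreeMonoid (Fin 2) × FreeMonoid (Fin 2) →* Polynomial (T (Fin 2)) where
  toFun p := gE i p.1 * Polynomial.C (MonoidAlgebra.single p.2 1)
  map_one' := by
    simp [← MonoidAlgebra.one_def]
  map_mul' p q := by
    have h : (MonoidAlgebra.single (p.2 * q.2) (1 : ℝ) : T (Fin 2)) =
        MonoidAlgebra.single p.2 1 * MonoidAlgebra.single q.2 1 := by
      rw [MonoidAlgebra.single_mul_single, one_mul]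
    simp only [Prod.fst_mul, Prod.snd_mul, map_mul, h]
    rw [mul_assoc, mul_assoc, ← mul_assoc (gE i q.1), gE_comm i q.1, mul_assoc]

/-- extension to the algebra of pairs -/
noncomputable def PhA (i : Fin 2) :
    MonoidAlgebra ℝ (FreeMonoid (Fin 2) × FreeMonoid (Fin 2)) →ₐ[ℝ] Polynomial (T (Fin 2)) :=
  MonoidAlgebra.lift ℝ _ _ (Ph i)

theorem PhA_single (i : Fin 2) (a b : FreeMonoid (Fin 2)) (r : ℝ) :
    PhA i (MonoidAlgebra.single (a, b) r) =
      r • (gE i a * Polynomial.C (MonoidAlgebra.single b 1)) := by
  rw [PhA, MonoidAlgebra.lift_single]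
  rfl

theorem PhA_cop_X (i j : Fin 2) : PhA i (cop (Fin 2) (X j)) =
    (if j = i then Polynomial.X else 0) + Polynomial.C (X j) := by
  rw [cop, X, MonoidAlgebra.lift_single, one_smul, FreeMonoid.lift_eval_of, map_add, PhA_single,
    PhA_single, one_smul, one_smul, map_one, one_mul, ← MonoidAlgebra.one_def, map_one, mul_one]
  simp only [gE, FreeMonoid.lift_eval_of]

/-- the first two coefficients -/
noncomputable def E (i : Fin 2) (f : T (Fin 2)) : T (Fin 2) :=
  (PhA i (cop (Fin 2) f)).coeff 1

theorem E_add (i : Fin 2) (f g : T (Fin 2)) : E i (f + g) = E i f + E i g := by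
  simp [E]

theorem E_smul (i : Fin 2) (r : ℝ) (f : T (Fin 2)) : E i (r • f) = r • E i f := by
  simp [E]

theorem coeff_zero_word (i : Fin 2) (w : FreeMonoid (Fin 2)) :
    (PhA i (cop (Fin 2) (MonoidAlgebra.single w 1))).coeff 0 = MonoidAlgebra.single w 1 := by
  induction w using FreeMonoid.recOn with
  | one =>
    rw [← MonoidAlgebra.one_def, map_one, map_one]
    simp
  | of_mul j w ih =>
    rw [← X_mul_single, map_mul, map_mul, Polynomial.mul_coeff_zero, ih, PhA_cop_X]
    congr 1
    split_ifs <;> simp

theorem coeff_zero_all (i : Fin 2) (f : T (Fin 2)) :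
    (PhA i (cop (Fin 2) f)).coeff 0 = f := by
  induction f using MonoidAlgebra.induction_linear with
  | zero => simp
  | add x y hx hy => rw [map_add, map_add, Polynomial.coeff_add, hx, hy]
  | single m r =>
    have h : (MonoidAlgebra.single m r : T (Fin 2)) = r • MonoidAlgebra.single m 1 := by
      rw [MonoidAlgebra.smul_single, smul_eq_mul, mul_one]
    rw [h, map_smul, map_smul, Polynomial.coeff_smul, coeff_zero_word]

theorem E_X_mul (i j : Fin 2) (f : T (Fin 2)) :
    E i (X j * f) = X j * E i f + if j = i then f else 0 := by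
  unfold E
  rw [map_mul, map_mul, Polynomial.mul_coeff_one, PhA_cop_X]
  split_ifs <;> simp [coeff_zero_all]

theorem E_one (i : Fin 2) : E i 1 = 0 := by
  unfold E
  rw [map_one, map_one, Polynomial.coeff_one]
  simp

open Classical in
theorem coeff_gE (i : Fin 2) (w : FreeMonoid (Fin 2)) :
    (gE i w).coeff 0 = (if w = 1 then 1 else 0) ∧
      (gE i w).coeff 1 = (if w = FreeMonoid.of i then 1 else 0) := by
  classical
  induction w using FreeMonoid.recOn with
  | one =>
    constructor
    · rw [map_one]; simp
    · rw [map_one, if_neg, Polynomial.coeff_one]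
      · simp
      · intro h
        have := congrArg FreeMonoid.toList h
        simp at this
  | of_mul j w ih =>
    have h0 : FreeMonoid.of j * w ≠ 1 := by
      intro h
      have := congrArg FreeMonoid.toList h
      simp at this
    have h1 : FreeMonoid.of j * w = FreeMonoid.of i ↔ j = i ∧ w = 1 := by
      constructor
      · intro h
        have := congrArg FreeMonoid.toList h
        simp only [FreeMonoid.toList_mul, FreeMonoid.toList_of, List.singleton_append,
          List.cons.injEq] at this
        exact ⟨this.1, by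
          apply FreeMonoid.toList.injective
          rw [this.2]
          rfl⟩
      · rintro ⟨rfl, rfl⟩
        rw [mul_one]
    rw [map_mul, Polynomial.mul_coeff_zero, Polynomial.mul_coeff_one, ih.1, ih.2]
    have h2 : gE i (FreeMonoid.of j) = if j = i then Polynomial.X else 0 := by
      simp only [gE, FreeMonoid.lift_eval_of]
    rw [h2, if_neg h0]
    by_cases hji : j = i
    · rw [if_pos hji]
      simp [h1, hji]
    · rw [if_neg hji]
      simp [h1, hji]

theorem PhA_lft (i : Fin 2) (f : T (Fin 2)) :
    (PhA i (lft (Fin 2) f)).coeff 0 = f.coeff 1 • 1 ∧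
      (PhA i (lft (Fin 2) f)).coeff 1 = f.coeff (FreeMonoid.of i) • 1 := by
  classical
  induction f using MonoidAlgebra.induction_linear with
  | zero => simp
  | add x y hx hy =>
    rw [map_add, map_add, Polynomial.coeff_add, Polynomial.coeff_add, hx.1, hx.2, hy.1, hy.2]
    constructor
    · rw [← add_smul]; rfl
    · rw [← add_smul]; rfl
  | single m r =>
    have h : lft (Fin 2) (MonoidAlgebra.single m r) = MonoidAlgebra.single (m, 1) r := by
      simp [lft]
    rw [h, PhA_single, ← MonoidAlgebra.one_def, map_one, mul_one, Polynomial.coeff_smul,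
      Polynomial.coeff_smul, (coeff_gE i m).1, (coeff_gE i m).2, MonoidAlgebra.coeff_single,
      Finsupp.single_apply, Finsupp.single_apply]
    constructor <;> split_ifs <;> simp

theorem PhA_rgt (i : Fin 2) (f : T (Fin 2)) :
    PhA i (rgt (Fin 2) f) = Polynomial.C f := by
  induction f using MonoidAlgebra.induction_linear with
  | zero => simp
  | add x y hx hy => rw [map_add, map_add, hx, hy, map_add]
  | single m r =>
    have h : rgt (Fin 2) (MonoidAlgebra.single m r) = MonoidAlgebra.single (1, m) r := by
      simp [rgt]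
    rw [h, PhA_single, map_one, one_mul, Polynomial.smul_C, MonoidAlgebra.smul_single,
      smul_eq_mul, mul_one]

theorem prim_E {f : T (Fin 2)} (hf : Prim f) (i : Fin 2) :
    E i f = f.coeff (FreeMonoid.of i) • 1 := by
  unfold E
  rw [hf, map_add, Polynomial.coeff_add, (PhA_lft i f).2, PhA_rgt, Polynomial.coeff_C_of_ne_zero
    one_ne_zero, add_zero]

theorem prim_coeff_one {f : T (Fin 2)} (hf : Prim f) : f.coeff 1 = 0 := by
  have h1 := coeff_zero_all 0 f
  rw [hf, map_add, Polynomial.coeff_add, (PhA_lft 0 f).1, PhA_rgt, Polynomial.coeff_C_zero] at h1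
  have h2 : f.coeff 1 • (1 : T (Fin 2)) = 0 := by
    have := sub_eq_zero.mpr h1
    rwa [add_sub_cancel_right] at this
  have h3 := congrArg (fun g : T (Fin 2) => g.coeff 1) h2
  simpa [MonoidAlgebra.one_def] using h3

/-! ### the remaining rules -/

theorem P_one_zero : P 0 1 = 1 := by
  rw [MonoidAlgebra.one_def, P_single, FreeMonoid.toList_one, pw_nil_zero, one_smul]

theorem P_one_succ (κ : ℕ) : P (κ + 1) 1 = 0 := by
  rw [MonoidAlgebra.one_def, P_single, FreeMonoid.toList_one, pw_nil_succ, smul_zero]

theorem sum_pderiv_rename (κ : ℕ) (q : MvPolynomial (Fin (κ + 1)) ℝ) :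
    ∑ i, pderiv i (rename Fin.succ q : MvPolynomial (Fin (κ + 2)) ℝ) =
      rename Fin.succ (∑ i, pderiv i q) := by
  classical
  rw [Fin.sum_univ_succ, map_sum]
  have h0 : pderiv 0 (rename Fin.succ q : MvPolynomial (Fin (κ + 2)) ℝ) = 0 := by
    apply pderiv_eq_zero_of_notMem_vars
    intro h
    have h1 := vars_rename Fin.succ q h
    rw [Finset.mem_image] at h1
    obtain ⟨x, _, hx⟩ := h1
    exact Fin.succ_ne_zero x hx
  rw [h0, zero_add]
  apply Finset.sum_congr rfl
  intro i _
  exact pderiv_rename (Fin.succ_injective _) i q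

theorem P_E_word (m : FreeMonoid (Fin 2)) : ∀ κ : ℕ,
    P κ (E 0 (MonoidAlgebra.single m 1)) = ∑ i, pderiv i (P κ (MonoidAlgebra.single m 1)) := by
  classical
  induction m using FreeMonoid.recOn with
  | one =>
    intro κ
    rw [← MonoidAlgebra.one_def, E_one, map_zero]
    cases κ with
    | zero => rw [P_one_zero]; simp
    | succ κ => rw [P_one_succ]; simp
  | of_mul j w ih =>
    intro κ
    rw [← X_mul_single, E_X_mul, map_add]
    rcases fin2_cases j with rfl | rfl
    · rw [if_pos rfl, P_X0_mul, P_X0_mul, ih]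
      simp only [Derivation.leibniz, smul_eq_mul]
      rw [Finset.sum_add_distrib, ← Finset.mul_sum, ← Finset.mul_sum]
      congr 1
      have h : ∑ i : Fin (κ + 1), pderiv i (MvPolynomial.X 0 : MvPolynomial (Fin (κ + 1)) ℝ) = 1 := by
        rw [Finset.sum_eq_single 0]
        · exact pderiv_X_self 0
        · intro i _ hi
          exact pderiv_X_of_ne (Ne.symm hi)
        · intro h
          exact absurd (Finset.mem_univ _) h
      rw [h, mul_one]
    · rw [if_neg (by decide), map_zero, add_zero]
      cases κ with
      | zero =>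
        rw [P_zero_X1_mul, P_zero_X1_mul]
        simp
      | succ κ => rw [P_X1_mul, P_X1_mul, ih, sum_pderiv_rename]

theorem P_E (κ : ℕ) (f : T (Fin 2)) : P κ (E 0 f) = ∑ i, pderiv i (P κ f) := by
  induction f using MonoidAlgebra.induction_linear with
  | zero => simp [E]
  | add x y hx hy =>
    rw [E_add, map_add, hx, hy, map_add, ← Finset.sum_add_distrib]
    apply Finset.sum_congr rfl
    intro i _
    rw [map_add]
  | single m r =>
    have h : (MonoidAlgebra.single m r : T (Fin 2)) = r • MonoidAlgebra.single m 1 := by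
      rw [MonoidAlgebra.smul_single, smul_eq_mul, mul_one]
    rw [h, E_smul, map_smul, P_E_word, map_smul, Finset.smul_sum]
    apply Finset.sum_congr rfl
    intro i _
    rw [Derivation.map_smul]

/-- the part in powers of the letter `1` -/
noncomputable def q1 : T (Fin 2) →ₐ[ℝ] Polynomial ℝ :=
  MonoidAlgebra.lift ℝ (Polynomial ℝ) (FreeMonoid (Fin 2))
    (FreeMonoid.lift fun j => if j = 1 then Polynomial.X else 0)

theorem q1_X (j : Fin 2) : q1 (X j) = if j = 1 then Polynomial.X else 0 := by
  rw [q1, X, MonoidAlgebra.lift_single, one_smul, FreeMonoid.lift_eval_of]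

open Classical in
theorem q1_coeff_word (m : FreeMonoid (Fin 2)) : ∀ x : ℕ,
    (q1 (MonoidAlgebra.single m 1)).coeff x =
      if m = FreeMonoid.ofList (List.replicate x 1) then 1 else 0 := by
  induction m using FreeMonoid.recOn with
  | one =>
    intro x
    rw [← MonoidAlgebra.one_def, map_one, Polynomial.coeff_one]
    cases x with
    | zero => simp
    | succ x =>
      rw [if_neg (by omega), if_neg]
      intro h
      have := congrArg FreeMonoid.toList h
      simp [List.replicate_succ] at this
  | of_mul j w ih =>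
    intro x
    rw [← X_mul_single, map_mul, q1_X]
    rcases fin2_cases j with rfl | rfl
    · rw [if_neg (by decide), zero_mul, Polynomial.coeff_zero, if_neg]
      intro h
      have h1 := congrArg FreeMonoid.toList h
      rw [FreeMonoid.toList_mul, FreeMonoid.toList_of, List.singleton_append,
        FreeMonoid.toList_ofList] at h1
      cases x with
      | zero => simp at h1
      | succ x => simp [List.replicate_succ] at h1
    · rw [if_pos rfl]
      cases x with
      | zero =>
        rw [Polynomial.coeff_X_mul_zero, if_neg]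
        intro h
        have h1 := congrArg FreeMonoid.toList h
        simp at h1
      | succ x =>
        rw [Polynomial.coeff_X_mul, ih]
        have : (w = FreeMonoid.ofList (List.replicate x 1)) ↔
            (FreeMonoid.of 1 * w = FreeMonoid.ofList (List.replicate (x + 1) 1)) := by
          constructor
          · rintro rfl
            rfl
          · intro h
            have h1 := congrArg FreeMonoid.toList h
            rw [FreeMonoid.toList_mul, FreeMonoid.toList_of, List.singleton_append,
              FreeMonoid.toList_ofList, List.replicate_succ, List.cons.injEq] at h1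
            apply FreeMonoid.toList.injective
            rw [h1.2]
            rfl
        simp only [this]

theorem q1_coeff (f : T (Fin 2)) (x : ℕ) :
    (q1 f).coeff x = f.coeff (FreeMonoid.ofList (List.replicate x 1)) := by
  classical
  induction f using MonoidAlgebra.induction_linear with
  | zero => simp
  | add u v hu hv => rw [map_add, Polynomial.coeff_add, hu, hv]; rfl
  | single m r =>
    have h : (MonoidAlgebra.single m r : T (Fin 2)) = r • MonoidAlgebra.single m 1 := by
      rw [MonoidAlgebra.smul_single, smul_eq_mul, mul_one]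
    rw [MonoidAlgebra.coeff_single, Finsupp.single_apply, h, map_smul, Polynomial.coeff_smul,
      q1_coeff_word]
    split_ifs <;> simp

theorem q1_E_word (m : FreeMonoid (Fin 2)) :
    q1 (E 1 (MonoidAlgebra.single m 1)) = Polynomial.derivative (q1 (MonoidAlgebra.single m 1)) := by
  induction m using FreeMonoid.recOn with
  | one =>
    rw [← MonoidAlgebra.one_def, E_one, map_zero, map_one]
    simp
  | of_mul j w ih =>
    rw [← X_mul_single, E_X_mul, map_add, map_mul, map_mul, Polynomial.derivative_mul, ih, q1_X]
    rcases fin2_cases j with rfl | rfl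
    · rw [if_neg (by decide), if_neg (by decide), map_zero]
      simp
    · rw [if_pos rfl, if_pos rfl, Polynomial.derivative_X]
      ring

theorem q1_E (f : T (Fin 2)) : q1 (E 1 f) = Polynomial.derivative (q1 f) := by
  induction f using MonoidAlgebra.induction_linear with
  | zero => simp [E]
  | add x y hx hy => rw [E_add, map_add, hx, hy, map_add, Polynomial.derivative_add]
  | single m r =>
    have h : (MonoidAlgebra.single m r : T (Fin 2)) = r • MonoidAlgebra.single m 1 := by
      rw [MonoidAlgebra.smul_single, smul_eq_mul, mul_one]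
    rw [h, E_smul, map_smul, q1_E_word, map_smul, Polynomial.derivative_smul]

theorem Wd_zero (κ : ℕ) : Wd κ 0 = List.replicate κ 1 := by
  induction κ with
  | zero => simp [Wd]
  | succ κ ih =>
    have h : Finsupp.tail (0 : Fin (κ + 2) →₀ ℕ) = 0 := by
      ext i
      simp [Finsupp.tail_apply]
    rw [Wd_succ_of κ 0 rfl, h, ih, List.replicate_succ]

theorem prim_power {f : T (Fin 2)} (hf : Prim f) {κ : ℕ} (hκ : 2 ≤ κ) :
    f.coeff (FreeMonoid.ofList (List.replicate κ 1)) = 0 := by
  obtain ⟨x, rfl⟩ : ∃ x, κ = x + 2 := ⟨κ - 2, by omega⟩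
  have h1 := q1_E f
  rw [prim_E hf, map_smul, map_one] at h1
  have h2 := congrArg (fun q : Polynomial ℝ => q.coeff (x + 1)) h1
  simp only [Polynomial.coeff_smul, Polynomial.coeff_one, Polynomial.coeff_derivative] at h2
  rw [if_neg (by omega), smul_zero, q1_coeff] at h2
  rcases mul_eq_zero.mp h2.symm with h3 | h3
  · exact h3
  · exfalso
    have : (0 : ℝ) < ((x + 1 : ℕ) : ℝ) + 1 := by positivity
    exact this.ne' h3

theorem prim_zero {f : T (Fin 2)} (hf : Prim f) :
    P 0 f = f.coeff (FreeMonoid.of 0) • MvPolynomial.X 0 := by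
  classical
  set c := f.coeff (FreeMonoid.of 0) with hc
  have h1 := P_E 0 f
  rw [prim_E hf, map_smul, P_one_zero, ← hc] at h1
  have h2 : ∑ i : Fin (0 + 1), pderiv i (P 0 f) = pderiv 0 (P 0 f) := by simp
  rw [h2] at h1
  ext d
  rw [coeff_smul, coeff_X, smul_eq_mul]
  by_cases hd : d 0 = 0
  · have hd0 : d = 0 := by
      ext i
      have : i = 0 := Fin.ext (by have := i.isLt; simp)
      rw [this, hd]
      rfl
    rw [hd0, coeff_P, Wd_zero]
    have h3 : (FreeMonoid.ofList (List.replicate 0 (1 : Fin 2))) = 1 := rfl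
    rw [h3, prim_coeff_one hf, if_neg, mul_zero]
    intro h
    have := DFunLike.congr_fun h 0
    simp at this
  · have hd1 : d = (d - Finsupp.single 0 1) + Finsupp.single 0 1 := by
      rw [tsub_add_cancel_of_le]
      rw [Finsupp.single_le_iff]
      omega
    have h3 := congrArg (fun q => coeff (d - Finsupp.single 0 1) q) h1
    simp only [coeff_pderiv, ← hd1, coeff_smul, coeff_one, smul_eq_mul] at h3
    by_cases hm : d - Finsupp.single 0 1 = 0
    · have hd2 : d = Finsupp.single 0 1 := by
        have h5 := hd1
        rw [hm] at h5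
        simpa using h5
      rw [if_pos hm.symm, hm] at h3
      rw [if_pos hd2.symm]
      simp only [Finsupp.coe_zero, Pi.zero_apply, Nat.cast_zero, zero_add, mul_one] at h3
      rw [mul_one]
      exact h3.symm
    · rw [if_neg (Ne.symm hm), mul_zero] at h3
      have hne : Finsupp.single 0 1 ≠ d := by
        intro h
        apply hm
        rw [← h, tsub_self]
      rw [if_neg hne, mul_zero]
      rcases mul_eq_zero.mp h3.symm with h4 | h4
      · exact h4
      · exfalso
        have : (0 : ℝ) < (((d - Finsupp.single 0 1 : Fin (0 + 1) →₀ ℕ) 0 : ℕ) : ℝ) + 1 := by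
          positivity
        exact this.ne' h4

end TMOD

open TMOD in
/-- the polynomial model -/
theorem t_MOD : S_MOD := by
  classical
  refine ⟨P, ?_, P_X0_mul, P_mul_X0, P_X1_mul, P_mul_X1, P_adk_mul, P_mul_adk, ?_, ?_, ?_, ?_⟩
  · intro f hf
    apply MonoidAlgebra.coeff_injective
    ext m
    obtain ⟨κ, d, hd⟩ := exists_Wd (FreeMonoid.toList m)
    have h1 := coeff_P κ d f
    rw [hf κ, MvPolynomial.coeff_zero, hd] at h1
    exact h1.symm
  · intro κ f hκ hf
    obtain ⟨κ', rfl⟩ : ∃ κ', κ = κ' + 1 := ⟨κ - 1, by omega⟩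
    rw [← P_E, prim_E hf, map_smul, P_one_succ, smul_zero]
  · intro κ p p' m f hp hH hne
    have key : ∀ d, MvPolynomial.coeff d (P κ f) ≠ 0 → p * (∑ i, d i) + p' * κ = m := by
      intro d hd
      rw [coeff_P] at hd
      have h1 := hH _ hd
      rw [wd, FreeMonoid.toList_ofList, sum_Wd] at h1
      exact h1
    obtain ⟨d₀, hd₀⟩ := MvPolynomial.ne_zero_iff.mp hne
    refine ⟨∑ i, d₀ i, key d₀ hd₀, ?_⟩
    intro d hd
    have h1 := key d hd
    have h2 := key d₀ hd₀
    have h3 : p * (∑ i, d i) = p * (∑ i, d₀ i) := by omega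
    have h4 := Nat.eq_of_mul_eq_mul_left (by omega) h3
    rw [← h4]
    simp [Finsupp.weight_apply, Finsupp.sum_fintype]
  · intro κ c f hκ hf hc
    have h1 := coeff_P κ 0 f
    rw [hc, Wd_zero, prim_power hf hκ] at h1
    simpa using h1
  · intro f hf
    exact ⟨_, prim_zero hf⟩

end Pool.Agent.H32CE
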