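import Pool.Agent.H32CE.St

set_option autoImplicit false

namespace Pool.Agent.H32CE.TNMS

open Pool.Agent.H32CE

theorem nm_one {ι : Type} : nm (1 : T ι) = 1 := by
  unfold nm
  rw [MonoidAlgebra.one_def, MonoidAlgebra.coeff_single, Finsupp.sum_single_index] <;> simp

theorem nm_zero {ι : Type} : nm (0 : T ι) = 0 := by
  unfold nm
  rw [MonoidAlgebra.coeff_zero, Finsupp.sum_zero_index]

theorem sub_single {ι : Type} {A : Type} [Ring A] [Algebra ℝ A] (e : ι → A) (m : FreeMonoid ι)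
    (r : ℝ) : sub e (MonoidAlgebra.single m r) = r • FreeMonoid.lift e m :=
  MonoidAlgebra.lift_single _ _ _

theorem nm_word (h : S_NM) {ι : Type} (a b : T ι) (m : FreeMonoid (Fin 2)) :
    nm (FreeMonoid.lift ![a, b] m) ≤ (1 + nm a + nm b) ^ m.length := by
  have hnn : ∀ f : T ι, 0 ≤ nm f := fun f => (h ι f f 0).2.2.2.1
  have ha := hnn a
  have hb := hnn b
  induction m using FreeMonoid.recOn with
  | one =>
    rw [map_one, nm_one]
    simp
  | of_mul i m ih =>
    rw [map_mul, FreeMonoid.lift_eval_of, FreeMonoid.length_mul, FreeMonoid.length_of, pow_add,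
      pow_one]
    refine le_trans (h ι _ _ 0).2.1 ?_
    refine mul_le_mul ?_ ih (hnn _) (by positivity)
    fin_cases i
    · change nm a ≤ _
      linarith
    · change nm b ≤ _
      linarith

end Pool.Agent.H32CE.TNMS

namespace Pool.Agent.H32CE

theorem t_NMS (h : S_NM) : S_NMS := by
  intro U
  induction U using MonoidAlgebra.induction_linear with
  | zero =>
    refine ⟨0, 0, fun ι a b => ?_⟩
    rw [map_zero, TNMS.nm_zero]
    simp
  | add U V hU hV =>
    obtain ⟨C, E, h1⟩ := hU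
    obtain ⟨C', E', h2⟩ := hV
    refine ⟨C + C', max E E', fun ι a b => ?_⟩
    have ha : 0 ≤ nm a := (h ι a a 0).2.2.2.1
    have hb : 0 ≤ nm b := (h ι b b 0).2.2.2.1
    have hB : (1 : ℝ) ≤ 1 + nm a + nm b := by linarith
    rw [map_add]
    refine le_trans (h ι _ _ 0).1 ?_
    have e1 : (C : ℝ) * (1 + nm a + nm b) ^ E ≤ C * (1 + nm a + nm b) ^ max E E' :=
      mul_le_mul_of_nonneg_left (pow_le_pow_right₀ hB (le_max_left _ _)) (Nat.cast_nonneg _)
    have e2 : (C' : ℝ) * (1 + nm a + nm b) ^ E' ≤ C' * (1 + nm a + nm b) ^ max E E' :=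
      mul_le_mul_of_nonneg_left (pow_le_pow_right₀ hB (le_max_right _ _)) (Nat.cast_nonneg _)
    have e3 := h1 ι a b
    have e4 := h2 ι a b
    push_cast
    linarith
  | single m r =>
    refine ⟨⌈|r|⌉₊, m.length, fun ι a b => ?_⟩
    have ha : 0 ≤ nm a := (h ι a a 0).2.2.2.1
    have hb : 0 ≤ nm b := (h ι b b 0).2.2.2.1
    rw [TNMS.sub_single, (h ι (FreeMonoid.lift ![a, b] m) 0 r).2.2.1]
    exact mul_le_mul (Nat.le_ceil _) (TNMS.nm_word h a b m) (h ι _ 0 0).2.2.2.1
      (Nat.cast_nonneg _)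

end Pool.Agent.H32CE
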