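import Pool.Agent.H32CE.St

set_option autoImplicit false

/-!
# Task NOR: from a solution to a typed solution
-/

namespace Pool.Agent.H32CE

open PowerSeries

namespace TNOR

/-- changing the order in a commutator -/
theorem cm_swap {G : Type} [Group G] {x y x' y' : G} (h : cm y' x' = cm y x) :
    cm x' y' = cm x y := by
  have e : ∀ a b : G, cm a b = (cm b a)⁻¹ := by
    intro a b
    simp only [cm]
    group
  rw [e x' y', h, ← e]

/-- the move -/
theorem cm_move {G : Type} [Group G] (x y : G) (k : ℤ) : cm x (x ^ k * y) = cm x y := by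
  simp only [cm]
  group

theorem D_mono {ι : Type} {k l : ℕ} {x : FreeGroup ι} (h : D k x) (hl : l ≤ k) : D l x :=
  fun i h1 h2 => h i h1 (by omega)

theorem D_one {ι : Type} (x : FreeGroup ι) : D 1 x := fun i h1 h2 => by omega

theorem D_succ {ι : Type} {k : ℕ} {x : FreeGroup ι} (h : D k x) (h0 : cf k x = 0) :
    D (k + 1) x := fun i h1 h2 => by
  rcases Nat.lt_succ_iff_lt_or_eq.1 h2 with h3 | h3
  · exact h i h1 h3
  · rw [h3]
    exact h0

theorem cf_one {ι : Type} (i : ℕ) (hi : 1 ≤ i) : cf i (1 : FreeGroup ι) = 0 := by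
  have h : mag (1 : FreeGroup ι) = 1 := by
    simp [mag]
  rw [cf, h, coeff_one, if_neg (by omega)]

/-- commutators with an element of `D k` -/
theorem D_cm_left (hB : S_BAS) {ι : Type} {k : ℕ} {x : FreeGroup ι} (hk : 1 ≤ k) (h : D k x)
    (y : FreeGroup ι) : D k (cm x y) := by
  obtain ⟨-, -, -, -, -, -, -, -, h9, -, -⟩ := hB ι
  exact D_mono (h9 k 1 x y hk le_rfl h (D_one y)).1 (by omega)

theorem D_cm_right (hB : S_BAS) {ι : Type} {k : ℕ} {y : FreeGroup ι} (hk : 1 ≤ k) (h : D k y)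
    (x : FreeGroup ι) : D k (cm x y) := by
  obtain ⟨-, -, -, -, -, -, -, -, h9, -, -⟩ := hB ι
  exact D_mono (h9 1 k x y le_rfl hk (D_one x) h).1 (by omega)

/-- powers -/
theorem pow_cf (hB : S_BAS) {ι : Type} {p : ℕ} {x : FreeGroup ι} (hp : 1 ≤ p) (h : D p x)
    (n : ℕ) : D p (x ^ n) ∧ cf p (x ^ n) = (n : ℝ) • cf p x := by
  obtain ⟨-, -, h3, -, -, h6, -⟩ := hB ι
  induction n with
  | zero =>
    rw [pow_zero, Nat.cast_zero, zero_smul]
    exact ⟨fun i h1 _ => cf_one i h1, cf_one p hp⟩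
  | succ n ih =>
    rw [pow_succ]
    refine ⟨h3 p _ _ ih.1 h, ?_⟩
    rw [h6 p p _ _ ih.1 h p hp (by omega), ih.2]
    push_cast
    rw [add_smul, one_smul]

theorem zpow_cf (hB : S_BAS) {ι : Type} {p : ℕ} {x : FreeGroup ι} (hp : 1 ≤ p) (h : D p x)
    (n : ℤ) : D p (x ^ n) ∧ cf p (x ^ n) = (n : ℝ) • cf p x := by
  have hB' := hB ι
  obtain ⟨-, -, -, h4, -, -, h7, -⟩ := hB'
  obtain ⟨m, rfl | rfl⟩ := n.eq_nat_or_neg
  · rw [zpow_natCast]
    have := pow_cf hB hp h m
    simpa using this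
  · rw [zpow_neg, zpow_natCast]
    obtain ⟨a, b⟩ := pow_cf hB hp h m
    refine ⟨h4 p _ a, ?_⟩
    rw [h7 p _ a p hp (by omega), b]
    push_cast
    rw [neg_smul]

/-- nonzero leading terms are not small -/
theorem one_le (hI : S_INT) (hN : S_NM) {ι : Type} {p : ℕ} {x : FreeGroup ι}
    (h : cf p x ≠ 0) : 1 ≤ (p.factorial : ℝ) * nm (cf p x) := by
  obtain ⟨m, hm⟩ : ∃ m, (cf p x).coeff m ≠ 0 := by
    by_contra hc
    push Not at hc
    apply h
    ext m
    exact hc m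
  obtain ⟨z, hz⟩ := hI ι p x m
  have hp : (0 : ℝ) < p.factorial := by exact_mod_cast p.factorial_pos
  have hz0 : z ≠ 0 := by
    rintro rfl
    rw [Int.cast_zero] at hz
    rcases mul_eq_zero.1 hz with h1 | h1
    · exact hp.ne' h1
    · exact hm h1
  have h1 : (1 : ℝ) ≤ |(z : ℝ)| := by
    have : (1 : ℤ) ≤ |z| := Int.one_le_abs hz0
    exact_mod_cast this
  rw [← hz, abs_mul, abs_of_pos hp] at h1
  exact h1.trans (mul_le_mul_of_nonneg_left ((hN ι (cf p x) 0 0).2.2.2.2.2.1 m) hp.le)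

/-- one reduction step -/
theorem step (hB : S_BAS) (hI : S_INT) (hN : S_NM) {ι : Type} {p : ℕ} {x y : FreeGroup ι}
    (hp : 1 ≤ p) (hx : D p x) (hy : D p y) {t : ℝ} (ht : 1 ≤ |t|)
    (hxy : cf p y = t • cf p x) : ∃ y', cm x y' = cm x y ∧ D p y' ∧ (cf p y' = 0 ∨ (cf p y' ≠ 0 ∧
      (p.factorial : ℝ) * nm (cf p y') ≤ (p.factorial : ℝ) * nm (cf p y) - 1)) := by
  obtain ⟨hd, hc⟩ := zpow_cf hB hp hx (-round t)
  have hB' := hB ι
  obtain ⟨-, -, h3, -, -, h6, -⟩ := hB'
  have hcf : cf p (x ^ (-round t) * y) = (t - round t) • cf p x := by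
    rw [h6 p p _ _ hd hy p hp (by omega), hc, hxy, ← add_smul]
    congr 1
    push_cast
    ring
  refine ⟨x ^ (-round t) * y, cm_move x y _, h3 p _ _ hd hy, ?_⟩
  by_cases h0 : cf p (x ^ (-round t) * y) = 0
  · exact Or.inl h0
  · refine Or.inr ⟨h0, ?_⟩
    have h1 := one_le hI hN h0
    have hpf : (0 : ℝ) < p.factorial := by exact_mod_cast p.factorial_pos
    have e1 : nm (cf p (x ^ (-round t) * y)) = |t - round t| * nm (cf p x) := by
      rw [hcf]
      exact (hN ι (cf p x) 0 _).2.2.1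
    have e2 : nm (cf p y) = |t| * nm (cf p x) := by
      rw [hxy]
      exact (hN ι (cf p x) 0 _).2.2.1
    have e3 : 0 ≤ nm (cf p x) := (hN ι (cf p x) 0 0).2.2.2.1
    have e4 : |t - round t| ≤ 1 / 2 := abs_sub_round t
    have e5 : |t - round t| ≤ |t| / 2 := by linarith
    have e6 : nm (cf p (x ^ (-round t) * y)) ≤ nm (cf p y) / 2 := by
      rw [e1, e2]
      have := mul_le_mul_of_nonneg_right e5 e3
      linarith
    nlinarith

/-- existence of the exact order -/
theorem order (hB : S_BAS) {ι : Type} {c k : ℕ} {y : FreeGroup ι} (hk : 1 ≤ k) (hy : D k y)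
    (hn : ¬ D (c + 1) y) : ∃ q, k ≤ q ∧ q ≤ c ∧ D q y ∧ cf q y ≠ 0 := by
  classical
  have hex : ∃ i, 1 ≤ i ∧ cf i y ≠ 0 := by
    by_contra h
    push Not at h
    exact hn fun i h1 _ => h i h1
  have hs := Nat.find_spec hex
  have hmin : ∀ i, 1 ≤ i → i < Nat.find hex → cf i y = 0 := by
    intro i h1 h2
    by_contra h3
    exact Nat.find_min hex h2 ⟨h1, h3⟩
  refine ⟨Nat.find hex, ?_, ?_, hmin, hs.2⟩
  · by_contra h
    exact hs.2 (hy _ hs.1 (by omega))
  · by_contra h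
    exact hn fun i h1 h2 => hmin i h1 (by omega)

/-- the induction -/
theorem main (hB : S_BAS) (hG : S_GRP) (hP : S_P1) (hI : S_INT) (hN : S_NM) (r c : ℕ) :
    ∀ (A B : ℕ) (x y : FreeGroup (Fin r)) (p q : ℕ), 1 ≤ p → 1 ≤ q → p ≤ c → q ≤ c →
      D p x → D q y → cf p x ≠ 0 → cf q y ≠ 0 → ¬ D (c + 1) (cm x y) →
      (c - p) + (c - q) ≤ A →
      (p.factorial : ℝ) * nm (cf p x) + (q.factorial : ℝ) * nm (cf q y) ≤ B →
      ∃ (x' y' : FreeGroup (Fin r)) (p q : ℕ), cm x' y' = cm x y ∧ 1 ≤ p ∧ 1 ≤ q ∧ p + q ≤ c ∧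
        Typed p q x' y' := by
  intro A
  induction A using Nat.strong_induction_on with
  | _ A ihA =>
  intro B
  induction B using Nat.strong_induction_on with
  | _ B ihB =>
  intro x y p q hp hq hpc hqc hx hy hx0 hy0 hn hA hS
  obtain ⟨-, -, -, -, -, -, -, -, h9, -, -⟩ := hB (Fin r)
  by_cases hbr : br (cf p x) (cf q y) = 0
  · -- proportional leading terms
    have hPx : PH p (cf p x) := (hG (Fin r)).1 p x hx p hp (by omega)
    have hPy : PH q (cf q y) := (hG (Fin r)).1 q y hy q hq (by omega)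
    obtain ⟨rfl, t, ht⟩ := hP (Fin r) p q _ _ hp hq hPx hPy hx0 hy0 hbr
    have ht0 : t ≠ 0 := by
      rintro rfl
      rw [zero_smul] at ht
      exact hy0 ht
    have hxge := one_le hI hN hx0
    have hyge := one_le hI hN hy0
    have hB1 : 1 ≤ B := by
      have : (1 : ℝ) ≤ B := by linarith
      exact_mod_cast this
    by_cases h1 : 1 ≤ |t|
    · obtain ⟨y', hc, hd, h | ⟨h, h'⟩⟩ := step hB hI hN hp hx hy h1 ht
      · -- the order goes up
        have hd1 : D (p + 1) y' := D_succ hd h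
        have hn' : ¬ D (c + 1) (cm x y') := by rwa [hc]
        obtain ⟨q', h2, h3, h4, h5⟩ := order hB (c := c) (by omega) hd1
          (fun h6 => hn' (D_cm_right hB (by omega) h6 x))
        obtain ⟨B', hB'⟩ := exists_nat_ge
          ((p.factorial : ℝ) * nm (cf p x) + (q'.factorial : ℝ) * nm (cf q' y'))
        obtain ⟨x1, y1, p1, q1, e1, e2⟩ := ihA ((c - p) + (c - q')) (by omega) B' x y' p q' hp
          (by omega) hpc h3 hx h4 hx0 h5 hn' le_rfl hB'
        exact ⟨x1, y1, p1, q1, e1.trans hc, e2⟩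
      · have hn' : ¬ D (c + 1) (cm x y') := by rwa [hc]
        obtain ⟨x1, y1, p1, q1, e1, e2⟩ := ihB (B - 1) (by omega) x y' p p hp hp hpc hpc hx hd
          hx0 h hn' hA (by
            rw [Nat.cast_sub hB1]
            push_cast
            linarith)
        exact ⟨x1, y1, p1, q1, e1.trans hc, e2⟩
    · have ht' : cf p x = t⁻¹ • cf p y := by
        rw [ht, smul_smul, inv_mul_cancel₀ ht0, one_smul]
      have h1' : 1 ≤ |t⁻¹| := by
        rw [abs_inv]
        exact (one_le_inv₀ (abs_pos.2 ht0)).2 (by linarith)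
      obtain ⟨x', hc', hd, h | ⟨h, h'⟩⟩ := step hB hI hN hp hy hx h1' ht'
      · have hc : cm x' y = cm x y := cm_swap hc'
        have hd1 : D (p + 1) x' := D_succ hd h
        have hn' : ¬ D (c + 1) (cm x' y) := by rwa [hc]
        obtain ⟨p', h2, h3, h4, h5⟩ := order hB (c := c) (by omega) hd1
          (fun h6 => hn' (D_cm_left hB (by omega) h6 y))
        obtain ⟨B', hB'⟩ := exists_nat_ge
          ((p'.factorial : ℝ) * nm (cf p' x') + (p.factorial : ℝ) * nm (cf p y))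
        obtain ⟨x1, y1, p1, q1, e1, e2⟩ := ihA ((c - p') + (c - p)) (by omega) B' x' y p' p
          (by omega) hp h3 hpc h4 hy h5 hy0 hn' le_rfl hB'
        exact ⟨x1, y1, p1, q1, e1.trans hc, e2⟩
      · have hc : cm x' y = cm x y := cm_swap hc'
        have hn' : ¬ D (c + 1) (cm x' y) := by rwa [hc]
        obtain ⟨x1, y1, p1, q1, e1, e2⟩ := ihB (B - 1) (by omega) x' y p p hp hp hpc hpc hd hy
          h hy0 hn' hA (by
            rw [Nat.cast_sub hB1]
            push_cast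
            linarith)
        exact ⟨x1, y1, p1, q1, e1.trans hc, e2⟩
  · refine ⟨x, y, p, q, rfl, hp, hq, ?_, hx, hy, hbr⟩
    by_contra h
    exact hn (D_mono (h9 p q x y hp hq hx hy).1 (by omega))

end TNOR

theorem t_NOR (hB : S_BAS) (hG : S_GRP) (hP : S_P1) (hI : S_INT) (hN : S_NM) : S_NOR := by
  intro r c x y hn
  obtain ⟨p, h1, h2, h3, h4⟩ := TNOR.order hB (c := c) le_rfl (TNOR.D_one x)
    (fun h => hn (TNOR.D_cm_left hB (by omega) h y))
  obtain ⟨q, h1', h2', h3', h4'⟩ := TNOR.order hB (c := c) le_rfl (TNOR.D_one y)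
    (fun h => hn (TNOR.D_cm_right hB (by omega) h x))
  obtain ⟨B, hB'⟩ := exists_nat_ge
    ((p.factorial : ℝ) * nm (cf p x) + (q.factorial : ℝ) * nm (cf q y))
  exact TNOR.main hB hG hP hI hN r c _ B x y p q h1 h1' h2 h2' h3 h3' h4 h4' hn le_rfl hB'

end Pool.Agent.H32CE
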