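import Mathlib
import Pool.Agent.H32CE.St

set_option autoImplicit false

namespace Pool.Agent.H32CE

namespace TP1

theorem exists_coeff_ne {ι : Type} (f : T ι) (hf : f ≠ 0) : ∃ m, f.coeff m ≠ 0 := by
  by_contra hcon
  push Not at hcon
  apply hf
  ext m
  rw [hcon m]
  simp

theorem deg_eq {ι : Type} (p q : ℕ) (a b : T ι) (ha : PH p a) (hb : PH q b) (ha0 : a ≠ 0)
    (c : ℝ) (h : a = c • b) : c ≠ 0 ∧ p = q := by
  have hc : c ≠ 0 := by
    rintro rfl
    apply ha0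
    rw [h, zero_smul]
  refine ⟨hc, ?_⟩
  obtain ⟨m, hm⟩ := exists_coeff_ne a ha0
  have h1 := ha.1 m hm
  have h2 : b.coeff m ≠ 0 := by
    intro h0
    apply hm
    rw [h]
    simp [h0]
  rw [← h1, hb.1 m h2]

end TP1

open TP1 in
theorem t_P1 (hF0 : S_F0) (hWA : S_WA) : S_P1 := by
  intro ι p q a b hp hq ha hb ha0 hb0 hbr
  obtain ⟨i, v, hvi, -, hv⟩ := hWA ι 2 ![a, b] ![b, -a] ![p, q] (by
      intro i
      fin_cases i
      · exact ha.1
      · exact hb.1) (by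
      rw [Fin.sum_univ_two]
      change a * b + b * (-a) = 0
      have : a * b - b * a = 0 := hbr
      rw [mul_neg, ← sub_eq_add_neg, this]) ⟨0, hb0⟩
  rw [Fin.sum_univ_two] at hv
  fin_cases i
  · have h0 : v 0 = 0 := hvi
    have h1 : a = b * v 1 := by
      have h2 : a = a * v 0 + b * v 1 := hv
      rwa [h0, mul_zero, zero_add] at h2
    obtain ⟨c, hc⟩ := hF0 ι q p b a (v 1) hq hb hb0 ha h1
    obtain ⟨hc0, hpq⟩ := deg_eq p q a b ha hb ha0 c hc
    refine ⟨hpq, c⁻¹, ?_⟩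
    rw [hc, smul_smul, inv_mul_cancel₀ hc0, one_smul]
  · have h0 : v 1 = 0 := hvi
    have h1 : b = a * v 0 := by
      have h2 : b = a * v 0 + b * v 1 := hv
      rwa [h0, mul_zero, add_zero] at h2
    obtain ⟨c, hc⟩ := hF0 ι p q a b (v 0) hp ha ha0 hb h1
    obtain ⟨hc0, hpq⟩ := deg_eq q p b a hb ha hb0 c hc
    exact ⟨hpq.symm, c, hc⟩

end Pool.Agent.H32CE
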