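import Pool.Agent.H32CE.St

set_option autoImplicit false

/-! # Kernel of the linearised bracket, high levels -/

namespace Pool.Agent.H32CE

namespace TP2

lemma sub_X {ι A : Type} [Ring A] [Algebra ℝ A] (e : ι → A) (i : ι) : sub e (X i) = e i := by
  unfold sub X
  rw [MonoidAlgebra.lift_single, FreeMonoid.lift_eval_of, one_smul]

lemma sub_br {ι A : Type} [Ring A] [Algebra ℝ A] (e : ι → A) (f g : T ι) :
    sub e (br f g) = br (sub e f) (sub e g) := by
  unfold br
  rw [map_sub, map_mul, map_mul]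

end TP2

open TP2 in
theorem t_P2 (h1 : S_SUF) (h2 : S_F1) (h3 : S_IND2) (_h4 : S_BRP) : S_P2 := by
  intro ι p q j a b s t hp hpq hj hq ha hb hab hs ht hst
  have hq1 : 1 ≤ q := hp.trans hpq
  have hb' : b ∈ Set.range (sub ![a, b]) := ⟨X 1, by rw [sub_X]; rfl⟩
  have h0 : br s b + br a t ∈ Set.range (sub ![a, b]) := ⟨0, by rw [hst, map_zero]⟩
  obtain ⟨U, V, hU, hV, hU', hV', hUs, hVt⟩ := h1 ι p q q (p + j) (q + j) a b b s t hp hq1 hpq
    (Nat.le_add_right _ _) hq (by omega) ha hb hb hs ht hab hab hb' h0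
  refine ⟨U, V, hU, hV, hU', hV', hUs, hVt, ?_⟩
  have hinj : Function.Injective (sub ![a, b]) := by
    refine (h2 ι 2 ![a, b] ![p, q] ?_ ?_ (h3 ι p q a b hp hq1 ha hb hab)).1
    · intro i
      fin_cases i
      · exact hp
      · exact hq1
    · intro i
      fin_cases i
      · exact ha
      · exact hb
  apply hinj
  rw [map_zero, map_add, sub_br, sub_br, sub_X, sub_X, hUs, hVt]
  exact hst

end Pool.Agent.H32CE
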