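import Mathlib
import Pool.Agent.H32CE.St

set_option autoImplicit false

/-!
# Task P2STEP of project CE: the P2 step
-/

namespace Pool.Agent.H32CE

namespace TP2STEP

open PowerSeries

/-! ### polynomial bounds -/

/-- polynomially bounded functions -/
def PB (f : ℕ → ℕ) : Prop := ∃ C E : ℕ, ∀ n, f n ≤ C * (n + 1) ^ E

theorem pb_const (c : ℕ) : PB (fun _ => c) := ⟨c, 0, fun n => by simp⟩

theorem pb_id : PB (fun n => n) := ⟨1, 1, fun n => by simp⟩

theorem pb_add {f g : ℕ → ℕ} (hf : PB f) (hg : PB g) : PB (fun n => f n + g n) := by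
  obtain ⟨C, E, h⟩ := hf
  obtain ⟨C', E', h'⟩ := hg
  refine ⟨C + C', E + E', fun n => ?_⟩
  have h1 : 1 ≤ (n + 1) ^ E := Nat.one_le_pow _ _ (by omega)
  have h2 : 1 ≤ (n + 1) ^ E' := Nat.one_le_pow _ _ (by omega)
  calc f n + g n ≤ C * (n + 1) ^ E + C' * (n + 1) ^ E' := add_le_add (h n) (h' n)
    _ ≤ C * ((n + 1) ^ E * (n + 1) ^ E') + C' * ((n + 1) ^ E * (n + 1) ^ E') := by
        gcongr
        · exact Nat.le_mul_of_pos_right _ h2
        · exact Nat.le_mul_of_pos_left _ h1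
    _ = _ := by rw [pow_add]; ring

theorem pb_mul {f g : ℕ → ℕ} (hf : PB f) (hg : PB g) : PB (fun n => f n * g n) := by
  obtain ⟨C, E, h⟩ := hf
  obtain ⟨C', E', h'⟩ := hg
  refine ⟨C * C', E + E', fun n => ?_⟩
  calc f n * g n ≤ (C * (n + 1) ^ E) * (C' * (n + 1) ^ E') := Nat.mul_le_mul (h n) (h' n)
    _ = _ := by rw [pow_add]; ring

theorem pb_pow {f : ℕ → ℕ} (hf : PB f) (k : ℕ) : PB (fun n => f n ^ k) := by
  obtain ⟨C, E, h⟩ := hf
  refine ⟨C ^ k, E * k, fun n => ?_⟩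
  calc f n ^ k ≤ (C * (n + 1) ^ E) ^ k := Nat.pow_le_pow_left (h n) k
    _ = _ := by rw [mul_pow, pow_mul]

theorem pb_sum {ι : Type} (s : Finset ι) {f : ι → ℕ → ℕ} (hf : ∀ i, PB (f i)) :
    PB (fun n => ∑ i ∈ s, f i n) := by
  classical
  induction s using Finset.induction_on with
  | empty => simpa using pb_const 0
  | insert i s hi ih =>
    simp only [Finset.sum_insert hi]
    exact pb_add (hf i) ih

/-! ### homogeneous, primitive, integral elements -/

section alg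

variable {ι : Type}

theorem ish_add {w : ι → ℕ} {k : ℕ} {f g : T ι} (hf : IsH w k f) (hg : IsH w k g) :
    IsH w k (f + g) := by
  intro m hm
  by_cases h1 : f.coeff m = 0
  · by_cases h2 : g.coeff m = 0
    · exfalso
      apply hm
      rw [MonoidAlgebra.coeff_add, Finsupp.add_apply, h1, h2, add_zero]
    · exact hg m h2
  · exact hf m h1

theorem ish_smul {w : ι → ℕ} {k : ℕ} {f : T ι} (c : ℝ) (hf : IsH w k f) :
    IsH w k (c • f) := by
  intro m hm
  apply hf m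
  intro h
  apply hm
  rw [MonoidAlgebra.coeff_smul, Finsupp.smul_apply, h, smul_zero]

theorem prim_add {f g : T ι} (hf : Prim f) (hg : Prim g) : Prim (f + g) := by
  unfold Prim at *
  rw [map_add, map_add, map_add, hf, hg]
  abel

theorem prim_smul {f : T ι} (c : ℝ) (hf : Prim f) : Prim (c • f) := by
  unfold Prim at *
  rw [map_smul, map_smul, map_smul, hf, smul_add]

theorem ph_add {k : ℕ} {f g : T ι} (hf : PH k f) (hg : PH k g) : PH k (f + g) :=
  ⟨ish_add hf.1 hg.1, prim_add hf.2 hg.2⟩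

theorem ph_smul {k : ℕ} {f : T ι} (c : ℝ) (hf : PH k f) : PH k (c • f) :=
  ⟨ish_smul c hf.1, prim_smul c hf.2⟩

theorem ph_zero (k : ℕ) : PH k (0 : T ι) := by
  refine ⟨fun m hm => absurd rfl hm, ?_⟩
  unfold Prim
  rw [map_zero, map_zero, map_zero, add_zero]

theorem ph_sum {k : ℕ} {κ : Type} (s : Finset κ) (f : κ → T ι) (hf : ∀ i, PH k (f i)) :
    PH k (∑ i ∈ s, f i) := by
  classical
  induction s using Finset.induction_on with
  | empty => simpa using ph_zero k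
  | insert i s hi ih =>
    rw [Finset.sum_insert hi]
    exact ph_add (hf i) ih

theorem ph_neg {k : ℕ} {f : T ι} (hf : PH k f) : PH k (-f) := by
  have := ph_smul (-1) hf
  rwa [neg_one_smul] at this

/-- integral coefficients -/
def II (f : T ι) : Prop := ∀ m, ∃ z : ℤ, f.coeff m = z

theorem ii_iff (f : T ι) : II f ↔
    f ∈ (MonoidAlgebra.mapRingHom (FreeMonoid ι) (Int.castRingHom ℝ)).range := by
  constructor
  · intro h
    have : f ∈ Set.range (MonoidAlgebra.map (M := FreeMonoid ι)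
        ((Int.castRingHom ℝ : ℤ →+* ℝ) : ℤ →+ ℝ)) := by
      rw [MonoidAlgebra.range_map]
      intro m
      obtain ⟨z, hz⟩ := h m
      exact ⟨z, by simpa using hz.symm⟩
    obtain ⟨g, hg⟩ := this
    exact ⟨g, by rw [MonoidAlgebra.coe_mapRingHom]; exact hg⟩
  · rintro ⟨g, rfl⟩ m
    exact ⟨g.coeff m, by simp⟩

theorem ii_mul {f g : T ι} (hf : II f) (hg : II g) : II (f * g) := by
  rw [ii_iff] at *
  exact mul_mem hf hg

theorem ii_sub {f g : T ι} (hf : II f) (hg : II g) : II (f - g) := by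
  rw [ii_iff] at *
  exact sub_mem hf hg

theorem ii_br {f g : T ι} (hf : II f) (hg : II g) : II (br f g) :=
  ii_sub (ii_mul hf hg) (ii_mul hg hf)

theorem ii_nsmul {f : T ι} (hf : II f) (n : ℕ) : II ((n : ℝ) • f) := by
  intro m
  obtain ⟨z, hz⟩ := hf m
  refine ⟨n * z, ?_⟩
  rw [MonoidAlgebra.coeff_smul, Finsupp.smul_apply, hz]
  push_cast
  rfl

theorem br_add_left (a b c : T ι) : br (a + b) c = br a c + br b c := by
  unfold br; noncomm_ring

theorem br_add_right (a b c : T ι) : br a (b + c) = br a b + br a c := by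
  unfold br; noncomm_ring

theorem br_smul_left (t : ℝ) (a c : T ι) : br (t • a) c = t • br a c := by
  unfold br; rw [smul_mul_assoc, mul_smul_comm, smul_sub]

theorem br_smul_right (t : ℝ) (a c : T ι) : br a (t • c) = t • br a c := by
  unfold br; rw [smul_mul_assoc, mul_smul_comm, smul_sub]

theorem br_zero_left (c : T ι) : br 0 c = 0 := by
  unfold br; simp

theorem br_zero_right (c : T ι) : br c 0 = 0 := by
  unfold br; simp

theorem br_sum_left {κ : Type} (s : Finset κ) (f : κ → T ι) (c : T ι) :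
    br (∑ i ∈ s, f i) c = ∑ i ∈ s, br (f i) c := by
  unfold br
  rw [Finset.sum_mul, Finset.mul_sum, Finset.sum_sub_distrib]

theorem br_sum_right {κ : Type} (s : Finset κ) (f : κ → T ι) (c : T ι) :
    br c (∑ i ∈ s, f i) = ∑ i ∈ s, br c (f i) := by
  unfold br
  rw [Finset.sum_mul, Finset.mul_sum, Finset.sum_sub_distrib]

theorem nm_sum_le (hNM : S_NM) {κ : Type} (s : Finset κ) (f : κ → T ι) :
    nm (∑ i ∈ s, f i) ≤ ∑ i ∈ s, nm (f i) := by
  classical
  induction s using Finset.induction_on with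
  | empty =>
    have := (hNM ι 0 0 0).2.2.1
    simp at this ⊢
    rw [this]
  | insert i s hi ih =>
    rw [Finset.sum_insert hi, Finset.sum_insert hi]
    have := (hNM ι (f i) (∑ i ∈ s, f i) 0).1
    linarith

end alg

/-! ### linear systems -/

theorem rb' (hRB : S_RB) (ι κ : Type) [Fintype ι] [Fintype κ] : ∃ C E : ℕ,
    ∀ (B : ℕ) (M : ι → κ → ℤ) (h : ι → ℤ), 1 ≤ B → (∀ i k, |M i k| ≤ B) → (∀ i, |h i| ≤ B) →
    (∃ z : κ → ℝ, ∀ i, ∑ k, (M i k : ℝ) * z k = h i) →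
    ∃ (d : ℕ) (z : κ → ℤ), 1 ≤ d ∧ (∀ k, |z k| ≤ C * B ^ E) ∧
      ∀ i, ∑ k, M i k * z k = d * h i := by
  classical
  obtain ⟨C, E, H⟩ := hRB (Fintype.card ι) (Fintype.card κ)
  refine ⟨C, E, fun B M h hB hM hh hz => ?_⟩
  obtain ⟨z, hz⟩ := hz
  have e := Fintype.equivFin ι
  have f := Fintype.equivFin κ
  obtain ⟨d, z', hd, _, hz', hs⟩ := H B (fun i k => M (e.symm i) (f.symm k)) (fun i => h (e.symm i))
    hB (fun i k => hM _ _) (fun i => hh _) ⟨fun k => z (f.symm k), fun i => by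
      rw [← hz (e.symm i)]
      exact Equiv.sum_comp f.symm (fun k => (M (e.symm i) k : ℝ) * z k)⟩
  refine ⟨d, fun k => z' (f k), hd, fun k => hz' _, fun i => ?_⟩
  have := hs (e i)
  rw [Equiv.symm_apply_apply] at this
  rw [← this, ← Equiv.sum_comp f]
  simp

/-- the word of a function -/
def wrd {r k : ℕ} (m : Fin k → Fin r) : FreeMonoid (Fin r) := FreeMonoid.ofList (List.ofFn m)

theorem ext_ish {r k : ℕ} {f g : T (Fin r)} (hf : IsH (fun _ => 1) k f)
    (hg : IsH (fun _ => 1) k g) (h : ∀ m : Fin k → Fin r, f.coeff (wrd m) = g.coeff (wrd m)) :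
    f = g := by
  apply MonoidAlgebra.coeff_injective
  ext m
  by_cases hm : wd (fun _ => 1) m = k
  · have hl : (FreeMonoid.toList m).length = k := by
      rw [← hm]; simp [wd]
    have : m = wrd (fun i : Fin k => (FreeMonoid.toList m).get (i.cast hl.symm)) := by
      unfold wrd
      apply FreeMonoid.toList.injective
      rw [FreeMonoid.toList_ofList]
      subst hl
      simp
    rw [this]
    exact h _
  · have h1 : f.coeff m = 0 := by by_contra h1; exact hm (hf m h1)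
    have h2 : g.coeff m = 0 := by by_contra h1; exact hm (hg m h1)
    rw [h1, h2]

theorem ish_sum {r k : ℕ} {κ : Type} (s : Finset κ) (f : κ → T (Fin r))
    (hf : ∀ i, IsH (fun _ => 1) k (f i)) : IsH (fun _ => 1) k (∑ i ∈ s, f i) := by
  classical
  induction s using Finset.induction_on with
  | empty => intro m hm; exact absurd rfl hm
  | insert i s hi ih =>
    rw [Finset.sum_insert hi]
    exact ish_add (hf i) ih

theorem coeff_sum' {r : ℕ} {κ : Type} (s : Finset κ) (z : κ → ℝ) (f : κ → T (Fin r))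
    (m : FreeMonoid (Fin r)) : (∑ i ∈ s, z i • f i).coeff m = ∑ i ∈ s, z i * (f i).coeff m := by
  rw [MonoidAlgebra.coeff_sum, Finsupp.finsetSum_apply]
  rfl

theorem sysl (hRB : S_RB) (hNM : S_NM) (r k : ℕ) (κ : Type) [Fintype κ] : ∃ C E : ℕ,
    ∀ (B : ℕ) (w : κ → T (Fin r)) (r0 : T (Fin r)), 1 ≤ B →
    (∀ i, IsH (fun _ => 1) k (w i)) → IsH (fun _ => 1) k r0 → (∀ i, II (w i)) → II r0 →
    (∀ i, nm (w i) ≤ B) → nm r0 ≤ B → (∃ z : κ → ℝ, ∑ i, z i • w i = r0) →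
    ∃ z : κ → ℝ, (∀ i, |z i| ≤ (C * B ^ E : ℕ)) ∧ ∑ i, z i • w i = r0 := by
  obtain ⟨C, E, H⟩ := rb' hRB (Fin k → Fin r) κ
  refine ⟨C, E, fun B w r0 hB hw hr0 hwi hr0i hwB hr0B hz => ?_⟩
  obtain ⟨z, hz⟩ := hz
  choose M hM using fun i (m : Fin k → Fin r) => hwi i (wrd m)
  choose h hh using fun (m : Fin k → Fin r) => hr0i (wrd m)
  have hbd : ∀ (f : T (Fin r)) (m : FreeMonoid (Fin r)) (z : ℤ), f.coeff m = z → nm f ≤ B →
      |z| ≤ B := by
    intro f m z h1 h2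
    have h3 := (hNM (Fin r) f 0 0).2.2.2.2.2.1 m
    rw [h1] at h3
    have h4 : |(z : ℝ)| ≤ B := h3.trans h2
    exact_mod_cast h4
  obtain ⟨d, z', hd, hz', hs⟩ := H B (fun m i => M i m) h hB
    (fun m i => hbd _ _ _ (hM i m) (hwB i)) (fun m => hbd _ _ _ (hh m) hr0B)
    ⟨z, fun m => by
      rw [← hh m, ← hz, coeff_sum']
      apply Finset.sum_congr rfl
      intro i _
      rw [← hM i m, mul_comm]⟩
  have hd' : (1 : ℝ) ≤ d := by exact_mod_cast hd
  refine ⟨fun i => (z' i : ℝ) / d, fun i => ?_, ?_⟩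
  · rw [abs_div, abs_of_pos (by linarith : (0 : ℝ) < d)]
    have h1 : |(z' i : ℝ)| ≤ (C * B ^ E : ℕ) := by
      have := hz' i
      push_cast
      exact_mod_cast this
    exact (div_le_self (abs_nonneg _) hd').trans h1
  · apply ext_ish (ish_sum _ _ fun i => ish_smul _ (hw i)) hr0
    intro m
    rw [coeff_sum', hh m]
    have h1 := hs m
    have h2 : ∑ i, (M i m : ℝ) * (z' i : ℝ) = d * h m := by exact_mod_cast h1
    have h3 : ∑ i, (z' i : ℝ) / d * (w i).coeff (wrd m) = (∑ i, (M i m : ℝ) * (z' i : ℝ)) / d := by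
      rw [Finset.sum_div]
      apply Finset.sum_congr rfl
      intro i _
      rw [hM i m]; ring
    rw [h3, h2, mul_div_cancel_left₀]
    linarith

/-! ### the filtration -/

section grp

variable {ι : Type}

theorem D_mono {k l : ℕ} (h : k ≤ l) {x : FreeGroup ι} (hx : D l x) : D k x :=
  fun i h1 h2 => hx i h1 (lt_of_lt_of_le h2 h)

theorem D_succ {k : ℕ} {x : FreeGroup ι} (hx : D k x) (h : cf k x = 0) : D (k + 1) x := by
  intro i h1 h2
  rcases Nat.lt_succ_iff_lt_or_eq.1 h2 with h3 | h3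
  · exact hx i h1 h3
  · rw [h3]; exact h

theorem D_one (hB : S_BAS) (k : ℕ) : D k (1 : FreeGroup ι) := by
  intro i h1 _
  have := (hB ι).2.2.2.2.2.1 (i + 1) (i + 1) (1 : FreeGroup ι) 1
  unfold cf mag
  rw [map_one, Units.val_one, PowerSeries.coeff_one, if_neg (by omega)]

theorem cf_one {k : ℕ} (hk : 1 ≤ k) : cf k (1 : FreeGroup ι) = 0 := by
  unfold cf mag
  rw [map_one, Units.val_one, PowerSeries.coeff_one, if_neg (by omega)]

variable [DecidableEq ι]

theorem len_mul (x y : FreeGroup ι) : len (x * y) ≤ len x + len y := FreeGroup.norm_mul_le x y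

theorem len_inv (x : FreeGroup ι) : len x⁻¹ = len x := FreeGroup.norm_inv_eq

theorem len_one : len (1 : FreeGroup ι) = 0 := FreeGroup.norm_one

theorem npow_facts (hB : S_BAS) {k : ℕ} (hk : 1 ≤ k) {x : FreeGroup ι} (hx : D k x) (n : ℕ) :
    D k (x ^ n) ∧ cf k (x ^ n) = (n : ℝ) • cf k x ∧ len (x ^ n) ≤ n * len x := by
  induction n with
  | zero => rw [pow_zero, cf_one hk, len_one]; exact ⟨D_one hB k, by simp, by simp⟩
  | succ n ih =>
    obtain ⟨h1, h2, h3⟩ := ih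
    rw [pow_succ]
    refine ⟨(hB ι).2.2.1 k _ _ h1 hx, ?_, ?_⟩
    · rw [(hB ι).2.2.2.2.2.1 k k _ _ h1 hx k hk (by omega), h2]
      push_cast
      rw [add_smul, one_smul]
    · refine (len_mul _ _).trans ?_
      rw [add_mul, one_mul]
      omega

theorem zpow_facts (hB : S_BAS) {k : ℕ} (hk : 1 ≤ k) {x : FreeGroup ι} (hx : D k x) (m : ℤ) :
    D k (x ^ m) ∧ cf k (x ^ m) = (m : ℝ) • cf k x ∧ len (x ^ m) ≤ m.natAbs * len x := by
  obtain ⟨n, rfl | rfl⟩ := m.eq_nat_or_neg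
  · rw [zpow_natCast]
    simpa using npow_facts hB hk hx n
  · obtain ⟨h1, h2, h3⟩ := npow_facts hB hk hx n
    rw [zpow_neg, zpow_natCast, len_inv]
    refine ⟨(hB ι).2.2.2.1 k _ h1, ?_, by simpa using h3⟩
    rw [(hB ι).2.2.2.2.2.2.1 k _ h1 k hk (by omega), h2]
    push_cast
    rw [neg_smul]

theorem prod_facts (hB : S_BAS) {k : ℕ} (hk : 1 ≤ k) {κ : Type} (e : κ → FreeGroup ι)
    (he : ∀ i, D k (e i)) (m : κ → ℤ) (s : Finset κ) : ∃ u : FreeGroup ι,
    D k u ∧ cf k u = ∑ i ∈ s, (m i : ℝ) • cf k (e i) ∧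
      len u ≤ ∑ i ∈ s, (m i).natAbs * len (e i) := by
  classical
  induction s using Finset.induction_on with
  | empty => exact ⟨1, D_one hB k, by simpa using cf_one hk, by simp [len_one]⟩
  | insert i s hi ih =>
    obtain ⟨u, h1, h2, h3⟩ := ih
    obtain ⟨h4, h5, h6⟩ := zpow_facts hB hk (he i) (m i)
    refine ⟨e i ^ m i * u, (hB ι).2.2.1 k _ _ h4 h1, ?_, ?_⟩
    · rw [(hB ι).2.2.2.2.2.1 k k _ _ h4 h1 k hk (by omega), h2, h5, Finset.sum_insert hi]
    · rw [Finset.sum_insert hi]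
      exact (len_mul _ _).trans (add_le_add h6 h3)

end grp

theorem absorb (hB : S_BAS) (hG : S_GEN) (r k : ℕ) (hk : 1 ≤ k) : ∃ C : ℕ,
    ∀ x₀ x : FreeGroup (Fin r), D k (x₀⁻¹ * x) → ∃ x₀' : FreeGroup (Fin r),
      D (k + 1) (x₀'⁻¹ * x) ∧ (len x₀' : ℝ) ≤ len x₀ + C * nm (cf k (x₀⁻¹ * x)) := by
  obtain ⟨n, C, e, he, _, hx⟩ := hG r k hk
  refine ⟨C * ∑ i, len (e i), fun x₀ x hxx => ?_⟩
  obtain ⟨m, hm, hmb⟩ := hx _ hxx
  obtain ⟨u, h1, h2, h3⟩ := prod_facts hB hk e he m Finset.univ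
  have h4 : cf k u = cf k (x₀⁻¹ * x) := by rw [h2, ← hm]
  refine ⟨x₀ * u, ?_, ?_⟩
  · have h5 : (x₀ * u)⁻¹ * x = u⁻¹ * (x₀⁻¹ * x) := by group
    rw [h5]
    have h6 := (hB (Fin r)).2.2.2.1 k _ h1
    apply D_succ ((hB (Fin r)).2.2.1 k _ _ h6 hxx)
    rw [(hB (Fin r)).2.2.2.2.2.1 k k _ _ h6 hxx k hk (by omega),
      (hB (Fin r)).2.2.2.2.2.2.1 k _ h1 k hk (by omega), h4]
    simp
  · have h7 : (len (x₀ * u) : ℝ) ≤ len x₀ + len u := by exact_mod_cast len_mul x₀ u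
    have h8 : (len u : ℝ) ≤ ∑ i, |(m i : ℝ)| * len (e i) := by
      have : (len u : ℝ) ≤ ((∑ i, (m i).natAbs * len (e i) : ℕ) : ℝ) := by exact_mod_cast h3
      refine this.trans (le_of_eq ?_)
      push_cast
      apply Finset.sum_congr rfl
      intro i _
      rw [Nat.cast_natAbs]
      push_cast
      rfl
    have h9 : ∑ i, |(m i : ℝ)| * len (e i) ≤
        ∑ i, (C * nm (cf k (x₀⁻¹ * x))) * (len (e i) : ℝ) := by
      apply Finset.sum_le_sum
      intro i _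
      exact mul_le_mul_of_nonneg_right (hmb i) (by positivity)
    rw [← Finset.mul_sum] at h9
    push_cast
    nlinarith [h7, h8, h9]

/-! ### moves -/

/-- iteration of abstract moves -/
theorem iter {r n : ℕ} (P : T (Fin r) → T (Fin r) → Prop) (s t : Fin n → T (Fin r))
    (hP : ∀ k u v, P u v → P (u + s k) (v + t k)) (N : Fin n → ℕ) {u v : T (Fin r)}
    (h : P u v) : P (u + ∑ k, (N k : ℝ) • s k) (v + ∑ k, (N k : ℝ) • t k) := by
  classical
  have h1 : ∀ (k : Fin n) (N : ℕ) (u v : T (Fin r)), P u v →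
      P (u + (N : ℝ) • s k) (v + (N : ℝ) • t k) := by
    intro k N
    induction N with
    | zero => intro u v h; simpa using h
    | succ N ih =>
      intro u v h
      have := hP k _ _ (ih u v h)
      push_cast
      rw [add_smul, add_smul, one_smul, one_smul, ← add_assoc, ← add_assoc]
      exact this
  have h2 : ∀ S : Finset (Fin n), P (u + ∑ k ∈ S, (N k : ℝ) • s k)
      (v + ∑ k ∈ S, (N k : ℝ) • t k) := by
    intro S
    induction S using Finset.induction_on with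
    | empty => simpa using h
    | insert i S hi ih =>
      rw [Finset.sum_insert hi, Finset.sum_insert hi]
      have := h1 i (N i) _ _ ih
      rw [add_assoc, add_assoc, add_comm (∑ k ∈ S, (N k : ℝ) • s k),
        add_comm (∑ k ∈ S, (N k : ℝ) • t k)] at this
      exact this
  exact h2 _

/-- the state -/
def St {r : ℕ} (p q j c : ℕ) (g x₀ y₀ : FreeGroup (Fin r)) (a b : T (Fin r))
    (u v : T (Fin r)) : Prop := ∃ x y : FreeGroup (Fin r), D p x ∧ D q y ∧ cf p x = a ∧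
  cf q y = b ∧ Sol c g x y ∧ D (p + j) (x₀⁻¹ * x) ∧ D (q + j) (y₀⁻¹ * y) ∧
  cf (p + j) (x₀⁻¹ * x) = u ∧ cf (q + j) (y₀⁻¹ * y) = v

theorem move (hB : S_BAS) {r : ℕ} {p q j c : ℕ} {g x₀ y₀ : FreeGroup (Fin r)} {a b : T (Fin r)}
    (hp : 1 ≤ p) (hq : 1 ≤ q) (hj : 1 ≤ j)
    (U V : FreeGroup (Fin 2)) (S T' : T (Fin 2))
    (H : ∀ (x y : FreeGroup (Fin r)), D p x → D q y →
      D (p + j) (FreeGroup.lift ![x, y] U) ∧
      cf (p + j) (FreeGroup.lift ![x, y] U) = sub ![cf p x, cf q y] S ∧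
      D (q + j) (FreeGroup.lift ![x, y] V) ∧
      cf (q + j) (FreeGroup.lift ![x, y] V) = sub ![cf p x, cf q y] T' ∧
      D (c + 1) ((cm x y)⁻¹ * cm (x * FreeGroup.lift ![x, y] U)
        (y * FreeGroup.lift ![x, y] V)))
    (u v : T (Fin r)) (h : St p q j c g x₀ y₀ a b u v) :
    St p q j c g x₀ y₀ a b (u + sub ![a, b] S) (v + sub ![a, b] T') := by
  obtain ⟨x, y, hx, hy, ha, hb, hs, hxx, hyy, hu, hv⟩ := h
  obtain ⟨h1, h2, h3, h4, h5⟩ := H x y hx hy
  rw [ha, hb] at h2 h4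
  have hmul := (hB (Fin r)).2.2.1
  have hadd := (hB (Fin r)).2.2.2.2.2.1
  refine ⟨x * FreeGroup.lift ![x, y] U, y * FreeGroup.lift ![x, y] V,
    hmul p _ _ hx (D_mono (by omega) h1), hmul q _ _ hy (D_mono (by omega) h3), ?_, ?_, ?_, ?_, ?_,
    ?_, ?_⟩
  · rw [hadd p (p + j) _ _ hx h1 p hp (by omega), ha, h1 p hp (by omega), add_zero]
  · rw [hadd q (q + j) _ _ hy h3 q hq (by omega), hb, h3 q hq (by omega), add_zero]
  · unfold Sol at *
    have : g⁻¹ * cm (x * FreeGroup.lift ![x, y] U) (y * FreeGroup.lift ![x, y] V) =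
        (g⁻¹ * cm x y) * ((cm x y)⁻¹ * cm (x * FreeGroup.lift ![x, y] U)
        (y * FreeGroup.lift ![x, y] V)) := by group
    rw [this]
    exact hmul _ _ _ hs h5
  · rw [← mul_assoc]
    exact hmul _ _ _ hxx h1
  · rw [← mul_assoc]
    exact hmul _ _ _ hyy h3
  · rw [← mul_assoc, hadd _ _ _ _ hxx h1 (p + j) (by omega) (by omega), hu, h2]
  · rw [← mul_assoc, hadd _ _ _ _ hyy h3 (q + j) (by omega) (by omega), hv, h4]

/-! ### the linear equation -/

theorem ordge_mag (hB : S_BAS) {r k : ℕ} {u : FreeGroup (Fin r)} (hu : D k u) :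
    ordge k (mag u - 1) := by
  intro i hi
  rw [map_sub, PowerSeries.coeff_one]
  by_cases h0 : i = 0
  · subst h0
    rw [(hB (Fin r)).1 u, if_pos rfl, sub_self]
  · rw [if_neg h0, sub_zero]
    exact hu i (by omega) hi

theorem coeff_mag {r k : ℕ} (hk : 1 ≤ k) (u : FreeGroup (Fin r)) :
    coeff k (mag u - 1) = cf k u := by
  rw [map_sub, PowerSeries.coeff_one, if_neg (by omega), sub_zero]
  rfl

theorem coeff_mul_zero {A : Type} [Ring A] {k l n : ℕ} {f g : PS A} (hf : ordge k f)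
    (hg : ordge l g) (h : n < k + l) : coeff n (f * g) = 0 := by
  rw [PowerSeries.coeff_mul]
  apply Finset.sum_eq_zero
  rintro ⟨i, i'⟩ hi
  rw [Finset.HasAntidiagonal.mem_antidiagonal] at hi
  simp only at hi ⊢
  by_cases h1 : i < k
  · rw [hf i h1, zero_mul]
  · rw [hg i' (by omega), mul_zero]

theorem base_eq (hB : S_BAS) (hLIN : S_LIN) (hPSO : S_PSO) {r p q j c : ℕ} (hp : 1 ≤ p)
    (hq : 1 ≤ q) (hj : 1 ≤ j) (hc : p + q + j ≤ c) {g x₀ y₀ u v : FreeGroup (Fin r)}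
    (hx0 : D p x₀) (hy0 : D q y₀) (hu : D (p + j) u) (hv : D (q + j) v)
    (hs : Sol c g (x₀ * u) (y₀ * v)) :
    br (cf (p + j) u) (cf q y₀) + br (cf p x₀) (cf (q + j) v) =
      cf (p + q + j) ((cm x₀ y₀)⁻¹ * g) := by
  have h1 := (hLIN r p q j x₀ y₀ u v hp hq hj hx0 hy0 hu hv).2 (p + q + j) (by omega) (by omega)
  have hδ := ordge_mag hB hu
  have hε := ordge_mag hB hv
  have h2 := (hPSO r p q j x₀ y₀ (mag u - 1) (mag v - 1) hp hq hx0 hy0 hδ hε).2
  have h3 : coeff (p + q + j) (br (mag u - 1) (mag v - 1)) = 0 := by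
    unfold br
    rw [map_sub, coeff_mul_zero hδ hε (by omega), coeff_mul_zero hε hδ (by omega), sub_self]
  rw [map_add, h2, h3, add_zero, coeff_mag (by omega), coeff_mag (by omega)] at h1
  rw [← h1]
  have h4 : D (c + 1) (((cm x₀ y₀)⁻¹ * g)⁻¹ * ((cm x₀ y₀)⁻¹ * cm (x₀ * u) (y₀ * v))) := by
    have : ((cm x₀ y₀)⁻¹ * g)⁻¹ * ((cm x₀ y₀)⁻¹ * cm (x₀ * u) (y₀ * v)) =
        g⁻¹ * cm (x₀ * u) (y₀ * v) := by group
    rw [this]; exact hs
  exact ((((hB (Fin r)).2.2.2.2.2.2.2.2.2.2 c _ _).2 h4) (p + q + j) (by omega) hc).symm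

theorem ish_mul {ι : Type} {w : ι → ℕ} {k l : ℕ} {f g : T ι} (hf : IsH w k f) (hg : IsH w l g) :
    IsH w (k + l) (f * g) := by
  classical
  intro m hm
  have h1 : m ∈ (f * g).coeff.support := Finsupp.mem_support_iff.2 hm
  have h2 := MonoidAlgebra.support_coeff_mul_subset f g h1
  obtain ⟨m1, hm1, m2, hm2, rfl⟩ := Finset.mem_mul.1 h2
  have h3 := hf m1 (Finsupp.mem_support_iff.1 hm1)
  have h4 := hg m2 (Finsupp.mem_support_iff.1 hm2)
  unfold wd at *
  rw [FreeMonoid.toList_mul, List.map_append, List.sum_append, h3, h4]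

theorem ish_br {ι : Type} {w : ι → ℕ} {k l : ℕ} {f g : T ι} (hf : IsH w k f) (hg : IsH w l g) :
    IsH w (k + l) (br f g) := by
  have h1 := ish_mul hf hg
  have h2 := ish_smul (-1) (ish_mul hg hf)
  rw [add_comm l k] at h2
  have h3 := ish_add h1 h2
  rwa [neg_one_smul, ← sub_eq_add_neg] at h3

theorem ii_cf (hI : S_INT) {ι : Type} (k : ℕ) (x : FreeGroup ι) :
    II ((k.factorial : ℝ) • cf k x) := by
  intro m
  obtain ⟨z, hz⟩ := hI ι k x m
  exact ⟨z, by rw [← hz]; rfl⟩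

theorem ii_brcf (hI : S_INT) {ι : Type} (k l n : ℕ) (x y : FreeGroup ι) :
    II (((n * (k.factorial * l.factorial) : ℕ) : ℝ) • br (cf k x) (cf l y)) := by
  have h1 := ii_nsmul (ii_br (ii_cf hI k x) (ii_cf hI l y)) n
  rw [br_smul_left, br_smul_right, smul_smul, smul_smul] at h1
  push_cast
  rwa [← mul_assoc]

theorem len_cm {r : ℕ} (x y g : FreeGroup (Fin r)) :
    len ((cm x y)⁻¹ * g) ≤ 2 * len x + 2 * len y + len g := by
  have h1 := len_mul (cm x y)⁻¹ g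
  rw [len_inv] at h1
  unfold cm at *
  have h2 := len_mul (x⁻¹ * y⁻¹ * x) y
  have h3 := len_mul (x⁻¹ * y⁻¹) x
  have h4 := len_mul (x⁻¹) y⁻¹
  rw [len_inv, len_inv] at h4
  omega

/-- the linear part: a bounded real solution -/
theorem linpart (hB : S_BAS) (hI : S_INT) (hNM : S_NM) (hLIN : S_LIN) (hPSO : S_PSO)
    (hSIZ : S_SIZ) (hRB : S_RB) (r p q j c : ℕ) (hp : 1 ≤ p) (hq : 1 ≤ q) (hj : 1 ≤ j)
    (hc : p + q + j ≤ c) {n₁ n₂ : ℕ} (e : Fin n₁ → FreeGroup (Fin r))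
    (f : Fin n₂ → FreeGroup (Fin r)) (F0 : ℕ → ℕ) (hF0 : PB F0) :
    ∃ A Bq Z : ℕ → ℕ, PB A ∧ PB Bq ∧ PB Z ∧
      ∀ g x y x₀ y₀ : FreeGroup (Fin r), D p x → D q y → Sol c g x y →
      D (p + j) (x₀⁻¹ * x) → D (q + j) (y₀⁻¹ * y) → len x₀ ≤ F0 (len g) → len y₀ ≤ F0 (len g) →
      (∃ m : Fin n₁ → ℤ, cf (p + j) (x₀⁻¹ * x) = ∑ i, (m i : ℝ) • cf (p + j) (e i)) →
      (∃ m : Fin n₂ → ℤ, cf (q + j) (y₀⁻¹ * y) = ∑ i, (m i : ℝ) • cf (q + j) (f i)) →
      nm (cf p x) ≤ A (len g) ∧ nm (cf q y) ≤ Bq (len g) ∧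
      ∃ (z : Fin n₁ → ℝ) (z' : Fin n₂ → ℝ), (∀ i, |z i| ≤ Z (len g)) ∧
        (∀ i, |z' i| ≤ Z (len g)) ∧
        br (cf (p + j) (x₀⁻¹ * x) - ∑ i, z i • cf (p + j) (e i)) (cf q y) +
          br (cf p x) (cf (q + j) (y₀⁻¹ * y) - ∑ i, z' i • cf (q + j) (f i)) = 0 := by
  obtain ⟨Crb, Erb, hrb⟩ := sysl hRB hNM r (p + q + j) (Fin n₁ ⊕ Fin n₂)
  obtain ⟨Cp, hCp⟩ := hSIZ r p
  obtain ⟨Cq, hCq⟩ := hSIZ r q
  obtain ⟨Cs, hCs⟩ := hSIZ r (p + q + j)
  set Fc : ℕ := (p + j).factorial * q.factorial * (p.factorial * (q + j).factorial) *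
    (p + q + j).factorial with hFc
  have hFcpos : 0 < Fc := by positivity
  obtain ⟨Ne, hNe⟩ : ∃ Ne : ℕ, ∀ i, nm (cf (p + j) (e i)) ≤ Ne := by
    refine ⟨⌈∑ i, nm (cf (p + j) (e i))⌉₊, fun i => ?_⟩
    refine (Finset.single_le_sum (f := fun i => nm (cf (p + j) (e i)))
      (fun i _ => (hNM _ _ 0 0).2.2.2.1) (Finset.mem_univ i)).trans (Nat.le_ceil _)
  obtain ⟨Nf, hNf⟩ : ∃ Nf : ℕ, ∀ i, nm (cf (q + j) (f i)) ≤ Nf := by
    refine ⟨⌈∑ i, nm (cf (q + j) (f i))⌉₊, fun i => ?_⟩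
    refine (Finset.single_le_sum (f := fun i => nm (cf (q + j) (f i)))
      (fun i _ => (hNM _ _ 0 0).2.2.2.1) (Finset.mem_univ i)).trans (Nat.le_ceil _)
  set A : ℕ → ℕ := fun n => Cp * (F0 n + 1) ^ p with hA
  set Bq : ℕ → ℕ := fun n => Cq * (F0 n + 1) ^ q with hBq
  set R : ℕ → ℕ := fun n => Cs * (4 * F0 n + n + 1) ^ (p + q + j) with hR
  set BB : ℕ → ℕ := fun n => 1 + (Fc * (2 * (Ne * Bq n)) + (Fc * (2 * (A n * Nf)) + Fc * R n))
    with hBB
  have hPA : PB A := pb_mul (pb_const _) (pb_pow (pb_add hF0 (pb_const 1)) _)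
  have hPB : PB Bq := pb_mul (pb_const _) (pb_pow (pb_add hF0 (pb_const 1)) _)
  have hPR : PB R := pb_mul (pb_const _) (pb_pow (pb_add (pb_add (pb_mul (pb_const 4) hF0)
    pb_id) (pb_const 1)) _)
  have hPBB : PB BB := pb_add (pb_const _) (pb_add (pb_mul (pb_const _) (pb_mul (pb_const _)
    (pb_mul (pb_const _) hPB))) (pb_add (pb_mul (pb_const _) (pb_mul (pb_const _)
    (pb_mul hPA (pb_const _)))) (pb_mul (pb_const _) hPR)))
  refine ⟨A, Bq, fun n => Crb * BB n ^ Erb, hPA, hPB, pb_mul (pb_const _) (pb_pow hPBB _), ?_⟩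
  intro g x y x₀ y₀ hx hy hs hxx hyy hlx hly hm hm'
  obtain ⟨m, hm⟩ := hm
  obtain ⟨m', hm'⟩ := hm'
  have hmul := (hB (Fin r)).2.2.1
  have hinv := (hB (Fin r)).2.2.2.1
  have hadd := (hB (Fin r)).2.2.2.2.2.1
  set n := len g with hn
  have hx0e : x₀ = x * (x₀⁻¹ * x)⁻¹ := by group
  have hy0e : y₀ = y * (y₀⁻¹ * y)⁻¹ := by group
  have hx0 : D p x₀ := by
    rw [hx0e]; exact hmul _ _ _ hx (D_mono (by omega) (hinv _ _ hxx))
  have hy0 : D q y₀ := by
    rw [hy0e]; exact hmul _ _ _ hy (D_mono (by omega) (hinv _ _ hyy))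
  have hax : cf p x₀ = cf p x := by
    conv_lhs => rw [hx0e]
    rw [hadd p (p + j) _ _ hx (hinv _ _ hxx) p hp (by omega),
      (hinv _ _ hxx) p hp (by omega), add_zero]
  have hby : cf q y₀ = cf q y := by
    conv_lhs => rw [hy0e]
    rw [hadd q (q + j) _ _ hy (hinv _ _ hyy) q hq (by omega),
      (hinv _ _ hyy) q hq (by omega), add_zero]
  have hlx' : (len x₀ : ℝ) ≤ F0 n := by exact_mod_cast hlx
  have hly' : (len y₀ : ℝ) ≤ F0 n := by exact_mod_cast hly
  have hna : nm (cf p x) ≤ A n := by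
    rw [← hax]
    refine (hCp x₀).trans ?_
    simp only [hA]
    push_cast
    gcongr
  have hnb : nm (cf q y) ≤ Bq n := by
    rw [← hby]
    refine (hCq y₀).trans ?_
    simp only [hBq]
    push_cast
    gcongr
  set r0 := cf (p + q + j) ((cm x₀ y₀)⁻¹ * g) with hr0
  have hnr : nm r0 ≤ R n := by
    refine (hCs _).trans ?_
    simp only [hR]
    push_cast
    have h1 := len_cm x₀ y₀ g
    have h2 : (len ((cm x₀ y₀)⁻¹ * g) : ℝ) ≤ 4 * F0 n + n := by
      have : len ((cm x₀ y₀)⁻¹ * g) ≤ 4 * F0 n + n := by omega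
      exact_mod_cast this
    gcongr
  have heq : br (cf (p + j) (x₀⁻¹ * x)) (cf q y) + br (cf p x) (cf (q + j) (y₀⁻¹ * y)) = r0 := by
    have := base_eq hB hLIN hPSO hp hq hj hc (g := g) hx0 hy0 hxx hyy (by
      rw [mul_inv_cancel_left, mul_inv_cancel_left]; exact hs)
    rw [hax, hby] at this
    exact this
  refine ⟨hna, hnb, ?_⟩
  have hA0 : (0 : ℝ) ≤ A n := Nat.cast_nonneg _
  have hB0 : (0 : ℝ) ≤ Bq n := Nat.cast_nonneg _
  have hR0 : (0 : ℝ) ≤ R n := Nat.cast_nonneg _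
  have hF0' : (0 : ℝ) < Fc := by exact_mod_cast hFcpos
  obtain ⟨z, hz, hzs⟩ := hrb (BB n)
    (Sum.elim (fun i => (Fc : ℝ) • br (cf (p + j) (e i)) (cf q y))
      (fun i => (Fc : ℝ) • br (cf p x) (cf (q + j) (f i)))) ((Fc : ℝ) • r0)
    (by simp only [hBB]; omega)
    (by
      rintro (i | i)
      · have := ish_br ((hB (Fin r)).2.2.2.2.2.2.2.2.2.1 (p + j) (e i))
          ((hB (Fin r)).2.2.2.2.2.2.2.2.2.1 q y)
        rw [show p + j + q = p + q + j by omega] at this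
        exact ish_smul _ this
      · have := ish_br ((hB (Fin r)).2.2.2.2.2.2.2.2.2.1 p x)
          ((hB (Fin r)).2.2.2.2.2.2.2.2.2.1 (q + j) (f i))
        rw [show p + (q + j) = p + q + j by omega] at this
        exact ish_smul _ this)
    (ish_smul _ ((hB (Fin r)).2.2.2.2.2.2.2.2.2.1 (p + q + j) _))
    (by
      rintro (i | i)
      · have := ii_brcf hI (p + j) q (p.factorial * (q + j).factorial * (p + q + j).factorial)
          (e i) y
        rw [show p.factorial * (q + j).factorial * (p + q + j).factorial *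
          ((p + j).factorial * q.factorial) = Fc by rw [hFc]; ring] at this
        exact this
      · have := ii_brcf hI p (q + j) ((p + j).factorial * q.factorial * (p + q + j).factorial)
          x (f i)
        rw [show (p + j).factorial * q.factorial * (p + q + j).factorial *
          (p.factorial * (q + j).factorial) = Fc by rw [hFc]; ring] at this
        exact this)
    (by
      have := ii_nsmul (ii_cf hI (p + q + j) ((cm x₀ y₀)⁻¹ * g))
        ((p + j).factorial * q.factorial * (p.factorial * (q + j).factorial))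
      rw [smul_smul, ← Nat.cast_mul] at this
      exact this)
    (by
      rintro (i | i)
      · simp only [Sum.elim_inl]
        rw [(hNM _ _ 0 _).2.2.1, abs_of_pos hF0']
        have h1 := (hNM _ (cf (p + j) (e i)) (cf q y) 0).2.2.2.2.2.2
        have h2 : nm (cf (p + j) (e i)) * nm (cf q y) ≤ Ne * Bq n :=
          mul_le_mul (hNe i) hnb (hNM _ _ 0 0).2.2.2.1 (Nat.cast_nonneg _)
        have h3 : (Fc : ℝ) * nm (br (cf (p + j) (e i)) (cf q y)) ≤ Fc * (2 * (Ne * Bq n)) := by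
          apply mul_le_mul_of_nonneg_left _ hF0'.le
          linarith
        simp only [hBB]
        push_cast
        have h4 : 0 ≤ (Fc : ℝ) * (2 * (A n * Nf)) := by positivity
        have h5 : 0 ≤ (Fc : ℝ) * R n := by positivity
        linarith
      · simp only [Sum.elim_inr]
        rw [(hNM _ _ 0 _).2.2.1, abs_of_pos hF0']
        have h1 := (hNM _ (cf p x) (cf (q + j) (f i)) 0).2.2.2.2.2.2
        have h2 : nm (cf p x) * nm (cf (q + j) (f i)) ≤ A n * Nf :=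
          mul_le_mul hna (hNf i) (hNM _ _ 0 0).2.2.2.1 (Nat.cast_nonneg _)
        have h3 : (Fc : ℝ) * nm (br (cf p x) (cf (q + j) (f i))) ≤ Fc * (2 * (A n * Nf)) := by
          apply mul_le_mul_of_nonneg_left _ hF0'.le
          linarith
        simp only [hBB]
        push_cast
        have h4 : 0 ≤ (Fc : ℝ) * (2 * (Ne * Bq n)) := by positivity
        have h5 : 0 ≤ (Fc : ℝ) * R n := by positivity
        linarith)
    (by
      rw [(hNM _ _ 0 _).2.2.1, abs_of_pos hF0']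
      have h3 : (Fc : ℝ) * nm r0 ≤ Fc * R n := mul_le_mul_of_nonneg_left hnr hF0'.le
      simp only [hBB]
      push_cast
      have h4 : 0 ≤ (Fc : ℝ) * (2 * (Ne * Bq n)) := by positivity
      have h5 : 0 ≤ (Fc : ℝ) * (2 * (A n * Nf)) := by positivity
      linarith)
    ⟨Sum.elim (fun i => (m i : ℝ)) (fun i => (m' i : ℝ)), by
      rw [Fintype.sum_sum_type]
      simp only [Sum.elim_inl, Sum.elim_inr]
      rw [← heq, hm, hm', br_sum_left, br_sum_right, smul_add, Finset.smul_sum, Finset.smul_sum]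
      congr 1
      · apply Finset.sum_congr rfl
        intro i _
        rw [br_smul_left, smul_comm]
      · apply Finset.sum_congr rfl
        intro i _
        rw [br_smul_right, smul_comm]⟩
  refine ⟨fun i => z (Sum.inl i), fun i => z (Sum.inr i), fun i => hz _, fun i => hz _, ?_⟩
  rw [Fintype.sum_sum_type] at hzs
  simp only [Sum.elim_inl, Sum.elim_inr] at hzs
  have h1 : (Fc : ℝ) • (br (∑ i, z (Sum.inl i) • cf (p + j) (e i)) (cf q y) +
      br (cf p x) (∑ i, z (Sum.inr i) • cf (q + j) (f i))) = (Fc : ℝ) • r0 := by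
    rw [← hzs, br_sum_left, br_sum_right, smul_add, Finset.smul_sum, Finset.smul_sum]
    congr 1
    · apply Finset.sum_congr rfl
      intro i _
      rw [br_smul_left, smul_comm]
    · apply Finset.sum_congr rfl
      intro i _
      rw [br_smul_right, smul_comm]
  have h2 := smul_right_injective (T (Fin r)) hF0'.ne' h1
  have h3 : ∀ a b c : T (Fin r), br (a - b) c = br a c - br b c := by
    intro a b c; unfold br; noncomm_ring
  have h4 : ∀ a b c : T (Fin r), br c (a - b) = br c a - br c b := by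
    intro a b c; unfold br; noncomm_ring
  rw [h3, h4]
  have h5 : br (cf (p + j) (x₀⁻¹ * x)) (cf q y) + br (cf p x) (cf (q + j) (y₀⁻¹ * y)) =
      br (∑ i, z (Sum.inl i) • cf (p + j) (e i)) (cf q y) +
      br (cf p x) (∑ i, z (Sum.inr i) • cf (q + j) (f i)) := by rw [heq]; exact h2.symm
  have h6 : ∀ a b c d : T (Fin r), a + b = c + d → a - c + (b - d) = 0 := by
    intro a b c d h
    have : a - c + (b - d) = (a + b) - (c + d) := by abel
    rw [this, h, sub_self]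
  exact h6 _ _ _ _ h5

/-- rounding: bounded representative of the leading term after the moves -/
theorem round_bd (hNM : S_NM) {r n₁ nU : ℕ} {κ : T (Fin r)} (w : Fin n₁ → T (Fin r)) (Nw : ℕ)
    (hNw : ∀ i, nm (w i) ≤ Nw) (zz : Fin n₁ → ℝ) (Z : ℕ) (hZ : ∀ i, |zz i| ≤ Z)
    (s : Fin nU → T (Fin r)) (G : Fin nU → ℕ) (hG : ∀ k, nm (s k) ≤ G k) (t : Fin nU → ℝ)
    (ht : ∀ k, 0 ≤ t k) (hκ : ∑ k, t k • s k = -(κ - ∑ i, zz i • w i)) :
    nm (κ + ∑ k, ((⌊t k⌋₊ : ℕ) : ℝ) • s k) ≤ ((n₁ * (Z * Nw) + ∑ k, G k : ℕ) : ℝ) := by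
  have h1 : κ + ∑ k, ((⌊t k⌋₊ : ℕ) : ℝ) • s k =
      ∑ i, zz i • w i + ∑ k, ((⌊t k⌋₊ : ℝ) - t k) • s k := by
    have h2 : ∑ k, ((⌊t k⌋₊ : ℝ) - t k) • s k = ∑ k, ((⌊t k⌋₊ : ℕ) : ℝ) • s k -
        ∑ k, t k • s k := by
      rw [← Finset.sum_sub_distrib]
      apply Finset.sum_congr rfl
      intro k _
      rw [sub_smul]
    rw [h2, hκ]
    abel
  rw [h1]
  push_cast
  refine ((hNM _ _ _ 0).1).trans (add_le_add ?_ ?_)
  · refine (nm_sum_le hNM _ _).trans ?_
    calc ∑ i, nm (zz i • w i) ≤ ∑ i : Fin n₁, (Z : ℝ) * Nw := by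
          apply Finset.sum_le_sum
          intro i _
          rw [(hNM _ _ 0 _).2.2.1]
          exact mul_le_mul (hZ i) (hNw i) (hNM _ _ 0 0).2.2.2.1 (Nat.cast_nonneg _)
      _ = _ := by simp
  · refine (nm_sum_le hNM _ _).trans ?_
    apply Finset.sum_le_sum
    intro k _
    rw [(hNM _ _ 0 _).2.2.1]
    have h3 : |(⌊t k⌋₊ : ℝ) - t k| ≤ 1 := by
      have h4 := Nat.floor_le (ht k)
      have h5 := Nat.lt_floor_add_one (t k)
      rw [abs_le]
      constructor <;> linarith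
    calc |(⌊t k⌋₊ : ℝ) - t k| * nm (s k) ≤ 1 * G k :=
          mul_le_mul h3 (hG k) (hNM _ _ 0 0).2.2.2.1 zero_le_one
      _ = _ := one_mul _

end TP2STEP

open TP2STEP in
theorem t_P2STEP (h1 : S_BAS) (h2 : S_GRP) (h3 : S_INT) (h4 : S_SIZ) (h5 : S_GEN) (h6 : S_NM)
    (h7 : S_NMS) (h8 : S_LIN) (h9 : S_PSO) (h10 : S_P2) (h11 : S_UM) (h12 : S_RB) :
    S_P2STEP := by
  intro r c p q j hp hpq hj hqj hc hHL
  obtain ⟨C0, E0, HL0⟩ := hHL
  have hq : 1 ≤ q := by omega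
  obtain ⟨nU, U, V, S, T', hST, hgen, hmov⟩ := h11 p q j c hp hpq hj hqj hc
  obtain ⟨n1, Ce, e, he, _, hex⟩ := h5 r (p + j) (by omega)
  obtain ⟨n2, Cf, f, hf, _, hfx⟩ := h5 r (q + j) (by omega)
  obtain ⟨Ca, hCa⟩ := absorb h1 h5 r (p + j) (by omega)
  obtain ⟨Cb, hCb⟩ := absorb h1 h5 r (q + j) (by omega)
  choose CS ES hS using fun k => h7 (S k)
  choose CT ET hT using fun k => h7 (T' k)
  set F0 : ℕ → ℕ := fun n => C0 * (n + 1) ^ E0 with hF0
  have hPF0 : PB F0 := ⟨C0, E0, fun n => le_rfl⟩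
  obtain ⟨A, Bq, Z, hPA, hPB, hPZ, hlin⟩ := linpart h1 h3 h6 h8 h9 h4 h12 r p q j c hp hq hj hc
    e f F0 hPF0
  obtain ⟨Ne, hNe⟩ : ∃ Ne : ℕ, ∀ i, nm (cf (p + j) (e i)) ≤ Ne := by
    refine ⟨⌈∑ i, nm (cf (p + j) (e i))⌉₊, fun i => ?_⟩
    refine (Finset.single_le_sum (f := fun i => nm (cf (p + j) (e i)))
      (fun i _ => (h6 _ _ 0 0).2.2.2.1) (Finset.mem_univ i)).trans (Nat.le_ceil _)
  obtain ⟨Nf, hNf⟩ : ∃ Nf : ℕ, ∀ i, nm (cf (q + j) (f i)) ≤ Nf := by
    refine ⟨⌈∑ i, nm (cf (q + j) (f i))⌉₊, fun i => ?_⟩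
    refine (Finset.single_le_sum (f := fun i => nm (cf (q + j) (f i)))
      (fun i _ => (h6 _ _ 0 0).2.2.2.1) (Finset.mem_univ i)).trans (Nat.le_ceil _)
  set GS : Fin nU → ℕ → ℕ := fun k n => CS k * (1 + A n + Bq n) ^ (ES k) with hGS
  set GT : Fin nU → ℕ → ℕ := fun k n => CT k * (1 + A n + Bq n) ^ (ET k) with hGT
  have hPGS : ∀ k, PB (GS k) := fun k =>
    pb_mul (pb_const _) (pb_pow (pb_add (pb_add (pb_const 1) hPA) hPB) _)
  have hPGT : ∀ k, PB (GT k) := fun k =>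
    pb_mul (pb_const _) (pb_pow (pb_add (pb_add (pb_const 1) hPA) hPB) _)
  set GU : ℕ → ℕ := fun n => n1 * (Z n * Ne) + ∑ k, GS k n with hGU
  set GV : ℕ → ℕ := fun n => n2 * (Z n * Nf) + ∑ k, GT k n with hGV
  have hPGU : PB GU := pb_add (pb_mul (pb_const _) (pb_mul hPZ (pb_const _))) (pb_sum _ hPGS)
  have hPGV : PB GV := pb_add (pb_mul (pb_const _) (pb_mul hPZ (pb_const _))) (pb_sum _ hPGT)
  have hPF : PB (fun n => F0 n + (Ca * GU n + Cb * GV n)) :=
    pb_add hPF0 (pb_add (pb_mul (pb_const _) hPGU) (pb_mul (pb_const _) hPGV))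
  obtain ⟨C, E, hCE⟩ := hPF
  refine ⟨C, E, fun g hg => ?_⟩
  obtain ⟨x, y, x₀, y₀, ⟨hx, hy, hab⟩, hs, hxx, hyy, hlx, hly⟩ := HL0 g hg
  obtain ⟨m, hm, _⟩ := hex _ hxx
  obtain ⟨m', hm', _⟩ := hfx _ hyy
  obtain ⟨hna, hnb, z, z', hz, hz', hker⟩ := hlin g x y x₀ y₀ hx hy hs hxx hyy hlx hly
    ⟨m, hm⟩ ⟨m', hm'⟩
  set a := cf p x with ha
  set b := cf q y with hb
  set n := len g with hn
  have hPHa : PH p a := (h2 _).1 p x hx p hp (by omega)
  have hPHb : PH q b := (h2 _).1 q y hy q hq (by omega)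
  set κ1 := cf (p + j) (x₀⁻¹ * x) - ∑ i, z i • cf (p + j) (e i) with hκ1
  set κ2 := cf (q + j) (y₀⁻¹ * y) - ∑ i, z' i • cf (q + j) (f i) with hκ2
  have hPH1 : PH (p + j) κ1 := by
    rw [hκ1, sub_eq_add_neg]
    exact ph_add ((h2 _).1 (p + j) _ hxx (p + j) (by omega) (by omega))
      (ph_neg (ph_sum _ _ fun i => ph_smul _ ((h2 _).1 (p + j) _ (he i) (p + j) (by omega)
        (by omega))))
  have hPH2 : PH (q + j) κ2 := by
    rw [hκ2, sub_eq_add_neg]
    exact ph_add ((h2 _).1 (q + j) _ hyy (q + j) (by omega) (by omega))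
      (ph_neg (ph_sum _ _ fun i => ph_smul _ ((h2 _).1 (q + j) _ (hf i) (q + j) (by omega)
        (by omega))))
  obtain ⟨S0, T0, hS0, hT0, hS0h, hT0h, hS0s, hT0s, hbr⟩ := h10 (Fin r) p q j a b κ1 κ2 hp hpq hj
    hqj hPHa hPHb hab hPH1 hPH2 hker
  have hprn : ∀ f : T (Fin 2), Prim f → Prim (-f) := fun f hf => by
    have := prim_smul (-1) hf
    rwa [neg_one_smul] at this
  have hisn : ∀ (w : Fin 2 → ℕ) (k : ℕ) (f : T (Fin 2)), IsH w k f → IsH w k (-f) :=
    fun w k f hf => by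
      have := ish_smul (-1) hf
      rwa [neg_one_smul] at this
  obtain ⟨t, ht, htS, htT⟩ := hgen (-S0) (-T0) (hprn _ hS0) (hprn _ hT0) (hisn _ _ _ hS0h)
    (hisn _ _ _ hT0h) (by
      have : br (-S0) (X 1) + br (X 0) (-T0) = -(br S0 (X 1) + br (X 0) T0) := by
        unfold br; noncomm_ring
      rw [this, hbr, neg_zero])
  have hit := iter (TP2STEP.St p q j c g x₀ y₀ a b) (fun k => sub ![a, b] (S k))
    (fun k => sub ![a, b] (T' k))
    (fun k u v h => move h1 hp hq hj (U k) (V k) (S k) (T' k)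
      (fun x y hx hy => hmov r x y k hx hy) u v h) (fun k => ⌊t k⌋₊)
    (u := cf (p + j) (x₀⁻¹ * x)) (v := cf (q + j) (y₀⁻¹ * y))
    ⟨x, y, hx, hy, rfl, rfl, hs, hxx, hyy, rfl, rfl⟩
  obtain ⟨x', y', hx', hy', ha', hb', hs', hxx', hyy', hu', hv'⟩ := hit
  obtain ⟨x₀', hx0', hlx'⟩ := hCa _ _ hxx'
  obtain ⟨y₀', hy0', hly'⟩ := hCb _ _ hyy'
  rw [hu'] at hlx'
  rw [hv'] at hly'
  have hbx := round_bd h6 (κ := cf (p + j) (x₀⁻¹ * x)) (fun i => cf (p + j) (e i)) Ne hNe z (Z n)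
    hz (fun k => sub ![a, b] (S k)) (fun k => GS k n) (fun k => by
      refine (hS k _ a b).trans ?_
      simp only [hGS]
      push_cast
      have := (h6 _ a 0 0).2.2.2.1
      have := (h6 _ b 0 0).2.2.2.1
      gcongr) t ht (by
      rw [← hκ1, ← hS0s, ← map_neg, htS, map_sum]
      apply Finset.sum_congr rfl
      intro k _
      rw [map_smul])
  have hby := round_bd h6 (κ := cf (q + j) (y₀⁻¹ * y)) (fun i => cf (q + j) (f i)) Nf hNf z' (Z n)
    hz' (fun k => sub ![a, b] (T' k)) (fun k => GT k n) (fun k => by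
      refine (hT k _ a b).trans ?_
      simp only [hGT]
      push_cast
      have := (h6 _ a 0 0).2.2.2.1
      have := (h6 _ b 0 0).2.2.2.1
      gcongr) t ht (by
      rw [← hκ2, ← hT0s, ← map_neg, htT, map_sum]
      apply Finset.sum_congr rfl
      intro k _
      rw [map_smul])
  refine ⟨x', y', x₀', y₀', ⟨hx', hy', by rw [ha', hb']; exact hab⟩, hs', hx0', hy0', ?_, ?_⟩
  · refine le_trans ?_ (hCE n)
    have h13 : (len x₀' : ℝ) ≤ ((F0 n + (Ca * GU n + Cb * GV n) : ℕ) : ℝ) := by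
      refine hlx'.trans ?_
      have h14 : (len x₀ : ℝ) ≤ F0 n := by exact_mod_cast hlx
      have h15 : (Ca : ℝ) * nm (cf (p + j) (x₀⁻¹ * x) + ∑ k, ((⌊t k⌋₊ : ℕ) : ℝ) •
          sub ![a, b] (S k)) ≤ Ca * GU n := mul_le_mul_of_nonneg_left hbx (Nat.cast_nonneg _)
      have h16 : (0 : ℝ) ≤ Cb * GV n := by positivity
      push_cast
      push_cast at h15
      linarith
    exact_mod_cast h13
  · refine le_trans ?_ (hCE n)
    have h13 : (len y₀' : ℝ) ≤ ((F0 n + (Ca * GU n + Cb * GV n) : ℕ) : ℝ) := by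
      refine hly'.trans ?_
      have h14 : (len y₀ : ℝ) ≤ F0 n := by exact_mod_cast hly
      have h15 : (Cb : ℝ) * nm (cf (q + j) (y₀⁻¹ * y) + ∑ k, ((⌊t k⌋₊ : ℕ) : ℝ) •
          sub ![a, b] (T' k)) ≤ Cb * GV n := mul_le_mul_of_nonneg_left hby (Nat.cast_nonneg _)
      have h16 : (0 : ℝ) ≤ Ca * GU n := by positivity
      push_cast
      push_cast at h15
      linarith
    exact_mod_cast h13

end Pool.Agent.H32CE
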