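import Pool.Agent.H32CE.St

set_option autoImplicit false

/-!
# P3: kernel of the linearised bracket, low levels
-/

namespace Pool.Agent.H32CE

attribute [local instance 100] LieRing.ofAssociativeRing

theorem TP3.isH_neg {ι : Type} {w : ι → ℕ} {k : ℕ} {f : T ι} (h : IsH w k f) : IsH w k (-f) := by
  intro m hm
  apply h m
  intro h0
  apply hm
  simp [h0]

theorem TP3.prim_neg {ι : Type} {f : T ι} (h : Prim f) : Prim (-f) := by
  unfold Prim at h ⊢
  rw [map_neg, map_neg, map_neg, h]
  abel

theorem TP3.sub_X {ι : Type} {A : Type} [Ring A] [Algebra ℝ A] (e : ι → A) (i : ι) :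
    sub e (X i) = e i := by
  unfold sub X
  rw [MonoidAlgebra.lift_single, FreeMonoid.lift_eval_of, one_smul]

theorem TP3.sub_br {ι : Type} {A : Type} [Ring A] [Algebra ℝ A] (e : ι → A) (x y : T ι) :
    sub e (br x y) = br (sub e x) (sub e y) := by
  unfold br
  rw [map_sub, map_mul, map_mul]

theorem t_P3 (hSUF : S_SUF) (hF1 : S_F1) (hIND : S_IND2) (hP1 : S_P1) (_hBRP : S_BRP) :
    S_P3 := by
  intro ι p q j a b s t hp hj hpq ha hb ha0 hb0 hs ht hst hne
  have hs0 : s ≠ 0 := by
    rintro rfl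
    have ht0 : t ≠ 0 := by
      rcases hne with h | h
      · exact absurd rfl h
      · exact h
    have h1 : br a t = 0 := by
      have h2 : br (0 : T ι) b = 0 := by unfold br; rw [zero_mul, mul_zero, sub_zero]
      rwa [h2, zero_add] at hst
    have := (hP1 ι p (q + j) a t hp (by omega) ha ht ha0 ht0 h1).1
    omega
  have has : br a s ≠ 0 := by
    intro h
    have := (hP1 ι p (p + j) a s hp (by omega) ha hs ha0 hs0 h).1
    omega
  refine ⟨hs0, has, ?_⟩
  have hmem : s ∈ Set.range (sub ![a, s]) := ⟨X 1, by rw [TP3.sub_X]; rfl⟩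
  have hzero : br (-b) s + br a t = 0 := by
    rw [← hst]
    unfold br
    noncomm_ring
  obtain ⟨U, V, hU, hV, hUh, hVh, hUe, hVe⟩ := hSUF ι p (p + j) (p + j) q (q + j) a s s (-b) t hp
    (by omega) (by omega) (by omega) (by omega) (by omega) ha hs hs
    ⟨TP3.isH_neg hb.1, TP3.prim_neg hb.2⟩ ht has has hmem (by
      rw [hzero]
      exact ⟨0, map_zero _⟩)
  refine ⟨-U, V, TP3.prim_neg hU, hV, TP3.isH_neg hUh, hVh, ?_, hVe, ?_⟩
  · rw [map_neg, hUe, neg_neg]
  · have hinj := (hF1 ι 2 ![a, s] ![p, p + j] (by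
      intro i
      fin_cases i
      · exact hp
      · show 1 ≤ p + j
        omega) (by
      intro i
      fin_cases i
      · exact ha
      · exact hs) (hIND ι p (p + j) a s hp (by omega) ha hs has)).1
    apply hinj
    rw [map_zero, map_add, TP3.sub_br, TP3.sub_br, TP3.sub_X, TP3.sub_X, map_neg, hUe, hVe, neg_neg]
    exact hst

end Pool.Agent.H32CE
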