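import Pool.Agent.H32CE.St

set_option autoImplicit false

namespace Pool.Agent.H32CE

open PowerSeries

namespace TP3STEP

/-- The quadratic bounding lemma for finite index types. -/
theorem QBt (hQB : S_QB) (R K L : Type) [Fintype R] [Fintype K] [Fintype L] :
    ∃ C E : ℕ, ∀ (B : ℕ) (A : R → K → ℤ) (Λ : L → K → ℤ) (β : R → L → L → ℤ) (h : R → ℤ)
      (m : K → ℤ) (I : Set R), 1 ≤ B → (∀ i k, |A i k| ≤ B) → (∀ i k, |Λ i k| ≤ B) →
      (∀ i k l, |β i k l| ≤ B) → (∀ i, |h i| ≤ B) →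
      (∀ i, ∑ k, A i k * m k + ∑ a, (∑ k, Λ a k * m k) * ∑ b, β i a b * ∑ k, Λ b k * m k = h i) →
      (∀ i ∈ I, ∀ a b, β i a b = 0) →
      (∀ z z' : K → ℝ, (∀ i ∈ I, ∑ k, (A i k : ℝ) * z k = 0) →
        (∀ i ∈ I, ∑ k, (A i k : ℝ) * z' k = 0) →
        ∃ c c' : ℝ, (c ≠ 0 ∨ c' ≠ 0) ∧
          ∀ a, c * ∑ k, (Λ a k : ℝ) * z k + c' * ∑ k, (Λ a k : ℝ) * z' k = 0) →
      (∀ z z' : K → ℝ, (∃ a, ∑ k, (Λ a k : ℝ) * z k ≠ 0) →
        (∀ i, ∑ k, (A i k : ℝ) * z k +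
          ∑ a, ((∑ k, Λ a k * m k : ℤ) : ℝ) * ∑ b, (β i a b : ℝ) * ∑ k, (Λ b k : ℝ) * z k +
          ∑ a, (∑ k, (Λ a k : ℝ) * z k) * ∑ b, (β i a b : ℝ) * ((∑ k, Λ b k * m k : ℤ) : ℝ) = 0) →
        (∀ a, ∑ k, (Λ a k : ℝ) * z' k = 0) →
        (∀ i, ∑ k, (A i k : ℝ) * z' k =
          ∑ a, (∑ k, (Λ a k : ℝ) * z k) * ∑ b, (β i a b : ℝ) * ∑ k, (Λ b k : ℝ) * z k) → False) →
      ∀ a, |∑ k, Λ a k * m k| ≤ C * B ^ E := by
  classical
  obtain ⟨C, E, H⟩ := hQB (Fintype.card R) (Fintype.card K) (Fintype.card L)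
  refine ⟨C, E, ?_⟩
  intro B A Λ β h m I hB hA hL hβ hh heq hI hone hno
  let eR := (Fintype.equivFin R).symm
  let eK := (Fintype.equivFin K).symm
  let eL := (Fintype.equivFin L).symm
  have hLm : ∀ a, ∑ k, Λ (eL a) (eK k) * m (eK k) = ∑ k, Λ (eL a) k * m k := fun a =>
    Equiv.sum_comp eK (fun k => Λ (eL a) k * m k)
  have hLz : ∀ (z : Fin (Fintype.card K) → ℝ) (a : L), ∑ k, (Λ a (eK k) : ℝ) * z k =
      ∑ k, (Λ a k : ℝ) * z (eK.symm k) := by
    intro z a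
    rw [← Equiv.sum_comp eK (fun k => (Λ a k : ℝ) * z (eK.symm k))]
    simp
  have hAz : ∀ (z : Fin (Fintype.card K) → ℝ) (i : R), ∑ k, (A i (eK k) : ℝ) * z k =
      ∑ k, (A i k : ℝ) * z (eK.symm k) := by
    intro z a
    rw [← Equiv.sum_comp eK (fun k => (A a k : ℝ) * z (eK.symm k))]
    simp
  have hsL : ∀ (f : L → ℝ), ∑ a, f (eL a) = ∑ a, f a := fun f => Equiv.sum_comp eL f
  have hsLi : ∀ (f : L → ℤ), ∑ a, f (eL a) = ∑ a, f a := fun f => Equiv.sum_comp eL f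
  have key := H B (Matrix.of fun i k => A (eR i) (eK k)) (Matrix.of fun a k => Λ (eL a) (eK k))
    (fun i => Matrix.of fun a b => β (eR i) (eL a) (eL b)) (fun i => h (eR i))
    (fun k => m (eK k)) (eR ⁻¹' I) hB (fun i k => hA _ _) (fun i k => hL _ _)
    (fun i k l => hβ _ _ _) (fun i => hh _) ?_ ?_ ?_ ?_
  · intro a
    have := key (eL.symm a)
    simp only [Matrix.mulVec, dotProduct, Matrix.of_apply, Equiv.apply_symm_apply] at this
    rw [Equiv.sum_comp eK (fun k => Λ a k * m k)] at this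
    exact this
  · intro i
    simp only [Matrix.mulVec, dotProduct, Matrix.of_apply, hLm]
    rw [Equiv.sum_comp eK (fun k => A (eR i) k * m k)]
    rw [← heq (eR i)]
    congr 1
    rw [← hsLi (fun a => (∑ k, Λ a k * m k) * ∑ b, β (eR i) a b * ∑ k, Λ b k * m k)]
    refine Finset.sum_congr rfl ?_
    intro a _
    congr 1
    rw [← hsLi (fun b => β (eR i) (eL a) b * ∑ k, Λ b k * m k)]
  · intro i hi
    ext a b
    exact hI _ hi _ _
  · intro z z' hz hz'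
    obtain ⟨c, c', hc, hcc⟩ := hone (fun k => z (eK.symm k)) (fun k => z' (eK.symm k))
      (by
        intro i hi
        have := hz (eR.symm i) (by simpa using hi)
        simp only [Matrix.mulVec, dotProduct, Matrix.map_apply, Matrix.of_apply,
          Equiv.apply_symm_apply] at this
        rw [← hAz]
        exact this)
      (by
        intro i hi
        have := hz' (eR.symm i) (by simpa using hi)
        simp only [Matrix.mulVec, dotProduct, Matrix.map_apply, Matrix.of_apply,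
          Equiv.apply_symm_apply] at this
        rw [← hAz]
        exact this)
    refine ⟨c, c', hc, ?_⟩
    ext a
    simp only [Matrix.mulVec, dotProduct, Matrix.map_apply, Matrix.of_apply, Pi.add_apply,
      Pi.smul_apply, smul_eq_mul, Pi.zero_apply]
    rw [hLz, hLz]
    exact hcc (eL a)
  · rintro ⟨z, z', h1, h2, h3, h4⟩
    refine hno (fun k => z (eK.symm k)) (fun k => z' (eK.symm k)) ?_ ?_ ?_ ?_
    · by_contra hcon
      push Not at hcon
      apply h1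
      ext a
      simp only [Matrix.mulVec, dotProduct, Matrix.map_apply, Matrix.of_apply, Pi.zero_apply]
      rw [hLz]
      exact hcon (eL a)
    · intro i
      have := h2 (eR.symm i)
      simp only [Matrix.mulVec, dotProduct, Matrix.map_apply, Matrix.of_apply,
        Equiv.apply_symm_apply, hLm, hLz, hAz] at this
      rw [← this, ← hsL (fun a => ((∑ k, Λ a k * m k : ℤ) : ℝ) * ∑ b, (β i a b : ℝ) *
        ∑ k, (Λ b k : ℝ) * z (eK.symm k)), ← hsL (fun a => (∑ k, (Λ a k : ℝ) * z (eK.symm k)) *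
        ∑ b, (β i a b : ℝ) * ((∑ k, Λ b k * m k : ℤ) : ℝ))]
      congr 1
      · congr 1
        refine Finset.sum_congr rfl ?_
        intro a _
        congr 1
        rw [← hsL (fun b => (β i (eL a) b : ℝ) * ∑ k, (Λ b k : ℝ) * z (eK.symm k))]
      · refine Finset.sum_congr rfl ?_
        intro a _
        congr 1
        rw [← hsL (fun b => (β i (eL a) b : ℝ) * ((∑ k, Λ b k * m k : ℤ) : ℝ))]
    · intro a
      have := congrFun h3 (eL.symm a)
      simp only [Matrix.mulVec, dotProduct, Matrix.map_apply, Matrix.of_apply,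
        Equiv.apply_symm_apply, hLz, Pi.zero_apply] at this
      exact this
    · intro i
      have := h4 (eR.symm i)
      simp only [Matrix.mulVec, dotProduct, Matrix.map_apply, Matrix.of_apply,
        Equiv.apply_symm_apply, hLz, hAz] at this
      rw [this, ← hsL (fun a => (∑ k, (Λ a k : ℝ) * z (eK.symm k)) *
        ∑ b, (β i a b : ℝ) * ∑ k, (Λ b k : ℝ) * z (eK.symm k))]
      refine Finset.sum_congr rfl ?_
      intro a _
      congr 1
      rw [← hsL (fun b => (β i (eL a) b : ℝ) * ∑ k, (Λ b k : ℝ) * z (eK.symm k))]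


/-- words of length at most `N` -/
abbrev Wd (r N : ℕ) : Type := {w : FreeMonoid (Fin r) // (FreeMonoid.toList w).length ≤ N}

instance WdFinite (r N : ℕ) : Finite (Wd r N) := by
  have h := (List.finite_length_le (Fin r) N).to_subtype
  refine Finite.of_injective (β := {l : List (Fin r) | l.length ≤ N})
    (fun w => ⟨FreeMonoid.toList w.1, w.2⟩) ?_
  intro a b hab
  apply Subtype.ext
  have := congrArg Subtype.val hab
  exact FreeMonoid.toList.injective this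

noncomputable instance WdFintype (r N : ℕ) : Fintype (Wd r N) := Fintype.ofFinite _

theorem wd_one {ι : Type} (m : FreeMonoid ι) : wd (fun _ => 1) m = (FreeMonoid.toList m).length := by
  unfold wd
  simp

theorem len_le {r N k : ℕ} {f : T (Fin r)} (hf : IsH (fun _ => 1) k f) (hk : k ≤ N)
    (m : FreeMonoid (Fin r)) (hm : f.coeff m ≠ 0) : (FreeMonoid.toList m).length ≤ N := by
  have := hf m hm
  rw [wd_one] at this
  omega

theorem ext_W {r N k : ℕ} {f : T (Fin r)} (hf : IsH (fun _ => 1) k f) (hk : k ≤ N)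
    (h : ∀ w : Wd r N, f.coeff w.1 = 0) : f = 0 := by
  refine MonoidAlgebra.ext (Finsupp.ext ?_)
  intro m
  by_contra hm
  exact hm (h ⟨m, len_le hf hk m hm⟩)

theorem sumW {r N k : ℕ} {f : T (Fin r)} (hf : IsH (fun _ => 1) k f) (hk : k ≤ N)
    (F : FreeMonoid (Fin r) → ℝ → ℝ) (hF : ∀ a, F a 0 = 0) :
    f.coeff.sum F = ∑ a : Wd r N, F a.1 (f.coeff a.1) := by
  classical
  have hsub : f.coeff.support ⊆
      (Finset.univ : Finset (Wd r N)).map (Function.Embedding.subtype _) := by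
    intro m hm
    rw [Finset.mem_map]
    have hm' : f.coeff m ≠ 0 := Finsupp.mem_support_iff.mp hm
    exact ⟨⟨m, len_le hf hk m hm'⟩, Finset.mem_univ _, rfl⟩
  rw [Finsupp.sum_of_support_subset _ hsub _ (fun i _ => hF i), Finset.sum_map]
  rfl

/-- coefficients of the bracket, as a bilinear form -/
noncomputable def Bt {r : ℕ} (a b w : FreeMonoid (Fin r)) : ℤ := by
  classical
  exact (if a * b = w then 1 else 0) - (if b * a = w then 1 else 0)

theorem Bt_abs {r : ℕ} (a b w : FreeMonoid (Fin r)) : |Bt a b w| ≤ 1 := by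
  unfold Bt
  split_ifs <;> simp

theorem mul_coeff {r N k l : ℕ} {f g : T (Fin r)} (hf : IsH (fun _ => 1) k f) (hk : k ≤ N)
    (hg : IsH (fun _ => 1) l g) (hl : l ≤ N) (w : FreeMonoid (Fin r))
    [DecidableEq (FreeMonoid (Fin r))] :
    (f * g).coeff w = ∑ a : Wd r N, f.coeff a.1 * ∑ b : Wd r N,
      (if a.1 * b.1 = w then (1 : ℝ) else 0) * g.coeff b.1 := by
  rw [MonoidAlgebra.coeff_mul, sumW hf hk]
  · refine Finset.sum_congr rfl ?_
    intro a _
    rw [sumW hg hl]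
    · rw [Finset.mul_sum]
      refine Finset.sum_congr rfl ?_
      intro b _
      split_ifs <;> ring
    · intro b
      split_ifs <;> ring
  · intro a
    refine Finset.sum_eq_zero ?_
    intro b _
    simp

theorem br_coeff {r N k l : ℕ} {f g : T (Fin r)} (hf : IsH (fun _ => 1) k f) (hk : k ≤ N)
    (hg : IsH (fun _ => 1) l g) (hl : l ≤ N) (w : FreeMonoid (Fin r)) :
    (br f g).coeff w = ∑ a : Wd r N, f.coeff a.1 * ∑ b : Wd r N, (Bt a.1 b.1 w : ℝ) *
      g.coeff b.1 := by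
  classical
  unfold br
  have h1 : (f * g - g * f).coeff w = (f * g).coeff w - (g * f).coeff w := rfl
  rw [h1, mul_coeff hf hk hg hl, mul_coeff hg hl hf hk]
  have h2 : ∑ a : Wd r N, g.coeff a.1 * ∑ b : Wd r N,
      (if a.1 * b.1 = w then (1 : ℝ) else 0) * f.coeff b.1 =
      ∑ a : Wd r N, f.coeff a.1 * ∑ b : Wd r N,
      (if b.1 * a.1 = w then (1 : ℝ) else 0) * g.coeff b.1 := by
    simp only [Finset.mul_sum]
    rw [Finset.sum_comm]
    refine Finset.sum_congr rfl fun a _ => Finset.sum_congr rfl fun b _ => ?_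
    ring
  rw [h2, ← Finset.sum_sub_distrib]
  refine Finset.sum_congr rfl fun a _ => ?_
  rw [← mul_sub, ← Finset.sum_sub_distrib]
  congr 1
  refine Finset.sum_congr rfl fun b _ => ?_
  rw [← sub_mul]
  congr 1
  unfold Bt
  split_ifs <;> simp

theorem nm_eq {r N k : ℕ} {f : T (Fin r)} (hf : IsH (fun _ => 1) k f) (hk : k ≤ N) :
    nm f = ∑ a : Wd r N, |f.coeff a.1| := by
  unfold nm
  exact sumW hf hk _ (fun _ => abs_zero)

/-! linear combinations -/

theorem IsH_zero {ι : Type} (w : ι → ℕ) (k : ℕ) : IsH w k (0 : T ι) := by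
  intro m hm
  exact absurd rfl hm

theorem IsH_add {ι : Type} {w : ι → ℕ} {k : ℕ} {f g : T ι} (hf : IsH w k f) (hg : IsH w k g) :
    IsH w k (f + g) := by
  intro m hm
  by_cases h : f.coeff m = 0
  · apply hg
    intro h'
    apply hm
    rw [MonoidAlgebra.coeff_add, Finsupp.add_apply, h, h', add_zero]
  · exact hf m h

theorem IsH_smul {ι : Type} {w : ι → ℕ} {k : ℕ} {f : T ι} (c : ℝ) (hf : IsH w k f) :
    IsH w k (c • f) := by
  intro m hm
  apply hf
  intro h'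
  apply hm
  rw [MonoidAlgebra.coeff_smul, Finsupp.smul_apply, h', smul_zero]

theorem IsH_sum {ι κ : Type} {w : ι → ℕ} {k : ℕ} (S : Finset κ) (c : κ → ℝ) (f : κ → T ι)
    (hf : ∀ i, IsH w k (f i)) : IsH w k (∑ i ∈ S, c i • f i) := by
  classical
  induction S using Finset.induction_on with
  | empty => rw [Finset.sum_empty]; exact IsH_zero w k
  | insert a s ha ih => rw [Finset.sum_insert ha]; exact IsH_add (IsH_smul _ (hf a)) ih

theorem Prim_zero {ι : Type} : Prim (0 : T ι) := by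
  unfold Prim
  simp

theorem Prim_add {ι : Type} {f g : T ι} (hf : Prim f) (hg : Prim g) : Prim (f + g) := by
  unfold Prim at *
  rw [map_add, map_add, map_add, hf, hg]
  abel

theorem Prim_smul {ι : Type} {f : T ι} (c : ℝ) (hf : Prim f) : Prim (c • f) := by
  unfold Prim at *
  rw [map_smul, map_smul, map_smul, hf, smul_add]

theorem PH_zero {ι : Type} (k : ℕ) : PH k (0 : T ι) := ⟨IsH_zero _ _, Prim_zero⟩

theorem PH_add {ι : Type} {k : ℕ} {f g : T ι} (hf : PH k f) (hg : PH k g) : PH k (f + g) :=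
  ⟨IsH_add hf.1 hg.1, Prim_add hf.2 hg.2⟩

theorem PH_smul {ι : Type} {k : ℕ} {f : T ι} (c : ℝ) (hf : PH k f) : PH k (c • f) :=
  ⟨IsH_smul c hf.1, Prim_smul c hf.2⟩

theorem PH_sum {ι κ : Type} {k : ℕ} (S : Finset κ) (c : κ → ℝ) (f : κ → T ι)
    (hf : ∀ i, PH k (f i)) : PH k (∑ i ∈ S, c i • f i) := by
  classical
  induction S using Finset.induction_on with
  | empty => rw [Finset.sum_empty]; exact PH_zero k
  | insert a s ha ih => rw [Finset.sum_insert ha]; exact PH_add (PH_smul _ (hf a)) ih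

/-! the linearised map -/

theorem coeff_smul' {ι : Type} (c : ℝ) (f : PS (T ι)) (i : ℕ) : coeff i (c • f) = c • coeff i f :=
  rfl

/-- coefficients of `Psi` as a linear map -/
noncomputable def Pc {r : ℕ} (x y : FreeGroup (Fin r)) (i : ℕ) :
    (PS (T (Fin r)) × PS (T (Fin r))) →ₗ[ℝ] T (Fin r) where
  toFun de := coeff i (Psi x y de.1 de.2)
  map_add' := by
    intro de de'
    rw [← map_add]
    congr 1
    unfold Psi
    simp only [Prod.fst_add, Prod.snd_add, mul_add, add_mul]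
    abel
  map_smul' := by
    intro c de
    rw [RingHom.id_apply, ← coeff_smul']
    congr 1
    unfold Psi
    simp only [Prod.smul_fst, Prod.smul_snd, mul_smul_comm, smul_mul_assoc, smul_add, smul_sub]

theorem Pc_apply {r : ℕ} (x y : FreeGroup (Fin r)) (i : ℕ) (δ ε : PS (T (Fin r))) :
    Pc x y i (δ, ε) = coeff i (Psi x y δ ε) := rfl

/-- truncated expansion -/
noncomputable def tr {ι : Type} (k : ℕ) (x : FreeGroup ι) : PS (T ι) :=
  PowerSeries.mk fun i => if 1 ≤ i ∧ i < 2 * k then cf i x else 0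

theorem tr_PP (hGRP : S_GRP) {ι : Type} (k : ℕ) (x : FreeGroup ι) (hx : D k x) : PP (tr k x) := by
  intro i
  unfold tr
  rw [PowerSeries.coeff_mk]
  split_ifs with h
  · exact (hGRP ι).1 k x hx i h.1 h.2
  · exact PH_zero i

theorem tr_ord {ι : Type} (k : ℕ) (x : FreeGroup ι) (hx : D k x) : ordge k (tr k x) := by
  intro i hi
  unfold tr
  rw [PowerSeries.coeff_mk]
  split_ifs with h
  · exact hx i h.1 hi
  · rfl

theorem tr_lead {ι : Type} (k : ℕ) (hk : 1 ≤ k) (x : FreeGroup ι) :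
    coeff k (tr k x) = cf k x := by
  unfold tr
  rw [PowerSeries.coeff_mk, if_pos ⟨hk, by omega⟩]

theorem tr_rest (hBAS : S_BAS) {ι : Type} (k : ℕ) (x : FreeGroup ι) :
    ordge (2 * k) (mag x - 1 - tr k x) := by
  intro i hi
  unfold tr
  rw [map_sub, map_sub, PowerSeries.coeff_mk, PowerSeries.coeff_one]
  by_cases h0 : i = 0
  · subst h0
    rw [(hBAS ι).1 x, if_pos rfl, if_neg (by omega)]
    simp
  · rw [if_neg h0, if_pos ⟨by omega, hi⟩]
    unfold cf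
    simp

theorem D_mono {ι : Type} {k l : ℕ} (h : k ≤ l) {x : FreeGroup ι} (hx : D l x) : D k x :=
  fun i h1 h2 => hx i h1 (lt_of_lt_of_le h2 h)

theorem mag_one (ι : Type) : mag (1 : FreeGroup ι) = 1 := by
  unfold mag
  rw [map_one]
  rfl

theorem D_one {ι : Type} (k : ℕ) : D k (1 : FreeGroup ι) := by
  intro i h1 _
  unfold cf
  rw [mag_one, PowerSeries.coeff_one, if_neg (by omega)]


theorem len_mul {r : ℕ} (x y : FreeGroup (Fin r)) : len (x * y) ≤ len x + len y :=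
  FreeGroup.norm_mul_le x y

theorem len_inv {r : ℕ} (x : FreeGroup (Fin r)) : len x⁻¹ = len x := FreeGroup.norm_inv_eq

theorem len_cm {r : ℕ} (x y : FreeGroup (Fin r)) : len (cm x y) ≤ 2 * len x + 2 * len y := by
  unfold cm
  have h1 := len_mul (x⁻¹ * y⁻¹ * x) y
  have h2 := len_mul (x⁻¹ * y⁻¹) x
  have h3 := len_mul x⁻¹ y⁻¹
  have h4 := len_inv x
  have h5 := len_inv y
  omega

theorem len_one {r : ℕ} : len (1 : FreeGroup (Fin r)) = 0 := FreeGroup.norm_one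

theorem len_pow {r : ℕ} (x : FreeGroup (Fin r)) (n : ℕ) : len (x ^ n) ≤ n * len x := by
  induction n with
  | zero => rw [pow_zero, len_one]; omega
  | succ n ih =>
    rw [pow_succ]
    have := len_mul (x ^ n) x
    calc len (x ^ n * x) ≤ len (x ^ n) + len x := this
      _ ≤ n * len x + len x := by omega
      _ = (n + 1) * len x := by ring

theorem len_zpow {r : ℕ} (x : FreeGroup (Fin r)) (n : ℤ) : len (x ^ n) ≤ n.natAbs * len x := by
  rcases Int.natAbs_eq n with h | h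
  · have e : x ^ n = x ^ n.natAbs := by
      conv_lhs => rw [h]
      rw [zpow_natCast]
    rw [e]
    exact len_pow x _
  · have e : x ^ n = (x ^ n.natAbs)⁻¹ := by
      conv_lhs => rw [h]
      rw [zpow_neg, zpow_natCast]
    rw [e, len_inv]
    exact len_pow x _

theorem len_list {r : ℕ} (L : List (FreeGroup (Fin r))) : len L.prod ≤ (L.map len).sum := by
  induction L with
  | nil => rw [List.prod_nil, len_one]; omega
  | cons a L ih =>
    rw [List.prod_cons, List.map_cons, List.sum_cons]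
    have := len_mul a L.prod
    omega

theorem len_prod {r n : ℕ} (e : Fin n → FreeGroup (Fin r)) (m : Fin n → ℤ) :
    len (List.ofFn fun i => e i ^ m i).prod ≤ ∑ i, (m i).natAbs * len (e i) := by
  refine (len_list _).trans ?_
  rw [List.map_ofFn, List.sum_ofFn]
  refine Finset.sum_le_sum ?_
  intro i _
  exact len_zpow _ _

/-- leading term of a product -/
theorem lead_prod (hBAS : S_BAS) {r n k : ℕ} (hk : 1 ≤ k) (e : Fin n → FreeGroup (Fin r))
    (m : Fin n → ℤ) (he : ∀ i, D k (e i)) :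
    D k (List.ofFn fun i => e i ^ m i).prod ∧
      cf k (List.ofFn fun i => e i ^ m i).prod = ∑ i, (m i : ℝ) • cf k (e i) := by
  obtain ⟨-, -, hmul, hinv, -, hadd, hneg, -, -, -, -⟩ := hBAS (Fin r)
  have hD1 : D k (1 : FreeGroup (Fin r)) := by
    intro i h1 _
    unfold cf mag
    rw [map_one, Units.val_one, PowerSeries.coeff_one, if_neg (by omega)]
  have hc1 : cf k (1 : FreeGroup (Fin r)) = 0 := by
    unfold cf mag
    rw [map_one, Units.val_one, PowerSeries.coeff_one, if_neg (by omega)]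
  have hpow : ∀ (x : FreeGroup (Fin r)), D k x → ∀ n : ℕ, D k (x ^ n) ∧
      cf k (x ^ n) = (n : ℝ) • cf k x := by
    intro x hx n
    induction n with
    | zero => rw [pow_zero]; exact ⟨hD1, by rw [hc1]; simp⟩
    | succ n ih =>
      rw [pow_succ]
      refine ⟨hmul k _ _ ih.1 hx, ?_⟩
      rw [hadd k k _ _ ih.1 hx k hk (by omega), ih.2]
      push_cast
      rw [add_smul, one_smul]
  have hzpow : ∀ (x : FreeGroup (Fin r)), D k x → ∀ n : ℤ, D k (x ^ n) ∧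
      cf k (x ^ n) = (n : ℝ) • cf k x := by
    intro x hx n
    rcases Int.natAbs_eq n with h | h
    · have e : x ^ n = x ^ n.natAbs := by
        conv_lhs => rw [h]
        rw [zpow_natCast]
      have e2 : (n : ℝ) = (n.natAbs : ℝ) := by
        have h3 := congrArg (Int.cast : ℤ → ℝ) h
        rw [Int.cast_natCast] at h3
        exact h3
      rw [e, e2]
      exact hpow x hx _
    · have e : x ^ n = (x ^ n.natAbs)⁻¹ := by
        conv_lhs => rw [h]
        rw [zpow_neg, zpow_natCast]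
      have e2 : (n : ℝ) = -(n.natAbs : ℝ) := by
        have h3 := congrArg (Int.cast : ℤ → ℝ) h
        rw [Int.cast_neg, Int.cast_natCast] at h3
        exact h3
      obtain ⟨h1, h2⟩ := hpow x hx n.natAbs
      rw [e, e2]
      refine ⟨hinv k _ h1, ?_⟩
      rw [hneg k _ h1 k hk (by omega), h2, neg_smul]
  have hlist : ∀ L : List (FreeGroup (Fin r)), (∀ x ∈ L, D k x) → D k L.prod ∧
      cf k L.prod = (L.map (cf k)).sum := by
    intro L
    induction L with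
    | nil => intro _; rw [List.prod_nil]; exact ⟨hD1, by rw [hc1]; rfl⟩
    | cons a L ih =>
      intro h
      obtain ⟨i1, i2⟩ := ih (fun x hx => h x (List.mem_cons_of_mem _ hx))
      have ha := h a List.mem_cons_self
      rw [List.prod_cons, List.map_cons, List.sum_cons]
      exact ⟨hmul k _ _ ha i1, by rw [hadd k k _ _ ha i1 k hk (by omega), i2]⟩
  obtain ⟨h1, h2⟩ := hlist (List.ofFn fun i => e i ^ m i) (by
    intro x hx
    rw [List.mem_ofFn] at hx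
    obtain ⟨i, rfl⟩ := hx
    exact (hzpow _ (he i) _).1)
  refine ⟨h1, ?_⟩
  rw [h2, List.map_ofFn, List.sum_ofFn]
  refine Finset.sum_congr rfl ?_
  intro i _
  exact (hzpow _ (he i) _).2


theorem IsH_mul {ι : Type} {w : ι → ℕ} {k l : ℕ} {f g : T ι} (hf : IsH w k f) (hg : IsH w l g) :
    IsH w (k + l) (f * g) := by
  classical
  intro m hm
  rw [MonoidAlgebra.coeff_mul] at hm
  unfold Finsupp.sum at hm
  obtain ⟨a, _, ha⟩ := Finset.exists_ne_zero_of_sum_ne_zero hm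
  obtain ⟨b, _, hb⟩ := Finset.exists_ne_zero_of_sum_ne_zero ha
  have hb' : (if a * b = m then f.coeff a * g.coeff b else 0) ≠ 0 := hb
  have hab : a * b = m := by
    by_contra h
    rw [if_neg h] at hb'
    exact hb' rfl
  rw [if_pos hab] at hb'
  have h1 : f.coeff a ≠ 0 := left_ne_zero_of_mul hb'
  have h2 : g.coeff b ≠ 0 := right_ne_zero_of_mul hb'
  have h3 := hf a h1
  have h4 := hg b h2
  rw [← hab, ← h3, ← h4]
  unfold wd
  rw [FreeMonoid.toList_mul, List.map_append, List.sum_append]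

theorem IsH_neg {ι : Type} {w : ι → ℕ} {k : ℕ} {f : T ι} (hf : IsH w k f) : IsH w k (-f) := by
  have := IsH_smul (-1) hf
  rwa [neg_one_smul] at this

theorem IsH_br {ι : Type} {w : ι → ℕ} {k l : ℕ} {f g : T ι} (hf : IsH w k f) (hg : IsH w l g) :
    IsH w (k + l) (br f g) := by
  unfold br
  rw [sub_eq_add_neg]
  refine IsH_add (IsH_mul hf hg) (IsH_neg ?_)
  rw [add_comm]
  exact IsH_mul hg hf

/-- the combination -/
noncomputable def Gz {r : ℕ} {K : Type} [Fintype K] (G : K → PS (T (Fin r)) × PS (T (Fin r)))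
    (z : K → ℝ) : PS (T (Fin r)) × PS (T (Fin r)) := ∑ k, z k • G k

theorem Gz_fst {r : ℕ} {K : Type} [Fintype K] (G : K → PS (T (Fin r)) × PS (T (Fin r)))
    (z : K → ℝ) (i : ℕ) : coeff i (Gz G z).1 = ∑ k, z k • coeff i (G k).1 := by
  unfold Gz
  rw [Prod.fst_sum, map_sum]
  rfl

theorem Gz_snd {r : ℕ} {K : Type} [Fintype K] (G : K → PS (T (Fin r)) × PS (T (Fin r)))
    (z : K → ℝ) (i : ℕ) : coeff i (Gz G z).2 = ∑ k, z k • coeff i (G k).2 := by
  unfold Gz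
  rw [Prod.snd_sum, map_sum]
  rfl

theorem Gz_Pc {r : ℕ} {K : Type} [Fintype K] (G : K → PS (T (Fin r)) × PS (T (Fin r)))
    (z : K → ℝ) (x y : FreeGroup (Fin r)) (i : ℕ) :
    coeff i (Psi x y (Gz G z).1 (Gz G z).2) = ∑ k, z k • Pc x y i (G k) := by
  have h : coeff i (Psi x y (Gz G z).1 (Gz G z).2) = Pc x y i (Gz G z) := rfl
  rw [h]
  unfold Gz
  rw [map_sum]
  refine Finset.sum_congr rfl ?_
  intro k _
  rw [map_smul]

theorem coeff_sum_smul {ι K : Type} [Fintype K] (z : K → ℝ) (f : K → T ι) (w : FreeMonoid ι) :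
    (∑ k, z k • f k).coeff w = ∑ k, z k * (f k).coeff w := by
  rw [MonoidAlgebra.coeff_sum, Finsupp.finsetSum_apply]
  rfl

/-- the form of `QB` used -/
noncomputable def be {r N : ℕ} (j : ℕ) (i : Fin (j + 1) × Wd r N) :
    (Wd r N ⊕ Wd r N) → (Wd r N ⊕ Wd r N) → ℤ
  | Sum.inl a, Sum.inr b => if i.1.val = j then Bt a.1 b.1 i.2.1 else 0
  | Sum.inl _, Sum.inl _ => 0
  | Sum.inr _, _ => 0

theorem be_lr {r N : ℕ} (j : ℕ) (i : Fin (j + 1) × Wd r N) (a b : Wd r N) :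
    be j i (Sum.inl a) (Sum.inr b) = if i.1.val = j then Bt a.1 b.1 i.2.1 else 0 := rfl

theorem be_abs {r N : ℕ} (j : ℕ) (i : Fin (j + 1) × Wd r N) (a b : Wd r N ⊕ Wd r N) :
    |be j i a b| ≤ 1 := by
  rcases a with a | a
  · rcases b with b | b
    · simp [be]
    · rw [be_lr]
      split_ifs
      · exact Bt_abs _ _ _
      · simp
  · simp [be]

theorem be_sum {r N k l : ℕ} (j : ℕ) (i : Fin (j + 1) × Wd r N) (F : ℝ) (s t : T (Fin r))
    (hs : IsH (fun _ => 1) k s) (hk : k ≤ N) (ht : IsH (fun _ => 1) l t) (hl : l ≤ N)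
    (x y : Wd r N ⊕ Wd r N → ℝ)
    (hx : ∀ w, x (Sum.inl w) = F * s.coeff w.1) (hy : ∀ w, y (Sum.inr w) = F * t.coeff w.1) :
    ∑ a, x a * ∑ b, (be j i a b : ℝ) * y b =
      if i.1.val = j then F ^ 2 * (br s t).coeff i.2.1 else 0 := by
  rw [Fintype.sum_sum_type]
  have h1 : ∑ a : Wd r N, x (Sum.inr a) * ∑ b, (be j i (Sum.inr a) b : ℝ) * y b = 0 := by
    refine Finset.sum_eq_zero fun a _ => ?_
    simp [be]
  rw [h1, add_zero]
  have h2 : ∀ a : Wd r N, ∑ b, (be j i (Sum.inl a) b : ℝ) * y b =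
      if i.1.val = j then ∑ b : Wd r N, (Bt a.1 b.1 i.2.1 : ℝ) * (F * t.coeff b.1) else 0 := by
    intro a
    rw [Fintype.sum_sum_type]
    have h3 : ∑ b : Wd r N, (be j i (Sum.inl a) (Sum.inl b) : ℝ) * y (Sum.inl b) = 0 := by
      refine Finset.sum_eq_zero fun b _ => ?_
      simp [be]
    rw [h3, zero_add]
    split_ifs with h
    · refine Finset.sum_congr rfl fun b _ => ?_
      rw [hy, be_lr, if_pos h]
    · refine Finset.sum_eq_zero fun b _ => ?_
      rw [be_lr, if_neg h]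
      simp
  simp only [h2, hx]
  split_ifs with h
  · rw [br_coeff hs hk ht hl, Finset.mul_sum]
    refine Finset.sum_congr rfl fun a _ => ?_
    have : ∑ b : Wd r N, (Bt a.1 b.1 i.2.1 : ℝ) * (F * t.coeff b.1) =
        F * ∑ b : Wd r N, (Bt a.1 b.1 i.2.1 : ℝ) * t.coeff b.1 := by
      rw [Finset.mul_sum]
      refine Finset.sum_congr rfl fun b _ => ?_
      ring
    rw [this]
    ring
  · simp

theorem core2 (hBAS : S_BAS) (hGRP : S_GRP) (hPSO : S_PSO) (hDIF : S_DIF) (hP3 : S_P3)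
    (hP3U : S_P3U) (hQB : S_QB) (hC2G : S_C2G) (r p q j : ℕ) (hp : 1 ≤ p) (hj : 1 ≤ j)
    (hpq : p + j < q) (K : Type) [Fintype K] (F : ℕ) (hF : 1 ≤ F) :
    ∃ C E : ℕ, ∀ (B : ℕ) (x₀ y₀ u v : FreeGroup (Fin r))
      (G : K → PS (T (Fin r)) × PS (T (Fin r))) (m : K → ℤ) (H : ℕ → T (Fin r)), 1 ≤ B →
      D p x₀ → D q y₀ → D (p + j) u → D (q + j) v → cf p x₀ ≠ 0 → cf q y₀ ≠ 0 →
      (∀ k, PP (G k).1 ∧ PP (G k).2 ∧ ordge (p + j) (G k).1 ∧ ordge (q + j) (G k).2) →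
      (∀ i, p + q + j ≤ i → i ≤ p + q + 2 * j → ∀ k, IsH (fun _ => 1) i (Pc x₀ y₀ i (G k))) →
      (∀ k w, ∃ z : ℤ, (F : ℝ) * (coeff (p + j) (G k).1).coeff w = z ∧ |z| ≤ B) →
      (∀ k w, ∃ z : ℤ, (F : ℝ) * (coeff (q + j) (G k).2).coeff w = z ∧ |z| ≤ B) →
      (∀ i, p + q + j ≤ i → i ≤ p + q + 2 * j → ∀ k w, ∃ z : ℤ,
        (F : ℝ) ^ 2 * (Pc x₀ y₀ i (G k)).coeff w = z ∧ |z| ≤ B) →
      (∀ i, p + q + j ≤ i → i ≤ p + q + 2 * j → ∀ w, ∃ z : ℤ,
        (F : ℝ) ^ 2 * (H i).coeff w = z ∧ |z| ≤ B) →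
      cf (p + j) u = ∑ k, (m k : ℝ) • coeff (p + j) (G k).1 →
      cf (q + j) v = ∑ k, (m k : ℝ) • coeff (q + j) (G k).2 →
      (∀ i, p + q + j ≤ i → i ≤ p + q + 2 * j → ∑ k, (m k : ℝ) • Pc x₀ y₀ i (G k) +
        (if i = p + q + 2 * j then br (cf (p + j) u) (cf (q + j) v) else 0) = H i) →
      ∀ w : Wd r (p + q + 2 * j), |(F : ℝ) * (cf (p + j) u).coeff w.1| ≤ C * B ^ E ∧
        |(F : ℝ) * (cf (q + j) v).coeff w.1| ≤ C * B ^ E := by
  classical
  obtain ⟨C, E, hQ⟩ := QBt hQB (Fin (j + 1) × Wd r (p + q + 2 * j)) K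
    (Wd r (p + q + 2 * j) ⊕ Wd r (p + q + 2 * j))
  refine ⟨C, E, ?_⟩
  intro B x₀ y₀ u v G m H hB hx₀ hy₀ hu hv ha0 hb0 hG hPH hs ht hP hH hmu hmv heq
  obtain ⟨N, hN⟩ : ∃ N, N = p + q + 2 * j := ⟨_, rfl⟩
  have hFr : (F : ℝ) ≠ 0 := by
    have : F ≠ 0 := by omega
    exact_mod_cast this
  have hidx : ∀ a : Fin (j + 1), p + q + j ≤ p + q + j + a.val ∧
      p + q + j + a.val ≤ p + q + 2 * j := by
    intro a
    have := a.2
    omega
  have hq : 1 ≤ q := by omega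
  choose a₁ ha₁ hb₁ using hs
  choose a₂ ha₂ hb₂ using ht
  have hP' : ∀ (i : Fin (j + 1) × Wd r (p + q + 2 * j)) (k : K), ∃ z : ℤ,
      (F : ℝ) ^ 2 * (Pc x₀ y₀ (p + q + j + i.1.val) (G k)).coeff i.2.1 = z ∧ |z| ≤ B :=
    fun i k => hP _ (hidx i.1).1 (hidx i.1).2 k i.2.1
  choose A hA hAb using hP'
  have hH' : ∀ (i : Fin (j + 1) × Wd r (p + q + 2 * j)), ∃ z : ℤ,
      (F : ℝ) ^ 2 * (H (p + q + j + i.1.val)).coeff i.2.1 = z ∧ |z| ≤ B :=
    fun i => hH _ (hidx i.1).1 (hidx i.1).2 i.2.1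
  choose h hh hhb using hH'
  obtain ⟨Λ, hΛ⟩ : ∃ Λ : (Wd r (p + q + 2 * j) ⊕ Wd r (p + q + 2 * j)) → K → ℤ,
    Λ = Sum.elim (fun w k => a₁ k w.1) (fun w k => a₂ k w.1) := ⟨_, rfl⟩
  -- the combinations
  have hsz : ∀ z : K → ℝ, PH (p + j) (coeff (p + j) (Gz G z).1) := by
    intro z
    rw [Gz_fst]
    exact PH_sum _ _ _ (fun k => (hG k).1 _)
  have htz : ∀ z : K → ℝ, PH (q + j) (coeff (q + j) (Gz G z).2) := by
    intro z
    rw [Gz_snd]
    exact PH_sum _ _ _ (fun k => (hG k).2.1 _)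
  have hPP1 : ∀ z : K → ℝ, PP (Gz G z).1 := by
    intro z i
    rw [Gz_fst]
    exact PH_sum _ _ _ (fun k => (hG k).1 _)
  have hPP2 : ∀ z : K → ℝ, PP (Gz G z).2 := by
    intro z i
    rw [Gz_snd]
    exact PH_sum _ _ _ (fun k => (hG k).2.1 _)
  have hord1 : ∀ z : K → ℝ, ordge (p + j) (Gz G z).1 := by
    intro z i hi
    rw [Gz_fst]
    refine Finset.sum_eq_zero fun k _ => ?_
    rw [(hG k).2.2.1 i hi, smul_zero]
  have hord2 : ∀ z : K → ℝ, ordge (q + j) (Gz G z).2 := by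
    intro z i hi
    rw [Gz_snd]
    refine Finset.sum_eq_zero fun k _ => ?_
    rw [(hG k).2.2.2 i hi, smul_zero]
  have hL1 : ∀ (z : K → ℝ) (w : Wd r (p + q + 2 * j)), ∑ k, (Λ (Sum.inl w) k : ℝ) * z k =
      F * (coeff (p + j) (Gz G z).1).coeff w.1 := by
    intro z w
    rw [Gz_fst, coeff_sum_smul, Finset.mul_sum]
    refine Finset.sum_congr rfl fun k _ => ?_
    rw [hΛ]
    show (a₁ k w.1 : ℝ) * z k = _
    rw [← ha₁]
    ring
  have hL2 : ∀ (z : K → ℝ) (w : Wd r (p + q + 2 * j)), ∑ k, (Λ (Sum.inr w) k : ℝ) * z k =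
      F * (coeff (q + j) (Gz G z).2).coeff w.1 := by
    intro z w
    rw [Gz_snd, coeff_sum_smul, Finset.mul_sum]
    refine Finset.sum_congr rfl fun k _ => ?_
    rw [hΛ]
    show (a₂ k w.1 : ℝ) * z k = _
    rw [← ha₂]
    ring
  have hAz : ∀ (z : K → ℝ) (i : Fin (j + 1) × Wd r (p + q + 2 * j)), ∑ k, (A i k : ℝ) * z k =
      (F : ℝ) ^ 2 * (coeff (p + q + j + i.1.val)
        (Psi x₀ y₀ (Gz G z).1 (Gz G z).2)).coeff i.2.1 := by
    intro z i
    rw [Gz_Pc, coeff_sum_smul, Finset.mul_sum]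
    refine Finset.sum_congr rfl fun k _ => ?_
    rw [← hA]
    ring
  have hmr : ∀ a, ((∑ k, Λ a k * m k : ℤ) : ℝ) = ∑ k, (Λ a k : ℝ) * (m k : ℝ) := by
    intro a
    push_cast
    rfl
  have hum : cf (p + j) u = coeff (p + j) (Gz G (fun k => (m k : ℝ))).1 := by
    rw [Gz_fst, hmu]
  have hvm : cf (q + j) v = coeff (q + j) (Gz G (fun k => (m k : ℝ))).2 := by
    rw [Gz_snd, hmv]
  have huPH : PH (p + j) (cf (p + j) u) := by rw [hum]; exact hsz _
  have hvPH : PH (q + j) (cf (q + j) v) := by rw [hvm]; exact htz _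
  have haPH : PH p (cf p x₀) := (hGRP (Fin r)).1 p x₀ hx₀ p hp (by omega)
  have hbPH : PH q (cf q y₀) := (hGRP (Fin r)).1 q y₀ hy₀ q hq (by omega)
  have hPsiH : ∀ (z : K → ℝ) i, p + q + j ≤ i → i ≤ p + q + 2 * j →
      IsH (fun _ => 1) i (coeff i (Psi x₀ y₀ (Gz G z).1 (Gz G z).2)) := by
    intro z i h1 h2
    rw [Gz_Pc]
    exact IsH_sum _ _ _ (hPH i h1 h2)
  -- leading row
  have hrow0 : ∀ z : K → ℝ, (∀ i : Fin (j + 1) × Wd r (p + q + 2 * j), i.1.val = 0 →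
      ∑ k, (A i k : ℝ) * z k = 0) →
      br (coeff (p + j) (Gz G z).1) (cf q y₀) + br (cf p x₀) (coeff (q + j) (Gz G z).2) = 0 := by
    intro z hz
    obtain ⟨-, h2⟩ := hPSO r p q j x₀ y₀ (Gz G z).1 (Gz G z).2 hp hq hx₀ hy₀ (hord1 z) (hord2 z)
    rw [← h2]
    refine ext_W (N := p + q + 2 * j) (hPsiH z _ le_rfl (by omega)) (by omega) ?_
    intro w
    have h3 := hz (⟨0, by omega⟩, w) rfl
    rw [hAz] at h3
    have h4 := (mul_eq_zero.mp h3).resolve_left (pow_ne_zero 2 hFr)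
    exact h4
  have hfin := hQ B A Λ (be j) h m {i | i.1.val = 0} hB hAb ?_ ?_ hhb ?_ ?_ ?_ ?_
  · intro w
    constructor
    · have h1 := hfin (Sum.inl w)
      have h2 : ((|∑ k, Λ (Sum.inl w) k * m k| : ℤ) : ℝ) ≤ ((C * B ^ E : ℤ) : ℝ) :=
        Int.cast_le.mpr h1
      rw [Int.cast_abs, hmr, hL1 (fun k => (m k : ℝ)) w, ← hum] at h2
      push_cast at h2
      exact h2
    · have h1 := hfin (Sum.inr w)
      have h2 : ((|∑ k, Λ (Sum.inr w) k * m k| : ℤ) : ℝ) ≤ ((C * B ^ E : ℤ) : ℝ) :=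
        Int.cast_le.mpr h1
      rw [Int.cast_abs, hmr, hL2 (fun k => (m k : ℝ)) w, ← hvm] at h2
      push_cast at h2
      exact h2
  · -- bound of `Λ`
    intro a k
    rw [hΛ]
    rcases a with a | a
    · exact hb₁ k a.1
    · exact hb₂ k a.1
  · intro i a b
    refine (be_abs j i a b).trans ?_
    exact_mod_cast hB
  · -- the equation
    intro i
    have key : ((∑ k, A i k * m k + ∑ a, (∑ k, Λ a k * m k) * ∑ b, be j i a b *
        ∑ k, Λ b k * m k : ℤ) : ℝ) = (h i : ℝ) := by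
      rw [Int.cast_add]
      have e1 : ((∑ k, A i k * m k : ℤ) : ℝ) = ∑ k, (A i k : ℝ) * (m k : ℝ) := by
        push_cast
        rfl
      have e2 : ((∑ a, (∑ k, Λ a k * m k) * ∑ b, be j i a b * ∑ k, Λ b k * m k : ℤ) : ℝ) =
          ∑ a, (∑ k, (Λ a k : ℝ) * (m k : ℝ)) * ∑ b, (be j i a b : ℝ) *
            ∑ k, (Λ b k : ℝ) * (m k : ℝ) := by
        push_cast
        rfl
      rw [e1, e2, hAz (fun k => (m k : ℝ)), be_sum (k := p + j) (l := q + j) j i F _ _ (hsz _).1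
        (by omega) (htz _).1 (by omega) _ _ (hL1 (fun k => (m k : ℝ)))
        (hL2 (fun k => (m k : ℝ))), ← hum, ← hvm, ← hh, ← heq _ (hidx i.1).1 (hidx i.1).2, Gz_Pc]
      rw [MonoidAlgebra.coeff_add, Finsupp.add_apply, mul_add]
      congr 1
      by_cases hi : i.1.val = j
      · rw [if_pos hi, if_pos (by omega)]
      · rw [if_neg hi, if_neg (by omega)]
        simp
    exact_mod_cast key
  · -- no quadratic part in the leading rows
    intro i hi a b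
    have hi' : i.1.val ≠ j := by
      have : i.1.val = 0 := hi
      omega
    rcases a with a | a
    · rcases b with b | b
      · rfl
      · rw [be_lr, if_neg hi']
    · rfl
  · -- dimension at most one
    intro z z' hz hz'
    have h1 := hrow0 z (fun i hi => hz i hi)
    have h2 := hrow0 z' (fun i hi => hz' i hi)
    obtain ⟨c, c', hc, hc1, hc2⟩ := hP3U (Fin r) p q j (cf p x₀) (cf q y₀) _ _ _ _ hp hj hpq haPH
      hbPH ha0 hb0 (hsz z) (htz z) (hsz z') (htz z') h1 h2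
    refine ⟨c, c', hc, ?_⟩
    intro a
    rcases a with a | a
    · rw [hL1, hL1]
      have h3 := congrArg (fun f : T (Fin r) => f.coeff a.1) hc1
      simp only [MonoidAlgebra.coeff_add, MonoidAlgebra.coeff_smul, Finsupp.add_apply,
        Finsupp.smul_apply, smul_eq_mul, MonoidAlgebra.coeff_zero, Finsupp.zero_apply] at h3
      have e : c * ((F : ℝ) * (coeff (p + j) (Gz G z).1).coeff a.1) +
          c' * ((F : ℝ) * (coeff (p + j) (Gz G z').1).coeff a.1) =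
          F * (c * (coeff (p + j) (Gz G z).1).coeff a.1 +
          c' * (coeff (p + j) (Gz G z').1).coeff a.1) := by ring
      rw [e, h3, mul_zero]
    · rw [hL2, hL2]
      have h3 := congrArg (fun f : T (Fin r) => f.coeff a.1) hc2
      simp only [MonoidAlgebra.coeff_add, MonoidAlgebra.coeff_smul, Finsupp.add_apply,
        Finsupp.smul_apply, smul_eq_mul, MonoidAlgebra.coeff_zero, Finsupp.zero_apply] at h3
      have e : c * ((F : ℝ) * (coeff (q + j) (Gz G z).2).coeff a.1) +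
          c' * ((F : ℝ) * (coeff (q + j) (Gz G z').2).coeff a.1) =
          F * (c * (coeff (q + j) (Gz G z).2).coeff a.1 +
          c' * (coeff (q + j) (Gz G z').2).coeff a.1) := by ring
      rw [e, h3, mul_zero]
  · -- no tangent
    intro z z' hne hz hz'0 hz'
    obtain ⟨-, -, hDmul, -, -, hadd, -, -, -, -, -⟩ := hBAS (Fin r)
    have hDx : D p (x₀ * u) := hDmul p _ _ hx₀ (D_mono (by omega) hu)
    have hDy : D q (y₀ * v) := hDmul q _ _ hy₀ (D_mono (by omega) hv)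
    have hcx : cf p (x₀ * u) = cf p x₀ := by
      rw [hadd p (p + j) _ _ hx₀ hu p hp (by omega), hu p hp (by omega), add_zero]
    have hcy : cf q (y₀ * v) = cf q y₀ := by
      rw [hadd q (q + j) _ _ hy₀ hv q hq (by omega), hv q hq (by omega), add_zero]
    -- values of the forms
    have hb1 : ∀ i, ∑ a, ((∑ k, Λ a k * m k : ℤ) : ℝ) * ∑ b, (be j i a b : ℝ) *
        ∑ k, (Λ b k : ℝ) * z k = if i.1.val = j then (F : ℝ) ^ 2 *
          (br (cf (p + j) u) (coeff (q + j) (Gz G z).2)).coeff i.2.1 else 0 := by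
      intro i
      refine be_sum (k := p + j) (l := q + j) j i F _ _ huPH.1 (by omega) (htz _).1 (by omega)
        (fun a => ((∑ k, Λ a k * m k : ℤ) : ℝ)) (fun b => ∑ k, (Λ b k : ℝ) * z k) ?_ (hL2 z)
      intro w
      show ((∑ k, Λ (Sum.inl w) k * m k : ℤ) : ℝ) = _
      rw [hmr, hL1 (fun k => (m k : ℝ)), hum]
    have hb2 : ∀ i, ∑ a, (∑ k, (Λ a k : ℝ) * z k) * ∑ b, (be j i a b : ℝ) *
        ((∑ k, Λ b k * m k : ℤ) : ℝ) = if i.1.val = j then (F : ℝ) ^ 2 *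
          (br (coeff (p + j) (Gz G z).1) (cf (q + j) v)).coeff i.2.1 else 0 := by
      intro i
      refine be_sum (k := p + j) (l := q + j) j i F _ _ (hsz _).1 (by omega) hvPH.1 (by omega)
        (fun a => ∑ k, (Λ a k : ℝ) * z k) (fun b => ((∑ k, Λ b k * m k : ℤ) : ℝ)) (hL1 z) ?_
      intro w
      show ((∑ k, Λ (Sum.inr w) k * m k : ℤ) : ℝ) = _
      rw [hmr, hL2 (fun k => (m k : ℝ)), hvm]
    have hb3 : ∀ i, ∑ a, (∑ k, (Λ a k : ℝ) * z k) * ∑ b, (be j i a b : ℝ) *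
        ∑ k, (Λ b k : ℝ) * z k = if i.1.val = j then (F : ℝ) ^ 2 *
          (br (coeff (p + j) (Gz G z).1) (coeff (q + j) (Gz G z).2)).coeff i.2.1 else 0 := by
      intro i
      exact be_sum (k := p + j) (l := q + j) j i F _ _ (hsz _).1 (by omega) (htz _).1 (by omega)
        _ _ (hL1 z) (hL2 z)
    -- the leading row of `z`
    have hlead := hrow0 z (by
      intro i hi
      have h1 := hz i
      rw [hb1, hb2, if_neg (by omega), if_neg (by omega)] at h1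
      linarith)
    have hne' : coeff (p + j) (Gz G z).1 ≠ 0 ∨ coeff (q + j) (Gz G z).2 ≠ 0 := by
      obtain ⟨a, ha⟩ := hne
      by_contra hcon
      push Not at hcon
      apply ha
      rcases a with a | a
      · rw [hL1, hcon.1]; simp
      · rw [hL2, hcon.2]; simp
    obtain ⟨hs0, -, -⟩ := hP3 (Fin r) p q j (cf p x₀) (cf q y₀) _ _ hp hj hpq haPH hbPH ha0 hb0
      (hsz z) (htz z) hlead hne'
    -- `s(z') = 0`, `t(z') = 0`
    have hs' : coeff (p + j) (Gz G z').1 = 0 := by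
      refine ext_W (N := p + q + 2 * j) (hsz z').1 (by omega) ?_
      intro w
      have h1 := hz'0 (Sum.inl w)
      rw [hL1] at h1
      exact (mul_eq_zero.mp h1).resolve_left hFr
    have ht' : coeff (q + j) (Gz G z').2 = 0 := by
      refine ext_W (N := p + q + 2 * j) (htz z').1 (by omega) ?_
      intro w
      have h1 := hz'0 (Sum.inr w)
      rw [hL2] at h1
      exact (mul_eq_zero.mp h1).resolve_left hFr
    -- `Psi` at the actual pair
    have hrowz : ∀ i, p + q + j ≤ i → i ≤ p + q + 2 * j →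
        coeff i (Psi x₀ y₀ (Gz G z).1 (Gz G z).2) + (if i = p + q + 2 * j then
          br (coeff (p + j) (Gz G z).1) (cf (q + j) v) +
          br (cf (p + j) u) (coeff (q + j) (Gz G z).2) else 0) = 0 := by
      intro i h1 h2
      obtain ⟨a, rfl⟩ : ∃ a, i = p + q + j + a := ⟨i - (p + q + j), by omega⟩
      refine ext_W (N := p + q + 2 * j) (k := p + q + j + a) (IsH_add (hPsiH z _ h1 h2) ?_) h2 ?_
      · split_ifs with h3
        · rw [h3]
          have e : p + q + 2 * j = p + j + (q + j) := by ring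
          rw [e]
          exact IsH_add (IsH_br (hsz z).1 hvPH.1) (IsH_br huPH.1 (htz z).1)
        · exact IsH_zero _ _
      · intro w
        have h3 := hz (⟨a, by omega⟩, w)
        rw [hb1, hb2, hAz] at h3
        rw [MonoidAlgebra.coeff_add, Finsupp.add_apply]
        by_cases ha : a = j
        · rw [if_pos (by omega), MonoidAlgebra.coeff_add, Finsupp.add_apply]
          simp only [ha] at h3 ⊢
          rw [if_pos trivial, if_pos trivial] at h3
          have h4 : (F : ℝ) ^ 2 * ((coeff (p + q + j + j)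
            (Psi x₀ y₀ (Gz G z).1 (Gz G z).2)).coeff w.1 +
            ((br (coeff (p + j) (Gz G z).1) (cf (q + j) v)).coeff w.1 +
            (br (cf (p + j) u) (coeff (q + j) (Gz G z).2)).coeff w.1)) = 0 := by
            rw [← h3]
            ring
          exact (mul_eq_zero.mp h4).resolve_left (pow_ne_zero 2 hFr)
        · rw [if_neg (by omega)]
          simp only [ha, if_false] at h3
          simp only [add_zero] at h3
          have h4 := (mul_eq_zero.mp h3).resolve_left (pow_ne_zero 2 hFr)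
          rw [h4]
          simp
    have hrowz' : ∀ i, p + q + j ≤ i → i ≤ p + q + 2 * j →
        coeff i (Psi x₀ y₀ (Gz G z').1 (Gz G z').2) = (if i = p + q + 2 * j then
          br (coeff (p + j) (Gz G z).1) (coeff (q + j) (Gz G z).2) else 0) := by
      intro i h1 h2
      rw [← sub_eq_zero, sub_eq_add_neg]
      obtain ⟨a, rfl⟩ : ∃ a, i = p + q + j + a := ⟨i - (p + q + j), by omega⟩
      refine ext_W (N := p + q + 2 * j) (k := p + q + j + a)
        (IsH_add (hPsiH z' _ h1 h2) (IsH_neg ?_)) h2 ?_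
      · split_ifs with h3
        · rw [h3]
          have e : p + q + 2 * j = p + j + (q + j) := by ring
          rw [e]
          exact IsH_br (hsz z).1 (htz z).1
        · exact IsH_zero _ _
      · intro w
        have h3 := hz' (⟨a, by omega⟩, w)
        rw [hb3, hAz] at h3
        rw [← sub_eq_add_neg]
        have hsub : ∀ f g : T (Fin r), (f - g).coeff w.1 = f.coeff w.1 - g.coeff w.1 :=
          fun f g => rfl
        rw [hsub]
        by_cases ha : a = j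
        · rw [if_pos (by omega)]
          simp only [ha] at h3 ⊢
          rw [if_pos trivial] at h3
          have h4 := mul_left_cancel₀ (pow_ne_zero 2 hFr) h3
          rw [h4, sub_self]
        · rw [if_neg (by omega)]
          simp only [ha, if_false] at h3
          have h4 := (mul_eq_zero.mp h3).resolve_left (pow_ne_zero 2 hFr)
          rw [h4]
          simp
    have hord1' : ordge (p + j + 1) (Gz G z').1 := by
      intro i hi
      by_cases h1 : i = p + j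
      · rw [h1]; exact hs'
      · exact hord1 z' i (by omega)
    have hord2' : ordge (q + j + 1) (Gz G z').2 := by
      intro i hi
      by_cases h1 : i = q + j
      · rw [h1]; exact ht'
      · exact hord2 z' i (by omega)
    have hlow : ∀ z : K → ℝ, ordge (p + q + j) (Psi (x₀ * u) (y₀ * v) (Gz G z).1 (Gz G z).2) :=
      fun z => (hPSO r p q j _ _ _ _ hp hq hDx hDy (hord1 z) (hord2 z)).1
    have hdif : ∀ (z : K → ℝ) i, i ≤ p + q + 2 * j →
        coeff i (Psi (x₀ * u) (y₀ * v) (Gz G z).1 (Gz G z).2) =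
          coeff i (Psi x₀ y₀ (Gz G z).1 (Gz G z).2) + if i = p + q + 2 * j then
            br (coeff (p + j) (Gz G z).1) (cf (q + j) v) +
            br (cf (p + j) u) (coeff (q + j) (Gz G z).2) else 0 :=
      fun z i hi => hDIF r p q j x₀ y₀ u v _ _ hp hq hj hx₀ hy₀ hu hv (hord1 z) (hord2 z) i hi
    have hbr0 : ∀ f : T (Fin r), br 0 f = 0 ∧ br f 0 = 0 := by
      intro f
      unfold br
      simp
    refine hC2G r p q j (x₀ * u) (y₀ * v) (Gz G z).1 (Gz G z).2 (Gz G z').1 (Gz G z').2 hp hj hpq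
      hDx hDy (by rw [hcx]; exact ha0) (by rw [hcy]; exact hb0) (hPP1 z) (hPP2 z) (hPP1 z')
      (hPP2 z') (hord1 z) (hord2 z) hord1' hord2' hs0 ?_ ?_ ?_
    · intro i hi
      by_cases h1 : i < p + q + j
      · exact hlow z i h1
      · rw [hdif z i hi]
        exact hrowz i (by omega) hi
    · intro i hi
      by_cases h1 : i < p + q + j
      · exact hlow z' i h1
      · rw [hdif z' i (by omega), hrowz' i (by omega) (by omega), if_neg (by omega),
          if_neg (by omega), add_zero]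
    · rw [hdif z' _ le_rfl, hrowz' _ (by omega) le_rfl, if_pos rfl, if_pos rfl, hs', ht',
        (hbr0 _).1, (hbr0 _).2, add_zero, add_zero]


theorem PP_zero {ι : Type} : PP (0 : PS (T ι)) := by
  intro i
  rw [map_zero]
  exact PH_zero i

theorem ordge_zero {A : Type} [Ring A] (k : ℕ) : ordge k (0 : PS A) := by
  intro i _
  rw [map_zero]

theorem Pc_tr1 (hBAS : S_BAS) (hPSO : S_PSO) {r p q j : ℕ} (hp : 1 ≤ p) (hq : 1 ≤ q)
    {x₀ y₀ e : FreeGroup (Fin r)} (hx : D p x₀) (hy : D q y₀) {i : ℕ}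
    (hi : i ≤ p + q + 2 * j) :
    coeff i (Psi x₀ y₀ (mag e - 1) 0) = Pc x₀ y₀ i (tr (p + j) e, 0) := by
  have h1 : Pc x₀ y₀ i (mag e - 1, 0) - Pc x₀ y₀ i (tr (p + j) e, 0) =
      Pc x₀ y₀ i (mag e - 1 - tr (p + j) e, 0) := by
    rw [← map_sub, Prod.mk_sub_mk, sub_zero]
  have h2 : ordge (p + (p + 2 * j)) (mag e - 1 - tr (p + j) e) := by
    have := tr_rest hBAS (p + j) e
    have e1 : p + (p + 2 * j) = 2 * (p + j) := by ring
    rw [e1]
    exact this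
  have h3 := (hPSO r p q (p + 2 * j) x₀ y₀ _ 0 hp hq hx hy h2 (ordge_zero _)).1 i (by omega)
  have h4 : Pc x₀ y₀ i (mag e - 1 - tr (p + j) e, 0) = 0 := h3
  rw [h4, sub_eq_zero] at h1
  exact h1

theorem Pc_tr2 (hBAS : S_BAS) (hPSO : S_PSO) {r p q j : ℕ} (hp : 1 ≤ p) (hq : 1 ≤ q)
    {x₀ y₀ e : FreeGroup (Fin r)} (hx : D p x₀) (hy : D q y₀) {i : ℕ}
    (hi : i ≤ p + q + 2 * j) :
    coeff i (Psi x₀ y₀ 0 (mag e - 1)) = Pc x₀ y₀ i (0, tr (q + j) e) := by
  have h1 : Pc x₀ y₀ i (0, mag e - 1) - Pc x₀ y₀ i (0, tr (q + j) e) =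
      Pc x₀ y₀ i (0, mag e - 1 - tr (q + j) e) := by
    rw [← map_sub, Prod.mk_sub_mk, sub_zero]
  have h2 : ordge (q + (q + 2 * j)) (mag e - 1 - tr (q + j) e) := by
    have := tr_rest hBAS (q + j) e
    have e1 : q + (q + 2 * j) = 2 * (q + j) := by ring
    rw [e1]
    exact this
  have h3 := (hPSO r p q (q + 2 * j) x₀ y₀ 0 _ hp hq hx hy (ordge_zero _) h2).1 i (by omega)
  have h4 : Pc x₀ y₀ i (0, mag e - 1 - tr (q + j) e) = 0 := h3
  rw [h4, sub_eq_zero] at h1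
  exact h1

theorem Psi_cf1 (hLIN : S_LIN) {r p q j : ℕ} (hp : 1 ≤ p) (hq : 1 ≤ q) (hj : 1 ≤ j)
    {x₀ y₀ e : FreeGroup (Fin r)} (hx : D p x₀) (hy : D q y₀) (he : D (p + j) e) {i : ℕ}
    (hi1 : 1 ≤ i) (hi : i ≤ p + q + 2 * j) :
    coeff i (Psi x₀ y₀ (mag e - 1) 0) = cf i ((cm x₀ y₀)⁻¹ * cm (x₀ * e) y₀) := by
  have h := (hLIN r p q j x₀ y₀ e 1 hp hq hj hx hy he (D_one _)).2 i hi1 hi
  rw [mul_one, mag_one, sub_self] at h
  rw [h]
  unfold br
  rw [mul_zero, zero_mul, sub_zero, add_zero]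

theorem Psi_cf2 (hLIN : S_LIN) {r p q j : ℕ} (hp : 1 ≤ p) (hq : 1 ≤ q) (hj : 1 ≤ j)
    {x₀ y₀ e : FreeGroup (Fin r)} (hx : D p x₀) (hy : D q y₀) (he : D (q + j) e) {i : ℕ}
    (hi1 : 1 ≤ i) (hi : i ≤ p + q + 2 * j) :
    coeff i (Psi x₀ y₀ 0 (mag e - 1)) = cf i ((cm x₀ y₀)⁻¹ * cm x₀ (y₀ * e)) := by
  have h := (hLIN r p q j x₀ y₀ 1 e hp hq hj hx hy (D_one _) he).2 i hi1 hi
  rw [mul_one, mag_one, sub_self] at h
  rw [h]
  unfold br
  rw [mul_zero, zero_mul, sub_zero, add_zero]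

/-- integrality and size of a coefficient -/
theorem int_size (hINT : S_INT) (hNM : S_NM) {r N Cm : ℕ}
    (hsize : ∀ k ≤ N, ∀ x : FreeGroup (Fin r), nm (cf k x) ≤ Cm * ((len x : ℝ) + 1) ^ N)
    {i M a : ℕ} (hi : i ≤ N) (x : FreeGroup (Fin r)) (hM : len x + 1 ≤ M)
    (w : FreeMonoid (Fin r)) (ha : 1 ≤ a) :
    ∃ z : ℤ, ((N.factorial : ℕ) : ℝ) ^ a * (cf i x).coeff w = z ∧
      |z| ≤ ((N.factorial ^ a * Cm * M ^ N : ℕ) : ℤ) := by
  obtain ⟨z, hz⟩ := hINT (Fin r) i x w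
  obtain ⟨t, ht⟩ := Nat.factorial_dvd_factorial hi
  obtain ⟨b, rfl⟩ : ∃ b, a = b + 1 := ⟨a - 1, by omega⟩
  have hval : ((N.factorial : ℕ) : ℝ) ^ (b + 1) * (cf i x).coeff w =
      ((((N.factorial : ℕ) : ℤ) ^ b * t * z : ℤ) : ℝ) := by
    have h1 : ((N.factorial : ℕ) : ℝ) = (i.factorial : ℝ) * t := by
      rw [ht]; push_cast; rfl
    rw [pow_succ]
    have h2 : ((N.factorial : ℕ) : ℝ) ^ b * ((N.factorial : ℕ) : ℝ) * (cf i x).coeff w =
        ((N.factorial : ℕ) : ℝ) ^ b * t * ((i.factorial : ℝ) * (cf i x).coeff w) := by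
      conv_lhs => rw [mul_assoc, h1]
      rw [h1]
      ring
    rw [h2, hz]
    push_cast
    rfl
  refine ⟨_, hval, ?_⟩
  have h3 : ((|(((N.factorial : ℕ) : ℤ) ^ b * t * z : ℤ)| : ℤ) : ℝ) ≤
      (((N.factorial ^ (b + 1) * Cm * M ^ N : ℕ) : ℤ) : ℝ) := by
    rw [Int.cast_abs, ← hval, abs_mul, abs_of_nonneg (by positivity)]
    have h4 := (hNM (Fin r) (cf i x) 0 0).2.2.2.2.2.1 w
    have h5 := hsize i hi x
    have h6 : ((len x : ℝ) + 1) ^ N ≤ (M : ℝ) ^ N := by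
      refine pow_le_pow_left₀ (by positivity) ?_ N
      exact_mod_cast hM
    have h7 : |(cf i x).coeff w| ≤ Cm * (M : ℝ) ^ N :=
      h4.trans (h5.trans (mul_le_mul_of_nonneg_left h6 (Nat.cast_nonneg _)))
    calc ((N.factorial : ℕ) : ℝ) ^ (b + 1) * |(cf i x).coeff w|
        ≤ ((N.factorial : ℕ) : ℝ) ^ (b + 1) * (Cm * (M : ℝ) ^ N) :=
          mul_le_mul_of_nonneg_left h7 (by positivity)
      _ = _ := by push_cast; ring
  exact_mod_cast h3

theorem core (hBAS : S_BAS) (hGRP : S_GRP) (hINT : S_INT) (hSIZ : S_SIZ) (hGENP : S_GENP)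
    (hNM : S_NM) (hLIN : S_LIN) (hPSO : S_PSO) (hDIF : S_DIF) (hEXP : S_EXP) (hP3 : S_P3)
    (hP3U : S_P3U) (hQB : S_QB) (hC2G : S_C2G) (r p q j : ℕ) (hp : 1 ≤ p) (hj : 1 ≤ j)
    (hpq : p + j < q) :
    ∃ C E : ℕ, ∀ (B : ℕ) (x₀ y₀ u v g : FreeGroup (Fin r)), 1 ≤ B → D p x₀ → D q y₀ →
      D (p + j) u → D (q + j) v → cf p x₀ ≠ 0 → cf q y₀ ≠ 0 →
      (∀ i, 1 ≤ i → i ≤ p + q + 2 * j → cf i ((cm x₀ y₀)⁻¹ * cm (x₀ * u) (y₀ * v)) =
        cf i ((cm x₀ y₀)⁻¹ * g)) → len x₀ ≤ B → len y₀ ≤ B → len g ≤ B →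
      nm (cf (p + j) u) ≤ C * (B : ℝ) ^ E ∧ nm (cf (q + j) v) ≤ C * (B : ℝ) ^ E := by
  classical
  have hq : 1 ≤ q := by omega
  obtain ⟨n₁, e, he, hgen₁⟩ := hGENP r (p + j) (p + q + 2 * j) (by omega)
  obtain ⟨n₂, f, hf, hgen₂⟩ := hGENP r (q + j) (p + q + 2 * j) (by omega)
  choose Cs hCs using hSIZ r
  obtain ⟨N, hN⟩ : ∃ N, N = p + q + 2 * j := ⟨_, rfl⟩
  obtain ⟨Cm, hCm⟩ : ∃ Cm, Cm = ∑ k ∈ Finset.range (N + 1), Cs k := ⟨_, rfl⟩
  have hsize : ∀ k ≤ N, ∀ x : FreeGroup (Fin r), nm (cf k x) ≤ Cm * ((len x : ℝ) + 1) ^ N := by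
    intro k hk x
    have h1 : (Cs k : ℝ) ≤ Cm := by
      have : Cs k ≤ Cm := by
        rw [hCm]
        exact Finset.single_le_sum (f := Cs) (fun _ _ => Nat.zero_le _)
          (Finset.mem_range.mpr (by omega))
      exact_mod_cast this
    have h2 : ((len x : ℝ) + 1) ^ k ≤ ((len x : ℝ) + 1) ^ N :=
      pow_le_pow_right₀ (by linarith [(Nat.cast_nonneg (len x) : (0 : ℝ) ≤ len x)]) hk
    calc nm (cf k x) ≤ Cs k * ((len x : ℝ) + 1) ^ k := hCs k x
      _ ≤ Cm * ((len x : ℝ) + 1) ^ N := mul_le_mul h1 h2 (by positivity) (Nat.cast_nonneg _)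
  obtain ⟨Le, hLe⟩ : ∃ Le, Le = ∑ k, len (e k) + ∑ l, len (f l) := ⟨_, rfl⟩
  have hLe1 : ∀ k, len (e k) ≤ Le := by
    intro k
    have := Finset.single_le_sum (f := fun k => len (e k)) (fun _ _ => Nat.zero_le _)
      (Finset.mem_univ k)
    rw [hLe]
    exact this.trans (by omega)
  have hLf1 : ∀ k, len (f k) ≤ Le := by
    intro k
    have := Finset.single_le_sum (f := fun k => len (f k)) (fun _ _ => Nat.zero_le _)
      (Finset.mem_univ k)
    rw [hLe]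
    exact this.trans (by omega)
  obtain ⟨C, E, hc⟩ := core2 hBAS hGRP hPSO hDIF hP3 hP3U hQB hC2G r p q j hp hj hpq
    (Fin n₁ ⊕ Fin n₂) N.factorial (Nat.factorial_pos N)
  obtain ⟨C₁, hC₁⟩ : ∃ C₁ : ℕ, C₁ = N.factorial ^ 2 * Cm * (10 + 2 * Le) ^ N + 1 := ⟨_, rfl⟩
  refine ⟨Fintype.card (Wd r (p + q + 2 * j)) * (C * C₁ ^ E), N * E, ?_⟩
  intro B x₀ y₀ u v g hB hx₀ hy₀ hu hv ha0 hb0 hsol hlx hly hlg
  obtain ⟨m₁, hm₁⟩ := hgen₁ u hu
  obtain ⟨m₂, hm₂⟩ := hgen₂ v hv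
  obtain ⟨hX1, hX2, hX3⟩ := hEXP r p q j (p + q + 2 * j) n₁ n₂ x₀ y₀ u v e f m₁ m₂ hp hq hj
    (by omega) le_rfl hx₀ hy₀ he hf hm₁ hm₂
  obtain ⟨G, hG⟩ : ∃ G : Fin n₁ ⊕ Fin n₂ → PS (T (Fin r)) × PS (T (Fin r)),
    G = Sum.elim (fun k => (tr (p + j) (e k), 0)) (fun l => (0, tr (q + j) (f l))) := ⟨_, rfl⟩
  have hG1 : ∀ k, G (Sum.inl k) = (tr (p + j) (e k), 0) := fun k => by rw [hG]; rfl
  have hG2 : ∀ k, G (Sum.inr k) = (0, tr (q + j) (f k)) := fun k => by rw [hG]; rfl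
  have hP1 : ∀ k i, 1 ≤ i → i ≤ p + q + 2 * j → Pc x₀ y₀ i (G (Sum.inl k)) =
      cf i ((cm x₀ y₀)⁻¹ * cm (x₀ * e k) y₀) := by
    intro k i h1 h2
    rw [hG1, ← Pc_tr1 hBAS hPSO hp hq hx₀ hy₀ h2, Psi_cf1 hLIN hp hq hj hx₀ hy₀ (he k) h1 h2]
  have hP2 : ∀ k i, 1 ≤ i → i ≤ p + q + 2 * j → Pc x₀ y₀ i (G (Sum.inr k)) =
      cf i ((cm x₀ y₀)⁻¹ * cm x₀ (y₀ * f k)) := by
    intro k i h1 h2
    rw [hG2, ← Pc_tr2 hBAS hPSO hp hq hx₀ hy₀ h2, Psi_cf2 hLIN hp hq hj hx₀ hy₀ (hf k) h1 h2]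
  have hIsH := (hBAS (Fin r)).2.2.2.2.2.2.2.2.2.1
  -- sizes
  have hB' : N.factorial ^ 2 * Cm * ((10 + 2 * Le) * B) ^ N ≤ C₁ * B ^ N := by
    rw [hC₁, mul_pow]
    calc N.factorial ^ 2 * Cm * ((10 + 2 * Le) ^ N * B ^ N) =
          (N.factorial ^ 2 * Cm * (10 + 2 * Le) ^ N) * B ^ N := by ring
      _ ≤ (N.factorial ^ 2 * Cm * (10 + 2 * Le) ^ N + 1) * B ^ N :=
          Nat.mul_le_mul_right _ (Nat.le_succ _)
  have hsz2 : ∀ i, i ≤ p + q + 2 * j → ∀ x : FreeGroup (Fin r),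
      len x + 1 ≤ (10 + 2 * Le) * B → ∀ w, ∃ z : ℤ,
      ((N.factorial : ℕ) : ℝ) ^ 2 * (cf i x).coeff w = z ∧ |z| ≤ ((C₁ * B ^ N : ℕ) : ℤ) := by
    intro i hi x hx w
    have hiN : i ≤ N := by omega
    obtain ⟨z, hz1, hz2⟩ := int_size hINT hNM hsize hiN x hx w (a := 2) (by norm_num)
    exact ⟨z, hz1, hz2.trans (by exact_mod_cast hB')⟩
  have hsz1 : ∀ i, i ≤ p + q + 2 * j → ∀ x : FreeGroup (Fin r),
      len x + 1 ≤ (10 + 2 * Le) * B → ∀ w, ∃ z : ℤ,
      ((N.factorial : ℕ) : ℝ) * (cf i x).coeff w = z ∧ |z| ≤ ((C₁ * B ^ N : ℕ) : ℤ) := by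
    intro i hi x hx w
    have hiN : i ≤ N := by omega
    obtain ⟨z, hz1, hz2⟩ := int_size hINT hNM hsize hiN x hx w (a := 1) le_rfl
    rw [pow_one] at hz1
    refine ⟨z, hz1, hz2.trans ?_⟩
    have h1 : N.factorial ^ 1 * Cm * ((10 + 2 * Le) * B) ^ N ≤
        N.factorial ^ 2 * Cm * ((10 + 2 * Le) * B) ^ N := by
      refine Nat.mul_le_mul_right _ (Nat.mul_le_mul_right _ ?_)
      exact Nat.pow_le_pow_right (Nat.factorial_pos N) (by norm_num)
    exact_mod_cast h1.trans hB'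
  have hzero : ∃ z : ℤ, (0 : ℝ) = z ∧ |z| ≤ ((C₁ * B ^ N : ℕ) : ℤ) :=
    ⟨0, by simp, by rw [abs_zero]; exact Int.natCast_nonneg _⟩
  have hlc := len_cm x₀ y₀
  have hlinv := len_inv (cm x₀ y₀)
  have hBL : 2 * Le ≤ 2 * Le * B := Nat.le_mul_of_pos_right _ hB
  have hexp : (10 + 2 * Le) * B = 10 * B + 2 * Le * B := by ring
  have hl1 : ∀ k, len ((cm x₀ y₀)⁻¹ * cm (x₀ * e k) y₀) + 1 ≤ (10 + 2 * Le) * B := by
    intro k
    have h1 := len_mul (cm x₀ y₀)⁻¹ (cm (x₀ * e k) y₀)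
    have h2 := len_cm (x₀ * e k) y₀
    have h3 := len_mul x₀ (e k)
    have h4 := hLe1 k
    omega
  have hl2 : ∀ k, len ((cm x₀ y₀)⁻¹ * cm x₀ (y₀ * f k)) + 1 ≤ (10 + 2 * Le) * B := by
    intro k
    have h1 := len_mul (cm x₀ y₀)⁻¹ (cm x₀ (y₀ * f k))
    have h2 := len_cm x₀ (y₀ * f k)
    have h3 := len_mul y₀ (f k)
    have h4 := hLf1 k
    omega
  have hl3 : len ((cm x₀ y₀)⁻¹ * g) + 1 ≤ (10 + 2 * Le) * B := by
    have h1 := len_mul (cm x₀ y₀)⁻¹ g
    omega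
  have hl4 : ∀ k, len (e k) + 1 ≤ (10 + 2 * Le) * B := by
    intro k
    have h4 := hLe1 k
    omega
  have hl5 : ∀ k, len (f k) + 1 ≤ (10 + 2 * Le) * B := by
    intro k
    have h4 := hLf1 k
    omega
  have hfin := hc (C₁ * B ^ N) x₀ y₀ u v G (Sum.elim m₁ m₂)
    (fun i => cf i ((cm x₀ y₀)⁻¹ * g)) ?_ hx₀ hy₀ hu hv ha0 hb0 ?_ ?_ ?_ ?_ ?_ ?_ ?_ ?_ ?_
  · -- conclusion
    have hcast : ((C * (C₁ * B ^ N : ℕ) ^ E : ℕ) : ℝ) = (C : ℝ) * C₁ ^ E * (B : ℝ) ^ (N * E) := by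
      push_cast
      rw [mul_pow, ← pow_mul]
      ring
    have hFone : (1 : ℝ) ≤ (N.factorial : ℕ) := by exact_mod_cast Nat.factorial_pos N
    have hone : ∀ a : ℝ, |a| ≤ |((N.factorial : ℕ) : ℝ) * a| := by
      intro a
      rw [abs_mul, Nat.abs_cast]
      have := mul_le_mul_of_nonneg_right hFone (abs_nonneg a)
      rw [one_mul] at this
      exact this
    have huIsH : IsH (fun _ => 1) (p + j) (cf (p + j) u) := hIsH _ _
    have hvIsH : IsH (fun _ => 1) (q + j) (cf (q + j) v) := hIsH _ _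
    have hcc : ∀ w : Wd r (p + q + 2 * j), |(cf (p + j) u).coeff w.1| ≤
        (C : ℝ) * C₁ ^ E * (B : ℝ) ^ (N * E) ∧ |(cf (q + j) v).coeff w.1| ≤
        (C : ℝ) * C₁ ^ E * (B : ℝ) ^ (N * E) := by
      intro w
      obtain ⟨h1, h2⟩ := hfin w
      rw [← hcast]
      constructor
      · refine (hone _).trans (h1.trans (le_of_eq ?_))
        push_cast
        rfl
      · refine (hone _).trans (h2.trans (le_of_eq ?_))
        push_cast
        rfl
    have hsum : ∀ f : Wd r (p + q + 2 * j) → ℝ, (∀ w, f w ≤ (C : ℝ) * C₁ ^ E *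
        (B : ℝ) ^ (N * E)) → ∑ w, f w ≤
        ((Fintype.card (Wd r (p + q + 2 * j)) * (C * C₁ ^ E) : ℕ) : ℝ) * (B : ℝ) ^ (N * E) := by
      intro f hf
      refine (Finset.sum_le_card_nsmul _ _ _ (fun w _ => hf w)).trans (le_of_eq ?_)
      rw [nsmul_eq_mul, Finset.card_univ]
      push_cast
      ring
    constructor
    · rw [nm_eq (N := p + q + 2 * j) huIsH (by omega)]
      exact hsum _ (fun w => (hcc w).1)
    · rw [nm_eq (N := p + q + 2 * j) hvIsH (by omega)]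
      exact hsum _ (fun w => (hcc w).2)
  · -- positivity
    rw [hC₁]
    exact Nat.one_le_iff_ne_zero.mpr (by positivity)
  · -- PP, order
    intro k
    rcases k with k | k
    · rw [hG1]
      exact ⟨tr_PP hGRP _ _ (he k), PP_zero, tr_ord _ _ (he k), ordge_zero _⟩
    · rw [hG2]
      exact ⟨PP_zero, tr_PP hGRP _ _ (hf k), ordge_zero _, tr_ord _ _ (hf k)⟩
  · intro i h1 h2 k
    rcases k with k | k
    · rw [hP1 k i (by omega) h2]
      exact hIsH _ _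
    · rw [hP2 k i (by omega) h2]
      exact hIsH _ _
  · intro k w
    rcases k with k | k
    · rw [hG1, tr_lead _ (by omega)]
      exact hsz1 _ (by omega) _ (hl4 k) w
    · rw [hG2]
      show ∃ z : ℤ, (N.factorial : ℝ) * (coeff (p + j) (0 : PS (T (Fin r)))).coeff w = z ∧ _
      rw [map_zero, MonoidAlgebra.coeff_zero, Finsupp.zero_apply, mul_zero]
      exact hzero
  · intro k w
    rcases k with k | k
    · rw [hG1]
      show ∃ z : ℤ, (N.factorial : ℝ) * (coeff (q + j) (0 : PS (T (Fin r)))).coeff w = z ∧ _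
      rw [map_zero, MonoidAlgebra.coeff_zero, Finsupp.zero_apply, mul_zero]
      exact hzero
    · rw [hG2, tr_lead _ (by omega)]
      exact hsz1 _ (by omega) _ (hl5 k) w
  · intro i h1 h2 k w
    rcases k with k | k
    · rw [hP1 k i (by omega) h2]
      exact hsz2 _ h2 _ (hl1 k) w
    · rw [hP2 k i (by omega) h2]
      exact hsz2 _ h2 _ (hl2 k) w
  · intro i h1 h2 w
    exact hsz2 _ h2 _ hl3 w
  · -- leading term of `u`
    rw [Fintype.sum_sum_type, hX1]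
    have h1 : ∑ k : Fin n₂, ((Sum.elim m₁ m₂ (Sum.inr k) : ℤ) : ℝ) •
        coeff (p + j) (G (Sum.inr k)).1 = 0 := by
      refine Finset.sum_eq_zero fun k _ => ?_
      rw [hG2]
      show _ • coeff (p + j) (0 : PS (T (Fin r))) = 0
      rw [map_zero, smul_zero]
    rw [h1, add_zero]
    refine Finset.sum_congr rfl fun k _ => ?_
    rw [hG1, tr_lead _ (by omega)]
    rfl
  · -- leading term of `v`
    rw [Fintype.sum_sum_type, hX2 (by omega)]
    have h1 : ∑ k : Fin n₁, ((Sum.elim m₁ m₂ (Sum.inl k) : ℤ) : ℝ) •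
        coeff (q + j) (G (Sum.inl k)).2 = 0 := by
      refine Finset.sum_eq_zero fun k _ => ?_
      rw [hG1]
      show _ • coeff (q + j) (0 : PS (T (Fin r))) = 0
      rw [map_zero, smul_zero]
    rw [h1, zero_add]
    refine Finset.sum_congr rfl fun k _ => ?_
    rw [hG2, tr_lead _ (by omega)]
    rfl
  · -- the equation
    intro i h1 h2
    have hA : ∑ k : Fin n₁, ((Sum.elim m₁ m₂ (Sum.inl k) : ℤ) : ℝ) •
        Pc x₀ y₀ i (G (Sum.inl k)) =
        ∑ k, (m₁ k : ℝ) • coeff i (Psi x₀ y₀ (mag (e k) - 1) 0) := by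
      refine Finset.sum_congr rfl fun k _ => ?_
      rw [Pc_tr1 hBAS hPSO hp hq hx₀ hy₀ h2, hG1, Sum.elim_inl]
    have hA2 : ∑ k : Fin n₂, ((Sum.elim m₁ m₂ (Sum.inr k) : ℤ) : ℝ) •
        Pc x₀ y₀ i (G (Sum.inr k)) =
        ∑ k, (m₂ k : ℝ) • coeff i (Psi x₀ y₀ 0 (mag (f k) - 1)) := by
      refine Finset.sum_congr rfl fun k _ => ?_
      rw [Pc_tr2 hBAS hPSO hp hq hx₀ hy₀ h2, hG2, Sum.elim_inr]
    show _ = cf i ((cm x₀ y₀)⁻¹ * g)
    rw [← hsol i (by omega) h2, hX3 i (by omega) h2, Fintype.sum_sum_type, hA, hA2]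


theorem approx (hBAS : S_BAS) {r k n D₁ : ℕ} (hk : 1 ≤ k) (e : Fin n → FreeGroup (Fin r))
    (he : ∀ i, D k (e i)) (hgen : ∀ x, D k x → ∃ m : Fin n → ℤ,
      cf k x = ∑ i, (m i : ℝ) • cf k (e i) ∧ ∀ i, |(m i : ℝ)| ≤ D₁ * nm (cf k x))
    (u : FreeGroup (Fin r)) (hu : D k u) (M : ℕ) (hM : nm (cf k u) ≤ M) :
    ∃ u₀, D (k + 1) (u₀⁻¹ * u) ∧ len u₀ ≤ (∑ i, len (e i)) * (D₁ * M) := by
  obtain ⟨m, hm1, hm2⟩ := hgen u hu
  obtain ⟨h1, h2⟩ := lead_prod hBAS hk e m he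
  refine ⟨(List.ofFn fun i => e i ^ m i).prod, ?_, ?_⟩
  · obtain ⟨-, -, -, -, -, -, -, -, -, -, hiff⟩ := hBAS (Fin r)
    refine (hiff k _ u).mp ?_
    intro i hi1 hi2
    rcases Nat.lt_or_ge i k with h | h
    · rw [h1 i hi1 h, hu i hi1 h]
    · have : i = k := by omega
      subst this
      rw [h2, hm1]
  · refine (len_prod e m).trans ?_
    rw [Finset.sum_mul]
    refine Finset.sum_le_sum fun i _ => ?_
    rw [mul_comm]
    refine Nat.mul_le_mul_left _ ?_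
    have h3 := (hm2 i).trans (mul_le_mul_of_nonneg_left hM (Nat.cast_nonneg D₁))
    have h4 : (((m i).natAbs : ℕ) : ℝ) ≤ ((D₁ * M : ℕ) : ℝ) := by
      rw [Nat.cast_natAbs, Int.cast_abs, Nat.cast_mul]
      exact h3
    exact_mod_cast h4

/-- the arithmetic of the bounds -/
theorem arith (C E C' E' L₁ L₂ D₁ D₂ n B l l' : ℕ) (hn : 1 ≤ n)
    (hB : B = C * n ^ E + n) (hl : l ≤ B)
    (hl' : l' ≤ L₁ * (D₁ * (C' * B ^ E')) ∨ l' ≤ L₂ * (D₂ * (C' * B ^ E'))) :
    l + l' ≤ (1 + L₁ * (D₁ * C') + L₂ * (D₂ * C')) * (C + 1) ^ (E' + 1) *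
      n ^ ((E + 1) * (E' + 1)) := by
  have hB1 : 1 ≤ B := by omega
  have hBE : B ^ E' ≤ B ^ (E' + 1) := Nat.pow_le_pow_right hB1 (Nat.le_succ _)
  have hBB : B ≤ B ^ (E' + 1) := by
    calc B = B ^ 1 := (pow_one _).symm
      _ ≤ _ := Nat.pow_le_pow_right hB1 (by omega)
  have h1 : l' ≤ (L₁ * (D₁ * C') + L₂ * (D₂ * C')) * B ^ (E' + 1) := by
    rcases hl' with h | h
    · calc l' ≤ L₁ * (D₁ * (C' * B ^ E')) := h
        _ = L₁ * (D₁ * C') * B ^ E' := by ring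
        _ ≤ L₁ * (D₁ * C') * B ^ (E' + 1) := Nat.mul_le_mul_left _ hBE
        _ ≤ _ := Nat.mul_le_mul_right _ (Nat.le_add_right _ _)
    · calc l' ≤ L₂ * (D₂ * (C' * B ^ E')) := h
        _ = L₂ * (D₂ * C') * B ^ E' := by ring
        _ ≤ L₂ * (D₂ * C') * B ^ (E' + 1) := Nat.mul_le_mul_left _ hBE
        _ ≤ _ := Nat.mul_le_mul_right _ (Nat.le_add_left _ _)
  have h2 : B ≤ (C + 1) * n ^ (E + 1) := by
    rw [hB, add_mul, one_mul]
    refine Nat.add_le_add (Nat.mul_le_mul_left _ (Nat.pow_le_pow_right hn (Nat.le_succ _))) ?_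
    calc n = n ^ 1 := (pow_one _).symm
      _ ≤ _ := Nat.pow_le_pow_right hn (by omega)
  have h3 : B ^ (E' + 1) ≤ (C + 1) ^ (E' + 1) * n ^ ((E + 1) * (E' + 1)) := by
    rw [pow_mul, ← mul_pow]
    exact Nat.pow_le_pow_left h2 _
  calc l + l' ≤ B ^ (E' + 1) + (L₁ * (D₁ * C') + L₂ * (D₂ * C')) * B ^ (E' + 1) :=
        Nat.add_le_add (hl.trans hBB) h1
    _ = (1 + L₁ * (D₁ * C') + L₂ * (D₂ * C')) * B ^ (E' + 1) := by ring
    _ ≤ (1 + L₁ * (D₁ * C') + L₂ * (D₂ * C')) * ((C + 1) ^ (E' + 1) *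
        n ^ ((E + 1) * (E' + 1))) := Nat.mul_le_mul_left _ h3
    _ = _ := by rw [mul_assoc]

end TP3STEP

open TP3STEP in
/-- The step of the levels `p + j < q`. -/
theorem t_P3STEP (hBAS : S_BAS) (hGRP : S_GRP) (hINT : S_INT) (hSIZ : S_SIZ) (hGEN : S_GEN)
    (hGENP : S_GENP) (hNM : S_NM) (hLIN : S_LIN) (hPSO : S_PSO) (hDIF : S_DIF) (hEXP : S_EXP)
    (hP3 : S_P3) (hP3U : S_P3U) (hQB : S_QB) (hC2G : S_C2G) : S_P3STEP := by
  intro r c p q j hp hj hpq hN hHL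
  obtain ⟨C, E, hHL⟩ := hHL
  obtain ⟨C', E', hcore⟩ := core hBAS hGRP hINT hSIZ hGENP hNM hLIN hPSO hDIF hEXP hP3 hP3U hQB
    hC2G r p q j hp hj hpq
  obtain ⟨n₁, D₁, e, he, -, hgen₁⟩ := hGEN r (p + j) (by omega)
  obtain ⟨n₂, D₂, f, hf, -, hgen₂⟩ := hGEN r (q + j) (by omega)
  refine ⟨(1 + (∑ i, len (e i)) * (D₁ * C') + (∑ i, len (f i)) * (D₂ * C')) *
    (C + 1) ^ (E' + 1), (E + 1) * (E' + 1), ?_⟩
  intro g hg
  obtain ⟨x, y, x₀, y₀, hT, hS, hx1, hy1, hlx, hly⟩ := hHL g hg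
  obtain ⟨hDx, hDy, hbr⟩ := hT
  obtain ⟨-, -, hmul, hinv, -, hadd, -, -, -, -, hiff⟩ := hBAS (Fin r)
  obtain ⟨u, hu⟩ : ∃ u, u = x₀⁻¹ * x := ⟨_, rfl⟩
  obtain ⟨v, hv⟩ : ∃ v, v = y₀⁻¹ * y := ⟨_, rfl⟩
  have hxu : x = x₀ * u := by rw [hu, mul_inv_cancel_left]
  have hyv : y = y₀ * v := by rw [hv, mul_inv_cancel_left]
  rw [← hu] at hx1
  rw [← hv] at hy1
  have hx₀ : D p x₀ := by
    have h1 : x₀ = x * u⁻¹ := by rw [hxu, mul_inv_cancel_right]
    rw [h1]
    exact hmul p _ _ hDx (hinv p _ (D_mono (by omega) hx1))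
  have hy₀ : D q y₀ := by
    have h1 : y₀ = y * v⁻¹ := by rw [hyv, mul_inv_cancel_right]
    rw [h1]
    exact hmul q _ _ hDy (hinv q _ (D_mono (by omega) hy1))
  have hcx : cf p x = cf p x₀ := by
    rw [hxu, hadd p (p + j) x₀ u hx₀ hx1 p hp (by omega), hx1 p hp (by omega), add_zero]
  have hcy : cf q y = cf q y₀ := by
    rw [hyv, hadd q (q + j) y₀ v hy₀ hy1 q (by omega) (by omega), hy1 q (by omega) (by omega),
      add_zero]
  have ha0 : cf p x₀ ≠ 0 := by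
    intro h
    apply hbr
    rw [hcx, h]
    unfold br
    rw [zero_mul, mul_zero, sub_zero]
  have hb0 : cf q y₀ ≠ 0 := by
    intro h
    apply hbr
    rw [hcy, h]
    unfold br
    rw [zero_mul, mul_zero, sub_zero]
  obtain ⟨B, hB⟩ : ∃ B, B = C * (len g + 1) ^ E + (len g + 1) := ⟨_, rfl⟩
  have hsol : ∀ i, 1 ≤ i → i ≤ p + q + 2 * j →
      cf i ((cm x₀ y₀)⁻¹ * cm (x₀ * u) (y₀ * v)) = cf i ((cm x₀ y₀)⁻¹ * g) := by
    intro i h1 h2
    rw [← hxu, ← hyv]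
    refine ((hiff c ((cm x₀ y₀)⁻¹ * g) ((cm x₀ y₀)⁻¹ * cm x y)).mpr ?_ i h1 (by omega)).symm
    have h3 : ((cm x₀ y₀)⁻¹ * g)⁻¹ * ((cm x₀ y₀)⁻¹ * cm x y) = g⁻¹ * cm x y := by group
    rw [h3]
    exact hS
  obtain ⟨hnu, hnv⟩ := hcore B x₀ y₀ u v g (by omega) hx₀ hy₀ hx1 hy1 ha0 hb0 hsol (by omega)
    (by omega) (by omega)
  obtain ⟨u₀, hu₀, hlu₀⟩ := approx hBAS (by omega) e he hgen₁ u hx1 (C' * B ^ E')
    (by rw [Nat.cast_mul, Nat.cast_pow]; exact hnu)
  obtain ⟨v₀, hv₀, hlv₀⟩ := approx hBAS (by omega) f hf hgen₂ v hy1 (C' * B ^ E')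
    (by rw [Nat.cast_mul, Nat.cast_pow]; exact hnv)
  refine ⟨x, y, x₀ * u₀, y₀ * v₀, ⟨hDx, hDy, hbr⟩, hS, ?_, ?_, ?_, ?_⟩
  · have h1 : (x₀ * u₀)⁻¹ * x = u₀⁻¹ * u := by rw [hu]; group
    rw [h1]
    exact hu₀
  · have h1 : (y₀ * v₀)⁻¹ * y = v₀⁻¹ * v := by rw [hv]; group
    rw [h1]
    exact hv₀
  · exact (len_mul _ _).trans (arith C E C' E' _ _ D₁ D₂ (len g + 1) B _ _ (by omega) hB
      (by omega) (Or.inl hlu₀))
  · exact (len_mul _ _).trans (arith C E C' E' _ _ D₁ D₂ (len g + 1) B _ _ (by omega) hB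
      (by omega) (Or.inr hlv₀))

end Pool.Agent.H32CE
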