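import Mathlib
import Pool.Agent.H32CE.St

set_option autoImplicit false

namespace Pool.Agent.H32CE

namespace TP3U

theorem ind {ι : Type} (P : T ι → Prop) (f : T ι) (h0 : P 0)
    (hadd : ∀ f g, P f → P g → P (f + g))
    (hs : ∀ m, f.coeff m ≠ 0 → ∀ r, P (MonoidAlgebra.single m r)) : P f := by
  rw [← MonoidAlgebra.sum_coeff_single f, Finsupp.sum]
  refine Finset.sum_induction _ P (fun _ _ => hadd _ _) h0 ?_
  intro m hm
  exact hs m (Finsupp.mem_support_iff.1 hm) _

theorem sub_single {ι : Type} {A : Type} [Ring A] [Algebra ℝ A] (e : ι → A) (m : FreeMonoid ι)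
    (r : ℝ) : sub e (MonoidAlgebra.single m r) = r • FreeMonoid.lift e m := by
  unfold sub
  rw [MonoidAlgebra.lift_single]

theorem sub_X {ι : Type} {A : Type} [Ring A] [Algebra ℝ A] (e : ι → A) (i : ι) :
    sub e (X i) = e i := by
  unfold X
  rw [sub_single, one_smul, FreeMonoid.lift_eval_of]

theorem sub_subst {ι κ : Type} {A : Type} [Ring A] [Algebra ℝ A] (e : ι → A) (f : κ → T ι)
    (U : T κ) : sub e (sub f U) = sub (fun i => sub e (f i)) U := by
  refine ind (fun U => sub e (sub f U) = sub (fun i => sub e (f i)) U) U (by simp) ?_ ?_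
  · intro f g h1 h2
    simp only [map_add, h1, h2]
  · intro m hm r
    clear hm
    rw [sub_single, map_smul, sub_single]
    congr 1
    induction m using FreeMonoid.inductionOn' with
    | one => simp
    | of_mul x xs ih => rw [map_mul, map_mul, map_mul, ih, FreeMonoid.lift_eval_of, FreeMonoid.lift_eval_of]

theorem wd_cons {ι : Type} (w : ι → ℕ) (x : ι) (m : FreeMonoid ι) :
    wd w (FreeMonoid.of x * m) = w x + wd w m := by
  simp [wd]

theorem wd_pos {ι : Type} (w : ι → ℕ) (hw : ∀ i, 1 ≤ w i) (m : FreeMonoid ι) (h : wd w m = 0) :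
    m = 1 := by
  induction m using FreeMonoid.casesOn with
  | one => rfl
  | of_mul x xs =>
    rw [wd_cons] at h
    have := hw x
    omega

theorem lemA {ι : Type} (p j : ℕ) (hp : 1 ≤ p) (hj : 1 ≤ j) (a s : T ι) (U : T (Fin 2))
    (hU : IsH ![p, p + j] (p + j) U) : ∃ (c : ℝ) (W : T ι), sub ![a, s] U = c • s + a * W := by
  refine ind (fun U => ∃ (c : ℝ) (W : T ι), sub ![a, s] U = c • s + a * W) U
    ⟨0, 0, by simp⟩ ?_ ?_
  · rintro f g ⟨c, W, h1⟩ ⟨c', W', h2⟩
    refine ⟨c + c', W + W', ?_⟩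
    rw [map_add, h1, h2, add_smul, mul_add]
    abel
  · intro m hm r
    have h1 := hU m hm
    induction m using FreeMonoid.casesOn with
    | one => simp [wd] at h1; omega
    | of_mul x xs =>
      rw [wd_cons] at h1
      fin_cases x
      · refine ⟨0, r • FreeMonoid.lift ![a, s] xs, ?_⟩
        rw [sub_single, map_mul, FreeMonoid.lift_eval_of]
        simp
      · have h2 : xs = 1 := by
          apply wd_pos ![p, p + j] (by intro i; fin_cases i <;> simp <;> omega)
          simp at h1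
          exact h1
        refine ⟨r, 0, ?_⟩
        rw [sub_single, map_mul, FreeMonoid.lift_eval_of, h2]
        simp

theorem lemB {ι : Type} (q : ℕ) (hq : 1 ≤ q) (w : Fin 2 → ℕ) (a : T ι) (U : T (Fin 2))
    (hU : IsH w q U) : ∃ W : T ι, sub ![a, 0] U = a * W := by
  refine ind (fun U => ∃ W : T ι, sub ![a, 0] U = a * W) U ⟨0, by simp⟩ ?_ ?_
  · rintro f g ⟨W, h1⟩ ⟨W', h2⟩
    exact ⟨W + W', by rw [map_add, h1, h2, mul_add]⟩
  · intro m hm r
    have h1 := hU m hm
    induction m using FreeMonoid.casesOn with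
    | one => simp [wd] at h1; omega
    | of_mul x xs =>
      fin_cases x
      · refine ⟨r • FreeMonoid.lift ![a, 0] xs, ?_⟩
        rw [sub_single, map_mul, FreeMonoid.lift_eval_of]
        simp
      · refine ⟨0, ?_⟩
        rw [sub_single, map_mul, FreeMonoid.lift_eval_of]
        simp

theorem isH_comb {ι : Type} {w : ι → ℕ} {k : ℕ} {f g : T ι} (hf : IsH w k f) (hg : IsH w k g)
    (c : ℝ) : IsH w k (f - c • g) := by
  intro m hm
  rw [MonoidAlgebra.coeff_sub, Finsupp.sub_apply, MonoidAlgebra.coeff_smul_apply] at hm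
  by_cases h1 : f.coeff m = 0
  · have h2 : g.coeff m ≠ 0 := by
      intro h2
      rw [h1, h2] at hm
      simp at hm
    exact hg m h2
  · exact hf m h1

theorem ph_comb {ι : Type} {k : ℕ} {f g : T ι} (hf : PH k f) (hg : PH k g)
    (c : ℝ) : PH k (f - c • g) := by
  refine ⟨isH_comb hf.1 hg.1 c, ?_⟩
  have h1 := hf.2
  have h2 := hg.2
  unfold Prim at h1 h2 ⊢
  rw [map_sub, map_smul, h1, h2, map_sub, map_smul, map_sub, map_smul, smul_add]
  abel

theorem isH_two {ι : Type} {w : ι → ℕ} {k l : ℕ} {f : T ι} (hf : IsH w k f) (hg : IsH w l f)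
    (hkl : k ≠ l) : f = 0 := by
  by_contra h
  obtain ⟨m, hm⟩ : ∃ m, f.coeff m ≠ 0 := by
    by_contra h1
    push Not at h1
    apply h
    rw [← MonoidAlgebra.coeff_eq_zero]
    ext m
    exact h1 m
  exact hkl ((hf m hm).symm.trans (hg m hm))

theorem isH_smul {ι : Type} {w : ι → ℕ} {k : ℕ} {f : T ι} (hf : IsH w k f) (c : ℝ) :
    IsH w k (c • f) := by
  intro m hm
  rw [MonoidAlgebra.coeff_smul_apply] at hm
  exact hf m fun h => hm (by rw [h, smul_zero])

/-- no new element in the right ideal -/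
theorem lemC (h2 : S_F0) (h3 : S_F1) (h6 : S_IND2) {ι : Type} (p j : ℕ) (a s s' : T ι)
    (hp : 1 ≤ p) (hj : 1 ≤ j) (ha : PH p a) (ha0 : a ≠ 0) (hs : PH (p + j) s)
    (hs' : PH (p + j) s') (has : br a s ≠ 0) (h : ∃ v w : T ι, s' = a * v + s * w) :
    ∃ c : ℝ, s' = c • s := by
  obtain ⟨v, w, hvw⟩ := h
  have hR : RInd ![a, s] := h6 ι p (p + j) a s hp (by omega) ha hs has
  obtain ⟨_, h4⟩ := h3 ι 2 ![a, s] ![p, p + j] (by intro i; fin_cases i <;> simp <;> omega)
    (by intro i; fin_cases i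
        · exact ha
        · exact hs) hR
  obtain ⟨U, _, hU2, hU3⟩ := h4 s' hs'.2 ⟨![v, w], by rw [hvw]; simp [Fin.sum_univ_two]⟩
  obtain ⟨c, W, hc⟩ := lemA p j hp hj a s U (hU3 _ hs'.1)
  rw [hU2] at hc
  obtain ⟨c', hc'⟩ := h2 ι p (p + j) a (s' - c • s) W hp ha ha0 (ph_comb hs' hs c)
    (by rw [hc]; abel)
  have h5 : s' - c • s = 0 := by
    refine isH_two (isH_comb hs'.1 hs.1 c) (l := p) ?_ (by omega)
    rw [hc']
    exact isH_smul ha.1 c'
  exact ⟨c, sub_eq_zero.1 h5⟩

end TP3U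

open TP3U in
theorem t_P3U (h1 : S_P3) (h2 : S_F0) (h3 : S_F1) (h4 : S_WA) (_h5 : S_P1) (h6 : S_IND2) :
    S_P3U := by
  intro ι p q j a b s t s' t' hp hj hpq ha hb ha0 hb0 hs ht hs' ht' e1 e2
  by_cases k1 : s ≠ 0 ∨ t ≠ 0
  swap
  · push Not at k1
    exact ⟨1, 0, Or.inl one_ne_zero, by simp [k1.1], by simp [k1.2]⟩
  by_cases k2 : s' ≠ 0 ∨ t' ≠ 0
  swap
  · push Not at k2
    exact ⟨0, 1, Or.inr one_ne_zero, by simp [k2.1], by simp [k2.2]⟩
  obtain ⟨s0, as0, B, T1, -, -, hB, -, hB2, -, -⟩ := h1 ι p q j a b s t hp hj hpq ha hb ha0 hb0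
    hs ht e1 k1
  obtain ⟨s0', as0', B', T1', -, -, hB', -, hB2', -, -⟩ := h1 ι p q j a b s' t' hp hj hpq ha hb
    ha0 hb0 hs' ht' e2 k2
  by_cases k3 : ∃ c : ℝ, s' = c • s
  · obtain ⟨c, hc⟩ := k3
    have k4 : t' - c • t = 0 := by
      by_contra k4
      have e3 : br (s' - c • s) b + br a (t' - c • t) = 0 := by
        have : br (s' - c • s) b + br a (t' - c • t) =
            (br s' b + br a t') - c • (br s b + br a t) := by
          simp only [br, sub_mul, mul_sub, smul_mul_assoc, mul_smul_comm, smul_add, smul_sub]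
          abel
        rw [this, e1, e2]
        simp
      obtain ⟨k5, -⟩ := h1 ι p q j a b (s' - c • s) (t' - c • t) hp hj hpq ha hb ha0 hb0
        (ph_comb hs' hs c) (ph_comb ht' ht c) e3 (Or.inr k4)
      exact k5 (sub_eq_zero.2 hc)
    refine ⟨c, -1, Or.inr (by norm_num), ?_, ?_⟩
    · rw [hc]; simp
    · rw [sub_eq_zero.1 k4]; simp
  · exfalso
    have k4 : ¬ ∃ c : ℝ, s = c • s' := by
      rintro ⟨c, hc⟩
      have hc0 : c ≠ 0 := by
        rintro rfl
        exact s0 (by rw [hc, zero_smul])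
      exact k3 ⟨c⁻¹, by rw [hc, smul_smul, inv_mul_cancel₀ hc0, one_smul]⟩
    have hd : ∀ i, PH (![p, p + j, p + j] i) (![a, s, s'] i) := by
      intro i
      fin_cases i
      · exact ha
      · exact hs
      · exact hs'
    have hR : RInd ![a, s, s'] := by
      intro w hw
      by_contra hne
      push Not at hne
      obtain ⟨i, v, hv1, hv2, hv3⟩ := h4 ι 3 ![a, s, s'] w ![p, p + j, p + j]
        (fun i => (hd i).1) hw hne
      rw [Fin.sum_univ_three] at hv3
      fin_cases i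
      · have v1 : v 1 = 0 := hv2 1 (by simp; omega)
        have v2 : v 2 = 0 := hv2 2 (by simp; omega)
        have v0 : v 0 = 0 := hv1
        simp [v0, v1, v2] at hv3
        exact ha0 hv3
      · have v1 : v 1 = 0 := hv1
        rw [v1] at hv3
        exact k4 (lemC h2 h3 h6 p j a s' s hp hj ha ha0 hs' hs as0'
          ⟨v 0, v 2, by simpa using hv3⟩)
      · have v2 : v 2 = 0 := hv1
        rw [v2] at hv3
        exact k3 (lemC h2 h3 h6 p j a s s' hp hj ha ha0 hs hs' as0
          ⟨v 0, v 1, by simpa using hv3⟩)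
    obtain ⟨hinj, -⟩ := h3 ι 3 ![a, s, s'] ![p, p + j, p + j]
      (by intro i; fin_cases i <;> simp <;> omega) hd hR
    have e3 : sub ![a, s, s'] (sub ![X 0, X 1] B) = b := by
      rw [sub_subst, ← hB2]
      congr 2
      funext i
      fin_cases i <;> simp [sub_X]
    have e4 : sub ![a, s, s'] (sub ![X 0, X 2] B') = b := by
      rw [sub_subst, ← hB2']
      congr 2
      funext i
      fin_cases i <;> simp [sub_X]
    have e5 : sub ![(X 0 : T (Fin 3)), X 1] B = sub ![(X 0 : T (Fin 3)), X 2] B' := hinj (e3.trans e4.symm)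
    have e6 : b = sub ![a, 0] B' := by
      have e7 := congrArg (sub ![a, s, (0 : T ι)]) e5
      rw [sub_subst, sub_subst] at e7
      have e8 : (fun i => sub ![a, s, (0 : T ι)] (![X 0, X 1] i : T (Fin 3))) = ![a, s] := by
        funext i
        fin_cases i <;> simp [sub_X]
      have e9 : (fun i => sub ![a, s, (0 : T ι)] (![X 0, X 2] i : T (Fin 3))) = ![a, 0] := by
        funext i
        fin_cases i <;> simp [sub_X]
      rw [e8, e9, hB2] at e7
      exact e7
    obtain ⟨W, hW⟩ := lemB q (by omega) _ a B' hB'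
    obtain ⟨c, hc⟩ := h2 ι p q a b W hp ha ha0 hb (e6.trans hW)
    refine hb0 (isH_two hb.1 (l := p) ?_ (by omega))
    rw [hc]
    exact isH_smul ha.1 c

end Pool.Agent.H32CE
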