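import Pool.Agent.H32CE.St

set_option autoImplicit false

/-!
# MP_76db9d_al, task PRM2: weighted leading terms are primitive (helper804, project of helper32)
-/

namespace Pool.Agent.H32CE

open PowerSeries

namespace TPRM2

variable {ι : Type}

/-! ### homogeneity -/

theorem wd_mul (w : ι → ℕ) (a b : FreeMonoid ι) : wd w (a * b) = wd w a + wd w b := by
  unfold wd
  rw [FreeMonoid.toList_mul, List.map_append, List.sum_append]

theorem isH_zero (w : ι → ℕ) (k : ℕ) : IsH w k (0 : T ι) := by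
  intro m h
  exact absurd (by simp) h

theorem isH_add {w : ι → ℕ} {k : ℕ} {f g : T ι} (hf : IsH w k f) (hg : IsH w k g) :
    IsH w k (f + g) := by
  intro m h
  by_contra hm
  apply h
  have h1 : f.coeff m = 0 := by
    by_contra h1
    exact hm (hf m h1)
  have h2 : g.coeff m = 0 := by
    by_contra h2
    exact hm (hg m h2)
  rw [MonoidAlgebra.coeff_add, Finsupp.add_apply, h1, h2, add_zero]

theorem isH_neg {w : ι → ℕ} {k : ℕ} {f : T ι} (hf : IsH w k f) : IsH w k (-f) := by
  intro m h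
  apply hf
  intro h1
  apply h
  rw [MonoidAlgebra.coeff_neg, Finsupp.neg_apply, h1, neg_zero]

theorem isH_sum {α : Type} (s : Finset α) {w : ι → ℕ} {k : ℕ} {f : α → T ι}
    (h : ∀ i ∈ s, IsH w k (f i)) : IsH w k (∑ i ∈ s, f i) := by
  classical
  induction s using Finset.induction_on with
  | empty => simpa using isH_zero w k
  | insert a s ha ih =>
    rw [Finset.sum_insert ha]
    exact isH_add (h a (Finset.mem_insert_self _ _))
      (ih fun i hi => h i (Finset.mem_insert_of_mem hi))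

theorem isH_mul {w : ι → ℕ} {k l : ℕ} {f g : T ι} (hf : IsH w k f) (hg : IsH w l g) :
    IsH w (k + l) (f * g) := by
  classical
  intro m h
  by_contra hm
  apply h
  rw [MonoidAlgebra.coeff_mul]
  unfold Finsupp.sum
  refine Finset.sum_eq_zero fun a ha => Finset.sum_eq_zero fun b hb => ?_
  refine if_neg ?_
  intro hab
  apply hm
  rw [← hab, wd_mul, hf a (Finsupp.mem_support_iff.1 ha), hg b (Finsupp.mem_support_iff.1 hb)]

theorem isH_one (w : ι → ℕ) : IsH w 0 (1 : T ι) := by
  classical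
  intro m h
  rw [MonoidAlgebra.one_def, MonoidAlgebra.coeff_single, Finsupp.single_apply] at h
  by_cases hm : 1 = m
  · rw [← hm]; rfl
  · rw [if_neg hm] at h
    exact absurd rfl h

theorem isH_X (w : ι → ℕ) (i : ι) : IsH w (w i) (X i) := by
  classical
  intro m h
  unfold X at h
  rw [MonoidAlgebra.coeff_single, Finsupp.single_apply] at h
  by_cases hm : FreeMonoid.of i = m
  · rw [← hm]
    unfold wd
    rw [FreeMonoid.toList_of]
    simp
  · rw [if_neg hm] at h
    exact absurd rfl h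

theorem isH_pow {w : ι → ℕ} {k : ℕ} {f : T ι} (hf : IsH w k f) (n : ℕ) :
    IsH w (k * n) (f ^ n) := by
  induction n with
  | zero => simpa using isH_one w
  | succ n ih =>
    rw [pow_succ, Nat.mul_succ]
    exact isH_mul ih hf

/-- graded power series -/
def GH (w : ι → ℕ) (f : PS (T ι)) : Prop := ∀ i, IsH w i (coeff i f)

theorem GH_mul {w : ι → ℕ} {f g : PS (T ι)} (hf : GH w f) (hg : GH w g) : GH w (f * g) := by
  intro i
  rw [PowerSeries.coeff_mul]
  refine isH_sum _ fun a ha => ?_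
  rw [← Finset.HasAntidiagonal.mem_antidiagonal.1 ha]
  exact isH_mul (hf _) (hg _)

theorem GH_one (w : ι → ℕ) : GH w (1 : PS (T ι)) := by
  intro i
  rw [PowerSeries.coeff_one]
  split_ifs with h
  · rw [h]; exact isH_one w
  · exact isH_zero w i

theorem GH_li {w : ι → ℕ} {k : ℕ} {x : T ι} (hx : IsH w k x) : GH w (li k x) := by
  intro i
  unfold li
  rw [PowerSeries.coeff_mk]
  split_ifs with h1 h2
  · rw [h1]; exact isH_one w
  · rw [h2]; exact hx
  · exact isH_zero w i

theorem GH_lii {w : ι → ℕ} {k : ℕ} {x : T ι} (hx : IsH w k x) : GH w (lii k x) := by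
  intro i
  unfold lii
  rw [PowerSeries.coeff_mk]
  split_ifs with h1
  · have := isH_pow (isH_neg hx) (i / k)
    rwa [Nat.mul_div_cancel' h1] at this
  · exact isH_zero w i

theorem GH_mg2 (p q : ℕ) (hp : 1 ≤ p) (hq : 1 ≤ q) (x : FreeGroup (Fin 2)) :
    GH ![p, q] ((mg2U p q hp hq x : (PS (T (Fin 2)))ˣ) : PS (T (Fin 2))) := by
  induction x using FreeGroup.induction_on with
  | C1 => rw [map_one, Units.val_one]; exact GH_one _
  | of i =>
    have e : mg2U p q hp hq (FreeGroup.of i) = ![liU p hp (X 0), liU q hq (X 1)] i := by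
      unfold mg2U
      exact FreeGroup.lift_apply_of
    rw [e]
    fin_cases i
    · exact GH_li (isH_X ![p, q] 0)
    · exact GH_li (isH_X ![p, q] 1)
  | inv_of i _ =>
    have e : mg2U p q hp hq (FreeGroup.of i)⁻¹ = (![liU p hp (X 0), liU q hq (X 1)] i)⁻¹ := by
      rw [map_inv]
      congr 1
      unfold mg2U
      exact FreeGroup.lift_apply_of
    rw [e]
    fin_cases i
    · exact GH_lii (isH_X ![p, q] 0)
    · exact GH_lii (isH_X ![p, q] 1)
  | mul x y hx hy =>
    rw [map_mul, Units.val_mul]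
    exact GH_mul hx hy

/-! ### group-like elements -/

/-- pairs -/
abbrev T2 (ι : Type) := MonoidAlgebra ℝ (FreeMonoid ι × FreeMonoid ι)

/-- coefficientwise map -/
noncomputable def mp {A B : Type} [Ring A] [Ring B] [Algebra ℝ A] [Algebra ℝ B] (φ : A →ₐ[ℝ] B) :
    PS A →+* PS B := PowerSeries.map (φ : A →+* B)

theorem coeff_mp {A B : Type} [Ring A] [Ring B] [Algebra ℝ A] [Algebra ℝ B] (φ : A →ₐ[ℝ] B)
    (n : ℕ) (f : PS A) : coeff n (mp φ f) = φ (coeff n f) := by
  unfold mp
  rw [PowerSeries.coeff_map]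
  rfl


theorem lft_rgt (a b : T ι) : Commute (lft ι a) (rgt ι b) := by
  induction a using MonoidAlgebra.induction_linear with
  | zero => rw [map_zero]; exact Commute.zero_left _
  | add a a' h h' => rw [map_add]; exact h.add_left h'
  | single m r =>
    induction b using MonoidAlgebra.induction_linear with
    | zero => rw [map_zero]; exact Commute.zero_right _
    | add b b' h h' => rw [map_add]; exact h.add_right h'
    | single n s =>
      unfold lft rgt Commute SemiconjBy
      simp [MonoidAlgebra.single_mul_single, mul_comm]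

theorem ps_comm (f g : PS (T ι)) :
    mp (rgt ι) f * mp (lft ι) g =
      mp (lft ι) g * mp (rgt ι) f := by
  ext n : 1
  rw [PowerSeries.coeff_mul, PowerSeries.coeff_mul, ← Finset.Nat.sum_antidiagonal_swap]
  refine Finset.sum_congr rfl fun a _ => ?_
  simp only [Prod.fst_swap, Prod.snd_swap, coeff_mp]
  exact (lft_rgt _ _).eq.symm

/-- group-like series -/
def Gpl (f : PS (T ι)) : Prop :=
  mp (cop ι) f =
    mp (lft ι) f * mp (rgt ι) f

theorem Gpl_one : Gpl (1 : PS (T ι)) := by
  unfold Gpl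
  rw [map_one, map_one, map_one, mul_one]

theorem Gpl_mul {f g : PS (T ι)} (hf : Gpl f) (hg : Gpl g) : Gpl (f * g) := by
  unfold Gpl at *
  rw [map_mul, map_mul, map_mul, hf, hg]
  have := ps_comm f g
  calc _ = mp (lft ι) f *
        (mp (rgt ι) f * mp (lft ι) g) *
        mp (rgt ι) g := by simp only [mul_assoc]
    _ = _ := by rw [this]; simp only [mul_assoc]

theorem map_ex {A B : Type} [Ring A] [Ring B] [Algebra ℝ A] [Algebra ℝ B] (φ : A →ₐ[ℝ] B)
    (w : ℕ) (x : A) : mp φ (ex w x) = ex w (φ x) := by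
  ext n : 1
  unfold ex
  rw [coeff_mp, PowerSeries.coeff_mk, PowerSeries.coeff_mk]
  split_ifs
  · rw [map_smul, map_pow]
  · rw [map_zero]

theorem Gpl_ex {w : ℕ} (hw : 1 ≤ w) {x : T ι} (hx : Prim x) : Gpl (ex w x) := by
  unfold Gpl
  rw [map_ex, map_ex, map_ex, hx, ex_add w hw _ _ (lft_rgt x x)]

theorem prim_X (i : ι) : Prim (X i) := by
  unfold Prim X cop lft rgt
  simp

theorem prim_neg {x : T ι} (hx : Prim x) : Prim (-x) := by
  unfold Prim at *
  rw [map_neg, map_neg, map_neg, hx, neg_add]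

theorem Gpl_lift (p q : ℕ) (hp : 1 ≤ p) (hq : 1 ≤ q) (x : FreeGroup (Fin 2)) :
    Gpl ((FreeGroup.lift ![exU p hp (X 0), exU q hq (X 1)] x : (PS (T (Fin 2)))ˣ) :
      PS (T (Fin 2))) := by
  induction x using FreeGroup.induction_on with
  | C1 => rw [map_one, Units.val_one]; exact Gpl_one
  | of i =>
    have e : FreeGroup.lift ![exU p hp (X 0), exU q hq (X 1)] (FreeGroup.of i) =
        ![exU p hp (X 0 : T (Fin 2)), exU q hq (X 1)] i := FreeGroup.lift_apply_of
    rw [e]
    fin_cases i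
    · exact Gpl_ex hp (prim_X 0)
    · exact Gpl_ex hq (prim_X 1)
  | inv_of i _ =>
    have e : FreeGroup.lift ![exU p hp (X 0), exU q hq (X 1)] (FreeGroup.of i)⁻¹ =
        (![exU p hp (X 0 : T (Fin 2)), exU q hq (X 1)] i)⁻¹ := by
      rw [map_inv]
      congr 1
      exact FreeGroup.lift_apply_of
    rw [e]
    fin_cases i
    · exact Gpl_ex hp (prim_neg (prim_X 0))
    · exact Gpl_ex hq (prim_neg (prim_X 1))
  | mul x y hx hy =>
    rw [map_mul, Units.val_mul]
    exact Gpl_mul hx hy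

theorem sub_X (f : T (Fin 2)) : sub ![(X 0 : T (Fin 2)), X 1] f = f := by
  have hm : ∀ m : FreeMonoid (Fin 2), FreeMonoid.lift ![(X 0 : T (Fin 2)), X 1] m =
      MonoidAlgebra.single m 1 := by
    intro m
    induction m using FreeMonoid.inductionOn with
    | one => rw [map_one]; rfl
    | of i =>
      rw [FreeMonoid.lift_eval_of]
      fin_cases i <;> rfl
    | mul a b ha hb => rw [map_mul, ha, hb, MonoidAlgebra.single_mul_single, mul_one]
  induction f using MonoidAlgebra.induction_linear with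
  | zero => rw [map_zero]
  | add a b ha hb => rw [map_add, ha, hb]
  | single m r =>
    unfold sub
    rw [MonoidAlgebra.lift_single, hm, MonoidAlgebra.smul_single, smul_eq_mul, mul_one]

theorem coeff_ex {A : Type} [Ring A] [Algebra ℝ A] {w : ℕ} (hw : 1 ≤ w) (x : A) :
    coeff w (ex w x) = x := by
  unfold ex
  rw [PowerSeries.coeff_mk, if_pos dvd_rfl, Nat.div_self hw]
  simp

theorem ordge_ex {A : Type} [Ring A] [Algebra ℝ A] {w : ℕ} (_hw : 1 ≤ w) (x : A) :
    ordge w (ex w x - 1) := by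
  intro i hi
  rw [map_sub, PowerSeries.coeff_one]
  unfold ex
  rw [PowerSeries.coeff_mk]
  rcases Nat.eq_zero_or_pos i with h | h
  · subst h
    simp
  · rw [if_neg (fun hd => absurd (Nat.le_of_dvd h hd) (by omega)), if_neg (by omega), sub_zero]

theorem prim_of_Gpl {G : PS (T ι)} (hG : Gpl G) {m : ℕ} (hm : 1 ≤ m) (ho : ordge m (G - 1)) :
    Prim (coeff m (G - 1)) := by
  obtain ⟨K, hK⟩ : ∃ K : PS (T ι), K = G - 1 := ⟨_, rfl⟩
  have hGK : G = 1 + K := by rw [hK]; abel
  rw [← hK] at ho ⊢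
  unfold Gpl at hG
  rw [hGK, map_add, map_add, map_add, map_one, map_one, map_one] at hG
  have h1 : mp (cop ι) K =
      mp (lft ι) K + mp (rgt ι) K +
      mp (lft ι) K * mp (rgt ι) K := by
    have h2 : (1 : PS (MonoidAlgebra ℝ (FreeMonoid ι × FreeMonoid ι))) +
        mp (cop ι) K = 1 + (mp (lft ι) K +
        mp (rgt ι) K + mp (lft ι) K *
        mp (rgt ι) K) := by
      rw [hG]
      noncomm_ring
    exact add_left_cancel h2
  have h2 := congrArg (coeff m) h1
  rw [map_add, map_add, coeff_mp, coeff_mp, coeff_mp,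
    PowerSeries.coeff_mul] at h2
  rw [Finset.sum_eq_zero, add_zero] at h2
  · exact h2
  · intro a ha
    have ha' := Finset.HasAntidiagonal.mem_antidiagonal.1 ha
    rw [coeff_mp, coeff_mp]
    rcases Nat.lt_or_ge a.1 m with h3 | h3
    · rw [ho a.1 h3, map_zero, zero_mul]
    · rw [ho a.2 (by omega), map_zero, mul_zero]

end TPRM2

theorem t_PRM2 (h1 : S_SUB2) : S_PRM2 := by
  intro p q hp hq m w
  refine ⟨TPRM2.GH_mg2 p q hp hq w m, fun hm hw => ?_⟩
  obtain ⟨h2, h3⟩ := h1 (T (Fin 2)) p q hp hq (exU p hp (X 0)) (exU q hq (X 1))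
    (TPRM2.ordge_ex hp _) (TPRM2.ordge_ex hq _) m w hm hw
  have h4 := TPRM2.prim_of_Gpl (TPRM2.Gpl_lift p q hp hq w) hm h2
  rw [h3] at h4
  have e1 : coeff p ((exU p hp (X 0 : T (Fin 2)) : (PS (T (Fin 2)))ˣ) : PS (T (Fin 2))) = X 0 :=
    TPRM2.coeff_ex hp _
  have e2 : coeff q ((exU q hq (X 1 : T (Fin 2)) : (PS (T (Fin 2)))ˣ) : PS (T (Fin 2))) = X 1 :=
    TPRM2.coeff_ex hq _
  rw [e1, e2, TPRM2.sub_X] at h4
  exact h4

end Pool.Agent.H32CE
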