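import Mathlib
import Pool.Agent.H32CE.St

set_option autoImplicit false

/-! PSO: order of `Psi`. -/

namespace Pool.Agent.H32CE

open PowerSeries

namespace TPSO

lemma mul_ord {A : Type} [Ring A] (a b : ℕ) (f g : PS A) (hf : ordge a f) (hg : ordge b g) :
    ordge (a + b) (f * g) ∧
      PowerSeries.coeff (a + b) (f * g) = PowerSeries.coeff a f * PowerSeries.coeff b g := by
  constructor
  · intro i hi
    rw [PowerSeries.coeff_mul]
    apply Finset.sum_eq_zero
    rintro ⟨j, k⟩ hjk
    rw [Finset.HasAntidiagonal.mem_antidiagonal] at hjk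
    simp only at hjk ⊢
    by_cases hj : j < a
    · rw [hf j hj, zero_mul]
    · rw [hg k (by omega), mul_zero]
  · rw [PowerSeries.coeff_mul, Finset.sum_eq_single (a, b)]
    · rintro ⟨j, k⟩ hjk hne
      rw [Finset.HasAntidiagonal.mem_antidiagonal] at hjk
      simp only at hjk ⊢
      by_cases hj : j < a
      · rw [hf j hj, zero_mul]
      · by_cases hk : k < b
        · rw [hg k hk, mul_zero]
        · exfalso
          apply hne
          have h1 : j = a := by omega
          have h2 : k = b := by omega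
          rw [h1, h2]
    · intro h
      exfalso
      apply h
      rw [Finset.HasAntidiagonal.mem_antidiagonal]

lemma unit_mul {A : Type} [Ring A] (n : ℕ) (u f : PS A) (hu : PowerSeries.coeff 0 u = 1)
    (hf : ordge n f) :
    ordge n (u * f) ∧ PowerSeries.coeff n (u * f) = PowerSeries.coeff n f := by
  have h := mul_ord 0 n u f (fun i hi => absurd hi (Nat.not_lt_zero i)) hf
  rw [Nat.zero_add, hu, one_mul] at h
  exact h

lemma br_ord {A : Type} [Ring A] (a b : ℕ) (f g : PS A) (hf : ordge a f) (hg : ordge b g) :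
    ordge (a + b) (f * g - g * f) ∧ PowerSeries.coeff (a + b) (f * g - g * f) =
      br (PowerSeries.coeff a f) (PowerSeries.coeff b g) := by
  have h1 := mul_ord a b f g hf hg
  have h2 := mul_ord b a g f hg hf
  rw [Nat.add_comm b a] at h2
  constructor
  · intro i hi
    rw [map_sub, h1.1 i hi, h2.1 i hi, sub_zero]
  · rw [map_sub, h1.2, h2.2, br]

lemma mag_inv_mul {ι : Type} (g : FreeGroup ι) : mag g⁻¹ * mag g = 1 := by
  unfold mag
  rw [← Units.val_mul, ← map_mul, inv_mul_cancel, map_one, Units.val_one]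

lemma conj_ord {ι : Type} (hB : S_BAS) (n k : ℕ) (g : FreeGroup ι) (f : PS (T ι)) (hk : 1 ≤ k)
    (hg : D k g) (hf : ordge n f) :
    ordge (n + k) (mag g⁻¹ * f * mag g - f) ∧
      PowerSeries.coeff (n + k) (mag g⁻¹ * f * mag g - f) =
        br (PowerSeries.coeff n f) (cf k g) := by
  have h0 := (hB ι).1
  have e : mag g⁻¹ * f * mag g - f = mag g⁻¹ * (f * (mag g - 1) - (mag g - 1) * f) := by
    have h1 := mag_inv_mul g
    calc mag g⁻¹ * f * mag g - f = mag g⁻¹ * f * mag g - (mag g⁻¹ * mag g) * f := by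
          rw [h1, one_mul]
      _ = mag g⁻¹ * (f * (mag g - 1) - (mag g - 1) * f) := by noncomm_ring
  have hm : ordge k (mag g - 1) := by
    intro i hi
    rw [map_sub, PowerSeries.coeff_one]
    by_cases h : i = 0
    · subst h
      rw [h0, if_pos rfl, sub_self]
    · rw [if_neg h, sub_zero]
      exact hg i (by omega) hi
  have hm2 : PowerSeries.coeff k (mag g - 1) = cf k g := by
    rw [map_sub, PowerSeries.coeff_one, if_neg (by omega), sub_zero]
    rfl
  have h2 := br_ord n k f (mag g - 1) hf hm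
  rw [hm2] at h2
  have h3 := unit_mul (n + k) (mag g⁻¹) _ (h0 g⁻¹) h2.1
  rw [h2.2] at h3
  rw [e]
  exact h3

end TPSO

open TPSO in
theorem t_PSO (hB : S_BAS) : S_PSO := by
  intro r p q m x y δ ε hp hq hx hy hδ hε
  obtain ⟨-, -, hB3, -, -, hB6, -, -, hB9, -, -⟩ := hB (Fin r)
  have hcm : D (p + q) (cm x y) := (hB9 p q x y hp hq hx hy).1
  have hcmp : D p (cm x y) := fun i h1 h2 => hcm i h1 (by omega)
  have hxc : D p (x * cm x y) := hB3 p x _ hx hcmp
  have hcf : cf p (x * cm x y) = cf p x := by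
    rw [hB6 p (p + q) x (cm x y) hx hcm p hp (by omega), hcm p hp (by omega), add_zero]
  have h1 := conj_ord hB (p + m) q y δ hq hy hδ
  have h2 := conj_ord hB (p + m) (p + q) (cm x y) δ (by omega) hcm hδ
  have h3 := conj_ord hB (q + m) p (x * cm x y) ε hp hxc hε
  rw [hcf] at h3
  have e1 : p + m + q = p + q + m := by omega
  have e3 : q + m + p = p + q + m := by omega
  rw [e1] at h1
  rw [e3] at h3
  have e : Psi x y δ ε = (mag y⁻¹ * δ * mag y - δ) -
      (mag (cm x y)⁻¹ * δ * mag (cm x y) - δ) -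
      (mag (x * cm x y)⁻¹ * ε * mag (x * cm x y) - ε) := by
    unfold Psi
    noncomm_ring
  rw [e]
  constructor
  · intro i hi
    rw [map_sub, map_sub, h1.1 i hi, h2.1 i (by omega), h3.1 i hi, sub_zero, sub_zero]
  · rw [map_sub, map_sub, h1.2, h2.1 (p + q + m) (by omega), h3.2, sub_zero]
    unfold br
    noncomm_ring

end Pool.Agent.H32CE
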