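import Pool.Agent.H32CE.St

set_option autoImplicit false

namespace Pool.Agent.H32CE

namespace TQB

/-- polynomially bounded functions -/
def PB (f : ℕ → ℕ) : Prop := ∃ C E : ℕ, ∀ B, 1 ≤ B → f B ≤ C * B ^ E

theorem PB.const (c : ℕ) : PB fun _ => c := ⟨c, 0, fun B _ => by simp⟩

theorem PB.id : PB fun B => B := ⟨1, 1, fun B _ => by simp⟩

theorem PB.mul {f g : ℕ → ℕ} (hf : PB f) (hg : PB g) : PB fun B => f B * g B := by
  obtain ⟨C, E, h⟩ := hf
  obtain ⟨C', E', h'⟩ := hg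
  refine ⟨C * C', E + E', fun B hB => ?_⟩
  calc f B * g B ≤ (C * B ^ E) * (C' * B ^ E') := Nat.mul_le_mul (h B hB) (h' B hB)
    _ = C * C' * B ^ (E + E') := by rw [pow_add]; ring

theorem PB.add {f g : ℕ → ℕ} (hf : PB f) (hg : PB g) : PB fun B => f B + g B := by
  obtain ⟨C, E, h⟩ := hf
  obtain ⟨C', E', h'⟩ := hg
  refine ⟨C + C', E + E', fun B hB => ?_⟩
  have h1 : B ^ E ≤ B ^ (E + E') := Nat.pow_le_pow_right hB (by omega)
  have h2 : B ^ E' ≤ B ^ (E + E') := Nat.pow_le_pow_right hB (by omega)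
  calc f B + g B ≤ C * B ^ E + C' * B ^ E' := Nat.add_le_add (h B hB) (h' B hB)
    _ ≤ C * B ^ (E + E') + C' * B ^ (E + E') :=
        Nat.add_le_add (Nat.mul_le_mul_left _ h1) (Nat.mul_le_mul_left _ h2)
    _ = (C + C') * B ^ (E + E') := by ring

theorem PB.pow {f : ℕ → ℕ} (hf : PB f) (n : ℕ) : PB fun B => f B ^ n := by
  obtain ⟨C, E, h⟩ := hf
  refine ⟨C ^ n, E * n, fun B hB => ?_⟩
  calc f B ^ n ≤ (C * B ^ E) ^ n := Nat.pow_le_pow_left (h B hB) n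
    _ = C ^ n * B ^ (E * n) := by rw [mul_pow, pow_mul]

theorem dotb {n : ℕ} (a b : Fin n → ℤ) (x y : ℕ) (ha : ∀ i, |a i| ≤ x) (hb : ∀ i, |b i| ≤ y) :
    |∑ i, a i * b i| ≤ ((n * x * y : ℕ) : ℤ) := by
  calc |∑ i, a i * b i| ≤ ∑ i, |a i * b i| := Finset.abs_sum_le_sum_abs _ _
    _ ≤ ∑ _i : Fin n, ((x * y : ℕ) : ℤ) := by
        refine Finset.sum_le_sum fun i _ => ?_
        rw [abs_mul]
        push_cast
        exact mul_le_mul (ha i) (hb i) (abs_nonneg _) (by positivity)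
    _ = _ := by
        simp only [Finset.sum_const, Finset.card_univ, Fintype.card_fin, nsmul_eq_mul]
        push_cast
        ring

/-- integer bilinear form -/
def bZ {L : ℕ} (β : Matrix (Fin L) (Fin L) ℤ) (x y : Fin L → ℤ) : ℤ :=
  ∑ l, x l * ∑ l', β l l' * y l'

/-- real bilinear form -/
noncomputable def bR {L : ℕ} (β : Matrix (Fin L) (Fin L) ℤ) (x y : Fin L → ℝ) : ℝ :=
  ∑ l, x l * ∑ l', (β l l' : ℝ) * y l'

/-- real linear form -/
noncomputable def aR {N K : ℕ} (A : Matrix (Fin N) (Fin K) ℤ) (z : Fin K → ℝ) (i : Fin N) : ℝ :=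
  ∑ k, (A i k : ℝ) * z k

theorem bZ_bound {L : ℕ} (β : Matrix (Fin L) (Fin L) ℤ) (x y : Fin L → ℤ) (B X Y : ℕ)
    (hβ : ∀ k l, |β k l| ≤ B) (hx : ∀ i, |x i| ≤ X) (hy : ∀ i, |y i| ≤ Y) :
    |bZ β x y| ≤ ((L * X * (L * B * Y) : ℕ) : ℤ) :=
  dotb _ _ _ _ hx (fun l => dotb _ _ _ _ (hβ l) hy)

theorem bZ_cast {L : ℕ} (β : Matrix (Fin L) (Fin L) ℤ) (x y : Fin L → ℤ) :
    ((bZ β x y : ℤ) : ℝ) = bR β (fun l => (x l : ℝ)) (fun l => (y l : ℝ)) := by
  simp [bZ, bR]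

theorem aR_cast {N K : ℕ} (A : Matrix (Fin N) (Fin K) ℤ) (z : Fin K → ℤ) (i : Fin N) :
    ((∑ k, A i k * z k : ℤ) : ℝ) = aR A (fun k => (z k : ℝ)) i := by
  simp [aR]

theorem aR_comb {N K : ℕ} (A : Matrix (Fin N) (Fin K) ℤ) (x y : Fin K → ℝ) (a b : ℝ) (i : Fin N) :
    aR A (fun k => a * x k + b * y k) i = a * aR A x i + b * aR A y i := by
  simp only [aR, Finset.mul_sum, ← Finset.sum_add_distrib]
  refine Finset.sum_congr rfl fun k _ => ?_
  ring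

theorem aR_sum {N K n : ℕ} (A : Matrix (Fin N) (Fin K) ℤ) (v : Fin n → Fin K → ℝ) (c : Fin n → ℝ)
    (i : Fin N) : aR A (fun k => ∑ l, c l * v l k) i = ∑ l, c l * aR A (v l) i := by
  simp only [aR, Finset.mul_sum]
  rw [Finset.sum_comm]
  refine Finset.sum_congr rfl fun k _ => Finset.sum_congr rfl fun l _ => ?_
  ring

theorem bR_left {L : ℕ} (β : Matrix (Fin L) (Fin L) ℤ) (x y z : Fin L → ℝ) (a b : ℝ) :
    bR β (fun k => a * x k + b * y k) z = a * bR β x z + b * bR β y z := by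
  simp only [bR, Finset.mul_sum, ← Finset.sum_add_distrib]
  refine Finset.sum_congr rfl fun k _ => Finset.sum_congr rfl fun l _ => ?_
  ring

theorem bR_right {L : ℕ} (β : Matrix (Fin L) (Fin L) ℤ) (x y z : Fin L → ℝ) (a b : ℝ) :
    bR β z (fun k => a * x k + b * y k) = a * bR β z x + b * bR β z y := by
  simp only [bR, Finset.mul_sum, ← Finset.sum_add_distrib]
  refine Finset.sum_congr rfl fun k _ => Finset.sum_congr rfl fun l _ => ?_
  ring

/-- the double annihilator -/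
theorem ann {K N n : ℕ} (M : Matrix (Fin K) (Fin N) ℤ) (φ : Fin n → Fin N → ℤ)
    (hφ : ∀ z : Fin N → ℝ, (∀ i, ∑ k, (M i k : ℝ) * z k = 0) →
      ∃ c : Fin n → ℝ, ∀ k, z k = ∑ l, c l * (φ l k : ℝ))
    (V : Fin N → ℝ) (hV : ∀ j, ∑ i, (φ j i : ℝ) * V i = 0) :
    ∃ c : Fin K → ℝ, ∀ i, V i = ∑ l, c l * (M l i : ℝ) := by
  have hmem : V ∈ Submodule.span ℝ (Set.range fun l : Fin K => fun i : Fin N => (M l i : ℝ)) := by
    by_contra hnot
    obtain ⟨f, hf1, hf2⟩ := Submodule.exists_le_ker_of_notMem hnot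
    have hfx : ∀ x : Fin N → ℝ, f x = ∑ i, x i * f (Pi.single i 1) := by
      intro x
      conv_lhs => rw [← Finset.univ_sum_single x]
      rw [map_sum]
      refine Finset.sum_congr rfl fun i _ => ?_
      have : (Pi.single i (x i) : Fin N → ℝ) = x i • Pi.single i 1 := by
        rw [← Pi.single_smul]; simp
      rw [this, map_smul, smul_eq_mul]
    obtain ⟨c, hc⟩ := hφ (fun i => f (Pi.single i 1)) (fun l => by
      have h1 : (fun i : Fin N => (M l i : ℝ)) ∈ LinearMap.ker f :=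
        hf2 (Submodule.subset_span ⟨l, rfl⟩)
      rw [LinearMap.mem_ker, hfx] at h1
      exact h1)
    apply hf1
    rw [hfx V]
    calc ∑ i, V i * f (Pi.single i 1) = ∑ i, V i * ∑ l, c l * (φ l i : ℝ) :=
          Finset.sum_congr rfl fun i _ => by rw [← hc i]
      _ = ∑ l, c l * ∑ i, (φ l i : ℝ) * V i := by
          simp only [Finset.mul_sum]
          rw [Finset.sum_comm]
          refine Finset.sum_congr rfl fun k _ => Finset.sum_congr rfl fun l _ => ?_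
          ring
      _ = 0 := by simp [hV]
  rw [Submodule.mem_span_range_iff_exists_fun] at hmem
  obtain ⟨c, hc⟩ := hmem
  refine ⟨c, fun i => ?_⟩
  rw [← hc]
  simp [Finset.sum_apply]

theorem nu_bound (ν : ℝ) (x y r : ℤ) (h : ν * x + ν ^ 2 * y = r) (hne : x ≠ 0 ∨ y ≠ 0) :
    |ν| ≤ 1 + |(x : ℝ)| + |(r : ℝ)| := by
  by_cases hy : y = 0
  · have hx : x ≠ 0 := by
      rcases hne with h1 | h1
      · exact h1
      · exact absurd hy h1
    have hx1 : (1 : ℝ) ≤ |(x : ℝ)| := by exact_mod_cast Int.one_le_abs hx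
    rw [hy, Int.cast_zero, mul_zero, add_zero] at h
    have h2 : |ν| * |(x : ℝ)| = |(r : ℝ)| := by rw [← abs_mul, h]
    nlinarith [abs_nonneg ν, abs_nonneg (x : ℝ)]
  · have hy1 : (1 : ℝ) ≤ |(y : ℝ)| := by exact_mod_cast Int.one_le_abs hy
    by_contra hcon
    push Not at hcon
    have h2 : ν ^ 2 * y = r - ν * x := by linarith
    have h3 : |ν| ^ 2 * |(y : ℝ)| ≤ |(r : ℝ)| + |ν| * |(x : ℝ)| := by
      rw [← abs_pow, ← abs_mul, h2, ← abs_mul ν]
      exact abs_sub _ _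
    have h4 : 1 ≤ |ν| := by linarith [abs_nonneg (x : ℝ), abs_nonneg (r : ℝ)]
    have h5 : |ν| ^ 2 ≤ |ν| ^ 2 * |(y : ℝ)| := le_mul_of_one_le_right (by positivity) hy1
    have h6 : |(r : ℝ)| ≤ |ν| * |(r : ℝ)| := le_mul_of_one_le_left (abs_nonneg _) h4
    have h7 : |ν| * |ν| ≤ |ν| * (|(r : ℝ)| + |(x : ℝ)|) := by nlinarith
    have h8 : |ν| ≤ |(r : ℝ)| + |(x : ℝ)| := le_of_mul_le_mul_left h7 (by linarith)
    linarith

theorem mulVec_aR {N K : ℕ} (A : Matrix (Fin N) (Fin K) ℤ) (z : Fin K → ℝ) :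
    (A.map (Int.cast : ℤ → ℝ)).mulVec z = aR A z := rfl

theorem dot_bR {L : ℕ} (β : Matrix (Fin L) (Fin L) ℤ) (x y : Fin L → ℝ) :
    dotProduct x (aR β y) = bR β x y := rfl

theorem cast_mulVec {N K : ℕ} (A : Matrix (Fin N) (Fin K) ℤ) (z : Fin K → ℤ) :
    (fun i => ((A.mulVec z i : ℤ) : ℝ)) = aR A (fun k => (z k : ℝ)) := by
  funext i
  simp [Matrix.mulVec, dotProduct, aR]

/-- bound for `V` -/
def BV (K L B D0 D1 : ℕ) : ℕ :=
  D0 * (K * B * D1) + L * (K * B * D0) * (L * B * (K * B * D1)) +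
    L * (K * B * D1) * (L * B * (K * B * D0))

/-- bound for `R` -/
def BRR (K L B D0 : ℕ) : ℕ :=
  D0 * D0 * B + D0 * (K * B * D0) + L * (K * B * D0) * (L * B * (K * B * D0))

/-- final bound -/
def FF (N K L B D0 D1 D3 : ℕ) : ℕ :=
  K * B * D0 + (1 + N * D3 * BV K L B D0 D1 + N * D3 * BRR K L B D0) * (K * B * D1)

end TQB

open TQB in
theorem t_QB (hRB : S_RB) (hKB : S_KB) : S_QB := by
  classical
  intro N K L
  obtain ⟨C0, E0, h0⟩ := hRB N K
  obtain ⟨C1, E1, h1⟩ := hKB N K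
  obtain ⟨C2, E2, h2⟩ := hKB (N + L) K
  obtain ⟨C3, E3, h3⟩ := hKB K N
  obtain ⟨C, E, hF⟩ : PB (fun B => FF N K L B (C0 * B ^ E0) (C1 * B ^ E1)
      (C3 * (K * B * (C2 * B ^ E2) + 1) ^ E3)) := by
    unfold FF BV BRR
    repeat (first | exact PB.const _ | exact PB.id | apply PB.add | apply PB.mul | apply PB.pow)
  refine ⟨C, E, ?_⟩
  intro B A Λ β h m I hB hA hΛ hβ hh heq hI h1d hno l
  have hF' : ((FF N K L B (C0 * B ^ E0) (C1 * B ^ E1)
      (C3 * (K * B * (C2 * B ^ E2) + 1) ^ E3) : ℕ) : ℤ) ≤ C * (B : ℤ) ^ E := by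
    exact_mod_cast hF B hB
  refine le_trans ?_ hF'
  clear hF' hF
  simp only [mulVec_aR, dot_bR, cast_mulVec] at h1d hno
  have hml : ((Λ.mulVec m l : ℤ) : ℝ) = aR Λ (fun k => (m k : ℝ)) l := congrFun (cast_mulVec Λ m) l
  have heqR : ∀ i, aR A (fun k => (m k : ℝ)) i + bR (β i) (aR Λ (fun k => (m k : ℝ)))
      (aR Λ (fun k => (m k : ℝ))) = h i := by
    intro i
    have e1 : dotProduct (Λ.mulVec m) ((β i).mulVec (Λ.mulVec m)) =
        bZ (β i) (Λ.mulVec m) (Λ.mulVec m) := rfl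
    have e2 := congrFun (cast_mulVec A m) i
    rw [← heq i, e1, Int.cast_add, bZ_cast, e2, cast_mulVec]
  obtain ⟨AI, hAI⟩ : ∃ AI : Matrix (Fin N) (Fin K) ℤ, AI = fun i k => if i ∈ I then A i k else 0 :=
    ⟨_, rfl⟩
  have hAIb : ∀ i k, |AI i k| ≤ B := by
    intro i k
    rw [hAI]
    simp only
    split_ifs
    · exact hA i k
    · simp
  have hAIr : ∀ (z : Fin K → ℝ) (i : Fin N), (∀ i ∈ I, aR A z i = 0) →
      ∑ k, (AI i k : ℝ) * z k = 0 := by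
    intro z i hz
    rw [hAI]
    by_cases hi : i ∈ I
    · simp only [hi, if_true]
      exact hz i hi
    · simp [hi]
  have hAIr' : ∀ (z : Fin K → ℤ), (∀ i, ∑ k, AI i k * z k = 0) →
      ∀ i ∈ I, aR A (fun k => (z k : ℝ)) i = 0 := by
    intro z hz i hi
    have h5 := hz i
    rw [hAI] at h5
    simp only [hi, if_true] at h5
    rw [← aR_cast, h5]
    simp
  obtain ⟨d, z0, hd, hdD, hz0, hz0eq⟩ := h0 B AI (fun i => if i ∈ I then h i else 0) hB hAIb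
    (by
      intro i
      split_ifs
      · exact hh i
      · simp)
    ⟨fun k => (m k : ℝ), by
      intro i
      rw [hAI]
      by_cases hi : i ∈ I
      · have h5 := heqR i
        rw [hI i hi] at h5
        simp only [hi, if_true]
        rw [← h5]
        simp [aR, bR]
      · simp [hi]⟩
  have hd0 : (0 : ℝ) < d := by exact_mod_cast hd
  have hz0I : ∀ i ∈ I, aR A (fun k => (z0 k : ℝ)) i = d * h i := by
    intro i hi
    have h5 := hz0eq i
    rw [hAI] at h5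
    simp only [hi, if_true] at h5
    rw [← aR_cast, h5]
    push_cast
    ring
  have hmI : ∀ i ∈ I, aR A (fun k => (m k : ℝ)) i = h i := by
    intro i hi
    have h5 := heqR i
    rw [hI i hi] at h5
    rw [← h5]
    simp [bR]
  -- bound of Λ z0
  have hPb : ∀ l, |∑ k, Λ l k * z0 k| ≤ ((K * B * (C0 * B ^ E0) : ℕ) : ℤ) := fun l =>
    dotb _ _ _ _ (hΛ l) (fun k => by push_cast; exact hz0 k)
  by_cases hcase : ∀ z : Fin K → ℝ, (∀ i ∈ I, aR A z i = 0) → ∀ l, aR Λ z l = 0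
  · have h5 := hcase (fun k => (d : ℝ) * m k + (-1) * z0 k) (by
      intro i hi
      rw [aR_comb, hmI i hi, hz0I i hi]
      ring) l
    rw [aR_comb, ← hml, ← aR_cast] at h5
    have h6 : (d : ℤ) * Λ.mulVec m l = ∑ k, Λ l k * z0 k := by
      have : ((d : ℤ) * Λ.mulVec m l : ℝ) = ((∑ k, Λ l k * z0 k : ℤ) : ℝ) := by
        push_cast at h5 ⊢
        linarith
      exact_mod_cast this
    have h7 : |Λ.mulVec m l| ≤ |∑ k, Λ l k * z0 k| := by
      rw [← h6, abs_mul]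
      have : (1 : ℤ) ≤ |(d : ℤ)| := by
        rw [abs_of_nonneg (by positivity)]
        exact_mod_cast hd
      exact le_mul_of_one_le_left (abs_nonneg _) this
    refine (h7.trans (hPb l)).trans ?_
    exact_mod_cast Nat.le_add_right _ _
  push Not at hcase
  obtain ⟨z, hz, l0, hl0⟩ := hcase
  obtain ⟨v, hvb, hvI, hvs⟩ := h1 B AI hB hAIb
  obtain ⟨c, hc⟩ := hvs z (fun i => hAIr z i hz)
  obtain ⟨j, hj⟩ : ∃ j, aR Λ (fun k => (v j k : ℝ)) l0 ≠ 0 := by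
    by_contra hcon
    push Not at hcon
    apply hl0
    have h5 : z = fun k => ∑ l, c l * (v l k : ℝ) := funext hc
    rw [h5, aR_sum Λ (fun l k => (v l k : ℝ)) c l0]
    simp [hcon]
  obtain ⟨ζ, hζ⟩ : ∃ ζ : Fin K → ℤ, ζ = v j := ⟨_, rfl⟩
  rw [← hζ] at hj
  have hζb : ∀ k, |ζ k| ≤ ((C1 * B ^ E1 : ℕ) : ℤ) := by
    intro k
    rw [hζ]
    push_cast
    exact hvb j k
  have hζI : ∀ i ∈ I, aR A (fun k => (ζ k : ℝ)) i = 0 := hAIr' ζ (by rw [hζ]; exact hvI j)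
  -- the parameter
  obtain ⟨μ, hμ⟩ : ∃ μ : ℝ, ∀ l, aR Λ (fun k => (m k : ℝ)) l =
      (1 / d) * aR Λ (fun k => (z0 k : ℝ)) l + μ * aR Λ (fun k => (ζ k : ℝ)) l := by
    obtain ⟨a, b, hab, h5⟩ := h1d (fun k => 1 * (m k : ℝ) + (-(1 / d)) * (z0 k : ℝ))
      (fun k => (ζ k : ℝ)) (by
        intro i hi
        rw [aR_comb, hmI i hi, hz0I i hi]
        field_simp
        ring) hζI
    have h6 : ∀ l, a * (aR Λ (fun k => (m k : ℝ)) l - (1 / d) * aR Λ (fun k => (z0 k : ℝ)) l) +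
        b * aR Λ (fun k => (ζ k : ℝ)) l = 0 := by
      intro l
      have h7 := congrFun h5 l
      simp only [Pi.add_apply, Pi.smul_apply, smul_eq_mul, Pi.zero_apply, aR_comb] at h7
      linarith
    have ha : a ≠ 0 := by
      intro ha
      rcases hab with h7 | h7
      · exact h7 ha
      · have h8 := h6 l0
        rw [ha, zero_mul, zero_add] at h8
        exact (mul_ne_zero h7 hj) h8
    refine ⟨-b / a, fun l => ?_⟩
    have h7 := h6 l
    field_simp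
    field_simp at h7
    linarith
  -- integer vectors
  obtain ⟨P, hP⟩ : ∃ P : Fin L → ℤ, P = fun l => ∑ k, Λ l k * z0 k := ⟨_, rfl⟩
  obtain ⟨q, hq⟩ : ∃ q : Fin L → ℤ, q = fun l => ∑ k, Λ l k * ζ k := ⟨_, rfl⟩
  have hPc : aR Λ (fun k => (z0 k : ℝ)) = fun l => (P l : ℝ) := by
    funext l
    rw [hP, aR_cast]
  have hqc : aR Λ (fun k => (ζ k : ℝ)) = fun l => (q l : ℝ) := by
    funext l
    rw [hq, aR_cast]
  have hPb' : ∀ l, |P l| ≤ ((K * B * (C0 * B ^ E0) : ℕ) : ℤ) := by rw [hP]; exact hPb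
  have hqb : ∀ l, |q l| ≤ ((K * B * (C1 * B ^ E1) : ℕ) : ℤ) := by
    rw [hq]
    exact fun l => dotb _ _ _ _ (hΛ l) hζb
  obtain ⟨V, hV⟩ : ∃ V : Fin N → ℤ, V = fun i => (d : ℤ) * (∑ k, A i k * ζ k) + bZ (β i) P q +
    bZ (β i) q P := ⟨_, rfl⟩
  obtain ⟨W, hW⟩ : ∃ W : Fin N → ℤ, W = fun i => bZ (β i) q q := ⟨_, rfl⟩
  obtain ⟨R, hR⟩ : ∃ R : Fin N → ℤ, R = fun i => (d : ℤ) * d * h i - d * (∑ k, A i k * z0 k) -
    bZ (β i) P P := ⟨_, rfl⟩
  have hVc : ∀ i, (V i : ℝ) = d * aR A (fun k => (ζ k : ℝ)) i +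
      bR (β i) (fun l => (P l : ℝ)) (fun l => (q l : ℝ)) +
      bR (β i) (fun l => (q l : ℝ)) (fun l => (P l : ℝ)) := by
    intro i
    rw [hV, ← bZ_cast, ← bZ_cast, ← aR_cast]
    push_cast
    ring
  have hWc : ∀ i, (W i : ℝ) = bR (β i) (fun l => (q l : ℝ)) (fun l => (q l : ℝ)) := by
    intro i
    rw [hW, ← bZ_cast]
  have hRc : ∀ i, (R i : ℝ) = d * d * h i - d * aR A (fun k => (z0 k : ℝ)) i -
      bR (β i) (fun l => (P l : ℝ)) (fun l => (P l : ℝ)) := by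
    intro i
    rw [hR, ← bZ_cast, ← aR_cast]
    push_cast
    ring
  have hΛm : aR Λ (fun k => (m k : ℝ)) = fun l => (1 / d) * (P l : ℝ) + μ * (q l : ℝ) := by
    funext l
    rw [hμ l, hPc, hqc]
  have hζA : ∀ i, |∑ k, A i k * ζ k| ≤ ((K * B * (C1 * B ^ E1) : ℕ) : ℤ) := fun i =>
    dotb _ _ _ _ (hA i) hζb
  have hzA : ∀ i, |∑ k, A i k * z0 k| ≤ ((K * B * (C0 * B ^ E0) : ℕ) : ℤ) := fun i =>
    dotb _ _ _ _ (hA i) (fun k => by push_cast; exact hz0 k)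
  have hdZ : |(d : ℤ)| ≤ ((C0 * B ^ E0 : ℕ) : ℤ) := by
    rw [abs_of_nonneg (by positivity)]
    exact_mod_cast hdD
  have hVb : ∀ i, |V i| ≤ ((BV K L B (C0 * B ^ E0) (C1 * B ^ E1) : ℕ) : ℤ) := by
    intro i
    rw [hV]
    refine (abs_add_le _ _).trans ?_
    refine (add_le_add (abs_add_le _ _) le_rfl).trans ?_
    unfold BV
    rw [Nat.cast_add, Nat.cast_add]
    refine add_le_add (add_le_add ?_ (bZ_bound _ _ _ _ _ _ (hβ i) hPb' hqb))
      (bZ_bound _ _ _ _ _ _ (hβ i) hqb hPb')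
    rw [abs_mul, Nat.cast_mul]
    exact mul_le_mul hdZ (hζA i) (abs_nonneg _) (by positivity)
  have hRb : ∀ i, |R i| ≤ ((BRR K L B (C0 * B ^ E0) : ℕ) : ℤ) := by
    intro i
    rw [hR]
    refine (abs_sub _ _).trans ?_
    refine (add_le_add (abs_sub _ _) le_rfl).trans ?_
    unfold BRR
    rw [Nat.cast_add, Nat.cast_add]
    refine add_le_add (add_le_add ?_ ?_) (bZ_bound _ _ _ _ _ _ (hβ i) hPb' hPb')
    · rw [abs_mul, abs_mul, Nat.cast_mul, Nat.cast_mul]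
      exact mul_le_mul (mul_le_mul hdZ hdZ (abs_nonneg _) (by positivity)) (hh i) (abs_nonneg _)
        (by positivity)
    · rw [abs_mul, Nat.cast_mul]
      exact mul_le_mul hdZ (hzA i) (abs_nonneg _) (by positivity)
  -- the stacked matrix
  obtain ⟨M2, hM2⟩ : ∃ M2 : Matrix (Fin (N + L)) (Fin K) ℤ, M2 = fun i => Fin.addCases AI Λ i :=
    ⟨_, rfl⟩
  have hM2b : ∀ i k, |M2 i k| ≤ B := by
    intro i k
    rw [hM2]
    refine Fin.addCases (fun i => ?_) (fun i => ?_) i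
    · simp only [Fin.addCases_left]
      exact hAIb i k
    · simp only [Fin.addCases_right]
      exact hΛ i k
  obtain ⟨k2, hk2b, hk20, hk2s⟩ := h2 B M2 hB hM2b
  have hk2Λ : ∀ j l, aR Λ (fun k => (k2 j k : ℝ)) l = 0 := by
    intro j l
    have h5 := hk20 j (Fin.natAdd N l)
    rw [hM2] at h5
    simp only [Fin.addCases_right] at h5
    rw [← aR_cast, h5]
    simp
  obtain ⟨M3, hM3⟩ : ∃ M3 : Matrix (Fin K) (Fin N) ℤ, M3 = fun l i => ∑ k, A i k * k2 l k :=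
    ⟨_, rfl⟩
  have hM3c : ∀ l i, (M3 l i : ℝ) = aR A (fun k => (k2 l k : ℝ)) i := by
    intro l i
    rw [hM3, ← aR_cast]
  obtain ⟨φ, hφb, hφ0, hφs⟩ := h3 (K * B * (C2 * B ^ E2) + 1) M3 (by omega) (by
    intro l i
    rw [hM3]
    have h5 := dotb _ _ _ _ (hA i) (fun k => (by push_cast; exact hk2b l k :
      |k2 l k| ≤ ((C2 * B ^ E2 : ℕ) : ℤ)))
    refine h5.trans ?_
    exact_mod_cast Nat.le_succ _)
  have hφb' : ∀ j i, |φ j i| ≤ ((C3 * (K * B * (C2 * B ^ E2) + 1) ^ E3 : ℕ) : ℤ) := by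
    intro j i
    push_cast
    have := hφb j i
    push_cast at this
    exact this
  obtain ⟨j', hj'⟩ : ∃ j', (∑ i, φ j' i * V i ≠ 0 ∨ ∑ i, φ j' i * W i ≠ 0) := by
    by_contra hcon
    push Not at hcon
    obtain ⟨cV, hcV⟩ := ann M3 φ hφs (fun i => (V i : ℝ)) (fun j => by
      have := (hcon j).1
      exact_mod_cast this)
    obtain ⟨cW, hcW⟩ := ann M3 φ hφs (fun i => (W i : ℝ)) (fun j => by
      have := (hcon j).2
      exact_mod_cast this)
    obtain ⟨zV, hzV⟩ : ∃ zV : Fin K → ℝ, zV = fun k => ∑ l, cV l * (k2 l k : ℝ) := ⟨_, rfl⟩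
    obtain ⟨zW, hzW⟩ : ∃ zW : Fin K → ℝ, zW = fun k => ∑ l, cW l * (k2 l k : ℝ) := ⟨_, rfl⟩
    have e1 : ∀ i, aR A zV i = V i := by
      intro i
      rw [hzV, aR_sum A (fun l k => (k2 l k : ℝ)) cV i, hcV i]
      exact Finset.sum_congr rfl fun l _ => by rw [hM3c]
    have e2 : ∀ i, aR A zW i = W i := by
      intro i
      rw [hzW, aR_sum A (fun l k => (k2 l k : ℝ)) cW i, hcW i]
      exact Finset.sum_congr rfl fun l _ => by rw [hM3c]
    have e3 : ∀ l, aR Λ zV l = 0 := by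
      intro l
      rw [hzV, aR_sum Λ (fun l k => (k2 l k : ℝ)) cV l]
      exact Finset.sum_eq_zero fun j _ => by rw [hk2Λ, mul_zero]
    have e4 : ∀ l, aR Λ zW l = 0 := by
      intro l
      rw [hzW, aR_sum Λ (fun l k => (k2 l k : ℝ)) cW l]
      exact Finset.sum_eq_zero fun j _ => by rw [hk2Λ, mul_zero]
    obtain ⟨y, hy⟩ : ∃ y : Fin K → ℝ, y = fun k => 1 * (ζ k : ℝ) +
      (-1) * (fun k => (1 / d) * zV k + (2 * μ) * zW k) k := ⟨_, rfl⟩
    have e5 : aR Λ y = fun l => (q l : ℝ) := by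
      funext l
      rw [hy, aR_comb, aR_comb, e3, e4, hqc]
      ring
    have e6 : ∀ i, aR A y i = aR A (fun k => (ζ k : ℝ)) i - ((1 / d) * V i + (2 * μ) * W i) := by
      intro i
      rw [hy, aR_comb, aR_comb, e1, e2]
      ring
    apply hno
    refine ⟨y, zW, ?_, ?_, ?_, ?_⟩
    · intro h5
      apply hj
      have h6 := congrFun h5 l0
      rw [e5] at h6
      rw [hqc]
      simpa using h6
    · intro i
      rw [e6, e5, hΛm, bR_left, bR_right, hVc, hWc]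
      field_simp
      ring
    · funext l
      exact e4 l
    · intro i
      rw [e2, e5, hWc]
  -- the remainder
  obtain ⟨z', hz'⟩ : ∃ z' : Fin K → ℝ, z' = fun k => 1 * (m k : ℝ) +
      (-1) * (fun k => (1 / d) * (z0 k : ℝ) + μ * (ζ k : ℝ)) k := ⟨_, rfl⟩
  have hz'A : ∀ i, aR A z' i = aR A (fun k => (m k : ℝ)) i -
      ((1 / d) * aR A (fun k => (z0 k : ℝ)) i + μ * aR A (fun k => (ζ k : ℝ)) i) := by
    intro i
    rw [hz', aR_comb, aR_comb]
    ring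
  have hz'Λ : ∀ l, aR Λ z' l = 0 := by
    intro l
    rw [hz', aR_comb, aR_comb, hΛm, hPc, hqc]
    ring
  have hz'I : ∀ i ∈ I, aR A z' i = 0 := by
    intro i hi
    rw [hz'A, hmI i hi, hz0I i hi, hζI i hi]
    field_simp
    ring
  obtain ⟨c', hc'⟩ := hk2s z' (by
    intro i
    rw [hM2]
    refine Fin.addCases (fun i => ?_) (fun i => ?_) i
    · simp only [Fin.addCases_left]
      exact hAIr z' i hz'I
    · simp only [Fin.addCases_right]
      exact hz'Λ i)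
  have hφz' : ∑ i, (φ j' i : ℝ) * aR A z' i = 0 := by
    have e1 : ∀ i, aR A z' i = ∑ l, c' l * (M3 l i : ℝ) := by
      intro i
      have e2 : z' = fun k => ∑ l, c' l * (k2 l k : ℝ) := funext hc'
      rw [e2, aR_sum A (fun l k => (k2 l k : ℝ)) c' i]
      exact Finset.sum_congr rfl fun l _ => by rw [hM3c]
    simp only [e1, Finset.mul_sum]
    rw [Finset.sum_comm]
    refine Finset.sum_eq_zero fun l _ => ?_
    have h5 := hφ0 j' l
    have h6 : (∑ k, (M3 l k : ℝ) * (φ j' k : ℝ)) = 0 := by exact_mod_cast h5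
    calc ∑ i, (φ j' i : ℝ) * (c' l * (M3 l i : ℝ)) = c' l * ∑ k, (M3 l k : ℝ) * (φ j' k : ℝ) := by
          rw [Finset.mul_sum]
          exact Finset.sum_congr rfl fun i _ => by ring
      _ = 0 := by rw [h6, mul_zero]
  have hmain : ∀ i, (d : ℝ) * d * aR A z' i + (d * μ) * V i + (d * μ) ^ 2 * W i = R i := by
    intro i
    have h5 := heqR i
    rw [hΛm, bR_left, bR_right, bR_right] at h5
    rw [hz'A, hVc, hWc, hRc, ← h5]
    field_simp
    ring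
  have hφmain : (d * μ) * ((∑ i, φ j' i * V i : ℤ) : ℝ) + (d * μ) ^ 2 *
      ((∑ i, φ j' i * W i : ℤ) : ℝ) = ((∑ i, φ j' i * R i : ℤ) : ℝ) := by
    have h5 : ∑ i, (φ j' i : ℝ) * ((d : ℝ) * d * aR A z' i + (d * μ) * V i + (d * μ) ^ 2 * W i) =
        ∑ i, (φ j' i : ℝ) * (R i : ℝ) := Finset.sum_congr rfl fun i _ => by rw [hmain]
    have h6 : ∑ i, (φ j' i : ℝ) * ((d : ℝ) * d * aR A z' i + (d * μ) * V i + (d * μ) ^ 2 * W i) =
        (d : ℝ) * d * (∑ i, (φ j' i : ℝ) * aR A z' i) + (d * μ) * (∑ i, (φ j' i : ℝ) * (V i : ℝ)) +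
          (d * μ) ^ 2 * ∑ i, (φ j' i : ℝ) * (W i : ℝ) := by
      simp only [Finset.mul_sum, ← Finset.sum_add_distrib]
      exact Finset.sum_congr rfl fun i _ => by ring
    rw [h6, hφz', mul_zero, zero_add] at h5
    push_cast
    exact h5
  have hν := nu_bound (d * μ) _ _ _ hφmain hj'
  have hφV : |∑ i, φ j' i * V i| ≤ ((N * (C3 * (K * B * (C2 * B ^ E2) + 1) ^ E3) *
    BV K L B (C0 * B ^ E0) (C1 * B ^ E1) : ℕ) : ℤ) := dotb _ _ _ _ (hφb' j') hVb
  have hφR : |∑ i, φ j' i * R i| ≤ ((N * (C3 * (K * B * (C2 * B ^ E2) + 1) ^ E3) *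
    BRR K L B (C0 * B ^ E0) : ℕ) : ℤ) := dotb _ _ _ _ (hφb' j') hRb
  have hφV' : |((∑ i, φ j' i * V i : ℤ) : ℝ)| ≤ ((N * (C3 * (K * B * (C2 * B ^ E2) + 1) ^ E3) *
    BV K L B (C0 * B ^ E0) (C1 * B ^ E1) : ℕ) : ℝ) := by
    have := (Int.cast_le (R := ℝ)).2 hφV
    rw [Int.cast_abs] at this
    exact_mod_cast this
  have hφR' : |((∑ i, φ j' i * R i : ℤ) : ℝ)| ≤ ((N * (C3 * (K * B * (C2 * B ^ E2) + 1) ^ E3) *
    BRR K L B (C0 * B ^ E0) : ℕ) : ℝ) := by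
    have := (Int.cast_le (R := ℝ)).2 hφR
    rw [Int.cast_abs] at this
    exact_mod_cast this
  have hfin : |((Λ.mulVec m l : ℤ) : ℝ)| ≤ ((FF N K L B (C0 * B ^ E0) (C1 * B ^ E1)
      (C3 * (K * B * (C2 * B ^ E2) + 1) ^ E3) : ℕ) : ℝ) := by
    have h5 : (d : ℝ) * ((Λ.mulVec m l : ℤ) : ℝ) = P l + (d * μ) * q l := by
      rw [hml, hΛm]
      field_simp
    have h6 : |((Λ.mulVec m l : ℤ) : ℝ)| ≤ |(P l : ℝ)| + |(d : ℝ) * μ| * |(q l : ℝ)| := by
      calc |((Λ.mulVec m l : ℤ) : ℝ)| ≤ d * |((Λ.mulVec m l : ℤ) : ℝ)| :=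
            le_mul_of_one_le_left (abs_nonneg _) (by exact_mod_cast hd)
        _ = |(d : ℝ) * ((Λ.mulVec m l : ℤ) : ℝ)| := by rw [abs_mul, abs_of_pos hd0]
        _ ≤ _ := by
            rw [h5, ← abs_mul]
            exact abs_add_le _ _
    have h7 : |(P l : ℝ)| ≤ ((K * B * (C0 * B ^ E0) : ℕ) : ℝ) := by
      have := (Int.cast_le (R := ℝ)).2 (hPb' l)
      rw [Int.cast_abs] at this
      exact_mod_cast this
    have h8 : |(q l : ℝ)| ≤ ((K * B * (C1 * B ^ E1) : ℕ) : ℝ) := by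
      have := (Int.cast_le (R := ℝ)).2 (hqb l)
      rw [Int.cast_abs] at this
      exact_mod_cast this
    unfold FF
    rw [Nat.cast_add, Nat.cast_mul (_ + _), Nat.cast_add, Nat.cast_add, Nat.cast_one]
    refine h6.trans (add_le_add h7 (mul_le_mul ?_ h8 (abs_nonneg _) (by positivity)))
    linarith
  have hfin2 : ((|Λ.mulVec m l| : ℤ) : ℝ) ≤ (((FF N K L B (C0 * B ^ E0) (C1 * B ^ E1)
      (C3 * (K * B * (C2 * B ^ E2) + 1) ^ E3) : ℕ) : ℤ) : ℝ) := by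
    rw [Int.cast_abs]
    exact_mod_cast hfin
  exact (Int.cast_le (R := ℝ)).1 hfin2

end Pool.Agent.H32CE
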