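import Mathlib
import Pool.Agent.H32CE.St

set_option autoImplicit false

namespace Pool.Agent.H32CE

theorem t_R1 : S_R1 := by
  intro n k u hn hk hu
  rcases mul_eq_zero.mp hu with h | h
  · exact h
  · exfalso
    set f : Fin (n + 2) → ℝ := fun i => if i = 0 then 0 else if i = 1 then 1 else 2 with hf
    have h0 : f 0 = 0 := by simp [hf]
    have h1 : f 1 = 1 := by
      have : (1 : Fin (n + 2)) ≠ 0 := one_ne_zero
      simp [hf]
    have hl : f (Fin.last (n + 1)) = 2 := by
      have e0 : Fin.last (n + 1) ≠ 0 := by
        intro h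
        have := congrArg Fin.val h
        simp at this
      have e1 : Fin.last (n + 1) ≠ 1 := by
        intro h
        have := congrArg Fin.val h
        simp at this
        omega
      simp only [hf]
      rw [if_neg e0, if_neg e1]
    have h2 := congrArg (MvPolynomial.eval f) h
    simp only [map_sub, map_pow, MvPolynomial.eval_X, map_zero, h0, h1, hl] at h2
    have h3 : (2 : ℝ) ^ k = (-1) ^ k := by
      have : (0 - 1 : ℝ) ^ k - (2 - 0) ^ k = 0 := h2
      norm_num at this
      linarith
    have h4 : |(2 : ℝ) ^ k| = |(-1 : ℝ) ^ k| := by rw [h3]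
    rw [abs_pow, abs_pow, abs_neg, abs_one, one_pow, abs_two] at h4
    have h5 : (1 : ℝ) < 2 ^ k := one_lt_pow₀ (by norm_num) (by omega)
    linarith

end Pool.Agent.H32CE
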