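import Pool.Agent.H32CE.St

/-! R2: second rotation lemma.  Prover: helper676. -/

set_option autoImplicit false

namespace Pool.Agent.H32CE

namespace TR2

open MvPolynomial

/-- the sum over all rotations -/
noncomputable def av {n : ℕ} (f : MvPolynomial (Fin (n + 1)) ℝ) : MvPolynomial (Fin (n + 1)) ℝ :=
  ∑ r : Fin (n + 1), rename (fun i => i + r) f

theorem rename_rot {n : ℕ} (f : MvPolynomial (Fin (n + 1)) ℝ) (r : Fin (n + 1)) :
    rename (fun i => i + r) (rot f) = rename (fun i => i + (1 + r)) f := by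
  unfold rot
  rw [rename_rename]
  congr 2
  funext i
  simp only [Function.comp]
  rw [add_assoc, add_comm 1 r]

theorem av_rot {n : ℕ} (f : MvPolynomial (Fin (n + 1)) ℝ) : av (rot f) = av f := by
  unfold av
  simp only [rename_rot]
  exact Equiv.sum_comp (Equiv.addLeft (1 : Fin (n + 1))) (fun r => rename (fun i => i + r) f)

theorem rename_inv {n : ℕ} (g : MvPolynomial (Fin (n + 1)) ℝ) (hg : rot g = g)
    (r : Fin (n + 1)) : rename (fun i => i + r) g = g := by
  induction r using Fin.induction with
  | zero =>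
    simp only [add_zero]
    exact rename_id_apply g
  | succ i ih =>
    have h1 := rename_rot g i.castSucc
    rw [hg, ih] at h1
    rw [← Fin.coeSucc_eq_succ, add_comm i.castSucc 1]
    exact h1.symm

theorem av_mul {n : ℕ} (f g : MvPolynomial (Fin (n + 1)) ℝ) (hg : rot g = g) :
    av (f * g) = av f * g := by
  unfold av
  rw [Finset.sum_mul]
  refine Finset.sum_congr rfl fun r _ => ?_
  rw [map_mul, rename_inv g hg]

theorem av_add {n : ℕ} (f g : MvPolynomial (Fin (n + 1)) ℝ) : av (f + g) = av f + av g := by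
  unfold av
  rw [← Finset.sum_add_distrib]
  exact Finset.sum_congr rfl fun r _ => map_add _ _ _

theorem av_sub {n : ℕ} (f g : MvPolynomial (Fin (n + 1)) ℝ) : av (f - g) = av f - av g := by
  unfold av
  rw [← Finset.sum_sub_distrib]
  exact Finset.sum_congr rfl fun r _ => map_sub _ _ _

theorem av_X {n : ℕ} (a : Fin (n + 1)) : av (MvPolynomial.X a : MvPolynomial (Fin (n + 1)) ℝ) =
    ∑ r : Fin (n + 1), MvPolynomial.X r := by
  unfold av
  simp only [rename_X]
  exact Equiv.sum_comp (Equiv.addLeft a) (fun r => (MvPolynomial.X r : MvPolynomial (Fin (n + 1)) ℝ))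

theorem last_add_one (n : ℕ) : Fin.last n + 1 = 0 := Fin.last_add_one n

/-- the sum of the powers of the differences is not zero -/
theorem S_ne (m k : ℕ) (hk : 1 ≤ k) :
    av ((MvPolynomial.X (Fin.last (m + 2)) - MvPolynomial.X 0 : MvPolynomial (Fin (m + 3)) ℝ) ^ (k + 1)) ≠ 0 := by
  intro h0
  set t : Fin (m + 3) → ℝ := fun i => if i = 1 then -1 else if i = 1 + 1 then -2 else 0 with ht
  have h1 := congrArg (eval t) h0
  rw [map_zero] at h1
  unfold av at h1
  rw [map_sum, ← Equiv.sum_comp (Equiv.addRight (1 : Fin (m + 3)))] at h1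
  have n1 : (0 : Fin (m + 3)) ≠ 1 := by
    intro h
    have := congrArg Fin.val h
    simp at this
  have n2 : (1 + 1 : Fin (m + 3)) ≠ 1 := by
    intro h
    exact n1 (by simpa using h.symm)
  have n3 : (0 : Fin (m + 3)) ≠ 1 + 1 := by
    intro h
    have h2 := congrArg Fin.val h
    rw [Fin.val_add] at h2
    have e1 : ((1 : Fin (m + 3)) : ℕ) = 1 := rfl
    rw [e1, Fin.val_zero, Nat.mod_eq_of_lt (by omega)] at h2
    omega
  have hterm : ∀ i : Fin (m + 3), eval t (rename (fun j => j + Equiv.addRight (1 : Fin (m + 3)) i)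
      ((MvPolynomial.X (Fin.last (m + 2)) - MvPolynomial.X 0 : MvPolynomial (Fin (m + 3)) ℝ) ^ (k + 1))) =
      (if i = 0 then 1 else 0) + (if i = 1 then 1 else 0) +
        (if i = 1 + 1 then (-2) ^ (k + 1) else 0) := by
    intro i
    rw [map_pow, map_sub, rename_X, rename_X, map_pow, map_sub, eval_X, eval_X,
      Equiv.coe_addRight, zero_add]
    have e1 : Fin.last (m + 2) + (i + 1) = i := by
      rw [add_comm i 1, ← add_assoc, last_add_one, zero_add]
    rw [e1]
    have e2 : t (i + 1) = if i = 0 then -1 else if i = 1 then -2 else 0 := by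
      rw [ht]
      simp only [add_left_inj, add_eq_right]
    rw [e2, ht]
    simp only
    by_cases c0 : i = 0
    · subst c0
      rw [if_neg n1, if_neg n3, if_pos rfl, if_pos rfl, if_neg n1, if_neg n3]
      norm_num
    · by_cases c1 : i = 1
      · subst c1
        rw [if_pos rfl, if_neg n1.symm, if_pos rfl, if_neg n1.symm, if_pos rfl,
          if_neg (fun h => n2 h.symm)]
        norm_num
      · by_cases c2 : i = 1 + 1
        · rw [if_neg c1, if_pos c2, if_neg c0, if_neg c1, if_neg c0, if_neg c1, if_pos c2]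
          norm_num
        · rw [if_neg c1, if_neg c2, if_neg c0, if_neg c1, if_neg c0, if_neg c1, if_neg c2]
          norm_num
  rw [Finset.sum_congr rfl fun i _ => hterm i, Finset.sum_add_distrib, Finset.sum_add_distrib,
    Finset.sum_ite_eq', Finset.sum_ite_eq', Finset.sum_ite_eq', if_pos (Finset.mem_univ _),
    if_pos (Finset.mem_univ _), if_pos (Finset.mem_univ _)] at h1
  have h2 : (4 : ℝ) ≤ 2 ^ (k + 1) := by
    have : (2 : ℝ) ^ 2 ≤ 2 ^ (k + 1) := pow_le_pow_right₀ (by norm_num) (by omega)
    linarith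
  rcases Nat.even_or_odd (k + 1) with h3 | h3
  · rw [h3.neg_pow] at h1
    linarith
  · rw [h3.neg_pow] at h1
    linarith

end TR2

open TR2 in
theorem t_R2 : S_R2 := by
  intro n k v u W hn hk hrel hu hW
  obtain ⟨m, rfl⟩ : ∃ m, n = m + 1 := ⟨n - 1, by omega⟩
  set h : MvPolynomial (Fin (m + 1 + 2)) ℝ :=
    (MvPolynomial.X (Fin.last (m + 1 + 1)) - MvPolynomial.X 0) ^ k * u with hh
  have hrh : rot h = (MvPolynomial.X 0 - MvPolynomial.X 1) ^ k * u := by
    have hru : MvPolynomial.rename (fun i => i + 1) u = u := hu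
    rw [hh]
    unfold rot
    rw [map_mul, map_pow, map_sub, MvPolynomial.rename_X, MvPolynomial.rename_X, hru,
      last_add_one, zero_add]
  have hc : rot (W - h) = W - h := by
    have h1 : rot (W - h) = rot W - rot h := by
      unfold rot
      rw [map_sub]
    rw [h1, hrh, hh]
    linear_combination -hW
  have hA : rot (MvPolynomial.rename Fin.castSucc v : MvPolynomial (Fin (m + 1 + 2)) ℝ) =
      MvPolynomial.rename Fin.succ v := by
    unfold rot
    rw [MvPolynomial.rename_rename]
    congr 2
    funext i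
    simp only [Function.comp]
    exact Fin.coeSucc_eq_succ
  have hrel' := congrArg av hrel
  rw [av_sub, ← hA, av_rot, sub_self] at hrel'
  have e1 : (MvPolynomial.X 0 - MvPolynomial.X (Fin.last (m + 1 + 1))) * W =
      (MvPolynomial.X 0 - MvPolynomial.X (Fin.last (m + 1 + 1))) * (W - h) -
        (MvPolynomial.X (Fin.last (m + 1 + 1)) - MvPolynomial.X 0) ^ (k + 1) * u := by
    rw [hh]
    ring
  rw [e1, av_sub, av_mul _ _ hc, av_mul _ _ hu, av_sub, av_X, av_X, sub_self, zero_mul,
    zero_sub, neg_eq_zero] at hrel'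
  rcases mul_eq_zero.1 hrel' with h2 | h2
  · exact absurd h2 (S_ne m k hk)
  · exact h2

end Pool.Agent.H32CE
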