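import Pool.Agent.H32CE.St

set_option autoImplicit false

/-! Task RED: Gauss reduction. -/

namespace Pool.Agent.H32CE

namespace TRED

variable {ι : Type}

theorem ip_eq (f g : T ι) (s : Finset (FreeMonoid ι)) (hs : f.coeff.support ⊆ s) :
    ip f g = ∑ m ∈ s, f.coeff m * g.coeff m := by
  unfold ip
  exact Finsupp.sum_of_support_subset _ hs _ (fun m _ => by rw [zero_mul])

theorem ip_symm (f g : T ι) : ip f g = ip g f := by
  classical
  rw [ip_eq f g (f.coeff.support ∪ g.coeff.support) Finset.subset_union_left,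
    ip_eq g f (f.coeff.support ∪ g.coeff.support) Finset.subset_union_right]
  exact Finset.sum_congr rfl fun m _ => mul_comm _ _

theorem ip_comb (a b : T ι) (k : ℝ) :
    ip (k • a + b) (k • a + b) = k ^ 2 * ip a a + 2 * k * ip a b + ip b b := by
  classical
  set s := a.coeff.support ∪ b.coeff.support with hs
  have hsub : (k • a + b).coeff.support ⊆ s := by
    intro m hm
    by_contra hm'
    rw [hs, Finset.mem_union, not_or, Finsupp.notMem_support_iff, Finsupp.notMem_support_iff]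
      at hm'
    rw [Finsupp.mem_support_iff] at hm
    apply hm
    rw [MonoidAlgebra.coeff_add, Finsupp.add_apply, MonoidAlgebra.coeff_smul_apply, hm'.1, hm'.2,
      smul_zero, zero_add]
  rw [ip_eq _ _ s hsub, ip_eq a a s Finset.subset_union_left, ip_eq a b s Finset.subset_union_left,
    ip_eq b b s Finset.subset_union_right, Finset.mul_sum, Finset.mul_sum,
    ← Finset.sum_add_distrib, ← Finset.sum_add_distrib]
  refine Finset.sum_congr rfl fun m _ => ?_
  rw [MonoidAlgebra.coeff_add, Finsupp.add_apply, MonoidAlgebra.coeff_smul_apply, smul_eq_mul]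
  ring

theorem ip_nat (f : T ι) (N : ℝ) (h : ∀ m, ∃ z : ℤ, N * f.coeff m = z) :
    ∃ n : ℕ, N ^ 2 * ip f f = n := by
  choose z hz using h
  refine ⟨∑ m ∈ f.coeff.support, (z m).natAbs ^ 2, ?_⟩
  rw [ip_eq f f _ subset_rfl, Finset.mul_sum]
  push_cast
  refine Finset.sum_congr rfl fun m _ => ?_
  have h1 : (((z m).natAbs : ℕ) : ℝ) ^ 2 = (z m : ℝ) ^ 2 := by
    rw [Nat.cast_natAbs, Int.cast_abs, sq_abs]
  rw [h1, ← hz m]
  ring

theorem br_left (a b : T ι) (k : ℝ) : br a (k • a + b) = br a b := by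
  unfold br
  rw [mul_add, add_mul, mul_smul_comm, smul_mul_assoc]
  abel

theorem br_right (a b : T ι) (k : ℝ) : br (k • b + a) b = br a b := by
  unfold br
  rw [mul_add, add_mul, mul_smul_comm, smul_mul_assoc]
  abel

theorem cm1 {G : Type} [Group G] (x y : G) : cm x (x * y) = cm x y := by
  unfold cm; group

theorem cm2 {G : Type} [Group G] (x y : G) : cm x (x⁻¹ * y) = cm x y := by
  unfold cm; group

theorem cm3 {G : Type} [Group G] (x y : G) : cm (y * x) y = cm x y := by
  unfold cm; group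

theorem cm4 {G : Type} [Group G] (x y : G) : cm (y⁻¹ * x) y = cm x y := by
  unfold cm; group

/-- one replacement -/
theorem repl (hB : S_BAS) {p : ℕ} (hp : 1 ≤ p) {x y : FreeGroup ι} (hx : D p x) (hy : D p y) :
    (D p (x * y) ∧ cf p (x * y) = (1 : ℝ) • cf p x + cf p y) ∧
    (D p (x⁻¹ * y) ∧ cf p (x⁻¹ * y) = (-1 : ℝ) • cf p x + cf p y) := by
  obtain ⟨-, -, h3, h4, -, h6, h7, -⟩ := hB ι
  refine ⟨⟨h3 p x y hx hy, ?_⟩, h3 p _ y (h4 p x hx) hy, ?_⟩
  · rw [h6 p p x y hx hy p hp (by omega), one_smul]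
  · rw [h6 p p _ y (h4 p x hx) hy p hp (by omega), h7 p x hx p hp (by omega), neg_one_smul]

end TRED

open TRED

theorem t_RED (hB : S_BAS) (hI : S_INT) : S_RED := by
  intro r p x y hp hty
  obtain ⟨n1, hn1⟩ := ip_nat (cf p x) (p.factorial : ℝ) (hI _ p x)
  obtain ⟨n2, hn2⟩ := ip_nat (cf p y) (p.factorial : ℝ) (hI _ p y)
  have hN : (0 : ℝ) < (p.factorial : ℝ) ^ 2 := by positivity
  suffices H : ∀ (n : ℕ) (x y : FreeGroup (Fin r)), Typed p p x y →
      (p.factorial : ℝ) ^ 2 * (ip (cf p x) (cf p x) + ip (cf p y) (cf p y)) = n →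
      ∃ x' y' : FreeGroup (Fin r), cm x' y' = cm x y ∧ Typed p p x' y' ∧
        2 * |ip (cf p x') (cf p y')| ≤ ip (cf p x') (cf p x') ∧
        2 * |ip (cf p x') (cf p y')| ≤ ip (cf p y') (cf p y') by
    refine H (n1 + n2) x y hty ?_
    rw [mul_add, hn1, hn2]
    push_cast
    ring
  clear hn1 hn2 n1 n2 hty x y
  intro n
  induction n using Nat.strong_induction_on with
  | _ n ih =>
    intro x y hty hn
    obtain ⟨hx, hy, hbr⟩ := hty
    -- a step
    have step : ∀ x' y' : FreeGroup (Fin r), cm x' y' = cm x y → Typed p p x' y' →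
        ip (cf p x') (cf p x') + ip (cf p y') (cf p y') <
          ip (cf p x) (cf p x) + ip (cf p y) (cf p y) →
        ∃ x'' y'' : FreeGroup (Fin r), cm x'' y'' = cm x y ∧ Typed p p x'' y'' ∧
        2 * |ip (cf p x'') (cf p y'')| ≤ ip (cf p x'') (cf p x'') ∧
        2 * |ip (cf p x'') (cf p y'')| ≤ ip (cf p y'') (cf p y'') := by
      intro x' y' hc ht hlt
      obtain ⟨n1, hn1⟩ := ip_nat (cf p x') (p.factorial : ℝ) (hI _ p x')
      obtain ⟨n2, hn2⟩ := ip_nat (cf p y') (p.factorial : ℝ) (hI _ p y')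
      have h1 : (p.factorial : ℝ) ^ 2 * (ip (cf p x') (cf p x') + ip (cf p y') (cf p y')) =
          ((n1 + n2 : ℕ) : ℝ) := by
        rw [mul_add, hn1, hn2]
        push_cast
        ring
      have h2 : n1 + n2 < n := by
        have h3 : ((n1 + n2 : ℕ) : ℝ) < n := by
          rw [← h1, ← hn]
          exact mul_lt_mul_of_pos_left hlt hN
        exact_mod_cast h3
      obtain ⟨x'', y'', e1, e2⟩ := ih (n1 + n2) h2 x' y' ht h1
      exact ⟨x'', y'', e1.trans hc, e2⟩
    by_cases h1 : 2 * |ip (cf p x) (cf p y)| ≤ ip (cf p x) (cf p x)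
    · by_cases h2 : 2 * |ip (cf p x) (cf p y)| ≤ ip (cf p y) (cf p y)
      · exact ⟨x, y, rfl, ⟨hx, hy, hbr⟩, h1, h2⟩
      · push Not at h2
        obtain ⟨⟨d1, c1⟩, d2, c2⟩ := repl hB hp hy hx
        rw [ip_symm (cf p x) (cf p y)] at h2
        rcases le_total 0 (ip (cf p y) (cf p x)) with hs | hs
        · rw [abs_of_nonneg hs] at h2
          refine step (y⁻¹ * x) y (cm4 x y) ⟨d2, hy, ?_⟩ ?_
          · rw [c2, br_right]; exact hbr
          · rw [c2, ip_comb]
            linarith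
        · rw [abs_of_nonpos hs] at h2
          refine step (y * x) y (cm3 x y) ⟨d1, hy, ?_⟩ ?_
          · rw [c1, br_right]; exact hbr
          · rw [c1, ip_comb]
            linarith
    · push Not at h1
      obtain ⟨⟨d1, c1⟩, d2, c2⟩ := repl hB hp hx hy
      rcases le_total 0 (ip (cf p x) (cf p y)) with hs | hs
      · rw [abs_of_nonneg hs] at h1
        refine step x (x⁻¹ * y) (cm2 x y) ⟨hx, d2, ?_⟩ ?_
        · rw [c2, br_left]; exact hbr
        · rw [c2, ip_comb]
          linarith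
      · rw [abs_of_nonpos hs] at h1
        refine step x (x * y) (cm1 x y) ⟨hx, d1, ?_⟩ ?_
        · rw [c1, br_left]; exact hbr
        · rw [c1, ip_comb]
          linarith

end Pool.Agent.H32CE
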