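import Pool.Agent.H32CE.St

set_option autoImplicit false

namespace Pool.Agent.H32CE

namespace TRQ

/-- `spc` as an algebra homomorphism. -/
noncomputable def spcA (n : ℕ) :
    MvPolynomial (Fin (n + 2)) ℝ →ₐ[ℝ] MvPolynomial (Fin (n + 1)) ℝ :=
  MvPolynomial.rename (fun i : Fin (n + 2) => (Fin.ofNat (n + 1) i.val))

theorem spcA_apply {n : ℕ} (v : MvPolynomial (Fin (n + 2)) ℝ) : spcA n v = spc v := rfl

theorem spcA_X0 (n : ℕ) : spcA n (MvPolynomial.X 0) = MvPolynomial.X 0 := by
  unfold spcA
  rw [MvPolynomial.rename_X]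
  congr 1

theorem spcA_X1 (n : ℕ) : spcA n (MvPolynomial.X 1) = MvPolynomial.X 1 := by
  unfold spcA
  rw [MvPolynomial.rename_X]
  congr 1

theorem spcA_Xc (n : ℕ) : spcA n (MvPolynomial.X (Fin.castSucc (Fin.last n))) =
    MvPolynomial.X (Fin.last n) := by
  unfold spcA
  rw [MvPolynomial.rename_X]
  congr 1
  apply Fin.ext
  simp

theorem spcA_Xl (n : ℕ) : spcA n (MvPolynomial.X (Fin.last (n + 1))) =
    MvPolynomial.X 0 := by
  unfold spcA
  rw [MvPolynomial.rename_X]
  congr 1
  apply Fin.ext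
  simp

theorem const_of_hom0 {σ : Type} (v : MvPolynomial σ ℝ) (h : v.IsHomogeneous 0) :
    ∃ c : ℝ, v = MvPolynomial.C c := by
  refine ⟨v.coeff 0, ?_⟩
  exact MvPolynomial.totalDegree_eq_zero_iff_eq_C.1 (Nat.le_zero.1 h.totalDegree_le)

theorem rot_smul {n : ℕ} (c : ℝ) (v : MvPolynomial (Fin (n + 1)) ℝ) :
    rot (c • v) = c • rot v := by
  unfold rot
  rw [map_smul]

end TRQ

open TRQ in
theorem t_RQ (hM : S_MOD) (hS : S_SPC) (hR1 : S_R1) (hR2 : S_R2) (hAPR : S_APR) : S_RQ := by
  intro p q j Y W E ν hp hj hpq hY hE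
  obtain ⟨P, hinj, h0l, h0r, h1l, h1r, hal, har, hder, hhom, hC, hP0⟩ := hM
  have hrel : ∀ l ≤ j, ∀ κ, Rel κ (P κ (Y l)) (P (κ + 1) (W l)) := by
    intro l hl κ
    have h := congrArg (P (κ + 1)) (hY l hl).2.2
    simp only [br, map_add, map_sub, map_zero, h0l, h0r, h1l, h1r] at h
    unfold Rel
    linear_combination h
  have hrot : ∀ l ≤ j, ∀ κ, rot (P κ (Y l)) = P κ (Y l) := fun l hl κ =>
    (hS κ _ _ 0).2.2.2 (hrel l hl κ)
  have hA : ∀ κ f, spcA κ (P (κ + 1) (br (X 0) f)) = 0 := by
    intro κ f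
    have h := (hS κ 0 0 (P (κ + 1) f)).1
    rw [← spcA_apply] at h
    rw [← h]
    congr 1
    simp only [br, map_sub, h0l, h0r]
    ring
  have hB : ∀ κ f, spcA κ (P (κ + 1) (br (X 1) f)) = rot (P κ f) - P κ f := by
    intro κ f
    have h1 := (hS κ (P κ f) 0 0).2.1
    have h2 := (hS κ (P κ f) 0 0).2.2.1
    rw [← spcA_apply] at h1 h2
    simp only [br, map_sub, h1l, h1r, h1, h2]
  have hD : ∀ κ a l, l ≤ j → spcA κ (P (κ + 1) (br (adk a) (Y l))) = P κ (Y l) *
      ((MvPolynomial.X 0 - MvPolynomial.X 1) ^ a -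
        (MvPolynomial.X (Fin.last κ) - MvPolynomial.X 0) ^ a) := by
    intro κ a l hl
    have h1 := (hS κ (P κ (Y l)) 0 0).2.1
    have h2 := (hS κ (P κ (Y l)) 0 0).2.2.1
    rw [← spcA_apply] at h1 h2
    simp only [br, map_sub, hal, har, map_mul, map_pow, h1, h2, spcA_X0, spcA_X1, spcA_Xc,
      spcA_Xl, hrot l hl]
    ring
  have hst : ∀ i, 1 ≤ i → i ≤ j → ∀ κ, (∑ a ∈ Finset.Icc 1 i, if a * p ≤ i then
      ν a • (P κ (Y (i - a * p)) * ((MvPolynomial.X 0 - MvPolynomial.X 1) ^ a -
        (MvPolynomial.X (Fin.last κ) - MvPolynomial.X 0) ^ a)) else 0) =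
      if i = j then rot (P κ (W 0)) - P κ (W 0) else 0 := by
    intro i hi hij κ
    have h := congrArg (fun f => spcA κ (P (κ + 1) f)) (hE i hi hij)
    simp only [map_add, hA, add_zero, map_sum] at h
    have h3 : ∀ a ∈ Finset.Icc 1 i, spcA κ (P (κ + 1) (if a * p ≤ i then
        ν a • br (adk a) (Y (i - a * p)) else 0)) = if a * p ≤ i then
      ν a • (P κ (Y (i - a * p)) * ((MvPolynomial.X 0 - MvPolynomial.X 1) ^ a -
        (MvPolynomial.X (Fin.last κ) - MvPolynomial.X 0) ^ a)) else 0 := by
      intro a _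
      split_ifs with h4
      · rw [map_smul, map_smul, hD κ a _ (by omega)]
      · rw [map_zero, map_zero]
    rw [Finset.sum_congr rfl h3] at h
    rw [h]
    split_ifs with h4
    · exact hB κ (W 0)
    · rw [map_zero, map_zero]
  -- the rotation invariance of `P κ (W 0)`, `κ ≥ 2`
  have hrotW : ∀ n, 1 ≤ n → rot (P (n + 1) (W 0)) = P (n + 1) (W 0) := by
    intro n hn
    have hj' := hst j hj le_rfl (n + 1)
    rw [if_pos rfl] at hj'
    by_cases hex : ∃ a, 1 ≤ a ∧ a * p ≤ j ∧ ν a ≠ 0
    · classical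
      let a := Nat.find hex
      obtain ⟨ha1, ha2, ha3⟩ : 1 ≤ a ∧ a * p ≤ j ∧ ν a ≠ 0 := Nat.find_spec hex
      have hmin : ∀ b, 1 ≤ b → b < a → ν b = 0 := by
        intro b hb1 hb2
        by_contra hne
        refine Nat.find_min hex hb2 ⟨hb1, ?_, hne⟩
        exact (Nat.mul_le_mul_right p hb2.le).trans ha2
      have hlow : ∀ l, l + a * p < j → P (n + 1) (Y l) = 0 := by
        intro l
        induction l using Nat.strong_induction_on with
        | _ l ih =>
          intro hl
          have hap : a ≤ a * p := Nat.le_mul_of_pos_right a hp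
          have h := hst (l + a * p) (by omega) hl.le (n + 1)
          rw [if_neg (by omega), Finset.sum_eq_single a] at h
          · rw [if_pos (by omega), Nat.add_sub_cancel] at h
            have h5 := (smul_eq_zero.1 h).resolve_left ha3
            exact hR1 n a _ hn ha1 h5
          · intro b hb hba
            rw [Finset.mem_Icc] at hb
            split_ifs with h4
            · rcases Nat.lt_or_gt_of_ne hba with h5 | h5
              · rw [hmin b hb.1 h5, zero_smul]
              · have h6 : (a + 1) * p ≤ b * p := Nat.mul_le_mul_right p h5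
                rw [add_mul, one_mul] at h6
                rw [ih (l + a * p - b * p) (by omega) (by omega), zero_mul, smul_zero]
            · rfl
          · intro hna
            exfalso
            apply hna
            rw [Finset.mem_Icc]
            omega
      have hap : a ≤ a * p := Nat.le_mul_of_pos_right a hp
      rw [Finset.sum_eq_single a] at hj'
      · rw [if_pos ha2] at hj'
        rw [← smul_mul_assoc] at hj'
        have hu : ν a • P (n + 1) (Y (j - a * p)) = 0 := by
          refine hR2 n a (P n (Y 0)) _ (P (n + 1) (W 0)) hn ha1 (hrel 0 (by omega) n) ?_ hj'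
          rw [rot_smul, hrot _ (by omega)]
        rw [hu, zero_mul] at hj'
        exact (sub_eq_zero.1 hj'.symm)
      · intro b hb hba
        rw [Finset.mem_Icc] at hb
        split_ifs with h4
        · rcases Nat.lt_or_gt_of_ne hba with h5 | h5
          · rw [hmin b hb.1 h5, zero_smul]
          · have h6 : (a + 1) * p ≤ b * p := Nat.mul_le_mul_right p h5
            rw [add_mul, one_mul] at h6
            rw [hlow (j - b * p) (by omega), zero_mul, smul_zero]
        · rfl
      · intro hna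
        exfalso
        apply hna
        rw [Finset.mem_Icc]
        omega
    · push Not at hex
      rw [Finset.sum_eq_zero] at hj'
      · exact (sub_eq_zero.1 hj'.symm)
      · intro b hb
        rw [Finset.mem_Icc] at hb
        split_ifs with h4
        · rw [hex b hb.1 h4, zero_smul]
        · rfl
  -- conclusion
  obtain ⟨hpr, hY0, -⟩ := hY 0 (by omega)
  rw [add_zero] at hY0
  apply hinj
  intro κ
  by_contra hne
  obtain ⟨x, hx, hhx⟩ := hhom κ p (p + j) q (Y 0) hp hY0 hne
  rcases Nat.eq_zero_or_pos κ with hκ | hκ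
  · subst hκ
    obtain ⟨c, hc⟩ := hP0 (Y 0) hpr
    have hc0 : c ≠ 0 := by
      rintro rfl
      rw [zero_smul] at hc
      exact hne hc
    have h1 : (P 0 (Y 0)).IsHomogeneous 1 := by
      rw [hc, MvPolynomial.smul_eq_C_mul]
      have := (MvPolynomial.isHomogeneous_C (Fin (0 + 1)) c).mul
        (MvPolynomial.isHomogeneous_X ℝ (0 : Fin (0 + 1)))
      simpa using this
    have h2 : x = 1 := hhx.inj_right h1 hne
    subst h2
    omega
  · rcases Nat.eq_zero_or_pos x with hx0 | hx0
    · subst hx0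
      obtain ⟨c, hc⟩ := const_of_hom0 _ hhx
      rcases Nat.lt_or_ge κ 2 with hκ2 | hκ2
      · have : κ = 1 := by omega
        subst this
        omega
      · have := hC κ c (Y 0) hκ2 hpr hc
        rw [this, map_zero] at hc
        exact hne hc
    · exact hne (hAPR κ x _ (P (κ + 1) (W 0)) hκ hx0 hhx (hrel 0 (by omega) κ) (hrotW κ hκ)
        (hder κ _ hκ hpr))

end Pool.Agent.H32CE
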