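import Pool.Agent.H32CE.St

set_option autoImplicit false

namespace Pool.Agent.H32CE

open PowerSeries

namespace TSIZ

theorem nm_single {ι : Type} (m : FreeMonoid ι) (a : ℝ) :
    nm (MonoidAlgebra.single m a : T ι) = |a| := by
  unfold nm
  rw [MonoidAlgebra.coeff_single, Finsupp.sum_single_index]
  simp

theorem nm_one {ι : Type} : nm (1 : T ι) = 1 := by
  have : (1 : T ι) = MonoidAlgebra.single 1 1 := rfl
  rw [this, nm_single, abs_one]

theorem nm_X {ι : Type} (i : ι) : nm (X i : T ι) = 1 := by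
  unfold X
  rw [nm_single, abs_one]

theorem nm_neg (h : S_NM) {ι : Type} (f : T ι) : nm (-f) = nm f := by
  have h1 := (h ι f f (-1)).2.2.1
  rw [neg_one_smul, abs_neg, abs_one, one_mul] at h1
  exact h1

theorem nm_pow (h : S_NM) {ι : Type} (f : T ι) (k : ℕ) : nm (f ^ k) ≤ nm f ^ k := by
  induction k with
  | zero => rw [pow_zero, pow_zero, nm_one]
  | succ k ih =>
    rw [pow_succ, pow_succ]
    exact ((h ι (f ^ k) f 1).2.1).trans (mul_le_mul_of_nonneg_right ih (h ι f f 1).2.2.2.1)

theorem nm_sum (h : S_NM) {ι α : Type} (s : Finset α) (f : α → T ι) :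
    nm (∑ i ∈ s, f i) ≤ ∑ i ∈ s, nm (f i) := by
  classical
  induction s using Finset.induction_on with
  | empty => simp [nm]
  | insert a s ha ih =>
    rw [Finset.sum_insert ha, Finset.sum_insert ha]
    exact ((h ι (f a) (∑ i ∈ s, f i) 1).1).trans (by linarith)

theorem coeff_ex {A : Type} [Ring A] [Algebra ℝ A] (x : A) (k : ℕ) :
    coeff k (ex 1 x) = ((k.factorial : ℝ)⁻¹) • x ^ k := by
  simp [ex]

theorem letter (h : S_NM) {r : ℕ} (a : Fin r × Bool) (k : ℕ) :
    nm (coeff k ((magU (Fin r) (FreeGroup.mk [a]) : (PS (T (Fin r)))ˣ) : PS (T (Fin r)))) ≤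
      (k.factorial : ℝ)⁻¹ := by
  obtain ⟨i, b⟩ := a
  have h0 : (0 : ℝ) ≤ (k.factorial : ℝ)⁻¹ := by positivity
  have key : ∀ y : T (Fin r), nm y = 1 → nm (((k.factorial : ℝ)⁻¹) • y ^ k) ≤
      (k.factorial : ℝ)⁻¹ := by
    intro y hy
    rw [(h (Fin r) (y ^ k) 0 _).2.2.1, abs_of_nonneg h0]
    have := nm_pow h y k
    rw [hy, one_pow] at this
    nlinarith
  cases b with
  | true =>
    have h1 : ((magU (Fin r) (FreeGroup.mk [(i, true)]) : (PS (T (Fin r)))ˣ) : PS (T (Fin r))) =
        ex 1 (X i) := by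
      simp [magU, exU]
    rw [h1, coeff_ex]
    exact key _ (nm_X i)
  | false =>
    have h1 : ((magU (Fin r) (FreeGroup.mk [(i, false)]) : (PS (T (Fin r)))ˣ) : PS (T (Fin r))) =
        ex 1 (-X i) := by
      simp [magU]
      rfl
    rw [h1, coeff_ex]
    exact key _ (by rw [nm_neg h, nm_X])

theorem main (h : S_NM) {r : ℕ} (L : List (Fin r × Bool)) (k : ℕ) :
    nm (cf k (FreeGroup.mk L)) ≤ (L.length : ℝ) ^ k / k.factorial := by
  induction L generalizing k with
  | nil =>
    have h1 : (FreeGroup.mk [] : FreeGroup (Fin r)) = 1 := rfl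
    unfold cf mag
    rw [h1, map_one, Units.val_one, PowerSeries.coeff_one]
    by_cases hk : k = 0
    · subst hk
      simp [nm_one]
    · rw [if_neg hk]
      simp [nm, hk]
  | cons a L ih =>
    have h1 : (FreeGroup.mk (a :: L) : FreeGroup (Fin r)) =
        FreeGroup.mk [a] * FreeGroup.mk L := by
      rw [FreeGroup.mul_mk]
      rfl
    unfold cf mag
    rw [h1, map_mul, Units.val_mul, PowerSeries.coeff_mul]
    refine (nm_sum h _ _).trans ?_
    have h2 : ∀ p ∈ Finset.HasAntidiagonal.antidiagonal k,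
        nm (coeff p.1 ((magU (Fin r) (FreeGroup.mk [a]) : (PS (T (Fin r)))ˣ) : PS (T (Fin r))) *
          coeff p.2 ((magU (Fin r) (FreeGroup.mk L) : (PS (T (Fin r)))ˣ) : PS (T (Fin r)))) ≤
        (p.1.factorial : ℝ)⁻¹ * ((L.length : ℝ) ^ p.2 / p.2.factorial) := by
      intro p _
      refine ((h (Fin r) _ _ 1).2.1).trans ?_
      exact mul_le_mul (letter h a p.1) (ih p.2) (h (Fin r) _ 0 1).2.2.2.1 (by positivity)
    refine (Finset.sum_le_sum h2).trans (le_of_eq ?_)
    have h3 : ((a :: L).length : ℝ) = 1 + L.length := by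
      rw [List.length_cons]
      push_cast
      ring
    rw [h3, Commute.add_pow' (Commute.all _ _), Finset.sum_div]
    refine Finset.sum_congr rfl fun p hp => ?_
    have hp' : p.1 + p.2 = k := by simpa using hp
    have hch := Nat.add_choose_mul_factorial_mul_factorial p.1 p.2
    rw [← Nat.choose_symm_add] at hch
    have hch' : (((p.1 + p.2).choose p.1 : ℕ) : ℝ) * p.1.factorial * p.2.factorial =
        (p.1 + p.2).factorial := by exact_mod_cast hch
    rw [← hp', one_pow, one_mul, nsmul_eq_mul]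
    have g1 : ((p.1 + p.2).factorial : ℝ) ≠ 0 := by positivity
    have g2 : (p.1.factorial : ℝ) ≠ 0 := by positivity
    have g3 : (p.2.factorial : ℝ) ≠ 0 := by positivity
    field_simp
    rw [← hch']
    ring

end TSIZ

theorem t_SIZ (h : S_NM) : S_SIZ := by
  intro r k
  refine ⟨1, fun x => ?_⟩
  have h1 := TSIZ.main h x.toWord k
  rw [FreeGroup.mk_toWord] at h1
  refine h1.trans ?_
  have h2 : (0 : ℝ) ≤ (x.toWord.length : ℝ) := by positivity
  have h3 : (1 : ℝ) ≤ k.factorial := by exact_mod_cast Nat.one_le_iff_ne_zero.2 (Nat.factorial_ne_zero k)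
  calc (x.toWord.length : ℝ) ^ k / k.factorial ≤ (x.toWord.length : ℝ) ^ k :=
        div_le_self (by positivity) h3
    _ ≤ ((len x : ℝ) + 1) ^ k := by
        apply pow_le_pow_left₀ h2
        unfold len
        linarith
    _ = (1 : ℕ) * ((len x : ℝ) + 1) ^ k := by simp

end Pool.Agent.H32CE
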