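import Mathlib
import Pool.Agent.H32CE.St

set_option autoImplicit false

/-!
# Task SPC: specialisation rules
-/

namespace Pool.Agent.H32CE

open MvPolynomial

theorem TSPC.zero (n : ℕ) (E : MvPolynomial (Fin (n + 2)) ℝ) :
    spc ((MvPolynomial.X 0 - MvPolynomial.X (Fin.last (n + 1))) * E) = 0 := by
  have h0 : (Fin.ofNat (n + 1) ((0 : Fin (n + 2)).val)) = (0 : Fin (n + 1)) := by
    apply Fin.ext
    simp [Fin.ofNat]
  have h1 : (Fin.ofNat (n + 1) ((Fin.last (n + 1)).val)) = (0 : Fin (n + 1)) := by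
    apply Fin.ext
    simp [Fin.ofNat]
  unfold spc
  rw [map_mul, map_sub, rename_X, rename_X, h0, h1, sub_self, zero_mul]

theorem TSPC.succ (n : ℕ) (v : MvPolynomial (Fin (n + 1)) ℝ) :
    spc (MvPolynomial.rename Fin.succ v) = rot v := by
  unfold spc rot
  rw [rename_rename]
  congr 2
  funext i
  apply Fin.ext
  simp [Fin.ofNat, Fin.val_add]

theorem TSPC.cast (n : ℕ) (v : MvPolynomial (Fin (n + 1)) ℝ) :
    spc (MvPolynomial.rename Fin.castSucc v) = v := by
  unfold spc
  rw [rename_rename]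
  have : ((fun i : Fin (n + 2) => (Fin.ofNat (n + 1) i.val)) ∘ Fin.castSucc) = id := by
    funext i
    apply Fin.ext
    simp [Fin.ofNat, Nat.mod_eq_of_lt i.isLt]
  rw [this, rename_id]
  rfl

theorem t_SPC : S_SPC := by
  intro n v W E
  refine ⟨TSPC.zero n E, TSPC.succ n v, TSPC.cast n v, ?_⟩
  intro h
  unfold Rel at h
  have h2 := congrArg spc h
  rw [TSPC.zero] at h2
  have h3 : spc (MvPolynomial.rename Fin.castSucc v - MvPolynomial.rename Fin.succ v) =
      spc (MvPolynomial.rename Fin.castSucc v) - spc (MvPolynomial.rename Fin.succ v) := by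
    unfold spc
    rw [map_sub]
  rw [h3, TSPC.succ, TSPC.cast] at h2
  exact (sub_eq_zero.mp h2.symm).symm

end Pool.Agent.H32CE
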