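import Pool.Agent.H32CE.St

set_option autoImplicit false

/-!
# Project CE, task SUB2: weighted substitution (helper784)
-/

namespace Pool.Agent.H32CE

open PowerSeries

namespace TSUB2

/-- `Θ f = ∑ τ^k θ(f_k)` -/
noncomputable def Th {B A : Type} [Ring B] [Ring A] (θ : B →+* PS A) (f : PS B) : PS A :=
  PowerSeries.mk fun i => ∑ x ∈ Finset.HasAntidiagonal.antidiagonal i,
    coeff x.2 (θ (coeff x.1 f))

theorem coeff_Th {B A : Type} [Ring B] [Ring A] (θ : B →+* PS A) (f : PS B) (i : ℕ) :
    coeff i (Th θ f) = ∑ x ∈ Finset.HasAntidiagonal.antidiagonal i,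
      coeff x.2 (θ (coeff x.1 f)) := by
  rw [Th, PowerSeries.coeff_mk]

theorem Th_one {B A : Type} [Ring B] [Ring A] (θ : B →+* PS A) : Th θ 1 = 1 := by
  ext i
  rw [coeff_Th, Finset.sum_eq_single (0, i)]
  · simp
  · rintro ⟨a, b⟩ hab hne
    rw [Finset.HasAntidiagonal.mem_antidiagonal] at hab
    have ha : a ≠ 0 := by
      rintro rfl
      apply hne
      simp at hab
      rw [hab]
    simp [PowerSeries.coeff_one, ha]
  · intro h
    exact absurd (Finset.HasAntidiagonal.mem_antidiagonal.2 (by simp)) h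

theorem Th_mul {B A : Type} [Ring B] [Ring A] (θ : B →+* PS A) (f g : PS B) :
    Th θ (f * g) = Th θ f * Th θ g := by
  ext i
  rw [coeff_Th, PowerSeries.coeff_mul]
  simp only [coeff_Th, PowerSeries.coeff_mul, map_sum, map_mul, Finset.sum_mul_sum]
  simp only [Finset.sum_sigma']
  refine Finset.sum_nbij'
    (fun x => ⟨(x.2.1.1 + x.2.2.1, x.2.1.2 + x.2.2.2), ⟨(x.2.1.1, x.2.2.1), (x.2.1.2, x.2.2.2)⟩⟩)
    (fun x => ⟨(x.2.1.1 + x.2.2.1, x.2.1.2 + x.2.2.2), ⟨(x.2.1.1, x.2.2.1), (x.2.1.2, x.2.2.2)⟩⟩)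
    ?_ ?_ ?_ ?_ ?_
  · rintro ⟨⟨k, l⟩, ⟨⟨a, b⟩, ⟨c, d⟩⟩⟩ h
    simp only [Finset.mem_sigma, Finset.HasAntidiagonal.mem_antidiagonal] at h ⊢
    exact ⟨by omega, trivial, trivial⟩
  · rintro ⟨⟨k, l⟩, ⟨⟨a, b⟩, ⟨c, d⟩⟩⟩ h
    simp only [Finset.mem_sigma, Finset.HasAntidiagonal.mem_antidiagonal] at h ⊢
    exact ⟨by omega, trivial, trivial⟩
  · rintro ⟨⟨k, l⟩, ⟨⟨a, b⟩, ⟨c, d⟩⟩⟩ h
    simp only [Finset.mem_sigma, Finset.HasAntidiagonal.mem_antidiagonal] at h ⊢
    obtain ⟨h1, h2, h3⟩ := h
    subst h2 h3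
    rfl
  · rintro ⟨⟨k, l⟩, ⟨⟨a, b⟩, ⟨c, d⟩⟩⟩ h
    simp only [Finset.mem_sigma, Finset.HasAntidiagonal.mem_antidiagonal] at h ⊢
    obtain ⟨h1, h2, h3⟩ := h
    subst h2 h3
    rfl
  · rintro ⟨⟨k, l⟩, ⟨⟨a, b⟩, ⟨c, d⟩⟩⟩ h
    rfl

/-- as a monoid homomorphism -/
noncomputable def ThM {B A : Type} [Ring B] [Ring A] (θ : B →+* PS A) : PS B →* PS A where
  toFun := Th θ
  map_one' := Th_one θ
  map_mul' := Th_mul θ

/-- the shifted series -/
noncomputable def sh {A : Type} [Ring A] (p : ℕ) (u : PS A) : PS A :=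
  PowerSeries.mk fun n => coeff (n + p) (u - 1)

theorem Th_li {B A : Type} [Ring B] [Ring A] (θ : B →+* PS A) (p : ℕ) (hp : 1 ≤ p) (x : B)
    (u : PS A) (hu : ordge p (u - 1)) (hx : θ x = sh p u) : Th θ (li p x) = u := by
  ext i
  rw [coeff_Th]
  have h1 : ∀ y ∈ Finset.HasAntidiagonal.antidiagonal i, coeff y.2 (θ (coeff y.1 (li p x))) =
      (if y = (0, i) then coeff i (1 : PS A) else 0) +
      (if y = (p, i - p) then coeff (i - p) (sh p u) else 0) := by
    rintro ⟨a, b⟩ hab
    rw [Finset.HasAntidiagonal.mem_antidiagonal] at hab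
    simp only at hab ⊢
    by_cases ha : a = 0
    · subst ha
      have hb : b = i := by omega
      subst hb
      have h2 : ¬ ((0 : ℕ), b) = (p, b - p) := by
        intro h
        have := congrArg Prod.fst h
        simp only at this
        omega
      rw [if_pos rfl, if_neg h2]
      simp [li]
    · have h2 : ¬ (a, b) = (0, i) := fun h => ha (congrArg Prod.fst h)
      rw [if_neg h2]
      by_cases ha' : a = p
      · subst ha'
        have hb : b = i - a := by omega
        subst hb
        rw [if_pos rfl]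
        simp [li, ha, hx]
      · have h3 : ¬ (a, b) = (p, i - p) := fun h => ha' (congrArg Prod.fst h)
        rw [if_neg h3]
        simp [li, ha, ha']
  rw [Finset.sum_congr rfl h1, Finset.sum_add_distrib, Finset.sum_ite_eq', Finset.sum_ite_eq',
    if_pos (Finset.HasAntidiagonal.mem_antidiagonal.2 (by simp))]
  by_cases hpi : p ≤ i
  · rw [if_pos (Finset.HasAntidiagonal.mem_antidiagonal.2 (by simp only; omega)), sh, PowerSeries.coeff_mk,
      Nat.sub_add_cancel hpi, map_sub]
    abel
  · rw [if_neg (fun h => hpi (by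
      have := Finset.HasAntidiagonal.mem_antidiagonal.1 h
      simp only at this
      omega)), add_zero]
    have := hu i (by omega)
    rw [map_sub, sub_eq_zero] at this
    exact this.symm

/-- constant coefficient as an algebra homomorphism -/
noncomputable def ccA (A : Type) [Ring A] [Algebra ℝ A] : PS A →ₐ[ℝ] A :=
  { (PowerSeries.constantCoeff : PS A →+* A) with
    commutes' := by
      intro r
      simp [PowerSeries.algebraMap_apply] }

theorem sub_X {ι : Type} {A : Type} [Ring A] [Algebra ℝ A] (e : ι → A) (i : ι) :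
    sub e (X i) = e i := by
  unfold sub X
  rw [MonoidAlgebra.lift_single]
  simp

theorem sub_comp {ι : Type} {A A' : Type} [Ring A] [Algebra ℝ A] [Ring A'] [Algebra ℝ A']
    (e : ι → A) (φ : A →ₐ[ℝ] A') : φ.comp (sub e) = sub (fun i => φ (e i)) := by
  refine MonoidAlgebra.algHom_ext' ?_ (Subsingleton.elim _ _)
  apply FreeMonoid.hom_eq
  intro i
  have h1 := sub_X e i
  have h2 := sub_X (fun i => φ (e i)) i
  unfold X at h1 h2
  simp only [MonoidHom.comp_apply, MonoidAlgebra.of_apply, MonoidHom.coe_coe, AlgHom.comp_apply]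
  rw [h1, h2]

theorem cf2_zero (p q : ℕ) (hp : 1 ≤ p) (hq : 1 ≤ q) (w : FreeGroup (Fin 2)) :
    cf2 p q hp hq 0 w = 1 := by
  have h : (Units.map (PowerSeries.constantCoeff : PS (T (Fin 2)) →+* T (Fin 2)).toMonoidHom).comp
      (mg2U p q hp hq) = 1 := by
    apply FreeGroup.ext_hom
    intro i
    apply Units.ext
    rw [MonoidHom.comp_apply]
    unfold mg2U
    rw [FreeGroup.lift_apply_of, Units.coe_map]
    fin_cases i
    · show PowerSeries.constantCoeff (li p (X 0)) = 1
      rw [← PowerSeries.coeff_zero_eq_constantCoeff_apply, li, PowerSeries.coeff_mk, if_pos rfl]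
    · show PowerSeries.constantCoeff (li q (X 1)) = 1
      rw [← PowerSeries.coeff_zero_eq_constantCoeff_apply, li, PowerSeries.coeff_mk, if_pos rfl]
  have h2 := congrArg (fun φ => ((φ w : (T (Fin 2))ˣ) : T (Fin 2))) h
  unfold cf2
  rw [PowerSeries.coeff_zero_eq_constantCoeff_apply]
  simpa using h2

end TSUB2

open TSUB2 in
theorem t_SUB2 : S_SUB2 := by
  intro A _ _ p q hp hq u v hu hv m w hm hw
  obtain ⟨θ, hθ⟩ : ∃ θ : T (Fin 2) →ₐ[ℝ] PS A, θ = sub ![sh p (u : PS A), sh q (v : PS A)] :=
    ⟨_, rfl⟩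
  have hlift : FreeGroup.lift ![u, v] = (Units.map (ThM (θ : T (Fin 2) →+* PS A))).comp
      (mg2U p q hp hq) := by
    apply FreeGroup.ext_hom
    intro i
    apply Units.ext
    fin_cases i
    · have h1 : θ (X 0) = sh p (u : PS A) := by rw [hθ, sub_X]; rfl
      have := Th_li (θ : T (Fin 2) →+* PS A) p hp (X 0) u hu h1
      simpa [mg2U, liU, ThM] using this.symm
    · have h1 : θ (X 1) = sh q (v : PS A) := by rw [hθ, sub_X]; rfl
      have := Th_li (θ : T (Fin 2) →+* PS A) q hq (X 1) v hv h1
      simpa [mg2U, liU, ThM] using this.symm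
  have hc : ∀ i, coeff i ((FreeGroup.lift ![u, v] w : (PS A)ˣ) : PS A) =
      ∑ x ∈ Finset.HasAntidiagonal.antidiagonal i, coeff x.2 (θ (cf2 p q hp hq x.1 w)) := by
    intro i
    rw [hlift]
    exact coeff_Th (θ : T (Fin 2) →+* PS A) _ i
  have h0 := cf2_zero p q hp hq w
  constructor
  · intro i hi
    rw [map_sub, hc i, Finset.sum_eq_single (0, i)]
    · simp [h0]
    · rintro ⟨a, b⟩ hab hne
      rw [Finset.HasAntidiagonal.mem_antidiagonal] at hab
      simp only at hab ⊢
      have ha : a ≠ 0 := by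
        rintro rfl
        apply hne
        simp at hab
        rw [hab]
      rw [hw a (by omega) (by omega)]
      simp
    · intro h
      exact absurd (Finset.HasAntidiagonal.mem_antidiagonal.2 (by simp)) h
  · rw [map_sub, hc m]
    have h1 : ∀ y ∈ Finset.HasAntidiagonal.antidiagonal m,
        coeff y.2 (θ (cf2 p q hp hq y.1 w)) =
        (if y = (0, m) then coeff m (1 : PS A) else 0) +
        (if y = (m, 0) then coeff 0 (θ (cf2 p q hp hq m w)) else 0) := by
      rintro ⟨a, b⟩ hab
      rw [Finset.HasAntidiagonal.mem_antidiagonal] at hab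
      simp only at hab ⊢
      by_cases ha : a = 0
      · subst ha
        have hb : b = m := by omega
        subst hb
        have h2 : ¬ ((0 : ℕ), b) = (b, 0) := by
          intro h
          have := congrArg Prod.fst h
          simp only at this
          omega
        rw [if_pos rfl, if_neg h2, h0]
        simp
      · have h2 : ¬ (a, b) = (0, m) := fun h => ha (congrArg Prod.fst h)
        rw [if_neg h2]
        by_cases ha' : a = m
        · subst ha'
          have hb : b = 0 := by omega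
          subst hb
          rw [if_pos rfl]
          simp
        · have h3 : ¬ (a, b) = (m, 0) := fun h => ha' (congrArg Prod.fst h)
          rw [if_neg h3, hw a (by omega) (by omega)]
          simp
    rw [Finset.sum_congr rfl h1, Finset.sum_add_distrib, Finset.sum_ite_eq', Finset.sum_ite_eq',
      if_pos (Finset.HasAntidiagonal.mem_antidiagonal.2 (by simp)), if_pos (Finset.HasAntidiagonal.mem_antidiagonal.2 (by simp)),
      add_sub_cancel_left, hθ]
    have h2 := congrArg (fun φ => φ (cf2 p q hp hq m w))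
      (sub_comp ![sh p (u : PS A), sh q (v : PS A)] (ccA A))
    simp only [AlgHom.comp_apply] at h2
    have h3 : (fun i => ccA A (![sh p (u : PS A), sh q (v : PS A)] i)) =
        ![coeff p (u : PS A), coeff q (v : PS A)] := by
      funext i
      fin_cases i
      · have : coeff 0 (sh p (u : PS A)) = coeff p (u : PS A) := by
          rw [sh, PowerSeries.coeff_mk, zero_add, map_sub, PowerSeries.coeff_one,
            if_neg (by omega), sub_zero]
        rw [PowerSeries.coeff_zero_eq_constantCoeff_apply] at this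
        exact this
      · have : coeff 0 (sh q (v : PS A)) = coeff q (v : PS A) := by
          rw [sh, PowerSeries.coeff_mk, zero_add, map_sub, PowerSeries.coeff_one,
            if_neg (by omega), sub_zero]
        rw [PowerSeries.coeff_zero_eq_constantCoeff_apply] at this
        exact this
    rw [h3] at h2
    rw [← h2, PowerSeries.coeff_zero_eq_constantCoeff_apply]
    rfl

end Pool.Agent.H32CE
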