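import Pool.Agent.H32CE.St

set_option autoImplicit false

namespace Pool.Agent.H32CE

namespace TSUBH

lemma wd_mul {ι : Type} (w : ι → ℕ) (m n : FreeMonoid ι) : wd w (m * n) = wd w m + wd w n := by
  unfold wd
  rw [FreeMonoid.toList_mul, List.map_append, List.sum_append]

lemma isH_zero {ι : Type} (w : ι → ℕ) (k : ℕ) : IsH w k (0 : T ι) := by
  intro m hm
  simp at hm

lemma isH_add {ι : Type} {w : ι → ℕ} {k : ℕ} {f g : T ι} (hf : IsH w k f) (hg : IsH w k g) :
    IsH w k (f + g) := by
  intro m hm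
  by_cases h : f.coeff m = 0
  · apply hg
    intro h'
    apply hm
    rw [MonoidAlgebra.coeff_add, Finsupp.add_apply, h, h', add_zero]
  · exact hf m h

lemma isH_smul {ι : Type} {w : ι → ℕ} {k : ℕ} {f : T ι} (c : ℝ) (hf : IsH w k f) :
    IsH w k (c • f) := by
  intro m hm
  apply hf
  intro h
  apply hm
  rw [MonoidAlgebra.coeff_smul_apply, h, smul_zero]

lemma isH_sum {ι σ : Type} {w : ι → ℕ} {k : ℕ} (s : Finset σ) (f : σ → T ι)
    (hf : ∀ i ∈ s, IsH w k (f i)) : IsH w k (∑ i ∈ s, f i) := by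
  classical
  induction s using Finset.induction_on with
  | empty => simpa using isH_zero w k
  | insert a s ha ih =>
    rw [Finset.sum_insert ha]
    exact isH_add (hf a (Finset.mem_insert_self _ _))
      (ih fun i hi => hf i (Finset.mem_insert_of_mem hi))

lemma isH_mul {ι : Type} {w : ι → ℕ} {j k : ℕ} {f g : T ι} (hf : IsH w j f) (hg : IsH w k g) :
    IsH w (j + k) (f * g) := by
  classical
  intro m hm
  rw [MonoidAlgebra.coeff_mul] at hm
  obtain ⟨a, ha, h1⟩ := Finset.exists_ne_zero_of_sum_ne_zero hm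
  obtain ⟨b, hb, h2⟩ := Finset.exists_ne_zero_of_sum_ne_zero h1
  by_cases h : a * b = m
  · rw [← h, wd_mul, hf a (Finsupp.mem_support_iff.1 ha), hg b (Finsupp.mem_support_iff.1 hb)]
  · simp [h] at h2

lemma isH_one {ι : Type} (w : ι → ℕ) : IsH w 0 (1 : T ι) := by
  classical
  intro m hm
  rw [MonoidAlgebra.one_def, MonoidAlgebra.coeff_single, Finsupp.single_apply] at hm
  split_ifs at hm with h
  · rw [← h]
    rfl
  · exact absurd rfl hm

lemma isH_word {ι κ : Type} (e : κ → T ι) (d : κ → ℕ) (he : ∀ i, IsH (fun _ => 1) (d i) (e i))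
    (m : FreeMonoid κ) : IsH (fun _ => 1) (wd d m) (FreeMonoid.lift e m) := by
  induction m using FreeMonoid.inductionOn' with
  | one =>
    rw [map_one]
    exact isH_one _
  | of_mul i m ih =>
    rw [map_mul, FreeMonoid.lift_eval_of, wd_mul]
    have : wd d (FreeMonoid.of i) = d i := by simp [wd]
    rw [this]
    exact isH_mul (he i) ih

end TSUBH

theorem t_SUBH : S_SUBH := by
  intro ι κ e d m U he hU
  unfold sub
  rw [MonoidAlgebra.lift_apply]
  apply TSUBH.isH_sum
  intro a ha
  apply TSUBH.isH_smul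
  have h := TSUBH.isH_word e d he a
  rwa [hU a (Finsupp.mem_support_iff.1 ha)] at h

end Pool.Agent.H32CE
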