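import Pool.Agent.H32CE.St

set_option autoImplicit false

namespace Pool.Agent.H32CE

namespace TSUBP

lemma lft_single {ι : Type} (m : FreeMonoid ι) (r : ℝ) :
    lft ι (MonoidAlgebra.single m r) = MonoidAlgebra.single (m, 1) r := by
  simp [lft]

lemma rgt_single {ι : Type} (m : FreeMonoid ι) (r : ℝ) :
    rgt ι (MonoidAlgebra.single m r) = MonoidAlgebra.single (1, m) r := by
  simp [rgt]

lemma commute {ι : Type} (a b : T ι) : Commute (lft ι a) (rgt ι b) := by
  induction a using MonoidAlgebra.induction_linear with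
  | zero => rw [map_zero]; exact Commute.zero_left _
  | add x y hx hy => rw [map_add]; exact hx.add_left hy
  | single m r =>
    induction b using MonoidAlgebra.induction_linear with
    | zero => rw [map_zero]; exact Commute.zero_right _
    | add x y hx hy => rw [map_add]; exact hx.add_right hy
    | single n s =>
      rw [lft_single, rgt_single]
      change _ * _ = _ * _
      rw [MonoidAlgebra.single_mul_single, MonoidAlgebra.single_mul_single, Prod.mk_mul_mk,
        Prod.mk_mul_mk, mul_one, one_mul, mul_one, one_mul, mul_comm r s]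

/-- the left factor -/
noncomputable def FL {ι κ : Type} (e : κ → T ι) :
    FreeMonoid κ →* MonoidAlgebra ℝ (FreeMonoid ι × FreeMonoid ι) :=
  ((lft ι : T ι →* _).comp (sub e : T κ →* T ι)).comp (MonoidAlgebra.of ℝ (FreeMonoid κ))

/-- the right factor -/
noncomputable def FR {ι κ : Type} (e : κ → T ι) :
    FreeMonoid κ →* MonoidAlgebra ℝ (FreeMonoid ι × FreeMonoid ι) :=
  ((rgt ι : T ι →* _).comp (sub e : T κ →* T ι)).comp (MonoidAlgebra.of ℝ (FreeMonoid κ))

lemma FL_apply {ι κ : Type} (e : κ → T ι) (m : FreeMonoid κ) :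
    FL e m = lft ι (sub e (MonoidAlgebra.single m 1)) := rfl

lemma FR_apply {ι κ : Type} (e : κ → T ι) (m : FreeMonoid κ) :
    FR e m = rgt ι (sub e (MonoidAlgebra.single m 1)) := rfl

/-- the substitution on both factors -/
noncomputable def Phi {ι κ : Type} (e : κ → T ι) :
    MonoidAlgebra ℝ (FreeMonoid κ × FreeMonoid κ) →ₐ[ℝ]
      MonoidAlgebra ℝ (FreeMonoid ι × FreeMonoid ι) :=
  MonoidAlgebra.lift ℝ (MonoidAlgebra ℝ (FreeMonoid ι × FreeMonoid ι))
    (FreeMonoid κ × FreeMonoid κ)
    (MonoidHom.noncommCoprod (FL e) (FR e) fun _ _ => commute _ _)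

lemma Phi_single {ι κ : Type} (e : κ → T ι) (m n : FreeMonoid κ) :
    Phi e (MonoidAlgebra.single (m, n) 1) = FL e m * FR e n := by
  unfold Phi
  rw [MonoidAlgebra.lift_single, one_smul]
  rfl

lemma ext_alg {M B : Type} [Monoid M] [Ring B] [Algebra ℝ B] (φ ψ : MonoidAlgebra ℝ M →ₐ[ℝ] B)
    (h : ∀ m, φ (MonoidAlgebra.single m 1) = ψ (MonoidAlgebra.single m 1)) : φ = ψ :=
  MonoidAlgebra.algHom_ext h (Subsingleton.elim _ _)

lemma Phi_lft {ι κ : Type} (e : κ → T ι) (U : T κ) : Phi e (lft κ U) = lft ι (sub e U) := by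
  have h : (Phi e).comp (lft κ) = (lft ι).comp (sub e) := by
    apply ext_alg
    intro m
    rw [AlgHom.comp_apply, lft_single, Phi_single, FL_apply]
    have : FR e 1 = 1 := map_one _
    rw [this, mul_one]
    rfl
  exact congrArg (fun φ => φ U) h

lemma Phi_rgt {ι κ : Type} (e : κ → T ι) (U : T κ) : Phi e (rgt κ U) = rgt ι (sub e U) := by
  have h : (Phi e).comp (rgt κ) = (rgt ι).comp (sub e) := by
    apply ext_alg
    intro m
    rw [AlgHom.comp_apply, rgt_single, Phi_single, FR_apply]
    have : FL e 1 = 1 := map_one _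
    rw [this, one_mul]
    rfl
  exact congrArg (fun φ => φ U) h

lemma sub_X {ι κ : Type} (e : κ → T ι) (i : κ) :
    sub e (MonoidAlgebra.single (FreeMonoid.of i) 1) = e i := by
  unfold sub
  rw [MonoidAlgebra.lift_single, one_smul, FreeMonoid.lift_eval_of]

lemma cop_X {κ : Type} (i : κ) : cop κ (MonoidAlgebra.single (FreeMonoid.of i) 1) =
    MonoidAlgebra.single (FreeMonoid.of i, 1) 1 + MonoidAlgebra.single (1, FreeMonoid.of i) 1 := by
  unfold cop
  rw [MonoidAlgebra.lift_single, one_smul, FreeMonoid.lift_eval_of]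

lemma Phi_cop {ι κ : Type} (e : κ → T ι) (he : ∀ i, Prim (e i)) (U : T κ) :
    Phi e (cop κ U) = cop ι (sub e U) := by
  have h : (Phi e).comp (cop κ) = (cop ι).comp (sub e) := by
    apply ext_alg
    intro m
    have h2 : ((((Phi e).comp (cop κ)) : T κ →* MonoidAlgebra ℝ (FreeMonoid ι × FreeMonoid ι))).comp
        (MonoidAlgebra.of ℝ (FreeMonoid κ)) =
        ((((cop ι).comp (sub e)) : T κ →* MonoidAlgebra ℝ (FreeMonoid ι × FreeMonoid ι))).comp
        (MonoidAlgebra.of ℝ (FreeMonoid κ)) := by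
      apply FreeMonoid.hom_eq
      intro i
      change Phi e (cop κ (MonoidAlgebra.single (FreeMonoid.of i) 1)) =
        cop ι (sub e (MonoidAlgebra.single (FreeMonoid.of i) 1))
      have h3 : FR e 1 = 1 := map_one _
      have h4 : FL e 1 = 1 := map_one _
      rw [cop_X, map_add, Phi_single, Phi_single, sub_X, he i, h3, h4, mul_one, one_mul,
        FL_apply, FR_apply, sub_X]
    exact congrArg (fun φ => φ m) h2
  exact congrArg (fun φ => φ U) h

end TSUBP

theorem t_SUBP : S_SUBP := by
  intro ι κ e U he hU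
  unfold Prim at hU ⊢
  rw [← TSUBP.Phi_cop e he, hU, map_add, TSUBP.Phi_lft, TSUBP.Phi_rgt]

end Pool.Agent.H32CE
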