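import Mathlib
import Pool.Agent.H32CE.St

set_option autoImplicit false

/-! Task SUF (helper133): the suffix lemma. -/

namespace Pool.Agent.H32CE
namespace TSUF

open MonoidAlgebra LinearMap

variable {ι : Type}

/-- number of letters -/
def ln (w : FreeMonoid ι) : ℕ := (FreeMonoid.toList w).length

theorem wd_one (w : FreeMonoid ι) : wd (fun _ => 1) w = ln w := by
  simp [wd, ln]

theorem ln_mul (w w' : FreeMonoid ι) : ln (w * w') = ln w + ln w' := by
  simp [ln]

/-- all but the last `m` letters -/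
def pre (m : ℕ) (w : FreeMonoid ι) : FreeMonoid ι :=
  FreeMonoid.ofList ((FreeMonoid.toList w).take (ln w - m))

/-- the last `m` letters -/
def suf (m : ℕ) (w : FreeMonoid ι) : FreeMonoid ι :=
  FreeMonoid.ofList ((FreeMonoid.toList w).drop (ln w - m))

theorem pre_mul_suf (m : ℕ) (w : FreeMonoid ι) : pre m w * suf m w = w := by
  apply FreeMonoid.toList.injective
  simp [pre, suf]

theorem ln_suf (m : ℕ) (w : FreeMonoid ι) (h : m ≤ ln w) : ln (suf m w) = m := by
  simp only [suf, ln, FreeMonoid.toList_ofList, List.length_drop]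
  simp only [ln] at h
  omega

theorem pre_mul (m : ℕ) (w w' : FreeMonoid ι) (h : m ≤ ln w') : pre m (w * w') = w * pre m w' := by
  apply FreeMonoid.toList.injective
  simp only [pre, FreeMonoid.toList_mul, FreeMonoid.toList_ofList, ln_mul]
  have : ln w + ln w' - m = (FreeMonoid.toList w).length + (ln w' - m) := by
    simp only [ln] at *
    omega
  rw [this, List.take_length_add_append]

theorem suf_mul (m : ℕ) (w w' : FreeMonoid ι) (h : m ≤ ln w') : suf m (w * w') = suf m w' := by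
  apply FreeMonoid.toList.injective
  simp only [suf, FreeMonoid.toList_mul, FreeMonoid.toList_ofList, ln_mul]
  have : ln w + ln w' - m = (FreeMonoid.toList w).length + (ln w' - m) := by
    simp only [ln] at *
    omega
  rw [this, List.drop_length_add_append]

open Classical in
/-- split off the suffix of length `m` and apply `φ` to it -/
noncomputable def FF (m : ℕ) (φ : T ι →ₗ[ℝ] ℝ) : T ι →ₗ[ℝ] T ι :=
  (MonoidAlgebra.basis (FreeMonoid ι) ℝ).constr ℝ
    (fun w => if m ≤ ln w then φ (single (suf m w) 1) • (single (pre m w) 1 : T ι) else 0)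

theorem single_eq (w : FreeMonoid ι) (c : ℝ) : (single w c : T ι) = c • single w 1 := by
  simp

theorem FF_single (m : ℕ) (φ : T ι →ₗ[ℝ] ℝ) (w : FreeMonoid ι) (c : ℝ) :
    FF m φ (single w c) =
      if m ≤ ln w then (c * φ (single (suf m w) 1)) • (single (pre m w) 1 : T ι) else 0 := by
  rw [single_eq, map_smul]
  have h : FF m φ (single w 1) =
      if m ≤ ln w then φ (single (suf m w) 1) • (single (pre m w) 1 : T ι) else 0 := by
    rw [← MonoidAlgebra.basis_apply]
    unfold FF
    rw [Module.Basis.constr_basis]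
  rw [h]
  split_ifs
  · rw [smul_smul]
  · rw [smul_zero]

theorem FF_single_mul (m : ℕ) (φ : T ι →ₗ[ℝ] ℝ) (f : T ι) (w : FreeMonoid ι) (c : ℝ)
    (h : m ≤ ln w) : FF m φ (f * single w c) = f * FF m φ (single w c) := by
  induction f using MonoidAlgebra.induction_linear with
  | zero => simp
  | add x y hx hy => rw [add_mul, map_add, hx, hy, add_mul]
  | single w' c' =>
    rw [single_mul_single, FF_single, FF_single, if_pos h, if_pos (by rw [ln_mul]; omega),
      suf_mul m w' w h, pre_mul m w' w h, mul_smul_comm, single_mul_single, mul_one,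
      single_eq (w' * pre m w) c', smul_smul]
    congr 1
    ring

theorem FF_mul (m : ℕ) (φ : T ι →ₗ[ℝ] ℝ) (f g : T ι) (hg : ∀ w, g.coeff w ≠ 0 → m ≤ ln w) :
    FF m φ (f * g) = f * FF m φ g := by
  have h := MonoidAlgebra.sum_coeff_single g
  rw [Finsupp.sum] at h
  rw [← h, Finset.mul_sum, map_sum, map_sum, Finset.mul_sum]
  refine Finset.sum_congr rfl fun w hw => ?_
  exact FF_single_mul m φ f w _ (hg w (Finsupp.mem_support_iff.mp hw))

/-- on homogeneous elements of degree `m` -/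
theorem FF_hom (m : ℕ) (φ : T ι →ₗ[ℝ] ℝ) (g : T ι) (hg : IsH (fun _ => 1) m g) :
    FF m φ g = φ g • (1 : T ι) := by
  have h := MonoidAlgebra.sum_coeff_single g
  rw [Finsupp.sum] at h
  have key : ∀ w ∈ g.coeff.support, FF m φ (single w (g.coeff w)) =
      φ (single w (g.coeff w)) • (1 : T ι) := by
    intro w hw
    have hl : ln w = m := by
      rw [← wd_one]
      exact hg w (Finsupp.mem_support_iff.mp hw)
    have e1 : suf m w = w := by
      apply FreeMonoid.toList.injective
      simp [suf, hl]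
    have e2 : pre m w = 1 := by
      apply FreeMonoid.toList.injective
      simp [pre, hl]
    rw [FF_single, if_pos hl.ge, e1, e2, single_eq w (g.coeff w), map_smul, smul_eq_mul,
      MonoidAlgebra.one_def]
  calc FF m φ g = ∑ w ∈ g.coeff.support, FF m φ (single w (g.coeff w)) := by
        conv_lhs => rw [← h]
        rw [map_sum]
    _ = ∑ w ∈ g.coeff.support, φ (single w (g.coeff w)) • (1 : T ι) := Finset.sum_congr rfl key
    _ = φ g • (1 : T ι) := by
        rw [← Finset.sum_smul, ← map_sum, h]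

theorem coeff_single_mul_ne (w : FreeMonoid ι) (c : ℝ) (a : T ι) (v : FreeMonoid ι)
    (h : (single w c * a).coeff v ≠ 0) : ∃ v', a.coeff v' ≠ 0 ∧ v = w * v' := by
  classical
  have h1 := MonoidAlgebra.support_coeff_single_mul_subset a c w (Finsupp.mem_support_iff.mpr h)
  rw [Finset.mem_image] at h1
  obtain ⟨v', hv', h2⟩ := h1
  exact ⟨v', Finsupp.mem_support_iff.mp hv', h2.symm⟩

/-- `FF` kills `T a` if `φ` does -/
theorem FF_kill (m p : ℕ) (φ : T ι →ₗ[ℝ] ℝ) (a : T ι) (ha : IsH (fun _ => 1) p a) (hpm : p ≤ m)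
    (hφ : ∀ z, φ (z * a) = 0) (z : T ι) : FF m φ (z * a) = 0 := by
  induction z using MonoidAlgebra.induction_linear with
  | zero => simp
  | add x y hx hy => rw [add_mul, map_add, hx, hy, add_zero]
  | single w c =>
    by_cases hw : m ≤ ln w + p
    · have hw' : m - p ≤ ln w := by omega
      have e : (single w c : T ι) = single (pre (m - p) w) c * single (suf (m - p) w) 1 := by
        rw [single_mul_single, pre_mul_suf, mul_one]
      have hh : IsH (fun _ => 1) m (single (suf (m - p) w) 1 * a) := by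
        intro v hv
        obtain ⟨v', hv', rfl⟩ := coeff_single_mul_ne _ _ _ _ hv
        have h3 := ha v' hv'
        rw [wd_one] at h3 ⊢
        rw [ln_mul, ln_suf _ _ hw', h3]
        omega
      rw [e, mul_assoc, FF_mul, FF_hom m φ _ hh, hφ, zero_smul, mul_zero]
      intro v hv
      have := hh v hv
      rw [wd_one] at this
      exact this.ge
    · have h := MonoidAlgebra.sum_coeff_single (single w c * a)
      rw [Finsupp.sum] at h
      rw [← h, map_sum]
      refine Finset.sum_eq_zero fun v hv => ?_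
      obtain ⟨v', hv', rfl⟩ := coeff_single_mul_ne _ _ _ _ (Finsupp.mem_support_iff.mp hv)
      have h3 := ha v' hv'
      rw [wd_one] at h3
      rw [FF_single, if_neg]
      rw [ln_mul, h3]
      exact hw

/-- the left ideal `T a + T s` -/
noncomputable def JJ (a s : T ι) : Submodule ℝ (T ι) :=
  LinearMap.range (LinearMap.mulRight ℝ a) ⊔ LinearMap.range (LinearMap.mulRight ℝ s)

theorem mem_JJ {a s x : T ι} : x ∈ JJ a s ↔ ∃ y z, y * a + z * s = x := by
  unfold JJ
  rw [Submodule.mem_sup]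
  constructor
  · rintro ⟨_, ⟨y, rfl⟩, _, ⟨z, rfl⟩, rfl⟩
    exact ⟨y, z, rfl⟩
  · rintro ⟨y, z, rfl⟩
    exact ⟨_, ⟨y, rfl⟩, _, ⟨z, rfl⟩, rfl⟩

theorem JJ_left {a s x : T ι} (h : x ∈ JJ a s) (t : T ι) : t * x ∈ JJ a s := by
  obtain ⟨y, z, rfl⟩ := mem_JJ.mp h
  exact mem_JJ.mpr ⟨t * y, t * z, by noncomm_ring⟩

theorem JJ_a (a s y : T ι) : y * a ∈ JJ a s := mem_JJ.mpr ⟨y, 0, by simp⟩

theorem JJ_s (a s y : T ι) : y * s ∈ JJ a s := mem_JJ.mpr ⟨0, y, by simp⟩

/-- augmentation -/
noncomputable def aug (ι : Type) : T ι →ₐ[ℝ] ℝ := sub (fun _ => (0 : ℝ))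

theorem aug_single (w : FreeMonoid ι) (c : ℝ) (hw : 1 ≤ ln w) : aug ι (single w c) = 0 := by
  unfold aug sub
  rw [MonoidAlgebra.lift_single, FreeMonoid.lift_apply]
  have : ((FreeMonoid.toList w).map (fun _ => (0 : ℝ))).prod = 0 := by
    apply List.prod_eq_zero
    unfold ln at hw
    obtain ⟨x, hx⟩ := List.exists_mem_of_length_pos hw
    exact List.mem_map.mpr ⟨x, hx, rfl⟩
  rw [this, smul_zero]

theorem aug_hom (k : ℕ) (f : T ι) (hk : 1 ≤ k) (hf : IsH (fun _ => 1) k f) : aug ι f = 0 := by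
  have h := MonoidAlgebra.sum_coeff_single f
  rw [Finsupp.sum] at h
  rw [← h, map_sum]
  refine Finset.sum_eq_zero fun w hw => aug_single w _ ?_
  rw [← wd_one, hf w (Finsupp.mem_support_iff.mp hw)]
  exact hk

theorem aug_br (x y : T ι) : aug ι (br x y) = 0 := by
  unfold br
  rw [map_sub, map_mul, map_mul, mul_comm, sub_self]

theorem aug_JJ {a s x : T ι} (ha : aug ι a = 0) (hs : aug ι s = 0) (h : x ∈ JJ a s) :
    aug ι x = 0 := by
  obtain ⟨y, z, rfl⟩ := mem_JJ.mp h
  rw [map_add, map_mul, map_mul, ha, hs]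
  simp

theorem sub_mem (a s : T ι) (f : T (Fin 2)) : ∃ c : ℝ, sub ![a, s] f - c • (1 : T ι) ∈ JJ a s := by
  induction f using MonoidAlgebra.induction_linear with
  | zero => exact ⟨0, by simp⟩
  | add x y hx hy =>
    obtain ⟨c, hc⟩ := hx
    obtain ⟨d, hd⟩ := hy
    refine ⟨c + d, ?_⟩
    have := Submodule.add_mem _ hc hd
    rw [map_add, add_smul]
    convert this using 1
    abel
  | single w r =>
    rcases List.eq_nil_or_concat (FreeMonoid.toList w) with h | ⟨l, i, h⟩
    · have hw : w = 1 := FreeMonoid.toList.injective h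
      refine ⟨r, ?_⟩
      subst hw
      have : sub ![a, s] (single (1 : FreeMonoid (Fin 2)) r) = r • (1 : T ι) := by
        unfold sub
        rw [MonoidAlgebra.lift_single, map_one]
      rw [this, sub_self]
      exact Submodule.zero_mem _
    · refine ⟨0, ?_⟩
      have hw : w = FreeMonoid.ofList l * FreeMonoid.of i := by
        apply FreeMonoid.toList.injective
        rw [h, FreeMonoid.toList_mul, FreeMonoid.toList_of, FreeMonoid.toList_ofList,
          List.concat_eq_append]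
      have : sub ![a, s] (single w r) =
          (r • (FreeMonoid.lift ![a, s]) (FreeMonoid.ofList l)) * (![a, s] i) := by
        unfold sub
        rw [MonoidAlgebra.lift_single, hw, map_mul, FreeMonoid.lift_eval_of, smul_mul_assoc]
      rw [this, zero_smul, sub_zero]
      fin_cases i
      · exact JJ_a a s _
      · exact JJ_s a s _

theorem mem_of_range {a s x : T ι} (ha : aug ι a = 0) (hs : aug ι s = 0) (hx : aug ι x = 0)
    (h : x ∈ Set.range (sub ![a, s])) : x ∈ JJ a s := by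
  obtain ⟨f, rfl⟩ := h
  obtain ⟨c, hc⟩ := sub_mem a s f
  have h1 := aug_JJ ha hs hc
  rw [map_sub, hx, map_smul, map_one, smul_eq_mul, mul_one, zero_sub, neg_eq_zero] at h1
  rw [h1, zero_smul, sub_zero] at hc
  exact hc

theorem FF_JJ (m p p' : ℕ) (φ : T ι →ₗ[ℝ] ℝ) (a s : T ι) (ha : IsH (fun _ => 1) p a)
    (hs : IsH (fun _ => 1) p' s) (hpm : p ≤ m) (hpm' : p' ≤ m)
    (hφ : JJ a s ≤ LinearMap.ker φ) (x : T ι) (hx : x ∈ JJ a s) : FF m φ x = 0 := by
  obtain ⟨y, z, rfl⟩ := mem_JJ.mp hx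
  rw [map_add, FF_kill m p φ a ha hpm (fun z => hφ (JJ_a a s z)),
    FF_kill m p' φ s hs hpm' (fun z => hφ (JJ_s a s z)), add_zero]

theorem main (hF0 : S_F0) (p p' q m m' : ℕ) (a s b u v : T ι) (h1 : 1 ≤ p)
    (h1' : 1 ≤ p') (hpq : p ≤ q) (hpm : p ≤ m) (hpm' : p' ≤ m) (hm : m + q = m' + p)
    (ha : PH p a) (hs : PH p' s) (hb : PH q b) (hu : PH m u) (hv : PH m' v)
    (hab : br a b ≠ 0) (hbr : b ∈ Set.range (sub ![a, s]))
    (hz : br u b + br a v ∈ Set.range (sub ![a, s])) : u ∈ JJ a s ∧ v ∈ JJ a s := by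
  have ha0 : a ≠ 0 := by
    rintro rfl
    apply hab
    simp [br]
  have auga := aug_hom p a h1 ha.1
  have augs := aug_hom p' s h1' hs.1
  have augb := aug_hom q b (by omega) hb.1
  have hbJ : b ∈ JJ a s := mem_of_range auga augs augb hbr
  have hzJ : br u b + br a v ∈ JJ a s :=
    mem_of_range auga augs (by rw [map_add, aug_br, aug_br, add_zero]) hz
  have hge : ∀ (k : ℕ) (g : T ι), IsH (fun _ => 1) k g → m ≤ k → ∀ w, g.coeff w ≠ 0 → m ≤ ln w := by
    intro k g hg hk w hw
    rw [← wd_one, hg w hw]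
    exact hk
  have hU : u ∈ JJ a s := by
    by_contra hcon
    obtain ⟨φ, hφu, hφ⟩ := Submodule.exists_le_ker_of_notMem hcon
    have kill := FF_JJ m p p' φ a s ha.1 hs.1 hpm hpm' hφ
    have e1 : FF m φ (b * u) = φ u • b := by
      rw [FF_mul m φ b u (hge m u hu.1 le_rfl), FF_hom m φ u hu.1, mul_smul_comm, mul_one]
    have e2 : FF m φ (a * v) = a * FF m φ v := FF_mul m φ a v (hge m' v hv.1 (by omega))
    have e3 : FF m φ (br u b + br a v) =
        FF m φ (u * b) - FF m φ (b * u) + (FF m φ (a * v) - FF m φ (v * a)) := by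
      unfold br
      rw [map_add, map_sub, map_sub]
    rw [kill _ hzJ, kill _ (JJ_left hbJ u), kill _ (JJ_a a s v), e1, e2] at e3
    have e4 : φ u • b = a * FF m φ v := by
      have : (0 : T ι) = - (φ u • b) + a * FF m φ v := by
        rw [e3]; abel
      rw [eq_comm, neg_add_eq_zero] at this
      exact this
    have e5 : b = a * ((φ u)⁻¹ • FF m φ v) := by
      rw [mul_smul_comm, ← e4, smul_smul, inv_mul_cancel₀ hφu, one_smul]
    obtain ⟨c, hc⟩ := hF0 ι p q a b _ h1 ha ha0 hb e5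
    apply hab
    rw [hc]
    simp [br]
  refine ⟨hU, ?_⟩
  by_contra hcon
  obtain ⟨φ, hφv, hφ⟩ := Submodule.exists_le_ker_of_notMem hcon
  have kill := FF_JJ m' p p' φ a s ha.1 hs.1 (by omega) (by omega) hφ
  have hge' : ∀ w, v.coeff w ≠ 0 → m' ≤ ln w := by
    intro w hw
    rw [← wd_one, hv.1 w hw]
  have e2 : FF m' φ (a * v) = φ v • a := by
    rw [FF_mul m' φ a v hge', FF_hom m' φ v hv.1, mul_smul_comm, mul_one]
  have e3 : FF m' φ (br u b + br a v) =
      FF m' φ (u * b) - FF m' φ (b * u) + (FF m' φ (a * v) - FF m' φ (v * a)) := by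
    unfold br
    rw [map_add, map_sub, map_sub]
  rw [kill _ hzJ, kill _ (JJ_left hbJ u), kill _ (JJ_left hU b), kill _ (JJ_a a s v), e2] at e3
  have e4 : φ v • a = 0 := by
    rw [sub_zero, sub_zero, zero_add] at e3
    exact e3.symm
  rcases smul_eq_zero.mp e4 with h | h
  · exact hφv h
  · exact ha0 h

end TSUF

theorem t_SUF (hF0 : S_F0) (hF1 : S_F1) (hIND : S_IND2) (hANT : S_ANT) : S_SUF := by
  intro ι p p' q m m' a s b u v h1 h1' hpq hpm hpm' hm ha hs hb hu hv has hab hbr hz
  obtain ⟨hU, hV⟩ := TSUF.main hF0 p p' q m m' a s b u v h1 h1' hpq hpm hpm' hm ha hs hb hu hv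
    hab hbr hz
  obtain ⟨S, hSm, hSp, -⟩ := hANT ι
  have hright : ∀ u : T ι, Prim u → u ∈ TSUF.JJ a s →
      ∃ w : Fin 2 → T ι, u = ∑ i, (![a, s] : Fin 2 → T ι) i * w i := by
    intro u hup huJ
    obtain ⟨x, y, hxy⟩ := TSUF.mem_JJ.mp huJ
    refine ⟨![S x, S y], ?_⟩
    have e := hSp u hup
    rw [← hxy, map_add, hSm, hSm, hSp a ha.2, hSp s hs.2] at e
    rw [Fin.sum_univ_two]
    simp only [Matrix.cons_val_zero, Matrix.cons_val_one]
    rw [← hxy]
    have e' := congrArg (fun t => -t) e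
    simp only [neg_add, neg_neg, neg_mul] at e'
    exact e'.symm
  have hd : ∀ i : Fin 2, 1 ≤ (![p, p'] : Fin 2 → ℕ) i := by
    intro i
    fin_cases i
    · exact h1
    · exact h1'
  have he : ∀ i : Fin 2, PH ((![p, p'] : Fin 2 → ℕ) i) ((![a, s] : Fin 2 → T ι) i) := by
    intro i
    fin_cases i
    · exact ha
    · exact hs
  obtain ⟨-, hF⟩ := hF1 ι 2 ![a, s] ![p, p'] hd he (hIND ι p p' a s h1 h1' ha hs has)
  obtain ⟨U, hU1, hU2, hU3⟩ := hF u hu.2 (hright u hu.2 hU)
  obtain ⟨V, hV1, hV2, hV3⟩ := hF v hv.2 (hright v hv.2 hV)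
  exact ⟨U, V, hU1, hV1, hU3 m hu.1, hV3 m' hv.1, hU2, hV2⟩

end Pool.Agent.H32CE
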