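import Pool.Agent.H32CE.St

set_option autoImplicit false

/-! Task THO (helper329): substitution of power series -/

open PowerSeries

namespace Pool.Agent.H32CE

namespace TTHO

/-! ### orders -/

theorem ord_mul {A : Type} [Ring A] {a b : ℕ} {f g : PS A} (hf : ordge a f) (hg : ordge b g) :
    ordge (a + b) (f * g) ∧ coeff (a + b) (f * g) = coeff a f * coeff b g := by
  constructor
  · intro i hi
    rw [coeff_mul]
    apply Finset.sum_eq_zero
    rintro ⟨x, y⟩ hxy
    simp only [Finset.HasAntidiagonal.mem_antidiagonal] at hxy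
    by_cases hx : x < a
    · rw [hf x hx, zero_mul]
    · rw [hg y (by omega), mul_zero]
  · rw [coeff_mul, Finset.sum_eq_single (a, b)]
    · rintro ⟨x, y⟩ hxy hne
      simp only [Finset.HasAntidiagonal.mem_antidiagonal] at hxy
      by_cases hx : x < a
      · rw [hf x hx, zero_mul]
      · by_cases hy : y < b
        · rw [hg y hy, mul_zero]
        · exact absurd (Prod.ext (by simp; omega) (by simp; omega)) hne
    · intro h
      simp at h

theorem wd_one {κ : Type} (w : κ → ℕ) : wd w (1 : FreeMonoid κ) = 0 := by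
  simp [wd]

theorem wd_of_mul {κ : Type} (w : κ → ℕ) (i : κ) (m : FreeMonoid κ) :
    wd w (FreeMonoid.of i * m) = w i + wd w m := by
  simp [wd]

theorem wd_mul {κ : Type} (w : κ → ℕ) (m m' : FreeMonoid κ) :
    wd w (m * m') = wd w m + wd w m' := by
  simp [wd]

theorem word {κ : Type} {A : Type} [Ring A] (w : κ → ℕ) (e : κ → PS A)
    (he : ∀ i, ordge (w i) (e i)) (m : FreeMonoid κ) :
    ordge (wd w m) (FreeMonoid.lift e m) ∧
      coeff (wd w m) (FreeMonoid.lift e m) =
        FreeMonoid.lift (fun i => coeff (w i) (e i)) m := by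
  induction m using FreeMonoid.recOn with
  | one =>
    refine ⟨fun i hi => ?_, ?_⟩
    · rw [wd_one] at hi
      omega
    · rw [wd_one, map_one (FreeMonoid.lift e), coeff_zero_one,
        map_one (FreeMonoid.lift (fun i => coeff (w i) (e i)))]
  | of_mul i m ih =>
    rw [wd_of_mul, map_mul (FreeMonoid.lift e), map_mul (FreeMonoid.lift (fun i => coeff (w i) (e i))),
      FreeMonoid.lift_eval_of, FreeMonoid.lift_eval_of, ← ih.2]
    exact ord_mul (he i) ih.1

theorem sub_eq {κ : Type} {A : Type} [Ring A] [Algebra ℝ A] (e : κ → A) (U : T κ) :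
    sub e U = ∑ m ∈ U.coeff.support, U.coeff m • FreeMonoid.lift e m := by
  unfold sub
  rw [MonoidAlgebra.lift_apply]
  rfl

/-! ### homogeneity -/

theorem isH_mul {κ : Type} {w : κ → ℕ} {a b : ℕ} {f g : T κ} (hf : IsH w a f) (hg : IsH w b g) :
    IsH w (a + b) (f * g) := by
  intro m hm
  have h1 : m ∈ (f * g).coeff.support := Finsupp.mem_support_iff.mpr hm
  classical
  have h2 := MonoidAlgebra.support_coeff_mul_subset f g h1
  rw [Finset.mem_mul] at h2
  obtain ⟨x, hx, y, hy, rfl⟩ := h2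
  rw [wd_mul, hf x (Finsupp.mem_support_iff.mp hx), hg y (Finsupp.mem_support_iff.mp hy)]

theorem isH_zero {κ : Type} (w : κ → ℕ) (a : ℕ) : IsH w a (0 : T κ) := by
  intro m hm
  exact absurd rfl hm

theorem isH_add {κ : Type} {w : κ → ℕ} {a : ℕ} {f g : T κ} (hf : IsH w a f) (hg : IsH w a g) :
    IsH w a (f + g) := by
  intro m hm
  by_cases h : f.coeff m = 0
  · apply hg
    intro h'
    apply hm
    rw [MonoidAlgebra.coeff_add, Finsupp.add_apply, h, h', add_zero]
  · exact hf m h

theorem isH_smul {κ : Type} {w : κ → ℕ} {a : ℕ} {f : T κ} (r : ℝ) (hf : IsH w a f) :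
    IsH w a (r • f) := by
  intro m hm
  apply hf
  intro h
  apply hm
  rw [MonoidAlgebra.coeff_smul, Finsupp.smul_apply, h, smul_zero]

theorem isH_sum {κ σ : Type} {w : κ → ℕ} {a : ℕ} (s : Finset σ) (f : σ → T κ)
    (hf : ∀ i ∈ s, IsH w a (f i)) : IsH w a (∑ i ∈ s, f i) := by
  classical
  induction s using Finset.induction_on with
  | empty => rw [Finset.sum_empty]; exact isH_zero w a
  | insert x s hx ih =>
    rw [Finset.sum_insert hx]
    exact isH_add (hf x (Finset.mem_insert_self _ _))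
      (ih fun i hi => hf i (Finset.mem_insert_of_mem hi))

theorem isH_one {κ : Type} (w : κ → ℕ) : IsH w 0 (1 : T κ) := by
  intro m hm
  by_cases h : m = 1
  · rw [h, wd_one]
  · exfalso
    apply hm
    classical
    rw [MonoidAlgebra.one_def, MonoidAlgebra.coeff_single, Finsupp.single_apply,
      if_neg (fun h' => h h'.symm)]

/-- all coefficients are homogeneous -/
def HH {ι : Type} (f : PS (T ι)) : Prop := ∀ i, IsH (fun _ => 1) i (coeff i f)

theorem HH_mul {ι : Type} {f g : PS (T ι)} (hf : HH f) (hg : HH g) : HH (f * g) := by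
  intro i
  rw [coeff_mul]
  apply isH_sum
  rintro ⟨x, y⟩ hxy
  simp only [Finset.HasAntidiagonal.mem_antidiagonal] at hxy
  rw [← hxy]
  exact isH_mul (hf x) (hg y)

theorem HH_one {ι : Type} : HH (1 : PS (T ι)) := by
  intro i
  rw [coeff_one]
  split_ifs with h
  · rw [h]; exact isH_one _
  · exact isH_zero _ _

theorem HH_word {ι κ : Type} (e : κ → PS (T ι)) (he : ∀ i, HH (e i)) (m : FreeMonoid κ) :
    HH (FreeMonoid.lift e m) := by
  induction m using FreeMonoid.recOn with
  | one => rw [map_one]; exact HH_one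
  | of_mul i m ih =>
    rw [map_mul, FreeMonoid.lift_eval_of]
    exact HH_mul (he i) ih

theorem HH_sub {ι κ : Type} (e : κ → PS (T ι)) (he : ∀ i, HH (e i)) (U : T κ) :
    HH (sub e U) := by
  intro i
  rw [sub_eq, map_sum]
  apply isH_sum
  intro m _
  have h : coeff i (U.coeff m • FreeMonoid.lift e m) = U.coeff m • coeff i (FreeMonoid.lift e m) :=
    rfl
  rw [h]
  exact isH_smul _ (HH_word e he m i)

/-! ### primitivity -/

abbrev B (ι : Type) := MonoidAlgebra ℝ (FreeMonoid ι × FreeMonoid ι)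

theorem lft_single {ι : Type} (m : FreeMonoid ι) (r : ℝ) :
    lft ι (MonoidAlgebra.single m r) = MonoidAlgebra.single (m, 1) r := by
  simp [lft]

theorem rgt_single {ι : Type} (m : FreeMonoid ι) (r : ℝ) :
    rgt ι (MonoidAlgebra.single m r) = MonoidAlgebra.single (1, m) r := by
  simp [rgt]

theorem comm_lr {ι : Type} (f g : T ι) : Commute (lft ι f) (rgt ι g) := by
  induction f using MonoidAlgebra.induction_linear with
  | zero => rw [map_zero]; exact Commute.zero_left _
  | add x y hx hy => rw [map_add]; exact hx.add_left hy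
  | single m r =>
    induction g using MonoidAlgebra.induction_linear with
    | zero => rw [map_zero]; exact Commute.zero_right _
    | add x y hx hy => rw [map_add]; exact hx.add_right hy
    | single n s =>
      rw [lft_single, rgt_single]
      show _ * _ = _ * _
      rw [MonoidAlgebra.single_mul_single, MonoidAlgebra.single_mul_single, mul_comm r s]
      simp

noncomputable def Pc (ι : Type) : PS (T ι) →ₐ[ℝ] PS (B ι) := PowerSeries.mapAlgHom (cop ι)
noncomputable def Pl (ι : Type) : PS (T ι) →ₐ[ℝ] PS (B ι) := PowerSeries.mapAlgHom (lft ι)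
noncomputable def Pr (ι : Type) : PS (T ι) →ₐ[ℝ] PS (B ι) := PowerSeries.mapAlgHom (rgt ι)

theorem Pc_coeff {ι : Type} (f : PS (T ι)) (i : ℕ) : coeff i (Pc ι f) = cop ι (coeff i f) := by
  unfold Pc
  rw [PowerSeries.mapAlgHom_apply]
  exact PowerSeries.coeff_map _ _ _

theorem Pl_coeff {ι : Type} (f : PS (T ι)) (i : ℕ) : coeff i (Pl ι f) = lft ι (coeff i f) := by
  unfold Pl
  rw [PowerSeries.mapAlgHom_apply]
  exact PowerSeries.coeff_map _ _ _

theorem Pr_coeff {ι : Type} (f : PS (T ι)) (i : ℕ) : coeff i (Pr ι f) = rgt ι (coeff i f) := by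
  unfold Pr
  rw [PowerSeries.mapAlgHom_apply]
  exact PowerSeries.coeff_map _ _ _

theorem comm_P {ι : Type} (f g : PS (T ι)) : Commute (Pl ι f) (Pr ι g) := by
  show _ * _ = _ * _
  ext1 n
  rw [coeff_mul, coeff_mul, ← Finset.Nat.sum_antidiagonal_swap]
  refine Finset.sum_congr rfl fun x _ => ?_
  rw [Pl_coeff, Pr_coeff, Prod.fst_swap, Prod.snd_swap, Pl_coeff, Pr_coeff]
  exact (comm_lr _ _).eq

theorem prim_iff {ι : Type} (f : PS (T ι)) :
    Pc ι f = Pl ι f + Pr ι f ↔ ∀ i, Prim (coeff i f) := by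
  constructor
  · intro h i
    have := congrArg (coeff i) h
    rw [map_add, Pc_coeff, Pl_coeff, Pr_coeff] at this
    exact this
  · intro h
    ext1 i
    rw [map_add, Pc_coeff, Pl_coeff, Pr_coeff]
    exact h i

/-- the homomorphism on pairs of words -/
noncomputable def psi {ι κ : Type} (e : κ → PS (T ι)) :
    FreeMonoid κ × FreeMonoid κ →* PS (B ι) :=
  MonoidHom.noncommCoprod ((Pl ι : PS (T ι) →* PS (B ι)).comp (FreeMonoid.lift e))
    ((Pr ι : PS (T ι) →* PS (B ι)).comp (FreeMonoid.lift e)) (fun _ _ => comm_P _ _)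

noncomputable def Psi' {ι κ : Type} (e : κ → PS (T ι)) : B κ →ₐ[ℝ] PS (B ι) :=
  MonoidAlgebra.lift ℝ (PS (B ι)) (FreeMonoid κ × FreeMonoid κ) (psi e)

theorem Psi_single {ι κ : Type} (e : κ → PS (T ι)) (m n : FreeMonoid κ) :
    Psi' e (MonoidAlgebra.single (m, n) 1) =
      Pl ι (FreeMonoid.lift e m) * Pr ι (FreeMonoid.lift e n) := by
  unfold Psi'
  rw [MonoidAlgebra.lift_single, one_smul]
  rfl

theorem sub_single {κ : Type} {A : Type} [Ring A] [Algebra ℝ A] (e : κ → A) (m : FreeMonoid κ) :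
    sub e (MonoidAlgebra.single m 1) = FreeMonoid.lift e m := by
  unfold sub
  rw [MonoidAlgebra.lift_single, one_smul]

theorem Psi_lft {ι κ : Type} (e : κ → PS (T ι)) (U : T κ) :
    Psi' e (lft κ U) = Pl ι (sub e U) := by
  have h : (Psi' e).comp (lft κ) = (Pl ι).comp (sub e) := by
    refine MonoidAlgebra.algHom_ext (fun m => ?_) (Subsingleton.elim _ _)
    rw [AlgHom.comp_apply, AlgHom.comp_apply, lft_single, Psi_single, sub_single, map_one,
      map_one, mul_one]
  exact congrArg (fun F : T κ →ₐ[ℝ] PS (B ι) => F U) h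

theorem Psi_rgt {ι κ : Type} (e : κ → PS (T ι)) (U : T κ) :
    Psi' e (rgt κ U) = Pr ι (sub e U) := by
  have h : (Psi' e).comp (rgt κ) = (Pr ι).comp (sub e) := by
    refine MonoidAlgebra.algHom_ext (fun m => ?_) (Subsingleton.elim _ _)
    rw [AlgHom.comp_apply, AlgHom.comp_apply, rgt_single, Psi_single, sub_single, map_one,
      map_one, one_mul]
  exact congrArg (fun F : T κ →ₐ[ℝ] PS (B ι) => F U) h

theorem Psi_cop {ι κ : Type} (e : κ → PS (T ι)) (he : ∀ i, Pc ι (e i) = Pl ι (e i) + Pr ι (e i))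
    (U : T κ) : Psi' e (cop κ U) = Pc ι (sub e U) := by
  have h : (Psi' e).comp (cop κ) = (Pc ι).comp (sub e) := by
    refine MonoidAlgebra.algHom_ext (fun m => ?_) (Subsingleton.elim _ _)
    rw [AlgHom.comp_apply, AlgHom.comp_apply, sub_single]
    have h1 : cop κ (MonoidAlgebra.single m 1) = FreeMonoid.lift (fun i =>
        (MonoidAlgebra.single (FreeMonoid.of i, (1 : FreeMonoid κ)) (1 : ℝ) +
          MonoidAlgebra.single ((1 : FreeMonoid κ), FreeMonoid.of i) (1 : ℝ) : B κ)) m := by
      unfold cop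
      rw [MonoidAlgebra.lift_single, one_smul]
    rw [h1]
    induction m using FreeMonoid.recOn with
    | one => rw [map_one, map_one, map_one, map_one]
    | of_mul i m ih =>
      rw [map_mul, map_mul, map_mul, map_mul, FreeMonoid.lift_eval_of, FreeMonoid.lift_eval_of,
        map_add, Psi_single, Psi_single, he i]
      congr 1
      · rw [map_one, map_one, map_one, mul_one, one_mul, FreeMonoid.lift_eval_of]
      · apply ih
        unfold cop
        rw [MonoidAlgebra.lift_single, one_smul]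
  exact congrArg (fun F : T κ →ₐ[ℝ] PS (B ι) => F U) h

end TTHO

open TTHO in
theorem t_THO (_h1 : S_SUBP) : S_THO := by
  intro ι p p' m ξ δ U hp hp' hξ hδ hU
  have hw : ∀ i, ordge ((![p, p'] : Fin 2 → ℕ) i) ((![ξ, δ] : Fin 2 → PS (T ι)) i) := by
    intro i
    fin_cases i
    · exact hξ
    · exact hδ
  have hword := fun n : FreeMonoid (Fin 2) => word ![p, p'] ![ξ, δ] hw n
  have hc : (fun i => coeff ((![p, p'] : Fin 2 → ℕ) i) ((![ξ, δ] : Fin 2 → PS (T ι)) i)) =
      ![coeff p ξ, coeff p' δ] := by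
    funext i
    fin_cases i <;> rfl
  have hsm : ∀ (i : ℕ) (r : ℝ) (f : PS (T ι)), coeff i (r • f) = r • coeff i f :=
    fun _ _ _ => rfl
  refine ⟨?_, ?_, ?_⟩
  · intro i hi
    rw [sub_eq, map_sum]
    apply Finset.sum_eq_zero
    intro n hn
    rw [hsm, (hword n).1 i, smul_zero]
    rw [hU n (Finsupp.mem_support_iff.mp hn)]
    exact hi
  · rw [sub_eq, sub_eq, map_sum]
    refine Finset.sum_congr rfl fun n hn => ?_
    rw [hsm, ← hc, ← (hword n).2, hU n (Finsupp.mem_support_iff.mp hn)]
  · intro hPξ hPδ hPU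
    have hH : ∀ i, HH ((![ξ, δ] : Fin 2 → PS (T ι)) i) := by
      intro i
      fin_cases i
      · exact fun j => (hPξ j).1
      · exact fun j => (hPδ j).1
    have hPr : ∀ i, Pc ι ((![ξ, δ] : Fin 2 → PS (T ι)) i) =
        Pl ι ((![ξ, δ] : Fin 2 → PS (T ι)) i) + Pr ι ((![ξ, δ] : Fin 2 → PS (T ι)) i) := by
      intro i
      fin_cases i
      · exact (prim_iff _).mpr fun j => (hPξ j).2
      · exact (prim_iff _).mpr fun j => (hPδ j).2
    have h1 : Pc ι (sub ![ξ, δ] U) = Pl ι (sub ![ξ, δ] U) + Pr ι (sub ![ξ, δ] U) := by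
      rw [← Psi_cop _ hPr, ← Psi_lft, ← Psi_rgt, ← map_add]
      congr 1
    exact fun i => ⟨HH_sub _ hH U i, (prim_iff _).mp h1 i⟩

end Pool.Agent.H32CE
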