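import Pool.Agent.H32CE.St

set_option autoImplicit false

/-! Task UM: universal moves. -/

namespace Pool.Agent.H32CE

open PowerSeries

namespace TUM

/-- the leading terms form a subgroup -/
theorem mem_lead (hB : S_BAS2) (p q : ℕ) (hp : 1 ≤ p) (hq : 1 ≤ q) (m : ℕ) (hm : 1 ≤ m) {n : ℕ}
    (e : Fin n → FreeGroup (Fin 2)) (he : ∀ i, G2 p q hp hq m (e i)) (z : Fin n → ℤ) :
    ∃ U, G2 p q hp hq m U ∧ cf2 p q hp hq m U = ∑ i, (z i : ℝ) • cf2 p q hp hq m (e i) := by
  obtain ⟨h1, h2, h3, -⟩ := hB p q hp hq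
  have hone : G2 p q hp hq m 1 ∧ cf2 p q hp hq m 1 = 0 := by
    have h0 : G2 p q hp hq m 1 ∧ cf2 p q hp hq m 1 = 0 := by
      have hg : ∀ i, 1 ≤ i → cf2 p q hp hq i 1 = 0 := by
        intro i hi
        unfold cf2
        rw [map_one, Units.val_one, coeff_one, if_neg (by omega)]
      exact ⟨fun i hi _ => hg i hi, hg m hm⟩
    exact h0
  let H : AddSubgroup (T (Fin 2)) :=
    { carrier := {f | ∃ U, G2 p q hp hq m U ∧ cf2 p q hp hq m U = f}
      zero_mem' := ⟨1, hone.1, hone.2⟩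
      add_mem' := by
        rintro a b ⟨U, hU, rfl⟩ ⟨V, hV, rfl⟩
        exact ⟨U * V, (h1 m U V hU hV).1, h2 m m U V hU hV m hm (by omega)⟩
      neg_mem' := by
        rintro a ⟨U, hU, rfl⟩
        exact ⟨U⁻¹, (h1 m U U hU hU).2, h3 m U hU m hm (by omega)⟩ }
  have h4 : ∑ i, (z i : ℝ) • cf2 p q hp hq m (e i) ∈ H := by
    refine H.sum_mem fun i _ => ?_
    rw [Int.cast_smul_eq_zsmul]
    exact H.zsmul_mem ⟨e i, he i, rfl⟩ _
  exact h4

theorem br_smul_left (a b : T (Fin 2)) (c : ℝ) : br (c • a) b = c • br a b := by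
  simp only [br, smul_mul_assoc, mul_smul_comm, smul_sub]

theorem br_smul_right (a b : T (Fin 2)) (c : ℝ) : br a (c • b) = c • br a b := by
  simp only [br, smul_mul_assoc, mul_smul_comm, smul_sub]

theorem br_sum_left {n : ℕ} (a : Fin n → T (Fin 2)) (b : T (Fin 2)) :
    br (∑ i, a i) b = ∑ i, br (a i) b := by
  simp only [br, Finset.sum_mul, Finset.mul_sum, Finset.sum_sub_distrib]

theorem br_sum_right {n : ℕ} (a : T (Fin 2)) (b : Fin n → T (Fin 2)) :
    br a (∑ i, b i) = ∑ i, br a (b i) := by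
  simp only [br, Finset.sum_mul, Finset.mul_sum, Finset.sum_sub_distrib]

/-- a linear system with integer coefficients which describes the kernel -/
theorem system {K : ℕ} (G : Fin K → T (Fin 2)) (hG : ∀ k m, ∃ z : ℤ, (G k).coeff m = z) :
    ∃ (N : ℕ) (M : Matrix (Fin N) (Fin K) ℤ), ∀ v : Fin K → ℝ,
      (∀ i, ∑ k, (M i k : ℝ) * v k = 0) ↔ ∑ k, v k • G k = 0 := by
  classical
  choose g hg using hG
  set W : Finset (FreeMonoid (Fin 2)) := Finset.univ.biUnion (fun k => (G k).coeff.support) with hW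
  refine ⟨W.card, fun i k => g k (W.equivFin.symm i), fun v => ?_⟩
  have hc : ∀ m, (∑ k, v k • G k).coeff m = ∑ k, (g k m : ℝ) * v k := by
    intro m
    rw [MonoidAlgebra.coeff_sum, Finsupp.finsetSum_apply]
    refine Finset.sum_congr rfl fun k _ => ?_
    rw [MonoidAlgebra.coeff_smul_apply, hg, smul_eq_mul, mul_comm]
  constructor
  · intro h
    apply MonoidAlgebra.ext
    ext m
    rw [hc, MonoidAlgebra.coeff_zero, Finsupp.zero_apply]
    by_cases hm : m ∈ W
    · have := h (W.equivFin ⟨m, hm⟩)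
      simpa using this
    · refine Finset.sum_eq_zero fun k _ => ?_
      have h1 : (G k).coeff m = 0 := by
        by_contra h0
        apply hm
        rw [hW, Finset.mem_biUnion]
        exact ⟨k, Finset.mem_univ _, Finsupp.mem_support_iff.2 h0⟩
      rw [← hg, h1, zero_mul]
  · intro h i
    have := hc (W.equivFin.symm i)
    rw [h, MonoidAlgebra.coeff_zero, Finsupp.zero_apply] at this
    exact this.symm

theorem coeff_zero_mag {ι : Type} (x : FreeGroup ι) : coeff 0 (mag x) = 1 := by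
  have h1 : (Units.map ((PowerSeries.constantCoeff (R := T ι) : PS (T ι) →+* T ι) :
      PS (T ι) →* T ι)).comp (magU ι) = 1 := by
    apply FreeGroup.ext_hom
    intro i
    apply Units.ext
    simp only [MonoidHom.comp_apply, magU, FreeGroup.lift_apply_of, Units.coe_map, MonoidHom.one_apply,
      Units.val_one]
    show PowerSeries.constantCoeff (ex 1 (X i)) = 1
    rw [← PowerSeries.coeff_zero_eq_constantCoeff_apply, ex, PowerSeries.coeff_mk]
    simp
  have h2 := congrArg (fun f : FreeGroup ι →* (T ι)ˣ => ((f x : (T ι)ˣ) : T ι)) h1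
  simp only [MonoidHom.comp_apply, Units.coe_map, MonoidHom.one_apply, Units.val_one] at h2
  rw [PowerSeries.coeff_zero_eq_constantCoeff_apply]
  exact h2

theorem ordge_mag {ι : Type} {k : ℕ} {x : FreeGroup ι} (hx : D k x) :
    ordge k ((magU ι x : PS (T ι)) - 1) := by
  intro i hi
  rw [map_sub]
  rcases Nat.eq_zero_or_pos i with h0 | h0
  · subst h0
    have := coeff_zero_mag x
    rw [mag] at this
    rw [this, PowerSeries.coeff_one, if_pos rfl, sub_self]
  · have := hx i h0 hi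
    rw [cf, mag] at this
    rw [this, PowerSeries.coeff_one, if_neg (by omega), sub_zero]

theorem lift_mag {r : ℕ} (x y : FreeGroup (Fin r)) (w : FreeGroup (Fin 2)) :
    FreeGroup.lift ![magU (Fin r) x, magU (Fin r) y] w = magU (Fin r) (FreeGroup.lift ![x, y] w) := by
  have h1 : FreeGroup.lift ![magU (Fin r) x, magU (Fin r) y] =
      (magU (Fin r)).comp (FreeGroup.lift ![x, y]) := by
    apply FreeGroup.ext_hom
    intro i
    rw [MonoidHom.comp_apply, FreeGroup.lift_apply_of, FreeGroup.lift_apply_of]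
    fin_cases i <;> rfl
  rw [h1]
  rfl

/-- substitution -/
theorem subst (hS : S_SUB2) (p q : ℕ) (hp : 1 ≤ p) (hq : 1 ≤ q) {r : ℕ} (x y : FreeGroup (Fin r))
    (hx : D p x) (hy : D q y) (m : ℕ) (hm : 1 ≤ m) (w : FreeGroup (Fin 2))
    (hw : G2 p q hp hq m w) : D m (FreeGroup.lift ![x, y] w) ∧
    cf m (FreeGroup.lift ![x, y] w) = sub ![cf p x, cf q y] (cf2 p q hp hq m w) := by
  obtain ⟨h1, h2⟩ := hS (T (Fin r)) p q hp hq (magU (Fin r) x) (magU (Fin r) y) (ordge_mag hx)
    (ordge_mag hy) m w hm hw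
  rw [lift_mag] at h1 h2
  constructor
  · intro i hi hi2
    have h3 := h1 i hi2
    rw [map_sub, PowerSeries.coeff_one, if_neg (by omega), sub_zero] at h3
    exact h3
  · rw [map_sub, PowerSeries.coeff_one, if_neg (by omega), sub_zero] at h2
    exact h2

end TUM

theorem t_UM (hUMI : S_UMI) (hLAT2 : S_LAT2) (hSUB2 : S_SUB2) (hPRM2 : S_PRM2) (hBAS2 : S_BAS2)
    (hKB : S_KB) : S_UM := by
  classical
  intro p q j c hp hpq hj hqj hc
  have hq : 1 ≤ q := by omega
  obtain ⟨n1, e, he, -, -, hesp⟩ := hLAT2 p q hp hq (p + j) (by omega)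
  obtain ⟨n2, f, hf, -, -, hfsp⟩ := hLAT2 p q hp hq (q + j) (by omega)
  obtain ⟨-, -, -, b4, b5, b6, b7, b8, b9⟩ := hBAS2 p q hp hq
  set Ee : Fin n1 → T (Fin 2) := fun k => cf2 p q hp hq (p + j) (e k) with hEe
  set Ff : Fin n2 → T (Fin 2) := fun k => cf2 p q hp hq (q + j) (f k) with hFf
  let G : Fin (n1 + n2) → T (Fin 2) :=
    Fin.append (fun k => br (Ee k) (X 1)) (fun k => br (X 0) (Ff k))
  have hG : ∀ k m, ∃ z : ℤ, (G k).coeff m = z := by
    intro k
    refine Fin.addCases (fun k => ?_) (fun k => ?_) k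
    · intro m
      have h1 := (b4 (p + j) q (e k) (FreeGroup.of 1) (by omega) hq (he k) b8).2
      rw [b9] at h1
      obtain ⟨z, hz⟩ := b5 (p + j + q) (cm (e k) (FreeGroup.of 1)) m
      refine ⟨z, ?_⟩
      simp only [G, Fin.append_left]
      rw [← hz, h1]
    · intro m
      have h1 := (b4 p (q + j) (FreeGroup.of 0) (f k) hp (by omega) b6 (hf k)).2
      rw [b7] at h1
      obtain ⟨z, hz⟩ := b5 (p + (q + j)) (cm (FreeGroup.of 0) (f k)) m
      refine ⟨z, ?_⟩
      simp only [G, Fin.append_right]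
      rw [← hz, h1]
  obtain ⟨N, M, hM⟩ := TUM.system G hG
  -- the two components
  let SE : (Fin (n1 + n2) → ℝ) →ₗ[ℝ] T (Fin 2) :=
    ∑ k : Fin n1, (LinearMap.proj (Fin.castAdd n2 k)).smulRight (Ee k)
  let SF : (Fin (n1 + n2) → ℝ) →ₗ[ℝ] T (Fin 2) :=
    ∑ k : Fin n2, (LinearMap.proj (Fin.natAdd n1 k)).smulRight (Ff k)
  have hSE : ∀ v, SE v = ∑ k : Fin n1, v (Fin.castAdd n2 k) • Ee k := by
    intro v
    simp only [SE, LinearMap.sum_apply, LinearMap.smulRight_apply, LinearMap.proj_apply]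
  have hSF : ∀ v, SF v = ∑ k : Fin n2, v (Fin.natAdd n1 k) • Ff k := by
    intro v
    simp only [SF, LinearMap.sum_apply, LinearMap.smulRight_apply, LinearMap.proj_apply]
  have hbr : ∀ v, br (SE v) (X 1) + br (X 0) (SF v) = ∑ k, v k • G k := by
    intro v
    rw [hSE, hSF, TUM.br_sum_left, TUM.br_sum_right, Fin.sum_univ_add]
    congr 1
    · refine Finset.sum_congr rfl fun k _ => ?_
      rw [TUM.br_smul_left]
      simp only [G, Fin.append_left]
    · refine Finset.sum_congr rfl fun k _ => ?_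
      rw [TUM.br_smul_right]
      simp only [G, Fin.append_right]
  -- integer vectors spanning the kernel
  obtain ⟨C, E', hKB'⟩ := hKB N (n1 + n2)
  obtain ⟨v, -, hv0, hvs⟩ := hKB' (1 + ∑ i, ∑ k, (M i k).natAbs) M (by omega) (by
    intro i k
    have h1 : (M i k).natAbs ≤ ∑ k, (M i k).natAbs :=
      Finset.single_le_sum (f := fun k => (M i k).natAbs) (fun _ _ => Nat.zero_le _)
        (Finset.mem_univ k)
    have h2 : ∑ k, (M i k).natAbs ≤ ∑ i, ∑ k, (M i k).natAbs :=
      Finset.single_le_sum (f := fun i => ∑ k, (M i k).natAbs) (fun _ _ => Nat.zero_le _)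
        (Finset.mem_univ i)
    have h3 : |M i k| = ((M i k).natAbs : ℤ) := (Int.natCast_natAbs _).symm
    rw [h3]
    exact_mod_cast (by omega))
  -- moves
  have hmove : ∀ (l : Fin (n1 + n2)) (b : Bool), ∃ (Q : ℕ) (U' V' : FreeGroup (Fin 2)), 1 ≤ Q ∧
      G2 p q hp hq (p + j) U' ∧ G2 p q hp hq (q + j) V' ∧
      cf2 p q hp hq (p + j) U' = (Q : ℝ) • SE (fun k => (if b then 1 else -1 : ℝ) * (v l k : ℝ)) ∧
      cf2 p q hp hq (q + j) V' = (Q : ℝ) • SF (fun k => (if b then 1 else -1 : ℝ) * (v l k : ℝ)) ∧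
      G2 p q hp hq (c + 1) ((cm (FreeGroup.of 0) (FreeGroup.of 1))⁻¹ *
        cm (FreeGroup.of 0 * U') (FreeGroup.of 1 * V')) := by
    intro l b
    set u : Fin (n1 + n2) → ℤ := fun k => (if b then 1 else -1 : ℤ) * v l k with hu
    have hur : (fun k => (if b then 1 else -1 : ℝ) * (v l k : ℝ)) = fun k => ((u k : ℤ) : ℝ) := by
      funext k
      rw [hu]
      cases b <;> simp
    rw [hur]
    obtain ⟨U, hU1, hU2⟩ := TUM.mem_lead hBAS2 p q hp hq (p + j) (by omega) e he
      (fun k => u (Fin.castAdd n2 k))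
    obtain ⟨V, hV1, hV2⟩ := TUM.mem_lead hBAS2 p q hp hq (q + j) (by omega) f hf
      (fun k => u (Fin.natAdd n1 k))
    have hU3 : cf2 p q hp hq (p + j) U = SE (fun k => ((u k : ℤ) : ℝ)) := by
      rw [hU2, hSE]
    have hV3 : cf2 p q hp hq (q + j) V = SF (fun k => ((u k : ℤ) : ℝ)) := by
      rw [hV2, hSF]
    have hker : br (cf2 p q hp hq (p + j) U) (X 1) + br (X 0) (cf2 p q hp hq (q + j) V) = 0 := by
      rw [hU3, hV3, hbr, ← hM]
      intro i
      have h1 : ∑ k, M i k * u k = 0 := by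
        have h2 : ∑ k, M i k * u k = (if b then 1 else -1 : ℤ) * ∑ k, M i k * v l k := by
          rw [Finset.mul_sum]
          refine Finset.sum_congr rfl fun k _ => ?_
          rw [hu]
          ring
        rw [h2, hv0, mul_zero]
      exact_mod_cast h1
    obtain ⟨Q, U', V', a1, a2, a3, a4, a5, a6⟩ := hUMI p q j c hp hq hpq hj hqj hc U V hU1 hV1 hker
    exact ⟨Q, U', V', a1, a2, a3, by rw [a4, hU3], by rw [a5, hV3], a6⟩
  choose Q U' V' a1 a2 a3 a4 a5 a6 using hmove
  let ix : Fin (Fintype.card (Fin (n1 + n2) × Bool)) ≃ Fin (n1 + n2) × Bool :=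
    (Fintype.equivFin (Fin (n1 + n2) × Bool)).symm
  refine ⟨Fintype.card (Fin (n1 + n2) × Bool), fun k => U' (ix k).1 (ix k).2,
    fun k => V' (ix k).1 (ix k).2, fun k => cf2 p q hp hq (p + j) (U' (ix k).1 (ix k).2),
    fun k => cf2 p q hp hq (q + j) (V' (ix k).1 (ix k).2), ?_, ?_, ?_⟩
  · intro k
    exact ⟨(hPRM2 p q hp hq (p + j) _).2 (by omega) (a2 _ _),
      (hPRM2 p q hp hq (q + j) _).2 (by omega) (a3 _ _), (hPRM2 p q hp hq (p + j) _).1,
      (hPRM2 p q hp hq (q + j) _).1⟩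
  · intro S₀ T₀ hS hT hS' hT' hker
    obtain ⟨za, hza⟩ := hesp S₀ hS hS'
    obtain ⟨zb, hzb⟩ := hfsp T₀ hT hT'
    have h1 : SE (Fin.append za zb) = S₀ := by
      rw [hSE, hza]
      refine Finset.sum_congr rfl fun k _ => ?_
      rw [Fin.append_left]
    have h2 : SF (Fin.append za zb) = T₀ := by
      rw [hSF, hzb]
      refine Finset.sum_congr rfl fun k _ => ?_
      rw [Fin.append_right]
    have h3 : ∑ k, (Fin.append za zb) k • G k = 0 := by
      rw [← hbr, h1, h2, hker]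
    obtain ⟨cl, hcl⟩ := hvs (Fin.append za zb) ((hM _).2 h3)
    have h4 : Fin.append za zb = ∑ l, cl l • (fun k => (v l k : ℝ)) := by
      funext k
      rw [hcl, Finset.sum_apply]
      rfl
    let zz : Fin (n1 + n2) × Bool → ℝ := fun a =>
      (if a.2 then max (cl a.1) 0 else max (-cl a.1) 0) / (Q a.1 a.2 : ℝ)
    have hQ : ∀ l b, (0 : ℝ) < Q l b := fun l b => by exact_mod_cast a1 l b
    have hcomb : ∀ (Φ : (Fin (n1 + n2) → ℝ) →ₗ[ℝ] T (Fin 2)),
        ∑ a : Fin (n1 + n2) × Bool, zz a • ((Q a.1 a.2 : ℝ) •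
          Φ (fun k => (if a.2 then 1 else -1 : ℝ) * (v a.1 k : ℝ))) = Φ (Fin.append za zb) := by
      intro Φ
      rw [h4, map_sum, Fintype.sum_prod_type]
      refine Finset.sum_congr rfl fun l _ => ?_
      rw [Fintype.sum_bool, map_smul]
      have e3 : ∀ x : Fin (n1 + n2) → ℝ, Φ (-x) = -Φ x := fun x => map_neg Φ x
      have e4 := (hQ l true).ne'
      have e5 := (hQ l false).ne'
      have e6 : (fun k => (if (true = true) then (1 : ℝ) else -1) * (v l k : ℝ)) =
        fun k => (v l k : ℝ) := by funext k; simp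
      have e7 : (fun k => (if (false = true) then (1 : ℝ) else -1) * (v l k : ℝ)) =
        -(fun k => (v l k : ℝ)) := by funext k; simp
      have e8 : zz (l, true) = max (cl l) 0 / (Q l true : ℝ) := by simp [zz]
      have e9 : zz (l, false) = max (-cl l) 0 / (Q l false : ℝ) := by simp [zz]
      show zz (l, true) • ((Q l true : ℝ) •
          Φ (fun k => (if (true = true) then (1 : ℝ) else -1) * (v l k : ℝ))) +
        zz (l, false) • ((Q l false : ℝ) •
          Φ (fun k => (if (false = true) then (1 : ℝ) else -1) * (v l k : ℝ))) = _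
      rw [e6, e7, e3, e8, e9, smul_smul, smul_smul, smul_neg, ← sub_eq_add_neg, ← sub_smul]
      congr 1
      rw [div_mul_cancel₀ _ e4, div_mul_cancel₀ _ e5]
      rcases le_total 0 (cl l) with h | h
      · rw [max_eq_left h, max_eq_right (by linarith), sub_zero]
      · rw [max_eq_right h, max_eq_left (by linarith), zero_sub, neg_neg]
    refine ⟨fun k => zz (ix k), fun k => ?_, ?_, ?_⟩
    · have := hQ (ix k).1 (ix k).2
      simp only [zz]
      split_ifs
      · exact div_nonneg (le_max_right _ _) this.le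
      · exact div_nonneg (le_max_right _ _) this.le
    · rw [← h1, ← hcomb SE, ← Equiv.sum_comp ix]
      exact Finset.sum_congr rfl fun k _ => congrArg (fun t => zz (ix k) • t) (a4 _ _).symm
    · rw [← h2, ← hcomb SF, ← Equiv.sum_comp ix]
      exact Finset.sum_congr rfl fun k _ => congrArg (fun t => zz (ix k) • t) (a5 _ _).symm
  · intro r x y k hx hy
    have s1 := TUM.subst hSUB2 p q hp hq x y hx hy (p + j) (by omega) _ (a2 (ix k).1 (ix k).2)
    have s2 := TUM.subst hSUB2 p q hp hq x y hx hy (q + j) (by omega) _ (a3 (ix k).1 (ix k).2)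
    have s3 := TUM.subst hSUB2 p q hp hq x y hx hy (c + 1) (by omega) _ (a6 (ix k).1 (ix k).2)
    refine ⟨s1.1, s1.2, s2.1, s2.2, ?_⟩
    have h1 := s3.1
    simp only [cm, map_mul, map_inv, FreeGroup.lift_apply_of] at h1
    simpa [cm] using h1

end Pool.Agent.H32CE
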