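import Pool.Agent.H32CE.St

set_option autoImplicit false

namespace Pool.Agent.H32CE

namespace TUMI

section

variable {p q : ℕ} {hp : 1 ≤ p} {hq : 1 ≤ q}

theorem anti {k k' : ℕ} {x : FreeGroup (Fin 2)} (h : G2 p q hp hq k x) (hk : k' ≤ k) :
    G2 p q hp hq k' x := fun i h1 h2 => h i h1 (by omega)

theorem cf2_one (i : ℕ) (hi : 1 ≤ i) : cf2 p q hp hq i 1 = 0 := by
  unfold cf2
  rw [map_one, Units.val_one, PowerSeries.coeff_one, if_neg (by omega)]

theorem g2_one (k : ℕ) : G2 p q hp hq k 1 := fun i h1 _ => cf2_one i h1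

theorem g2_succ {k : ℕ} {x : FreeGroup (Fin 2)} (h : G2 p q hp hq k x)
    (h0 : cf2 p q hp hq k x = 0) : G2 p q hp hq (k + 1) x := by
  intro i h1 h2
  rcases Nat.lt_or_ge i k with h3 | h3
  · exact h i h1 h3
  · have : i = k := by omega
    rw [this]; exact h0

theorem mulK (hB : S_BAS2) {K : ℕ} (hK : 1 ≤ K) {a b : FreeGroup (Fin 2)}
    (ha : G2 p q hp hq K a) (hb : G2 p q hp hq K b) :
    G2 p q hp hq K (a * b) ∧ cf2 p q hp hq K (a * b) = cf2 p q hp hq K a + cf2 p q hp hq K b :=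
  ⟨((hB p q hp hq).1 K a b ha hb).1, (hB p q hp hq).2.1 K K a b ha hb K hK (by omega)⟩

theorem L0 (hB : S_BAS2) {i : ℕ} (hi : 1 ≤ i) {x y u v : FreeGroup (Fin 2)}
    (hx : G2 p q hp hq p x) (hy : G2 p q hp hq q y) (hu : G2 p q hp hq (p + i) u)
    (hv : G2 p q hp hq (q + i) v) :
    G2 p q hp hq (p + q + i) ((cm x y)⁻¹ * cm (x * u) (y * v)) ∧
    cf2 p q hp hq (p + q + i) ((cm x y)⁻¹ * cm (x * u) (y * v)) =
      br (cf2 p q hp hq (p + i) u) (cf2 p q hp hq q y) +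
      br (cf2 p q hp hq p x) (cf2 p q hp hq (q + i) v) := by
  obtain ⟨hmul, hadd, hinv, hcm, -⟩ := hB p q hp hq
  have h1 := hcm p q x y hp hq hx hy
  have h2 := hcm p (q + i) x v hp (by omega) hx hv
  have h3 := hcm (p + (q + i)) (p + q) _ _ (by omega) (by omega) h2.1 h1.1
  have h4 := hcm (p + q) (q + i) _ _ (by omega) (by omega) h1.1 hv
  have hBm : G2 p q hp hq (p + q) (cm x v * (cm x y * cm (cm x y) v)) :=
    (hmul _ _ _ (anti h2.1 (by omega)) (hmul _ _ _ h1.1 (anti h4.1 (by omega))).1).1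
  have h5 := hcm (p + q) (p + i) _ _ (by omega) (by omega) hBm hu
  have hyv : G2 p q hp hq q (y * v) := (hmul _ _ _ hy (anti hv (by omega))).1
  have h6 := hcm (p + i) q _ _ (by omega) hq hu hyv
  have hid : (cm x y)⁻¹ * cm (x * u) (y * v) = cm x v * (cm (cm x v) (cm x y) *
      (cm (cm x y) v * (cm (cm x v * (cm x y * cm (cm x y) v)) u * cm u (y * v)))) := by
    simp only [cm]; group
  have hK : 1 ≤ p + q + i := by omega
  have g2 : G2 p q hp hq (p + q + i) (cm x v) := anti h2.1 (by omega)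
  have g3 : G2 p q hp hq (p + q + i) (cm (cm x v) (cm x y)) := anti h3.1 (by omega)
  have g4 : G2 p q hp hq (p + q + i) (cm (cm x y) v) := anti h4.1 (by omega)
  have g5 : G2 p q hp hq (p + q + i) (cm (cm x v * (cm x y * cm (cm x y) v)) u) :=
    anti h5.1 (by omega)
  have g6 : G2 p q hp hq (p + q + i) (cm u (y * v)) := anti h6.1 (by omega)
  have z3 := h3.1 (p + q + i) hK (by omega)
  have z4 := h4.1 (p + q + i) hK (by omega)
  have z5 := h5.1 (p + q + i) hK (by omega)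
  have m1 := mulK hB hK g5 g6
  have m2 := mulK hB hK g4 m1.1
  have m3 := mulK hB hK g3 m2.1
  have m4 := mulK hB hK g2 m3.1
  have hcy : cf2 p q hp hq q (y * v) = cf2 p q hp hq q y := by
    rw [hadd q (q + i) y v hy hv q hq (by omega), hv q hq (by omega), add_zero]
  rw [hid]
  refine ⟨m4.1, ?_⟩
  rw [m4.2, m3.2, m2.2, m1.2, z3, z4, z5, zero_add, zero_add, zero_add]
  have e2 := h2.2
  have e6 := h6.2
  rw [hcy] at e6
  rw [show p + (q + i) = p + q + i by omega] at e2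
  rw [show p + i + q = p + q + i by omega] at e6
  rw [e2, e6, add_comm]

/-- constant coefficient -/
theorem cc (w : FreeGroup (Fin 2)) :
    PowerSeries.coeff 0 ((mg2U p q hp hq w : (PS (T (Fin 2)))ˣ) : PS (T (Fin 2))) = 1 := by
  have h : (Units.map ((PowerSeries.constantCoeff (R := T (Fin 2))) : PS (T (Fin 2)) →* T (Fin 2))).comp
      (mg2U p q hp hq) = 1 := by
    apply FreeGroup.ext_hom
    intro a
    apply Units.ext
    fin_cases a
    · have e0 : mg2U p q hp hq (FreeGroup.of 0) = liU p hp (X 0) := by simp [mg2U]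
      show PowerSeries.constantCoeff
        ((mg2U p q hp hq (FreeGroup.of 0) : (PS (T (Fin 2)))ˣ) : PS (T (Fin 2))) = 1
      rw [e0, ← PowerSeries.coeff_zero_eq_constantCoeff_apply]
      simp only [liU, li, PowerSeries.coeff_mk, if_true]
    · have e0 : mg2U p q hp hq (FreeGroup.of 1) = liU q hq (X 1) := by simp [mg2U]
      show PowerSeries.constantCoeff
        ((mg2U p q hp hq (FreeGroup.of 1) : (PS (T (Fin 2)))ˣ) : PS (T (Fin 2))) = 1
      rw [e0, ← PowerSeries.coeff_zero_eq_constantCoeff_apply]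
      simp only [liU, li, PowerSeries.coeff_mk, if_true]
  have h2 := congrArg (fun f => ((f w : (T (Fin 2))ˣ) : T (Fin 2))) h
  simpa using h2

theorem sub_X (f : T (Fin 2)) : sub ![X 0, X 1] f = f := by
  have hX : (![X 0, X 1] : Fin 2 → T (Fin 2)) = X := by
    funext i; fin_cases i <;> rfl
  rw [hX]
  have h : sub (X : Fin 2 → T (Fin 2)) = AlgHom.id ℝ (T (Fin 2)) := by
    unfold sub
    apply MonoidAlgebra.algHom_ext'
    · apply FreeMonoid.hom_eq
      intro i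
      simp [X]
    · ext
  rw [h]; rfl

theorem og {w : FreeGroup (Fin 2)} {k : ℕ} (h : G2 p q hp hq k w) :
    ordge k (((mg2U p q hp hq w : (PS (T (Fin 2)))ˣ) : PS (T (Fin 2))) - 1) := by
  intro i hi
  rw [map_sub, PowerSeries.coeff_one]
  rcases Nat.eq_zero_or_pos i with h0 | h0
  · subst h0
    rw [cc, if_pos rfl, sub_self]
  · rw [if_neg (by omega), sub_zero]
    exact h i h0 hi

/-- the endomorphism -/
theorem sig (hS : S_SUB2) (hB : S_BAS2) {j : ℕ} (hj : 1 ≤ j) {U V : FreeGroup (Fin 2)}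
    (hU : G2 p q hp hq (p + j) U) (hV : G2 p q hp hq (q + j) V) (k : ℕ) (hk : 1 ≤ k)
    (w : FreeGroup (Fin 2)) (hw : G2 p q hp hq k w) :
    G2 p q hp hq k (FreeGroup.lift ![FreeGroup.of 0 * U, FreeGroup.of 1 * V] w) ∧
    cf2 p q hp hq k (FreeGroup.lift ![FreeGroup.of 0 * U, FreeGroup.of 1 * V] w) =
      cf2 p q hp hq k w := by
  obtain ⟨hmul, hadd, hinv, hcm, hint, ha, ha', hb, hb'⟩ := hB p q hp hq
  have h1 : G2 p q hp hq p (FreeGroup.of 0 * U) := (hmul _ _ _ ha (anti hU (by omega))).1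
  have h2 : G2 p q hp hq q (FreeGroup.of 1 * V) := (hmul _ _ _ hb (anti hV (by omega))).1
  have c1 : cf2 p q hp hq p (FreeGroup.of 0 * U) = X 0 := by
    rw [hadd p (p + j) _ _ ha hU p hp (by omega), hU p hp (by omega), add_zero, ha']
  have c2 : cf2 p q hp hq q (FreeGroup.of 1 * V) = X 1 := by
    rw [hadd q (q + j) _ _ hb hV q hq (by omega), hV q hq (by omega), add_zero, hb']
  have hcomp : (mg2U p q hp hq).comp
      (FreeGroup.lift ![FreeGroup.of 0 * U, FreeGroup.of 1 * V]) =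
      FreeGroup.lift ![mg2U p q hp hq (FreeGroup.of 0 * U),
        mg2U p q hp hq (FreeGroup.of 1 * V)] := by
    apply FreeGroup.ext_hom
    intro a
    fin_cases a <;> simp
  have hcw : mg2U p q hp hq (FreeGroup.lift ![FreeGroup.of 0 * U, FreeGroup.of 1 * V] w) =
      FreeGroup.lift ![mg2U p q hp hq (FreeGroup.of 0 * U),
        mg2U p q hp hq (FreeGroup.of 1 * V)] w := by
    rw [← hcomp]; rfl
  obtain ⟨h3, h4⟩ := hS (T (Fin 2)) p q hp hq (mg2U p q hp hq (FreeGroup.of 0 * U))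
    (mg2U p q hp hq (FreeGroup.of 1 * V)) (og h1) (og h2) k w hk hw
  rw [← hcw] at h3 h4
  have c1' : PowerSeries.coeff p ((mg2U p q hp hq (FreeGroup.of 0 * U) :
    (PS (T (Fin 2)))ˣ) : PS (T (Fin 2))) = X 0 := c1
  have c2' : PowerSeries.coeff q ((mg2U p q hp hq (FreeGroup.of 1 * V) :
    (PS (T (Fin 2)))ˣ) : PS (T (Fin 2))) = X 1 := c2
  rw [c1', c2', sub_X, map_sub, PowerSeries.coeff_one, if_neg (by omega), sub_zero] at h4
  refine ⟨fun i hi1 hi2 => ?_, h4⟩
  have h5 := h3 i hi2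
  rw [map_sub, PowerSeries.coeff_one, if_neg (by omega), sub_zero] at h5
  exact h5

/-- iteration of the endomorphism -/
theorem iter (hS : S_SUB2) (hB : S_BAS2) {j m : ℕ} (hj : 1 ≤ j) (hm : 1 ≤ m)
    {U V : FreeGroup (Fin 2)} (hU : G2 p q hp hq (p + j) U) (hV : G2 p q hp hq (q + j) V)
    (he : G2 p q hp hq m ((cm (FreeGroup.of 0) (FreeGroup.of 1))⁻¹ *
      cm (FreeGroup.of 0 * U) (FreeGroup.of 1 * V))) (N : ℕ) :
    ∃ UN VN : FreeGroup (Fin 2), G2 p q hp hq (p + j) UN ∧ G2 p q hp hq (q + j) VN ∧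
      cf2 p q hp hq (p + j) UN = (N : ℝ) • cf2 p q hp hq (p + j) U ∧
      cf2 p q hp hq (q + j) VN = (N : ℝ) • cf2 p q hp hq (q + j) V ∧
      G2 p q hp hq m ((cm (FreeGroup.of 0) (FreeGroup.of 1))⁻¹ *
        cm (FreeGroup.of 0 * UN) (FreeGroup.of 1 * VN)) ∧
      cf2 p q hp hq m ((cm (FreeGroup.of 0) (FreeGroup.of 1))⁻¹ *
        cm (FreeGroup.of 0 * UN) (FreeGroup.of 1 * VN)) =
      (N : ℝ) • cf2 p q hp hq m ((cm (FreeGroup.of 0) (FreeGroup.of 1))⁻¹ *
        cm (FreeGroup.of 0 * U) (FreeGroup.of 1 * V)) := by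
  induction N with
  | zero =>
    refine ⟨1, 1, g2_one _, g2_one _, ?_, ?_, ?_, ?_⟩
    · rw [cf2_one _ (by omega)]; simp
    · rw [cf2_one _ (by omega)]; simp
    · rw [mul_one, mul_one, inv_mul_cancel]; exact g2_one _
    · rw [mul_one, mul_one, inv_mul_cancel, cf2_one _ hm]; simp
  | succ N ih =>
    obtain ⟨UN, VN, h1, h2, h3, h4, h5, h6⟩ := ih
    set σ := FreeGroup.lift ![FreeGroup.of 0 * U, FreeGroup.of 1 * V] with hσ
    have s := fun k hk w hw => sig hS hB hj hU hV k hk w hw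
    have s1 := s (p + j) (by omega) UN h1
    have s2 := s (q + j) (by omega) VN h2
    have s3 := s m hm _ h5
    rw [← hσ] at s1 s2 s3
    have m1 := mulK hB (by omega) hU s1.1
    have m2 := mulK hB (by omega) hV s2.1
    have m3 := mulK hB hm he s3.1
    have hσ0 : σ (FreeGroup.of 0) = FreeGroup.of 0 * U := by simp [hσ]
    have hσ1 : σ (FreeGroup.of 1) = FreeGroup.of 1 * V := by simp [hσ]
    have hE : (cm (FreeGroup.of 0) (FreeGroup.of 1))⁻¹ *
        cm (FreeGroup.of 0 * (U * σ UN)) (FreeGroup.of 1 * (V * σ VN)) =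
        ((cm (FreeGroup.of 0) (FreeGroup.of 1))⁻¹ *
          cm (FreeGroup.of 0 * U) (FreeGroup.of 1 * V)) *
        σ ((cm (FreeGroup.of 0) (FreeGroup.of 1))⁻¹ *
          cm (FreeGroup.of 0 * UN) (FreeGroup.of 1 * VN)) := by
      simp only [cm, map_mul, map_inv, hσ0, hσ1]
      group
    refine ⟨U * σ UN, V * σ VN, m1.1, m2.1, ?_, ?_, ?_, ?_⟩
    · rw [m1.2, s1.2, h3]; push_cast; rw [add_smul, one_smul, add_comm]
    · rw [m2.2, s2.2, h4]; push_cast; rw [add_smul, one_smul, add_comm]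
    · rw [hE]; exact m3.1
    · rw [hE, m3.2, s3.2, h6]; push_cast; rw [add_smul, one_smul, add_comm]

/-- integer combinations of leading terms -/
theorem comb (hB : S_BAS2) {l : ℕ} (hl : 1 ≤ l) {n : ℕ} (e : Fin n → FreeGroup (Fin 2))
    (he : ∀ k, G2 p q hp hq l (e k)) (z : Fin n → ℤ) :
    ∃ w, G2 p q hp hq l w ∧ cf2 p q hp hq l w = ∑ k, (z k : ℝ) • cf2 p q hp hq l (e k) := by
  obtain ⟨hmul, hadd, hinv, -⟩ := hB p q hp hq
  let L : AddSubgroup (T (Fin 2)) :=
    { carrier := {P | ∃ w, G2 p q hp hq l w ∧ cf2 p q hp hq l w = P}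
      zero_mem' := ⟨1, g2_one _, cf2_one _ hl⟩
      add_mem' := by
        rintro _ _ ⟨w, hw, rfl⟩ ⟨w', hw', rfl⟩
        exact ⟨w * w', (mulK hB hl hw hw').1, (mulK hB hl hw hw').2⟩
      neg_mem' := by
        rintro _ ⟨w, hw, rfl⟩
        exact ⟨w⁻¹, (hmul l w w hw hw).2, hinv l w hw l hl (by omega)⟩ }
  have h : ∑ k, (z k : ℝ) • cf2 p q hp hq l (e k) ∈ L := by
    apply sum_mem
    intro k _
    rw [Int.cast_smul_eq_zsmul]
    exact L.zsmul_mem ⟨e k, he k, rfl⟩ _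
  exact h

end

/-- from real to integral combinations -/
theorem intcomb (hRB : S_RB) {κ : Type} [Fintype κ] (f : κ → T (Fin 2)) (g : T (Fin 2))
    (hf : ∀ k m, ∃ z : ℤ, (f k).coeff m = z) (hg : ∀ m, ∃ z : ℤ, g.coeff m = z)
    (z : κ → ℝ) (h : g = ∑ k, z k • f k) :
    ∃ (N : ℕ) (z' : κ → ℤ), 1 ≤ N ∧ (N : ℝ) • g = ∑ k, (z' k : ℝ) • f k := by
  classical
  choose F hF using hf
  choose G hG using hg
  set S : Finset (FreeMonoid (Fin 2)) :=
    g.coeff.support ∪ Finset.univ.biUnion (fun k => (f k).coeff.support) with hS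
  let eS : Fin S.card ≃ S := S.equivFin.symm
  let eK : Fin (Fintype.card κ) ≃ κ := (Fintype.equivFin κ).symm
  let M : Matrix (Fin S.card) (Fin (Fintype.card κ)) ℤ := fun i k => F (eK k) (eS i)
  let hh : Fin S.card → ℤ := fun i => G (eS i)
  have hco : ∀ (c : κ → ℝ) (m : FreeMonoid (Fin 2)),
      (∑ k, c k • f k).coeff m = ∑ k, c k * (F k m : ℝ) := by
    intro c m
    rw [MonoidAlgebra.coeff_sum, Finsupp.finsetSum_apply]
    apply Finset.sum_congr rfl
    intro k _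
    rw [MonoidAlgebra.coeff_smul_apply, hF, smul_eq_mul]
  obtain ⟨C, E, hCE⟩ := hRB S.card (Fintype.card κ)
  have hB1 : ∀ i k, |M i k| ≤ ((1 + ∑ i, ∑ k, (M i k).natAbs + ∑ i, (hh i).natAbs : ℕ) : ℤ) := by
    intro i k
    rw [Int.abs_eq_natAbs]
    have h1 : (M i k).natAbs ≤ ∑ k, (M i k).natAbs :=
      Finset.single_le_sum (f := fun k => (M i k).natAbs) (fun _ _ => Nat.zero_le _)
        (Finset.mem_univ k)
    have h2 : ∑ k, (M i k).natAbs ≤ ∑ i, ∑ k, (M i k).natAbs :=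
      Finset.single_le_sum (f := fun i => ∑ k, (M i k).natAbs) (fun _ _ => Nat.zero_le _)
        (Finset.mem_univ i)
    exact_mod_cast (by omega : (M i k).natAbs ≤
      1 + ∑ i, ∑ k, (M i k).natAbs + ∑ i, (hh i).natAbs)
  have hB2 : ∀ i, |hh i| ≤ ((1 + ∑ i, ∑ k, (M i k).natAbs + ∑ i, (hh i).natAbs : ℕ) : ℤ) := by
    intro i
    rw [Int.abs_eq_natAbs]
    have h1 : (hh i).natAbs ≤ ∑ i, (hh i).natAbs :=
      Finset.single_le_sum (f := fun i => (hh i).natAbs) (fun _ _ => Nat.zero_le _)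
        (Finset.mem_univ i)
    exact_mod_cast (by omega : (hh i).natAbs ≤
      1 + ∑ i, ∑ k, (M i k).natAbs + ∑ i, (hh i).natAbs)
  obtain ⟨d, w, hd, -, -, hw⟩ := hCE (1 + ∑ i, ∑ k, (M i k).natAbs + ∑ i, (hh i).natAbs) M hh
    (by omega) hB1 hB2 ⟨fun k => z (eK k), by
      intro i
      have h1 : (g.coeff (eS i : FreeMonoid (Fin 2))) = (hh i : ℝ) := hG _
      rw [← h1, h, hco]
      rw [← Equiv.sum_comp eK (fun k => z k * (F k (eS i) : ℝ))]
      apply Finset.sum_congr rfl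
      intro k _
      exact mul_comm _ _⟩
  refine ⟨d, fun k => w (eK.symm k), hd, ?_⟩
  ext m
  rw [hco, MonoidAlgebra.coeff_smul_apply, hG, smul_eq_mul]
  by_cases hm : m ∈ S
  · have h1 := hw (eS.symm ⟨m, hm⟩)
    have h2 : ((eS (eS.symm ⟨m, hm⟩) : S) : FreeMonoid (Fin 2)) = m := by
      rw [Equiv.apply_symm_apply]
    have h3 : ∀ k, M (eS.symm ⟨m, hm⟩) k = F (eK k) m := by
      intro k
      show F (eK k) (eS (eS.symm ⟨m, hm⟩)) = _
      rw [h2]
    have h4 : hh (eS.symm ⟨m, hm⟩) = G m := by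
      show G (eS (eS.symm ⟨m, hm⟩)) = _
      rw [h2]
    rw [h4] at h1
    simp only [h3] at h1
    have h5 : ((d : ℤ) * G m : ℤ) = (d : ℝ) * (G m : ℝ) := by push_cast; ring
    rw [← h5, ← h1]
    push_cast
    rw [← Equiv.sum_comp eK (fun k => ((w (eK.symm k) : ℤ) : ℝ) * (F k m : ℝ))]
    apply Finset.sum_congr rfl
    intro k _
    rw [Equiv.symm_apply_apply, mul_comm]
  · rw [hS, Finset.mem_union, Finset.mem_biUnion] at hm
    push Not at hm
    have h1 : (G m : ℝ) = 0 := by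
      rw [← hG]; simpa using hm.1
    rw [h1, mul_zero]
    symm
    apply Finset.sum_eq_zero
    intro k _
    have h2 : (F k m : ℝ) = 0 := by
      rw [← hF]; simpa using hm.2 k (Finset.mem_univ k)
    rw [h2, mul_zero]

section

variable {p q : ℕ} {hp : 1 ≤ p} {hq : 1 ≤ q}

theorem br_neg_left (a b : T (Fin 2)) : br (-a) b = - br a b := by
  simp only [br]; noncomm_ring

theorem br_neg_right (a b : T (Fin 2)) : br a (-b) = - br a b := by
  simp only [br]; noncomm_ring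

theorem br_swap (a b : T (Fin 2)) : br a b = - br b a := by
  simp only [br]; noncomm_ring

theorem br_sum {κ : Type} [Fintype κ] (a : T (Fin 2)) (z : κ → ℝ) (f : κ → T (Fin 2)) :
    br a (∑ k, z k • f k) = ∑ k, z k • br a (f k) := by
  simp only [br, Finset.mul_sum, Finset.sum_mul, smul_sub, Finset.sum_sub_distrib,
    mul_smul_comm, smul_mul_assoc]

/-- corrections -/
theorem corr (hB : S_BAS2) (hP : S_PRM2) (hL : S_LAT2) (hSRJ : S_SRJ) (hRB : S_RB) {i : ℕ}
    (hi : 1 ≤ i) (e : FreeGroup (Fin 2)) (he : G2 p q hp hq (p + q + i) e) :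
    ∃ (N : ℕ) (U V : FreeGroup (Fin 2)), 1 ≤ N ∧ G2 p q hp hq (p + i) U ∧
      G2 p q hp hq (q + i) V ∧
      br (cf2 p q hp hq (p + i) U) (X 1) + br (X 0) (cf2 p q hp hq (q + i) V) =
        - ((N : ℝ) • cf2 p q hp hq (p + q + i) e) := by
  obtain ⟨hmul, hadd, hinv, hcm, hint, ha, ha', hb, hb'⟩ := hB p q hp hq
  have hm1 : 1 ≤ p + q + i := by omega
  have hIsH := (hP p q hp hq (p + q + i) e).1
  have hPr := (hP p q hp hq (p + q + i) e).2 hm1 he
  obtain ⟨W, hW, hWs⟩ := hSRJ 2 ![p, q] (p + q + i) (cf2 p q hp hq (p + q + i) e)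
    (by intro k; fin_cases k; exacts [hp, hq]) hPr hIsH (by
      intro k
      by_contra hne
      have h1 := hIsH _ hne
      fin_cases k
      · have h2 : wd ![p, q] (FreeMonoid.of (0 : Fin 2)) = p := by simp [wd]
        have h3 : wd ![p, q] (FreeMonoid.of (0 : Fin 2)) = p + q + i := h1
        omega
      · have h2 : wd ![p, q] (FreeMonoid.of (1 : Fin 2)) = q := by simp [wd]
        have h3 : wd ![p, q] (FreeMonoid.of (1 : Fin 2)) = p + q + i := h1
        omega)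
  rw [Fin.sum_univ_two] at hWs
  have hW0 := hW 0
  have hW1 := hW 1
  have d0 : p + q + i - (![p, q] : Fin 2 → ℕ) 0 = q + i := by simp; omega
  have d1 : p + q + i - (![p, q] : Fin 2 → ℕ) 1 = p + i := by simp; omega
  rw [d0] at hW0
  rw [d1] at hW1
  obtain ⟨n0, e0, he0, -, -, hs0⟩ := hL p q hp hq (q + i) (by omega)
  obtain ⟨n1, e1, he1, -, -, hs1⟩ := hL p q hp hq (p + i) (by omega)
  obtain ⟨z0, hz0⟩ := hs0 _ hW0.1 hW0.2
  obtain ⟨z1, hz1⟩ := hs1 _ hW1.1 hW1.2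
  have f0 : ∀ k, br (X 0) (cf2 p q hp hq (q + i) (e0 k)) =
      cf2 p q hp hq (p + q + i) (cm (FreeGroup.of 0) (e0 k)) := by
    intro k
    have h1 := (hcm p (q + i) _ _ hp (by omega) ha (he0 k)).2
    rw [ha', show p + (q + i) = p + q + i by omega] at h1
    exact h1.symm
  have f1 : ∀ k, br (X 1) (cf2 p q hp hq (p + i) (e1 k)) =
      cf2 p q hp hq (p + q + i) (cm (FreeGroup.of 1) (e1 k)) := by
    intro k
    have h1 := (hcm q (p + i) _ _ hq (by omega) hb (he1 k)).2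
    rw [hb', show q + (p + i) = p + q + i by omega] at h1
    exact h1.symm
  rw [hz0, hz1, br_sum, br_sum] at hWs
  obtain ⟨N, z', hN, hz'⟩ := intcomb hRB (κ := Fin n0 ⊕ Fin n1)
    (Sum.elim (fun k => br (X 0) (cf2 p q hp hq (q + i) (e0 k)))
      (fun k => br (X 1) (cf2 p q hp hq (p + i) (e1 k))))
    (cf2 p q hp hq (p + q + i) e)
    (by
      rintro (k | k) m
      · simp only [Sum.elim_inl]; rw [f0]; exact hint _ _ _
      · simp only [Sum.elim_inr]; rw [f1]; exact hint _ _ _)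
    (fun m => hint _ _ _) (Sum.elim z0 z1)
    (by rw [Fintype.sum_sum_type]; simpa using hWs)
  rw [Fintype.sum_sum_type] at hz'
  simp only [Sum.elim_inl, Sum.elim_inr] at hz'
  obtain ⟨V, hV, hVc⟩ := comb hB (by omega : 1 ≤ q + i) e0 he0 (fun k => z' (Sum.inl k))
  obtain ⟨U, hU, hUc⟩ := comb hB (by omega : 1 ≤ p + i) e1 he1 (fun k => z' (Sum.inr k))
  have hVi := (hmul _ V V hV hV).2
  have hVic := hinv (q + i) V hV (q + i) (by omega) (by omega)
  refine ⟨N, U, V⁻¹, hN, hU, hVi, ?_⟩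
  rw [hVic, hVc, hUc, br_neg_right, br_swap _ (X 1), br_sum, br_sum, hz', neg_add, add_comm]

end

end TUMI

open TUMI in
theorem t_UMI (h1 : S_SUB2) (h2 : S_BAS2) (h3 : S_PRM2) (h4 : S_LAT2) (h5 : S_SRJ) (h6 : S_RB) :
    S_UMI := by
  intro p q j c hp hq hpq hj hqj hc U V hU hV hker
  obtain ⟨hmul, hadd, hinv, hcm, hint, ha, ha', hb, hb'⟩ := h2 p q hp hq
  -- claim
  have main : ∀ i, j ≤ i → ∃ (M : ℕ) (U' V' : FreeGroup (Fin 2)), 1 ≤ M ∧
      G2 p q hp hq (p + j) U' ∧ G2 p q hp hq (q + j) V' ∧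
      cf2 p q hp hq (p + j) U' = (M : ℝ) • cf2 p q hp hq (p + j) U ∧
      cf2 p q hp hq (q + j) V' = (M : ℝ) • cf2 p q hp hq (q + j) V ∧
      G2 p q hp hq (p + q + i + 1) ((cm (FreeGroup.of 0) (FreeGroup.of 1))⁻¹ *
        cm (FreeGroup.of 0 * U') (FreeGroup.of 1 * V')) := by
    intro i hi
    induction i, hi using Nat.le_induction with
    | base =>
      refine ⟨1, U, V, le_rfl, hU, hV, by simp, by simp, ?_⟩
      obtain ⟨e1, e2⟩ := L0 h2 hj ha hb hU hV
      rw [ha', hb', hker] at e2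
      exact g2_succ e1 e2
    | succ i hi ih =>
      obtain ⟨M, U', V', hM, hU', hV', cU, cV, hE⟩ := ih
      rw [show p + q + i + 1 = p + q + (i + 1) by omega] at hE
      obtain ⟨N, U2, V2, hN, hU2, hV2, hk⟩ := corr h2 h3 h4 h5 h6 (by omega : 1 ≤ i + 1) _ hE
      obtain ⟨UN, VN, g1, g2, g3, g4, g5, g6⟩ := iter h1 h2 hj (by omega) hU' hV' hE N
      have gα : G2 p q hp hq p (FreeGroup.of 0 * UN) := (hmul _ _ _ ha (anti g1 (by omega))).1
      have gβ : G2 p q hp hq q (FreeGroup.of 1 * VN) := (hmul _ _ _ hb (anti g2 (by omega))).1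
      have cα : cf2 p q hp hq p (FreeGroup.of 0 * UN) = X 0 := by
        rw [hadd p (p + j) _ _ ha g1 p hp (by omega), g1 p hp (by omega), add_zero, ha']
      have cβ : cf2 p q hp hq q (FreeGroup.of 1 * VN) = X 1 := by
        rw [hadd q (q + j) _ _ hb g2 q hq (by omega), g2 q hq (by omega), add_zero, hb']
      obtain ⟨e1, e2⟩ := L0 h2 (by omega : 1 ≤ i + 1) gα gβ hU2 hV2
      rw [cα, cβ, hk] at e2
      have hid : (cm (FreeGroup.of 0) (FreeGroup.of 1))⁻¹ *
          cm (FreeGroup.of 0 * (UN * U2)) (FreeGroup.of 1 * (VN * V2)) =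
          ((cm (FreeGroup.of 0) (FreeGroup.of 1))⁻¹ *
            cm (FreeGroup.of 0 * UN) (FreeGroup.of 1 * VN)) *
          ((cm (FreeGroup.of 0 * UN) (FreeGroup.of 1 * VN))⁻¹ *
            cm (FreeGroup.of 0 * UN * U2) (FreeGroup.of 1 * VN * V2)) := by
        simp only [cm, mul_assoc, mul_inv_cancel_left]
      obtain ⟨f1, f2⟩ := mulK h2 (by omega) g5 e1
      rw [g6, e2, add_neg_cancel] at f2
      have a1 : cf2 p q hp hq (p + j) (UN * U2) = ((N * M : ℕ) : ℝ) •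
          cf2 p q hp hq (p + j) U := by
        rw [hadd (p + j) (p + (i + 1)) _ _ g1 hU2 (p + j) (by omega) (by omega),
          hU2 (p + j) (by omega) (by omega), add_zero, g3, cU, smul_smul]
        push_cast; rfl
      have a2 : cf2 p q hp hq (q + j) (VN * V2) = ((N * M : ℕ) : ℝ) •
          cf2 p q hp hq (q + j) V := by
        rw [hadd (q + j) (q + (i + 1)) _ _ g2 hV2 (q + j) (by omega) (by omega),
          hV2 (q + j) (by omega) (by omega), add_zero, g4, cV, smul_smul]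
        push_cast; rfl
      refine ⟨N * M, UN * U2, VN * V2, Nat.mul_pos hN hM,
        (hmul _ _ _ g1 (anti hU2 (by omega))).1, (hmul _ _ _ g2 (anti hV2 (by omega))).1,
        a1, a2, ?_⟩
      rw [hid]
      exact g2_succ f1 f2
  obtain ⟨M, U', V', hM, hU', hV', cU, cV, hE⟩ := main (c - (p + q)) (by omega)
  exact ⟨M, U', V', hM, hU', hV', cU, cV, anti hE (by omega)⟩

end Pool.Agent.H32CE
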