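import Pool.Agent.H32CE.St

/-! Task WA (author helper171): the weak algorithm. -/

set_option autoImplicit false

namespace Pool.Agent.H32CE

namespace TWA

open FreeMonoid

theorem wd_one {ι : Type} (m : FreeMonoid ι) : wd (fun _ => 1) m = (toList m).length := by
  unfold wd
  simp

theorem take_mul_drop {ι : Type} (m : FreeMonoid ι) (d : ℕ) :
    ofList ((toList m).take d) * ofList ((toList m).drop d) = m := by
  apply toList.injective
  rw [toList_mul, toList_ofList, toList_ofList, List.take_append_drop]

theorem split {ι : Type} (m m1 m2 : FreeMonoid ι) (d : ℕ) (h : m1 * m2 = m)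
    (h1 : (toList m1).length = d) :
    m1 = ofList ((toList m).take d) ∧ m2 = ofList ((toList m).drop d) := by
  subst h
  rw [toList_mul]
  constructor
  · apply toList.injective
    rw [toList_ofList, List.take_left' h1]
  · apply toList.injective
    rw [toList_ofList, List.drop_left' h1]

theorem key {ι : Type} (e f : T ι) (d : ℕ) (he : IsH (fun _ => 1) d e) (m : FreeMonoid ι) :
    (e * f).coeff m = if d ≤ (toList m).length then
      e.coeff (ofList ((toList m).take d)) * f.coeff (ofList ((toList m).drop d)) else 0 := by
  classical
  have he' : ∀ m1 ∈ e.coeff.support, (toList m1).length = d := by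
    intro m1 hm1
    rw [← wd_one]
    exact he m1 (Finsupp.mem_support_iff.1 hm1)
  rw [MonoidAlgebra.coeff_mul]
  simp only [Finsupp.sum]
  split_ifs with h
  · rw [Finset.sum_eq_single (ofList ((toList m).take d))]
    · rw [Finset.sum_eq_single (ofList ((toList m).drop d))]
      · rw [if_pos (take_mul_drop m d)]
      · intro m2 _ hne
        rw [if_neg]
        intro heq
        apply hne
        refine (split m _ m2 d heq ?_).2
        rw [toList_ofList, List.length_take]
        omega
      · intro hnot
        rw [if_pos (take_mul_drop m d), Finsupp.notMem_support_iff.1 hnot, mul_zero]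
    · intro m1 hm1 hne
      apply Finset.sum_eq_zero
      intro m2 _
      rw [if_neg]
      intro heq
      exact hne (split m m1 m2 d heq (he' m1 hm1)).1
    · intro hnot
      apply Finset.sum_eq_zero
      intro m2 _
      rw [Finsupp.notMem_support_iff.1 hnot, zero_mul, ite_self]
  · apply Finset.sum_eq_zero
    intro m1 hm1
    apply Finset.sum_eq_zero
    intro m2 _
    rw [if_neg]
    intro heq
    apply h
    rw [← he' m1 hm1, ← heq, toList_mul, List.length_append]
    omega

/-- right division by `ω`, restricted to the words `z` with `|z| + a = b` -/
noncomputable def quo {ι : Type} (ω : FreeMonoid ι) (a b : ℕ) (c : ℝ) (f : T ι) : T ι :=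
  MonoidAlgebra.ofCoeff (c • (Finsupp.comapDomain (fun z => z * ω) f.coeff
    (mul_left_injective ω).injOn).filter (fun z => (toList z).length + a = b))

theorem coeff_quo {ι : Type} (ω : FreeMonoid ι) (a b : ℕ) (c : ℝ) (f : T ι) (z : FreeMonoid ι) :
    (quo ω a b c f).coeff z = if (toList z).length + a = b then c * f.coeff (z * ω) else 0 := by
  classical
  unfold quo
  simp only [Finsupp.smul_apply, Finsupp.filter_apply, smul_eq_mul,
    Finsupp.comapDomain_apply]
  split_ifs <;> simp

end TWA

open FreeMonoid TWA in
/-- Weak algorithm. -/
theorem t_WA : S_WA := by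
  classical
  intro ι k e w d he hrel hw
  have hrel' : ∀ m : FreeMonoid ι, ∑ l, (if d l ≤ (toList m).length then
      (e l).coeff (ofList ((toList m).take (d l))) * (w l).coeff (ofList ((toList m).drop (d l)))
      else 0) = 0 := by
    intro m
    have h1 : (∑ l, e l * w l).coeff m = 0 := by rw [hrel]; rfl
    rw [MonoidAlgebra.coeff_sum, Finsupp.finsetSum_apply] at h1
    exact (Finset.sum_congr rfl fun l _ => (key (e l) (w l) (d l) (he l) m).symm).trans h1
  obtain ⟨j, hj⟩ := hw
  obtain ⟨u, hu⟩ : ∃ u, (w j).coeff u ≠ 0 := by
    by_contra hcon
    push Not at hcon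
    apply hj
    rw [← MonoidAlgebra.coeff_eq_zero]
    ext u
    exact hcon u
  set m0 : ℕ := d j + (toList u).length with hm0
  set S : Finset (Fin k) := Finset.univ.filter
    (fun l => ∃ u, (w l).coeff u ≠ 0 ∧ d l + (toList u).length = m0) with hS
  have hSne : S.Nonempty := ⟨j, by
    rw [hS, Finset.mem_filter]
    exact ⟨Finset.mem_univ _, u, hu, rfl⟩⟩
  obtain ⟨i, hiS, himax⟩ := S.exists_max_image d hSne
  obtain ⟨-, ω, hω, hωd⟩ := Finset.mem_filter.1 hiS
  set c : ℝ := (w i).coeff ω with hc
  refine ⟨i, fun l => if l = i then 0 else quo ω (d l) (d i) (-c⁻¹) (w l), ?_, ?_, ?_⟩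
  · simp
  · intro l hl
    by_cases hli : l = i
    · simp [hli]
    · simp only [if_neg hli]
      rw [← MonoidAlgebra.coeff_eq_zero]
      ext z
      rw [coeff_quo, if_neg (by omega)]
      rfl
  · ext z
    rw [MonoidAlgebra.coeff_sum, Finsupp.finsetSum_apply]
    have hterm : ∀ l, (e l * (if l = i then 0 else quo ω (d l) (d i) (-c⁻¹) (w l))).coeff z =
        if l = i then 0 else (if d l ≤ (toList z).length then
          (e l).coeff (ofList ((toList z).take (d l))) *
          (if (toList z).length = d i then
            (-c⁻¹) * (w l).coeff (ofList ((toList z).drop (d l)) * ω) else 0) else 0) := by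
      intro l
      by_cases hli : l = i
      · simp [hli]
      · rw [if_neg hli, if_neg hli, key (e l) _ (d l) (he l) z]
        by_cases hlz : d l ≤ (toList z).length
        · rw [if_pos hlz, if_pos hlz, coeff_quo, toList_ofList, List.length_drop]
          congr 1
          by_cases hzi : (toList z).length = d i
          · rw [if_pos hzi, if_pos (by omega)]
          · rw [if_neg hzi, if_neg (by omega)]
        · rw [if_neg hlz, if_neg hlz]
    rw [Finset.sum_congr rfl fun l _ => hterm l]
    by_cases hzi : (toList z).length = d i
    · have h2 := hrel' (z * ω)
      have hlen : (toList (z * ω)).length = m0 := by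
        rw [toList_mul, List.length_append, hzi, hωd]
      have h3 : ∀ l, (if d l ≤ (toList (z * ω)).length then
          (e l).coeff (ofList ((toList (z * ω)).take (d l))) *
            (w l).coeff (ofList ((toList (z * ω)).drop (d l))) else 0) =
          (if l = i then c * (e i).coeff z else 0) + (-c) * (if l = i then 0 else
          (if d l ≤ (toList z).length then
          (e l).coeff (ofList ((toList z).take (d l))) *
          (if (toList z).length = d i then
            (-c⁻¹) * (w l).coeff (ofList ((toList z).drop (d l)) * ω) else 0) else 0)) := by
        intro l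
        by_cases hli : l = i
        · subst hli
          rw [if_pos rfl, if_pos rfl, mul_zero, add_zero, if_pos (by omega)]
          have h4 := split (z * ω) z ω (d l) rfl hzi
          rw [← h4.1, ← h4.2, mul_comm]
        · rw [if_neg hli, if_neg hli, zero_add]
          by_cases hle : d l ≤ d i
          · have h5 : d l ≤ (toList z).length := by omega
            rw [if_pos (by omega), if_pos h5, if_pos hzi]
            have h6 := split (z * ω) (ofList ((toList z).take (d l)))
              (ofList ((toList z).drop (d l)) * ω) (d l)
              (by rw [← mul_assoc, take_mul_drop])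
              (by rw [toList_ofList, List.length_take]; omega)
            rw [← h6.1, ← h6.2]
            have hc0 : c ≠ 0 := hω
            field_simp
          · have h5 : ¬ d l ≤ (toList z).length := by omega
            rw [if_neg h5, mul_zero]
            split_ifs with h6
            · have h7 : (w l).coeff (ofList ((toList (z * ω)).drop (d l))) = 0 := by
                by_contra hcon
                have hlS : l ∈ S := by
                  rw [hS, Finset.mem_filter]
                  refine ⟨Finset.mem_univ _, _, hcon, ?_⟩
                  rw [toList_ofList, List.length_drop]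
                  omega
                exact hle (himax l hlS)
              rw [h7, mul_zero]
            · rfl
      rw [Finset.sum_congr rfl fun l _ => h3 l, Finset.sum_add_distrib, ← Finset.mul_sum,
        Finset.sum_ite_eq' Finset.univ i, if_pos (Finset.mem_univ i)] at h2
      have hc0 : c ≠ 0 := hω
      have h8 : c * ((e i).coeff z - ∑ l, (if l = i then 0 else
          (if d l ≤ (toList z).length then
          (e l).coeff (ofList ((toList z).take (d l))) *
          (if (toList z).length = d i then
            (-c⁻¹) * (w l).coeff (ofList ((toList z).drop (d l)) * ω) else 0) else 0))) = 0 := by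
        linear_combination h2
      have h9 := (mul_eq_zero.1 h8).resolve_left hc0
      exact sub_eq_zero.1 h9
    · have h2 : (e i).coeff z = 0 := by
        by_contra hcon
        apply hzi
        rw [← wd_one]
        exact he i z hcon
      rw [h2]
      symm
      apply Finset.sum_eq_zero
      intro l _
      rw [if_neg hzi, mul_zero, ite_self, ite_self]

end Pool.Agent.H32CE
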