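import Mathlib
import Pool.Agent.H32CE.TSUBP
import Pool.Agent.H32CE.TSUBH
import Pool.Agent.H32CE.TBRP
import Pool.Agent.H32CE.TANT
import Pool.Agent.H32CE.TF0
import Pool.Agent.H32CE.TWA
import Pool.Agent.H32CE.TF1
import Pool.Agent.H32CE.TP1
import Pool.Agent.H32CE.TIND2
import Pool.Agent.H32CE.TSUF
import Pool.Agent.H32CE.TP2
import Pool.Agent.H32CE.TP3
import Pool.Agent.H32CE.TP3U
import Pool.Agent.H32CE.TFRI
import Pool.Agent.H32CE.TSRJ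
import Pool.Agent.H32CE.TMOD
import Pool.Agent.H32CE.TSPC
import Pool.Agent.H32CE.TR1
import Pool.Agent.H32CE.TR2
import Pool.Agent.H32CE.TAPR
import Pool.Agent.H32CE.TB1
import Pool.Agent.H32CE.TRQ
import Pool.Agent.H32CE.TTHO
import Pool.Agent.H32CE.TLIFTY
import Pool.Agent.H32CE.TLIFTD
import Pool.Agent.H32CE.TC2T
import Pool.Agent.H32CE.TBAS
import Pool.Agent.H32CE.TGRP
import Pool.Agent.H32CE.TINT
import Pool.Agent.H32CE.TNM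
import Pool.Agent.H32CE.TSIZ
import Pool.Agent.H32CE.TGEN
import Pool.Agent.H32CE.TGENP
import Pool.Agent.H32CE.TLOG
import Pool.Agent.H32CE.TPSO
import Pool.Agent.H32CE.TDIF
import Pool.Agent.H32CE.TLIN
import Pool.Agent.H32CE.TEXP
import Pool.Agent.H32CE.TNMS
import Pool.Agent.H32CE.TC2G
import Pool.Agent.H32CE.TSUB2
import Pool.Agent.H32CE.TBAS2
import Pool.Agent.H32CE.TPRM2
import Pool.Agent.H32CE.TLAT2
import Pool.Agent.H32CE.TRB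
import Pool.Agent.H32CE.TUMI
import Pool.Agent.H32CE.TKB
import Pool.Agent.H32CE.TUM
import Pool.Agent.H32CE.TLB
import Pool.Agent.H32CE.TQB
import Pool.Agent.H32CE.TCOMP
import Pool.Agent.H32CE.TCOMPE
import Pool.Agent.H32CE.TNOR
import Pool.Agent.H32CE.TRED
import Pool.Agent.H32CE.TH1
import Pool.Agent.H32CE.TP2STEP
import Pool.Agent.H32CE.TP3STEP
import Pool.Agent.H32CE.TFIN
import Pool.Agent.H32CE.TBD
import Pool.Agent.H32CE.TWP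
import Pool.Agent.H32CE.TDEC
import Pool.Agent.H32CE.TGRL
import Pool.Agent.H32CE.TLYN
import Pool.Agent.H32CE.TINJ
import Pool.Agent.H32CE.TMAG
import Pool.Agent.H32CE.TFINAL

set_option autoImplicit false

namespace Pool.Agent.H32CE

attribute [local instance 100] LieRing.ofAssociativeRing

theorem x_SUBP : S_SUBP := t_SUBP
theorem x_SUBH : S_SUBH := t_SUBH
theorem x_BRP : S_BRP := t_BRP
theorem x_ANT : S_ANT := t_ANT
theorem x_F0 : S_F0 := t_F0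
theorem x_WA : S_WA := t_WA
theorem x_F1 : S_F1 := t_F1
theorem x_P1 : S_P1 := t_P1 x_F0 x_WA
theorem x_IND2 : S_IND2 := t_IND2 x_F0 x_WA
theorem x_SUF : S_SUF := t_SUF x_F0 x_F1 x_IND2 x_ANT
theorem x_P2 : S_P2 := t_P2 x_SUF x_F1 x_IND2 x_BRP
theorem x_P3 : S_P3 := t_P3 x_SUF x_F1 x_IND2 x_P1 x_BRP
theorem x_P3U : S_P3U := t_P3U x_P3 x_F0 x_F1 x_WA x_P1 x_IND2
theorem x_FRI : S_FRI := t_FRI
theorem x_SRJ : S_SRJ := t_SRJ x_FRI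
theorem x_MOD : S_MOD := t_MOD
theorem x_SPC : S_SPC := t_SPC
theorem x_R1 : S_R1 := t_R1
theorem x_R2 : S_R2 := t_R2
theorem x_APR : S_APR := t_APR
theorem x_B1 : S_B1 := t_B1 x_MOD
theorem x_RQ : S_RQ := t_RQ x_MOD x_SPC x_R1 x_R2 x_APR
theorem x_THO : S_THO := t_THO x_SUBP
theorem x_LIFTY : S_LIFTY := t_LIFTY x_SUF x_THO x_F1 x_IND2 x_P1
theorem x_LIFTD : S_LIFTD := t_LIFTD x_SUF x_THO x_F1 x_IND2 x_P1 x_BRP x_B1
theorem x_C2T : S_C2T := t_C2T x_LIFTY x_LIFTD x_RQ x_THO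
theorem x_BAS : S_BAS := t_BAS
theorem x_GRP : S_GRP := t_GRP x_BAS
theorem x_INT : S_INT := t_INT
theorem x_NM : S_NM := t_NM
theorem x_SIZ : S_SIZ := t_SIZ x_NM
theorem x_GEN : S_GEN := t_GEN x_BAS x_INT
theorem x_GENP : S_GENP := t_GENP x_GEN x_BAS
theorem x_LOG : S_LOG := t_LOG x_GRP x_BAS
theorem x_PSO : S_PSO := t_PSO x_BAS
theorem x_DIF : S_DIF := t_DIF x_BAS x_PSO
theorem x_LIN : S_LIN := t_LIN x_BAS
theorem x_EXP : S_EXP := t_EXP x_BAS x_PSO x_LIN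
theorem x_NMS : S_NMS := t_NMS x_NM
theorem x_C2G : S_C2G := t_C2G x_C2T x_LOG x_GRP x_BAS
theorem x_SUB2 : S_SUB2 := t_SUB2
theorem x_BAS2 : S_BAS2 := t_BAS2
theorem x_PRM2 : S_PRM2 := t_PRM2 x_SUB2
theorem x_LAT2 : S_LAT2 := t_LAT2 x_BAS2 x_PRM2 x_FRI
theorem x_RB : S_RB := t_RB
theorem x_UMI : S_UMI := t_UMI x_SUB2 x_BAS2 x_PRM2 x_LAT2 x_SRJ x_RB
theorem x_KB : S_KB := t_KB
theorem x_UM : S_UM := t_UM x_UMI x_LAT2 x_SUB2 x_PRM2 x_BAS2 x_KB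
theorem x_LB : S_LB := t_LB x_RB x_KB
theorem x_QB : S_QB := t_QB x_RB x_KB
theorem x_COMP : S_COMP := t_COMP x_P1 x_NM
theorem x_COMPE : S_COMPE := t_COMPE x_P1 x_NM
theorem x_NOR : S_NOR := t_NOR x_BAS x_GRP x_P1 x_INT x_NM
theorem x_RED : S_RED := t_RED x_BAS x_INT
theorem x_H1 : S_H1 := t_H1 x_BAS x_GRP x_INT x_SIZ x_GEN x_COMP x_COMPE x_RED x_NM
theorem x_P2STEP : S_P2STEP := t_P2STEP x_BAS x_GRP x_INT x_SIZ x_GEN x_NM x_NMS x_LIN x_PSO x_P2 x_UM x_RB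
theorem x_P3STEP : S_P3STEP := t_P3STEP x_BAS x_GRP x_INT x_SIZ x_GEN x_GENP x_NM x_LIN x_PSO x_DIF x_EXP x_P3 x_P3U x_QB x_C2G
theorem x_FIN : S_FIN := t_FIN x_BAS x_INT x_SIZ x_GENP x_NM x_LIN x_EXP x_LB
theorem x_BD : S_BD := t_BD x_BAS x_NOR x_H1 x_P2STEP x_P3STEP x_FIN
theorem x_WP : S_WP := t_WP
theorem x_DEC : S_DEC := t_DEC x_BD x_WP
theorem x_GRL : S_GRL := t_GRL
theorem x_LYN : S_LYN := t_LYN
theorem x_INJ : S_INJ := t_INJ x_LYN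
theorem x_MAG : S_MAG := t_MAG x_GRL x_INJ x_BAS
theorem x_FINAL : S_FINAL := t_FINAL x_DEC x_MAG

end Pool.Agent.H32CE
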