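import Pool.Agent.H32CE.St

/-! NM: norm facts. -/

set_option autoImplicit false

namespace Pool.Agent.H32CE

namespace TNM

variable {ι : Type}

lemma nm_eq (f : T ι) (s : Finset (FreeMonoid ι)) (hs : f.coeff.support ⊆ s) :
    nm f = ∑ m ∈ s, |f.coeff m| := by
  unfold nm
  exact Finsupp.sum_of_support_subset _ hs _ (fun _ _ => abs_zero)

lemma nm_eq' (f : T ι) : nm f = ∑ m ∈ f.coeff.support, |f.coeff m| := nm_eq f _ subset_rfl

lemma nm_nonneg (f : T ι) : 0 ≤ nm f := by
  rw [nm_eq']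
  exact Finset.sum_nonneg fun _ _ => abs_nonneg _

lemma nm_add (f g : T ι) : nm (f + g) ≤ nm f + nm g := by
  classical
  have h1 : (f + g).coeff.support ⊆ f.coeff.support ∪ g.coeff.support := by
    rw [MonoidAlgebra.coeff_add]
    exact Finsupp.support_add
  rw [nm_eq _ _ h1, nm_eq f _ Finset.subset_union_left, nm_eq g _ Finset.subset_union_right,
    ← Finset.sum_add_distrib]
  refine Finset.sum_le_sum fun m _ => ?_
  rw [MonoidAlgebra.coeff_add, Finsupp.add_apply]
  exact abs_add_le _ _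

lemma nm_zero : nm (0 : T ι) = 0 := by
  unfold nm
  simp

lemma nm_single (m : FreeMonoid ι) (r : ℝ) : nm (MonoidAlgebra.single m r : T ι) = |r| := by
  unfold nm
  rw [MonoidAlgebra.coeff_single, Finsupp.sum_single_index abs_zero]

lemma nm_sum {κ : Type} (s : Finset κ) (f : κ → T ι) : nm (∑ i ∈ s, f i) ≤ ∑ i ∈ s, nm (f i) := by
  classical
  induction s using Finset.induction_on with
  | empty => simp [nm_zero]
  | insert a s ha ih =>
    rw [Finset.sum_insert ha, Finset.sum_insert ha]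
    exact (nm_add _ _).trans (add_le_add le_rfl ih)

lemma nm_mul (f g : T ι) : nm (f * g) ≤ nm f * nm g := by
  rw [MonoidAlgebra.mul_def, nm_eq' f, nm_eq' g]
  unfold Finsupp.sum
  refine (nm_sum _ _).trans ?_
  rw [Finset.sum_mul]
  refine Finset.sum_le_sum fun a _ => ?_
  refine (nm_sum _ _).trans ?_
  rw [Finset.mul_sum]
  refine Finset.sum_le_sum fun b _ => ?_
  rw [nm_single, abs_mul]

lemma nm_smul (c : ℝ) (f : T ι) : nm (c • f) = |c| * nm f := by
  have h1 : (c • f).coeff.support ⊆ f.coeff.support := by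
    rw [MonoidAlgebra.coeff_smul]
    exact Finsupp.support_smul
  rw [nm_eq _ _ h1, nm_eq' f, Finset.mul_sum]
  refine Finset.sum_congr rfl fun m _ => ?_
  rw [MonoidAlgebra.coeff_smul_apply, smul_eq_mul, abs_mul]

lemma nm_coeff (f : T ι) (m : FreeMonoid ι) : |f.coeff m| ≤ nm f := by
  classical
  rw [nm_eq f (insert m f.coeff.support) (Finset.subset_insert _ _)]
  exact Finset.single_le_sum (f := fun m => |f.coeff m|) (fun _ _ => abs_nonneg _)
    (Finset.mem_insert_self _ _)

lemma nm_eq_zero (f : T ι) (h : nm f = 0) : f = 0 := by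
  rw [← MonoidAlgebra.coeff_eq_zero]
  ext m
  have h1 := nm_coeff f m
  rw [h] at h1
  exact abs_eq_zero.1 (le_antisymm h1 (abs_nonneg _))

lemma nm_neg (f : T ι) : nm (-f) = nm f := by
  have := nm_smul (-1) f
  rw [neg_one_smul, abs_neg, abs_one, one_mul] at this
  exact this

lemma nm_br (f g : T ι) : nm (br f g) ≤ 2 * nm f * nm g := by
  unfold br
  rw [sub_eq_add_neg]
  refine (nm_add _ _).trans ?_
  rw [nm_neg]
  have h1 := nm_mul f g
  have h2 := nm_mul g f
  nlinarith

end TNM

theorem t_NM : S_NM := by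
  intro ι f g c
  exact ⟨TNM.nm_add f g, TNM.nm_mul f g, TNM.nm_smul c f, TNM.nm_nonneg f, TNM.nm_eq_zero f,
    TNM.nm_coeff f, TNM.nm_br f g⟩

end Pool.Agent.H32CE
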