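import Pool.Agent.H32CE.St

set_option autoImplicit false

/-!
# RB: bounded rational solutions
-/

namespace Pool.Agent.H32CE

open Finset

namespace TRB

/-- determinants of integer matrices with bounded entries -/
lemma det_bd {ρ K : ℕ} (hρ : ρ ≤ K) (B : ℕ) (hB : 1 ≤ B) (A : Matrix (Fin ρ) (Fin ρ) ℤ)
    (hA : ∀ i j, |A i j| ≤ B) : |A.det| ≤ (K.factorial : ℤ) * (B : ℤ) ^ K := by
  have h := Matrix.det_le (abv := (AbsoluteValue.abs : AbsoluteValue ℤ ℤ)) (A := A) (x := (B : ℤ))
    (fun i j => hA i j)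
  rw [Fintype.card_fin, nsmul_eq_mul] at h
  refine (show |A.det| ≤ (ρ.factorial : ℤ) * (B : ℤ) ^ ρ from h).trans ?_
  have hB' : (1:ℤ) ≤ B := by exact_mod_cast hB
  apply mul_le_mul
  · exact_mod_cast Nat.factorial_le hρ
  · exact pow_le_pow_right₀ hB' hρ
  · positivity
  · positivity

/-- a maximal nonsingular square submatrix -/
lemma exists_max {N K : ℕ} (M : Matrix (Fin N) (Fin K) ℤ) : ∃ (ρ : ℕ) (f : Fin ρ → Fin N)
    (g : Fin ρ → Fin K), ρ ≤ K ∧ (M.submatrix f g).det ≠ 0 ∧
      ∀ (f' : Fin (ρ + 1) → Fin N) (g' : Fin (ρ + 1) → Fin K), (M.submatrix f' g').det = 0 := by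
  classical
  set P : ℕ → Prop := fun ρ => ∃ (f : Fin ρ → Fin N) (g : Fin ρ → Fin K),
    (M.submatrix f g).det ≠ 0 with hP
  have hle : ∀ ρ, P ρ → ρ ≤ K := by
    rintro ρ ⟨f, g, h⟩
    have hg : Function.Injective g := by
      intro s t hst
      by_contra hne
      apply h
      apply Matrix.det_zero_of_column_eq hne
      intro i
      rw [Matrix.submatrix_apply, Matrix.submatrix_apply, hst]
    have := Fintype.card_le_of_injective g hg
    simpa using this
  have h0 : P 0 := ⟨Fin.elim0, Fin.elim0, by rw [Matrix.det_fin_zero]; exact one_ne_zero⟩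
  obtain ⟨f, g, h⟩ := Nat.findGreatest_spec (P := P) (Nat.zero_le K) h0
  refine ⟨_, f, g, Nat.findGreatest_le K, h, ?_⟩
  intro f' g'
  by_contra hne
  have h1 : P (Nat.findGreatest P K + 1) := ⟨f', g', hne⟩
  have h2 := hle _ h1
  exact Nat.findGreatest_is_greatest (Nat.lt_succ_self _) h2 h1

/-- the bordered determinant -/
lemma border {N K ρ : ℕ} (M : Matrix (Fin N) (Fin K) ℤ) (f : Fin ρ → Fin N) (g : Fin ρ → Fin K)
    (hdet : (M.submatrix f g).det ≠ 0)
    (hmax : ∀ (f' : Fin (ρ + 1) → Fin N) (g' : Fin (ρ + 1) → Fin K),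
      (M.submatrix f' g').det = 0) (i : Fin N) (k : Fin K) :
    ((M.submatrix f g).det : ℝ) * M i k =
      ∑ s, ∑ t, (M i (g s) : ℝ) * ((M.submatrix f g).adjugate s t : ℝ) * M (f t) k := by
  classical
  set A : Matrix (Fin ρ) (Fin ρ) ℤ := M.submatrix f g with hA
  set φ : ℤ →+* ℝ := Int.castRingHom ℝ with hφ
  set AR : Matrix (Fin ρ) (Fin ρ) ℝ := A.map φ with hAR
  have hdetR : AR.det = (A.det : ℝ) := by
    rw [hAR, ← RingHom.mapMatrix_apply, ← RingHom.map_det]
    rfl
  have hne : AR.det ≠ 0 := by rw [hdetR]; exact_mod_cast hdet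
  have hadj : ∀ s t, AR.adjugate s t = (A.adjugate s t : ℝ) := by
    intro s t
    have : AR.adjugate = A.adjugate.map φ := by
      rw [hAR, ← RingHom.mapMatrix_apply, ← RingHom.map_adjugate]
      rfl
    rw [this]; rfl
  haveI : Invertible AR := AR.invertibleOfIsUnitDet (isUnit_iff_ne_zero.mpr hne)
  set Bm : Matrix (Fin ρ) (Fin 1) ℝ := fun t _ => (M (f t) k : ℝ) with hBm
  set Cm : Matrix (Fin 1) (Fin ρ) ℝ := fun _ s => (M i (g s) : ℝ) with hCm
  set Dm : Matrix (Fin 1) (Fin 1) ℝ := fun _ _ => (M i k : ℝ) with hDm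
  have h1 := Matrix.det_fromBlocks₁₁ AR Bm Cm Dm
  have h2 : (Matrix.fromBlocks AR Bm Cm Dm).det = 0 := by
    set e : Fin (ρ + 1) ≃ Fin ρ ⊕ Fin 1 := finSumFinEquiv.symm with he
    have h3 := hmax (fun x => Sum.elim f (fun _ => i) (e x)) (fun x => Sum.elim g (fun _ => k) (e x))
    have h4 : (Matrix.fromBlocks AR Bm Cm Dm).submatrix e e =
        (M.submatrix (fun x => Sum.elim f (fun _ => i) (e x))
          (fun x => Sum.elim g (fun _ => k) (e x))).map φ := by
      ext x y
      rw [Matrix.submatrix_apply, Matrix.map_apply, Matrix.submatrix_apply]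
      rcases e x with s | s <;> rcases e y with t | t <;>
        simp [Matrix.fromBlocks, hAR, hA, hBm, hCm, hDm, hφ]
    have h5 := congrArg Matrix.det h4
    rw [Matrix.det_submatrix_equiv_self, ← RingHom.mapMatrix_apply, ← RingHom.map_det, h3,
      map_zero] at h5
    exact h5
  rw [h2] at h1
  have h3 : (Dm - Cm * ⅟AR * Bm).det = 0 := by
    rcases mul_eq_zero.mp h1.symm with h | h
    · exact absurd h hne
    · exact h
  rw [Matrix.det_fin_one, Matrix.sub_apply] at h3
  have h4 : (⅟AR) = (AR.det)⁻¹ • AR.adjugate := by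
    rw [Matrix.invOf_eq_nonsing_inv, Matrix.inv_def, Ring.inverse_eq_inv]
  rw [h4, Matrix.mul_smul, Matrix.smul_mul, Matrix.smul_apply, smul_eq_mul] at h3
  have h5 : (Cm * AR.adjugate * Bm) 0 0 =
      ∑ s, ∑ t, (M i (g s) : ℝ) * (A.adjugate s t : ℝ) * M (f t) k := by
    rw [Matrix.mul_apply]
    have : ∀ t, (Cm * AR.adjugate) 0 t * Bm t 0 =
        ∑ s, (M i (g s) : ℝ) * (A.adjugate s t : ℝ) * M (f t) k := by
      intro t
      rw [Matrix.mul_apply, Finset.sum_mul]
      apply Finset.sum_congr rfl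
      intro s _
      rw [hadj]
    rw [Finset.sum_congr rfl (fun t _ => this t), Finset.sum_comm]
  rw [h5] at h3
  have h6 : (M i k : ℝ) = (AR.det)⁻¹ *
      ∑ s, ∑ t, (M i (g s) : ℝ) * (A.adjugate s t : ℝ) * M (f t) k := by
    have : Dm 0 0 = (M i k : ℝ) := rfl
    rw [this] at h3
    linarith
  rw [← hdetR]
  conv_lhs => rw [h6]
  rw [← mul_assoc, mul_inv_cancel₀ hne, one_mul]

end TRB

theorem t_RB : S_RB := by
  classical
  intro N K
  refine ⟨(K ^ 2 + 1) * K.factorial, K + 1, ?_⟩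
  intro B M h hB hM hh ⟨z, hz⟩
  obtain ⟨ρ, f, g, hρ, hdet, hmax⟩ := TRB.exists_max M
  set A : Matrix (Fin ρ) (Fin ρ) ℤ := M.submatrix f g with hA
  have hB' : (1:ℤ) ≤ B := by exact_mod_cast hB
  have hdb := TRB.det_bd hρ B hB A (fun i j => hM _ _)
  have hadjb : ∀ s t, |A.adjugate s t| ≤ (K.factorial : ℤ) * (B : ℤ) ^ K := by
    intro s t
    rw [Matrix.adjugate_apply]
    apply TRB.det_bd hρ B hB
    intro i j
    rw [Matrix.updateRow_apply]
    split_ifs with h1
    · rw [Pi.single_apply]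
      split_ifs
      · simpa using hB'
      · simp
    · exact hM _ _
  set w : Fin K → ℤ := fun k => ∑ s, if g s = k then ∑ t, A.adjugate s t * h (f t) else 0 with hw
  have hwsum : ∀ i, ∑ k, M i k * w k = ∑ s, ∑ t, M i (g s) * A.adjugate s t * h (f t) := by
    intro i
    simp only [hw, Finset.mul_sum]
    rw [Finset.sum_comm]
    apply Finset.sum_congr rfl
    intro s _
    have : ∀ k, M i k * (if g s = k then ∑ t, A.adjugate s t * h (f t) else 0) =
        if g s = k then M i (g s) * ∑ t, A.adjugate s t * h (f t) else 0 := by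
      intro k
      split_ifs with hk
      · rw [hk]
      · ring
    rw [Finset.sum_congr rfl (fun k _ => this k), Finset.sum_ite_eq, if_pos (Finset.mem_univ _),
      Finset.mul_sum]
    apply Finset.sum_congr rfl
    intro t _
    ring
  have hkey : ∀ i, ∑ k, M i k * w k = A.det * h i := by
    intro i
    have h1 : ((∑ k, M i k * w k : ℤ) : ℝ) = ((A.det * h i : ℤ) : ℝ) := by
      rw [hwsum]
      simp only [Int.cast_sum, Int.cast_mul]
      rw [← hz i, Finset.mul_sum]
      have h2 : ∀ k, (A.det : ℝ) * ((M i k : ℝ) * z k) =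
          ∑ s, ∑ t, (M i (g s) : ℝ) * (A.adjugate s t : ℝ) * ((M (f t) k : ℝ) * z k) := by
        intro k
        have h3 := TRB.border M f g hdet hmax i k
        rw [← mul_assoc, h3, Finset.sum_mul]
        apply Finset.sum_congr rfl
        intro s _
        rw [Finset.sum_mul]
        apply Finset.sum_congr rfl
        intro t _
        ring
      rw [Finset.sum_congr rfl (fun k _ => h2 k)]
      symm
      rw [Finset.sum_comm]
      apply Finset.sum_congr rfl
      intro s _
      rw [Finset.sum_comm]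
      apply Finset.sum_congr rfl
      intro t _
      rw [← Finset.mul_sum, hz (f t)]
    exact_mod_cast h1
  have hwb : ∀ k, |w k| ≤ (K : ℤ) ^ 2 * ((K.factorial : ℤ) * (B : ℤ) ^ (K + 1)) := by
    intro k
    simp only [hw]
    have h1 : ∀ s t, |A.adjugate s t * h (f t)| ≤ (K.factorial : ℤ) * (B : ℤ) ^ (K + 1) := by
      intro s t
      rw [abs_mul, pow_succ, ← mul_assoc]
      exact mul_le_mul (hadjb s t) (hh _) (abs_nonneg _) (by positivity)
    have h2 : ∀ s, |if g s = k then ∑ t, A.adjugate s t * h (f t) else 0| ≤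
        (K : ℤ) * ((K.factorial : ℤ) * (B : ℤ) ^ (K + 1)) := by
      intro s
      split_ifs
      · refine (Finset.abs_sum_le_sum_abs _ _).trans ((Finset.sum_le_sum (fun t _ => h1 s t)).trans ?_)
        rw [Finset.sum_const, Finset.card_univ, Fintype.card_fin, nsmul_eq_mul]
        apply mul_le_mul_of_nonneg_right _ (by positivity)
        exact_mod_cast hρ
      · rw [abs_zero]; positivity
    refine (Finset.abs_sum_le_sum_abs _ _).trans ((Finset.sum_le_sum (fun s _ => h2 s)).trans ?_)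
    rw [Finset.sum_const, Finset.card_univ, Fintype.card_fin, nsmul_eq_mul, pow_two, mul_assoc]
    apply mul_le_mul_of_nonneg_right _ (by positivity)
    exact_mod_cast hρ
  have hpos : (0:ℤ) ≤ (K.factorial : ℤ) * (B : ℤ) ^ (K + 1) := by positivity
  refine ⟨A.det.natAbs, fun k => A.det.sign * w k, ?_, ?_, ?_, ?_⟩
  · exact Int.natAbs_pos.mpr hdet
  · have h1 : ((A.det.natAbs : ℕ) : ℤ) ≤ (((K ^ 2 + 1) * K.factorial * B ^ (K + 1) : ℕ) : ℤ) := by
      rw [Int.natCast_natAbs]
      push_cast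
      have h2 : (B : ℤ) ^ K ≤ (B : ℤ) ^ (K + 1) := pow_le_pow_right₀ hB' (Nat.le_succ K)
      have h3 : (K.factorial : ℤ) * (B : ℤ) ^ K ≤ (K.factorial : ℤ) * (B : ℤ) ^ (K + 1) :=
        mul_le_mul_of_nonneg_left h2 (by positivity)
      have h4 : (0:ℤ) ≤ (K : ℤ) ^ 2 * ((K.factorial : ℤ) * (B : ℤ) ^ (K + 1)) := by positivity
      nlinarith
    exact_mod_cast h1
  · intro k
    rw [abs_mul]
    have h1 : |A.det.sign| ≤ 1 := by
      rcases lt_trichotomy A.det 0 with h | h | h
      · rw [Int.sign_eq_neg_one_of_neg h]; norm_num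
      · exact absurd h hdet
      · rw [Int.sign_eq_one_of_pos h]; norm_num
    have h2 := hwb k
    have h3 : |A.det.sign| * |w k| ≤ 1 * |w k| := mul_le_mul_of_nonneg_right h1 (abs_nonneg _)
    push_cast
    nlinarith
  · intro i
    have h1 : ∑ k, M i k * (A.det.sign * w k) = A.det.sign * ∑ k, M i k * w k := by
      rw [Finset.mul_sum]
      apply Finset.sum_congr rfl
      intro k _
      ring
    rw [h1, hkey i, ← mul_assoc, Int.sign_mul_self_eq_abs, Int.natCast_natAbs]

end Pool.Agent.H32CE
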