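import Pool.Agent.H32CE.St

set_option autoImplicit false

namespace Pool.Agent.H32CE

namespace TSRJ

section gen

variable {N : Type} [Monoid N]

/-- homogeneous of weight `n` -/
def Hg (W : N → ℕ) (n : ℕ) (f : MonoidAlgebra ℝ N) : Prop := ∀ x, f.coeff x ≠ 0 → W x = n

/-- component of weight `n` -/
noncomputable def hc (W : N → ℕ) (n : ℕ) : MonoidAlgebra ℝ N →ₗ[ℝ] MonoidAlgebra ℝ N where
  toFun f := .ofCoeff (f.coeff.filter (fun x => W x = n))
  map_add' f g := by
    apply MonoidAlgebra.coeff_injective
    simp [Finsupp.filter_add]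
  map_smul' r f := by
    apply MonoidAlgebra.coeff_injective
    simp [Finsupp.filter_smul]

theorem hc_coeff (W : N → ℕ) (n : ℕ) (f : MonoidAlgebra ℝ N) (x : N) :
    (hc W n f).coeff x = if W x = n then f.coeff x else 0 := by
  simp [hc, Finsupp.filter_apply]

theorem hc_hg (W : N → ℕ) (n : ℕ) (f : MonoidAlgebra ℝ N) : Hg W n (hc W n f) := by
  intro x hx
  by_contra h
  rw [hc_coeff, if_neg h] at hx
  exact hx rfl

theorem hc_self {W : N → ℕ} {n : ℕ} {f : MonoidAlgebra ℝ N} (h : Hg W n f) : hc W n f = f := by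
  apply MonoidAlgebra.coeff_injective
  ext x
  rw [hc_coeff]
  by_cases hx : f.coeff x = 0
  · rw [hx]; simp
  · rw [if_pos (h x hx)]

theorem hc_ne {W : N → ℕ} {n n' : ℕ} (hn : n' ≠ n) {f : MonoidAlgebra ℝ N} (h : Hg W n' f) :
    hc W n f = 0 := by
  apply MonoidAlgebra.coeff_injective
  ext x
  rw [hc_coeff]
  by_cases hx : f.coeff x = 0
  · rw [hx]; simp
  · rw [if_neg (by rw [h x hx]; exact hn)]
    simp

theorem hc_of_hg {W : N → ℕ} {n n' : ℕ} {f : MonoidAlgebra ℝ N} (h : Hg W n' f) :
    hc W n f = if n' = n then f else 0 := by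
  split_ifs with hn
  · subst hn; exact hc_self h
  · exact hc_ne hn h

theorem hg_zero (W : N → ℕ) (n : ℕ) : Hg W n 0 := by
  intro x hx
  simp at hx

theorem hg_add {W : N → ℕ} {n : ℕ} {f g : MonoidAlgebra ℝ N} (hf : Hg W n f) (hg : Hg W n g) :
    Hg W n (f + g) := by
  intro x hx
  by_cases h : f.coeff x = 0
  · by_cases h' : g.coeff x = 0
    · exfalso; apply hx; rw [MonoidAlgebra.coeff_add, Finsupp.add_apply, h, h', add_zero]
    · exact hg x h'
  · exact hf x h

theorem hg_smul {W : N → ℕ} {n : ℕ} {f : MonoidAlgebra ℝ N} (r : ℝ) (hf : Hg W n f) :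
    Hg W n (r • f) := by
  intro x hx
  refine hf x fun h => hx ?_
  rw [MonoidAlgebra.coeff_smul_apply, h, smul_zero]

theorem hg_single {W : N → ℕ} {n : ℕ} {m : N} (r : ℝ) (h : W m = n) :
    Hg W n (MonoidAlgebra.single m r) := by
  classical
  intro x hx
  rw [MonoidAlgebra.coeff_single_apply] at hx
  by_cases hm : m = x
  · rw [← hm]; exact h
  · rw [if_neg hm] at hx; exact (hx rfl).elim

theorem hg_mul {W : N → ℕ} (hW : ∀ a b, W (a * b) = W a + W b) {a b : ℕ}
    {f g : MonoidAlgebra ℝ N} (hf : Hg W a f) (hg : Hg W b g) : Hg W (a + b) (f * g) := by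
  classical
  intro x hx
  rw [MonoidAlgebra.coeff_mul] at hx
  obtain ⟨m₁, h1, h2⟩ := Finset.exists_ne_zero_of_sum_ne_zero hx
  obtain ⟨m₂, h3, h4⟩ := Finset.exists_ne_zero_of_sum_ne_zero h2
  have hm : m₁ * m₂ = x := by
    by_contra h
    simp only [if_neg h] at h4
    exact h4 rfl
  rw [← hm, hW, hf m₁ (Finsupp.mem_support_iff.mp h1), hg m₂ (Finsupp.mem_support_iff.mp h3)]

end gen

variable {ι : Type}

theorem wd_one (w : ι → ℕ) : wd w (1 : FreeMonoid ι) = 0 := by simp [wd]

theorem wd_of (w : ι → ℕ) (i : ι) : wd w (FreeMonoid.of i) = w i := by simp [wd]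

theorem wd_mul (w : ι → ℕ) (a b : FreeMonoid ι) : wd w (a * b) = wd w a + wd w b := by
  simp [wd, FreeMonoid.toList_mul]

/-- weight of a pair of words -/
def w2 (w : ι → ℕ) (p : FreeMonoid ι × FreeMonoid ι) : ℕ := wd w p.1 + wd w p.2

theorem w2_mul (w : ι → ℕ) (a b : FreeMonoid ι × FreeMonoid ι) :
    w2 w (a * b) = w2 w a + w2 w b := by
  simp only [w2, Prod.fst_mul, Prod.snd_mul, wd_mul]
  omega

theorem cop_single_hg (w : ι → ℕ) (m : FreeMonoid ι) (r : ℝ) :
    Hg (w2 w) (wd w m) (cop ι (MonoidAlgebra.single m r)) := by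
  unfold cop
  rw [MonoidAlgebra.lift_single]
  apply hg_smul
  induction m using FreeMonoid.inductionOn' with
  | one =>
    rw [map_one, wd_one, MonoidAlgebra.one_def]
    exact hg_single 1 (by simp [w2, wd_one])
  | of_mul i m ih =>
    rw [map_mul, wd_mul]
    refine hg_mul (w2_mul w) ?_ ih
    rw [FreeMonoid.lift_eval_of]
    exact hg_add (hg_single 1 (by simp [w2, wd_one])) (hg_single 1 (by simp [w2, wd_one]))

theorem hc_cop (w : ι → ℕ) (n : ℕ) (f : T ι) :
    cop ι (hc (wd w) n f) = hc (w2 w) n (cop ι f) := by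
  induction f using MonoidAlgebra.induction_linear with
  | zero => simp
  | add f g hf hg => simp only [map_add, hf, hg]
  | single m r =>
    rw [hc_of_hg (hg_single r (rfl : wd w m = wd w m)), hc_of_hg (cop_single_hg w m r)]
    split_ifs
    · rfl
    · simp

theorem lft_single (m : FreeMonoid ι) (r : ℝ) :
    lft ι (MonoidAlgebra.single m r) = MonoidAlgebra.single (m, 1) r := by
  unfold lft
  simp [MonoidAlgebra.mapDomainAlgHom]

theorem rgt_single (m : FreeMonoid ι) (r : ℝ) :
    rgt ι (MonoidAlgebra.single m r) = MonoidAlgebra.single (1, m) r := by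
  unfold rgt
  simp [MonoidAlgebra.mapDomainAlgHom]

theorem hc_lft (w : ι → ℕ) (n : ℕ) (f : T ι) :
    lft ι (hc (wd w) n f) = hc (w2 w) n (lft ι f) := by
  induction f using MonoidAlgebra.induction_linear with
  | zero => simp
  | add f g hf hg => simp only [map_add, hf, hg]
  | single m r =>
    rw [hc_of_hg (hg_single r (rfl : wd w m = wd w m)), lft_single,
      hc_of_hg (n' := wd w m) (hg_single r (by simp [w2, wd_one]))]
    split_ifs
    · exact lft_single m r
    · simp

theorem hc_rgt (w : ι → ℕ) (n : ℕ) (f : T ι) :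
    rgt ι (hc (wd w) n f) = hc (w2 w) n (rgt ι f) := by
  induction f using MonoidAlgebra.induction_linear with
  | zero => simp
  | add f g hf hg => simp only [map_add, hf, hg]
  | single m r =>
    rw [hc_of_hg (hg_single r (rfl : wd w m = wd w m)), rgt_single,
      hc_of_hg (n' := wd w m) (hg_single r (by simp [w2, wd_one]))]
    split_ifs
    · exact rgt_single m r
    · simp

theorem prim_hc (w : ι → ℕ) (n : ℕ) {f : T ι} (hf : Prim f) : Prim (hc (wd w) n f) := by
  unfold Prim at hf ⊢
  rw [hc_cop, hf, map_add, hc_lft, hc_rgt]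

theorem prim_zero : Prim (0 : T ι) := by simp [Prim]

theorem prim_add {f g : T ι} (hf : Prim f) (hg : Prim g) : Prim (f + g) := by
  unfold Prim at *
  rw [map_add, map_add, map_add, hf, hg]
  abel

theorem prim_smul (r : ℝ) {f : T ι} (hf : Prim f) : Prim (r • f) := by
  unfold Prim at *
  rw [map_smul, map_smul, map_smul, hf, smul_add]

theorem hc_br (w : ι → ℕ) (n : ℕ) (i : ι) (f : T ι) :
    hc (wd w) n (br (X i) f) = br (X i) (if w i ≤ n then hc (wd w) (n - w i) f else 0) := by
  induction f using MonoidAlgebra.induction_linear with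
  | zero => simp [br]
  | add f g hf hg =>
    have h1 : br (X i) (f + g) = br (X i) f + br (X i) g := by unfold br; noncomm_ring
    rw [h1, map_add, hf, hg]
    split_ifs
    · rw [map_add]; unfold br; noncomm_ring
    · simp [br]
  | single m r =>
    have h1 : Hg (wd w) (w i + wd w m) (br (X i) (MonoidAlgebra.single m r)) := by
      unfold br
      rw [sub_eq_add_neg, ← neg_one_smul ℝ (MonoidAlgebra.single m r * X i)]
      refine hg_add ?_ (hg_smul _ ?_)
      · exact hg_mul (wd_mul w) (hg_single 1 (wd_of w i)) (hg_single r rfl)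
      · rw [add_comm]
        exact hg_mul (wd_mul w) (hg_single r rfl) (hg_single 1 (wd_of w i))
    rw [hc_of_hg h1, hc_of_hg (hg_single r (rfl : wd w m = wd w m))]
    by_cases h2 : w i + wd w m = n
    · rw [if_pos h2, if_pos (by omega), if_pos (by omega)]
    · rw [if_neg h2]
      by_cases h3 : w i ≤ n
      · rw [if_pos h3, if_neg (by omega)]; simp [br]
      · rw [if_neg h3]; simp [br]

theorem coeff_br (i j : ι) (f : T ι) : (br (X j) f).coeff (FreeMonoid.of i) = 0 := by
  classical
  induction f using MonoidAlgebra.induction_linear with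
  | zero => simp [br]
  | add f g hf hg =>
    have h1 : br (X j) (f + g) = br (X j) f + br (X j) g := by unfold br; noncomm_ring
    rw [h1, MonoidAlgebra.coeff_add, Finsupp.add_apply, hf, hg, add_zero]
  | single m r =>
    have h1 : br (X j) (MonoidAlgebra.single m r) =
        MonoidAlgebra.single (FreeMonoid.of j * m) r - MonoidAlgebra.single (m * FreeMonoid.of j) r := by
      unfold br X
      rw [MonoidAlgebra.single_mul_single, MonoidAlgebra.single_mul_single, one_mul, mul_one]
    have h2 : FreeMonoid.of j * m = FreeMonoid.of i ↔ m * FreeMonoid.of j = FreeMonoid.of i := by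
      constructor
      · intro h
        have h3 : FreeMonoid.toList (FreeMonoid.of j * m) = FreeMonoid.toList (FreeMonoid.of i) := by
          rw [h]
        rw [FreeMonoid.toList_mul, FreeMonoid.toList_of, FreeMonoid.toList_of] at h3
        simp only [List.singleton_append, List.cons.injEq] at h3
        obtain ⟨h4, h5⟩ := h3
        have h6 : m = 1 := FreeMonoid.toList.injective (by rw [h5]; rfl)
        rw [h6, h4, one_mul]
      · intro h
        have h3 : FreeMonoid.toList (m * FreeMonoid.of j) = FreeMonoid.toList (FreeMonoid.of i) := by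
          rw [h]
        rw [FreeMonoid.toList_mul, FreeMonoid.toList_of, FreeMonoid.toList_of] at h3
        have h4 := congrArg List.length h3
        simp only [List.length_append, List.length_singleton] at h4
        have h5 : FreeMonoid.toList m = [] := List.eq_nil_of_length_eq_zero (by omega)
        rw [h5] at h3
        simp only [List.nil_append, List.cons.injEq, and_true] at h3
        have h6 : m = 1 := FreeMonoid.toList.injective (by rw [h5]; rfl)
        rw [h6, h3, mul_one]
    rw [h1, MonoidAlgebra.coeff_sub, Finsupp.sub_apply, MonoidAlgebra.coeff_single_apply,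
      MonoidAlgebra.coeff_single_apply]
    simp only [h2, sub_self]

/-- the span of the generators and of the brackets of the generators with primitive elements -/
noncomputable def VV (k : ℕ) : Submodule ℝ (T (Fin k)) where
  carrier := {u | ∃ (c : Fin k → ℝ) (V : Fin k → T (Fin k)), (∀ i, Prim (V i)) ∧
    u = ∑ i, c i • X i + ∑ i, br (X i) (V i)}
  add_mem' := by
    rintro u v ⟨c, V, hV, rfl⟩ ⟨c', V', hV', rfl⟩
    refine ⟨fun i => c i + c' i, fun i => V i + V' i, fun i => prim_add (hV i) (hV' i), ?_⟩
    have h1 : ∀ i, br (X i) (V i + V' i) = br (X i) (V i) + br (X i) (V' i) := by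
      intro i; unfold br; noncomm_ring
    simp only [h1, add_smul, Finset.sum_add_distrib]
    abel
  zero_mem' := ⟨fun _ => 0, fun _ => 0, fun _ => prim_zero, by simp [br]⟩
  smul_mem' := by
    rintro r u ⟨c, V, hV, rfl⟩
    refine ⟨fun i => r * c i, fun i => r • V i, fun i => prim_smul r (hV i), ?_⟩
    have h1 : ∀ i, br (X i) (r • V i) = r • br (X i) (V i) := by
      intro i; unfold br; rw [smul_sub, mul_smul_comm, smul_mul_assoc]
    simp only [h1, mul_smul, smul_add, Finset.smul_sum]

end TSRJ

open TSRJ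

theorem t_SRJ (h1 : S_FRI) : S_SRJ := by
  intro k d m U _ hU hm hc0
  have hX : ∀ i : Fin k, X i ∈ VV k := by
    intro i
    refine ⟨Pi.single i 1, fun _ => 0, fun _ => prim_zero, ?_⟩
    have h2 : ∀ j : Fin k, br (X j) (0 : T (Fin k)) = 0 := by intro j; simp [br]
    simp only [h2, Finset.sum_const_zero, add_zero]
    rw [Finset.sum_eq_single i]
    · simp
    · intro j _ hj; simp [Pi.single_eq_of_ne hj]
    · simp
  have hbr : ∀ i : Fin k, ∀ u ∈ VV k, Prim u → br (X i) u ∈ VV k := by
    intro i u _ hu
    refine ⟨fun _ => 0, Pi.single i u, fun j => ?_, ?_⟩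
    · by_cases h : j = i
      · subst h; simpa using hu
      · simpa [Pi.single_eq_of_ne h] using prim_zero
    · simp only [zero_smul, Finset.sum_const_zero, zero_add]
      rw [Finset.sum_eq_single i]
      · simp
      · intro j _ hj; simp [Pi.single_eq_of_ne hj, br]
      · simp
  obtain ⟨c, V, hV, hUV⟩ := h1 (Fin k) (VV k) hX hbr U hU
  have hcz : ∀ i, c i = 0 := by
    intro i
    have h2 := hc0 i
    rw [hUV, MonoidAlgebra.coeff_add, Finsupp.add_apply, MonoidAlgebra.coeff_sum,
      MonoidAlgebra.coeff_sum, Finsupp.finsetSum_apply, Finsupp.finsetSum_apply] at h2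
    have h3 : ∑ j, (br (X j) (V j)).coeff (FreeMonoid.of i) = 0 :=
      Finset.sum_eq_zero fun j _ => coeff_br i j (V j)
    rw [h3, add_zero, Finset.sum_eq_single i] at h2
    · simpa [X] using h2
    · intro j _ hj
      have h4 : (X j : T (Fin k)).coeff (FreeMonoid.of i) = 0 := by
        classical
        unfold X
        rw [MonoidAlgebra.coeff_single_apply, if_neg]
        intro h; exact hj (FreeMonoid.of_injective h)
      rw [MonoidAlgebra.coeff_smul_apply, h4, smul_zero]
    · simp
  have hU2 : U = ∑ i, br (X i) (V i) := by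
    rw [hUV]; simp [hcz]
  refine ⟨fun i => if d i ≤ m then hc (wd d) (m - d i) (V i) else 0, fun i => ?_, ?_⟩
  · beta_reduce
    split_ifs
    · exact ⟨prim_hc d _ (hV i), hc_hg _ _ _⟩
    · exact ⟨prim_zero, hg_zero _ _⟩
  · have h2 : hc (wd d) m U = U := hc_self hm
    rw [← h2]
    conv_lhs => rw [hU2]
    rw [map_sum]
    exact Finset.sum_congr rfl fun i _ => hc_br d m i (V i)

end Pool.Agent.H32CE
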