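import Pool.Agent.H32CE.St

set_option autoImplicit false

/-! Task WP: the word problem modulo `D (c + 1)` is decidable. -/

namespace Pool.Agent.H32CE

namespace TWP

/-! ### computability of linear recursions -/

theorem primrec_sum {α ι : Type} [Primcodable α] (s : Finset ι) (f : ι → α → ℕ)
    (hf : ∀ i ∈ s, Primrec (f i)) : Primrec (fun a => ∑ i ∈ s, f i a) := by
  classical
  induction s using Finset.induction_on with
  | empty => simpa using Primrec.const 0
  | insert i s hi ih =>
    simp only [Finset.sum_insert hi]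
    exact Primrec.nat_add.comp (hf i (Finset.mem_insert_self _ _))
      (ih fun j hj => hf j (Finset.mem_insert_of_mem hj))

theorem primrec_pi {α σ : Type} [Primcodable α] [Primcodable σ] {M : ℕ} {f : α → Fin M → σ}
    (h : ∀ i, Primrec (fun a => f a i)) : Primrec f := by
  rw [Primrec.fin_curry]
  exact (Primrec.fin_curry₁ (f := fun i a => f a i)).mpr h |>.swap

/-- the linear recursion over `ℕ` -/
def rec {β : Type} {M : ℕ} (B : β → Fin M → Fin M → ℕ) (w0 : Fin M → ℕ) (L : List β) :
    Fin M → ℕ :=
  L.foldr (fun b s => fun m => ∑ m', B b m m' * s m') w0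

theorem primrec_rec {β : Type} [Primcodable β] [Finite β] {M : ℕ}
    (B : β → Fin M → Fin M → ℕ) (w0 : Fin M → ℕ) : Primrec (rec B w0) := by
  unfold rec
  have hg : Primrec (fun p : β × (Fin M → ℕ) => fun m => ∑ m', B p.1 m m' * p.2 m') := by
    refine primrec_pi fun m => ?_
    refine primrec_sum _ (fun m' (p : β × (Fin M → ℕ)) => B p.1 m m' * p.2 m') ?_
    intro m' _
    refine Primrec.nat_mul.comp ?_ ?_
    · exact (Primrec.dom_finite (fun b : β => B b m m')).comp Primrec.fst
    · exact Primrec.fin_app.comp Primrec.snd (Primrec.const m')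
  exact Primrec.list_foldr (f := fun L : List β => L) (g := fun _ => w0)
    (h := fun _ (p : β × (Fin M → ℕ)) => fun m => ∑ m', B p.1 m m' * p.2 m')
    Primrec.id (Primrec.const w0) (hg.comp Primrec.snd)

theorem intlin {β : Type} [Primcodable β] [Finite β] {ι : Type} [Fintype ι]
    (A : β → ι → ι → ℤ) (F : List β → ι → ℤ)
    (hF : ∀ b L i, F (b :: L) i = ∑ j, A b i j * F L j) (i : ι) :
    PrimrecPred (fun L => F L i = 0) := by
  classical
  set M := Fintype.card (ι ⊕ ι) with hM
  let e : ι ⊕ ι ≃ Fin M := Fintype.equivFin _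
  let B0 : β → ι ⊕ ι → ι ⊕ ι → ℕ := fun b x y => match x, y with
    | Sum.inl i, Sum.inl j => (A b i j).toNat
    | Sum.inl i, Sum.inr j => (-A b i j).toNat
    | Sum.inr i, Sum.inl j => (-A b i j).toNat
    | Sum.inr i, Sum.inr j => (A b i j).toNat
  let w : ι ⊕ ι → ℕ := fun x => match x with
    | Sum.inl i => (F [] i).toNat
    | Sum.inr i => (-F [] i).toNat
  let B : β → Fin M → Fin M → ℕ := fun b x y => B0 b (e.symm x) (e.symm y)
  let w0 : Fin M → ℕ := fun x => w (e.symm x)
  have hstep : ∀ b L x, rec B w0 (b :: L) (e x) = ∑ y, B0 b x y * rec B w0 L (e y) := by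
    intro b L x
    show ∑ m', B b (e x) m' * rec B w0 L m' = _
    rw [← Equiv.sum_comp e]
    refine Finset.sum_congr rfl fun y _ => ?_
    simp [B]
  have key : ∀ L i, F L i = (rec B w0 L (e (Sum.inl i)) : ℤ) - (rec B w0 L (e (Sum.inr i)) : ℤ) := by
    intro L
    induction L with
    | nil =>
      intro i
      show _ = (w0 (e (Sum.inl i)) : ℤ) - (w0 (e (Sum.inr i)) : ℤ)
      simp only [w0, w, Equiv.symm_apply_apply]
      exact (Int.toNat_sub_toNat_neg _).symm
    | cons b L ih =>
      intro i
      rw [hF, hstep, hstep, Fintype.sum_sum_type, Fintype.sum_sum_type]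
      have hj : ∀ j, A b i j * F L j =
          (((A b i j).toNat : ℤ) * (rec B w0 L (e (Sum.inl j)) : ℤ) +
            ((-A b i j).toNat : ℤ) * (rec B w0 L (e (Sum.inr j)) : ℤ)) -
          (((-A b i j).toNat : ℤ) * (rec B w0 L (e (Sum.inl j)) : ℤ) +
            ((A b i j).toNat : ℤ) * (rec B w0 L (e (Sum.inr j)) : ℤ)) := by
        intro j
        have h1 := Int.toNat_sub_toNat_neg (A b i j)
        rw [ih j]
        linear_combination (-(rec B w0 L (e (Sum.inl j)) : ℤ) +
          (rec B w0 L (e (Sum.inr j)) : ℤ)) * h1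
      rw [Finset.sum_congr rfl fun j _ => hj j]
      simp only [Finset.sum_sub_distrib, Finset.sum_add_distrib]
      simp only [B0]
      push_cast
      rfl
  have hP := primrec_rec B w0
  have h2 : PrimrecPred (fun L => rec B w0 L (e (Sum.inl i)) = rec B w0 L (e (Sum.inr i))) :=
    Primrec.eq.comp (Primrec.fin_app.comp hP (Primrec.const _))
      (Primrec.fin_app.comp hP (Primrec.const _))
  refine h2.of_eq fun L => ?_
  rw [key L i, sub_eq_zero]
  exact_mod_cast Iff.rfl

theorem primrecPred_forall {α ι : Type} [Primcodable α] (s : Finset ι) (p : ι → α → Prop)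
    (hp : ∀ i ∈ s, PrimrecPred (p i)) : PrimrecPred (fun a => ∀ i ∈ s, p i a) := by
  classical
  induction s using Finset.induction_on with
  | empty =>
    have h0 : PrimrecPred (fun _ : α => True) :=
      ⟨fun _ => isTrue trivial, by simpa using Primrec.const true⟩
    exact PrimrecPred.of_eq h0 fun a => by simp
  | insert i s hi ih =>
    refine ((hp i (Finset.mem_insert_self _ _)).and
      (ih fun j hj => hp j (Finset.mem_insert_of_mem hj))).of_eq fun a => ?_
    simp

/-! ### the Magnus coefficients -/

/-- sign -/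
def sg (s : Bool) : ℤ := if s then 1 else -1

/-- the scaled Magnus coefficients: `|m|! ` times the coefficient of `m` in `mag (mk L)` -/
def CZ {r : ℕ} : List (Fin r × Bool) → List (Fin r) → ℤ
  | [], m => if m = [] then 1 else 0
  | b :: L, m => ∑ t ∈ Finset.range (m.length + 1),
      if m.take t = List.replicate t b.1 then
        ((m.length.choose t : ℕ) : ℤ) * sg b.2 ^ t * CZ L (m.drop t) else 0

theorem mag_cons {r : ℕ} (b : Fin r × Bool) (L : List (Fin r × Bool)) :
    mag (FreeGroup.mk (b :: L)) = ex 1 ((sg b.2 : ℝ) • X b.1) * mag (FreeGroup.mk L) := by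
  have h1 : (FreeGroup.mk (b :: L) : FreeGroup (Fin r)) = FreeGroup.mk [b] * FreeGroup.mk L := by
    rw [FreeGroup.mul_mk]; rfl
  unfold mag
  rw [h1, map_mul, Units.val_mul]
  congr 1
  unfold magU
  rw [FreeGroup.lift_mk]
  obtain ⟨i, s⟩ := b
  cases s
  · simp only [List.map_cons, List.map_nil, List.prod_cons, List.prod_nil, mul_one, cond_false]
    show ex 1 (-X i) = _
    congr 1
    simp [sg]
  · simp only [List.map_cons, List.map_nil, List.prod_cons, List.prod_nil, mul_one, cond_true]
    show ex 1 (X i) = _
    congr 1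
    simp [sg]

theorem coeff_ex {r : ℕ} (n : ℕ) (x : T (Fin r)) :
    PowerSeries.coeff n (ex 1 x) = ((n.factorial : ℝ)⁻¹) • x ^ n := by
  unfold ex
  rw [PowerSeries.coeff_mk, if_pos (one_dvd n), Nat.div_one]

theorem X_pow {r : ℕ} (i : Fin r) (a : ℕ) :
    (X i : T (Fin r)) ^ a = MonoidAlgebra.single (FreeMonoid.ofList (List.replicate a i)) 1 := by
  induction a with
  | zero => rfl
  | succ a ih =>
    rw [pow_succ', ih]
    unfold X
    rw [MonoidAlgebra.single_mul_single, mul_one]
    rfl

theorem coeff_word {r : ℕ} (i : Fin r) (a : ℕ) (f : T (Fin r)) (m : List (Fin r)) :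
    ((X i : T (Fin r)) ^ a * f).coeff (FreeMonoid.ofList m) =
      if m.take a = List.replicate a i then f.coeff (FreeMonoid.ofList (m.drop a)) else 0 := by
  rw [X_pow]
  split_ifs with h
  · have h1 : FreeMonoid.ofList m = FreeMonoid.ofList (List.replicate a i) *
        FreeMonoid.ofList (m.drop a) := by
      rw [← h, ← FreeMonoid.ofList_append, List.take_append_drop]
    rw [h1, MonoidAlgebra.coeff_single_mul_mul, one_mul]
  · refine MonoidAlgebra.coeff_single_mul_of_forall_mul_ne _ _ ?_
    intro d hd
    apply h
    have h2 : m = List.replicate a i ++ FreeMonoid.toList d := by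
      have := congrArg FreeMonoid.toList hd
      rw [FreeMonoid.toList_mul] at this
      exact this.symm
    rw [h2, List.take_left' (by simp)]

/-- coefficient of the word `m` in degree `k` -/
noncomputable def cc {r : ℕ} (k : ℕ) (m : List (Fin r)) (L : List (Fin r × Bool)) : ℝ :=
  (cf k (FreeGroup.mk L)).coeff (FreeMonoid.ofList m)

theorem cc_cons {r : ℕ} (k : ℕ) (m : List (Fin r)) (b : Fin r × Bool) (L : List (Fin r × Bool)) :
    cc k m (b :: L) = ∑ p ∈ Finset.HasAntidiagonal.antidiagonal k,
      ((p.1.factorial : ℝ)⁻¹) * (sg b.2 : ℝ) ^ p.1 *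
        (if m.take p.1 = List.replicate p.1 b.1 then cc p.2 (m.drop p.1) L else 0) := by
  unfold cc cf
  rw [mag_cons, PowerSeries.coeff_mul, MonoidAlgebra.coeff_sum, Finsupp.finsetSum_apply]
  refine Finset.sum_congr rfl fun p _ => ?_
  rw [coeff_ex, smul_pow, smul_smul, smul_mul_assoc, MonoidAlgebra.coeff_smul_apply, coeff_word,
    smul_eq_mul]

theorem cc_eq {r : ℕ} (L : List (Fin r × Bool)) : ∀ (k : ℕ) (m : List (Fin r)),
    cc k m L = if m.length = k then (CZ L m : ℝ) / (k.factorial : ℝ) else 0 := by
  induction L with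
  | nil =>
    intro k m
    have h1 : (FreeGroup.mk ([] : List (Fin r × Bool))) = 1 := rfl
    unfold cc cf mag
    rw [h1, map_one, Units.val_one, PowerSeries.coeff_one]
    simp only [CZ]
    by_cases hk : k = 0
    · subst hk
      rw [if_pos rfl]
      by_cases hm : m = []
      · subst hm
        simp
      · rw [if_neg (by simpa using hm)]
        classical
        rw [MonoidAlgebra.one_def, MonoidAlgebra.coeff_single, Finsupp.single_apply, if_neg]
        intro h
        exact hm (congrArg FreeMonoid.toList h).symm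
    · rw [if_neg hk]
      split_ifs with h2 h3
      · subst h3; simp at h2; omega
      · simp
      · simp
  | cons b L ih =>
    intro k m
    rw [cc_cons]
    simp_rw [ih]
    by_cases hk : m.length = k
    · rw [if_pos hk]
      subst hk
      rw [Finset.Nat.sum_antidiagonal_eq_sum_range_succ_mk]
      simp only [CZ]
      push_cast
      rw [Finset.sum_div]
      refine Finset.sum_congr rfl fun t ht => ?_
      rw [Finset.mem_range] at ht
      by_cases h2 : m.take t = List.replicate t b.1
      · rw [if_pos h2, if_pos h2, if_pos (by simp),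
          Nat.choose_eq_factorial_div_factorial (by omega : t ≤ m.length),
          Nat.cast_div (Nat.factorial_mul_factorial_dvd_factorial (by omega)) (by positivity)]
        push_cast
        field_simp
      · rw [if_neg h2, if_neg h2]
        simp
    · rw [if_neg hk]
      refine Finset.sum_eq_zero fun p hp => ?_
      rw [Finset.HasAntidiagonal.mem_antidiagonal] at hp
      split_ifs with h2 h3
      · exfalso
        have h4 : p.1 ≤ m.length := by
          have := congrArg List.length h2
          rw [List.length_take, List.length_replicate] at this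
          omega
        rw [List.length_drop] at h3
        omega
      · simp
      · simp

theorem D_iff {r : ℕ} (c : ℕ) (L : List (Fin r × Bool)) :
    D (c + 1) (FreeGroup.mk L) ↔ ∀ m : List (Fin r), m.length ≤ c → (m ≠ [] → CZ L m = 0) := by
  constructor
  · intro h m hm hne
    have h1 : 1 ≤ m.length := List.length_pos_iff.mpr hne
    have h2 := cc_eq L m.length m
    rw [if_pos rfl] at h2
    unfold cc at h2
    rw [h m.length h1 (by omega)] at h2
    have h3 : (CZ L m : ℝ) / (m.length.factorial : ℝ) = 0 := h2.symm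
    rw [div_eq_zero_iff] at h3
    rcases h3 with h3 | h3
    · exact_mod_cast h3
    · exact absurd h3 (by positivity)
  · intro h k hk hkc
    refine MonoidAlgebra.ext (Finsupp.ext fun m => ?_)
    have h2 := cc_eq L k (FreeMonoid.toList m)
    unfold cc at h2
    rw [FreeMonoid.ofList_toList] at h2
    rw [h2]
    split_ifs with h3
    · have h4 : FreeMonoid.toList m ≠ [] := by
        intro h5
        rw [h5] at h3
        simp at h3
        omega
      rw [h _ (by omega) h4]
      simp
    · rfl

/-- words of length at most `c` -/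
abbrev Wo (r c : ℕ) : Type := {m : List (Fin r) // m.length ≤ c}

noncomputable instance (r c : ℕ) : Fintype (Wo r c) :=
  @Fintype.ofFinite _ (List.finite_length_le (Fin r) c).to_subtype

theorem main (r c : ℕ) : PrimrecPred (fun L : List (Fin r × Bool) => D (c + 1) (FreeGroup.mk L)) := by
  classical
  let F : List (Fin r × Bool) → Wo r c → ℤ := fun L m => CZ L m.1
  let A : Fin r × Bool → Wo r c → Wo r c → ℤ := fun b m m' =>
    ∑ t ∈ Finset.range (m.1.length + 1),
      if m.1.take t = List.replicate t b.1 ∧ m.1.drop t = m'.1 then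
        ((m.1.length.choose t : ℕ) : ℤ) * sg b.2 ^ t else 0
  have hF : ∀ b L i, F (b :: L) i = ∑ j, A b i j * F L j := by
    intro b L i
    simp only [F, A, CZ]
    simp_rw [Finset.sum_mul]
    rw [Finset.sum_comm]
    refine Finset.sum_congr rfl fun t _ => ?_
    have hd : (i.1.drop t).length ≤ c := by
      rw [List.length_drop]; exact (Nat.sub_le _ _).trans i.2
    rw [Finset.sum_eq_single (⟨i.1.drop t, hd⟩ : Wo r c)]
    · split_ifs with h1 h2 h2
      · rfl
      · exact absurd ⟨h1, rfl⟩ h2
      · exact absurd h2.1 h1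
      · simp
    · intro j _ hj
      rw [if_neg, zero_mul]
      rintro ⟨_, h2⟩
      exact hj (Subtype.ext h2.symm)
    · intro h; exact absurd (Finset.mem_univ _) h
  have h1 : PrimrecPred (fun L : List (Fin r × Bool) =>
      ∀ i ∈ (Finset.univ : Finset (Wo r c)).filter (fun i => i.1 ≠ []), F L i = 0) :=
    primrecPred_forall _ (fun i L => F L i = 0) fun i _ => intlin A F hF i
  refine h1.of_eq fun L => ?_
  rw [D_iff]
  constructor
  · intro h m hm hne
    exact h ⟨m, hm⟩ (by simpa using hne)
  · intro h i hi
    rw [Finset.mem_filter] at hi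
    exact h i.1 i.2 hi.2

end TWP

theorem t_WP : S_WP := by
  intro r c
  obtain ⟨inst, h⟩ := TWP.main r c
  exact ⟨inst, h.to_comp⟩

end Pool.Agent.H32CE
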